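import Pool.Agent.H66.TF.Defs

/-!
# Definitions for Part III (exchange relations, the norm)

* `gev x L`: value of a generalised monomial `L` (a list of ring elements and slots);
* `Once L`: every slot occurs exactly once in `L`;
* `CapR P M`: every sum over `M` alternating slots (filled by elements of `P`) vanishes;
* `FL L x z`: the doubly alternating sum attached to a generalised monomial with `m + m` slots;
* `pivProd N M`: the product of the pivots of a matrix `M` (with entries in a noncommutative ring).
-/

open Equiv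

namespace TF

/-- `P` is a two-sided ideal (as an additive subgroup). -/
structure TwoSided {R : Type*} [Ring R] (P : AddSubgroup R) : Prop where
  left : ∀ r, ∀ x ∈ P, r * x ∈ P
  right : ∀ r, ∀ x ∈ P, x * r ∈ P

/-- Value of a generalised monomial. -/
def gev {R ι : Type*} [Monoid R] (x : ι → R) (L : List (R ⊕ ι)) : R :=
  (L.map (Sum.elim id x)).prod

/-- Every slot occurs exactly once. -/
def Once {R ι : Type*} [DecidableEq ι] (L : List (R ⊕ ι)) : Prop :=
  ∀ i, (L.filterMap Sum.getRight?).count i = 1

/-- Every alternating sum over `M` slots vanishes. -/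
def CapR {R : Type*} [Ring R] (P : AddSubgroup R) (M : ℕ) : Prop :=
  ∀ L : List (R ⊕ Fin M), Once L → ∀ x : Fin M → R, (∀ i, x i ∈ P) →
    ∑ σ : Perm (Fin M), ((Perm.sign σ : ℤˣ) : ℤ) • gev (x ∘ σ) L = 0

/-- The doubly alternating sum of the generalised monomial `L`. -/
noncomputable def FL {R : Type*} [Ring R] {m : ℕ} (L : List (R ⊕ (Fin m ⊕ Fin m)))
    (x z : Fin m → R) : R :=
  ∑ σ : Perm (Fin m), ∑ τ : Perm (Fin m),
    (((Perm.sign σ * Perm.sign τ : ℤˣ)) : ℤ) • gev (Sum.elim (x ∘ σ) (z ∘ τ)) L

/-- The product of the pivots: `pivProd (N+1) M = pivProd N (M restricted to the last N indices) *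
((M⁻¹)₀₀)⁻¹`. -/
noncomputable def pivProd {R : Type*} [Ring R] : (N : ℕ) → Matrix (Fin N) (Fin N) R → R
  | 0, _ => 1
  | N + 1, M => pivProd N (M.submatrix Fin.succ Fin.succ) * Ring.inverse ((Ring.inverse M) 0 0)

end TF
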