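import Mathlib

/-!
# Definitions for Part IV (arrays, conjugation relations, pairs of matrices)

An array `c : Arr K N` is a function on triples `(i, a, b)`: `i` a letter, `a, b` vertices
(multiplicity of the arrow `a → b` with label `i`), or, for the matrices `t, t'` of a pair, the
number of entries `a` in row `(i, ρ)`.

`Move s t θ c` is the sum over all ways to move `κ j ≤ c (t j)` units from the cell `t j` to the cell
`s j` (for all `j`), with the divided power coefficient, of `θ` of the resulting array.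
-/

open Finset

namespace TF

abbrev Idx (K N : ℕ) : Type := Fin K × Fin N × Fin N

abbrev Arr (K N : ℕ) : Type := Idx K N → ℕ

/-- move `κ j` units from `t j` to `s j` -/
def mv {σ ι : Type*} [Fintype ι] [DecidableEq σ] (s t : ι → σ) (κ : ι → ℕ) (c : σ → ℕ) :
    σ → ℕ :=
  fun v => (c v + ∑ j ∈ univ.filter (fun j => s j = v), κ j) -
    ∑ j ∈ univ.filter (fun j => t j = v), κ j

def Move {σ ι : Type*} [Fintype ι] [DecidableEq ι] [DecidableEq σ] {A : Type*} [AddCommGroup A]
    (s t : ι → σ) (θ : (σ → ℕ) → A) (c : σ → ℕ) : A :=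
  ∑ κ ∈ Finset.Iic (fun j => c (t j)),
    (∏ j, (c (s j) + κ j).choose (κ j)) • θ (mv s t κ c)

/-- cells of the row `a` (all letters): arrows starting at `a` -/
def lft {K N : ℕ} (a : Fin N) : Fin K × Fin N → Idx K N := fun p => (p.1, a, p.2)

/-- cells of the column `a` (all letters): arrows ending at `a` -/
def rgt {K N : ℕ} (a : Fin N) : Fin K × Fin N → Idx K N := fun p => (p.1, p.2, a)

/-- cells of the row `ρ` of the letter `i` -/
def rowc {K N : ℕ} (i : Fin K) (ρ : Fin N) : Fin N → Idx K N := fun a => (i, ρ, a)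

/-- out-degree of the vertex `a` -/
def outd {K N : ℕ} (c : Arr K N) (a : Fin N) : ℕ := ∑ p : Fin K × Fin N, c (lft a p)

/-- in-degree of the vertex `a`; column sum of the column `a` -/
def ind {K N : ℕ} (c : Arr K N) (a : Fin N) : ℕ := ∑ p : Fin K × Fin N, c (rgt a p)

/-- row sums -/
def rsum {K N : ℕ} (t : Arr K N) (i : Fin K) (ρ : Fin N) : ℕ := ∑ a, t (rowc i ρ a)

/-- total -/
def tot {K N : ℕ} (t : Arr K N) : ℕ := ∑ v, t v

/-- invariance under conjugation by `1 + E_{ab}`, all `a ≠ b`: `Θ(uT) = Θ(Tu)` -/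
def ConjRel {K N : ℕ} {A : Type*} [AddCommGroup A] (θ : Arr K N → A) : Prop :=
  ∀ a b : Fin N, a ≠ b → ∀ c : Arr K N,
    Move (lft a) (lft b) θ c = Move (rgt b) (rgt a) θ c

/-- `θ` vanishes on arrays with some out-degree different from the in-degree -/
def Bal {K N : ℕ} {A : Type*} [AddCommGroup A] (θ : Arr K N → A) : Prop :=
  ∀ c : Arr K N, (∃ a, outd c a ≠ ind c a) → θ c = 0

/-- row relation for functions of pairs of matrices (two adjacent rows of the same letter) -/
def RowRel {K N : ℕ} {A : Type*} [AddCommGroup A] (ξ : Arr K N → Arr K N → A) : Prop :=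
  ∀ (i : Fin K) (ρ ρ' : Fin N), (ρ' : ℕ) = ρ + 1 → ∀ t t' : Arr K N,
    Move (rowc i ρ') (rowc i ρ) (fun u => ξ u t') t = Move (rowc i ρ) (rowc i ρ') (fun u => ξ t u) t'

/-- column relation for functions of pairs of matrices (two adjacent columns) -/
def ColRel {K N : ℕ} {A : Type*} [AddCommGroup A] (ξ : Arr K N → Arr K N → A) : Prop :=
  ∀ (a a' : Fin N), (a' : ℕ) = a + 1 → ∀ t t' : Arr K N,
    Move (rgt a') (rgt a) (fun u => ξ u t') t = Move (rgt a) (rgt a') (fun u => ξ t u) t'

/-- the row relation with the roles of the two matrices exchanged -/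
def RowRel' {K N : ℕ} {A : Type*} [AddCommGroup A] (ξ : Arr K N → Arr K N → A) : Prop :=
  RowRel (fun t t' => ξ t' t)

/-- the column relation with the roles of the two matrices exchanged -/
def ColRel' {K N : ℕ} {A : Type*} [AddCommGroup A] (ξ : Arr K N → Arr K N → A) : Prop :=
  ColRel (fun t t' => ξ t' t)

/-- `ξ` vanishes unless row sums and column sums match -/
def Match {K N : ℕ} {A : Type*} [AddCommGroup A] (ξ : Arr K N → Arr K N → A) : Prop :=
  ∀ t t' : Arr K N, ((∃ i ρ, rsum t i ρ ≠ rsum t' i ρ) ∨ (∃ a, ind t a ≠ ind t' a)) → ξ t t' = 0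

/-- Two rows (multisets of letters `x` above `y`) are semistandard: for every `j` there are at most
as many letters `≤ j` in the lower row as letters `< j` in the upper row. -/
def Good {ι : Type*} [Fintype ι] [LinearOrder ι] (x y : ι → ℕ) : Prop :=
  ∀ j, ∑ a ∈ univ.filter (fun a => a ≤ j), y a ≤ ∑ a ∈ univ.filter (fun a => a < j), x a

/-- the column `a` as a function on the rows `(i, ρ)` in lexicographic order -/
def colv {K N : ℕ} (t : Arr K N) (a : Fin N) : Fin K ×ₗ Fin N → ℕ :=
  fun p => t ((ofLex p).1, (ofLex p).2, a)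

def GoodRows {K N : ℕ} (t : Arr K N) : Prop :=
  ∀ (i : Fin K) (ρ ρ' : Fin N), (ρ' : ℕ) = ρ + 1 →
    Good (fun a => t (rowc i ρ a)) (fun a => t (rowc i ρ' a))

def GoodCols {K N : ℕ} (t : Arr K N) : Prop :=
  ∀ (a a' : Fin N), (a' : ℕ) = a + 1 → Good (colv t a) (colv t a')

/-- Littlewood–Richardson matrices -/
def LR {K N : ℕ} (t : Arr K N) : Prop := GoodRows t ∧ GoodCols t

/-- function to finitely supported function -/
noncomputable def toF {σ : Type*} [Finite σ] (c : σ → ℕ) : σ →₀ ℕ := Finsupp.equivFunOnFinite.symm c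

/-- the entry `T^i_{ab} = ∑_ρ U^i_{ρa} V^i_{ρb}` -/
noncomputable def pairPoly {K N : ℕ} (v : Idx K N) : MvPolynomial (Idx K N ⊕ Idx K N) ℤ :=
  ∑ ρ : Fin N, MvPolynomial.X (Sum.inl (v.1, ρ, v.2.1)) * MvPolynomial.X (Sum.inr (v.1, ρ, v.2.2))

/-- coefficient of `U^t V^{t'}` in `∏ (T^i_{ab})^{c^i_{ab}}` -/
noncomputable def Mco {K N : ℕ} (c t t' : Arr K N) : ℤ :=
  MvPolynomial.coeff (toF (Sum.elim t t')) (∏ v, pairPoly v ^ c v)

/-- the function on pairs attached to a function on arrays: coefficient of `U^t V^{t'}` in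
`Θ(Uᵀ V)` -/
noncomputable def xi {K N : ℕ} {A : Type*} [AddCommGroup A] (θ : Arr K N → A) (t t' : Arr K N) : A :=
  ∑ c ∈ Finset.piAntidiag univ (tot t), Mco c t t' • θ c

/-- `diag`: the matrix with `(i, a, a)` entry the `a`-th row sum of `c^i` -/
def rdiag {K N : ℕ} (c : Arr K N) : Arr K N :=
  fun v => if v.2.1 = v.2.2 then rsum c v.1 v.2.1 else 0

/-- the array of the cyclic word `v · y`: a path `0 → 1 → ⋯ → n` labelled by the letters of `v`,
closed by an arrow `n → 0` labelled by the last letter. -/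
def cyc {k n : ℕ} (v : Fin n → Fin k) : Arr (k + 1) (n + 1) :=
  fun q => (∑ j : Fin n, if (v j).castSucc = q.1 ∧ j.castSucc = q.2.1 ∧ j.succ = q.2.2 then 1 else 0)
    + if Fin.last k = q.1 ∧ Fin.last n = q.2.1 ∧ (0 : Fin (n + 1)) = q.2.2 then 1 else 0

/-- the array of a labelled graph with `D` edges, edge `e : s e → t e` with label `ℓ e` -/
def arr {K N D : ℕ} (ℓ : Fin D → Fin K) (s t : Fin D → Fin N) : Arr K N :=
  fun q => ∑ e : Fin D, if (ℓ e, s e, t e) = q then 1 else 0

end TF
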