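import Pool.Agent.H66.TF.Defs
import Pool.Agent.H34.Kem.KemA
import Pool.Agent.H34.Kem.KemF

/-!
# TF-CAPIN: a T-ideal of characteristic `p` with an identity contains some `IM (M+1)`

Adapter to `H34.Kem.multilin` and `H34.Kem.kemer`.
-/

open Finset Equiv

namespace TF

/-- words -/
private noncomputable def toFM : FreeSemigroup ℕ →ₙ* FreeMonoid ℕ := FreeSemigroup.lift FreeMonoid.of

private theorem toFM_eq (w : FreeSemigroup ℕ) : toFM w = FreeMonoid.ofList (w.head :: w.tail) := by
  induction w using FreeSemigroup.recOnMul with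
  | ih1 x => simp [toFM]
  | ih2 x y hx hy =>
    rw [map_mul, hy, hx]
    rfl

private theorem toFM_inj : Function.Injective toFM := by
  intro w w' h
  rw [toFM_eq, toFM_eq] at h
  have h2 := FreeMonoid.ofList.injective h
  cases w; cases w'
  simp only [List.cons.injEq] at h2
  simp [h2.1, h2.2]

private theorem mem_range_toFM (w : FreeMonoid ℕ) (hw : w ≠ 1) : w ∈ Set.range toFM := by
  obtain ⟨l, rfl⟩ := FreeMonoid.ofList.surjective w
  cases l with
  | nil => exact absurd rfl hw
  | cons a l => exact ⟨⟨a, l⟩, toFM_eq _⟩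

/-- the polynomial without constant term as an element of the free ring without unit. -/
private noncomputable def toNC (f : FA) : H34.Kem.NC ℕ :=
  MonoidAlgebra.ofCoeff (f.coeff.comapDomain toFM toFM_inj.injOn)

private theorem toNC_coeff (f : FA) (w : FreeSemigroup ℕ) : (toNC f).coeff w = f.coeff (toFM w) := rfl

private theorem lift_toFM {R : Type} [Ring R] (u : ℕ → R) (w : FreeSemigroup ℕ) :
    FreeMonoid.lift u (toFM w) = FreeSemigroup.lift u w := by
  induction w using FreeSemigroup.recOnMul with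
  | ih1 x => simp [toFM]
  | ih2 x y hx hy => simp [map_mul, hx, hy]

private theorem ev_single {R : Type} [Ring R] (u : ℕ → R) (w : FreeMonoid ℕ) (c : ℤ) :
    ev u (MonoidAlgebra.single w c) = c • FreeMonoid.lift u w := by
  simp [ev, MonoidAlgebra.lift_single]

private theorem hev_single {R : Type} [Ring R] (u : ℕ → R) (w : FreeSemigroup ℕ) (c : ℤ) :
    H34.Kem.ev u (MonoidAlgebra.single w c) = c • FreeSemigroup.lift u w := by
  simp [H34.Kem.ev]

private theorem FA_sum (f : FA) : f = ∑ w ∈ f.coeff.support, MonoidAlgebra.single w (f.coeff w) := by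
  apply MonoidAlgebra.coeff_injective
  rw [MonoidAlgebra.coeff_sum]
  simp only [MonoidAlgebra.coeff_single]
  exact (Finsupp.sum_single f.coeff).symm

private theorem NC_sum (f : H34.Kem.NC ℕ) :
    f = ∑ w ∈ f.coeff.support, MonoidAlgebra.single w (f.coeff w) := by
  apply MonoidAlgebra.coeff_injective
  rw [MonoidAlgebra.coeff_sum]
  simp only [MonoidAlgebra.coeff_single]
  exact (Finsupp.sum_single f.coeff).symm

private theorem ev_toNC {R : Type} [Ring R] (u : ℕ → R) (f : FA) (hf : ct f = 0) :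
    H34.Kem.ev u (toNC f) = ev u f := by
  conv_lhs => rw [NC_sum (toNC f), map_sum]
  conv_rhs => rw [FA_sum f, map_sum]
  simp only [hev_single, ev_single, toNC_coeff]
  refine Finset.sum_bij (fun w _ => toFM w) ?_ ?_ ?_ ?_
  · intro w hw
    rw [Finsupp.mem_support_iff] at hw ⊢
    exact hw
  · intro w _ w' _ h
    exact toFM_inj h
  · intro w hw
    rw [Finsupp.mem_support_iff] at hw
    have h1 : w ≠ 1 := by
      rintro rfl
      exact hw hf
    obtain ⟨v, rfl⟩ := mem_range_toFM w h1
    refine ⟨v, ?_, rfl⟩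
    rw [Finsupp.mem_support_iff]
    exact hw
  · intro w _
    rw [lift_toFM]

/-- the quotient ideal -/
private noncomputable def tId (T : Submodule ℤ FA) (hT : IsTI T) : Ideal FA where
  carrier := T
  add_mem' := T.add_mem
  zero_mem' := T.zero_mem
  smul_mem' := fun c _ hx => hT.left c _ hx

private theorem ev_comp' {R S : Type} [Ring R] [Ring S] (a : ℕ → R) (f : R →+* S) (g : FA) :
    f (ev a g) = ev (fun i => f (a i)) g := by
  have h : (f.comp (ev a)) = ev (fun i => f (a i)) := by
    apply MonoidAlgebra.ringHom_ext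
    · intro r
      simp [ev]
    · intro w
      simp only [RingHom.coe_comp, Function.comp_apply, ev, AlgHom.toRingHom_eq_coe,
        RingHom.coe_coe, MonoidAlgebra.lift_single, one_smul]
      induction w using FreeMonoid.inductionOn with
      | one => simp
      | of x => simp
      | mul x y hx hy => simp [hx, hy]
  exact congrArg (fun φ : FA →+* S => φ g) h

private theorem ct_add (f g : FA) : ct (f + g) = ct f + ct g := by
  simp [ct, MonoidAlgebra.coeff_add]

private theorem ct_eq (f : FA) : ct f = ev (fun _ => (0 : ℤ)) f := by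
  conv_rhs => rw [FA_sum f, map_sum]
  simp only [ev_single]
  have h0 : ∀ w : FreeMonoid ℕ, w ≠ 1 → FreeMonoid.lift (fun _ : ℕ => (0 : ℤ)) w = 0 := by
    intro w hw
    obtain ⟨v, rfl⟩ := mem_range_toFM w hw
    rw [toFM_eq, FreeMonoid.lift_apply]
    simp
  by_cases h1 : (1 : FreeMonoid ℕ) ∈ f.coeff.support
  · rw [Finset.sum_eq_single_of_mem 1 h1]
    · simp [ct]
    · intro w _ hw
      rw [h0 w hw, smul_zero]
  · rw [Finset.sum_eq_zero]
    · rw [Finsupp.notMem_support_iff] at h1
      exact h1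
    · intro w hw
      rw [h0 w (by rintro rfl; exact h1 hw), smul_zero]

private theorem ct_mul (f g : FA) : ct (f * g) = ct f * ct g := by
  rw [ct_eq, ct_eq, ct_eq, map_mul]

theorem cap_in_T (T : Submodule ℤ FA) (hT : IsTI T) (p : ℕ) (hp : p.Prime)
    (hpT : ∀ f, ct f = 0 → (p : ℤ) • f ∈ T) (f : FA) (hf : f ∈ T)
    (hf' : ∃ w, ¬ (p : ℤ) ∣ f.coeff w) : ∃ M, IM (M + 1) ≤ T := by
  have : Fact p.Prime := ⟨hp⟩
  set I := tId T hT with hI
  have : I.IsTwoSided := ⟨fun {a} b ha => hT.right b a ha⟩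
  let π : FA →+* FA ⧸ I := Ideal.Quotient.mk I
  have hπ : ∀ f, π f = 0 ↔ f ∈ T := by
    intro f
    exact Ideal.Quotient.eq_zero_iff_mem
  have hsurj : Function.Surjective π := Ideal.Quotient.mk_surjective
  let B : AddSubgroup (FA ⧸ I) :=
    { carrier := {x | ∃ f, ct f = 0 ∧ π f = x}
      add_mem' := by
        rintro _ _ ⟨f, hf, rfl⟩ ⟨g, hg, rfl⟩
        exact ⟨f + g, by rw [ct_add, hf, hg, add_zero], map_add π f g⟩
      zero_mem' := ⟨0, by simp [ct], map_zero π⟩
      neg_mem' := by
        rintro _ ⟨f, hf, rfl⟩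
        refine ⟨-f, ?_, map_neg π f⟩
        have h1 := ct_add f (-f)
        rw [add_neg_cancel, hf, zero_add] at h1
        rw [← h1]; simp [ct] }
  have hmul : ∀ f g : FA, ct (f * g) = ct f * ct g := ct_mul
  have hB : H34.Kem.IsIdl B := by
    constructor
    · rintro x _ ⟨f, hf, rfl⟩
      obtain ⟨g, rfl⟩ := hsurj x
      exact ⟨g * f, by rw [hmul, hf, mul_zero], map_mul π g f⟩
    · rintro _ y ⟨f, hf, rfl⟩
      obtain ⟨g, rfl⟩ := hsurj y
      exact ⟨f * g, by rw [hmul, hf, zero_mul], map_mul π f g⟩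
  have hpB : ∀ x ∈ B, (p : ℤ) • x = 0 := by
    rintro _ ⟨f, hf, rfl⟩
    rw [← map_zsmul, hπ]
    exact hpT f hf
  obtain ⟨w, hw⟩ := hf'
  have hw1 : w ≠ 1 := by
    rintro rfl
    apply hw
    have := hT.aug f hf
    unfold ct at this
    rw [this]
    exact dvd_zero _
  obtain ⟨w', rfl⟩ := mem_range_toFM w hw1
  obtain ⟨n, hn, c, hc, hmli⟩ := H34.Kem.multilin hB p hpB (toNC f) w' hw (by
    intro v hv
    choose u hu1 hu2 using hv
    rw [ev_toNC v f (hT.aug f hf)]
    have e : v = fun i => π (u i) := by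
      funext i; exact (hu2 i).symm
    rw [e, ← ev_comp', hπ]
    exact hT.subst u hu1 f hf)
  obtain ⟨M, hM⟩ := H34.Kem.kemer hB p hpB n hn c hc hmli
  have key : ∀ (w : Fin (M + 1) → FA) (x : Fin M → FA), (∀ i, ct (x i) = 0) → cap M w x ∈ T := by
    intro w x hx
    rw [← hπ]
    have h1 := hM (fun i => if h : i < M + 1 then π (w ⟨i, h⟩) else 0) (fun i => π (x i))
      (fun i => ⟨x i, hx i, rfl⟩)
    rw [← h1]
    unfold H34.Kem.altSum H34.Kem.mon cap
    rw [map_sum]
    refine Finset.sum_congr rfl fun σ _ => ?_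
    rw [map_zsmul, map_mul, map_list_prod, List.map_ofFn]
    congr 3
    congr 1
    funext i
    simp only [Function.comp_apply, map_mul]
    rw [dif_pos (by omega)]
    rfl
  cases M with
  | zero =>
    exfalso
    have h1 := key (fun _ => 1) (fun _ => 0) (fun i => by simp [ct])
    have h2 := hT.aug _ h1
    simp [cap, ct, MonoidAlgebra.one_def] at h2
  | succ M =>
    refine ⟨M, ?_⟩
    unfold IM
    rw [Submodule.span_le]
    rintro _ ⟨w, x, hx, rfl⟩
    exact key w x hx

end TF
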