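import Mathlib

/-!
# TF-FREEIDEAL: right ideals of the free algebra over a field are flat (relations are trivial)

Let `k` be a field, `F = k⟨x_0, x_1, …⟩` (`MonoidAlgebra k (FreeMonoid ℕ)`), `I ⊆ F` a right ideal. If
`∑_j u_j v_j = 0` with `u_j ∈ I`, `v_j ∈ F`, then there are finitely many `g_α ∈ I` and `r_{αj} ∈ F` with
`u_j = ∑_α g_α r_{αj}` and `∑_j r_{αj} v_j = 0` for every `α`.

Proof. Order the words by length, then lexicographically (`List.Shortlex` or any well-founded total
order compatible with left and right multiplication of words); `LM(f)` = largest word of the support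
of `f ≠ 0`. `LM(f g) = LM(f) LM(g)`. Let `W` be the set of the words `LM(u)`, `0 ≠ u ∈ I`, which have
no proper prefix of this form, and for `w ∈ W` choose `g_w ∈ I` with leading monomial `w` and leading
coefficient `1`.
(i) Every `u ∈ I` is a finite sum `∑_w g_w r_w`: well-founded induction on `LM(u)`: some prefix `w` of
`LM(u)` is in `W` (take the shortest prefix which is the leading monomial of an element of `I`),
`LM(u) = w w'`, subtract `c g_w w'` (`I` is a right ideal); the leading monomial drops.
(ii) If `∑_{w ∈ W} g_w r_w = 0` (finite sum) then all `r_w = 0`: the leading monomials of the non-zero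
`g_w r_w` are `w LM(r_w)`, pairwise different since no element of `W` is a prefix of another one; so
the largest one does not cancel.
Now write `u_j = ∑_w g_w r_{wj}`; then `0 = ∑_w g_w (∑_j r_{wj} v_j)` and (ii).
-/

namespace TF

open Finset

private theorem fi_lex_append {a b : List ℕ} (h : List.Lex (· < ·) a b) : a.length = b.length →
    ∀ c d, List.Lex (· < ·) (a ++ c) (b ++ d) := by
  induction h with
  | nil => intro h; simp at h
  | cons _ ih => intro hl c d; exact List.Lex.cons (ih (by simpa using hl) c d)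
  | rel h => intro _ c d; exact List.Lex.rel h

/-- shortlex order on words -/
@[reducible] private noncomputable def fiOrd : LinearOrder (FreeMonoid ℕ) :=
  LinearOrder.lift' (fun a => toLex (FreeMonoid.length a, FreeMonoid.toList a)) (by
    intro a b h
    have := congrArg (fun p => (ofLex p).2) h
    exact FreeMonoid.toList.injective this)

attribute [local instance] fiOrd

private theorem fi_lt_iff {a b : FreeMonoid ℕ} : a < b ↔ a.length < b.length ∨
    a.length = b.length ∧ List.Lex (· < ·) a.toList b.toList := by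
  have : a < b ↔ toLex (FreeMonoid.length a, FreeMonoid.toList a)
      < toLex (FreeMonoid.length b, FreeMonoid.toList b) := Iff.rfl
  rw [this, Prod.Lex.toLex_lt_toLex]
  rfl

private instance fiWF : WellFoundedLT (FreeMonoid ℕ) := by
  refine ⟨?_⟩
  have h := InvImage.wf (fun a : FreeMonoid ℕ => FreeMonoid.toList a)
    (List.Shortlex.wf (r := ((· < ·) : ℕ → ℕ → Prop)) wellFounded_lt)
  refine Subrelation.wf ?_ h
  intro a b hab
  exact List.shortlex_def.2 (fi_lt_iff.1 hab)

private instance fiL : MulLeftStrictMono (FreeMonoid ℕ) := by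
  refine ⟨fun c a b h => ?_⟩
  rw [fi_lt_iff] at h ⊢
  rcases h with h | ⟨h, h'⟩
  · left
    rw [FreeMonoid.length_mul, FreeMonoid.length_mul]
    omega
  · right
    rw [FreeMonoid.length_mul, FreeMonoid.length_mul]
    refine ⟨by omega, ?_⟩
    rw [FreeMonoid.toList_mul, FreeMonoid.toList_mul]
    exact List.Lex.append_left _ h' _

private instance fiR : MulRightStrictMono (FreeMonoid ℕ) := by
  refine ⟨fun c a b h => ?_⟩
  simp only [Function.swap]
  rw [fi_lt_iff] at h ⊢
  rcases h with h | ⟨h, h'⟩
  · left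
    rw [FreeMonoid.length_mul, FreeMonoid.length_mul]
    omega
  · right
    rw [FreeMonoid.length_mul, FreeMonoid.length_mul]
    refine ⟨by omega, ?_⟩
    rw [FreeMonoid.toList_mul, FreeMonoid.toList_mul]
    exact fi_lex_append h' h _ _

private instance fiL' : MulLeftMono (FreeMonoid ℕ) :=
  ⟨fun c _ _ h => h.eq_or_lt.elim (fun h => by rw [h]) (fun h => (fiL.elim c h).le)⟩

private instance fiR' : MulRightMono (FreeMonoid ℕ) :=
  ⟨fun c _ _ h => h.eq_or_lt.elim (fun h => by rw [h]) (fun h => (fiR.elim c h).le)⟩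

variable {k : Type*} [Field k]

/-- leading word (`⊥` for `0`) -/
private noncomputable def fiLM (f : MonoidAlgebra k (FreeMonoid ℕ)) : WithBot (FreeMonoid ℕ) :=
  f.coeff.support.max

private theorem fi_exists_lead {f : MonoidAlgebra k (FreeMonoid ℕ)} (hf : f ≠ 0) :
    ∃ a, f.coeff a ≠ 0 ∧ (∀ x, f.coeff x ≠ 0 → x ≤ a) ∧ fiLM f = (a : WithBot (FreeMonoid ℕ)) := by
  have hne : f.coeff.support.Nonempty := by
    rw [Finsupp.support_nonempty_iff]
    simpa using hf
  obtain ⟨a, ha⟩ := Finset.max_of_nonempty hne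
  refine ⟨a, ?_, ?_, ha⟩
  · exact Finsupp.mem_support_iff.1 (Finset.mem_of_max ha)
  · intro x hx
    exact Finset.le_max_of_eq (Finsupp.mem_support_iff.2 hx) ha

private theorem fi_coeff_mul {f g : MonoidAlgebra k (FreeMonoid ℕ)} {a b : FreeMonoid ℕ}
    (hf : ∀ x, f.coeff x ≠ 0 → x ≤ a) (hg : ∀ y, g.coeff y ≠ 0 → y ≤ b) :
    (f * g).coeff (a * b) = f.coeff a * g.coeff b := by
  refine MonoidAlgebra.coeff_mul_mul_of_uniqueMul ?_
  intro x y hx hy hxy
  have h1 := hf x (Finsupp.mem_support_iff.1 hx)
  have h2 := hg y (Finsupp.mem_support_iff.1 hy)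
  rcases h1.eq_or_lt with h | h
  · subst h
    exact ⟨rfl, mul_left_cancel hxy⟩
  · exfalso
    have h3 : x * y < a * y := mul_lt_mul_left h y
    have h4 : a * y ≤ a * b := mul_le_mul_right h2 a
    rw [hxy] at h3
    exact absurd (h3.trans_le h4) (lt_irrefl _)

private theorem fi_le_of_coeff_mul {f g : MonoidAlgebra k (FreeMonoid ℕ)} {a b : FreeMonoid ℕ}
    (hf : ∀ x, f.coeff x ≠ 0 → x ≤ a) (hg : ∀ y, g.coeff y ≠ 0 → y ≤ b) {z : FreeMonoid ℕ}
    (hz : (f * g).coeff z ≠ 0) : z ≤ a * b := by
  classical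
  have h := MonoidAlgebra.support_coeff_mul_subset f g (Finsupp.mem_support_iff.2 hz)
  rw [Finset.mem_mul] at h
  obtain ⟨x, hx, y, hy, rfl⟩ := h
  exact mul_le_mul' (hf x (Finsupp.mem_support_iff.1 hx)) (hg y (Finsupp.mem_support_iff.1 hy))

/-- subtracting the right multiple of `g` lowers the leading word -/
private theorem fi_drop {f g : MonoidAlgebra k (FreeMonoid ℕ)} {a b w : FreeMonoid ℕ}
    (hfa : fiLM f = (a : WithBot (FreeMonoid ℕ)))
    (hf : ∀ x, f.coeff x ≠ 0 → x ≤ a) (hg : ∀ y, g.coeff y ≠ 0 → y ≤ b) (hgb : g.coeff b ≠ 0)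
    (hw : a = b * w) :
    fiLM (f - g * MonoidAlgebra.single w (f.coeff a / g.coeff b)) < fiLM f := by
  set c := f.coeff a / g.coeff b with hc
  have hs : ∀ y, (MonoidAlgebra.single w c : MonoidAlgebra k (FreeMonoid ℕ)).coeff y ≠ 0 →
      y ≤ w := by
    intro y hy
    rw [MonoidAlgebra.coeff_single] at hy
    by_contra hcon
    apply hy
    rw [Finsupp.single_apply, if_neg]
    rintro rfl
    exact hcon le_rfl
  rw [hfa]
  unfold fiLM
  refine (Finset.sup_lt_iff (WithBot.bot_lt_coe a)).2 ?_
  intro z hz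
  rw [Finsupp.mem_support_iff, MonoidAlgebra.coeff_sub, Finsupp.sub_apply] at hz
  rw [WithBot.coe_lt_coe]
  have hza : z ≤ a := by
    by_cases h1 : f.coeff z = 0
    · rw [h1, zero_sub, neg_ne_zero] at hz
      rw [hw]
      exact fi_le_of_coeff_mul hg hs hz
    · exact hf z h1
  refine lt_of_le_of_ne hza ?_
  rintro rfl
  apply hz
  have h2 : (g * MonoidAlgebra.single w c).coeff z = f.coeff z := by
    conv_lhs => rw [hw]
    rw [fi_coeff_mul hg hs, MonoidAlgebra.coeff_single, Finsupp.single_eq_same, hc,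
      mul_div_cancel₀ _ hgb]
  rw [h2, sub_self]

private theorem fi_aux (I : Submodule k (MonoidAlgebra k (FreeMonoid ℕ)))
    (hI : ∀ f ∈ I, ∀ g, f * g ∈ I) {n : ℕ} :
    ∀ (L : Fin n → WithBot (FreeMonoid ℕ)) (u v : Fin n → MonoidAlgebra k (FreeMonoid ℕ)),
    (fun j => fiLM (u j)) = L → (∀ j, u j ∈ I) → ∑ j, u j * v j = 0 →
    ∃ (s : ℕ) (g : Fin s → MonoidAlgebra k (FreeMonoid ℕ))
      (r : Fin s → Fin n → MonoidAlgebra k (FreeMonoid ℕ)),
      (∀ α, g α ∈ I) ∧ (∀ j, u j = ∑ α, g α * r α j) ∧ ∀ α, ∑ j, r α j * v j = 0 := by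
  classical
  intro L
  induction L using WellFoundedLT.induction with
  | ind L ih =>
  intro u v hL hu h
  by_cases htriv : ∀ j, u j = 0 ∨ v j = 0
  · refine ⟨n, u, fun α j => if α = j ∧ u α ≠ 0 then 1 else 0, hu, ?_, ?_⟩
    · intro j
      rw [Finset.sum_eq_single j]
      · by_cases hj : u j = 0
        · simp [hj]
        · simp [hj]
      · intro α _ hα
        simp [hα]
      · intro h'; exact absurd (mem_univ _) h'
    · intro α
      refine Finset.sum_eq_zero fun j _ => ?_
      by_cases hj : α = j ∧ u α ≠ 0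
      · obtain ⟨rfl, h2⟩ := hj
        rw [(htriv α).resolve_left h2, mul_zero]
      · simp only [if_neg hj, zero_mul]
  · -- leading words
    have hlead : ∀ f : MonoidAlgebra k (FreeMonoid ℕ), ∃ a, f ≠ 0 → f.coeff a ≠ 0 ∧
        (∀ x, f.coeff x ≠ 0 → x ≤ a) ∧ fiLM f = (a : WithBot (FreeMonoid ℕ)) := by
      intro f
      by_cases hf : f = 0
      · exact ⟨1, fun h => absurd hf h⟩
      · obtain ⟨a, ha⟩ := fi_exists_lead hf
        exact ⟨a, fun _ => ha⟩
    choose lw hlw using hlead
    set S : Finset (Fin n) := univ.filter (fun j => u j ≠ 0 ∧ v j ≠ 0) with hS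
    have hSne : S.Nonempty := by
      push Not at htriv
      obtain ⟨j, hj⟩ := htriv
      exact ⟨j, by rw [hS, mem_filter]; exact ⟨mem_univ _, hj⟩⟩
    obtain ⟨i, hiS, hi⟩ := Finset.exists_max_image S (fun j => lw (u j) * lw (v j)) hSne
    have hmemS : ∀ j, j ∈ S ↔ u j ≠ 0 ∧ v j ≠ 0 := by
      intro j; rw [hS, mem_filter]; simp
    -- another index with the same leading word
    obtain ⟨j, hjS, hji, hwj⟩ : ∃ j ∈ S, j ≠ i ∧
        lw (u j) * lw (v j) = lw (u i) * lw (v i) := by
      by_contra hcon
      push Not at hcon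
      have h0 : (∑ j, u j * v j).coeff (lw (u i) * lw (v i)) = 0 := by rw [h]; rfl
      rw [MonoidAlgebra.coeff_sum, Finsupp.finsetSum_apply, Finset.sum_eq_single i] at h0
      · obtain ⟨hui, hvi⟩ := (hmemS i).1 hiS
        rw [fi_coeff_mul (hlw _ hui).2.1 (hlw _ hvi).2.1] at h0
        exact mul_ne_zero (hlw _ hui).1 (hlw _ hvi).1 h0
      · intro j _ hj
        by_cases hjS : j ∈ S
        · by_contra hne
          obtain ⟨huj, hvj⟩ := (hmemS j).1 hjS
          have h1 := fi_le_of_coeff_mul (hlw _ huj).2.1 (hlw _ hvj).2.1 hne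
          exact hcon j hjS hj (le_antisymm (hi j hjS) h1)
        · rw [hmemS, not_and_or, not_not, not_not] at hjS
          rcases hjS with h1 | h1 <;> rw [h1] <;> simp
      · intro h'; exact absurd (mem_univ _) h'
    -- one of the two words is a prefix of the other
    obtain ⟨i, j, hij, hui, huj, w, hw⟩ : ∃ i j : Fin n, i ≠ j ∧ u i ≠ 0 ∧ u j ≠ 0 ∧
        ∃ w, lw (u i) = lw (u j) * w := by
      have h1 : (lw (u j)).toList ++ (lw (v j)).toList
          = (lw (u i)).toList ++ (lw (v i)).toList := by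
        rw [← FreeMonoid.toList_mul, ← FreeMonoid.toList_mul, hwj]
      rcases List.append_eq_append_iff.1 h1 with ⟨as, h2, _⟩ | ⟨as, h2, _⟩
      · refine ⟨i, j, hji.symm, ((hmemS i).1 hiS).1, ((hmemS j).1 hjS).1,
          FreeMonoid.ofList as, ?_⟩
        apply FreeMonoid.toList.injective
        rw [FreeMonoid.toList_mul, h2, FreeMonoid.toList_ofList]
      · refine ⟨j, i, hji, ((hmemS j).1 hjS).1, ((hmemS i).1 hiS).1,
          FreeMonoid.ofList as, ?_⟩
        apply FreeMonoid.toList.injective
        rw [FreeMonoid.toList_mul, h2, FreeMonoid.toList_ofList]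
    clear hiS hi hwj hjS hji
    set b : MonoidAlgebra k (FreeMonoid ℕ) :=
      MonoidAlgebra.single w ((u i).coeff (lw (u i)) / (u j).coeff (lw (u j))) with hb
    set u' := Function.update u i (u i - u j * b) with hu'
    set v' := Function.update v j (v j + b * v i) with hv'
    have hdrop : fiLM (u' i) < fiLM (u i) := by
      rw [hu', Function.update_self]
      exact fi_drop (hlw _ hui).2.2 (hlw _ hui).2.1 (hlw _ huj).2.1 (hlw _ huj).1 hw
    have hlt : (fun l => fiLM (u' l)) < L := by
      rw [← hL]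
      rw [Pi.lt_def]
      refine ⟨fun l => ?_, i, hdrop⟩
      by_cases hl : l = i
      · subst hl; exact hdrop.le
      · simp only [hu']
        rw [Function.update_of_ne hl]
    have hui' : u' i = u i - u j * b := by rw [hu', Function.update_self]
    have hul' : ∀ l, l ≠ i → u' l = u l := fun l hl => by rw [hu', Function.update_of_ne hl]
    have hvj' : v' j = v j + b * v i := by rw [hv', Function.update_self]
    have hvl' : ∀ l, l ≠ j → v' l = v l := fun l hl => by rw [hv', Function.update_of_ne hl]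
    have hsum : ∑ l, u' l * v' l = 0 := by
      rw [← h]
      rw [← Finset.add_sum_erase univ _ (mem_univ i),
        ← Finset.add_sum_erase univ (fun l => u l * v l) (mem_univ i),
        ← Finset.add_sum_erase (univ.erase i) _ (mem_erase.2 ⟨hij.symm, mem_univ j⟩),
        ← Finset.add_sum_erase (univ.erase i) (fun l => u l * v l)
          (mem_erase.2 ⟨hij.symm, mem_univ j⟩)]
      have hrest : ∑ l ∈ (univ.erase i).erase j, u' l * v' l
          = ∑ l ∈ (univ.erase i).erase j, u l * v l := by
        refine Finset.sum_congr rfl fun l hl => ?_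
        rw [mem_erase, mem_erase] at hl
        rw [hul' l hl.2.1, hvl' l hl.1]
      rw [hrest, hui', hvl' i hij, hul' j hij.symm, hvj', sub_mul, mul_add, ← mul_assoc]
      abel
    obtain ⟨s, g, r, hg, hr, hz⟩ := ih _ hlt u' v' rfl (by
      intro l
      by_cases hl : l = i
      · subst hl
        rw [hui']
        exact I.sub_mem (hu _) (hI _ (hu _) _)
      · rw [hul' l hl]; exact hu l) hsum
    refine ⟨s, g, fun α => Function.update (r α) i (r α i + r α j * b), hg, ?_, ?_⟩
    · intro l
      by_cases hl : l = i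
      · subst hl
        simp only [Function.update_self]
        have h1 := hr l
        have h2 := hr j
        rw [hui'] at h1
        rw [hul' j hij.symm] at h2
        simp only [mul_add, Finset.sum_add_distrib, ← mul_assoc, ← Finset.sum_mul]
        rw [← h2, ← h1]
        abel
      · simp only [Function.update_of_ne hl]
        rw [← hr l, hul' l hl]
    · intro α
      rw [← hz α]
      rw [← Finset.add_sum_erase univ _ (mem_univ i),
        ← Finset.add_sum_erase univ (fun l => r α l * v' l) (mem_univ i),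
        ← Finset.add_sum_erase (univ.erase i) _ (mem_erase.2 ⟨hij.symm, mem_univ j⟩),
        ← Finset.add_sum_erase (univ.erase i) (fun l => r α l * v' l)
          (mem_erase.2 ⟨hij.symm, mem_univ j⟩)]
      have hrest : ∑ l ∈ (univ.erase i).erase j, Function.update (r α) i (r α i + r α j * b) l * v l
          = ∑ l ∈ (univ.erase i).erase j, r α l * v' l := by
        refine Finset.sum_congr rfl fun l hl => ?_
        rw [mem_erase, mem_erase] at hl
        rw [Function.update_of_ne hl.2.1, hvl' l hl.1]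
      simp only [hrest, Function.update_self, Function.update_of_ne hij.symm]
      rw [hvl' i hij, hvj', add_mul, mul_add, ← mul_assoc]
      abel

theorem free_relation {k : Type*} [Field k] (I : Submodule k (MonoidAlgebra k (FreeMonoid ℕ)))
    (hI : ∀ f ∈ I, ∀ g, f * g ∈ I) {n : ℕ} (u v : Fin n → MonoidAlgebra k (FreeMonoid ℕ))
    (hu : ∀ j, u j ∈ I) (h : ∑ j, u j * v j = 0) :
    ∃ (s : ℕ) (g : Fin s → MonoidAlgebra k (FreeMonoid ℕ))
      (r : Fin s → Fin n → MonoidAlgebra k (FreeMonoid ℕ)),
      (∀ α, g α ∈ I) ∧ (∀ j, u j = ∑ α, g α * r α j) ∧ ∀ α, ∑ j, r α j * v j = 0 :=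
  fi_aux I hI _ u v rfl hu h

end TF
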