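import Pool.Agent.H66.TF.Defs
import Pool.Agent.H66.TF.FreeIdeal

/-!
# TF-PUREMUL: a product of pure ideals of `ℤ⟨X⟩` is pure

Let `I` be a pure right ideal and `J` a pure left ideal of `FA`. Then `I * J` (ℤ-span of the products)
is pure. Enough: `p f ∈ I J ⟹ f ∈ I J` for primes `p` (induction over the prime factors of `n`; `n` and
`-n`). Let `p f = ∑_j u_j v_j`, `u_j ∈ I`, `v_j ∈ J` (elements of `I * J` are finite sums of products).
Reduce mod `p` (`MonoidAlgebra.mapRangeRingHom` or so, `FA → MonoidAlgebra (ZMod p) (FreeMonoid ℕ)`,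
surjective with kernel `p FA`): `∑ ū_j v̄_j = 0`, `ū_j ∈ Ī` (image of `I`, a right ideal). By
`free_relation` `ū_j = ∑_α g_α r_{αj}`, `∑_j r_{αj} v̄_j = 0`. Lift: `g_α` to `G_α ∈ I`, `r_{αj}` to
`R_{αj} ∈ FA`. `u_j - ∑ G_α R_{αj} ∈ I` is divisible by `p`, `= p u'_j` with `u'_j ∈ I` (purity of `I`).
`∑_j R_{αj} v_j ∈ J` is divisible by `p`, `= p w_α`, `w_α ∈ J`. So
`p f = ∑_α G_α p w_α + p ∑_j u'_j v_j`, and `FA` is torsion-free.
-/

namespace TF

/-- Reduction modulo `p`. -/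
noncomputable def redp (p : ℕ) : FA →+* MonoidAlgebra (ZMod p) (FreeMonoid ℕ) :=
  MonoidAlgebra.mapRingHom (FreeMonoid ℕ) (Int.castRingHom (ZMod p))

theorem redp_coeff (p : ℕ) (f : FA) (w : FreeMonoid ℕ) :
    (redp p f).coeff w = ((f.coeff w : ℤ) : ZMod p) := by
  simp [redp]

theorem redp_surjective (p : ℕ) : Function.Surjective (redp p) := by
  have := MonoidAlgebra.map_surjective (M := FreeMonoid ℕ)
    (Int.castRingHom (ZMod p)).toAddMonoidHom (ZMod.intCast_surjective (n := p))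
  intro x
  obtain ⟨y, hy⟩ := this x
  exact ⟨y, hy⟩

theorem redp_ker {p : ℕ} {f : FA} (h : redp p f = 0) : ∃ g : FA, f = (p : ℤ) • g := by
  refine ⟨MonoidAlgebra.ofCoeff (f.coeff.mapRange (fun n : ℤ => n / p) (by simp)), ?_⟩
  ext w
  have h1 : ((f.coeff w : ℤ) : ZMod p) = 0 := by
    rw [← redp_coeff, h]; simp
  rw [ZMod.intCast_zmod_eq_zero_iff_dvd] at h1
  rw [MonoidAlgebra.coeff_smul, Finsupp.smul_apply]
  simp only [Finsupp.mapRange_apply, smul_eq_mul]
  exact (Int.mul_ediv_cancel' h1).symm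

theorem FA_smul_cancel {n : ℤ} (hn : n ≠ 0) {f g : FA} (h : n • f = n • g) : f = g := by
  ext w
  have h1 : (n • f).coeff w = (n • g).coeff w := by rw [h]
  rw [MonoidAlgebra.coeff_smul, MonoidAlgebra.coeff_smul, Finsupp.smul_apply, Finsupp.smul_apply,
    smul_eq_mul, smul_eq_mul] at h1
  exact mul_left_cancel₀ hn h1

theorem mem_mul_exists (I J : Submodule ℤ FA) {f : FA} (hf : f ∈ I * J) :
    ∃ (n : ℕ) (u v : Fin n → FA), (∀ j, u j ∈ I) ∧ (∀ j, v j ∈ J) ∧ f = ∑ j, u j * v j := by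
  refine Submodule.mul_induction_on hf ?_ ?_
  · intro m hm n hn
    exact ⟨1, fun _ => m, fun _ => n, fun _ => hm, fun _ => hn, by simp⟩
  · rintro x y ⟨n, u, v, hu, hv, rfl⟩ ⟨n', u', v', hu', hv', rfl⟩
    refine ⟨n + n', Fin.append u u', Fin.append v v', ?_, ?_, ?_⟩
    · intro j
      refine Fin.addCases (fun i => ?_) (fun i => ?_) j
      · rw [Fin.append_left]; exact hu i
      · rw [Fin.append_right]; exact hu' i
    · intro j
      refine Fin.addCases (fun i => ?_) (fun i => ?_) j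
      · rw [Fin.append_left]; exact hv i
      · rw [Fin.append_right]; exact hv' i
    · rw [Fin.sum_univ_add]
      simp only [Fin.append_left, Fin.append_right]

theorem redp_zsmul (p : ℕ) (n : ℤ) (f : FA) : redp p (n • f) = (n : ZMod p) • redp p f := by
  ext w
  rw [redp_coeff, MonoidAlgebra.coeff_smul, MonoidAlgebra.coeff_smul, Finsupp.smul_apply,
    Finsupp.smul_apply, redp_coeff]
  simp

/-- The image of a submodule modulo `p`. -/
noncomputable def imp (p : ℕ) (I : Submodule ℤ FA) :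
    Submodule (ZMod p) (MonoidAlgebra (ZMod p) (FreeMonoid ℕ)) where
  carrier := {x | ∃ f ∈ I, redp p f = x}
  add_mem' := by
    rintro _ _ ⟨f, hf, rfl⟩ ⟨g, hg, rfl⟩
    exact ⟨f + g, I.add_mem hf hg, map_add _ _ _⟩
  zero_mem' := ⟨0, I.zero_mem, map_zero _⟩
  smul_mem' := by
    rintro c _ ⟨f, hf, rfl⟩
    obtain ⟨c', rfl⟩ := ZMod.intCast_surjective c
    exact ⟨c' • f, I.smul_mem _ hf, redp_zsmul _ _ _⟩

theorem pure_mul_prime (I J : Submodule ℤ FA) (hI : IsPure I) (hJ : IsPure J)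
    (hIr : ∀ f ∈ I, ∀ g : FA, f * g ∈ I) (hJl : ∀ f ∈ J, ∀ g : FA, g * f ∈ J)
    (p : ℕ) (hp : p.Prime) (f : FA) (hf : (p : ℤ) • f ∈ I * J) : f ∈ I * J := by
  have : Fact p.Prime := ⟨hp⟩
  have hp0 : (p : ℤ) ≠ 0 := by exact_mod_cast hp.ne_zero
  obtain ⟨n, u, v, hu, hv, hs⟩ := mem_mul_exists I J hf
  have h0 : ∑ j, redp p (u j) * redp p (v j) = 0 := by
    have := congrArg (redp p) hs
    rw [map_sum, redp_zsmul] at this
    simp only [map_mul] at this
    rw [← this]
    simp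
  obtain ⟨s, g, r, hg, hgr, hrv⟩ := free_relation (imp p I)
    (by
      rintro _ ⟨f, hf, rfl⟩ g
      obtain ⟨g', rfl⟩ := redp_surjective p g
      exact ⟨f * g', hIr f hf g', map_mul _ _ _⟩)
    (fun j => redp p (u j)) (fun j => redp p (v j)) (fun j => ⟨u j, hu j, rfl⟩) h0
  choose G hGI hG using hg
  have hR : ∀ α j, ∃ R : FA, redp p R = r α j := fun α j => redp_surjective p (r α j)
  choose R hR using hR
  have h1 : ∀ j, ∃ u' ∈ I, u j = ∑ α, G α * R α j + (p : ℤ) • u' := by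
    intro j
    have h2 : redp p (u j - ∑ α, G α * R α j) = 0 := by
      rw [map_sub, map_sum]
      simp only [map_mul, hG, hR]
      rw [hgr j, sub_self]
    obtain ⟨u', hu'⟩ := redp_ker h2
    refine ⟨u', hI p u' hp0 ?_, ?_⟩
    · rw [← hu']
      exact I.sub_mem (hu j) (I.sum_mem fun α _ => hIr _ (hGI α) _)
    · rw [← hu']; abel
  choose u' hu'I hu' using h1
  have h3 : ∀ α, ∃ w ∈ J, ∑ j, R α j * v j = (p : ℤ) • w := by
    intro α
    have h2 : redp p (∑ j, R α j * v j) = 0 := by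
      rw [map_sum]
      simp only [map_mul, hR]
      exact hrv α
    obtain ⟨w, hw⟩ := redp_ker h2
    refine ⟨w, hJ p w hp0 ?_, hw⟩
    rw [← hw]
    exact J.sum_mem fun j _ => hJl _ (hv j) _
  choose w hwJ hw using h3
  have h4 : (p : ℤ) • f = (p : ℤ) • (∑ α, G α * w α + ∑ j, u' j * v j) := by
    rw [hs, smul_add, Finset.smul_sum, Finset.smul_sum]
    have : ∀ j, u j * v j = ∑ α, G α * (R α j * v j) + (p : ℤ) • (u' j * v j) := by
      intro j
      conv_lhs => rw [hu' j]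
      rw [add_mul, Finset.sum_mul, smul_mul_assoc]
      simp only [mul_assoc]
    rw [Finset.sum_congr rfl fun j _ => this j, Finset.sum_add_distrib, Finset.sum_comm]
    congr 1
    refine Finset.sum_congr rfl fun α _ => ?_
    rw [← Finset.mul_sum, hw α, mul_smul_comm]
  rw [FA_smul_cancel hp0 h4]
  exact (I * J).add_mem ((I * J).sum_mem fun α _ => Submodule.mul_mem_mul (hGI α) (hwJ α))
    ((I * J).sum_mem fun j _ => Submodule.mul_mem_mul (hu'I j) (hv j))

theorem pure_mul (I J : Submodule ℤ FA) (hI : IsPure I) (hJ : IsPure J)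
    (hIr : ∀ f ∈ I, ∀ g : FA, f * g ∈ I) (hJl : ∀ f ∈ J, ∀ g : FA, g * f ∈ J) :
    IsPure (I * J) := by
  have key : ∀ (n : ℕ) (f : FA), n ≠ 0 → (n : ℤ) • f ∈ I * J → f ∈ I * J := by
    intro n
    induction n using Nat.recOnMul with
    | zero => intro f h; exact absurd rfl h
    | one => intro f _ h; simpa using h
    | prime p hp => intro f _ h; exact pure_mul_prime I J hI hJ hIr hJl p hp f h
    | mul a b ha hb =>
      intro f hn h
      have ha0 : a ≠ 0 := fun h0 => hn (by rw [h0, zero_mul])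
      have hb0 : b ≠ 0 := fun h0 => hn (by rw [h0, mul_zero])
      refine hb f hb0 (ha _ ha0 ?_)
      rw [smul_smul]
      exact_mod_cast h
  intro n f hn h
  refine key n.natAbs f (Int.natAbs_ne_zero.2 hn) ?_
  rcases Int.natAbs_eq n with h1 | h1
  · rw [← h1]; exact h
  · have : ((n.natAbs : ℕ) : ℤ) = -n := by omega
    rw [this, neg_smul]
    exact (I * J).neg_mem h

end TF
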