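import Pool.Agent.H66.TF.KeyIM
import Pool.Agent.H66.TF.PureMul

/-!
# A pure T-ideal with a unit coefficient inside `IM M`
-/

namespace TF

theorem chain (M : ℕ) : ∃ Q : Submodule ℤ FA, IsTI Q ∧ IsPure Q ∧ HasUnit Q ∧ Q ≤ IM (M + 1) := by
  induction M with
  | zero => exact ⟨Fplus, isTI_Fplus, isPure_Fplus, hasUnit_Fplus, Fplus_le_IM_one⟩
  | succ M ih =>
    obtain ⟨Q, h1, h2, h3, h4⟩ := ih
    have hT := isTI_TZ (M + 1) (by omega)
    have hA := isTI_mul _ _ hT isTI_Fplus
    have hB := isTI_mul _ _ hA h1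
    refine ⟨TZ (M + 1) * Fplus * Q * Q, isTI_mul _ _ hB h1, ?_, ?_, ?_⟩
    · refine pure_mul _ _ (pure_mul _ _ (pure_mul _ _ (isPure_TZ _) isPure_Fplus ?_ ?_) h2 ?_ ?_)
        h2 ?_ ?_
      · exact fun f hf g => hT.right g f hf
      · exact fun f hf g => isTI_Fplus.left g f hf
      · exact fun f hf g => hA.right g f hf
      · exact fun f hf g => h1.left g f hf
      · exact fun f hf g => hB.right g f hf
      · exact fun f hf g => h1.left g f hf
    · exact hasUnit_mul _ _ hB h1 (hasUnit_mul _ _ hA h1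
        (hasUnit_mul _ _ hT isTI_Fplus (hasUnit_TZ _) hasUnit_Fplus) h3) h3
    · refine le_trans ?_ (key_IM (M + 1) (by omega))
      exact mul_le_mul' (mul_le_mul' le_rfl h4) h4

end TF
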