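import Pool.Agent.H66.TF.LRDefs

/-!
# TF-ORB: the number of orbits (Burnside)

`#Orb K D · D! = ∑_{π ∈ S_D} #{(σ, ℓ) : π σ π⁻¹ = σ, ℓ ∘ π⁻¹ = ℓ} = ∑_π #C(π) · K^{c(π)}`, `c(π)` = number
of cycles including fixed points (`MulAction.sum_card_fixedBy_eq_card_orbits_mul_card_group`). Group the
`π` by conjugacy class / cycle type: a class has `D!/#C(π)` elements, so
`#Orb K D = ∑_{classes} K^{c}`, and classes correspond to partitions of `D`, i.e. to multiplicity vectors
`m ∈ MV D D` (`m r` = number of cycles of length `r + 1`, `c = ∑ m r`). Mathlib: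
`Equiv.Perm.partition`, `Equiv.Perm.isConj_iff_cycleType_eq`, `Equiv.Perm.exists_with_cycleType_iff`,
`Equiv.Perm.nat_card_centralizer` (or avoid centralizers: `#C(π) #class(π) = D!` is orbit–stabiliser).
-/

open Finset Equiv

namespace TF

namespace OC

variable {D : ℕ}

/-- sums over a multiset with elements in `[1, D]` by multiplicities -/
lemma sum_mult (f : ℕ → ℕ) (s : Multiset ℕ) (h : ∀ a ∈ s, 1 ≤ a ∧ a ≤ D) :
    ∑ r : Fin D, f ((r : ℕ) + 1) * s.count ((r : ℕ) + 1) = (s.map f).sum := by
  induction s using Multiset.induction_on with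
  | empty => simp
  | cons a s ih =>
    have ih' := ih fun b hb => h b (Multiset.mem_cons_of_mem hb)
    obtain ⟨h1, h2⟩ := h a (Multiset.mem_cons_self a s)
    simp only [Multiset.count_cons, Multiset.map_cons, Multiset.sum_cons, mul_add,
      Finset.sum_add_distrib, ih']
    rw [add_comm]
    congr 1
    rw [Finset.sum_eq_single (⟨a - 1, by omega⟩ : Fin D)]
    · have : a - 1 + 1 = a := by omega
      simp [this]
    · intro r _ hr
      have : (r : ℕ) + 1 ≠ a := fun h' => hr (Fin.ext (by simp; omega))
      simp [this]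
    · intro h'
      exact absurd (Finset.mem_univ _) h'

/-- multiplicity vector of a permutation -/
def mult (π : Perm (Fin D)) : Fin D → ℕ := fun r => π.partition.parts.count ((r : ℕ) + 1)

lemma parts_bound (π : Perm (Fin D)) : ∀ a ∈ π.partition.parts, 1 ≤ a ∧ a ≤ D := by
  intro a ha
  refine ⟨π.partition.parts_pos ha, ?_⟩
  have h1 := Multiset.le_sum_of_mem ha
  rw [π.partition.parts_sum, Fintype.card_fin] at h1
  exact h1

lemma parts_sum' (π : Perm (Fin D)) : π.partition.parts.sum = D :=
  π.partition.parts_sum.trans (Fintype.card_fin D)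

lemma sum_mult_mul (π : Perm (Fin D)) : ∑ r : Fin D, ((r : ℕ) + 1) * mult π r = D := by
  have h := sum_mult (fun a => a) π.partition.parts (parts_bound π)
  rw [Multiset.map_id'] at h
  exact h.trans (parts_sum' π)

lemma sum_mult_card (π : Perm (Fin D)) : ∑ r : Fin D, mult π r = π.partition.parts.card := by
  have h := sum_mult (fun _ => 1) π.partition.parts (parts_bound π)
  simpa [mult] using h

lemma mult_mem (π : Perm (Fin D)) : mult π ∈ MV D D := by
  classical
  unfold MV
  rw [Finset.mem_filter]
  refine ⟨?_, sum_mult_mul π⟩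
  rw [Fintype.mem_piFinset]
  intro r
  rw [Finset.mem_range]
  have h1 : ((r : ℕ) + 1) * mult π r ≤ ∑ r : Fin D, ((r : ℕ) + 1) * mult π r :=
    Finset.single_le_sum (f := fun r : Fin D => ((r : ℕ) + 1) * mult π r)
      (fun _ _ => Nat.zero_le _) (Finset.mem_univ r)
  rw [sum_mult_mul π] at h1
  nlinarith [Nat.zero_le (r : ℕ), Nat.zero_le (mult π r)]

lemma mult_eq_iff {π τ : Perm (Fin D)} : mult π = mult τ ↔ IsConj π τ := by
  rw [Perm.partition_eq_of_isConj]
  constructor
  · intro h
    apply Nat.Partition.ext
    ext a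
    by_cases ha : 1 ≤ a ∧ a ≤ D
    · have := congrFun h ⟨a - 1, by omega⟩
      simp only [mult] at this
      rwa [Nat.sub_add_cancel ha.1] at this
    · rw [Multiset.count_eq_zero_of_notMem fun h' => ha (parts_bound π a h'),
        Multiset.count_eq_zero_of_notMem fun h' => ha (parts_bound τ a h')]
  · intro h
    unfold mult
    rw [h]

lemma exists_mult {m : Fin D → ℕ} (hm : m ∈ MV D D) : ∃ π : Perm (Fin D), mult π = m := by
  classical
  unfold MV at hm
  rw [Finset.mem_filter] at hm
  obtain ⟨-, hm⟩ := hm
  set s : Multiset ℕ := ∑ r : Fin D, Multiset.replicate (m r) ((r : ℕ) + 1) with hs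
  have hcount : ∀ r : Fin D, s.count ((r : ℕ) + 1) = m r := by
    intro r
    rw [hs, Multiset.count_sum', Finset.sum_eq_single r]
    · simp
    · intro b _ hb
      rw [Multiset.count_replicate, if_neg]
      intro h'
      exact hb (Fin.ext (by omega))
    · intro h'
      exact absurd (Finset.mem_univ _) h'
  have hsum : s.sum = D := by
    rw [hs, Multiset.sum_sum]
    refine Eq.trans (Finset.sum_congr rfl fun r _ => ?_) hm
    rw [Multiset.sum_replicate, smul_eq_mul, mul_comm]
  have hpos : ∀ a ∈ s, 1 ≤ a := by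
    intro a ha
    rw [hs, Multiset.mem_sum] at ha
    obtain ⟨r, -, hr⟩ := ha
    rw [Multiset.eq_of_mem_replicate hr]
    omega
  have hsplit : s = s.filter (fun a => 2 ≤ a) +
      Multiset.replicate (D - (s.filter (fun a => 2 ≤ a)).sum) 1 := by
    have h1 := Multiset.filter_add_not (fun a => 2 ≤ a) s
    have h2 : s.filter (fun a => ¬ 2 ≤ a) =
        Multiset.replicate (s.filter (fun a => ¬ 2 ≤ a)).card 1 := by
      rw [Multiset.eq_replicate]
      refine ⟨rfl, fun b hb => ?_⟩
      rw [Multiset.mem_filter] at hb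
      have := hpos b hb.1
      omega
    have h3 : (s.filter (fun a => 2 ≤ a)).sum + (s.filter (fun a => ¬ 2 ≤ a)).card = D := by
      have h4 := congrArg Multiset.sum h1
      rw [Multiset.sum_add, hsum, h2, Multiset.sum_replicate] at h4
      simpa using h4
    rw [← h3, Nat.add_sub_cancel_left, ← h2]
    exact h1.symm
  obtain ⟨π, hπ⟩ := (Perm.exists_with_cycleType_iff (Fin D)
    (m := s.filter (fun a => 2 ≤ a))).2 ⟨by
      rw [Fintype.card_fin]
      have := congrArg Multiset.sum (Multiset.filter_add_not (fun a => 2 ≤ a) s)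
      rw [Multiset.sum_add, hsum] at this
      omega, fun a ha => (Multiset.mem_filter.1 ha).2⟩
  refine ⟨π, ?_⟩
  have hp : π.partition.parts = s := by
    rw [Perm.parts_partition, ← Perm.sum_cycleType, hπ, Fintype.card_fin]
    exact hsplit.symm
  ext r
  unfold mult
  rw [hp, hcount]

/-- a map whose fibres are the orbits of `π` -/
noncomputable def qmap (π : Perm (Fin D)) (x : Fin D) : Perm (Fin D) ⊕ Fin D :=
  if π x = x then Sum.inr x else Sum.inl (π.cycleOf x)

lemma qmap_eq_of_sameCycle {π : Perm (Fin D)} {x y : Fin D} (h : π.SameCycle x y) :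
    qmap π x = qmap π y := by
  unfold qmap
  by_cases hx : π x = x
  · rw [if_pos hx, if_pos (h.apply_eq_self_iff.1 hx), h.eq_of_left hx]
  · rw [if_neg hx, if_neg fun h' => hx (h.apply_eq_self_iff.2 h'), h.cycleOf_eq]

lemma sameCycle_of_qmap_eq {π : Perm (Fin D)} {x y : Fin D} (h : qmap π x = qmap π y) :
    π.SameCycle x y := by
  unfold qmap at h
  by_cases hx : π x = x
  · by_cases hy : π y = y
    · rw [if_pos hx, if_pos hy] at h
      rw [Sum.inr.inj h]
    · rw [if_pos hx, if_neg hy] at h
      exact absurd h (by simp)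
  · by_cases hy : π y = y
    · rw [if_neg hx, if_pos hy] at h
      exact absurd h (by simp)
    · rw [if_neg hx, if_neg hy] at h
      have h1 := Sum.inl.inj h
      have h2 : y ∈ (π.cycleOf y).support :=
        Perm.mem_support_cycleOf_iff.2 ⟨Perm.SameCycle.refl _ _, Perm.mem_support.2 hy⟩
      rw [← h1] at h2
      exact (Perm.mem_support_cycleOf_iff.1 h2).1

lemma image_qmap (π : Perm (Fin D)) :
    univ.image (qmap π) = π.cycleFactorsFinset.disjSum (univ.filter fun x => π x = x) := by
  ext z
  rcases z with c | x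
  · rw [Finset.inl_mem_disjSum, Finset.mem_image]
    constructor
    · rintro ⟨a, -, ha⟩
      unfold qmap at ha
      by_cases h : π a = a
      · rw [if_pos h] at ha
        exact absurd ha (by simp)
      · rw [if_neg h] at ha
        rw [← Sum.inl.inj ha]
        exact Perm.cycleOf_mem_cycleFactorsFinset_iff.2 (Perm.mem_support.2 h)
    · intro hc
      have hcy := (Perm.mem_cycleFactorsFinset_iff.1 hc).1
      obtain ⟨a, ha⟩ : c.support.Nonempty := by
        rw [Finset.nonempty_iff_ne_empty]
        intro h'
        exact hcy.ne_one (Perm.support_eq_empty_iff.1 h')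
      have h1 := Perm.cycle_is_cycleOf ha hc
      refine ⟨a, Finset.mem_univ _, ?_⟩
      have h2 : a ∈ π.support := Perm.mem_cycleFactorsFinset_support_le hc ha
      unfold qmap
      rw [if_neg (Perm.mem_support.1 h2), ← h1]
  · rw [Finset.inr_mem_disjSum, Finset.mem_image, Finset.mem_filter]
    constructor
    · rintro ⟨a, -, ha⟩
      unfold qmap at ha
      by_cases h : π a = a
      · rw [if_pos h] at ha
        rw [← Sum.inr.inj ha]
        exact ⟨Finset.mem_univ _, h⟩
      · rw [if_neg h] at ha
        exact absurd ha (by simp)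
    · rintro ⟨-, h⟩
      exact ⟨x, Finset.mem_univ _, by unfold qmap; rw [if_pos h]⟩

lemma card_image_qmap (π : Perm (Fin D)) : (univ.image (qmap π)).card = ∑ r, mult π r := by
  rw [image_qmap, Finset.card_disjSum, sum_mult_card, Perm.parts_partition, Multiset.card_add,
    Multiset.card_replicate, Perm.cycleType_def, Multiset.card_map]
  congr 1
  have h1 : (univ.filter fun x => π x = x) = π.supportᶜ := by
    ext x
    simp
  rw [h1, Finset.card_compl]

/-- labellings which are invariant under `π` -/
lemma card_invariant (K : ℕ) (π : Perm (Fin D)) :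
    Nat.card {ℓ : Fin D → Fin K // ∀ x, ℓ (π x) = ℓ x} = K ^ ∑ r, mult π r := by
  classical
  let e : {ℓ : Fin D → Fin K // ∀ x, ℓ (π x) = ℓ x} ≃ (univ.image (qmap π) → Fin K) :=
    { toFun := fun ℓ z => ℓ.1 (Finset.mem_image.1 z.2).choose
      invFun := fun f => ⟨fun x => f ⟨qmap π x, Finset.mem_image_of_mem _ (Finset.mem_univ x)⟩, by
        intro x
        exact congrArg f (Subtype.ext
          (qmap_eq_of_sameCycle (Perm.sameCycle_apply_left.2 (Perm.SameCycle.refl _ _))))⟩
      left_inv := by
        rintro ⟨ℓ, hℓ⟩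
        apply Subtype.ext
        funext x
        have hx := (Finset.mem_image.1
          (Finset.mem_image_of_mem (qmap π) (Finset.mem_univ x))).choose_spec.2
        obtain ⟨i, hi⟩ := sameCycle_of_qmap_eq hx
        have hinv : ∀ (i : ℤ) (y : Fin D), ℓ ((π ^ i) y) = ℓ y := by
          intro i y
          have hn : ∀ (n : ℕ) (y : Fin D), ℓ ((π ^ n) y) = ℓ y := by
            intro n
            induction n with
            | zero => intro y; simp
            | succ n ih =>
              intro y
              rw [pow_succ, Perm.mul_apply, ih, hℓ]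
          cases i with
          | ofNat n => simpa using hn n y
          | negSucc n =>
            have := hn (n + 1) ((π ^ (Int.negSucc n)) y)
            rw [← this, zpow_negSucc, ← Perm.mul_apply, mul_inv_cancel, Perm.one_apply]
        show ℓ _ = ℓ x
        rw [← hinv i, hi]
      right_inv := by
        intro f
        funext z
        have hz := (Finset.mem_image.1 z.2).choose_spec.2
        show f ⟨qmap π _, _⟩ = f z
        congr 1
        exact Subtype.ext hz }
  rw [Nat.card_congr e, Nat.card_eq_fintype_card, Fintype.card_fun, Fintype.card_coe,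
    Fintype.card_fin, card_image_qmap]

/-- number of fixed points of `π` on labelled graphs -/
lemma card_fixedBy (K : ℕ) (π : Perm (Fin D)) :
    Nat.card (MulAction.fixedBy (LGraph K D) π) =
      Nat.card (Subgroup.centralizer {π}) * K ^ ∑ r, mult π r := by
  rw [← card_invariant, ← Nat.card_prod]
  refine Nat.card_congr
    { toFun := fun g => ⟨⟨g.1.σ, ?_⟩, ⟨g.1.ℓ, ?_⟩⟩
      invFun := fun p => ⟨⟨p.1.1, p.2.1⟩, ?_⟩
      left_inv := fun g => rfl
      right_inv := fun p => rfl }
  · have h : π • g.1 = g.1 := g.2
    rw [LGraph.smul_def] at h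
    have h1 := congrArg LGraph.σ h
    simp only at h1
    rw [Subgroup.mem_centralizer_singleton_iff]
    exact (mul_inv_eq_iff_eq_mul.1 h1).symm
  · intro x
    have h : π • g.1 = g.1 := g.2
    rw [LGraph.smul_def] at h
    have h1 := congrFun (congrArg LGraph.ℓ h) (π x)
    simpa using h1.symm
  · show π • _ = _
    rw [LGraph.smul_def]
    apply LGraph.ext
    · have h1 := Subgroup.mem_centralizer_singleton_iff.1 p.1.2
      exact mul_inv_eq_iff_eq_mul.2 h1.symm
    · funext x
      have h1 := p.2.2 (π.symm x)
      simpa using h1.symm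

lemma centralizer_mul_class (π : Perm (Fin D)) :
    Nat.card (Subgroup.centralizer {π}) * Nat.card {τ : Perm (Fin D) | IsConj π τ} =
      D.factorial := by
  rw [Perm.nat_card_centralizer, mul_comm, Perm.card_isConj_mul_eq, Fintype.card_fin]

/-- the sum of the orders of the centralizers over a conjugacy class -/
lemma sum_centralizer {m : Fin D → ℕ} (hm : m ∈ MV D D) :
    ∑ π ∈ univ.filter (fun π : Perm (Fin D) => mult π = m),
      Nat.card (Subgroup.centralizer {π}) = D.factorial := by
  classical
  obtain ⟨π₀, hπ₀⟩ := exists_mult hm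
  have hS : ∀ π ∈ univ.filter (fun π : Perm (Fin D) => mult π = m),
      Nat.card (Subgroup.centralizer {π}) *
        (univ.filter (fun π : Perm (Fin D) => mult π = m)).card = D.factorial := by
    intro π hπ
    rw [Finset.mem_filter] at hπ
    rw [← centralizer_mul_class π]
    congr 1
    rw [← Nat.card_eq_finsetCard]
    refine Nat.card_congr (Equiv.subtypeEquivRight fun τ => ?_)
    rw [Finset.mem_filter, Set.mem_ofPred_eq, ← mult_eq_iff, hπ.2]
    simp [eq_comm]
  have hpos : 0 < (univ.filter (fun π : Perm (Fin D) => mult π = m)).card :=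
    Finset.card_pos.2 ⟨π₀, by simp [hπ₀]⟩
  apply Nat.eq_of_mul_eq_mul_right hpos
  rw [Finset.sum_mul, Finset.sum_congr rfl hS, Finset.sum_const, smul_eq_mul, mul_comm]

end OC

open OC in
theorem card_Orb (K D : ℕ) : Nat.card (Orb K D) = ∑ m ∈ MV D D, K ^ (∑ r, m r) := by
  classical
  have : Fintype (LGraph K D) := Fintype.ofFinite _
  have : Fintype (Quotient (MulAction.orbitRel (Perm (Fin D)) (LGraph K D))) :=
    Fintype.ofFinite _
  have h1 := MulAction.sum_card_fixedBy_eq_card_orbits_mul_card_group (Perm (Fin D)) (LGraph K D)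
  have h2 : Nat.card (Orb K D) =
      Fintype.card (Quotient (MulAction.orbitRel (Perm (Fin D)) (LGraph K D))) :=
    Nat.card_eq_fintype_card
  rw [Fintype.card_perm, Fintype.card_fin, ← h2] at h1
  apply Nat.eq_of_mul_eq_mul_right D.factorial_pos
  rw [← h1, Finset.sum_mul]
  rw [← Finset.sum_fiberwise_of_maps_to (s := univ) (t := MV D D) (g := fun π => mult π)
    (fun π _ => mult_mem π)]
  refine Finset.sum_congr rfl fun m hm => ?_
  rw [← sum_centralizer hm, Finset.mul_sum]
  refine Finset.sum_congr rfl fun π hπ => ?_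
  rw [← Nat.card_eq_fintype_card, card_fixedBy, (Finset.mem_filter.1 hπ).2, mul_comm]

end TF
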