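import Pool.Agent.H66.TF.LRDefs

/-!
# TF-SCHUR: symmetry of the Schur polynomials (Bender–Knuth in matrix form)

`GR lam`: arrays `t` with `GoodRows` and row sums `lam i ρ`; `schurK lam = ∑_{t ∈ GR lam} x^{ind t}`.

Symmetry under the adjacent transposition of the columns `a, a' = a + 1`. Fix all the other columns and
the sums `s_{(i,ρ)} = t(i,ρ,a) + t(i,ρ,a')`. Write `x_ρ = t(i,ρ,a)`, `A_ρ = ∑_{b < a} t(i,ρ,b)` (fixed
letter `i`). The conditions `GoodRows` not involving `x` are those with `j < a` (letters `≤ j`, `< j` with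
`j < a`, and `j = a` on the upper side only through `A`), and `j > a'`. The conditions involving `x`:
`j = a` : `A_{ρ+1} + x_{ρ+1} ≤ A_ρ`; `j = a'` : `A_{ρ+1} + s_{ρ+1} ≤ A_ρ + x_ρ`; and `0 ≤ x_ρ ≤ s_ρ`. So
`x_ρ` runs (independently for every row!) over the interval `[m_ρ, s_ρ - m_{ρ-1}]`, where
`m_ρ = (A_{ρ+1} + s_{ρ+1}) - A_ρ` (truncated subtraction; `m = 0` for the last row and for the row
before the first), because `min(s_ρ, A_{ρ-1} - A_ρ) = s_ρ - ((A_ρ + s_ρ) - A_{ρ-1})`.
(The intervals may be used only when the conditions with `j < a` hold, which give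
`A_{ρ+1} ≤ A_ρ`.) The involution `x_ρ ↦ m_ρ + s_ρ - m_{ρ-1} - x_ρ` in every row exchanges the column
sums of `a` and `a'`: the `m`'s telescope. Hence `rename (swap a a') (schurK lam) = schurK lam`; the
adjacent transpositions generate (`Equiv.Perm.mclosure_swap_castSucc_succ` or similar).

`alt_mul_schurK`: `alt ρ * S = ∑_w sgn(w) x^{ρ∘w} S`, `S = rename … S = ∑_t x^{(ind t)∘w}` by
symmetry, so the product is `∑_t ∑_w sgn(w) x^{(ρ + ind t)∘w}`.

`schurK_prod`: an array with good rows and row sums `lam` is a `K`-tuple of such arrays for one letter;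
column sums add up.
-/

open Finset Equiv

namespace TF

theorem mem_GR {K N : ℕ} (lam : Fin K → Fin N → ℕ) (t : Arr K N) :
    t ∈ GR lam ↔ GoodRows t ∧ ∀ i ρ, rsum t i ρ = lam i ρ := by
  classical
  unfold GR
  rw [Finset.mem_filter]
  constructor
  · rintro ⟨_, h⟩
    exact h
  · intro h
    refine ⟨?_, h⟩
    rw [Finset.mem_piAntidiag]
    refine ⟨?_, fun i _ => Finset.mem_univ i⟩
    rw [Fintype.sum_prod_type]
    refine Finset.sum_congr rfl fun i _ => ?_
    rw [Fintype.sum_prod_type]
    refine Finset.sum_congr rfl fun ρ _ => ?_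
    exact h.2 i ρ

section BK

variable {K N : ℕ} (a a' : Fin N)

/-- prefix sum of the row `(i, r)` before the column `a` -/
def bkA (t : Arr K N) (i : Fin K) (r : ℕ) : ℕ :=
  if h : r < N then ∑ b ∈ univ.filter (fun b => b < a), t (i, ⟨r, h⟩, b) else 0

/-- sum of the two cells of the row `(i, r)` -/
def bkS (t : Arr K N) (i : Fin K) (r : ℕ) : ℕ :=
  if h : r < N then t (i, ⟨r, h⟩, a) + t (i, ⟨r, h⟩, a') else 0

def bkM (t : Arr K N) (i : Fin K) (r : ℕ) : ℕ :=
  (bkA a t i (r + 1) + bkS a a' t i (r + 1)) - bkA a t i r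

def bkP (t : Arr K N) (i : Fin K) : ℕ → ℕ
  | 0 => 0
  | r + 1 => bkM a a' t i r

/-- the Bender–Knuth involution -/
def bkT (t : Arr K N) : Arr K N := fun v =>
  if v.2.2 = a then bkM a a' t v.1 v.2.1 + (t (v.1, v.2.1, a') - bkP a a' t v.1 v.2.1)
  else if v.2.2 = a' then bkP a a' t v.1 v.2.1 + (t (v.1, v.2.1, a) - bkM a a' t v.1 v.2.1)
  else t v

theorem bkM_last (t : Arr K N) (i : Fin K) (r : ℕ) (hr : N ≤ r + 1) : bkM a a' t i r = 0 := by
  unfold bkM bkA bkS
  rw [dif_neg (by omega), dif_neg (by omega)]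
  omega

theorem sum_bkM (t : Arr K N) (i : Fin K) :
    ∑ r : Fin N, bkM a a' t i r = ∑ r : Fin N, bkP a a' t i r := by
  rw [Fin.sum_univ_eq_sum_range (fun r => bkM a a' t i r) N,
    Fin.sum_univ_eq_sum_range (fun r => bkP a a' t i r) N]
  rcases N with _ | n
  · simp
  · rw [Finset.sum_range_succ, Finset.sum_range_succ' (fun r => bkP a a' t i r),
      bkM_last a a' t i n (by omega)]
    rfl

variable {a a'}

/-- the row inequalities: `m ≤ x` and `m_{prev} ≤ y` -/
theorem bk_le (haa : (a' : ℕ) = a + 1) (t : Arr K N) (ht : GoodRows t) (i : Fin K) (r : Fin N) :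
    bkM a a' t i r ≤ t (i, r, a) ∧ bkP a a' t i r ≤ t (i, r, a') := by
  have hlt : a < a' := by
    rw [Fin.lt_def]; omega
  have f1 : univ.filter (fun b : Fin N => b ≤ a) = insert a (univ.filter (fun b => b < a)) := by
    ext b
    simp only [Finset.mem_filter, Finset.mem_univ, true_and, Finset.mem_insert]
    rw [le_iff_eq_or_lt]
  have f2 : univ.filter (fun b : Fin N => b < a') = insert a (univ.filter (fun b => b < a)) := by
    ext b
    simp only [Finset.mem_filter, Finset.mem_univ, true_and, Finset.mem_insert, Fin.lt_def,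
      Fin.ext_iff]
    omega
  have f3 : univ.filter (fun b : Fin N => b ≤ a') =
      insert a' (insert a (univ.filter (fun b => b < a))) := by
    ext b
    simp only [Finset.mem_filter, Finset.mem_univ, true_and, Finset.mem_insert, Fin.lt_def,
      Fin.le_def, Fin.ext_iff]
    omega
  have g1 : a ∉ univ.filter (fun b : Fin N => b < a) := by simp
  have g3 : a' ∉ insert a (univ.filter (fun b : Fin N => b < a)) := by
    simp only [Finset.mem_filter, Finset.mem_univ, true_and, Finset.mem_insert, Fin.lt_def,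
      Fin.ext_iff]
    omega
  constructor
  · by_cases hr : (r : ℕ) + 1 < N
    · have h := ht i r ⟨r + 1, hr⟩ rfl a'
      simp only [rowc] at h
      rw [f2, f3, Finset.sum_insert g3, Finset.sum_insert g1, Finset.sum_insert g1] at h
      unfold bkM bkA bkS
      rw [dif_pos hr, dif_pos r.2, dif_pos hr]
      simp only [Fin.eta]
      omega
    · rw [bkM_last a a' t i r (by omega)]
      exact Nat.zero_le _
  · obtain ⟨r, hr⟩ := r
    rcases r with _ | r
    · exact Nat.zero_le _
    · have h := ht i ⟨r, by omega⟩ ⟨r + 1, hr⟩ rfl a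
      simp only [rowc] at h
      rw [f1, Finset.sum_insert g1] at h
      change bkM a a' t i r ≤ _
      unfold bkM bkA bkS
      rw [dif_pos hr, dif_pos (show r < N by omega), dif_pos hr]
      omega

theorem bkT_a (t : Arr K N) (i : Fin K) (r : Fin N) :
    bkT a a' t (i, r, a) = bkM a a' t i r + (t (i, r, a') - bkP a a' t i r) := by
  unfold bkT
  rw [if_pos rfl]

theorem bkT_a' (haa : (a' : ℕ) = a + 1) (t : Arr K N) (i : Fin K) (r : Fin N) :
    bkT a a' t (i, r, a') = bkP a a' t i r + (t (i, r, a) - bkM a a' t i r) := by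
  unfold bkT
  have : a' ≠ a := by
    intro h
    rw [h] at haa
    omega
  rw [if_neg this, if_pos rfl]

theorem bkT_ne (t : Arr K N) (i : Fin K) (r b : Fin N) (h1 : b ≠ a) (h2 : b ≠ a') :
    bkT a a' t (i, r, b) = t (i, r, b) := by
  unfold bkT
  rw [if_neg h1, if_neg h2]

theorem bkS_bkT (haa : (a' : ℕ) = a + 1) (t : Arr K N) (ht : GoodRows t) (i : Fin K) (r : ℕ) :
    bkS a a' (bkT a a' t) i r = bkS a a' t i r := by
  unfold bkS
  by_cases hr : r < N
  · rw [dif_pos hr, dif_pos hr, bkT_a, bkT_a' haa]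
    obtain ⟨h1, h2⟩ := bk_le haa t ht i ⟨r, hr⟩
    omega
  · rw [dif_neg hr, dif_neg hr]

theorem sum_bkT_of_pair (haa : (a' : ℕ) = a + 1) (t : Arr K N) (ht : GoodRows t) (i : Fin K)
    (r : Fin N) (F : Finset (Fin N)) (hF : a ∈ F ↔ a' ∈ F) :
    ∑ b ∈ F, bkT a a' t (i, r, b) = ∑ b ∈ F, t (i, r, b) := by
  classical
  have hne : a ≠ a' := by
    intro h
    rw [← h] at haa
    omega
  by_cases ha : a ∈ F
  · have ha' : a' ∈ F := hF.1 ha
    have e : F = insert a (insert a' ((F.erase a).erase a')) := by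
      rw [Finset.insert_erase (Finset.mem_erase.2 ⟨hne.symm, ha'⟩), Finset.insert_erase ha]
    have n2 : a' ∉ (F.erase a).erase a' := Finset.notMem_erase _ _
    have n1 : a ∉ insert a' ((F.erase a).erase a') := by
      simp [hne]
    rw [e, Finset.sum_insert n1, Finset.sum_insert n2, Finset.sum_insert n1, Finset.sum_insert n2,
      bkT_a, bkT_a' haa]
    have h3 : ∑ b ∈ (F.erase a).erase a', bkT a a' t (i, r, b) =
        ∑ b ∈ (F.erase a).erase a', t (i, r, b) := by
      refine Finset.sum_congr rfl fun b hb => ?_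
      rw [Finset.mem_erase, Finset.mem_erase] at hb
      exact bkT_ne t i r b hb.2.1 hb.1
    rw [h3]
    obtain ⟨h1, h2⟩ := bk_le haa t ht i r
    omega
  · refine Finset.sum_congr rfl fun b hb => ?_
    refine bkT_ne t i r b ?_ ?_
    · rintro rfl
      exact ha hb
    · rintro rfl
      exact ha (hF.2 hb)

theorem bkA_bkT (haa : (a' : ℕ) = a + 1) (t : Arr K N) (ht : GoodRows t) (i : Fin K) (r : ℕ) :
    bkA a (bkT a a' t) i r = bkA a t i r := by
  unfold bkA
  by_cases hr : r < N
  · rw [dif_pos hr, dif_pos hr]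
    refine sum_bkT_of_pair haa t ht i _ _ ?_
    simp only [Finset.mem_filter, Finset.mem_univ, true_and, Fin.lt_def]
    omega
  · rw [dif_neg hr, dif_neg hr]

theorem bkM_bkT (haa : (a' : ℕ) = a + 1) (t : Arr K N) (ht : GoodRows t) (i : Fin K) (r : ℕ) :
    bkM a a' (bkT a a' t) i r = bkM a a' t i r := by
  unfold bkM
  rw [bkA_bkT haa t ht, bkA_bkT haa t ht, bkS_bkT haa t ht]

theorem bkP_bkT (haa : (a' : ℕ) = a + 1) (t : Arr K N) (ht : GoodRows t) (i : Fin K) (r : ℕ) :
    bkP a a' (bkT a a' t) i r = bkP a a' t i r := by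
  cases r with
  | zero => rfl
  | succ r => exact bkM_bkT haa t ht i r

theorem bkT_bkT (haa : (a' : ℕ) = a + 1) (t : Arr K N) (ht : GoodRows t) :
    bkT a a' (bkT a a' t) = t := by
  funext v
  obtain ⟨i, r, b⟩ := v
  obtain ⟨h1, h2⟩ := bk_le haa t ht i r
  by_cases hb : b = a
  · subst hb
    rw [bkT_a, bkM_bkT haa t ht, bkP_bkT haa t ht, bkT_a' haa]
    omega
  · by_cases hb' : b = a'
    · subst hb'
      rw [bkT_a' haa, bkM_bkT haa t ht, bkP_bkT haa t ht, bkT_a]
      omega
    · rw [bkT_ne _ _ _ _ hb hb', bkT_ne _ _ _ _ hb hb']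

theorem goodRows_bkT (haa : (a' : ℕ) = a + 1) (t : Arr K N) (ht : GoodRows t) :
    GoodRows (bkT a a' t) := by
  intro i ρ ρ' hρ j
  have hlt : a < a' := by
    rw [Fin.lt_def]; omega
  simp only [rowc]
  by_cases hja : j = a
  · subst hja
    have f1 : univ.filter (fun b : Fin N => b ≤ j) = insert j (univ.filter (fun b => b < j)) := by
      ext b
      simp only [Finset.mem_filter, Finset.mem_univ, true_and, Finset.mem_insert]
      rw [le_iff_eq_or_lt]
    have g1 : j ∉ univ.filter (fun b : Fin N => b < j) := by simp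
    have hF : (j ∈ univ.filter (fun b : Fin N => b < j)) ↔
        (a' ∈ univ.filter (fun b : Fin N => b < j)) := by
      simp only [Finset.mem_filter, Finset.mem_univ, true_and, Fin.lt_def]
      omega
    rw [f1, Finset.sum_insert g1, sum_bkT_of_pair haa t ht i ρ' _ hF,
      sum_bkT_of_pair haa t ht i ρ _ hF, bkT_a]
    obtain ⟨h1, h2⟩ := bk_le haa t ht i ρ'
    have e1 : bkP j a' t i ρ' = bkM j a' t i ρ := by
      rw [hρ]
      rfl
    rw [e1] at h2 ⊢
    have e2 : bkM j a' t i ρ = (∑ b ∈ univ.filter (fun b => b < j), t (i, ρ', b) +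
        (t (i, ρ', j) + t (i, ρ', a'))) - ∑ b ∈ univ.filter (fun b => b < j), t (i, ρ, b) := by
      unfold bkM bkA bkS
      have hlt2 : (ρ : ℕ) + 1 < N := by
        rw [← hρ]
        exact ρ'.2
      have hr' : (⟨(ρ : ℕ) + 1, hlt2⟩ : Fin N) = ρ' := Fin.ext hρ.symm
      rw [dif_pos hlt2, dif_pos ρ.2, dif_pos hlt2, hr']
    omega
  · by_cases hja' : j = a'
    · subst hja'
      have f2 : univ.filter (fun b : Fin N => b < j) = insert a (univ.filter (fun b => b < a)) := by
        ext b
        simp only [Finset.mem_filter, Finset.mem_univ, true_and, Finset.mem_insert, Fin.lt_def,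
          Fin.ext_iff]
        omega
      have g1 : a ∉ univ.filter (fun b : Fin N => b < a) := by simp
      have hF1 : (a ∈ univ.filter (fun b : Fin N => b ≤ j)) ↔
          (j ∈ univ.filter (fun b : Fin N => b ≤ j)) := by
        simp only [Finset.mem_filter, Finset.mem_univ, true_and, Fin.le_def]
        omega
      have hF2 : (a ∈ univ.filter (fun b : Fin N => b < a)) ↔
          (j ∈ univ.filter (fun b : Fin N => b < a)) := by
        simp only [Finset.mem_filter, Finset.mem_univ, true_and, Fin.lt_def]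
        omega
      rw [sum_bkT_of_pair haa t ht i ρ' _ hF1, f2, Finset.sum_insert g1,
        sum_bkT_of_pair haa t ht i ρ _ hF2, bkT_a]
      have f3 : univ.filter (fun b : Fin N => b ≤ j) =
          insert j (insert a (univ.filter (fun b => b < a))) := by
        ext b
        simp only [Finset.mem_filter, Finset.mem_univ, true_and, Finset.mem_insert, Fin.lt_def,
          Fin.le_def, Fin.ext_iff]
        omega
      have g3 : j ∉ insert a (univ.filter (fun b : Fin N => b < a)) := by
        simp only [Finset.mem_filter, Finset.mem_univ, true_and, Finset.mem_insert, Fin.lt_def,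
          Fin.ext_iff]
        omega
      rw [f3, Finset.sum_insert g3, Finset.sum_insert g1]
      have e2 : bkM a j t i ρ = (∑ b ∈ univ.filter (fun b => b < a), t (i, ρ', b) +
          (t (i, ρ', a) + t (i, ρ', j))) - ∑ b ∈ univ.filter (fun b => b < a), t (i, ρ, b) := by
        unfold bkM bkA bkS
        have hlt2 : (ρ : ℕ) + 1 < N := by
          rw [← hρ]
          exact ρ'.2
        have hr' : (⟨(ρ : ℕ) + 1, hlt2⟩ : Fin N) = ρ' := Fin.ext hρ.symm
        rw [dif_pos hlt2, dif_pos ρ.2, dif_pos hlt2, hr']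
      omega
    · have hF1 : (a ∈ univ.filter (fun b : Fin N => b ≤ j)) ↔
          (a' ∈ univ.filter (fun b : Fin N => b ≤ j)) := by
        simp only [Finset.mem_filter, Finset.mem_univ, true_and, Fin.le_def, Fin.ext_iff] at *
        omega
      have hF2 : (a ∈ univ.filter (fun b : Fin N => b < j)) ↔
          (a' ∈ univ.filter (fun b : Fin N => b < j)) := by
        simp only [Finset.mem_filter, Finset.mem_univ, true_and, Fin.lt_def, Fin.ext_iff] at *
        omega
      rw [sum_bkT_of_pair haa t ht i ρ' _ hF1, sum_bkT_of_pair haa t ht i ρ _ hF2]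
      exact ht i ρ ρ' hρ j

theorem rsum_bkT (haa : (a' : ℕ) = a + 1) (t : Arr K N) (ht : GoodRows t) (i : Fin K)
    (ρ : Fin N) : rsum (bkT a a' t) i ρ = rsum t i ρ := by
  unfold rsum rowc
  exact sum_bkT_of_pair haa t ht i ρ univ (by simp)

theorem ind_bkT (haa : (a' : ℕ) = a + 1) (t : Arr K N) (ht : GoodRows t) :
    ind (bkT a a' t) = ind t ∘ (swap a a') := by
  have hsum : ∑ p : Fin K × Fin N, bkM a a' t p.1 p.2 =
      ∑ p : Fin K × Fin N, bkP a a' t p.1 p.2 := by
    rw [Fintype.sum_prod_type, Fintype.sum_prod_type]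
    exact Finset.sum_congr rfl fun i _ => sum_bkM a a' t i
  funext b
  rw [Function.comp_apply]
  by_cases hb : b = a
  · subst hb
    rw [swap_apply_left]
    unfold ind rgt
    have h1 : ∑ p : Fin K × Fin N, (bkT b a' t (p.1, p.2, b) + bkP b a' t p.1 p.2) =
        ∑ p : Fin K × Fin N, (bkM b a' t p.1 p.2 + t (p.1, p.2, a')) := by
      refine Finset.sum_congr rfl fun p _ => ?_
      rw [bkT_a]
      obtain ⟨_, h2⟩ := bk_le haa t ht p.1 p.2
      omega
    rw [Finset.sum_add_distrib, Finset.sum_add_distrib] at h1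
    omega
  · by_cases hb' : b = a'
    · subst hb'
      rw [swap_apply_right]
      unfold ind rgt
      have h1 : ∑ p : Fin K × Fin N, (bkT a b t (p.1, p.2, b) + bkM a b t p.1 p.2) =
          ∑ p : Fin K × Fin N, (bkP a b t p.1 p.2 + t (p.1, p.2, a)) := by
        refine Finset.sum_congr rfl fun p _ => ?_
        rw [bkT_a' haa]
        obtain ⟨h2, _⟩ := bk_le haa t ht p.1 p.2
        omega
      rw [Finset.sum_add_distrib, Finset.sum_add_distrib] at h1
      omega
    · rw [swap_apply_of_ne_of_ne hb hb']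
      unfold ind rgt
      exact Finset.sum_congr rfl fun p _ => bkT_ne t p.1 p.2 b hb hb'

theorem bkT_mem_GR (haa : (a' : ℕ) = a + 1) (lam : Fin K → Fin N → ℕ) (t : Arr K N)
    (ht : t ∈ GR lam) : bkT a a' t ∈ GR lam := by
  rw [mem_GR] at ht ⊢
  refine ⟨goodRows_bkT haa t ht.1, fun i ρ => ?_⟩
  rw [rsum_bkT haa t ht.1]
  exact ht.2 i ρ

end BK

theorem mapDomain_toF {N : ℕ} (e : Perm (Fin N)) (c : Fin N → ℕ) :
    Finsupp.mapDomain e (toF c) = toF (c ∘ e.symm) := by
  ext b
  have h1 : Finsupp.mapDomain e (toF c) b = toF c (e.symm b) := by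
    have := Finsupp.mapDomain_apply e.injective (toF c) (e.symm b)
    rwa [e.apply_symm_apply] at this
  rw [h1]
  rfl

theorem rename_schurK {K N : ℕ} (lam : Fin K → Fin N → ℕ) (e : Perm (Fin N)) :
    MvPolynomial.rename e (schurK lam) =
      ∑ t ∈ GR lam, MvPolynomial.monomial (toF (ind t ∘ e.symm)) (1 : ℤ) := by
  unfold schurK
  rw [map_sum]
  refine Finset.sum_congr rfl fun t _ => ?_
  rw [MvPolynomial.rename_monomial, mapDomain_toF]

theorem rename_swap_schurK {K N : ℕ} (lam : Fin K → Fin N → ℕ) (a a' : Fin N)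
    (haa : (a' : ℕ) = a + 1) :
    MvPolynomial.rename (swap a a') (schurK lam) = schurK lam := by
  rw [rename_schurK, symm_swap]
  unfold schurK
  refine Finset.sum_bij' (fun t _ => bkT a a' t) (fun t _ => bkT a a' t) ?_ ?_ ?_ ?_ ?_
  · intro t ht
    exact bkT_mem_GR haa lam t ht
  · intro t ht
    exact bkT_mem_GR haa lam t ht
  · intro t ht
    rw [mem_GR] at ht
    exact bkT_bkT haa t ht.1
  · intro t ht
    rw [mem_GR] at ht
    exact bkT_bkT haa t ht.1
  · intro t ht
    rw [mem_GR] at ht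
    rw [ind_bkT haa t ht.1]

theorem schurK_symm {K N : ℕ} (lam : Fin K → Fin N → ℕ) : (schurK lam).IsSymmetric := by
  rcases N with _ | n
  · intro e
    have : e = 1 := Subsingleton.elim _ _
    rw [this]
    simp
  · intro e
    have h : e ∈ Submonoid.closure
        (Set.range fun i : Fin n ↦ swap i.castSucc i.succ) := by
      rw [Perm.mclosure_swap_castSucc_succ]
      trivial
    induction h using Submonoid.closure_induction with
    | mem x hx =>
      obtain ⟨i, rfl⟩ := hx
      exact rename_swap_schurK lam i.castSucc i.succ (by simp)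
    | one => simp
    | mul x y _ _ hx hy =>
      rw [Perm.coe_mul, ← MvPolynomial.rename_rename, hy, hx]

theorem schurK_eq_comp {K N : ℕ} (lam : Fin K → Fin N → ℕ) (w : Perm (Fin N)) :
    schurK lam = ∑ t ∈ GR lam, MvPolynomial.monomial (toF (ind t ∘ w)) (1 : ℤ) := by
  have h1 := schurK_symm lam w.symm
  have h2 := rename_schurK lam w.symm
  rw [symm_symm] at h2
  rw [← h2]
  exact h1.symm

theorem toF_add {N : ℕ} (c d : Fin N → ℕ) : toF (c + d) = toF c + toF d := by
  ext b
  rfl

theorem alt_mul_schurK {K N : ℕ} (lam : Fin K → Fin N → ℕ) :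
    alt (rho N) * schurK lam = ∑ t ∈ GR lam, alt (ind t + rho N) := by
  unfold alt
  rw [Finset.sum_comm, Finset.sum_mul]
  refine Finset.sum_congr rfl fun w _ => ?_
  conv_lhs => rw [schurK_eq_comp lam w]
  rw [Finset.mul_sum]
  refine Finset.sum_congr rfl fun t _ => ?_
  have e : rho N ∘ w + ind t ∘ w = (ind t + rho N) ∘ w := by
    funext b
    simp only [Pi.add_apply, Function.comp_apply]
    omega
  rw [smul_mul_assoc, MvPolynomial.monomial_mul, mul_one, ← toF_add, e]

theorem schurK_prod {K N : ℕ} (lam : Fin K → Fin N → ℕ) :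
    schurK lam = ∏ i, schur1 (lam i) := by
  classical
  unfold schur1 schurK
  rw [Finset.prod_univ_sum]
  refine Finset.sum_bij' (fun t _ => fun i => fun v : Idx 1 N => t (i, v.2.1, v.2.2))
    (fun f _ => fun v : Idx K N => f v.1 (0, v.2.1, v.2.2)) ?_ ?_ ?_ ?_ ?_
  · intro t ht
    rw [Fintype.mem_piFinset]
    intro i
    rw [mem_GR] at ht ⊢
    refine ⟨?_, ?_⟩
    · intro z ρ ρ' hρ
      exact ht.1 i ρ ρ' hρ
    · intro z ρ
      exact ht.2 i ρ
  · intro f hf
    rw [Fintype.mem_piFinset] at hf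
    rw [mem_GR]
    refine ⟨?_, ?_⟩
    · intro i ρ ρ' hρ
      have := (mem_GR _ _).1 (hf i)
      exact this.1 0 ρ ρ' hρ
    · intro i ρ
      have := (mem_GR _ _).1 (hf i)
      exact this.2 0 ρ
  · intro t _
    rfl
  · intro f _
    funext i v
    obtain ⟨z, r, b⟩ := v
    have : z = 0 := Subsingleton.elim _ _
    rw [this]
  · intro t _
    rw [← MvPolynomial.monomial_sum_one]
    congr 2
    apply Finsupp.ext
    intro b
    rw [Finsupp.finsetSum_apply]
    change ind t b = ∑ i, ind (fun v : Idx 1 N => t (i, v.2.1, v.2.2)) b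
    unfold ind rgt
    rw [Fintype.sum_prod_type]
    refine Finset.sum_congr rfl fun i _ => ?_
    rw [Fintype.sum_prod_type]
    simp

end TF
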