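import Pool.Agent.H66.TF.LRDefs

/-!
# TF-STEM: the Littlewood–Richardson rule (Stembridge's involution in matrix form)

Claim: `∑_{t ∈ GR lam} alt (ind t + rho) = ∑_{t ∈ LRs lam} alt (ind t + rho)`, i.e. the sum over the
`t ∈ GR lam` which are not `GoodCols` vanishes. Sign reversing involution (`Finset.sum_involution`;
`alt α = -alt α'` if `α'` is `α` with two entries exchanged, and if `t` is fixed then `alt (…) = 0`):

Order the rows `(i,ρ)` lexicographically and number them `r = 0, 1, 2, …`. For `t` write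
`X^a_{<r} = ∑_{r₁ < r} t(r₁, a)`, `X^a_{≤ r}`. `GoodCols` says `X^{a+1}_{≤ r} ≤ X^a_{< r}` for all `r, a`.
If `t` is not `GoodCols` let `r*` be the first row such that there is `a` with
`X^{a+1}_{≤ r*} > X^a_{< r*}`, and `a` the LARGEST such index (for `r*`). Put
`v = X^a_{<r*} - X^{a+1}_{<r*} ≥ 0` (`≥ 0` since there is no violation in the rows before), so
`t(r*, a+1) ≥ v + 1`. Notation of the file `Schur.lean` for the columns `a, a+1`: `x_r = t(r,a)`,
`s_r = t(r,a) + t(r,a+1)`, `A_r = ∑_{b<a} t(r,b)`, and for consecutive rows `r, r+1` of the same letter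
`m_r = (A_{r+1} + s_{r+1}) - A_r` (truncated), `m_r = 0` if `r` is the last row of its letter. `GoodRows`
(given the other columns and the `s_r`) means `x_r ∈ [m_r, s_r - m_{r-1}]` for all `r` (`m_{r-1}` read as
`0` if `r` is the first row of its letter). Since there is no violation at `r* - 1`:
`v = (X^a_{<r*-1} - X^{a+1}_{≤ r*-1}) + x_{r*-1} ≥ x_{r*-1} ≥ m_{r*-1}`, so `v + 1 > m_{r*-1}`, and the
set of `t` with the same other columns, the same `s`, the same rows `< r*`, and a violation of the pair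
`(a, a+1)` at `r*`, is the product of the intervals `x_{r*} ∈ [m_{r*}, s_{r*} - (v+1)]` and
`x_r ∈ [m_r, s_r - m_{r-1}]`, `r > r*`. Reflect each interval (rows `r ≥ r*`), keep everything else.
The new `t'` is in `GR lam`, has the same `r*` (rows `< r*` unchanged) and the same largest violating
index (for `a₁ > a` the condition at `r*` involves column `a₁` in rows `< r*` and column `a₁ + 1` in rows
`≤ r*`, both unchanged; the violation for `a` is built in). So it is an involution. The column sums: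
the `m`'s telescope, `X'^a = X^a_{<r*} + (X^{a+1} - X^{a+1}_{<r*}) - (v+1) = X^{a+1} - 1` and
`X'^{a+1} = X^a + 1`, so `ind t' + rho` is `ind t + rho` with the entries `a`, `a+1` exchanged.
-/

open Finset Equiv

namespace TF
namespace Stem

/-- prefix sums of a row -/
def A (T : ℕ → ℕ → ℤ) (r j : ℕ) : ℤ := ∑ b ∈ range j, T r b

/-- prefix sums of a column -/
def P (T : ℕ → ℕ → ℤ) (a r : ℕ) : ℤ := ∑ r' ∈ range r, T r' a

lemma A_succ (T : ℕ → ℕ → ℤ) (r j : ℕ) : A T r (j + 1) = A T r j + T r j :=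
  Finset.sum_range_succ _ _

lemma P_succ (T : ℕ → ℕ → ℤ) (a r : ℕ) : P T a (r + 1) = P T a r + T r a :=
  Finset.sum_range_succ _ _

def GRows (R N : ℕ) (T : ℕ → ℕ → ℤ) : Prop :=
  ∀ r, r + 1 < R → (r + 1) % N ≠ 0 → ∀ j, j < N → A T (r + 1) (j + 1) ≤ A T r j

def Viol (N : ℕ) (T : ℕ → ℕ → ℤ) (q a : ℕ) : Prop := a + 1 < N ∧ P T a q < P T (a + 1) (q + 1)

def GCols (R N : ℕ) (T : ℕ → ℕ → ℤ) : Prop := ∀ a, a + 1 < N → ∀ r, r < R →
  P T (a + 1) (r + 1) ≤ P T a r

structure FV (R N : ℕ) (T : ℕ → ℕ → ℤ) (q a : ℕ) : Prop where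
  lt : q < R
  viol : Viol N T q a
  first : ∀ q', q' < q → ∀ a', ¬ Viol N T q' a'
  last : ∀ a', a < a' → ¬ Viol N T q a'

lemma FV.unique {R N : ℕ} {T : ℕ → ℕ → ℤ} {q a q' a' : ℕ} (h : FV R N T q a)
    (h' : FV R N T q' a') : q = q' ∧ a = a' := by
  have hq : q = q' := by
    rcases lt_trichotomy q q' with hlt | heq | hlt
    · exact absurd h.viol (h'.first q hlt a)
    · exact heq
    · exact absurd h'.viol (h.first q' hlt a')
  subst hq
  refine ⟨rfl, ?_⟩
  rcases lt_trichotomy a a' with hlt | heq | hlt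
  · exact absurd h'.viol (h.last a' hlt)
  · exact heq
  · exact absurd h.viol (h'.last a hlt)

lemma exists_FV {R N : ℕ} {T : ℕ → ℕ → ℤ} (h : ¬ GCols R N T) : ∃ q a, FV R N T q a := by
  classical
  have h1 : ∃ q, q < R ∧ ∃ a, Viol N T q a := by
    by_contra hcon
    apply h
    intro a ha r hr
    by_contra hlt
    exact hcon ⟨r, hr, a, ha, by omega⟩
  obtain ⟨hq, hv⟩ := Nat.find_spec h1
  set q := Nat.find h1 with hqdef
  obtain ⟨a0, ha0⟩ := hv
  -- the largest violating index
  have h2 : ∃ a, Viol N T q a ∧ ∀ a', a < a' → ¬ Viol N T q a' := by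
    have hfin : ((range N).filter (fun a => Viol N T q a)).Nonempty :=
      ⟨a0, by
        rw [mem_filter, mem_range]
        exact ⟨by have := ha0.1; omega, ha0⟩⟩
    refine ⟨((range N).filter (fun a => Viol N T q a)).max' hfin, ?_, ?_⟩
    · exact (mem_filter.1 (Finset.max'_mem _ hfin)).2
    · intro a' hlt hva
      have : a' ≤ ((range N).filter (fun a => Viol N T q a)).max' hfin :=
        Finset.le_max' _ _ (by
          rw [mem_filter, mem_range]
          exact ⟨by have := hva.1; omega, hva⟩)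
      omega
  obtain ⟨a, hva, hlast⟩ := h2
  refine ⟨q, a, hq, hva, ?_, hlast⟩
  intro q' hq' a' hva'
  exact Nat.find_min h1 hq' ⟨by omega, a', hva'⟩

def MM (R N : ℕ) (T : ℕ → ℕ → ℤ) (a r : ℕ) : ℤ :=
  if r + 1 < R ∧ (r + 1) % N ≠ 0 then max 0 (A T (r + 1) (a + 2) - A T r a) else 0

def cc (R N : ℕ) (T : ℕ → ℕ → ℤ) (q a r : ℕ) : ℤ :=
  if r = q then P T a q - P T (a + 1) q + 1 else MM R N T a (r - 1)

def flip (R N : ℕ) (T : ℕ → ℕ → ℤ) (q a : ℕ) : ℕ → ℕ → ℤ := fun r b =>
  if r < q then T r b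
  else if b = a then T r (a + 1) + MM R N T a r - cc R N T q a r
  else if b = a + 1 then T r a - MM R N T a r + cc R N T q a r
  else T r b

lemma MM_nonneg (R N : ℕ) (T : ℕ → ℕ → ℤ) (a r : ℕ) : 0 ≤ MM R N T a r := by
  unfold MM
  split_ifs
  · exact le_max_left _ _
  · exact le_refl _

lemma flip_lt {R N : ℕ} {T : ℕ → ℕ → ℤ} {q a r : ℕ} (h : r < q) (b : ℕ) :
    flip R N T q a r b = T r b := by
  unfold flip
  rw [if_pos h]

lemma flip_a {R N : ℕ} {T : ℕ → ℕ → ℤ} {q a r : ℕ} (h : q ≤ r) :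
    flip R N T q a r a = T r (a + 1) + MM R N T a r - cc R N T q a r := by
  unfold flip
  rw [if_neg (by omega), if_pos rfl]

lemma flip_a1 {R N : ℕ} {T : ℕ → ℕ → ℤ} {q a r : ℕ} (h : q ≤ r) :
    flip R N T q a r (a + 1) = T r a - MM R N T a r + cc R N T q a r := by
  unfold flip
  rw [if_neg (by omega), if_neg (by omega), if_pos rfl]

lemma flip_other {R N : ℕ} {T : ℕ → ℕ → ℤ} {q a r b : ℕ} (h1 : b ≠ a) (h2 : b ≠ a + 1) :
    flip R N T q a r b = T r b := by
  unfold flip
  split_ifs
  all_goals rfl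

lemma A_flip_le {R N : ℕ} {T : ℕ → ℕ → ℤ} {q a r j : ℕ} (h : j ≤ a) :
    A (flip R N T q a) r j = A T r j := by
  unfold A
  refine Finset.sum_congr rfl fun b hb => ?_
  rw [mem_range] at hb
  exact flip_other (by omega) (by omega)

lemma A_flip_add_two {R N : ℕ} {T : ℕ → ℕ → ℤ} {q a r : ℕ} :
    A (flip R N T q a) r (a + 2) = A T r (a + 2) := by
  rw [A_succ, A_succ, A_succ, A_succ, A_flip_le le_rfl]
  by_cases h : r < q
  · rw [flip_lt h, flip_lt h]
  · rw [flip_a (by omega), flip_a1 (by omega)]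
    ring

lemma A_flip_ge {R N : ℕ} {T : ℕ → ℕ → ℤ} {q a r j : ℕ} (h : a + 2 ≤ j) :
    A (flip R N T q a) r j = A T r j := by
  induction j, h using Nat.le_induction with
  | base => exact A_flip_add_two
  | succ j hj ih =>
    rw [A_succ, A_succ, ih, flip_other (by omega) (by omega)]

lemma MM_flip {R N : ℕ} {T : ℕ → ℕ → ℤ} {q a r : ℕ} :
    MM R N (flip R N T q a) a r = MM R N T a r := by
  unfold MM
  rw [A_flip_add_two, A_flip_le le_rfl]

lemma P_flip_le {R N : ℕ} {T : ℕ → ℕ → ℤ} {q a r : ℕ} (b : ℕ) (h : r ≤ q) :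
    P (flip R N T q a) b r = P T b r := by
  unfold P
  refine Finset.sum_congr rfl fun r' hr => ?_
  rw [mem_range] at hr
  exact flip_lt (by omega) b

lemma cc_flip {R N : ℕ} {T : ℕ → ℕ → ℤ} {q a r : ℕ} :
    cc R N (flip R N T q a) q a r = cc R N T q a r := by
  unfold cc
  rw [P_flip_le _ le_rfl, P_flip_le _ le_rfl, MM_flip]

lemma flip_flip {R N : ℕ} {T : ℕ → ℕ → ℤ} {q a : ℕ} :
    flip R N (flip R N T q a) q a = T := by
  funext r b
  by_cases h : r < q
  · rw [flip_lt h, flip_lt h]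
  · by_cases h1 : b = a
    · subst h1
      rw [flip_a (by omega), flip_a1 (by omega), MM_flip, cc_flip]
      ring
    · by_cases h2 : b = a + 1
      · subst h2
        rw [flip_a1 (by omega), flip_a (by omega), MM_flip, cc_flip]
        ring
      · rw [flip_other h1 h2, flip_other h1 h2]

section main

variable {R N : ℕ} {T : ℕ → ℕ → ℤ} {q a : ℕ}

/-- lower bound of the entries of the column `a` -/
lemma MM_le (hT : ∀ r b, 0 ≤ T r b) (hG : GRows R N T) (ha : a + 1 < N) (r : ℕ) :
    MM R N T a r ≤ T r a := by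
  unfold MM
  split_ifs with h
  · refine max_le (hT r a) ?_
    have h1 := hG r h.1 h.2 (a + 1) ha
    rw [A_succ T r a] at h1
    have : a + 1 + 1 = a + 2 := rfl
    rw [this] at h1
    linarith
  · exact hT r a

lemma MM_le' (hT : ∀ r b, 0 ≤ T r b) (hG : GRows R N T) (ha : a + 1 < N) (r : ℕ) :
    MM R N T a r ≤ T (r + 1) (a + 1) := by
  unfold MM
  split_ifs with h
  · refine max_le (hT _ _) ?_
    have h1 := hG r h.1 h.2 a (by omega)
    have h2 := A_succ T (r + 1) (a + 1)
    have : a + 1 + 1 = a + 2 := rfl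
    rw [this] at h2
    linarith
  · exact hT _ _

lemma v_nonneg (hT : ∀ r b, 0 ≤ T r b) (h : FV R N T q a) : 0 ≤ P T a q - P T (a + 1) q := by
  rcases Nat.eq_zero_or_pos q with h0 | hpos
  · subst h0
    simp [P]
  · obtain ⟨q', rfl⟩ : ∃ q', q = q' + 1 := ⟨q - 1, by omega⟩
    have h1 := h.first q' (by omega) a
    have h2 : P T (a + 1) (q' + 1) ≤ P T a q' := by
      by_contra hcon
      exact h1 ⟨h.viol.1, by omega⟩
    have h3 := P_succ T a q'
    have h4 := hT q' a
    linarith

lemma cc_le (hT : ∀ r b, 0 ≤ T r b) (hG : GRows R N T) (h : FV R N T q a) (r : ℕ)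
    (hr : q ≤ r) : cc R N T q a r ≤ T r (a + 1) := by
  unfold cc
  split_ifs with h1
  · subst h1
    have h2 := h.viol.2
    rw [P_succ] at h2
    linarith
  · obtain ⟨r', rfl⟩ : ∃ r', r = r' + 1 := ⟨r - 1, by omega⟩
    exact MM_le' hT hG h.viol.1 r'

lemma cc_nonneg (hT : ∀ r b, 0 ≤ T r b) (h : FV R N T q a) (r : ℕ) :
    0 ≤ cc R N T q a r := by
  unfold cc
  split_ifs with h1
  · have := v_nonneg hT h
    linarith
  · exact MM_nonneg _ _ _ _ _

lemma flip_nonneg (hT : ∀ r b, 0 ≤ T r b) (hG : GRows R N T) (h : FV R N T q a) (r b : ℕ) :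
    0 ≤ flip R N T q a r b := by
  by_cases hr : r < q
  · rw [flip_lt hr]
    exact hT r b
  · by_cases h1 : b = a
    · subst h1
      rw [flip_a (by omega)]
      have h2 := cc_le hT hG h r (by omega)
      have h3 := MM_nonneg R N T b r
      linarith
    · by_cases h2 : b = a + 1
      · subst h2
        rw [flip_a1 (by omega)]
        have h3 := cc_nonneg hT h r
        have h4 := MM_le hT hG h.viol.1 r
        linarith
      · rw [flip_other h1 h2]
        exact hT r b

/-- the lower bound holds after the flip -/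
lemma MM_le_flip (hT : ∀ r b, 0 ≤ T r b) (hG : GRows R N T) (h : FV R N T q a) (r : ℕ) :
    MM R N T a r ≤ flip R N T q a r a := by
  by_cases hr : r < q
  · rw [flip_lt hr]
    exact MM_le hT hG h.viol.1 r
  · rw [flip_a (by omega)]
    have h2 := cc_le hT hG h r (by omega)
    linarith

lemma MM_le_flip' (hT : ∀ r b, 0 ≤ T r b) (hG : GRows R N T) (h : FV R N T q a) (r : ℕ) :
    MM R N T a r ≤ flip R N T q a (r + 1) (a + 1) := by
  by_cases hr : r + 1 < q
  · rw [flip_lt hr]
    exact MM_le' hT hG h.viol.1 r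
  · rw [flip_a1 (by omega)]
    have h1 := MM_le hT hG h.viol.1 (r + 1)
    by_cases h2 : r + 1 = q
    · subst h2
      have h3 : cc R N T (r + 1) a (r + 1) = P T a (r + 1) - P T (a + 1) (r + 1) + 1 := by
        unfold cc
        rw [if_pos rfl]
      have h4 : P T (a + 1) (r + 1) ≤ P T a r := by
        by_contra hcon
        exact h.first r (by omega) a ⟨h.viol.1, by omega⟩
      have h5 := P_succ T a r
      have h6 := MM_le hT hG h.viol.1 r
      rw [h3]
      linarith
    · have h3 : cc R N T q a (r + 1) = MM R N T a r := by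
        unfold cc
        rw [if_neg h2]
        rfl
      rw [h3]
      linarith

lemma flip_GRows (hT : ∀ r b, 0 ≤ T r b) (hG : GRows R N T) (h : FV R N T q a) :
    GRows R N (flip R N T q a) := by
  intro r hr hs j hj
  have hMM : MM R N T a r = max 0 (A T (r + 1) (a + 2) - A T r a) := by
    unfold MM
    rw [if_pos ⟨hr, hs⟩]
  have hM1 : A T (r + 1) (a + 2) - A T r a ≤ MM R N T a r := by
    rw [hMM]
    exact le_max_right _ _
  rcases lt_trichotomy j a with h1 | h1 | h1
  · rw [A_flip_le (by omega), A_flip_le (by omega)]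
    exact hG r hr hs j hj
  · subst h1
    have h2 := MM_le_flip' hT hG h r
    have h3 := A_succ (flip R N T q j) (r + 1) (j + 1)
    have : j + 1 + 1 = j + 2 := rfl
    rw [this, A_flip_add_two] at h3
    rw [A_flip_le (j := j) le_rfl]
    linarith
  · by_cases h4 : j = a + 1
    · subst h4
      have h2 := MM_le_flip hT hG h r
      have : a + 1 + 1 = a + 2 := rfl
      rw [this, A_flip_add_two, A_succ _ r a, A_flip_le le_rfl]
      linarith
    · rw [A_flip_ge (by omega), A_flip_ge (by omega)]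
      exact hG r hr hs j hj

lemma flip_FV (hT : ∀ r b, 0 ≤ T r b) (hG : GRows R N T) (h : FV R N T q a) :
    FV R N (flip R N T q a) q a := by
  refine ⟨h.lt, ⟨h.viol.1, ?_⟩, ?_, ?_⟩
  · rw [P_succ, P_flip_le _ le_rfl, P_flip_le _ le_rfl, flip_a1 le_rfl]
    have h1 := MM_le hT hG h.viol.1 q
    have h3 : cc R N T q a q = P T a q - P T (a + 1) q + 1 := by
      unfold cc
      rw [if_pos rfl]
    rw [h3]
    linarith
  · intro q' hq' a' hv
    apply h.first q' hq' a'
    refine ⟨hv.1, ?_⟩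
    have h1 := hv.2
    rw [P_flip_le _ (by omega), P_flip_le _ (by omega)] at h1
    exact h1
  · intro a' ha' hv
    apply h.last a' ha'
    refine ⟨hv.1, ?_⟩
    have h1 := hv.2
    rw [P_succ, P_flip_le _ le_rfl, P_flip_le _ le_rfl, flip_other (by omega) (by omega)] at h1
    rw [P_succ]
    exact h1

lemma P_flip_a (n : ℕ) (hn : q < n) :
    P (flip R N T q a) a n = P T (a + 1) n - 1 + MM R N T a (n - 1) := by
  induction n, hn using Nat.le_induction with
  | base =>
    rw [P_succ, P_flip_le _ le_rfl, flip_a le_rfl, P_succ]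
    have h3 : cc R N T q a q = P T a q - P T (a + 1) q + 1 := by
      unfold cc
      rw [if_pos rfl]
    rw [h3]
    simp only [Nat.succ_eq_add_one, Nat.add_sub_cancel]
    ring
  | succ n hn ih =>
    rw [P_succ, ih, flip_a (by omega), P_succ]
    have h3 : cc R N T q a n = MM R N T a (n - 1) := by
      unfold cc
      rw [if_neg (by omega)]
    rw [h3, Nat.add_sub_cancel]
    ring

lemma P_flip_a1 (n : ℕ) (hn : q < n) :
    P (flip R N T q a) (a + 1) n = P T a n + 1 - MM R N T a (n - 1) := by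
  induction n, hn using Nat.le_induction with
  | base =>
    rw [P_succ, P_flip_le _ le_rfl, flip_a1 le_rfl, P_succ]
    have h3 : cc R N T q a q = P T a q - P T (a + 1) q + 1 := by
      unfold cc
      rw [if_pos rfl]
    rw [h3]
    simp only [Nat.succ_eq_add_one, Nat.add_sub_cancel]
    ring
  | succ n hn ih =>
    rw [P_succ, ih, flip_a1 (by omega), P_succ]
    have h3 : cc R N T q a n = MM R N T a (n - 1) := by
      unfold cc
      rw [if_neg (by omega)]
    rw [h3, Nat.add_sub_cancel]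
    ring

lemma MM_last : MM R N T a (R - 1) = 0 := by
  unfold MM
  rw [if_neg]
  intro h
  omega

end main


section conv

variable {K N : ℕ}

/-- number of a row -/
def num (p : Fin K ×ₗ Fin N) : ℕ := ((ofLex p).1 : ℕ) * N + ((ofLex p).2 : ℕ)

lemma num_div (p : Fin K ×ₗ Fin N) : num p / N = (ofLex p).1 := by
  have h := (ofLex p).2.isLt
  unfold num
  rw [mul_comm, Nat.mul_add_div (by omega), Nat.div_eq_of_lt h, add_zero]

lemma num_mod (p : Fin K ×ₗ Fin N) : num p % N = (ofLex p).2 := by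
  have h := (ofLex p).2.isLt
  unfold num
  rw [mul_comm, Nat.mul_add_mod, Nat.mod_eq_of_lt h]

lemma num_lt (p : Fin K ×ₗ Fin N) : num p < K * N := by
  have h := (ofLex p).2.isLt
  have h1 := (ofLex p).1.isLt
  have h2 : (((ofLex p).1 : ℕ) + 1) * N ≤ K * N := Nat.mul_le_mul_right _ h1
  rw [add_mul, one_mul] at h2
  unfold num
  omega

lemma num_inj {p q : Fin K ×ₗ Fin N} (h : num p = num q) : p = q := by
  apply ofLex.injective
  refine Prod.ext (Fin.ext ?_) (Fin.ext ?_)
  · rw [← num_div, ← num_div, h]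
  · rw [← num_mod, ← num_mod, h]

lemma num_surj (r : ℕ) (hr : r < K * N) : ∃ p : Fin K ×ₗ Fin N, num p = r := by
  have hN : 0 < N := by
    rcases Nat.eq_zero_or_pos N with h | h
    · subst h
      simp at hr
    · exact h
  refine ⟨toLex (⟨r / N, (Nat.div_lt_iff_lt_mul hN).2 hr⟩, ⟨r % N, Nat.mod_lt _ hN⟩), ?_⟩
  unfold num
  change r / N * N + r % N = r
  exact Nat.div_add_mod' r N

lemma num_lt_iff (p q : Fin K ×ₗ Fin N) : p < q ↔ num p < num q := by
  have hp := (ofLex p).2.isLt
  have hq := (ofLex q).2.isLt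
  rw [Prod.Lex.lt_iff]
  unfold num
  constructor
  · rintro (h | ⟨h1, h2⟩)
    · have h3 : (((ofLex p).1 : ℕ) + 1) * N ≤ ((ofLex q).1 : ℕ) * N :=
        Nat.mul_le_mul_right _ h
      rw [add_mul, one_mul] at h3
      omega
    · rw [h1]
      have : ((ofLex p).2 : ℕ) < ((ofLex q).2 : ℕ) := h2
      omega
  · intro h
    rcases lt_trichotomy (ofLex p).1 (ofLex q).1 with h1 | h1 | h1
    · exact Or.inl h1
    · refine Or.inr ⟨h1, ?_⟩
      rw [h1] at h
      exact Fin.lt_def.2 (by omega)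
    · exfalso
      have h3 : (((ofLex q).1 : ℕ) + 1) * N ≤ ((ofLex p).1 : ℕ) * N :=
        Nat.mul_le_mul_right _ h1
      rw [add_mul, one_mul] at h3
      omega

lemma num_le_iff (p q : Fin K ×ₗ Fin N) : p ≤ q ↔ num p ≤ num q := by
  rw [← not_lt, num_lt_iff, not_lt]

lemma sum_num (n : ℕ) (hn : n ≤ K * N) (s : Finset (Fin K ×ₗ Fin N))
    (hs : ∀ p, p ∈ s ↔ num p < n) (F : ℕ → ℤ) :
    ∑ p ∈ s, F (num p) = ∑ r ∈ range n, F r := by
  refine Finset.sum_nbij num ?_ ?_ ?_ ?_
  · intro p hp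
    rw [mem_range]
    exact (hs p).1 hp
  · intro p _ q _ h
    exact num_inj h
  · intro r hr
    have hr' : r < n := mem_range.1 (Finset.mem_coe.1 hr)
    obtain ⟨p, hp⟩ := num_surj (K := K) (N := N) r (by omega)
    exact ⟨p, Finset.mem_coe.2 ((hs p).2 (by omega)), hp⟩
  · intro p _
    rfl

/-- the integer matrix of an array -/
def TT (t : Arr K N) (r b : ℕ) : ℤ :=
  if h : r / N < K ∧ r % N < N ∧ b < N then (t (⟨r / N, h.1⟩, ⟨r % N, h.2.1⟩, ⟨b, h.2.2⟩) : ℤ) else 0

lemma TT_num (t : Arr K N) (i : Fin K) (ρ : Fin N) (b : Fin N) :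
    TT t ((i : ℕ) * N + ρ) b = t (i, ρ, b) := by
  have h1 : ((i : ℕ) * N + ρ) / N = i := num_div (toLex (i, ρ))
  have h2 : ((i : ℕ) * N + ρ) % N = ρ := num_mod (toLex (i, ρ))
  unfold TT
  rw [dif_pos ⟨by rw [h1]; exact i.isLt, by rw [h2]; exact ρ.isLt, b.isLt⟩]
  congr 2
  refine Prod.ext (Fin.ext h1) (Prod.ext (Fin.ext h2) rfl)

lemma TT_nonneg (t : Arr K N) (r b : ℕ) : 0 ≤ TT t r b := by
  unfold TT
  split_ifs
  · positivity
  · exact le_refl _

/-- the array of an integer matrix -/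
def BB (K N : ℕ) (T : ℕ → ℕ → ℤ) : Arr K N :=
  fun v => (T ((v.1 : ℕ) * N + v.2.1) v.2.2).toNat

lemma TT_BB (T : ℕ → ℕ → ℤ) (hT : ∀ r b, 0 ≤ T r b) (r b : ℕ) (hr : r < K * N) (hb : b < N) :
    TT (BB K N T) r b = T r b := by
  obtain ⟨p, hp⟩ := num_surj (K := K) (N := N) r hr
  have h1 := TT_num (BB K N T) (ofLex p).1 (ofLex p).2 ⟨b, hb⟩
  have h2 : ((ofLex p).1 : ℕ) * N + ((ofLex p).2 : ℕ) = r := hp
  rw [h2] at h1
  rw [h1]
  unfold BB
  change (((T (((ofLex p).1 : ℕ) * N + ((ofLex p).2 : ℕ)) b).toNat : ℕ) : ℤ) = T r b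
  rw [h2, Int.toNat_of_nonneg (hT r b)]

lemma BB_TT (t : Arr K N) : BB K N (TT t) = t := by
  funext v
  obtain ⟨i, ρ, b⟩ := v
  unfold BB
  change (TT t ((i : ℕ) * N + ρ) b).toNat = t (i, ρ, b)
  rw [TT_num, Int.toNat_natCast]

lemma cast_filter_sum (F : ℕ → ℤ) (n : ℕ) (hn : n ≤ N) (s : Finset (Fin N))
    (hs : ∀ b, b ∈ s ↔ (b : ℕ) < n) : ∑ b ∈ s, F b = ∑ b ∈ range n, F b := by
  refine Finset.sum_nbij (fun b => (b : ℕ)) ?_ ?_ ?_ ?_
  · intro b hb
    rw [mem_range]
    exact (hs b).1 hb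
  · intro p _ q _ h
    exact Fin.ext h
  · intro r hr
    have hr' : r < n := mem_range.1 (Finset.mem_coe.1 hr)
    exact ⟨⟨r, by omega⟩, Finset.mem_coe.2 ((hs _).2 hr'), rfl⟩
  · intro p _
    rfl

lemma rsum_eq (t : Arr K N) (i : Fin K) (ρ : Fin N) :
    (rsum t i ρ : ℤ) = A (TT t) ((i : ℕ) * N + ρ) N := by
  unfold rsum A
  rw [← cast_filter_sum (fun b => TT t ((i : ℕ) * N + ρ) b) N le_rfl univ (by
    intro b
    simp)]
  push_cast
  refine Finset.sum_congr rfl fun b _ => ?_
  rw [TT_num]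
  rfl

lemma ind_eq (t : Arr K N) (a : Fin N) : (ind t a : ℤ) = P (TT t) a (K * N) := by
  unfold ind P
  rw [← sum_num (K := K) (N := N) (K * N) le_rfl univ (by
    intro p
    simp [num_lt p]) (fun r => TT t r a)]
  push_cast
  refine Finset.sum_nbij' (fun p => toLex p) (fun p => ofLex p) ?_ ?_ ?_ ?_ ?_
  · intro p _
    exact mem_univ _
  · intro p _
    exact mem_univ _
  · intro p _
    rfl
  · intro p _
    rfl
  · intro p _
    have := TT_num t p.1 p.2 a
    unfold num
    change _ = TT t ((p.1 : ℕ) * N + p.2) a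
    rw [this]
    rfl

lemma good_row_iff (t : Arr K N) (i : Fin K) (ρ ρ' : Fin N) (h : (ρ' : ℕ) = ρ + 1) :
    Good (fun a => t (rowc i ρ a)) (fun a => t (rowc i ρ' a)) ↔
      ∀ j, j < N → A (TT t) ((i : ℕ) * N + ρ + 1) (j + 1) ≤ A (TT t) ((i : ℕ) * N + ρ) j := by
  have key : ∀ j : Fin N,
      ((∑ a ∈ univ.filter (fun a => a ≤ j), t (rowc i ρ' a) : ℕ) : ℤ) =
        A (TT t) ((i : ℕ) * N + ρ + 1) (j + 1) ∧
      ((∑ a ∈ univ.filter (fun a => a < j), t (rowc i ρ a) : ℕ) : ℤ) =
        A (TT t) ((i : ℕ) * N + ρ) j := by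
    intro j
    have hj := j.isLt
    constructor
    · unfold A
      rw [← cast_filter_sum (N := N) (fun b => TT t ((i : ℕ) * N + ρ + 1) b) (j + 1) (by omega)
        (univ.filter (fun a => a ≤ j)) (by
          intro b
          rw [mem_filter, Fin.le_def]
          simp)]
      push_cast
      refine Finset.sum_congr rfl fun b _ => ?_
      have := TT_num t i ρ' b
      rw [h, ← add_assoc] at this
      rw [this]
      rfl
    · unfold A
      rw [← cast_filter_sum (N := N) (fun b => TT t ((i : ℕ) * N + ρ) b) j (by omega)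
        (univ.filter (fun a => a < j)) (by
          intro b
          rw [mem_filter, Fin.lt_def]
          simp)]
      push_cast
      refine Finset.sum_congr rfl fun b _ => ?_
      rw [TT_num]
      rfl
  constructor
  · intro hg j hj
    have h1 := hg ⟨j, hj⟩
    have h2 := key ⟨j, hj⟩
    have h3 : ((∑ a ∈ univ.filter (fun a => a ≤ (⟨j, hj⟩ : Fin N)), t (rowc i ρ' a) : ℕ) : ℤ) ≤
        ((∑ a ∈ univ.filter (fun a => a < (⟨j, hj⟩ : Fin N)), t (rowc i ρ a) : ℕ) : ℤ) := by
      exact_mod_cast h1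
    rw [h2.1, h2.2] at h3
    exact h3
  · intro hg j
    have h2 := key j
    have h3 := hg j j.isLt
    rw [← h2.1, ← h2.2] at h3
    exact_mod_cast h3

lemma goodRows_iff (t : Arr K N) : GoodRows t ↔ GRows (K * N) N (TT t) := by
  constructor
  · intro hg r hr hs j hj
    obtain ⟨p, hp⟩ := num_surj (K := K) (N := N) r (by omega)
    have h2 : ((ofLex p).1 : ℕ) * N + ((ofLex p).2 : ℕ) = r := hp
    have hlt : ((ofLex p).2 : ℕ) + 1 < N := by
      by_contra hcon
      have h3 := (ofLex p).2.isLt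
      have h4 : ((ofLex p).2 : ℕ) + 1 = N := by omega
      apply hs
      have h5 : r + 1 = (((ofLex p).1 : ℕ) + 1) * N := by
        rw [add_mul, one_mul]
        omega
      rw [h5]
      exact Nat.mul_mod_left _ _
    have h6 := (good_row_iff t (ofLex p).1 (ofLex p).2 ⟨((ofLex p).2 : ℕ) + 1, hlt⟩ rfl).1
      (hg _ _ _ rfl) j hj
    rw [h2] at h6
    exact h6
  · intro hg i ρ ρ' h
    rw [good_row_iff t i ρ ρ' h]
    intro j hj
    have h1 := num_lt (toLex (i, ρ') : Fin K ×ₗ Fin N)
    have h2 : num (toLex (i, ρ') : Fin K ×ₗ Fin N) = (i : ℕ) * N + ρ + 1 := by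
      unfold num
      change (i : ℕ) * N + ρ' = _
      omega
    have h3 := num_mod (toLex (i, ρ') : Fin K ×ₗ Fin N)
    have h4 : ((ofLex (toLex (i, ρ') : Fin K ×ₗ Fin N)).2 : ℕ) = ρ' := rfl
    rw [h4] at h3
    rw [h2] at h1 h3
    exact hg _ h1 (by omega) j hj

lemma good_col_iff (t : Arr K N) (a a' : Fin N) (h : (a' : ℕ) = a + 1) :
    Good (colv t a) (colv t a') ↔
      ∀ r, r < K * N → P (TT t) (a + 1) (r + 1) ≤ P (TT t) a r := by
  have key : ∀ j : Fin K ×ₗ Fin N,
      ((∑ p ∈ univ.filter (fun p => p ≤ j), colv t a' p : ℕ) : ℤ) =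
        P (TT t) (a + 1) (num j + 1) ∧
      ((∑ p ∈ univ.filter (fun p => p < j), colv t a p : ℕ) : ℤ) =
        P (TT t) a (num j) := by
    intro j
    have hj := num_lt j
    constructor
    · unfold P
      rw [← sum_num (K := K) (N := N) (num j + 1) (by omega)
        (univ.filter (fun p => p ≤ j)) (by
          intro b
          rw [mem_filter, num_le_iff]
          simp) (fun r => TT t r (a + 1))]
      push_cast
      refine Finset.sum_congr rfl fun p _ => ?_
      have := TT_num t (ofLex p).1 (ofLex p).2 a'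
      rw [h] at this
      unfold num
      rw [this]
      rfl
    · unfold P
      rw [← sum_num (K := K) (N := N) (num j) (by omega)
        (univ.filter (fun p => p < j)) (by
          intro b
          rw [mem_filter, num_lt_iff]
          simp) (fun r => TT t r a)]
      push_cast
      refine Finset.sum_congr rfl fun p _ => ?_
      have := TT_num t (ofLex p).1 (ofLex p).2 a
      unfold num
      rw [this]
      rfl
  constructor
  · intro hg r hr
    obtain ⟨p, rfl⟩ := num_surj (K := K) (N := N) r hr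
    have h1 := hg p
    have h2 := key p
    have h3 : ((∑ q ∈ univ.filter (fun q => q ≤ p), colv t a' q : ℕ) : ℤ) ≤
        ((∑ q ∈ univ.filter (fun q => q < p), colv t a q : ℕ) : ℤ) := by
      exact_mod_cast h1
    rw [h2.1, h2.2] at h3
    exact h3
  · intro hg j
    have h2 := key j
    have h3 := hg (num j) (num_lt j)
    rw [← h2.1, ← h2.2] at h3
    exact_mod_cast h3

lemma goodCols_iff (t : Arr K N) : GoodCols t ↔ GCols (K * N) N (TT t) := by
  constructor
  · intro hg a ha r hr
    exact (good_col_iff t ⟨a, by omega⟩ ⟨a + 1, ha⟩ rfl).1 (hg _ _ rfl) r hr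
  · intro hg a a' h
    rw [good_col_iff t a a' h]
    intro r hr
    have := a'.isLt
    exact hg a (by omega) r hr

end conv

section alt

lemma alt_comp {N : ℕ} (α : Fin N → ℕ) (σ : Perm (Fin N)) :
    alt (α ∘ σ) = ((Perm.sign σ : ℤˣ) : ℤ) • alt α := by
  unfold alt
  rw [Finset.smul_sum]
  refine Finset.sum_bij (fun w _ => σ * w) ?_ ?_ ?_ ?_
  · intro w _
    exact mem_univ _
  · intro w _ w' _ h
    exact mul_left_cancel h
  · intro w _
    exact ⟨σ⁻¹ * w, mem_univ _, by simp⟩
  · intro w _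
    have h1 : (α ∘ σ) ∘ w = α ∘ (σ * w : Perm (Fin N)) := rfl
    rw [h1, smul_smul, Perm.sign_mul]
    congr 1
    rcases Int.units_eq_one_or (Perm.sign σ) with h | h
    · rw [h]
      simp
    · rw [h]
      simp

lemma alt_swap {N : ℕ} (α : Fin N → ℕ) (a a' : Fin N) (h : a ≠ a') :
    alt (α ∘ swap a a') = - alt α := by
  rw [alt_comp, Perm.sign_swap h]
  simp

end alt


end Stem

open Stem

open Classical in
theorem stembridge_bad {K N : ℕ} (lam : Fin K → Fin N → ℕ) :
    ∑ t ∈ (GR lam).filter (fun t => ¬ GoodCols t), alt (ind t + rho N) = 0 := by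
  classical
  -- the choice of the first violation
  have hex : ∀ t : Arr K N, ¬ GoodCols t → ∃ q a, FV (K * N) N (TT t) q a := by
    intro t ht
    rw [goodCols_iff] at ht
    exact exists_FV ht
  choose! Q B hQB using hex
  have hmem : ∀ t : Arr K N, t ∈ (GR lam).filter (fun t => ¬ GoodCols t) ↔
      ((∑ v, t v = ∑ i, ∑ ρ, lam i ρ) ∧ GoodRows t ∧ (∀ i ρ, rsum t i ρ = lam i ρ)) ∧
        ¬ GoodCols t := by
    intro t
    rw [mem_filter]
    unfold GR
    rw [mem_filter, Finset.mem_piAntidiag]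
    simp
  -- the involution
  let g : Arr K N → Arr K N := fun t => BB K N (Stem.flip (K * N) N (TT t) (Q t) (B t))
  have hTg : ∀ t : Arr K N, GoodRows t → ¬ GoodCols t → ∀ r b, r < K * N → b < N →
      TT (g t) r b = Stem.flip (K * N) N (TT t) (Q t) (B t) r b := by
    intro t hr hc r b hr' hb
    exact TT_BB _ (flip_nonneg (TT_nonneg t) ((goodRows_iff t).1 hr) (hQB t hc)) r b hr' hb
  have hA : ∀ t : Arr K N, GoodRows t → ¬ GoodCols t → ∀ r j, r < K * N → j ≤ N →
      A (TT (g t)) r j = A (Stem.flip (K * N) N (TT t) (Q t) (B t)) r j := by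
    intro t hr hc r j hr' hj
    unfold A
    refine Finset.sum_congr rfl fun b hb => ?_
    rw [mem_range] at hb
    exact hTg t hr hc r b hr' (by omega)
  have hP : ∀ t : Arr K N, GoodRows t → ¬ GoodCols t → ∀ b r, r ≤ K * N → b < N →
      P (TT (g t)) b r = P (Stem.flip (K * N) N (TT t) (Q t) (B t)) b r := by
    intro t hr hc b r hr' hb
    unfold P
    refine Finset.sum_congr rfl fun r' hr'' => ?_
    rw [mem_range] at hr''
    exact hTg t hr hc r' b (by omega) hb
  have hGR : ∀ t : Arr K N, GoodRows t → ¬ GoodCols t → GoodRows (g t) := by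
    intro t hr hc
    rw [goodRows_iff]
    intro r hr1 hr2 j hj
    rw [hA t hr hc _ _ hr1 (by omega), hA t hr hc _ _ (by omega) (by omega)]
    exact flip_GRows (TT_nonneg t) ((goodRows_iff t).1 hr) (hQB t hc) r hr1 hr2 j hj
  have hFV : ∀ t : Arr K N, GoodRows t → ¬ GoodCols t →
      FV (K * N) N (TT (g t)) (Q t) (B t) := by
    intro t hr hc
    have h1 := flip_FV (TT_nonneg t) ((goodRows_iff t).1 hr) (hQB t hc)
    refine ⟨h1.lt, ⟨h1.viol.1, ?_⟩, ?_, ?_⟩
    · have h2 := h1.lt
      have h3 := h1.viol.1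
      rw [hP t hr hc _ _ (by omega) (by omega), hP t hr hc _ _ (by omega) (by omega)]
      exact h1.viol.2
    · intro q' hq' a' hv
      apply h1.first q' hq' a'
      have h2 := h1.lt
      have h3 := hv.1
      refine ⟨hv.1, ?_⟩
      have h4 := hv.2
      rw [hP t hr hc _ _ (by omega) (by omega), hP t hr hc _ _ (by omega) (by omega)] at h4
      exact h4
    · intro a' ha' hv
      apply h1.last a' ha'
      have h2 := h1.lt
      have h3 := hv.1
      refine ⟨hv.1, ?_⟩
      have h4 := hv.2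
      rw [hP t hr hc _ _ (by omega) (by omega), hP t hr hc _ _ (by omega) (by omega)] at h4
      exact h4
  have hGC : ∀ t : Arr K N, GoodRows t → ¬ GoodCols t → ¬ GoodCols (g t) := by
    intro t hr hc hcon
    have h1 := hFV t hr hc
    rw [goodCols_iff] at hcon
    have h2 := hcon (B t) h1.viol.1 (Q t) h1.lt
    have h3 := h1.viol.2
    omega
  have hQ : ∀ t : Arr K N, GoodRows t → ¬ GoodCols t → Q (g t) = Q t ∧ B (g t) = B t := by
    intro t hr hc
    exact (hQB (g t) (hGC t hr hc)).unique (hFV t hr hc)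
  have hgg : ∀ t : Arr K N, GoodRows t → ¬ GoodCols t → g (g t) = t := by
    intro t hr hc
    have h1 := hQ t hr hc
    have hlt := (hQB t hc).lt
    have hv := (hQB t hc).viol.1
    funext v
    obtain ⟨i, ρ, b⟩ := v
    have hrow : (i : ℕ) * N + ρ < K * N := num_lt (toLex (i, ρ) : Fin K ×ₗ Fin N)
    have h2 := TT_num (g (g t)) i ρ b
    have h3 := TT_num t i ρ b
    rw [hTg (g t) (hGR t hr hc) (hGC t hr hc) _ _ hrow b.isLt, h1.1, h1.2] at h2
    have h4 : Stem.flip (K * N) N (TT (g t)) (Q t) (B t) ((i : ℕ) * N + ρ) b =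
        Stem.flip (K * N) N (Stem.flip (K * N) N (TT t) (Q t) (B t)) (Q t) (B t)
          ((i : ℕ) * N + ρ) b := by
      have hMM : ∀ r, MM (K * N) N (TT (g t)) (B t) r =
          MM (K * N) N (Stem.flip (K * N) N (TT t) (Q t) (B t)) (B t) r := by
        intro r
        unfold MM
        by_cases hc1 : r + 1 < K * N ∧ (r + 1) % N ≠ 0
        · rw [if_pos hc1, if_pos hc1, hA t hr hc _ _ hc1.1 (by omega),
            hA t hr hc _ _ (by omega) (by omega)]
        · rw [if_neg hc1, if_neg hc1]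
      have hcc : ∀ r, cc (K * N) N (TT (g t)) (Q t) (B t) r =
          cc (K * N) N (Stem.flip (K * N) N (TT t) (Q t) (B t)) (Q t) (B t) r := by
        intro r
        unfold cc
        rw [hMM, hP t hr hc _ _ (by omega) (by omega), hP t hr hc _ _ (by omega) (by omega)]
      unfold Stem.flip
      rw [hMM, hcc, hTg t hr hc _ _ hrow b.isLt, hTg t hr hc _ _ hrow hv,
        hTg t hr hc _ _ hrow (by omega)]
      rfl
    rw [h4, Stem.flip_flip, h3] at h2
    exact_mod_cast h2.symm
  have hrs : ∀ t : Arr K N, GoodRows t → ¬ GoodCols t → ∀ i ρ, rsum (g t) i ρ = rsum t i ρ := by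
    intro t hr hc i ρ
    have hrow : (i : ℕ) * N + ρ < K * N := num_lt (toLex (i, ρ) : Fin K ×ₗ Fin N)
    have hv := (hQB t hc).viol.1
    have h1 := rsum_eq (g t) i ρ
    rw [hA t hr hc _ _ hrow le_rfl, A_flip_ge (by omega), ← rsum_eq] at h1
    exact_mod_cast h1
  have hind : ∀ t : Arr K N, GoodRows t → ¬ GoodCols t →
      alt (ind (g t) + rho N) = - alt (ind t + rho N) := by
    intro t hr hc
    have hv := (hQB t hc).viol.1
    have hlt := (hQB t hc).lt
    set a : Fin N := ⟨B t, by omega⟩ with ha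
    set a' : Fin N := ⟨B t + 1, hv⟩ with ha'
    have hne : a ≠ a' := by
      intro h
      rw [ha, ha', Fin.mk.injEq] at h
      omega
    rw [← alt_swap _ a a' hne]
    congr 1
    funext b
    have hb : (ind (g t) b : ℤ) = P (Stem.flip (K * N) N (TT t) (Q t) (B t)) b (K * N) := by
      rw [ind_eq, hP t hr hc _ _ le_rfl b.isLt]
    rw [Function.comp_apply, Pi.add_apply, Pi.add_apply]
    by_cases hba : b = a
    · rw [hba, swap_apply_left]
      rw [hba] at hb
      have h1 : ((a : Fin N) : ℕ) = B t := rfl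
      have h2 := ind_eq t a'
      have h3 : ((a' : Fin N) : ℕ) = B t + 1 := rfl
      rw [h1, P_flip_a _ hlt, MM_last] at hb
      rw [h3] at h2
      unfold rho
      rw [h1, h3]
      omega
    · by_cases hba' : b = a'
      · rw [hba', swap_apply_right]
        rw [hba'] at hb
        have h1 : ((a : Fin N) : ℕ) = B t := rfl
        have h2 := ind_eq t a
        have h3 : ((a' : Fin N) : ℕ) = B t + 1 := rfl
        rw [h3, P_flip_a1 _ hlt, MM_last] at hb
        rw [h1] at h2
        unfold rho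
        rw [h1, h3]
        omega
      · rw [swap_apply_of_ne_of_ne hba hba']
        congr 1
        have h1 : (b : ℕ) ≠ B t := fun h => hba (Fin.ext h)
        have h2 : (b : ℕ) ≠ B t + 1 := fun h => hba' (Fin.ext h)
        have h3 : P (Stem.flip (K * N) N (TT t) (Q t) (B t)) b (K * N) =
            P (TT t) b (K * N) := by
          unfold P
          refine Finset.sum_congr rfl fun r _ => ?_
          exact flip_other h1 h2
        rw [h3, ← ind_eq] at hb
        exact_mod_cast hb
  refine Finset.sum_involution (fun t _ => g t) ?_ ?_ ?_ ?_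
  · intro t ht
    have h := (hmem t).1 ht
    rw [hind t h.1.2.1 h.2]
    simp
  · intro t ht hne heq
    have h := (hmem t).1 ht
    have h1 := hind t h.1.2.1 h.2
    have h0 : g t = t := heq
    rw [h0] at h1
    apply hne
    exact self_eq_neg.1 h1
  · intro t ht
    have h := (hmem t).1 ht
    rw [hmem]
    refine ⟨⟨?_, hGR t h.1.2.1 h.2, ?_⟩, hGC t h.1.2.1 h.2⟩
    · have h1 : ∀ u : Arr K N, ∑ v, u v = ∑ i, ∑ ρ, rsum u i ρ := by
        intro u
        rw [Fintype.sum_prod_type]
        refine Finset.sum_congr rfl fun i _ => ?_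
        rw [Fintype.sum_prod_type]
        rfl
      rw [h1]
      refine Finset.sum_congr rfl fun i _ => Finset.sum_congr rfl fun ρ _ => ?_
      rw [hrs t h.1.2.1 h.2, h.1.2.2]
    · intro i ρ
      rw [hrs t h.1.2.1 h.2, h.1.2.2]
  · intro t ht
    have h := (hmem t).1 ht
    exact hgg t h.1.2.1 h.2

theorem stembridge {K N : ℕ} (lam : Fin K → Fin N → ℕ) :
    ∑ t ∈ GR lam, alt (ind t + rho N) = ∑ t ∈ LRs lam, alt (ind t + rho N) := by
  classical
  have h1 := Finset.sum_filter_add_sum_filter_not (GR lam) (fun t => GoodCols t)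
    (fun t => alt (ind t + rho N))
  have h2 := stembridge_bad lam
  have h3 : ∑ t ∈ (GR lam).filter (fun t => ¬ GoodCols t), alt (ind t + rho N) = 0 := by
    convert h2
  rw [h3, add_zero] at h1
  rw [← h1]
  unfold LRs
  congr

/-- the column sums of an LR matrix decrease -/
theorem ind_antitone_of_LR {K N : ℕ} (t : Arr K N) (h : LR t) : Antitone (ind t) := by
  have hadj : ∀ a : ℕ, ∀ ha : a + 1 < N, ind t ⟨a + 1, ha⟩ ≤ ind t ⟨a, by omega⟩ := by
    intro a ha
    have h1 := (goodCols_iff t).1 h.2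
    have h2 := ind_eq t ⟨a + 1, ha⟩
    have h3 := ind_eq t ⟨a, by omega⟩
    rcases Nat.eq_zero_or_pos (K * N) with h0 | hpos
    · rw [h0] at h2 h3
      have h4 : ∀ b, P (TT t) b 0 = 0 := fun b => by simp [P]
      rw [h4] at h2 h3
      omega
    · have h4 := h1 a ha (K * N - 1) (by omega)
      have h5 := P_succ (TT t) a (K * N - 1)
      have h6 : K * N - 1 + 1 = K * N := by omega
      rw [h6] at h4 h5
      have h7 := TT_nonneg t (K * N - 1) a
      simp only at h2 h3
      omega
  let f : ℕ → ℕ := fun n => if hn : n < N then ind t ⟨n, hn⟩ else 0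
  have hf : Antitone f := by
    refine antitone_nat_of_succ_le fun n => ?_
    by_cases hn : n + 1 < N
    · have h1 : f (n + 1) = ind t ⟨n + 1, hn⟩ := dif_pos hn
      have h2 : f n = ind t ⟨n, by omega⟩ := dif_pos (by omega)
      rw [h1, h2]
      exact hadj n hn
    · have h1 : f (n + 1) = 0 := dif_neg hn
      rw [h1]
      exact Nat.zero_le _
  intro a b hab
  have h1 : f a = ind t a := dif_pos a.isLt
  have h2 : f b = ind t b := dif_pos b.isLt
  rw [← h1, ← h2]
  exact hf hab

end TF
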