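import Pool.Agent.H66.TF.DualK
import Pool.Agent.H66.TF.OrbCount
import Pool.Agent.H66.TF.Stembridge
import Pool.Agent.H66.TF.Schur

/-!
# TF-COUNT: the number of LR pairs

`N! · #LRPair K D D = ∑_{lam ∈ LAM K D D} inn(a_ρ schurK lam, a_ρ schurK lam)`: by `alt_mul_schurK` and
`stembridge` `a_ρ schurK lam = ∑_{t ∈ LRs lam} alt (ind t + ρ)`; group by `ν = ind t` (antitone by
`ind_antitone_of_LR`): `∑_ν |LR(lam, ν)| alt (ν + ρ)`, and `inn_alt` gives `N! ∑_ν |LR(lam, ν)|²`. Then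
`dual_K` for `B(f, g) = inn (f a_ρ) (g a_ρ)` (show that `inn` is biadditive) and `wick` for `m = m'`
give `∑_m K^{|m|} / z_m · N! z_m = N! ∑_m K^{|m|}`, and `card_Orb`.
-/

open Finset Equiv

namespace TF

theorem tot_eq_sum_rsum {K N : ℕ} (t : Arr K N) : tot t = ∑ i, ∑ ρ, rsum t i ρ := by
  unfold tot rsum rowc
  rw [Fintype.sum_prod_type]
  refine Finset.sum_congr rfl fun i _ => ?_
  rw [Fintype.sum_prod_type]

theorem mem_LRs {K N : ℕ} (lam : Fin K → Fin N → ℕ) (t : Arr K N) :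
    t ∈ LRs lam ↔ LR t ∧ ∀ i ρ, rsum t i ρ = lam i ρ := by
  classical
  unfold LRs GR LR
  simp only [mem_filter, mem_piAntidiag]
  constructor
  · rintro ⟨⟨_, h1, h2⟩, h3⟩
    exact ⟨⟨h1, h3⟩, h2⟩
  · rintro ⟨⟨h1, h3⟩, h2⟩
    refine ⟨⟨⟨?_, fun _ _ => mem_univ _⟩, h1, h2⟩, h3⟩
    have := tot_eq_sum_rsum t
    unfold tot at this
    rw [this]
    exact Finset.sum_congr rfl fun i _ => Finset.sum_congr rfl fun ρ _ => h2 i ρ

theorem mem_LAM {K N D : ℕ} (lam : Fin K → Fin N → ℕ) :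
    lam ∈ LAM K N D ↔ ∑ i, ∑ ρ, lam i ρ = D := by
  classical
  unfold LAM
  simp only [mem_filter, Fintype.mem_piFinset, mem_range, and_iff_right_iff_imp]
  intro h i ρ
  have h1 : lam i ρ ≤ ∑ ρ, lam i ρ := Finset.single_le_sum (f := fun ρ => lam i ρ)
    (fun _ _ => Nat.zero_le _) (mem_univ ρ)
  have h2 : ∑ ρ, lam i ρ ≤ ∑ i, ∑ ρ, lam i ρ :=
    Finset.single_le_sum (f := fun i => ∑ ρ, lam i ρ) (fun _ _ => Nat.zero_le _) (mem_univ i)
  omega

instance LRPair.finite (K N D : ℕ) : Finite (LRPair K N D) := by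
  classical
  unfold LRPair
  refine Set.Finite.to_subtype (s := {q : Arr K N × Arr K N | LR q.1 ∧ LR q.2 ∧
    (∀ i ρ, rsum q.1 i ρ = rsum q.2 i ρ) ∧
    (∀ a, ind q.1 a = ind q.2 a) ∧ tot q.1 = D}) ?_
  refine (((Finset.piAntidiag (univ : Finset (Idx K N)) D) ×ˢ
    (Finset.piAntidiag (univ : Finset (Idx K N)) D)).finite_toSet).subset ?_
  rintro ⟨t, t'⟩ ⟨_, _, h1, _, h2⟩
  simp only [coe_product, Set.mem_prod, mem_coe, mem_piAntidiag, mem_univ, implies_true, and_true]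
  refine ⟨h2, ?_⟩
  change tot t' = D
  rw [← h2, tot_eq_sum_rsum, tot_eq_sum_rsum]
  exact Finset.sum_congr rfl fun i _ => Finset.sum_congr rfl fun ρ _ => (h1 i ρ).symm

theorem inn_eq {N : ℕ} (f g : MvPolynomial (Fin N) ℤ) (S : Finset (Fin N →₀ ℕ))
    (h : f.support ⊆ S) : inn f g = ∑ c ∈ S, MvPolynomial.coeff c f * MvPolynomial.coeff c g := by
  unfold inn
  refine Finset.sum_subset h fun c _ hc => ?_
  rw [MvPolynomial.notMem_support_iff.1 hc, zero_mul]

theorem inn_add_left {N : ℕ} (f f' g : MvPolynomial (Fin N) ℤ) :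
    inn (f + f') g = inn f g + inn f' g := by
  classical
  rw [inn_eq (f + f') g (f.support ∪ f'.support) MvPolynomial.support_add,
    inn_eq f g (f.support ∪ f'.support) Finset.subset_union_left,
    inn_eq f' g (f.support ∪ f'.support) Finset.subset_union_right, ← Finset.sum_add_distrib]
  refine Finset.sum_congr rfl fun c _ => ?_
  rw [MvPolynomial.coeff_add, add_mul]

theorem inn_add_right {N : ℕ} (f g g' : MvPolynomial (Fin N) ℤ) :
    inn f (g + g') = inn f g + inn f g' := by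
  unfold inn
  rw [← Finset.sum_add_distrib]
  refine Finset.sum_congr rfl fun c _ => ?_
  rw [MvPolynomial.coeff_add, mul_add]

/-- `inn` as a biadditive map -/
noncomputable def innHom (N : ℕ) (a : MvPolynomial (Fin N) ℤ) :
    MvPolynomial (Fin N) ℤ →+ (MvPolynomial (Fin N) ℤ →+ ℚ) :=
  AddMonoidHom.mk' (fun f => AddMonoidHom.mk' (fun g => ((inn (f * a) (g * a) : ℤ) : ℚ))
    (fun g g' => by rw [add_mul, inn_add_right]; push_cast; rfl))
    (fun f f' => by
      refine AddMonoidHom.ext fun g => ?_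
      change ((inn ((f + f') * a) (g * a) : ℤ) : ℚ) =
        ((inn (f * a) (g * a) : ℤ) : ℚ) + ((inn (f' * a) (g * a) : ℤ) : ℚ)
      rw [add_mul, inn_add_left]; push_cast; rfl)

theorem innHom_apply {N : ℕ} (a f g : MvPolynomial (Fin N) ℤ) :
    innHom N a f g = ((inn (f * a) (g * a) : ℤ) : ℚ) := rfl

theorem inn_sum_left {N : ℕ} {ι : Type*} (s : Finset ι) (f : ι → MvPolynomial (Fin N) ℤ)
    (g : MvPolynomial (Fin N) ℤ) : inn (∑ i ∈ s, f i) g = ∑ i ∈ s, inn (f i) g := by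
  classical
  induction s using Finset.induction_on with
  | empty => simp [inn]
  | insert a s ha ih => rw [Finset.sum_insert ha, Finset.sum_insert ha, inn_add_left, ih]

theorem inn_sum_right {N : ℕ} {ι : Type*} (s : Finset ι) (g : ι → MvPolynomial (Fin N) ℤ)
    (f : MvPolynomial (Fin N) ℤ) : inn f (∑ i ∈ s, g i) = ∑ i ∈ s, inn f (g i) := by
  classical
  induction s using Finset.induction_on with
  | empty => simp [inn]
  | insert a s ha ih => rw [Finset.sum_insert ha, Finset.sum_insert ha, inn_add_right, ih]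

theorem inn_schurK {K N : ℕ} (lam : Fin K → Fin N → ℕ) [DecidableEq (Fin N → ℕ)] :
    inn (schurK lam * alt (rho N)) (schurK lam * alt (rho N)) =
      (N.factorial : ℤ) * ((LRs lam ×ˢ LRs lam).filter (fun q => ind q.1 = ind q.2)).card := by
  rw [mul_comm (schurK lam), alt_mul_schurK, stembridge, inn_sum_left]
  have h1 : ∀ t ∈ LRs lam, inn (alt (ind t + rho N)) (∑ t ∈ LRs lam, alt (ind t + rho N)) =
      ∑ t' ∈ LRs lam, if ind t = ind t' then (N.factorial : ℤ) else 0 := by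
    intro t ht
    rw [inn_sum_right]
    refine Finset.sum_congr rfl fun t' ht' => ?_
    rw [inn_alt _ _ (ind_antitone_of_LR t ((mem_LRs lam t).1 ht).1)
      (ind_antitone_of_LR t' ((mem_LRs lam t').1 ht').1)]
    congr
  rw [Finset.sum_congr rfl h1, ← Finset.sum_product', ← Finset.sum_filter, Finset.sum_const,
    nsmul_eq_mul, mul_comm]

theorem sum_card {K N D : ℕ} [DecidableEq (Fin N → ℕ)] :
    ∑ lam ∈ LAM K N D, ((LRs lam ×ˢ LRs lam).filter (fun q => ind q.1 = ind q.2)).card =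
      Nat.card (LRPair K N D) := by
  classical
  rw [← Finset.card_sigma]
  rw [← Nat.card_eq_finsetCard]
  refine Nat.card_congr ?_
  refine
    { toFun := fun x => ⟨x.1.2, ?_⟩
      invFun := fun q => ⟨⟨rsum q.1.1, q.1⟩, ?_⟩
      left_inv := ?_
      right_inv := ?_ }
  · have h := x.2
    simp only [mem_sigma, mem_filter, mem_product, mem_LRs, mem_LAM] at h
    obtain ⟨h0, ⟨⟨h1, h2⟩, h3, h4⟩, h5⟩ := h
    refine ⟨h1, h3, fun i ρ => by rw [h2, h4], fun a => congrFun h5 a, ?_⟩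
    rw [tot_eq_sum_rsum]
    refine Eq.trans ?_ h0
    exact Finset.sum_congr rfl fun i _ => Finset.sum_congr rfl fun ρ _ => h2 i ρ
  · obtain ⟨⟨t, t'⟩, h1, h2, h3, h4, h5⟩ := q
    simp only [mem_sigma, mem_filter, mem_product, mem_LRs, mem_LAM]
    refine ⟨?_, ⟨⟨h1, fun _ _ => trivial⟩, h2, fun i ρ => (h3 i ρ).symm⟩, funext h4⟩
    rw [← h5, tot_eq_sum_rsum]
  · rintro ⟨⟨lam, q⟩, hx⟩
    have h := hx
    simp only [mem_sigma, mem_filter, mem_product, mem_LRs, mem_LAM] at h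
    obtain ⟨h0, ⟨⟨h1, h2⟩, h3, h4⟩, h5⟩ := h
    apply Subtype.ext
    have : rsum q.1 = lam := funext fun i => funext fun ρ => h2 i ρ
    subst this
    rfl
  · rintro ⟨q, hq⟩
    rfl

theorem card_LRPair (K D : ℕ) : Nat.card (LRPair K D D) = Nat.card (Orb K D) := by
  classical
  have h := dual_K (K := K) (N := D) (D := D) le_rfl (innHom D (alt (rho D)))
  simp only [innHom_apply] at h
  have hL : ∑ lam ∈ LAM K D D, ((inn (schurK lam * alt (rho D)) (schurK lam * alt (rho D)) : ℤ) : ℚ)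
      = (D.factorial : ℚ) * Nat.card (LRPair K D D) := by
    rw [← sum_card, Nat.cast_sum, Finset.mul_sum]
    refine Finset.sum_congr rfl fun lam _ => ?_
    rw [inn_schurK]
    push_cast
    rfl
  have hR : ∑ m ∈ MV D D, ((K : ℚ) ^ (∑ r, m r) / (zz m : ℚ)) *
      ((inn (psm m * alt (rho D)) (psm m * alt (rho D)) : ℤ) : ℚ) =
      (D.factorial : ℚ) * Nat.card (Orb K D) := by
    rw [card_Orb, Nat.cast_sum, Finset.mul_sum]
    refine Finset.sum_congr rfl fun m hm => ?_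
    have hm' : ∑ r : Fin D, ((r : ℕ) + 1) * m r = D := by
      unfold MV at hm
      exact (Finset.mem_filter.1 hm).2
    rw [wick m m hm'.le hm'.le, if_pos rfl]
    have hz : (zz m : ℚ) ≠ 0 := by
      unfold zz
      rw [Nat.cast_ne_zero, Finset.prod_ne_zero_iff]
      intro r _
      exact mul_ne_zero (pow_ne_zero _ (Nat.succ_ne_zero _)) (Nat.factorial_ne_zero _)
    push_cast
    field_simp
  rw [hL, hR] at h
  have hf : (D.factorial : ℚ) ≠ 0 := by exact_mod_cast Nat.factorial_ne_zero D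
  have := mul_left_cancel₀ hf h
  exact_mod_cast this

end TF
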