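import Mathlib

/-!
# TF-DEC: permutations without long decreasing subsequences

Everything here is elementary.

* `dec_color` (greedy colouring): colour the position `i` by the length of a longest decreasing
  subsequence of `σ` ENDING at `i`, minus one. Two positions `i < j` with `σ i > σ j` get different
  colours (a decreasing subsequence ending at `i` can be prolonged by `j`). Since there is no
  decreasing subsequence of length `m + 1` the colours are `< m`.
* `card_noDec_le`: a permutation without decreasing subsequence of length `m + 1` is determined by the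
  pair of maps `col`, `col ∘ σ⁻¹` (`col` the colouring of `dec_color`; on each colour class `A_c`,
  `σ` is the unique increasing bijection `A_c → σ(A_c)`), so there are at most `m^D * m^D` of them.
* `lex_min`: if `σ` is increasing on each colour class of `col` and `σ' ≠ σ` maps every colour class
  onto the same set as `σ`, then `σ` is lexicographically smaller than `σ'`: at the first position
  `i` with `σ i ≠ σ' i`, `σ i` is the smallest element of `σ(A_c)` not among the values at the
  previous positions of `A_c` (`c = col i`), and `σ' i` is another element of that set.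
-/

open Equiv

namespace TF

/-- `σ` has a decreasing subsequence of length `r`. -/
def HasDec {D : ℕ} (σ : Perm (Fin D)) (r : ℕ) : Prop :=
  ∃ f : Fin r → Fin D, StrictMono f ∧ StrictAnti (fun i => σ (f i))

/-- `i` is the last position of a decreasing subsequence of length `r + 1` of `σ`. -/
def EndDec {D : ℕ} (σ : Perm (Fin D)) (i : Fin D) (r : ℕ) : Prop :=
  ∃ f : Fin (r + 1) → Fin D, StrictMono f ∧ StrictAnti (fun i => σ (f i)) ∧ f (Fin.last r) = i

theorem endDec_zero {D : ℕ} (σ : Perm (Fin D)) (i : Fin D) : EndDec σ i 0 := by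
  refine ⟨fun _ => i, ?_, ?_, rfl⟩
  · intro a b hab
    have h1 := a.2
    have h2 := b.2
    have : (a : ℕ) < b := hab
    omega
  · intro a b hab
    have h1 := a.2
    have h2 := b.2
    have : (a : ℕ) < b := hab
    omega

theorem endDec_lt {D m : ℕ} (σ : Perm (Fin D)) (h : ¬ HasDec σ (m + 1)) (i : Fin D) (r : ℕ)
    (hr : EndDec σ i r) : r < m := by
  by_contra hc
  push Not at hc
  obtain ⟨f, hf, hf', _⟩ := hr
  have hle : m + 1 ≤ r + 1 := by omega
  refine h ⟨fun k => f (Fin.castLE hle k), ?_, ?_⟩
  · intro a b hab
    exact hf (by simpa using hab)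
  · intro a b hab
    exact hf' (by simpa using hab)

theorem endDec_succ {D : ℕ} (σ : Perm (Fin D)) (i j : Fin D) (hij : i < j) (hσ : σ j < σ i)
    (r : ℕ) (hr : EndDec σ i r) : EndDec σ j (r + 1) := by
  obtain ⟨f, hf, hf', hl⟩ := hr
  have hle : ∀ k, f k ≤ i := fun k => hl ▸ hf.monotone (Fin.le_last k)
  have hge : ∀ k, σ i ≤ σ (f k) := fun k => by
    rw [← hl]
    exact hf'.antitone (Fin.le_last k)
  refine ⟨Fin.snoc (α := fun _ => Fin D) f j, ?_, ?_, by simp⟩
  · intro a b hab
    induction b using Fin.lastCases with
    | last =>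
      induction a using Fin.lastCases with
      | last => exact absurd hab (lt_irrefl _)
      | cast a => 
        simp only [Fin.snoc_castSucc, Fin.snoc_last]
        exact lt_of_le_of_lt (hle a) hij
    | cast b =>
      induction a using Fin.lastCases with
      | last => exact absurd (lt_trans hab (Fin.castSucc_lt_last b)) (lt_irrefl _)
      | cast a => 
        simp only [Fin.snoc_castSucc]
        exact hf (by simpa using hab)
  · intro a b hab
    induction b using Fin.lastCases with
    | last =>
      induction a using Fin.lastCases with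
      | last => exact absurd hab (lt_irrefl _)
      | cast a => 
        simp only [Fin.snoc_castSucc, Fin.snoc_last]
        exact lt_of_lt_of_le hσ (hge a)
    | cast b =>
      induction a using Fin.lastCases with
      | last => exact absurd (lt_trans hab (Fin.castSucc_lt_last b)) (lt_irrefl _)
      | cast a => 
        simp only [Fin.snoc_castSucc]
        exact hf' (by simpa using hab)

theorem dec_color {D m : ℕ} (σ : Perm (Fin D)) (h : ¬ HasDec σ (m + 1)) :
    ∃ col : Fin D → Fin m, ∀ i j, i < j → col i = col j → σ i < σ j := by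
  classical
  let L : Fin D → ℕ := fun i => Nat.findGreatest (EndDec σ i) m
  have hL : ∀ i, EndDec σ i (L i) := fun i =>
    Nat.findGreatest_spec (P := EndDec σ i) (Nat.zero_le m) (endDec_zero σ i)
  refine ⟨fun i => ⟨L i, endDec_lt σ h i _ (hL i)⟩, ?_⟩
  intro i j hij hc
  have hc' : L i = L j := congrArg Fin.val hc
  by_contra hn
  have hne : σ i ≠ σ j := fun he => (ne_of_lt hij) (σ.injective he)
  have hlt : σ j < σ i := lt_of_le_of_ne (not_lt.1 hn) hne.symm
  have h1 := endDec_succ σ i j hij hlt _ (hL i)
  have h2 : L i + 1 ≤ L j :=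
    Nat.le_findGreatest (P := EndDec σ j) (le_of_lt (endDec_lt σ h j _ h1)) h1
  omega

theorem lex_min {D m : ℕ} (col : Fin D → Fin m) (σ σ' : Perm (Fin D))
    (hσ : ∀ i j, i < j → col i = col j → σ i < σ j)
    (h' : ∀ i, col (σ.symm (σ' i)) = col i) (hne : σ' ≠ σ) :
    ∃ i, σ i < σ' i ∧ ∀ j < i, σ j = σ' j := by
  classical
  have hex : ∃ i, σ i ≠ σ' i := by
    by_contra hc
    push Not at hc
    exact hne (Equiv.ext fun i => (hc i).symm)
  obtain ⟨i, hi, hmin⟩ := WellFounded.has_min (wellFounded_lt (α := Fin D)) {i | σ i ≠ σ' i} hex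
  have hmin' : ∀ j < i, σ j = σ' j := fun j hj => by
    by_contra hc
    exact hmin j hc hj
  refine ⟨i, ?_, hmin'⟩
  have hk : σ (σ.symm (σ' i)) = σ' i := by simp
  rcases lt_trichotomy (σ.symm (σ' i)) i with hlt | heq | hgt
  · have h1 := hmin' _ hlt
    rw [hk] at h1
    exact absurd (σ'.injective h1).symm (ne_of_lt hlt)
  · rw [heq] at hk
    exact absurd hk hi
  · have := hσ i _ hgt (h' i).symm
    rwa [hk] at this

theorem card_noDec_le (D m : ℕ) :
    Nat.card {σ : Perm (Fin D) // ¬ HasDec σ (m + 1)} ≤ m ^ (2 * D) := by
  classical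
  let F : {σ : Perm (Fin D) // ¬ HasDec σ (m + 1)} → (Fin D → Fin m) × (Fin D → Fin m) :=
    fun σ => ((dec_color σ.1 σ.2).choose, fun i => (dec_color σ.1 σ.2).choose (σ.1.symm i))
  have hF : Function.Injective F := by
    intro σ τ hστ
    have h1 : (dec_color σ.1 σ.2).choose = (dec_color τ.1 τ.2).choose := congrArg Prod.fst hστ
    have h2 : ∀ i, (dec_color σ.1 σ.2).choose (σ.1.symm i) =
        (dec_color τ.1 τ.2).choose (τ.1.symm i) := fun i => congrFun (congrArg Prod.snd hστ) i
    have s1 := (dec_color σ.1 σ.2).choose_spec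
    have s2 := (dec_color τ.1 τ.2).choose_spec
    rw [← h1] at s2
    rw [← h1] at h2
    by_contra hne
    have hne' : τ.1 ≠ σ.1 := fun h => hne (Subtype.ext h.symm)
    obtain ⟨i, hi, hi'⟩ := lex_min _ σ.1 τ.1 s1 (fun i => by rw [h2]; simp) hne'
    obtain ⟨j, hj, hj'⟩ := lex_min _ τ.1 σ.1 s2 (fun i => by rw [← h2]; simp) hne'.symm
    rcases lt_trichotomy i j with hlt | heq | hgt
    · have := hj' i hlt
      rw [this] at hi
      exact lt_irrefl _ hi
    · subst heq
      exact lt_irrefl _ (lt_trans hi hj)
    · have := hi' j hgt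
      rw [this] at hj
      exact lt_irrefl _ hj
  have hc := Nat.card_le_card_of_injective F hF
  refine hc.trans (le_of_eq ?_)
  rw [Nat.card_prod, Nat.card_fun, Nat.card_eq_fintype_card, Nat.card_eq_fintype_card,
    Fintype.card_fin, Fintype.card_fin, two_mul, pow_add]

end TF
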