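import Mathlib

/-!
# Definitions for the project TF (MP_d53c66_al, Q2)

The unital free ring `FA = ℤ⟨x₀, x₁, …⟩`, T-ideals, Capelli sums, the T-ideals `IM m` (Capelli) and
`TZ m` (identities of `M_m(ℤ)`).
-/

open Equiv

namespace TF

/-- The free unital ring on countably many letters. -/
abbrev FA : Type := MonoidAlgebra ℤ (FreeMonoid ℕ)

/-- The ring homomorphism `FA → R` sending `x_i` to `a i`. -/
noncomputable def ev {R : Type*} [Ring R] (a : ℕ → R) : FA →+* R :=
  (MonoidAlgebra.lift ℤ R (FreeMonoid ℕ) (FreeMonoid.lift a)).toRingHom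

/-- The letter `x_i`. -/
noncomputable def xx (i : ℕ) : FA := MonoidAlgebra.single (FreeMonoid.of i) 1

/-- The constant term. -/
noncomputable def ct (f : FA) : ℤ := f.coeff 1

/-- `T` is a T-ideal of the free ring without constant term, seen inside the unital free ring: an
ideal of `FA` consisting of polynomials without constant term and closed under all substitutions of
the letters by polynomials without constant term. -/
structure IsTI (T : Submodule ℤ FA) : Prop where
  aug : ∀ f ∈ T, ct f = 0
  left : ∀ g : FA, ∀ f ∈ T, g * f ∈ T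
  right : ∀ g : FA, ∀ f ∈ T, f * g ∈ T
  subst : ∀ u : ℕ → FA, (∀ i, ct (u i) = 0) → ∀ f ∈ T, ev u f ∈ T

/-- `FA / T` is torsion-free. -/
def IsPure (T : Submodule ℤ FA) : Prop := ∀ (n : ℤ) (f : FA), n ≠ 0 → n • f ∈ T → f ∈ T

/-- `T` contains a polynomial with a coefficient `1` or `-1`. -/
def HasUnit (T : Submodule ℤ FA) : Prop := ∃ f ∈ T, ∃ w, f.coeff w = 1 ∨ f.coeff w = -1

/-- The augmentation ideal: polynomials without constant term. -/
noncomputable def Fplus : Submodule ℤ FA where
  carrier := {f | ct f = 0}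
  add_mem' := by
    intro a b ha hb
    have ha' : a.coeff 1 = 0 := ha
    have hb' : b.coeff 1 = 0 := hb
    change (a + b).coeff 1 = 0
    rw [MonoidAlgebra.coeff_add, Finsupp.add_apply, ha', hb', add_zero]
  zero_mem' := by
    change (0 : FA).coeff 1 = 0
    simp
  smul_mem' := by
    intro c x hx
    have hx' : x.coeff 1 = 0 := hx
    change (c • x).coeff 1 = 0
    rw [MonoidAlgebra.coeff_smul, Finsupp.smul_apply, hx', smul_zero]

/-- The polynomial identities of `M_m(ℤ)`. -/
noncomputable def TZ (m : ℕ) : Submodule ℤ FA where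
  carrier := {f | ∀ a : ℕ → Matrix (Fin m) (Fin m) ℤ, ev a f = 0}
  add_mem' := by
    intro a b ha hb c
    rw [map_add, ha c, hb c, add_zero]
  zero_mem' := by
    intro c
    simp
  smul_mem' := by
    intro n x hx c
    rw [map_zsmul, hx c, smul_zero]

/-- The Capelli sum `∑_σ sgn(σ) w_0 x_{σ(0)} w_1 x_{σ(1)} w_2 ⋯ x_{σ(m-1)} w_m` in a ring `R`. -/
noncomputable def cap {R : Type*} [Ring R] (m : ℕ) (w : Fin (m + 1) → R) (x : Fin m → R) : R :=
  ∑ σ : Perm (Fin m), ((Perm.sign σ : ℤˣ) : ℤ) •
    (w 0 * (List.ofFn fun i : Fin m => x (σ i) * w i.succ).prod)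

/-- The T-ideal generated by the Capelli polynomials of rank `m` with arbitrary (possibly empty)
fillers. -/
noncomputable def IM (m : ℕ) : Submodule ℤ FA :=
  Submodule.span ℤ {f | ∃ (w : Fin (m + 1) → FA) (x : Fin m → FA), (∀ i, ct (x i) = 0) ∧
    f = cap m w x}

end TF
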