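import Pool.Agent.H66.TF.LRDefs

/-!
# TF-WICK: scalar products of products of power sums times the Vandermonde alternant

`inn f g = ∑_c f_c g_c`. 

* `inn_alt`: for antitone `α, β` the exponents of `alt (α + ρ)` are the `N!` rearrangements of the
  strictly decreasing `α + ρ`, with coefficients `±1`; so `inn (alt (α+ρ)) (alt (β+ρ)) = N!` if `α = β`,
  else `0` (disjoint supports).
* `wick`: for `wt m, wt m' ≤ N`: `inn (p_m a_ρ) (p_{m'} a_ρ) = N! z_m` if `m = m'`, else `0`.
  Let `D_r` (`r ≥ 1`) be the adjoint of multiplication by `p_r = ∑ x_j^r` for `inn` (`wickD`):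
  `D_r x^α = ∑_{j : α_j ≥ r} x^{α - r e_j}`. On alternants: `D_r alt α = ∑_{j : α_j ≥ r}
  alt (α - r e_j)`, `p_s alt α = ∑_j alt (α + s e_j)`.
  Claim (`wick_comm`): if `∑ α = ∑ ρ + k` and `s + k ≤ N`, then
  `D_r p_s alt α - p_s D_r alt α = δ_{rs} s alt α` for every `r ≥ 1`. Indeed we may assume that `α` is
  injective, and then `{0, …, s-1} ⊆ im α` (compare the sums); the terms with two different indices
  `j ≠ l` cancel, and the difference is
  `∑_{j : α_j < r ≤ α_j + s} alt (α + (s-r) e_j)`: if `r = s` these are the `r` indices with `α_j < r`;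
  if `r ≠ s` the exponent `α_j + s - r` lies in `[0, s)`, so it is also another entry of `α` and the
  alternant is `0`. Also `D_r alt ρ = 0` (`ρ_j - r` is another entry of `ρ`).
  Hence (induction on the number of factors) `D_r (p_m a_ρ) = r m_r p_{m - e_r} a_ρ`
  whenever `wt m ≤ N`. Then `wick` by induction on `∑ m` using
  `inn (p_s f) g = inn f (D_s g)` (if `m = 0 ≠ m'` exchange the roles; `inn` is symmetric).
-/

open Finset Equiv

namespace TF

/-! ### the scalar product -/

theorem wick_inn_eq_sum {N : ℕ} (f g : MvPolynomial (Fin N) ℤ) (S : Finset (Fin N →₀ ℕ))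
    (h : f.support ⊆ S) :
    inn f g = ∑ c ∈ S, MvPolynomial.coeff c f * MvPolynomial.coeff c g := by
  unfold inn
  apply Finset.sum_subset h
  intro c _ hc
  rw [MvPolynomial.notMem_support_iff.1 hc, zero_mul]

theorem wick_inn_add {N : ℕ} (f f' g : MvPolynomial (Fin N) ℤ) :
    inn (f + f') g = inn f g + inn f' g := by
  classical
  rw [wick_inn_eq_sum (f + f') g (f.support ∪ f'.support) MvPolynomial.support_add,
    wick_inn_eq_sum f g (f.support ∪ f'.support) Finset.subset_union_left,
    wick_inn_eq_sum f' g (f.support ∪ f'.support) Finset.subset_union_right,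
    ← Finset.sum_add_distrib]
  refine Finset.sum_congr rfl fun c _ => ?_
  rw [MvPolynomial.coeff_add, add_mul]

theorem wick_inn_zero {N : ℕ} (g : MvPolynomial (Fin N) ℤ) : inn 0 g = 0 := by
  simp [inn]

/-- the scalar product as an additive map in the first variable -/
noncomputable def wickInn {N : ℕ} (g : MvPolynomial (Fin N) ℤ) :
    MvPolynomial (Fin N) ℤ →+ ℤ where
  toFun f := inn f g
  map_zero' := wick_inn_zero g
  map_add' f f' := wick_inn_add f f' g

theorem wick_inn_comm {N : ℕ} (f g : MvPolynomial (Fin N) ℤ) : inn f g = inn g f := by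
  classical
  rw [wick_inn_eq_sum f g (f.support ∪ g.support) Finset.subset_union_left,
    wick_inn_eq_sum g f (f.support ∪ g.support) Finset.subset_union_right]
  exact Finset.sum_congr rfl fun c _ => mul_comm _ _

theorem wick_inn_monomial {N : ℕ} (c : Fin N →₀ ℕ) (a : ℤ) (g : MvPolynomial (Fin N) ℤ) :
    inn (MvPolynomial.monomial c a) g = a * MvPolynomial.coeff c g := by
  classical
  rw [wick_inn_eq_sum _ g {c} MvPolynomial.support_monomial_subset, Finset.sum_singleton,
    MvPolynomial.coeff_monomial, if_pos rfl]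

theorem wick_inn_sum {N : ℕ} {ι : Type*} (S : Finset ι) (f : ι → MvPolynomial (Fin N) ℤ)
    (g : MvPolynomial (Fin N) ℤ) : inn (∑ i ∈ S, f i) g = ∑ i ∈ S, inn (f i) g :=
  map_sum (wickInn g) f S

theorem wick_inn_zsmul {N : ℕ} (n : ℤ) (f g : MvPolynomial (Fin N) ℤ) :
    inn (n • f) g = n * inn f g := by
  have := map_zsmul (wickInn g) n f
  rw [smul_eq_mul] at this
  exact this

/-! ### alternants -/

theorem wick_toF_inj {N : ℕ} {α β : Fin N → ℕ} : toF α = toF β ↔ α = β := by
  unfold toF
  exact Equiv.apply_eq_iff_eq _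

theorem wick_coeff_alt {N : ℕ} (α γ : Fin N → ℕ) :
    MvPolynomial.coeff (toF γ) (alt α) =
      ∑ w : Perm (Fin N), if α ∘ w = γ then ((Perm.sign w : ℤˣ) : ℤ) else 0 := by
  classical
  unfold alt
  rw [MvPolynomial.coeff_sum]
  refine Finset.sum_congr rfl fun w _ => ?_
  rw [MvPolynomial.coeff_smul, MvPolynomial.coeff_monomial]
  by_cases h : α ∘ w = γ
  · rw [if_pos (by rw [h]), if_pos h]; simp
  · rw [if_neg (fun h' => h (wick_toF_inj.1 h')), if_neg h]; simp

theorem wick_strict {N : ℕ} (α : Fin N → ℕ) (hα : Antitone α) : StrictAnti (α + rho N) := by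
  intro a b hab
  have h1 := hα hab.le
  have h2 : rho N b < rho N a := by
    unfold rho
    have : (a : ℕ) < b := hab
    have := b.2
    omega
  simp only [Pi.add_apply]
  omega

theorem wick_strict_unique {N : ℕ} {a b : Fin N → ℕ} (ha : StrictAnti a) (hb : StrictAnti b)
    (w : Perm (Fin N)) (h : b ∘ w = a) : w = 1 := by
  have hmono : StrictMono w := by
    intro i j hij
    have h1 : a j < a i := ha hij
    rw [← h] at h1
    exact hb.lt_iff_gt.1 h1
  have hmono' : StrictMono w.symm := by
    intro i j hij
    rw [← hmono.lt_iff_lt]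
    simpa using hij
  ext i
  have h1 : i ≤ w i := hmono.le_apply
  have h2 : w i ≤ w.symm (w i) := hmono'.le_apply
  rw [Equiv.symm_apply_apply] at h2
  rw [le_antisymm h2 h1]
  rfl

theorem wick_comp_unique {N : ℕ} {a b : Fin N → ℕ} (ha : StrictAnti a) (hb : StrictAnti b)
    (σ τ : Perm (Fin N)) (h : b ∘ τ = a ∘ σ) : τ = σ ∧ b = a := by
  have h1 : b ∘ (τ * σ⁻¹ : Perm (Fin N)) = a := by
    have : b ∘ (τ * σ⁻¹ : Perm (Fin N)) = (b ∘ τ) ∘ (σ⁻¹ : Perm (Fin N)) := by
      funext i; simp
    rw [this, h]
    funext i; simp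
  have h2 := wick_strict_unique ha hb _ h1
  rw [h2] at h1
  have h3 : τ = σ := by
    rw [mul_inv_eq_one] at h2
    exact h2
  exact ⟨h3, by rw [← h1]; funext i; simp⟩

theorem inn_alt {N : ℕ} (α β : Fin N → ℕ) (hα : Antitone α) (hβ : Antitone β) :
    inn (alt (α + rho N)) (alt (β + rho N)) = if α = β then (N.factorial : ℤ) else 0 := by
  classical
  have ha := wick_strict α hα
  have hb := wick_strict β hβ
  have h1 : inn (alt (α + rho N)) (alt (β + rho N)) =
      ∑ σ : Perm (Fin N), ((Perm.sign σ : ℤˣ) : ℤ) *
        ∑ τ : Perm (Fin N), if (β + rho N) ∘ τ = (α + rho N) ∘ σ then ((Perm.sign τ : ℤˣ) : ℤ)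
          else 0 := by
    conv_lhs => rw [alt]
    rw [wick_inn_sum]
    refine Finset.sum_congr rfl fun σ _ => ?_
    rw [wick_inn_zsmul, wick_inn_monomial, one_mul, wick_coeff_alt]
  rw [h1]
  by_cases h : α = β
  · subst h
    rw [if_pos rfl]
    have : ∀ σ : Perm (Fin N), ((Perm.sign σ : ℤˣ) : ℤ) *
        (∑ τ : Perm (Fin N), if (α + rho N) ∘ τ = (α + rho N) ∘ σ then ((Perm.sign τ : ℤˣ) : ℤ)
          else 0) = 1 := by
      intro σ
      rw [Finset.sum_eq_single σ, if_pos rfl]
      · rw [← Units.val_mul, Int.units_mul_self]; rfl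
      · intro τ _ hτ
        rw [if_neg]
        intro h'
        exact hτ (wick_comp_unique ha ha σ τ h').1
      · intro h'; exact absurd (Finset.mem_univ σ) h'
    rw [Finset.sum_congr rfl (fun σ _ => this σ)]
    simp [Fintype.card_perm]
  · rw [if_neg h]
    apply Finset.sum_eq_zero
    intro σ _
    rw [Finset.sum_eq_zero, mul_zero]
    intro τ _
    rw [if_neg]
    intro h'
    have := (wick_comp_unique ha hb σ τ h').2
    exact h (add_right_cancel this).symm

/-! ### alternants: vanishing and multiplication by power sums -/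

theorem wick_alt_comp {N : ℕ} (α : Fin N → ℕ) (τ : Perm (Fin N)) :
    alt (α ∘ τ) = ((Perm.sign τ : ℤˣ) : ℤ) • alt α := by
  unfold alt
  rw [Finset.smul_sum]
  rw [← Equiv.sum_comp (Equiv.mulLeft τ)
    (fun w => ((Perm.sign τ : ℤˣ) : ℤ) • ((Perm.sign w : ℤˣ) : ℤ) •
      MvPolynomial.monomial (toF (α ∘ w)) (1 : ℤ))]
  refine Finset.sum_congr rfl fun w _ => ?_
  rw [smul_smul]
  simp only [Equiv.coe_mulLeft, Perm.sign_mul, Perm.coe_mul, Units.val_mul]
  rw [← mul_assoc, ← Units.val_mul, Int.units_mul_self, Units.val_one, one_mul]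
  rfl

theorem wick_alt_zero {N : ℕ} (α : Fin N → ℕ) {i j : Fin N} (hij : i ≠ j) (h : α i = α j) :
    alt α = 0 := by
  have h1 : α ∘ (Equiv.swap i j) = α := by
    funext l
    simp only [Function.comp_apply, Equiv.swap_apply_def]
    split_ifs with h2 h3
    · rw [h2, h]
    · rw [h3, h]
    · rfl
  have h2 := wick_alt_comp α (Equiv.swap i j)
  rw [h1, Perm.sign_swap hij] at h2
  ext c
  have h3 := congrArg (MvPolynomial.coeff c) h2
  simp only [Units.val_neg, Units.val_one, neg_smul, one_smul, MvPolynomial.coeff_neg] at h3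
  rw [MvPolynomial.coeff_zero]
  omega

theorem wick_toF_update {N : ℕ} (α : Fin N → ℕ) (j : Fin N) (s : ℕ) :
    Finsupp.single j s + toF α = toF (Function.update α j (α j + s)) := by
  ext l
  by_cases h : l = j
  · subst h
    simp [toF, add_comm]
  · simp [toF, Function.update_of_ne h, Ne.symm h]

theorem wick_update_comp {N : ℕ} (α : Fin N → ℕ) (w : Perm (Fin N)) (j : Fin N) (v : ℕ) :
    Function.update α (w j) v ∘ w = Function.update (α ∘ w) j v := by
  funext l
  by_cases h : l = j
  · subst h; simp
  · rw [Function.comp_apply, Function.update_of_ne (fun h' => h (w.injective h')),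
      Function.update_of_ne h]; rfl

theorem wick_psum_alt {N : ℕ} (α : Fin N → ℕ) (s : ℕ) :
    MvPolynomial.psum (Fin N) ℤ s * alt α = ∑ j, alt (Function.update α j (α j + s)) := by
  unfold alt
  rw [Finset.sum_comm, Finset.mul_sum]
  refine Finset.sum_congr rfl fun w _ => ?_
  rw [MvPolynomial.psum, Finset.sum_mul]
  conv_rhs => rw [← Equiv.sum_comp w]
  refine Finset.sum_congr rfl fun j _ => ?_
  rw [wick_update_comp, mul_smul_comm]
  congr 1
  rw [MvPolynomial.X_pow_eq_monomial, MvPolynomial.monomial_mul, wick_toF_update, one_mul]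
  rfl

/-! ### the adjoint of multiplication by a power sum -/

/-- the adjoint of multiplication by `p_r` -/
noncomputable def wickD {N : ℕ} (r : ℕ) : MvPolynomial (Fin N) ℤ →+ MvPolynomial (Fin N) ℤ where
  toFun f := ∑ j : Fin N, f.divMonomial (Finsupp.single j r)
  map_zero' := by simp
  map_add' f g := by simp [MvPolynomial.add_divMonomial, Finset.sum_add_distrib]

theorem wick_coeff_D {N : ℕ} (r : ℕ) (f : MvPolynomial (Fin N) ℤ) (c : Fin N →₀ ℕ) :
    MvPolynomial.coeff c (wickD r f) =
      ∑ j : Fin N, MvPolynomial.coeff (Finsupp.single j r + c) f := by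
  change MvPolynomial.coeff c (∑ j : Fin N, f.divMonomial (Finsupp.single j r)) = _
  rw [MvPolynomial.coeff_sum]
  refine Finset.sum_congr rfl fun j _ => ?_
  rw [MvPolynomial.coeff_divMonomial]

theorem wick_adj {N : ℕ} (s : ℕ) (f g : MvPolynomial (Fin N) ℤ) :
    inn (MvPolynomial.psum (Fin N) ℤ s * f) g = inn f (wickD s g) := by
  induction f using MvPolynomial.induction_on' with
  | monomial u a =>
    rw [wick_inn_monomial, wick_coeff_D, MvPolynomial.psum, Finset.sum_mul, wick_inn_sum,
      Finset.mul_sum]
    refine Finset.sum_congr rfl fun j _ => ?_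
    rw [MvPolynomial.X_pow_eq_monomial, MvPolynomial.monomial_mul, one_mul, wick_inn_monomial]
  | add p q hp hq => rw [mul_add, wick_inn_add, wick_inn_add, hp, hq]

theorem wick_D_monomial {N : ℕ} (r : ℕ) (α : Fin N → ℕ) :
    wickD r (MvPolynomial.monomial (toF α) (1 : ℤ)) =
      ∑ j, if r ≤ α j then MvPolynomial.monomial (toF (Function.update α j (α j - r))) (1 : ℤ)
        else 0 := by
  classical
  ext c
  rw [wick_coeff_D, MvPolynomial.coeff_sum]
  refine Finset.sum_congr rfl fun j _ => ?_
  rw [MvPolynomial.coeff_monomial]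
  have hc : c = toF (c : Fin N → ℕ) := by ext l; simp [toF]
  rw [hc, wick_toF_update]
  by_cases hr : r ≤ α j
  · rw [if_pos hr, MvPolynomial.coeff_monomial]
    congr 1
    rw [eq_iff_iff, wick_toF_inj, wick_toF_inj]
    constructor
    · intro h
      funext l
      by_cases hl : l = j
      · subst hl
        rw [h]; simp
      · rw [Function.update_of_ne hl, h, Function.update_of_ne hl]
    · intro h
      funext l
      by_cases hl : l = j
      · subst hl
        have := congrFun h l
        simp only [Function.update_self] at this ⊢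
        omega
      · have := congrFun h l
        rw [Function.update_of_ne hl] at this ⊢
        exact this
  · rw [if_neg hr, MvPolynomial.coeff_zero, if_neg]
    intro h
    apply hr
    have := congrFun (wick_toF_inj.1 h) j
    rw [Function.update_self] at this
    omega

theorem wick_D_alt {N : ℕ} (r : ℕ) (α : Fin N → ℕ) :
    wickD r (alt α) = ∑ j, if r ≤ α j then alt (Function.update α j (α j - r)) else 0 := by
  have h1 : wickD r (alt α) = ∑ w : Perm (Fin N), ((Perm.sign w : ℤˣ) : ℤ) •
      wickD r (MvPolynomial.monomial (toF (α ∘ w)) (1 : ℤ)) := by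
    unfold alt
    rw [map_sum]
    refine Finset.sum_congr rfl fun w _ => ?_
    rw [map_zsmul]
  have h2 : ∀ j, (if r ≤ α j then alt (Function.update α j (α j - r)) else 0) =
      ∑ w : Perm (Fin N), if r ≤ α j then ((Perm.sign w : ℤˣ) : ℤ) •
        MvPolynomial.monomial (toF (Function.update α j (α j - r) ∘ w)) (1 : ℤ) else 0 := by
    intro j
    split_ifs
    · rfl
    · simp
  rw [h1, Finset.sum_congr rfl (fun j _ => h2 j), Finset.sum_comm]
  refine Finset.sum_congr rfl fun w _ => ?_
  rw [wick_D_monomial, Finset.smul_sum]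
  conv_rhs => rw [← Equiv.sum_comp w]
  refine Finset.sum_congr rfl fun j _ => ?_
  rw [wick_update_comp]
  simp only [Function.comp_apply]
  split_ifs
  · rfl
  · simp


/-! ### the commutation relation -/

theorem wick_sum_rho (N : ℕ) : ∑ j, rho N j = ∑ i ∈ Finset.range N, i := by
  have h := Finset.sum_range_reflect (fun i => i) N
  rw [← h, ← Fin.sum_univ_eq_sum_range (fun j => N - 1 - j) N]
  rfl

theorem wick_mem_im {N : ℕ} (α : Fin N → ℕ) (hinj : Function.Injective α) (k s v : ℕ)
    (hα : ∑ j, α j = ∑ j, rho N j + k) (hs : s + k ≤ N) (hv : v < s) : ∃ l, α l = v := by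
  classical
  by_contra hcon
  push Not at hcon
  set S : Finset ℤ := insert (v : ℤ) (Finset.univ.image (fun j => (α j : ℤ))) with hS
  have hcard1 : (Finset.univ.image (fun j => (α j : ℤ))).card = N := by
    rw [Finset.card_image_of_injective, Finset.card_univ, Fintype.card_fin]
    intro a b hab
    have hab' : (α a : ℤ) = α b := hab
    exact hinj (by exact_mod_cast hab')
  have hnot : (v : ℤ) ∉ Finset.univ.image (fun j => (α j : ℤ)) := by
    intro h
    rw [Finset.mem_image] at h
    obtain ⟨j, -, hj⟩ := h
    exact hcon j (by exact_mod_cast hj)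
  have hcard : S.card = N + 1 := by
    rw [hS, Finset.card_insert_of_notMem hnot, hcard1]
  have hge : ∀ x ∈ S, (0 : ℤ) ≤ x := by
    intro x hx
    rw [hS, Finset.mem_insert] at hx
    rcases hx with rfl | hx
    · positivity
    · rw [Finset.mem_image] at hx
      obtain ⟨j, -, rfl⟩ := hx
      positivity
  have h1 := Finset.sum_range_le_sum hge
  have h2 : ∑ x ∈ S, x = v + ∑ j, (α j : ℤ) := by
    rw [hS, Finset.sum_insert hnot, Finset.sum_image]
    intro a _ b _ hab
    have hab' : (α a : ℤ) = α b := hab
    exact hinj (by exact_mod_cast hab')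
  rw [hcard, h2, Finset.sum_range_succ] at h1
  have h3 : (∑ j, (α j : ℤ)) = ∑ i ∈ Finset.range N, (i : ℤ) + k := by
    have h4 : (∑ j, α j) = ∑ i ∈ Finset.range N, i + k := by rw [hα, wick_sum_rho]
    have h5 := congrArg (Nat.cast : ℕ → ℤ) h4
    push_cast at h5
    exact h5
  rw [h3] at h1
  simp only [zero_add] at h1
  have h4 : (N : ℤ) ≤ v + k := by linarith
  have h5 : N ≤ v + k := by exact_mod_cast h4
  omega

theorem wick_count {N : ℕ} (α : Fin N → ℕ) (hinj : Function.Injective α) (s : ℕ)
    (him : ∀ v < s, ∃ l, α l = v) : (Finset.univ.filter (fun j => α j < s)).card = s := by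
  classical
  rw [← Finset.card_image_of_injective _ hinj]
  have : (Finset.univ.filter (fun j => α j < s)).image α = Finset.range s := by
    ext v
    simp only [Finset.mem_image, Finset.mem_filter, Finset.mem_univ, true_and, Finset.mem_range]
    constructor
    · rintro ⟨j, hj, rfl⟩
      exact hj
    · intro hv
      obtain ⟨l, hl⟩ := him v hv
      exact ⟨l, by rw [hl]; exact hv, hl⟩
  rw [this, Finset.card_range]

theorem wick_comm {N : ℕ} (α : Fin N → ℕ) (r s k : ℕ)
    (hα : ∑ j, α j = ∑ j, rho N j + k) (hs : s + k ≤ N) :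
    wickD r (MvPolynomial.psum (Fin N) ℤ s * alt α) =
      MvPolynomial.psum (Fin N) ℤ s * wickD r (alt α) + (if r = s then (s : ℤ) else 0) • alt α := by
  classical
  by_cases hinj : Function.Injective α
  swap
  · have h0 : alt α = 0 := by
      unfold Function.Injective at hinj
      push Not at hinj
      obtain ⟨i, j, h1, h2⟩ := hinj
      exact wick_alt_zero α h2 h1
    rw [h0]
    simp
  have him := fun v hv => wick_mem_im α hinj k s v hα hs hv
  set A : Fin N → Fin N → MvPolynomial (Fin N) ℤ := fun j l =>
    if r ≤ Function.update α j (α j + s) l then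
      alt (Function.update (Function.update α j (α j + s)) l
        (Function.update α j (α j + s) l - r)) else 0 with hA
  set B : Fin N → Fin N → MvPolynomial (Fin N) ℤ := fun j l =>
    if r ≤ α l then alt (Function.update (Function.update α l (α l - r)) j
        (Function.update α l (α l - r) j + s)) else 0 with hB
  have hL : wickD r (MvPolynomial.psum (Fin N) ℤ s * alt α) = ∑ j, ∑ l, A j l := by
    rw [wick_psum_alt, map_sum]
    refine Finset.sum_congr rfl fun j _ => ?_
    rw [wick_D_alt]
  have hR : MvPolynomial.psum (Fin N) ℤ s * wickD r (alt α) = ∑ j, ∑ l, B j l := by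
    rw [wick_D_alt, Finset.mul_sum, Finset.sum_comm]
    refine Finset.sum_congr rfl fun l _ => ?_
    simp only [hB]
    by_cases h : r ≤ α l
    · rw [if_pos h, wick_psum_alt]
      refine Finset.sum_congr rfl fun j _ => ?_
      rw [if_pos h]
    · simp [h]
  have hAB : ∀ j l, l ≠ j → A j l = B j l := by
    intro j l hlj
    simp only [hA, hB]
    rw [Function.update_of_ne hlj, Function.update_of_ne (Ne.symm hlj),
      Function.update_comm (Ne.symm hlj)]
  have hC : ∀ j, A j j - B j j = if r = s then (if α j < s then alt α else 0) else 0 := by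
    intro j
    simp only [hA, hB, Function.update_self, Function.update_idem]
    by_cases h1 : r ≤ α j
    · rw [if_pos h1, if_pos (by omega : r ≤ α j + s)]
      have : α j + s - r = α j - r + s := by omega
      rw [this, sub_self]
      split_ifs with h2 h3
      · omega
      · rfl
      · rfl
    · rw [if_neg h1, sub_zero]
      by_cases h2 : r = s
      · subst h2
        rw [if_pos rfl, if_pos (by omega), if_pos (by omega)]
        have : α j + r - r = α j := by omega
        rw [this, Function.update_eq_self]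
      · rw [if_neg h2]
        split_ifs with h3
        · obtain ⟨l, hl⟩ := him (α j + s - r) (by omega)
          have hlj : j ≠ l := by
            rintro rfl
            omega
          apply wick_alt_zero _ hlj
          rw [Function.update_self, Function.update_of_ne (Ne.symm hlj), hl]
        · rfl
  have hsum : ∀ j, ∑ l, A j l - ∑ l, B j l = A j j - B j j := by
    intro j
    rw [← Finset.sum_sub_distrib, Finset.sum_eq_single j]
    · intro l _ hlj
      rw [hAB j l hlj, sub_self]
    · intro h; exact absurd (Finset.mem_univ j) h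
  have hfin : ∑ j, ∑ l, A j l - ∑ j, ∑ l, B j l = (if r = s then (s : ℤ) else 0) • alt α := by
    rw [← Finset.sum_sub_distrib, Finset.sum_congr rfl (fun j _ => (hsum j).trans (hC j))]
    by_cases h : r = s
    · simp only [if_pos h]
      rw [← Finset.sum_filter, Finset.sum_const, wick_count α hinj s him]
      simp
    · simp [h]
  rw [hL, hR, ← hfin]
  abel

/-- the span of the alternants of degree `∑ ρ + k` -/
noncomputable def wickM (N k : ℕ) : AddSubgroup (MvPolynomial (Fin N) ℤ) :=
  AddSubgroup.closure {f | ∃ α : Fin N → ℕ, ∑ j, α j = ∑ j, rho N j + k ∧ f = alt α}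

theorem wick_comm' {N : ℕ} (r s k : ℕ) (hs : s + k ≤ N) (f : MvPolynomial (Fin N) ℤ)
    (hf : f ∈ wickM N k) :
    wickD r (MvPolynomial.psum (Fin N) ℤ s * f) =
      MvPolynomial.psum (Fin N) ℤ s * wickD r f + (if r = s then (s : ℤ) else 0) • f := by
  unfold wickM at hf
  induction hf using AddSubgroup.closure_induction with
  | mem x hx =>
    obtain ⟨α, hα, rfl⟩ := hx
    exact wick_comm α r s k hα hs
  | zero => simp
  | add x y _ _ hx hy =>
    rw [mul_add, map_add, hx, hy, map_add, mul_add, smul_add]
    abel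
  | neg x _ hx =>
    rw [mul_neg, map_neg, hx, map_neg, mul_neg, smul_neg]
    abel

theorem wick_psum_mem {N : ℕ} (s k : ℕ) (f : MvPolynomial (Fin N) ℤ) (hf : f ∈ wickM N k) :
    MvPolynomial.psum (Fin N) ℤ s * f ∈ wickM N (k + s) := by
  classical
  unfold wickM at hf
  induction hf using AddSubgroup.closure_induction with
  | mem x hx =>
    obtain ⟨α, hα, rfl⟩ := hx
    rw [wick_psum_alt]
    apply AddSubgroup.sum_mem
    intro j _
    apply AddSubgroup.subset_closure
    refine ⟨_, ?_, rfl⟩
    rw [Finset.sum_update_of_mem (Finset.mem_univ j)]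
    have := Finset.add_sum_erase Finset.univ α (Finset.mem_univ j)
    rw [← Finset.sdiff_singleton_eq_erase] at this
    omega
  | zero => simp
  | add x y _ _ hx hy =>
    rw [mul_add]; exact AddSubgroup.add_mem _ hx hy
  | neg x _ hx =>
    rw [mul_neg]; exact AddSubgroup.neg_mem _ hx

theorem wick_D_rho {N : ℕ} (r : ℕ) (hr : 1 ≤ r) : wickD r (alt (rho N)) = 0 := by
  rw [wick_D_alt]
  apply Finset.sum_eq_zero
  intro j _
  split_ifs with h
  · have hj := j.2
    unfold rho at h
    have hlt : (j : ℕ) + r < N := by omega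
    apply wick_alt_zero _ (i := j) (j := ⟨(j : ℕ) + r, hlt⟩)
    · intro h'
      have := congrArg Fin.val h'
      simp only at this
      omega
    · rw [Function.update_self, Function.update_of_ne]
      · unfold rho
        simp only
        omega
      · intro h'
        have := congrArg Fin.val h'
        simp only at this
        omega
  · rfl

/-! ### products of power sums -/

/-- weight -/
def wickWt {N : ℕ} (m : Fin N → ℕ) : ℕ := ∑ r : Fin N, ((r : ℕ) + 1) * m r

theorem wick_wt_add {N : ℕ} (m : Fin N → ℕ) (s : Fin N) :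
    wickWt (m + Pi.single s 1) = wickWt m + ((s : ℕ) + 1) := by
  unfold wickWt
  simp only [Pi.add_apply, mul_add, Finset.sum_add_distrib]
  congr 1
  rw [Finset.sum_eq_single s]
  · simp
  · intro b _ hb
    simp [Pi.single_eq_of_ne hb]
  · intro h; exact absurd (Finset.mem_univ s) h

theorem wick_psm_add {N : ℕ} (m : Fin N → ℕ) (s : Fin N) :
    psm (m + Pi.single s 1) = MvPolynomial.psum (Fin N) ℤ ((s : ℕ) + 1) * psm m := by
  unfold psm
  simp only [Pi.add_apply, pow_add, Finset.prod_mul_distrib]
  rw [mul_comm]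
  congr 1
  rw [Finset.prod_eq_single s]
  · simp
  · intro b _ hb
    simp [Pi.single_eq_of_ne hb]
  · intro h; exact absurd (Finset.mem_univ s) h

theorem wick_psm_zero {N : ℕ} : psm (0 : Fin N → ℕ) = 1 := by
  simp [psm]

theorem wick_decomp {N : ℕ} (m : Fin N → ℕ) (s : Fin N) (h : m s ≠ 0) :
    m = (m - Pi.single s 1) + Pi.single s 1 := by
  funext l
  simp only [Pi.add_apply, Pi.sub_apply]
  by_cases hl : l = s
  · subst hl
    simp only [Pi.single_eq_same]
    omega
  · simp [Pi.single_eq_of_ne hl]

theorem wick_ne_zero {N : ℕ} (m : Fin N → ℕ) (h : m ≠ 0) : ∃ s, m s ≠ 0 := by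
  by_contra hcon
  push Not at hcon
  exact h (funext hcon)

theorem wick_sum_add {N : ℕ} (m : Fin N → ℕ) (s : Fin N) :
    ∑ l, (m + Pi.single s 1 : Fin N → ℕ) l = ∑ l, m l + 1 := by
  simp only [Pi.add_apply, Finset.sum_add_distrib]
  congr 1
  rw [Finset.sum_eq_single s]
  · simp
  · intro b _ hb
    simp [Pi.single_eq_of_ne hb]
  · intro h; exact absurd (Finset.mem_univ s) h

theorem wick_induct {N : ℕ} {P : (Fin N → ℕ) → Prop} (h0 : P 0)
    (hstep : ∀ m s, P m → P (m + Pi.single s 1)) (m : Fin N → ℕ) : P m := by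
  have key : ∀ n : ℕ, ∀ m : Fin N → ℕ, ∑ l, m l = n → P m := by
    intro n
    induction n with
    | zero =>
      intro m hm
      have : m = 0 := by
        funext l
        have := (Finset.sum_eq_zero_iff.1 hm) l (Finset.mem_univ l)
        simpa using this
      rw [this]; exact h0
    | succ n ih =>
      intro m hm
      have hne : m ≠ 0 := by
        rintro rfl
        simp at hm
      obtain ⟨s, hs⟩ := wick_ne_zero m hne
      rw [wick_decomp m s hs]
      apply hstep
      apply ih
      have := wick_sum_add (m - Pi.single s 1) s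
      rw [← wick_decomp m s hs] at this
      omega
  exact key _ m rfl

theorem wick_psm_mem {N : ℕ} (m : Fin N → ℕ) : psm m * alt (rho N) ∈ wickM N (wickWt m) := by
  induction m using wick_induct with
  | h0 =>
    rw [wick_psm_zero, one_mul]
    apply AddSubgroup.subset_closure
    exact ⟨rho N, by simp [wickWt], rfl⟩
  | hstep m s hm =>
    rw [wick_psm_add, wick_wt_add, mul_assoc]
    exact wick_psum_mem _ _ _ hm

theorem wick_D_psm {N : ℕ} (r : Fin N) (m : Fin N → ℕ) (h : wickWt m ≤ N) :
    wickD ((r : ℕ) + 1) (psm m * alt (rho N)) =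
      ((((r : ℕ) + 1) * m r : ℕ) : ℤ) • (psm (m - Pi.single r 1) * alt (rho N)) := by
  induction m using wick_induct with
  | h0 =>
    rw [wick_psm_zero, one_mul, wick_D_rho _ (by omega)]
    simp
  | hstep m s ih =>
    rw [wick_wt_add] at h
    have ih' := ih (by omega)
    rw [wick_psm_add, mul_assoc, wick_comm' _ _ (wickWt m) (by omega) _ (wick_psm_mem m), ih',
      mul_smul_comm, ← mul_assoc]
    by_cases hrs : r = s
    · subst hrs
      rw [if_pos rfl]
      have e1 : m + Pi.single r 1 - Pi.single r 1 = m := by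
        funext l; simp
      rw [e1]
      simp only [Pi.add_apply, Pi.single_eq_same]
      by_cases h0 : m r = 0
      · rw [h0]; simp
      · rw [← wick_psm_add, ← wick_decomp m r h0, ← add_smul]
        congr 1
    · rw [if_neg (by intro h'; exact hrs (Fin.ext (by omega))), zero_smul, add_zero,
        ← wick_psm_add]
      have e1 : m - Pi.single r 1 + Pi.single s 1 = m + Pi.single s 1 - Pi.single r 1 := by
        funext l
        simp only [Pi.add_apply, Pi.sub_apply]
        by_cases hl : l = s
        · subst hl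
          rw [Pi.single_eq_of_ne (Ne.symm hrs)]
          simp
        · rw [Pi.single_eq_of_ne hl]
          simp
      have e2 : (m + Pi.single s 1 : Fin N → ℕ) r = m r := by
        simp [Pi.single_eq_of_ne hrs]
      rw [e1, e2]

theorem wick_zz_add {N : ℕ} (m : Fin N → ℕ) (s : Fin N) :
    zz (m + Pi.single s 1) = zz m * (((s : ℕ) + 1) * (m s + 1)) := by
  unfold zz
  rw [← Finset.mul_prod_erase Finset.univ _ (Finset.mem_univ s),
    ← Finset.mul_prod_erase Finset.univ (fun r : Fin N => ((r : ℕ) + 1) ^ m r * (m r).factorial)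
      (Finset.mem_univ s)]
  have : ∏ x ∈ Finset.univ.erase s, (((x : ℕ) + 1) ^ (m + Pi.single s 1 : Fin N → ℕ) x *
      ((m + Pi.single s 1 : Fin N → ℕ) x).factorial) =
      ∏ x ∈ Finset.univ.erase s, (((x : ℕ) + 1) ^ m x * (m x).factorial) := by
    refine Finset.prod_congr rfl fun x hx => ?_
    rw [Finset.mem_erase] at hx
    simp [Pi.single_eq_of_ne hx.1]
  rw [this]
  simp only [Pi.add_apply, Pi.single_eq_same, pow_succ, Nat.factorial_succ]
  ring

theorem wick {N : ℕ} (m m' : Fin N → ℕ) (h : ∑ r : Fin N, ((r : ℕ) + 1) * m r ≤ N)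
    (h' : ∑ r : Fin N, ((r : ℕ) + 1) * m' r ≤ N) :
    inn (psm m * alt (rho N)) (psm m' * alt (rho N)) =
      if m = m' then (N.factorial : ℤ) * zz m else 0 := by
  change wickWt m ≤ N at h
  change wickWt m' ≤ N at h'
  induction m using wick_induct generalizing m' with
  | h0 =>
    by_cases hm : m' = 0
    · subst hm
      rw [if_pos rfl, wick_psm_zero, one_mul]
      have := inn_alt (N := N) 0 0 (fun _ _ _ => le_rfl) (fun _ _ _ => le_rfl)
      rw [zero_add, if_pos rfl] at this
      rw [this]
      simp [zz]
    · rw [if_neg (fun h => hm h.symm)]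
      obtain ⟨s, hs⟩ := wick_ne_zero m' hm
      rw [wick_psm_zero, one_mul, wick_decomp m' s hs, wick_psm_add, wick_inn_comm, mul_assoc,
        wick_adj, wick_D_rho _ (by omega), wick_inn_comm, wick_inn_zero]
  | hstep m s ih =>
    rw [wick_wt_add] at h
    rw [wick_psm_add, mul_assoc, wick_adj, wick_D_psm s m' h', wick_inn_comm, wick_inn_zsmul,
      wick_inn_comm]
    by_cases h0 : m' s = 0
    · rw [h0, if_neg]
      · simp
      · intro he
        have := congrFun he s
        rw [h0] at this
        simp at this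
    · have hd := wick_decomp m' s h0
      have hwt : wickWt (m' - Pi.single s 1) ≤ N := by
        rw [hd, wick_wt_add] at h'
        omega
      rw [ih _ (by omega) hwt]
      by_cases he : m = m' - Pi.single s 1
      · rw [if_pos he, if_pos (by rw [he]; exact hd.symm), wick_zz_add]
        have e1 : m s + 1 = m' s := by
          rw [he]
          simp only [Pi.sub_apply, Pi.single_eq_same]
          omega
        rw [e1]
        push_cast
        ring
      · rw [if_neg he, if_neg, mul_zero]
        intro h1
        apply he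
        rw [← h1]
        funext l
        simp

end TF
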