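import Pool.Agent.H66.TF.OneBlock
import Pool.Agent.H66.TF.Wick

/-!
# TF-DUAL: `∑_{lam ⊢ n} s_lam ⊗ s_lam = ∑_{μ ⊢ n} z_μ⁻¹ p_μ ⊗ p_μ` (`n ≤ N`)

Stated for an arbitrary biadditive map `B` to `ℚ`.

Proof. `p_m a_ρ` (`m ∈ MV N n`) is an alternating polynomial, homogeneous of degree `n + |ρ|`, hence
`p_m a_ρ = ∑_{lam ∈ PAR N n} χ(lam, m) alt (lam + ρ)` with integers `χ` (e.g. by repeated use of
`p_s alt α = ∑_j alt (α + s e_j)`, or because an alternating polynomial is determined by its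
coefficients at strictly decreasing exponents). By `schur1_of_antitone`, and since `a_ρ ≠ 0` in the
domain `ℤ[x]`, `p_m = ∑_lam χ(lam, m) s_lam`. By `wick` and `inn_alt`
`∑_lam χ(lam, m) χ(lam, m') = δ z_m`. The sets `PAR N n` and `MV N n` have the same cardinality (for
`n ≤ N`): `m ↦ lam`, `lam a = ∑_{r ≥ a} m r`, inverse `m r = lam r - lam (r+1)`
(`∑_a lam a = ∑_r (r+1) m r`). So the square matrix `χ(lam, m)` with `χᵀ χ = diag(z_m)` has
`χ diag(z_m)⁻¹ χᵀ = 1`, i.e. `∑_m χ(lam, m) χ(lam', m) / z_m = δ_{lam lam'}`. Now expand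
`∑_m z_m⁻¹ B(p_m, p_m)`.
-/

open Finset Equiv

namespace TF

/-! ### Alternants -/

theorem Dual_alt_perm {N : ℕ} (α : Fin N → ℕ) (τ : Perm (Fin N)) :
    alt (α ∘ τ) = ((Perm.sign τ : ℤˣ) : ℤ) • alt α := by
  unfold alt
  rw [Finset.smul_sum]
  refine Fintype.sum_equiv (Equiv.mulLeft τ) _ _ ?_
  intro w
  have h1 : (α ∘ τ) ∘ w = α ∘ (Equiv.mulLeft τ w : Perm (Fin N)) := by
    funext x; simp
  rw [h1, smul_smul]
  congr 1
  have h2 : (Perm.sign τ : ℤˣ) * (Perm.sign ((Equiv.mulLeft τ) w)) = Perm.sign w := by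
    rw [Equiv.coe_mulLeft, Perm.sign_mul, ← mul_assoc, Int.units_mul_self, one_mul]
  rw [← h2]
  push_cast
  ring

theorem Dual_alt_not_injective {N : ℕ} (α : Fin N → ℕ) (h : ¬ Function.Injective α) :
    alt α = 0 := by
  unfold Function.Injective at h
  push Not at h
  obtain ⟨i, j, hij, hne⟩ := h
  have h1 : α ∘ (Equiv.swap i j) = α := by
    funext x
    simp only [Function.comp_apply]
    by_cases hx : x = i
    · subst hx; rw [Equiv.swap_apply_left]; exact hij.symm
    · by_cases hx' : x = j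
      · subst hx'; rw [Equiv.swap_apply_right]; exact hij
      · rw [Equiv.swap_apply_of_ne_of_ne hx hx']
  have h2 := Dual_alt_perm α (Equiv.swap i j)
  rw [h1, Perm.sign_swap hne] at h2
  simp only [Units.val_neg, Units.val_one, neg_smul, one_smul] at h2
  have h3 : (2 : ℤ) • alt α = 0 := by
    rw [two_smul]
    nth_rw 1 [h2]
    exact neg_add_cancel _
  rcases smul_eq_zero.1 h3 with h4 | h4
  · norm_num at h4
  · exact h4

theorem Dual_psum_mul_alt {N : ℕ} (α : Fin N → ℕ) (s : ℕ) :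
    MvPolynomial.psum (Fin N) ℤ s * alt α = ∑ j, alt (α + Pi.single j s) := by
  unfold MvPolynomial.psum alt
  rw [Finset.sum_mul_sum, Finset.sum_comm]
  conv_rhs => rw [Finset.sum_comm]
  refine Finset.sum_congr rfl fun w _ => ?_
  refine Fintype.sum_equiv w _ _ ?_
  intro i
  rw [mul_smul_comm]
  congr 1
  have h1 : (MvPolynomial.X i ^ s : MvPolynomial (Fin N) ℤ) =
      MvPolynomial.monomial (toF (Pi.single i s)) 1 := by
    rw [MvPolynomial.X_pow_eq_monomial]
    congr 1
    ext x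
    simp [toF, eq_comm]
  rw [h1, MvPolynomial.monomial_mul, one_mul]
  have h2 : toF (Pi.single i s) + toF (α ∘ w) = toF ((α + Pi.single (w i) s) ∘ w) := by
    ext x
    simp only [toF, Finsupp.coe_add, Pi.add_apply, Finsupp.equivFunOnFinite_symm_apply_apply,
      Function.comp_apply, Pi.single_apply, EmbeddingLike.apply_eq_iff_eq]
    rw [add_comm]
  rw [h2]

theorem Dual_strictAnti {N : ℕ} (γ : Fin N → ℕ) (h : StrictAnti γ) :
    ∀ (k : ℕ) (a b : Fin N), (b : ℕ) = a + k → γ b + k ≤ γ a := by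
  intro k
  induction k with
  | zero =>
    intro a b hab
    have : a = b := Fin.ext (by omega)
    subst this
    simp
  | succ k ih =>
    intro a b hab
    have hb := b.2
    have h1 := ih a ⟨a + k, by omega⟩ rfl
    have h2 : γ b < γ ⟨a + k, by omega⟩ := h (by
      rw [Fin.lt_def]
      simp only
      omega)
    omega

/-- the span of the alternants of degree `d + |ρ|` -/
noncomputable def Dual_A (N d : ℕ) : Submodule ℤ (MvPolynomial (Fin N) ℤ) :=
  Submodule.span ℤ ((fun ν : Fin N → ℕ => alt (ν + rho N)) '' (PAR N d : Set (Fin N → ℕ)))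

theorem Dual_mem_PAR {N n : ℕ} (lam : Fin N → ℕ) :
    lam ∈ PAR N n ↔ ∑ a, lam a = n ∧ Antitone lam := by
  unfold PAR
  simp

theorem Dual_mem_MV {N n : ℕ} (m : Fin N → ℕ) :
    m ∈ MV N n ↔ ∑ r : Fin N, ((r : ℕ) + 1) * m r = n := by
  unfold MV
  simp only [Finset.mem_filter, Fintype.mem_piFinset, Finset.mem_range, and_iff_right_iff_imp]
  intro h r
  have h1 : ((r : ℕ) + 1) * m r ≤ ∑ r : Fin N, ((r : ℕ) + 1) * m r :=
    Finset.single_le_sum (f := fun r : Fin N => ((r : ℕ) + 1) * m r) (fun _ _ => Nat.zero_le _)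
      (Finset.mem_univ r)
  have h2 : m r ≤ ((r : ℕ) + 1) * m r := Nat.le_mul_of_pos_left _ (by omega)
  omega

theorem Dual_alt_mem {N d : ℕ} (β : Fin N → ℕ) (hβ : ∑ a, β a = d + ∑ a, rho N a) :
    alt β ∈ Dual_A N d := by
  by_cases hinj : Function.Injective β
  · let τ : Perm (Fin N) := (Tuple.sort β) * Fin.revPerm
    have h1 : StrictAnti (β ∘ τ) := by
      have h2 : Antitone (β ∘ τ) := by
        intro a b hab
        have := Tuple.monotone_sort β (Fin.rev_le_rev.2 hab)
        exact this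
      exact h2.strictAnti_of_injective (hinj.comp τ.injective)
    set γ := β ∘ τ with hγ
    have h3 : ∀ a, rho N a ≤ γ a := by
      intro a
      have ha := a.2
      have := Dual_strictAnti γ h1 (N - 1 - a) a ⟨N - 1, by omega⟩ (by simp only; omega)
      unfold rho
      omega
    have h4 : alt γ ∈ Dual_A N d := by
      apply Submodule.subset_span
      refine ⟨γ - rho N, ?_, ?_⟩
      · rw [Finset.mem_coe, Dual_mem_PAR]
        constructor
        · have h5 : ∑ a, γ a = ∑ a, β a := by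
            rw [hγ]
            exact Equiv.sum_comp τ β
          have h6 : ∑ a, (γ - rho N) a + ∑ a, rho N a = ∑ a, γ a := by
            rw [← Finset.sum_add_distrib]
            refine Finset.sum_congr rfl fun a _ => ?_
            simp only [Pi.sub_apply]
            have := h3 a
            omega
          omega
        · intro a b hab
          simp only [Pi.sub_apply]
          have hb := b.2
          have := Dual_strictAnti γ h1 (b - a) a b (by
            have : (a : ℕ) ≤ b := hab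
            omega)
          have h7 : (a : ℕ) ≤ b := hab
          have h8 := h3 a
          have h9 := h3 b
          unfold rho at *
          omega
      · simp only
        congr 1
        funext a
        simp only [Pi.add_apply, Pi.sub_apply]
        have := h3 a
        omega
    have h5 := Dual_alt_perm β τ
    rw [← hγ] at h5
    have h6 : alt β = ((Perm.sign τ : ℤˣ) : ℤ) • alt γ := by
      rw [h5, smul_smul, ← Units.val_mul, Int.units_mul_self, Units.val_one, one_smul]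
    rw [h6]
    exact Submodule.smul_mem _ _ h4
  · rw [Dual_alt_not_injective β hinj]
    exact Submodule.zero_mem _

theorem Dual_psum_mem {N d s : ℕ} (f : MvPolynomial (Fin N) ℤ) (hf : f ∈ Dual_A N d) :
    MvPolynomial.psum (Fin N) ℤ s * f ∈ Dual_A N (d + s) := by
  unfold Dual_A at hf
  induction hf using Submodule.span_induction with
  | mem x hx =>
    obtain ⟨ν, hν, rfl⟩ := hx
    rw [Finset.mem_coe, Dual_mem_PAR] at hν
    simp only
    rw [Dual_psum_mul_alt]
    refine Submodule.sum_mem _ fun j _ => Dual_alt_mem _ ?_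
    simp only [Pi.add_apply, Finset.sum_add_distrib, hν.1]
    have : ∑ a, (Pi.single j s : Fin N → ℕ) a = s := by simp
    omega
  | zero => rw [mul_zero]; exact Submodule.zero_mem _
  | add x y _ _ hx hy => rw [mul_add]; exact Submodule.add_mem _ hx hy
  | smul a x _ hx => rw [mul_smul_comm]; exact Submodule.smul_mem _ _ hx

theorem Dual_psum_pow_mem {N d s : ℕ} (k : ℕ) (f : MvPolynomial (Fin N) ℤ)
    (hf : f ∈ Dual_A N d) :
    (MvPolynomial.psum (Fin N) ℤ s) ^ k * f ∈ Dual_A N (d + s * k) := by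
  induction k with
  | zero => simpa using hf
  | succ k ih =>
    rw [pow_succ', mul_assoc]
    have := Dual_psum_mem (s := s) _ ih
    rwa [add_assoc, ← mul_add_one] at this

theorem Dual_prod_mem {N : ℕ} (m : Fin N → ℕ) (S : Finset (Fin N)) :
    (∏ r ∈ S, (MvPolynomial.psum (Fin N) ℤ ((r : ℕ) + 1)) ^ m r) * alt (rho N) ∈
      Dual_A N (∑ r ∈ S, ((r : ℕ) + 1) * m r) := by
  classical
  induction S using Finset.induction_on with
  | empty =>
    rw [Finset.prod_empty, one_mul, Finset.sum_empty]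
    exact Dual_alt_mem _ (by simp)
  | insert r S hr ih =>
    rw [Finset.prod_insert hr, mul_assoc, Finset.sum_insert hr, add_comm]
    exact Dual_psum_pow_mem _ _ ih

theorem Dual_expand {N n : ℕ} (m : Fin N → ℕ) (hm : m ∈ MV N n) :
    ∃ c : (Fin N → ℕ) → ℤ, psm m * alt (rho N) = ∑ ν ∈ PAR N n, c ν • alt (ν + rho N) := by
  rw [Dual_mem_MV] at hm
  have h := Dual_prod_mem m Finset.univ
  rw [hm] at h
  unfold Dual_A at h
  rw [Submodule.mem_span_image_finset_iff_exists_fun'] at h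
  obtain ⟨c, hc⟩ := h
  exact ⟨c, hc.symm⟩

/-! ### The scalar product -/

theorem Dual_inn_eq {N : ℕ} (f g : MvPolynomial (Fin N) ℤ) (s : Finset (Fin N →₀ ℕ))
    (hs : f.support ⊆ s) :
    inn f g = ∑ c ∈ s, MvPolynomial.coeff c f * MvPolynomial.coeff c g := by
  unfold inn
  refine Finset.sum_subset hs fun c _ hc => ?_
  rw [MvPolynomial.notMem_support_iff.1 hc, zero_mul]

theorem Dual_inn_comm {N : ℕ} (f g : MvPolynomial (Fin N) ℤ) : inn f g = inn g f := by
  classical
  rw [Dual_inn_eq f g (f.support ∪ g.support) Finset.subset_union_left,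
    Dual_inn_eq g f (f.support ∪ g.support) Finset.subset_union_right]
  exact Finset.sum_congr rfl fun c _ => mul_comm _ _

theorem Dual_inn_sum_left {N : ℕ} {ι : Type*} (s : Finset ι) (c : ι → ℤ)
    (f : ι → MvPolynomial (Fin N) ℤ) (g : MvPolynomial (Fin N) ℤ) :
    inn (∑ i ∈ s, c i • f i) g = ∑ i ∈ s, c i * inn (f i) g := by
  classical
  have h1 : (∑ i ∈ s, c i • f i).support ⊆
      (∑ i ∈ s, c i • f i).support ∪ s.biUnion (fun i => (f i).support) :=
    Finset.subset_union_left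
  rw [Dual_inn_eq _ g _ h1]
  have h2 : ∀ i ∈ s, inn (f i) g = ∑ d ∈ (∑ i ∈ s, c i • f i).support ∪
      s.biUnion (fun i => (f i).support), MvPolynomial.coeff d (f i) * MvPolynomial.coeff d g := by
    intro i hi
    apply Dual_inn_eq
    exact (Finset.subset_biUnion_of_mem (fun i => (f i).support) hi).trans
      Finset.subset_union_right
  have h3 : ∑ i ∈ s, c i * inn (f i) g = ∑ i ∈ s, c i * ∑ d ∈ (∑ i ∈ s, c i • f i).support ∪
      s.biUnion (fun i => (f i).support), MvPolynomial.coeff d (f i) * MvPolynomial.coeff d g :=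
    Finset.sum_congr rfl (fun i hi => by rw [h2 i hi])
  rw [h3]
  simp only [Finset.mul_sum]
  rw [Finset.sum_comm]
  refine Finset.sum_congr rfl fun d _ => ?_
  rw [MvPolynomial.coeff_sum, Finset.sum_mul]
  refine Finset.sum_congr rfl fun i _ => ?_
  rw [MvPolynomial.coeff_smul, smul_eq_mul, mul_assoc]

theorem Dual_inn_sum_right {N : ℕ} {ι : Type*} (s : Finset ι) (c : ι → ℤ)
    (f : ι → MvPolynomial (Fin N) ℤ) (g : MvPolynomial (Fin N) ℤ) :
    inn g (∑ i ∈ s, c i • f i) = ∑ i ∈ s, c i * inn g (f i) := by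
  rw [Dual_inn_comm, Dual_inn_sum_left]
  exact Finset.sum_congr rfl fun i _ => by rw [Dual_inn_comm]

theorem Dual_alt_rho_ne_zero (N : ℕ) : alt (rho N) ≠ 0 := by
  intro h
  have h1 := inn_alt (0 : Fin N → ℕ) 0 (fun _ _ _ => le_rfl) (fun _ _ _ => le_rfl)
  rw [zero_add, h, if_pos rfl] at h1
  have h2 : inn (0 : MvPolynomial (Fin N) ℤ) 0 = 0 := by
    unfold inn
    simp
  rw [h2] at h1
  have := Nat.factorial_pos N
  omega

/-! ### Cardinalities -/

theorem Dual_tele {N : ℕ} (lam : Fin N → ℕ) (h : Antitone lam) :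
    ∀ k, k ≤ N → ∑ r ∈ (Finset.univ : Finset (Fin N)).filter (fun r : Fin N => k ≤ (r : ℕ)),
      (lam r - (if h : (r : ℕ) + 1 < N then lam ⟨(r : ℕ) + 1, h⟩ else 0)) =
      (if h : k < N then lam ⟨k, h⟩ else 0) := by
  intro k hk
  induction hk using Nat.decreasingInduction with
  | self =>
    rw [dif_neg (lt_irrefl N)]
    apply Finset.sum_eq_zero
    intro r hr
    have := r.2
    simp only [Finset.mem_filter, Finset.mem_univ, true_and] at hr
    omega
  | of_succ k hk ih =>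
    have h1 : (Finset.univ : Finset (Fin N)).filter (fun r : Fin N => k ≤ (r : ℕ)) =
        insert ⟨k, hk⟩ ((Finset.univ : Finset (Fin N)).filter (fun r : Fin N => k + 1 ≤ (r : ℕ))) := by
      ext r
      simp only [Finset.mem_filter, Finset.mem_univ, true_and, Finset.mem_insert, Fin.ext_iff]
      omega
    rw [h1, Finset.sum_insert (by simp), ih, dif_pos hk]
    simp only
    split_ifs with h2
    · have : lam ⟨k + 1, h2⟩ ≤ lam ⟨k, hk⟩ := h (by rw [Fin.le_def]; simp)
      omega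
    · omega

theorem Dual_card {N n : ℕ} : (PAR N n).card ≤ (MV N n).card := by
  classical
  refine Finset.card_le_card_of_surjOn
    (fun m : Fin N → ℕ => fun a : Fin N =>
      ∑ r ∈ (Finset.univ : Finset (Fin N)).filter (fun r : Fin N => (a : ℕ) ≤ (r : ℕ)), m r) ?_
  intro lam hlam
  rw [Finset.mem_coe, Dual_mem_PAR] at hlam
  have h1 : (fun a : Fin N =>
      ∑ r ∈ (Finset.univ : Finset (Fin N)).filter (fun r : Fin N => (a : ℕ) ≤ (r : ℕ)),
        (lam r - (if h : (r : ℕ) + 1 < N then lam ⟨(r : ℕ) + 1, h⟩ else 0))) = lam := by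
    funext a
    rw [Dual_tele lam hlam.2 a a.2.le, dif_pos a.2]
  refine ⟨fun r : Fin N => lam r - (if h : (r : ℕ) + 1 < N then lam ⟨(r : ℕ) + 1, h⟩ else 0),
    ?_, h1⟩
  refine Finset.mem_coe.2 ((Dual_mem_MV _).2 ?_)
  rw [← hlam.1]
  conv_rhs => rw [← h1]
  simp only [Finset.sum_filter]
  rw [Finset.sum_comm]
  refine Finset.sum_congr rfl fun r _ => ?_
  rw [← Finset.sum_filter, Finset.sum_const, smul_eq_mul]
  congr 1
  have h2 : (Finset.univ : Finset (Fin N)).filter (fun a : Fin N => (a : ℕ) ≤ (r : ℕ)) =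
      Finset.Iic r := by
    ext a
    rw [Finset.mem_filter, Finset.mem_Iic, Fin.le_def]
    exact ⟨fun h => h.2, fun h => ⟨Finset.mem_univ _, h⟩⟩
  rw [h2, Fin.card_Iic]

/-! ### The matrix argument -/

theorem Dual_matrix {ι κ : Type*} [Fintype ι] [Fintype κ] [DecidableEq ι] [DecidableEq κ]
    (hc : Fintype.card ι ≤ Fintype.card κ) (X : Matrix ι κ ℚ) (z : κ → ℚ) (hz : ∀ m, z m ≠ 0)
    (h : Matrix.transpose X * X = Matrix.diagonal z) :
    X * Matrix.diagonal (fun m => (z m)⁻¹) * Matrix.transpose X = 1 := by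
  have h1 : (Matrix.diagonal (fun m => (z m)⁻¹) * Matrix.transpose X) * X = 1 := by
    rw [Matrix.mul_assoc, h, Matrix.diagonal_mul_diagonal]
    have : (fun i => (z i)⁻¹ * z i) = fun _ => (1 : ℚ) := by
      funext i; exact inv_mul_cancel₀ (hz i)
    rw [this]
    exact Matrix.diagonal_one
  rw [Matrix.mul_assoc]
  have hle : Fintype.card κ ≤ Fintype.card ι := by
    by_contra hlt
    push Not at hlt
    have := Matrix.rank_one (R := ℚ) (n := κ)
    rw [← h1] at this
    have h2 : ((Matrix.diagonal (fun m => (z m)⁻¹) * Matrix.transpose X) * X).rank ≤ X.rank :=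
      Matrix.rank_mul_le_right _ _
    have h3 : X.rank ≤ Fintype.card ι := Matrix.rank_le_card_height X
    omega
  exact (Matrix.mul_eq_one_comm_of_card_eq _ _ _ (le_antisymm hle hc)).1 h1

theorem dual_one {N n : ℕ} (hn : n ≤ N)
    (B : MvPolynomial (Fin N) ℤ →+ (MvPolynomial (Fin N) ℤ →+ ℚ)) :
    ∑ lam ∈ PAR N n, B (schur1 lam) (schur1 lam)
      = ∑ m ∈ MV N n, (1 / (zz m : ℚ)) * B (psm m) (psm m) := by
  classical
  have hex : ∀ m : Fin N → ℕ, ∃ c : (Fin N → ℕ) → ℤ, m ∈ MV N n →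
      psm m * alt (rho N) = ∑ ν ∈ PAR N n, c ν • alt (ν + rho N) := by
    intro m
    by_cases hm : m ∈ MV N n
    · obtain ⟨c, hc⟩ := Dual_expand m hm
      exact ⟨c, fun _ => hc⟩
    · exact ⟨0, fun h => absurd h hm⟩
  choose χ hχ using hex
  -- expansion of the power sums
  have hp : ∀ m ∈ MV N n, psm m = ∑ ν ∈ PAR N n, χ m ν • schur1 ν := by
    intro m hm
    have h1 : alt (rho N) * psm m = alt (rho N) * ∑ ν ∈ PAR N n, χ m ν • schur1 ν := by
      rw [mul_comm, hχ m hm, Finset.mul_sum]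
      refine Finset.sum_congr rfl fun ν hν => ?_
      rw [mul_smul_comm, schur1_of_antitone ν ((Dual_mem_PAR ν).1 hν).2]
    exact mul_left_cancel₀ (Dual_alt_rho_ne_zero N) h1
  -- orthogonality
  have horth : ∀ m ∈ MV N n, ∀ m' ∈ MV N n,
      ∑ ν ∈ PAR N n, χ m ν * χ m' ν = if m = m' then (zz m : ℤ) else 0 := by
    intro m hm m' hm'
    have h1 := wick m m' (by rw [(Dual_mem_MV m).1 hm]; exact hn)
      (by rw [(Dual_mem_MV m').1 hm']; exact hn)
    rw [hχ m hm, hχ m' hm', Dual_inn_sum_left] at h1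
    have h2 : ∀ ν ∈ PAR N n, χ m ν * inn (alt (ν + rho N))
        (∑ ν' ∈ PAR N n, χ m' ν' • alt (ν' + rho N)) =
        (N.factorial : ℤ) * (χ m ν * χ m' ν) := by
      intro ν hν
      rw [Dual_inn_sum_right, Finset.sum_eq_single ν]
      · rw [inn_alt ν ν ((Dual_mem_PAR ν).1 hν).2 ((Dual_mem_PAR ν).1 hν).2, if_pos rfl]
        ring
      · intro ν' hν' hne
        rw [inn_alt ν ν' ((Dual_mem_PAR ν).1 hν).2 ((Dual_mem_PAR ν').1 hν').2,
          if_neg (Ne.symm hne), mul_zero]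
      · intro h; exact absurd hν h
    rw [Finset.sum_congr rfl h2, ← Finset.mul_sum] at h1
    have h3 : (N.factorial : ℤ) ≠ 0 := by
      exact_mod_cast Nat.factorial_ne_zero N
    apply mul_left_cancel₀ h3
    rw [h1]
    split_ifs <;> simp
  -- the matrix
  obtain ⟨X, hXdef⟩ : ∃ X : Matrix (PAR N n) (MV N n) ℚ, ∀ ν m, X ν m = (χ m.1 ν.1 : ℚ) :=
    ⟨Matrix.of fun ν m => (χ m.1 ν.1 : ℚ), fun _ _ => rfl⟩
  have hz : ∀ m : (MV N n), ((zz m.1 : ℕ) : ℚ) ≠ 0 := by
    intro m
    have : zz m.1 ≠ 0 := by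
      unfold zz
      refine Finset.prod_ne_zero_iff.2 fun r _ => ?_
      exact mul_ne_zero (pow_ne_zero _ (by omega)) (Nat.factorial_ne_zero _)
    exact_mod_cast this
  have hX : Matrix.transpose X * X = Matrix.diagonal (fun m : (MV N n) => ((zz m.1 : ℕ) : ℚ)) := by
    ext m m'
    rw [Matrix.mul_apply, Matrix.diagonal_apply]
    simp only [Matrix.transpose_apply, hXdef]
    rw [Finset.sum_coe_sort (PAR N n) (fun ν => (χ m.1 ν : ℚ) * (χ m'.1 ν : ℚ))]
    have h1 := horth m.1 m.2 m'.1 m'.2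
    have h2 : (∑ ν ∈ PAR N n, (χ m.1 ν : ℚ) * (χ m'.1 ν : ℚ)) =
        ((∑ ν ∈ PAR N n, χ m.1 ν * χ m'.1 ν : ℤ) : ℚ) := by push_cast; rfl
    rw [h2, h1]
    by_cases hmm : m = m'
    · subst hmm; simp
    · rw [if_neg (fun h => hmm (Subtype.ext h)), if_neg hmm]; simp
  have hfin := Dual_matrix (by
    rw [Fintype.card_coe, Fintype.card_coe]; exact Dual_card) X
      (fun m : (MV N n) => ((zz m.1 : ℕ) : ℚ)) hz hX
  have hdual : ∀ ν ∈ PAR N n, ∀ ν' ∈ PAR N n,
      ∑ m ∈ MV N n, (1 / (zz m : ℚ)) * ((χ m ν : ℚ) * (χ m ν' : ℚ)) = if ν = ν' then 1 else 0 := by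
    intro ν hν ν' hν'
    have h1 := congrFun (congrFun hfin ⟨ν, hν⟩) ⟨ν', hν'⟩
    rw [Matrix.mul_apply, Matrix.one_apply] at h1
    simp only [Matrix.mul_diagonal, Matrix.transpose_apply, hXdef] at h1
    rw [Finset.sum_coe_sort (MV N n)
      (fun m => (χ m ν : ℚ) * ((zz m : ℕ) : ℚ)⁻¹ * (χ m ν' : ℚ))] at h1
    rw [← Finset.sum_congr rfl (fun m _ => show (χ m ν : ℚ) * ((zz m : ℕ) : ℚ)⁻¹ * (χ m ν' : ℚ) =
      (1 / (zz m : ℚ)) * ((χ m ν : ℚ) * (χ m ν' : ℚ)) by ring), h1]
    by_cases h : ν = ν'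
    · subst h; simp
    · rw [if_neg (fun h' => h (congrArg Subtype.val h')), if_neg h]
  -- conclusion
  have hB : ∀ m ∈ MV N n, B (psm m) (psm m) =
      ∑ ν ∈ PAR N n, ∑ ν' ∈ PAR N n, ((χ m ν : ℚ) * (χ m ν' : ℚ)) *
        B (schur1 ν) (schur1 ν') := by
    intro m hm
    have h1 : B (psm m) = ∑ ν ∈ PAR N n, χ m ν • B (schur1 ν) := by
      rw [hp m hm, map_sum]
      exact Finset.sum_congr rfl fun ν _ => by rw [map_zsmul]
    rw [h1, AddMonoidHom.finsetSum_apply]
    refine Finset.sum_congr rfl fun ν _ => ?_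
    rw [AddMonoidHom.zsmul_apply, hp m hm, map_sum, Finset.smul_sum]
    refine Finset.sum_congr rfl fun ν' _ => ?_
    rw [map_zsmul, zsmul_eq_mul, zsmul_eq_mul]
    ring
  have hB' : ∑ m ∈ MV N n, (1 / (zz m : ℚ)) * B (psm m) (psm m) =
      ∑ m ∈ MV N n, (1 / (zz m : ℚ)) * ∑ ν ∈ PAR N n, ∑ ν' ∈ PAR N n,
        ((χ m ν : ℚ) * (χ m ν' : ℚ)) * B (schur1 ν) (schur1 ν') :=
    Finset.sum_congr rfl (fun m hm => by rw [hB m hm])
  rw [hB']
  simp only [Finset.mul_sum]
  rw [Finset.sum_comm]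
  refine Finset.sum_congr rfl fun ν hν => ?_
  rw [Finset.sum_comm]
  rw [Finset.sum_congr rfl (g := fun ν' => (if ν = ν' then (1 : ℚ) else 0) *
    B (schur1 ν) (schur1 ν'))]
  · simp [hν]
  · intro ν' hν'
    rw [← hdual ν hν ν' hν', Finset.sum_mul]
    refine Finset.sum_congr rfl fun m _ => ?_
    ring

end TF
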