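import Pool.Agent.H66.TF.Dual

/-!
# TF-DUALK: the `K`-fold version

`∑_{lam ∈ LAM K N D} B(schurK lam, schurK lam) = ∑_{m ∈ MV N D} K^{|m|} / z_m B(p_m, p_m)`, `|m| = ∑ m r`,
for `D ≤ N`.

Induction on `K`, for all `B` and `D`. `K = 0`: both sides are `B(1,1)` if `D = 0`, else `0`
(`0^{|m|}`, `|m| > 0` if `D > 0`). Step: a `(K+1)`-tuple is `(lam₀, lam')`,
`schurK = schur1 lam₀ * schurK lam'` (`schurK_prod`); `schur1 lam₀ = 0` unless `lam₀` is antitone.
For fixed `lam₀` of total `n` apply the induction hypothesis to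
`B'(f, g) = B(schur1 lam₀ * f, schur1 lam₀ * g)`, then `dual_one` to
`B''(f, g) = B(f * p_m, g * p_m)`. The result is
`∑_{m₀, m} K^{|m|} / (z_{m₀} z_m) B(p_{m₀+m}, p_{m₀+m})`, and for fixed `m' = m₀ + m`
`∑_{m₀ + m = m'} K^{|m|} z_{m'} / (z_{m₀} z_m) = ∏_r ∑_j C(m'_r, j) K^j = (K+1)^{|m'|}`.
-/

open Finset Equiv

namespace TF

/-- weight of a multiplicity vector -/
def dkwt {N : ℕ} (m : Fin N → ℕ) : ℕ := ∑ r : Fin N, ((r : ℕ) + 1) * m r

theorem dk_mem_MV {N n : ℕ} (m : Fin N → ℕ) : m ∈ MV N n ↔ dkwt m = n := by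
  classical
  unfold MV dkwt
  rw [Finset.mem_filter, Fintype.mem_piFinset]
  refine ⟨fun h => h.2, fun h => ⟨fun r => ?_, h⟩⟩
  rw [Finset.mem_range]
  have h1 : ((r : ℕ) + 1) * m r ≤ ∑ r : Fin N, ((r : ℕ) + 1) * m r :=
    Finset.single_le_sum (f := fun r : Fin N => ((r : ℕ) + 1) * m r) (fun i _ => Nat.zero_le _)
      (Finset.mem_univ r)
  have h2 : m r ≤ ((r : ℕ) + 1) * m r := Nat.le_mul_of_pos_left _ (Nat.succ_pos _)
  omega

theorem dk_mem_LAM {K N D : ℕ} (lam : Fin K → Fin N → ℕ) :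
    lam ∈ LAM K N D ↔ ∑ i, ∑ ρ, lam i ρ = D := by
  classical
  unfold LAM
  rw [Finset.mem_filter, Fintype.mem_piFinset]
  refine ⟨fun h => h.2, fun h => ⟨fun i => ?_, h⟩⟩
  rw [Fintype.mem_piFinset]
  intro ρ
  rw [Finset.mem_range]
  have h1 : lam i ρ ≤ ∑ ρ, lam i ρ :=
    Finset.single_le_sum (f := fun ρ => lam i ρ) (fun i _ => Nat.zero_le _) (Finset.mem_univ ρ)
  have h2 : ∑ ρ, lam i ρ ≤ ∑ i, ∑ ρ, lam i ρ :=
    Finset.single_le_sum (f := fun i => ∑ ρ, lam i ρ) (fun i _ => Nat.zero_le _)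
      (Finset.mem_univ i)
  omega

theorem dkwt_add {N : ℕ} (m m' : Fin N → ℕ) : dkwt (m + m') = dkwt m + dkwt m' := by
  unfold dkwt
  rw [← Finset.sum_add_distrib]
  apply Finset.sum_congr rfl
  intro r _
  rw [Pi.add_apply]; ring

/-- `B(a f, a g)` -/
noncomputable def dkTw {N : ℕ} (a : MvPolynomial (Fin N) ℤ)
    (B : MvPolynomial (Fin N) ℤ →+ (MvPolynomial (Fin N) ℤ →+ ℚ)) :
    MvPolynomial (Fin N) ℤ →+ (MvPolynomial (Fin N) ℤ →+ ℚ) where
  toFun f := (B (a * f)).comp (AddMonoidHom.mulLeft a)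
  map_zero' := by
    ext g
    simp
  map_add' f f' := by
    ext g
    simp [mul_add]

theorem dkTw_apply {N : ℕ} (a f g : MvPolynomial (Fin N) ℤ)
    (B : MvPolynomial (Fin N) ℤ →+ (MvPolynomial (Fin N) ℤ →+ ℚ)) :
    dkTw a B f g = B (a * f) (a * g) := rfl

theorem dk_psm_add {N : ℕ} (m m' : Fin N → ℕ) : psm (m + m') = psm m * psm m' := by
  unfold psm
  rw [← Finset.prod_mul_distrib]
  apply Finset.prod_congr rfl
  intro r _
  rw [Pi.add_apply, pow_add]

theorem dk_psm_zero {N : ℕ} : psm (0 : Fin N → ℕ) = 1 := by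
  unfold psm
  apply Finset.prod_eq_one
  intro r _
  simp

theorem dk_split {K N D : ℕ} (F : (Fin (K + 1) → Fin N → ℕ) → ℚ) :
    ∑ lam ∈ LAM (K + 1) N D, F lam =
      ∑ p ∈ Finset.HasAntidiagonal.antidiagonal D, ∑ l ∈ Finset.piAntidiag (univ : Finset (Fin N)) p.1,
        ∑ lam' ∈ LAM K N p.2, F (Fin.cons l lam') := by
  classical
  have h1 : ∀ p ∈ Finset.HasAntidiagonal.antidiagonal D, ∑ l ∈ Finset.piAntidiag (univ : Finset (Fin N)) p.1,
        ∑ lam' ∈ LAM K N p.2, F (Fin.cons l lam') =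
      ∑ x ∈ Finset.piAntidiag (univ : Finset (Fin N)) p.1 ×ˢ LAM K N p.2,
        F (Fin.cons x.1 x.2) := by
    intro p _
    rw [Finset.sum_product]
  rw [Finset.sum_congr rfl h1, Finset.sum_sigma']
  refine Finset.sum_bij' (fun lam _ => ⟨(∑ ρ, lam 0 ρ, ∑ i : Fin K, ∑ ρ, lam i.succ ρ),
      (lam 0, fun i => lam i.succ)⟩)
    (fun x _ => Fin.cons x.2.1 x.2.2) ?_ ?_ ?_ ?_ ?_
  · intro lam hlam
    rw [dk_mem_LAM, Fin.sum_univ_succ] at hlam
    rw [Finset.mem_sigma, Finset.HasAntidiagonal.mem_antidiagonal, Finset.mem_product, Finset.mem_piAntidiag,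
      dk_mem_LAM]
    exact ⟨hlam, ⟨rfl, fun i _ => Finset.mem_univ i⟩, rfl⟩
  · rintro ⟨p, l, lam'⟩ hx
    rw [Finset.mem_sigma, Finset.HasAntidiagonal.mem_antidiagonal, Finset.mem_product, Finset.mem_piAntidiag,
      dk_mem_LAM] at hx
    obtain ⟨h1, ⟨h2, _⟩, h3⟩ := hx
    rw [dk_mem_LAM, Fin.sum_univ_succ]
    simp only [Fin.cons_zero, Fin.cons_succ]
    simp only at h1 h2 h3
    rw [h2, h3, h1]
  · intro lam _
    funext i
    refine Fin.cases ?_ (fun j => ?_) i <;> simp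
  · rintro ⟨⟨p1, p2⟩, l, lam'⟩ hx
    rw [Finset.mem_sigma, Finset.HasAntidiagonal.mem_antidiagonal, Finset.mem_product, Finset.mem_piAntidiag,
      dk_mem_LAM] at hx
    obtain ⟨h1, ⟨h2, _⟩, h3⟩ := hx
    simp only at h1 h2 h3
    subst h2 h3
    simp only [Fin.cons_zero, Fin.cons_succ]
  · intro lam _
    congr 1
    funext i
    refine Fin.cases ?_ (fun j => ?_) i <;> simp

theorem dk_reindex {N D : ℕ} (Φ : (Fin N → ℕ) → (Fin N → ℕ) → ℚ) :
    ∑ p ∈ Finset.HasAntidiagonal.antidiagonal D, ∑ m ∈ MV N p.2, ∑ m0 ∈ MV N p.1, Φ m0 m =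
      ∑ m' ∈ MV N D, ∑ m0 ∈ Fintype.piFinset (fun r : Fin N => Finset.range (m' r + 1)),
        Φ m0 (m' - m0) := by
  classical
  have h1 : ∀ p ∈ Finset.HasAntidiagonal.antidiagonal D, ∑ m ∈ MV N p.2, ∑ m0 ∈ MV N p.1, Φ m0 m =
      ∑ x ∈ MV N p.2 ×ˢ MV N p.1, Φ x.2 x.1 := by
    intro p _
    rw [Finset.sum_product]
  rw [Finset.sum_congr rfl h1, Finset.sum_sigma', Finset.sum_sigma']
  refine Finset.sum_bij' (fun x _ => ⟨x.2.2 + x.2.1, x.2.2⟩)
    (fun y _ => ⟨(dkwt y.2, dkwt (y.1 - y.2)), (y.1 - y.2, y.2)⟩) ?_ ?_ ?_ ?_ ?_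
  · rintro ⟨⟨p1, p2⟩, m, m0⟩ hx
    rw [Finset.mem_sigma, Finset.HasAntidiagonal.mem_antidiagonal, Finset.mem_product, dk_mem_MV, dk_mem_MV] at hx
    obtain ⟨h1, h2, h3⟩ := hx
    simp only at h1 h2 h3
    rw [Finset.mem_sigma, dk_mem_MV, Fintype.mem_piFinset]
    refine ⟨?_, fun r => ?_⟩
    · simp only [dkwt_add]; omega
    · simp only [Pi.add_apply, Finset.mem_range]; omega
  · rintro ⟨m', m0⟩ hy
    rw [Finset.mem_sigma, dk_mem_MV, Fintype.mem_piFinset] at hy
    obtain ⟨h1, h2⟩ := hy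
    simp only at h1 h2
    rw [Finset.mem_sigma, Finset.HasAntidiagonal.mem_antidiagonal, Finset.mem_product, dk_mem_MV, dk_mem_MV]
    refine ⟨?_, rfl, rfl⟩
    simp only
    rw [← dkwt_add, ← h1]
    congr 1
    funext r
    have := Finset.mem_range.mp (h2 r)
    simp only [Pi.add_apply, Pi.sub_apply]
    omega
  · rintro ⟨⟨p1, p2⟩, m, m0⟩ hx
    rw [Finset.mem_sigma, Finset.HasAntidiagonal.mem_antidiagonal, Finset.mem_product, dk_mem_MV, dk_mem_MV] at hx
    obtain ⟨h1, h2, h3⟩ := hx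
    simp only at h1 h2 h3
    have e : m0 + m - m0 = m := by
      funext r
      simp
    simp only [e]
    subst h2 h3
    rfl
  · rintro ⟨m', m0⟩ hy
    rw [Finset.mem_sigma, dk_mem_MV, Fintype.mem_piFinset] at hy
    obtain ⟨h1, h2⟩ := hy
    simp only at h1 h2
    have e : m0 + (m' - m0) = m' := by
      funext r
      have := Finset.mem_range.mp (h2 r)
      simp only [Pi.add_apply, Pi.sub_apply]
      omega
    simp only [e]
  · rintro ⟨⟨p1, p2⟩, m, m0⟩ _
    have e : m0 + m - m0 = m := by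
      funext r
      simp
    simp only [e]

theorem dk_binom (K n r : ℕ) :
    ∑ j ∈ Finset.range (n + 1), (K : ℚ) ^ (n - j) /
      ((((r : ℚ) + 1) ^ j * (j.factorial : ℚ)) * (((r : ℚ) + 1) ^ (n - j) * ((n - j).factorial : ℚ))) =
      ((K : ℚ) + 1) ^ n / (((r : ℚ) + 1) ^ n * (n.factorial : ℚ)) := by
  rw [eq_div_iff (by positivity), Finset.sum_mul]
  have hb := add_pow (1 : ℚ) (K : ℚ) n
  rw [add_comm (1 : ℚ) (K : ℚ)] at hb
  rw [hb]
  apply Finset.sum_congr rfl
  intro j hj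
  have hj' : j ≤ n := by
    have := Finset.mem_range.mp hj
    omega
  have h1 : (n.choose j : ℚ) * (j.factorial : ℚ) * ((n - j).factorial : ℚ) = n.factorial := by
    exact_mod_cast Nat.choose_mul_factorial_mul_factorial hj'
  have h2 : ((r : ℚ) + 1) ^ n = ((r : ℚ) + 1) ^ j * ((r : ℚ) + 1) ^ (n - j) := by
    rw [← pow_add]; congr 1; omega
  have p1 : (j.factorial : ℚ) ≠ 0 := by exact_mod_cast (Nat.factorial_ne_zero j)
  have p2 : ((n - j).factorial : ℚ) ≠ 0 := by exact_mod_cast (Nat.factorial_ne_zero (n - j))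
  have p3 : ((r : ℚ) + 1) ≠ 0 := by positivity
  rw [h2, ← h1, one_pow]
  field_simp

theorem dk_conv {N : ℕ} (K : ℕ) (m' : Fin N → ℕ) :
    ∑ m0 ∈ Fintype.piFinset (fun r : Fin N => Finset.range (m' r + 1)),
      (K : ℚ) ^ (∑ r, (m' - m0) r) / ((zz m0 : ℚ) * (zz (m' - m0) : ℚ)) =
      ((K : ℚ) + 1) ^ (∑ r, m' r) / (zz m' : ℚ) := by
  have h1 : ∀ m0 ∈ Fintype.piFinset (fun r : Fin N => Finset.range (m' r + 1)),
      (K : ℚ) ^ (∑ r, (m' - m0) r) / ((zz m0 : ℚ) * (zz (m' - m0) : ℚ)) =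
      ∏ r : Fin N, ((K : ℚ) ^ (m' r - m0 r) /
        (((((r : ℕ) : ℚ) + 1) ^ (m0 r) * ((m0 r).factorial : ℚ)) *
          ((((r : ℕ) : ℚ) + 1) ^ (m' r - m0 r) * ((m' r - m0 r).factorial : ℚ)))) := by
    intro m0 _
    rw [Finset.prod_div_distrib, Finset.prod_mul_distrib, Finset.prod_pow_eq_pow_sum]
    unfold zz
    push_cast
    rfl
  rw [Finset.sum_congr rfl h1]
  have h2 := Finset.prod_univ_sum (t := fun r : Fin N => Finset.range (m' r + 1))
    (f := fun (r : Fin N) (j : ℕ) => (K : ℚ) ^ (m' r - j) /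
        (((((r : ℕ) : ℚ) + 1) ^ j * (j.factorial : ℚ)) *
          ((((r : ℕ) : ℚ) + 1) ^ (m' r - j) * ((m' r - j).factorial : ℚ))))
  rw [← h2]
  have h3 : ∀ r : Fin N, ∑ j ∈ Finset.range (m' r + 1), (K : ℚ) ^ (m' r - j) /
        (((((r : ℕ) : ℚ) + 1) ^ j * (j.factorial : ℚ)) *
          ((((r : ℕ) : ℚ) + 1) ^ (m' r - j) * ((m' r - j).factorial : ℚ))) =
      ((K : ℚ) + 1) ^ (m' r) / ((((r : ℕ) : ℚ) + 1) ^ (m' r) * ((m' r).factorial : ℚ)) :=
    fun r => dk_binom K (m' r) r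
  rw [Finset.prod_congr rfl (fun r _ => h3 r), Finset.prod_div_distrib,
    Finset.prod_pow_eq_pow_sum]
  unfold zz
  push_cast
  rfl

theorem dual_K {K N D : ℕ} (hD : D ≤ N)
    (B : MvPolynomial (Fin N) ℤ →+ (MvPolynomial (Fin N) ℤ →+ ℚ)) :
    ∑ lam ∈ LAM K N D, B (schurK lam) (schurK lam)
      = ∑ m ∈ MV N D, ((K : ℚ) ^ (∑ r, m r) / (zz m : ℚ)) * B (psm m) (psm m) := by
  classical
  induction K generalizing D B with
  | zero =>
    rcases Nat.eq_zero_or_pos D with hD0 | hD0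
    · subst hD0
      have h1 : LAM 0 N 0 = {fun i => Fin.elim0 i} := by
        ext lam
        rw [dk_mem_LAM, Finset.mem_singleton]
        constructor
        · intro _
          funext i
          exact Fin.elim0 i
        · intro _
          simp
      have h2 : MV N 0 = {0} := by
        ext m
        rw [dk_mem_MV, Finset.mem_singleton]
        constructor
        · intro h
          unfold dkwt at h
          rw [Finset.sum_eq_zero_iff] at h
          funext r
          have := h r (Finset.mem_univ r)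
          simpa using this
        · rintro rfl
          simp [dkwt]
      have h3 : schurK (fun i : Fin 0 => (Fin.elim0 i : Fin N → ℕ)) = 1 := by
        rw [schurK_prod]; simp
      rw [h1, h2, Finset.sum_singleton, Finset.sum_singleton, h3, dk_psm_zero]
      simp [zz]
    · have h1 : LAM 0 N D = ∅ := by
        ext lam
        rw [dk_mem_LAM]
        simp
        omega
      rw [h1, Finset.sum_empty]
      symm
      apply Finset.sum_eq_zero
      intro m hm
      rw [dk_mem_MV] at hm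
      have h2 : ∑ r, m r ≠ 0 := by
        intro h
        rw [Finset.sum_eq_zero_iff] at h
        unfold dkwt at hm
        have : ∑ r : Fin N, ((r : ℕ) + 1) * m r = 0 := by
          apply Finset.sum_eq_zero
          intro r hr
          rw [h r hr, mul_zero]
        omega
      rw [Nat.cast_zero, zero_pow h2]
      simp
  | succ K ih =>
    rw [dk_split]
    have step : ∀ p ∈ Finset.HasAntidiagonal.antidiagonal D,
        ∑ l ∈ Finset.piAntidiag (univ : Finset (Fin N)) p.1,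
          ∑ lam' ∈ LAM K N p.2, B (schurK (Fin.cons l lam' : Fin (K + 1) → Fin N → ℕ))
            (schurK (Fin.cons l lam' : Fin (K + 1) → Fin N → ℕ)) =
        ∑ m ∈ MV N p.2, ∑ m0 ∈ MV N p.1,
          ((K : ℚ) ^ (∑ r, m r) / ((zz m0 : ℚ) * (zz m : ℚ))) *
            B (psm (m0 + m)) (psm (m0 + m)) := by
      intro p hp
      rw [Finset.HasAntidiagonal.mem_antidiagonal] at hp
      have hs : ∀ (l : Fin N → ℕ) (lam' : Fin K → Fin N → ℕ),
          schurK (Fin.cons l lam' : Fin (K + 1) → Fin N → ℕ) = schur1 l * schurK lam' := by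
        intro l lam'
        rw [schurK_prod, schurK_prod lam', Fin.prod_univ_succ]
        simp
      have h1 : ∀ l : Fin N → ℕ, ∑ lam' ∈ LAM K N p.2,
          B (schurK (Fin.cons l lam' : Fin (K + 1) → Fin N → ℕ))
            (schurK (Fin.cons l lam' : Fin (K + 1) → Fin N → ℕ)) =
          ∑ m ∈ MV N p.2, ((K : ℚ) ^ (∑ r, m r) / (zz m : ℚ)) *
            B (schur1 l * psm m) (schur1 l * psm m) := by
        intro l
        have := ih (D := p.2) (by omega) (dkTw (schur1 l) B)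
        simp only [dkTw_apply] at this
        rw [← this]
        apply Finset.sum_congr rfl
        intro lam' _
        rw [hs]
      rw [Finset.sum_congr rfl (fun l _ => h1 l), Finset.sum_comm]
      apply Finset.sum_congr rfl
      intro m _
      rw [← Finset.mul_sum]
      have h2 : ∑ l ∈ Finset.piAntidiag (univ : Finset (Fin N)) p.1,
          B (schur1 l * psm m) (schur1 l * psm m) =
          ∑ l ∈ PAR N p.1, B (schur1 l * psm m) (schur1 l * psm m) := by
        unfold PAR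
        rw [Finset.sum_filter]
        apply Finset.sum_congr rfl
        intro l _
        split_ifs with h
        · rfl
        · rw [schur1_of_not_antitone l h]
          simp
      have h3 := dual_one (N := N) (n := p.1) (by omega) (dkTw (psm m) B)
      simp only [dkTw_apply] at h3
      rw [h2]
      have h4 : ∑ l ∈ PAR N p.1, B (schur1 l * psm m) (schur1 l * psm m) =
          ∑ l ∈ PAR N p.1, B (psm m * schur1 l) (psm m * schur1 l) := by
        apply Finset.sum_congr rfl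
        intro l _
        rw [mul_comm (schur1 l)]
      rw [h4, h3, Finset.mul_sum]
      apply Finset.sum_congr rfl
      intro m0 _
      rw [dk_psm_add, mul_comm (psm m0) (psm m)]
      have p1 : (zz m0 : ℚ) ≠ 0 := by
        have : zz m0 ≠ 0 := by
          unfold zz
          apply Finset.prod_ne_zero_iff.mpr
          intro r _
          positivity
        exact_mod_cast this
      have p2 : (zz m : ℚ) ≠ 0 := by
        have : zz m ≠ 0 := by
          unfold zz
          apply Finset.prod_ne_zero_iff.mpr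
          intro r _
          positivity
        exact_mod_cast this
      field_simp
    rw [Finset.sum_congr rfl step, dk_reindex (fun m0 m =>
      ((K : ℚ) ^ (∑ r, m r) / ((zz m0 : ℚ) * (zz m : ℚ))) * B (psm (m0 + m)) (psm (m0 + m)))]
    apply Finset.sum_congr rfl
    intro m' _
    have h5 : ∀ m0 ∈ Fintype.piFinset (fun r : Fin N => Finset.range (m' r + 1)),
        ((K : ℚ) ^ (∑ r, (m' - m0) r) / ((zz m0 : ℚ) * (zz (m' - m0) : ℚ))) *
          B (psm (m0 + (m' - m0))) (psm (m0 + (m' - m0))) =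
        ((K : ℚ) ^ (∑ r, (m' - m0) r) / ((zz m0 : ℚ) * (zz (m' - m0) : ℚ))) *
          B (psm m') (psm m') := by
      intro m0 hm0
      have e : m0 + (m' - m0) = m' := by
        funext r
        have := Finset.mem_range.mp (Fintype.mem_piFinset.mp hm0 r)
        simp only [Pi.add_apply, Pi.sub_apply]
        omega
      rw [e]
    rw [Finset.sum_congr rfl h5, ← Finset.sum_mul, dk_conv]
    push_cast
    rfl

end TF
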