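import Mathlib

/-!
# Statement of MP_d53c66_al, Q2: definitions

Rings are associative, not necessarily unital; ring homomorphisms need not preserve a unit.
-/

universe u v

namespace TF

/-- The free ring `ℤ⟨X⟩` (polynomials without constant term in noncommuting variables from `X`): the
non-unital semigroup ring over `ℤ` of the free semigroup on `X`. -/
abbrev FreeRng (X : Type u) : Type u := MonoidAlgebra ℤ (FreeSemigroup X)

/-- `R` satisfies `f`: `f` vanishes under every substitution of elements of `R` for the variables. -/
def Satisfies (R : Type v) [NonUnitalRing R] {X : Type u} (f : FreeRng X) : Prop :=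
  ∀ φ : FreeRng X →ₙ+* R, φ f = 0

/-- `R` is a PI ring: it satisfies some `f` (in countably many variables) having at least one
coefficient equal to `1` or `-1`. -/
def IsPIRing (R : Type v) [NonUnitalRing R] : Prop :=
  ∃ f : FreeRng ℕ, (∃ w, f.coeff w = 1 ∨ f.coeff w = -1) ∧ Satisfies R f

/-- `R` is in the variety defined by the set `S` of identities. -/
def InVariety (S : Set (FreeRng ℕ)) (R : Type v) [NonUnitalRing R] : Prop :=
  ∀ f ∈ S, Satisfies R f

/-- The polynomials on `X` satisfied by every ring of the variety defined by `S`. -/
def TVariety (S : Set (FreeRng ℕ)) (X : Type u) : Set (FreeRng X) :=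
  {f | ∀ (R : Type u) [NonUnitalRing R], InVariety S R → Satisfies R f}

/-- `A` is (isomorphic to) the free ring `F_X(V) = ℤ⟨X⟩ / T(V)` of the variety `V` defined by `S`. -/
def IsFreeOf (S : Set (FreeRng ℕ)) (X : Type u) (A : Type u) [NonUnitalRing A] : Prop :=
  ∃ π : FreeRng X →ₙ+* A, Function.Surjective π ∧ ∀ f, π f = 0 ↔ f ∈ TVariety S X

/-- `A` is a free PI ring: a PI ring which is a free ring of some variety on some nonempty set. -/
def IsFreePIRing (A : Type u) [NonUnitalRing A] : Prop :=
  IsPIRing A ∧ ∃ (X : Type u) (_ : Nonempty X) (S : Set (FreeRng ℕ)), IsFreeOf S X A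

end TF
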