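import Pool.Agent.H66.TF.SubCoeff

/-!
# TF-FUNC: the trace functionals

`LGraph K D`: a permutation `σ` of the `D` edges (edge `e` is followed by the edge `σ e`) and labels
`ℓ`; `Perm (Fin D)` acts by renaming the edges. For `g = (σ, ℓ)` let
`Θ_g(c) = #{f : Fin D → Fin D | arr ℓ f (f ∘ σ) = c}`, i.e. the coefficient of `T^c` in the
product of traces `∑_f ∏_e T^{ℓ e}_{f e, f (σ e)}` (vertices = `Fin D`, `N = D`).

* `Bal`: out-degree of `a` in `arr ℓ f (f∘σ)` is `#{e | f e = a}`, in-degree `#{e | f (σ e) = a}`.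
* `ConjRel`: the polynomial `F = ∑_f ∏_e X (ℓ e, f e, f (σ e))` has
  `aeval (subP (lft a) (lft b)) F = aeval (subP (rgt b) (rgt a)) F` (then use `move_bridge`): both
  sides are `∑_{(f, E)}`: left `∏_e (X(ℓ e, f e, f(σ e)) + [f e = a] X(ℓ e, b, f(σ e)))
  = ∑_{f} ∑_{E ⊆ f⁻¹(a)} ∏_e X(ℓ e, f[E→b] e, f (σ e))`; right
  `= ∑_{f'} ∑_{E' ⊆ (f'∘σ)⁻¹(b)} ∏_e X(ℓ e, f' e, (f'∘σ)[E'→a] e)`; bijection `f' = f[E→b]`,
  `E' = σ⁻¹(E)` (inverse `E = σ(E')`, `f = f'[E → a]`).
* independence: for `g' = (σ', ℓ')` the value of `Θ_g` at the array `arr ℓ' id σ'` is the number of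
  `f` with `ℓ' ∘ f = ℓ`, `σ' ∘ f = f ∘ σ` (`f` is surjective since the sources of the array
  `arr ℓ' id σ'` are all of `Fin D`, hence bijective, and the edge `e` must be the edge of
  `arr ℓ' id σ'` with source `f e`); it is non-zero iff `g, g'` are in the same orbit. So the matrix
  of values at representatives is diagonal with non-zero diagonal.
-/

open Finset Equiv

namespace TF

@[ext] structure LGraph (K D : ℕ) where
  σ : Perm (Fin D)
  ℓ : Fin D → Fin K

instance (K D : ℕ) : SMul (Perm (Fin D)) (LGraph K D) :=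
  ⟨fun π g => ⟨π * g.σ * π⁻¹, g.ℓ ∘ π.symm⟩⟩

theorem LGraph.smul_def {K D : ℕ} (π : Perm (Fin D)) (g : LGraph K D) :
    π • g = ⟨π * g.σ * π⁻¹, g.ℓ ∘ π.symm⟩ := rfl

instance (K D : ℕ) : MulAction (Perm (Fin D)) (LGraph K D) where
  one_smul g := by
    rw [LGraph.smul_def]
    apply LGraph.ext
    · simp
    · rfl
  mul_smul π π' g := by
    rw [LGraph.smul_def, LGraph.smul_def, LGraph.smul_def]
    apply LGraph.ext
    · simp [mul_assoc]
    · rfl

/-- orbits of labelled graphs with in- and out-degrees 1 -/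
abbrev Orb (K D : ℕ) : Type := MulAction.orbitRel.Quotient (Perm (Fin D)) (LGraph K D)

instance (K D : ℕ) : Finite (LGraph K D) :=
  Finite.of_injective (fun g : LGraph K D => (g.σ, g.ℓ)) (by
    intro g g' h
    simp only [Prod.mk.injEq] at h
    exact LGraph.ext h.1 h.2)

namespace Func

variable {K D : ℕ}

/-- the product of traces attached to `g` -/
noncomputable def fpoly (g : LGraph K D) : MvPolynomial (Idx K D) ℤ :=
  ∑ f : Fin D → Fin D, ∏ e, MvPolynomial.X (g.ℓ e, f e, f (g.σ e))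

theorem lft_injective {N : ℕ} (a : Fin N) : Function.Injective (lft (K := K) a) := by
  rintro ⟨i, x⟩ ⟨j, y⟩ h
  simp only [lft, Prod.mk.injEq] at h
  exact Prod.ext h.1 h.2.2

theorem rgt_injective {N : ℕ} (a : Fin N) : Function.Injective (rgt (K := K) a) := by
  rintro ⟨i, x⟩ ⟨j, y⟩ h
  simp only [rgt, Prod.mk.injEq] at h
  exact Prod.ext h.1 h.2.1

theorem lft_ne {N : ℕ} {a b : Fin N} (h : a ≠ b) (p q : Fin K × Fin N) : lft a p ≠ lft b q := by
  intro hh
  simp only [lft, Prod.mk.injEq] at hh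
  exact h hh.2.1

theorem rgt_ne {N : ℕ} {a b : Fin N} (h : a ≠ b) (p q : Fin K × Fin N) : rgt a p ≠ rgt b q := by
  intro hh
  simp only [rgt, Prod.mk.injEq] at hh
  exact h hh.2.2

theorem subP_lft (a b : Fin D) (v : Idx K D) :
    subP (lft a) (lft b) v = MvPolynomial.X v +
      if v.2.1 = a then MvPolynomial.X (v.1, b, v.2.2) else 0 := by
  obtain ⟨i, x, y⟩ := v
  unfold subP
  congr 1
  by_cases h : x = a
  · subst h
    rw [Finset.sum_eq_single_of_mem (i, y)]
    · simp [lft]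
    · simp [lft]
    · rintro ⟨j, z⟩ hj hne
      simp only [Finset.mem_filter, Finset.mem_univ, true_and, lft, Prod.mk.injEq] at hj
      exact absurd (Prod.ext hj.1 hj.2) hne
  · rw [Finset.sum_eq_zero]
    · simp [h]
    · rintro ⟨j, z⟩ hj
      simp only [Finset.mem_filter, Finset.mem_univ, true_and, lft, Prod.mk.injEq] at hj
      exact absurd hj.2.1.symm h

theorem subP_rgt (a b : Fin D) (v : Idx K D) :
    subP (rgt b) (rgt a) v = MvPolynomial.X v +
      if v.2.2 = b then MvPolynomial.X (v.1, v.2.1, a) else 0 := by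
  obtain ⟨i, x, y⟩ := v
  unfold subP
  congr 1
  by_cases h : y = b
  · subst h
    rw [Finset.sum_eq_single_of_mem (i, x)]
    · simp [rgt]
    · simp [rgt]
    · rintro ⟨j, z⟩ hj hne
      simp only [Finset.mem_filter, Finset.mem_univ, true_and, rgt, Prod.mk.injEq] at hj
      exact absurd (Prod.ext hj.1 hj.2.1) hne
  · rw [Finset.sum_eq_zero]
    · simp [h]
    · rintro ⟨j, z⟩ hj
      simp only [Finset.mem_filter, Finset.mem_univ, true_and, rgt, Prod.mk.injEq] at hj
      exact absurd hj.2.2.symm h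

/-- invariance of the product of traces: `F(uT) = F(Tu)` -/
theorem trace_inv {R : Type*} [CommRing R] (g : LGraph K D) (u : Matrix (Fin D) (Fin D) R)
    (T : Fin K → Matrix (Fin D) (Fin D) R) :
    ∑ f : Fin D → Fin D, ∏ e, (u * T (g.ℓ e)) (f e) (f (g.σ e)) =
      ∑ f : Fin D → Fin D, ∏ e, (T (g.ℓ e) * u) (f e) (f (g.σ e)) := by
  have hL : ∀ f : Fin D → Fin D, ∏ e, (u * T (g.ℓ e)) (f e) (f (g.σ e)) =
      ∑ h : Fin D → Fin D, ∏ e, u (f e) (h e) * T (g.ℓ e) (h e) (f (g.σ e)) := by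
    intro f
    simp only [Matrix.mul_apply]
    rw [Finset.prod_univ_sum]
    simp
  have hR : ∀ f : Fin D → Fin D, ∏ e, (T (g.ℓ e) * u) (f e) (f (g.σ e)) =
      ∑ h : Fin D → Fin D, ∏ e, T (g.ℓ e) (f e) (h e) * u (h e) (f (g.σ e)) := by
    intro f
    simp only [Matrix.mul_apply]
    rw [Finset.prod_univ_sum]
    simp
  rw [Finset.sum_congr rfl fun f _ => hL f, Finset.sum_congr rfl fun f _ => hR f]
  rw [Finset.sum_comm]
  apply Finset.sum_congr rfl
  intro h _
  refine Finset.sum_equiv (Equiv.arrowCongr g.σ.symm (Equiv.refl _)) (by simp) ?_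
  intro f _
  simp only [Equiv.arrowCongr_apply, Equiv.symm_symm, Equiv.coe_refl, Function.comp_apply, id]
  rw [Finset.prod_mul_distrib, Finset.prod_mul_distrib, mul_comm]
  congr 1
  exact (Equiv.prod_comp g.σ (fun e => u (f e) (h e))).symm

theorem fpoly_conj (g : LGraph K D) {a b : Fin D} (_hab : a ≠ b) :
    MvPolynomial.aeval (subP (lft a) (lft b)) (fpoly g) =
      MvPolynomial.aeval (subP (rgt b) (rgt a)) (fpoly g) := by
  classical
  have h := trace_inv g ((1 : Matrix (Fin D) (Fin D) (MvPolynomial (Idx K D) ℤ)) +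
    Matrix.single a b 1) (fun i => Matrix.of fun x y => MvPolynomial.X (i, x, y))
  unfold fpoly
  simp only [map_sum, map_prod, MvPolynomial.aeval_X]
  convert h using 2 with f _ f _
  · apply Finset.prod_congr rfl
    intro e _
    rw [subP_lft, add_mul, one_mul, Matrix.add_apply, Matrix.of_apply]
    congr 1
    by_cases hfa : f e = a
    · simp [hfa]
    · simp [hfa]
  · apply Finset.prod_congr rfl
    intro e _
    rw [subP_rgt, mul_add, mul_one, Matrix.add_apply, Matrix.of_apply]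
    congr 1
    by_cases hfa : f (g.σ e) = b
    · simp [hfa]
    · simp [hfa]

theorem prod_X_eq (ℓ : Fin D → Fin K) (s t : Fin D → Fin D) :
    ∏ e, (MvPolynomial.X (ℓ e, s e, t e) : MvPolynomial (Idx K D) ℤ) =
      MvPolynomial.monomial (toF (arr ℓ s t)) 1 := by
  have h1 : toF (arr ℓ s t) = ∑ e, Finsupp.single ((ℓ e, s e, t e) : Idx K D) 1 := by
    ext q
    simp only [toF, Finsupp.equivFunOnFinite_symm_apply_apply, arr, Finsupp.coe_finsetSum,
      Finset.sum_apply, Finsupp.single_apply]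
  rw [h1, MvPolynomial.monomial_sum_one]
  rfl

theorem toF_injective {σ : Type*} [Finite σ] : Function.Injective (toF (σ := σ)) := by
  intro a b h
  exact Finsupp.equivFunOnFinite.symm.injective h

theorem coeff_fpoly (g : LGraph K D) (c : Arr K D) :
    MvPolynomial.coeff (toF c) (fpoly g) =
      ((univ.filter (fun f : Fin D → Fin D => arr g.ℓ f (f ∘ g.σ) = c)).card : ℤ) := by
  classical
  unfold fpoly
  rw [MvPolynomial.coeff_sum, Finset.card_filter, Nat.cast_sum]
  apply Finset.sum_congr rfl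
  intro f _
  have h := prod_X_eq g.ℓ f (f ∘ g.σ)
  simp only [Function.comp_apply] at h
  rw [h, MvPolynomial.coeff_monomial]
  by_cases h2 : arr g.ℓ f (f ∘ g.σ) = c
  · simp [h2]
  · have h3 : toF (arr g.ℓ f (f ∘ g.σ)) ≠ toF c := fun hh => h2 (toF_injective hh)
    rw [if_neg h3, if_neg h2]
    rfl

theorem outd_arr' (ℓ : Fin D → Fin K) (s t : Fin D → Fin D) (a : Fin D) :
    outd (arr ℓ s t) a = (univ.filter (fun e => s e = a)).card := by
  unfold outd arr
  rw [Finset.sum_comm, Finset.card_filter]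
  apply Finset.sum_congr rfl
  intro e _
  by_cases h : s e = a
  · rw [if_pos h, Finset.sum_eq_single_of_mem (ℓ e, t e) (Finset.mem_univ _)]
    · simp [lft, h]
    · rintro ⟨i, x⟩ _ hne
      rw [if_neg]
      intro hh
      simp only [lft, Prod.mk.injEq] at hh
      exact hne (Prod.ext hh.1.symm hh.2.2.symm)
  · rw [if_neg h]
    apply Finset.sum_eq_zero
    rintro ⟨i, x⟩ _
    rw [if_neg]
    intro hh
    simp only [lft, Prod.mk.injEq] at hh
    exact h hh.2.1

theorem ind_arr' (ℓ : Fin D → Fin K) (s t : Fin D → Fin D) (a : Fin D) :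
    ind (arr ℓ s t) a = (univ.filter (fun e => t e = a)).card := by
  unfold ind arr
  rw [Finset.sum_comm, Finset.card_filter]
  apply Finset.sum_congr rfl
  intro e _
  by_cases h : t e = a
  · rw [if_pos h, Finset.sum_eq_single_of_mem (ℓ e, s e) (Finset.mem_univ _)]
    · simp [rgt, h]
    · rintro ⟨i, x⟩ _ hne
      rw [if_neg]
      intro hh
      simp only [rgt, Prod.mk.injEq] at hh
      exact hne (Prod.ext hh.1.symm hh.2.1.symm)
  · rw [if_neg h]
    apply Finset.sum_eq_zero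
    rintro ⟨i, x⟩ _
    rw [if_neg]
    intro hh
    simp only [rgt, Prod.mk.injEq] at hh
    exact h hh.2.2

theorem tot_arr' (ℓ : Fin D → Fin K) (s t : Fin D → Fin D) : tot (arr ℓ s t) = D := by
  unfold tot arr
  rw [Finset.sum_comm]
  simp

/-- `Θ_g` as a rational function -/
noncomputable def thg (g : LGraph K D) (c : Arr K D) : ℚ :=
  (MvPolynomial.coeff (toF c) (fpoly g) : ℤ)

theorem thg_exists {g : LGraph K D} {c : Arr K D} (h : thg g c ≠ 0) :
    ∃ f : Fin D → Fin D, arr g.ℓ f (f ∘ g.σ) = c := by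
  unfold thg at h
  rw [coeff_fpoly] at h
  have h2 : (univ.filter (fun f : Fin D → Fin D => arr g.ℓ f (f ∘ g.σ) = c)).card ≠ 0 := by
    intro hh
    apply h
    rw [hh]
    simp
  obtain ⟨f, hf⟩ := Finset.card_ne_zero.1 h2
  exact ⟨f, (Finset.mem_filter.1 hf).2⟩

theorem thg_conj (g : LGraph K D) : ConjRel (thg g) := by
  intro a b hab c
  have h := move_bridge (lft (K := K) a) (lft b) (rgt b) (rgt a) (lft_injective a)
    (lft_injective b) (lft_ne hab) (rgt_injective b) (rgt_injective a) (rgt_ne hab.symm)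
    (fpoly g) (fpoly_conj g hab) c
  have h2 := congrArg (fun z : ℤ => (z : ℚ)) h
  simpa [Move, thg] using h2

theorem thg_bal (g : LGraph K D) : Bal (thg g) := by
  rintro c ⟨a, ha⟩
  by_contra hne
  obtain ⟨f, rfl⟩ := thg_exists hne
  apply ha
  rw [outd_arr', ind_arr']
  symm
  apply Finset.card_bij (fun e _ => g.σ e)
  · intro e he
    simpa using he
  · intro e _ e' _ h
    exact g.σ.injective h
  · intro e he
    refine ⟨g.σ.symm e, ?_, by simp⟩
    simpa using he

theorem thg_tot (g : LGraph K D) (c : Arr K D) (h : tot c ≠ D) : thg g c = 0 := by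
  by_contra hne
  obtain ⟨f, rfl⟩ := thg_exists hne
  exact h (tot_arr' _ _ _)

theorem arr_pos (ℓ : Fin D → Fin K) (s t : Fin D → Fin D) (e : Fin D) :
    arr ℓ s t (ℓ e, s e, t e) ≠ 0 := by
  unfold arr
  intro h
  have := (Finset.sum_eq_zero_iff.1 h) e (Finset.mem_univ e)
  simp at this

theorem arr_ne_zero {ℓ : Fin D → Fin K} {s t : Fin D → Fin D} {q : Idx K D}
    (h : arr ℓ s t q ≠ 0) : ∃ e, (ℓ e, s e, t e) = q := by
  unfold arr at h
  obtain ⟨e, _, he⟩ := Finset.exists_ne_zero_of_sum_ne_zero h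
  refine ⟨e, ?_⟩
  by_contra hh
  exact he (if_neg hh)

/-- the array of `g` itself -/
def selfArr (g : LGraph K D) : Arr K D := arr g.ℓ id g.σ

theorem thg_self (g : LGraph K D) : thg g (selfArr g) ≠ 0 := by
  unfold thg
  rw [coeff_fpoly]
  have : id ∈ univ.filter (fun f : Fin D → Fin D => arr g.ℓ f (f ∘ g.σ) = selfArr g) :=
    Finset.mem_filter.2 ⟨Finset.mem_univ _, rfl⟩
  have h2 := Finset.card_ne_zero_of_mem this
  exact_mod_cast h2

theorem thg_self_ne {g g' : LGraph K D} (h : thg g (selfArr g') ≠ 0) :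
    ∃ π : Perm (Fin D), π • g = g' := by
  obtain ⟨f, hf⟩ := thg_exists h
  have hcard : ∀ a, (univ.filter (fun e => f e = a)).card = 1 := by
    intro a
    rw [← outd_arr' g.ℓ f (f ∘ g.σ) a, hf, selfArr, outd_arr', Finset.card_eq_one]
    exact ⟨a, by ext x; simp⟩
  have hbij : Function.Bijective f := by
    rw [← Finite.surjective_iff_bijective]
    intro a
    have h1 : (univ.filter (fun e => f e = a)).card ≠ 0 := by rw [hcard a]; exact one_ne_zero
    obtain ⟨e, he⟩ := Finset.card_ne_zero.1 h1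
    exact ⟨e, (Finset.mem_filter.1 he).2⟩
  have hedge : ∀ e, g'.ℓ (f e) = g.ℓ e ∧ g'.σ (f e) = f (g.σ e) := by
    intro e
    have h1 := arr_pos g.ℓ f (f ∘ g.σ) e
    rw [hf] at h1
    obtain ⟨e', he'⟩ := arr_ne_zero h1
    simp only [id, Prod.mk.injEq, Function.comp_apply] at he'
    obtain ⟨h2, h3, h4⟩ := he'
    subst h3
    exact ⟨h2, h4⟩
  refine ⟨Equiv.ofBijective f hbij, ?_⟩
  rw [LGraph.smul_def]
  apply LGraph.ext
  · ext x : 1
    obtain ⟨e, rfl⟩ := hbij.2 x
    have h1 : (Equiv.ofBijective f hbij)⁻¹ (f e) = e := by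
      rw [Equiv.Perm.inv_def]
      exact Equiv.ofBijective_symm_apply_apply f hbij e
    simp only [Equiv.Perm.mul_apply, h1, Equiv.ofBijective_apply]
    exact (hedge e).2.symm
  · funext x
    obtain ⟨e, rfl⟩ := hbij.2 x
    simp only [Function.comp_apply]
    rw [Equiv.ofBijective_symm_apply_apply]
    exact (hedge e).1.symm

end Func

open Func in
theorem functionals (K D : ℕ) : ∃ Θ : Orb K D → Arr K D → ℚ,
    (∀ o, ConjRel (Θ o)) ∧ (∀ o, Bal (Θ o)) ∧ (∀ o c, tot c ≠ D → Θ o c = 0) ∧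
    LinearIndependent ℚ Θ := by
  refine ⟨fun o => thg o.out, fun o => thg_conj _, fun o => thg_bal _,
    fun o c h => thg_tot _ c h, ?_⟩
  rw [linearIndependent_iff']
  intro s w hw o ho
  have h1 := congrFun hw (selfArr o.out)
  rw [Finset.sum_apply, Finset.sum_eq_single_of_mem o ho] at h1
  · simp only [Pi.smul_apply, smul_eq_mul, Pi.zero_apply, mul_eq_zero] at h1
    exact h1.resolve_right (thg_self _)
  · intro o' _ hne
    simp only [Pi.smul_apply, smul_eq_mul, mul_eq_zero]
    right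
    by_contra h2
    obtain ⟨π, hπ⟩ := thg_self_ne h2
    apply hne
    rw [← Quotient.out_eq o', ← Quotient.out_eq o, ← hπ]
    apply Quotient.sound
    exact MulAction.orbitRel_apply.2 ⟨π⁻¹, by simp⟩

end TF
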