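import Pool.Agent.H66.TF.ArrDefs

/-!
# TF-GARNIR: the refined Garnir relation for two rows

`η (x, y)` is a function of two rows (`x` upper, `y` lower multiset of letters, the letters are the
elements of a finite linear order `ι`). Hypothesis `H`: modulo the subgroup `S`, `η` kills
`F^{(r)}(x, y) = ∑_{κ ≤ x, |κ| = r} ∏_a C(y_a + κ_a, κ_a) (x - κ, y + κ)` whenever the upper row has
`P + r` letters, `r ≥ 1` (`P` = the size of the upper row of the rows we are interested in).

Claim (`garnir_G`): for `α β γ : ι → ℕ` and `s` with `|α| + |β| = P + s` and `|α| < s`: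
`G(α,β,γ) := ∑_{β' ≤ β, |β'| = s} ∏ C(α + (β - β'), α) ∏ C(γ + β', β') η(α + (β - β'), γ + β') ∈ S`
(`β'` = the letters of `β` which go down).

Proof by strong induction on `|α|`: apply `H` to `x = α + β`, `y = γ`, `r = |α| + |β| - P = s ≥ 1`, and
multiply by `∏ C(α + β, α)`: for fixed `κ' ≤ α + β`, `|κ'| = s`,
`∏ C(α+β, α) ∏ C(γ+κ', κ') = ∑_{α'' ≤ α, β'' ≤ β, α'' + β'' = κ'} ∏ C(γ+α'', α'') ∏ C(α-α''+β-β'', α-α'')
∏ C(γ+α''+β'', β'')` (componentwise Vandermonde: `∑_{i+j=k} C(k, i) C(a+b-k, a-i) = C(a+b, a)`), so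
`∏ C(α+β,α) · F^{(s)}(α+β, γ) = ∑_{α'' ≤ α} ∏ C(γ+α'', α'') G(α-α'', β, γ+α'')`
(with `P` the same). The term `α'' = 0` is `G(α,β,γ)`; for `α'' ≠ 0` the induction hypothesis applies:
`|α - α''| < |α|` and the number of letters of `β` going down is `s - |α''| > |α| - |α''|`. For
`|α| = 0` only `α'' = 0` occurs.

`garnir`: if `(x, y)` is not good there is `j` with `∑_{a ≤ j} y_a > ∑_{a < j} x_a`. Put
`α = x` restricted to `a < j`, `β = x` restricted to `a ≥ j` plus `y` restricted to `a ≤ j`,
`γ = y` restricted to `a > j`. Then `s = |y restricted to ≤ j| > |α|`. In `G(α,β,γ)` the term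
`β' = x` restricted to `≥ j` is `η(x, y)` with coefficient 1 (disjoint supports), and every other term
`(x', y')` has `x' ≠ x` and partial sums `∑_{a ≤ l} x'_a ≥ ∑_{a ≤ l} x_a` (for `l < j` because
`x'_a ≥ α_a`; for `l ≥ j` because `∑_{a > l} x'_a ≤ ∑_{a > l} β_a = ∑_{a > l} x_a` and the totals agree).
-/

open Finset

namespace TF

section GarnirAux

variable {ι : Type*} [Fintype ι] [LinearOrder ι] {A : Type*} [AddCommGroup A]

/-- the fibre sum over pairs `(α', β')` with prescribed sum `κ` -/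
theorem garnir_sum_pair (α β : ι → ℕ) (s : ℕ) (c : ι → ℕ → ℕ → ℕ) (g : (ι → ℕ) → A) :
    ∑ α' ∈ Finset.Iic α, ∑ β' ∈ (Finset.Iic β).filter (fun β' => ∑ a, α' a + ∑ a, β' a = s),
      (∏ a, c a (α' a) (β' a)) • g (α' + β')
    = ∑ κ ∈ (Finset.Iic (α + β)).filter (fun κ => ∑ a, κ a = s),
      (∏ a, ∑ p ∈ (HasAntidiagonal.antidiagonal (κ a)).filter (fun p => p.1 ≤ α a ∧ p.2 ≤ β a),
        c a p.1 p.2) • g κ := by
  classical
  rw [Finset.sum_sigma']
  rw [← Finset.sum_fiberwise_of_maps_to (g := fun p : (Σ _ : ι → ℕ, ι → ℕ) => p.1 + p.2)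
    (t := (Finset.Iic (α + β)).filter (fun κ => ∑ a, κ a = s))]
  · apply Finset.sum_congr rfl
    intro κ hκ
    rw [Finset.prod_univ_sum, Finset.sum_smul]
    refine Finset.sum_bij' (fun p _ => fun a => (p.1 a, p.2 a))
      (fun q _ => ⟨fun a => (q a).1, fun a => (q a).2⟩) ?_ ?_ ?_ ?_ ?_
    · rintro ⟨a1, b1⟩ hp
      simp only [Finset.mem_filter, Finset.mem_sigma, Finset.mem_Iic] at hp
      simp only [Fintype.mem_piFinset, Finset.mem_filter, HasAntidiagonal.mem_antidiagonal]
      intro a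
      refine ⟨?_, hp.1.1 a, hp.1.2.1 a⟩
      rw [← hp.2]
      rfl
    · intro q hq
      simp only [Fintype.mem_piFinset, Finset.mem_filter, HasAntidiagonal.mem_antidiagonal] at hq
      simp only [Finset.mem_filter, Finset.mem_sigma, Finset.mem_Iic] at hκ ⊢
      have hs : (fun a => (q a).1) + (fun a => (q a).2) = κ := by
        funext a
        exact (hq a).1
      refine ⟨⟨fun a => (hq a).2.1, fun a => (hq a).2.2, ?_⟩, hs⟩
      rw [← Finset.sum_add_distrib, ← hκ.2, ← hs]
      rfl
    · rintro ⟨a1, b1⟩ _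
      rfl
    · intro q _
      rfl
    · rintro ⟨a1, b1⟩ hp
      simp only [Finset.mem_filter] at hp
      rw [← hp.2]
  · rintro ⟨a1, b1⟩ hp
    simp only [Finset.mem_filter, Finset.mem_sigma, Finset.mem_Iic] at hp ⊢
    refine ⟨add_le_add hp.1 hp.2.1, ?_⟩
    rw [← hp.2.2, ← Finset.sum_add_distrib]
    rfl

/-- the componentwise identity -/
theorem garnir_choose (a b c k : ℕ) (hk : k ≤ a + b) :
    ∑ p ∈ (HasAntidiagonal.antidiagonal k).filter (fun p => p.1 ≤ a ∧ p.2 ≤ b),
      (c + p.1).choose p.1 * (((a - p.1) + (b - p.2)).choose (a - p.1) *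
        (c + p.1 + p.2).choose p.2) = (a + b).choose a * (c + k).choose k := by
  have h1 : ∀ p ∈ (HasAntidiagonal.antidiagonal k).filter (fun p => p.1 ≤ a ∧ p.2 ≤ b),
      (c + p.1).choose p.1 * (((a - p.1) + (b - p.2)).choose (a - p.1) *
        (c + p.1 + p.2).choose p.2) =
      (k.choose p.1 * (a + b - k).choose (a - p.1)) * (c + k).choose k := by
    rintro ⟨i, j⟩ hp
    simp only [Finset.mem_filter, HasAntidiagonal.mem_antidiagonal] at hp
    obtain ⟨hij, hi, hj⟩ := hp
    simp only
    have e1 : (a - i) + (b - j) = a + b - k := by omega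
    rw [e1]
    have key : (c + i).choose i * (c + i + j).choose j = k.choose i * (c + k).choose k := by
      have f1 := Nat.add_choose_mul_factorial_mul_factorial c i
      have f2 := Nat.add_choose_mul_factorial_mul_factorial (c + i) j
      have f3 := Nat.add_choose_mul_factorial_mul_factorial c k
      have f4 := Nat.add_choose_mul_factorial_mul_factorial i j
      have g4 : (i + j).choose i = (i + j).choose j := Nat.choose_symm_add
      rw [← g4, hij] at f4
      have e2 : c + i + j = c + k := by omega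
      have pos : 0 < c.factorial * i.factorial * j.factorial := by positivity
      apply Nat.eq_of_mul_eq_mul_right pos
      calc (c + i).choose i * (c + i + j).choose j * (c.factorial * i.factorial * j.factorial)
          = (c + i + j).choose j * ((c + i).choose i * c.factorial * i.factorial)
              * j.factorial := by ring
        _ = (c + k).factorial := by rw [f1, f2, e2]
        _ = (c + k).choose k * c.factorial * (k.choose i * i.factorial * j.factorial) := by
            rw [f4, f3]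
        _ = _ := by ring
    calc (c + i).choose i * ((a + b - k).choose (a - i) * (c + i + j).choose j)
        = ((c + i).choose i * (c + i + j).choose j) * (a + b - k).choose (a - i) := by ring
      _ = _ := by rw [key]; ring
  rw [Finset.sum_congr rfl h1, ← Finset.sum_mul]
  congr 1
  have e3 : a + b = k + (a + b - k) := by omega
  conv_rhs => rw [e3, Nat.add_choose_eq]
  rw [← Finset.sum_filter_of_ne (p := fun p : ℕ × ℕ => p.1 ≤ k ∧ p.2 ≤ a + b - k)
    (s := HasAntidiagonal.antidiagonal a)]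
  · refine Finset.sum_bij' (fun p _ => (p.1, a - p.1)) (fun q _ => (q.1, k - q.1)) ?_ ?_ ?_ ?_ ?_
    · rintro ⟨i, j⟩ hp
      simp only [Finset.mem_filter, HasAntidiagonal.mem_antidiagonal] at hp ⊢
      omega
    · rintro ⟨i, j⟩ hp
      simp only [Finset.mem_filter, HasAntidiagonal.mem_antidiagonal] at hp ⊢
      omega
    · rintro ⟨i, j⟩ hp
      simp only [Finset.mem_filter, HasAntidiagonal.mem_antidiagonal] at hp ⊢
      ext
      · rfl
      · simp only; omega
    · rintro ⟨i, j⟩ hp
      simp only [Finset.mem_filter, HasAntidiagonal.mem_antidiagonal] at hp ⊢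
      ext
      · rfl
      · simp only; omega
    · rintro ⟨i, j⟩ hp
      rfl
  · rintro ⟨i, j⟩ _ hne
    simp only at hne ⊢
    constructor
    · by_contra hlt
      exact hne (by rw [Nat.choose_eq_zero_of_lt (by omega), zero_mul])
    · by_contra hlt
      exact hne (by rw [Nat.choose_eq_zero_of_lt (n := a + b - k) (by omega), mul_zero])

/-- the Garnir sum: `β'` is the part of `β` which goes down -/
noncomputable def garnirG (η : (ι → ℕ) → (ι → ℕ) → A) (s : ℕ) (α β γ : ι → ℕ) : A :=
  ∑ β' ∈ (Finset.Iic β).filter (fun β' => ∑ a, β' a = s),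
    (∏ a, (α a + (β a - β' a)).choose (α a) * (γ a + β' a).choose (β' a)) •
      η (α + (β - β')) (γ + β')

theorem garnir_expand (η : (ι → ℕ) → (ι → ℕ) → A) (s : ℕ) (α β γ : ι → ℕ) (hs : ∑ a, α a ≤ s) :
    (∏ a, (α a + β a).choose (α a)) •
      ∑ κ ∈ (Finset.Iic (α + β)).filter (fun κ => ∑ a, κ a = s),
        (∏ a, (γ a + κ a).choose (κ a)) • η (α + β - κ) (γ + κ)
    = ∑ α' ∈ Finset.Iic α, (∏ a, (γ a + α' a).choose (α' a)) •
        garnirG η (s - ∑ a, α' a) (α - α') β (γ + α') := by
  have h := garnir_sum_pair α β s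
    (fun a i j => (γ a + i).choose i * (((α a - i) + (β a - j)).choose (α a - i) *
        (γ a + i + j).choose j)) (fun κ => η (α + β - κ) (γ + κ))
  rw [Finset.smul_sum]
  have hR : ∀ κ ∈ (Finset.Iic (α + β)).filter (fun κ => ∑ a, κ a = s),
      (∏ a, (α a + β a).choose (α a)) • (∏ a, (γ a + κ a).choose (κ a)) • η (α + β - κ) (γ + κ) =
      (∏ a, ∑ p ∈ (HasAntidiagonal.antidiagonal (κ a)).filter (fun p => p.1 ≤ α a ∧ p.2 ≤ β a),
        (γ a + p.1).choose p.1 * (((α a - p.1) + (β a - p.2)).choose (α a - p.1) *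
        (γ a + p.1 + p.2).choose p.2)) • η (α + β - κ) (γ + κ) := by
    intro κ hκ
    simp only [Finset.mem_filter, Finset.mem_Iic] at hκ
    rw [smul_smul, ← Finset.prod_mul_distrib]
    congr 1
    apply Finset.prod_congr rfl
    intro a _
    rw [garnir_choose _ _ _ _ (hκ.1 a)]
  rw [Finset.sum_congr rfl hR, ← h]
  apply Finset.sum_congr rfl
  intro α' hα'
  rw [Finset.mem_Iic] at hα'
  have hsum : ∑ a, α' a ≤ ∑ a, α a := Finset.sum_le_sum fun a _ => hα' a
  rw [garnirG, Finset.smul_sum]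
  have hset : (Finset.Iic β).filter (fun β' => ∑ a, α' a + ∑ a, β' a = s) =
      (Finset.Iic β).filter (fun β' => ∑ a, β' a = s - ∑ a, α' a) := by
    apply Finset.filter_congr
    intro β' _
    omega
  rw [hset]
  apply Finset.sum_congr rfl
  intro β' hβ'
  simp only [Finset.mem_filter, Finset.mem_Iic] at hβ'
  rw [smul_smul, ← Finset.prod_mul_distrib]
  congr 1
  congr 1
  · funext a
    have h1 : α' a ≤ α a := hα' a
    have h2 : β' a ≤ β a := hβ'.1 a
    simp only [Pi.add_apply, Pi.sub_apply]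
    omega
  · rw [add_assoc]

theorem garnir_G (η : (ι → ℕ) → (ι → ℕ) → A) (S : AddSubgroup A) (w : ι → ℕ) (P : ℕ)
    (H : ∀ x y : ι → ℕ, x + y = w → P < ∑ a, x a →
      ∑ κ ∈ (Finset.Iic x).filter (fun κ => ∑ a, κ a = ∑ a, x a - P),
        (∏ a, (y a + κ a).choose (κ a)) • η (x - κ) (y + κ) ∈ S) :
    ∀ n : ℕ, ∀ (s : ℕ) (α β γ : ι → ℕ), ∑ a, α a = n → α + β + γ = w →
      ∑ a, α a + ∑ a, β a = P + s → ∑ a, α a < s → garnirG η s α β γ ∈ S := by
  intro n
  induction n using Nat.strong_induction_on with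
  | _ n ih =>
    intro s α β γ hn hw hP hs
    have hx : ∑ a, (α + β) a = P + s := by
      rw [← hP, ← Finset.sum_add_distrib]
      rfl
    have h := H (α + β) γ hw (by omega)
    have hPs : ∑ a, (α + β) a - P = s := by omega
    rw [hPs] at h
    have h2 := S.nsmul_mem h (∏ a, (α a + β a).choose (α a))
    rw [garnir_expand η s α β γ hs.le] at h2
    rw [← Finset.add_sum_erase _ _ (Finset.mem_Iic.2 (zero_le : (0 : ι → ℕ) ≤ α))] at h2
    have h3 : ∑ x ∈ (Finset.Iic α).erase 0, (∏ a, (γ a + x a).choose (x a)) •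
        garnirG η (s - ∑ a, x a) (α - x) β (γ + x) ∈ S := by
      apply S.sum_mem
      intro x hx'
      rw [Finset.mem_erase, Finset.mem_Iic] at hx'
      apply S.nsmul_mem
      obtain ⟨hx0, hxα⟩ := hx'
      have hpos : 0 < ∑ a, x a := by
        rw [Nat.pos_iff_ne_zero]
        intro h0
        apply hx0
        funext a
        exact (Finset.sum_eq_zero_iff.1 h0) a (Finset.mem_univ a)
      have hle : ∑ a, x a ≤ ∑ a, α a := Finset.sum_le_sum fun a _ => hxα a
      have hsub : ∑ a, (α - x) a = ∑ a, α a - ∑ a, x a := by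
        have : ∑ a, (α - x) a + ∑ a, x a = ∑ a, α a := by
          rw [← Finset.sum_add_distrib]
          apply Finset.sum_congr rfl
          intro a _
          have h9 : x a ≤ α a := hxα a
          simp only [Pi.sub_apply]
          omega
        omega
      refine ih (∑ a, (α - x) a) (by omega) _ (α - x) β (γ + x) rfl ?_ (by omega) (by omega)
      rw [← hw]
      funext a
      have h9 : x a ≤ α a := hxα a
      simp only [Pi.add_apply, Pi.sub_apply]
      omega
    have h4 := S.sub_mem h2 h3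
    rw [add_sub_cancel_right] at h4
    simpa using h4

end GarnirAux

theorem garnir {ι : Type*} [Fintype ι] [LinearOrder ι] {A : Type*} [AddCommGroup A]
    (η : (ι → ℕ) → (ι → ℕ) → A) (S : AddSubgroup A) (x₀ y₀ : ι → ℕ)
    (H : ∀ x y : ι → ℕ, x + y = x₀ + y₀ → ∑ a, x₀ a < ∑ a, x a →
      ∑ κ ∈ (Finset.Iic x).filter (fun κ => ∑ a, κ a = ∑ a, x a - ∑ a, x₀ a),
        (∏ a, (y a + κ a).choose (κ a)) • η (x - κ) (y + κ) ∈ S)
    (hbad : ¬ Good x₀ y₀) :
    η x₀ y₀ ∈ S ⊔ AddSubgroup.closure {z | ∃ x' y' : ι → ℕ, x' + y' = x₀ + y₀ ∧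
      ∑ a, x' a = ∑ a, x₀ a ∧ x' ≠ x₀ ∧
      (∀ j, ∑ a ∈ univ.filter (fun a => a ≤ j), x₀ a ≤ ∑ a ∈ univ.filter (fun a => a ≤ j), x' a) ∧
      z = η x' y'} := by
  unfold Good at hbad
  push Not at hbad
  obtain ⟨j, hj⟩ := hbad
  set α : ι → ℕ := fun a => if a < j then x₀ a else 0 with hα
  set β₀ : ι → ℕ := fun a => if a ≤ j then y₀ a else 0 with hβ₀
  set β : ι → ℕ := fun a => (if a < j then 0 else x₀ a) + (if a ≤ j then y₀ a else 0) with hβ
  set γ : ι → ℕ := fun a => if a ≤ j then 0 else y₀ a with hγ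
  have hαs : ∑ a, α a = ∑ a ∈ univ.filter (fun a => a < j), x₀ a := by
    rw [Finset.sum_filter]
  have hβ₀s : ∑ a, β₀ a = ∑ a ∈ univ.filter (fun a => a ≤ j), y₀ a := by
    rw [Finset.sum_filter]
  have hw : α + β + γ = x₀ + y₀ := by
    funext a
    simp only [hα, hβ, hγ, Pi.add_apply]
    split_ifs <;> omega
  have hxβ : ∑ a, α a + ∑ a, β a = ∑ a, x₀ a + ∑ a, β₀ a := by
    rw [← Finset.sum_add_distrib, ← Finset.sum_add_distrib]
    apply Finset.sum_congr rfl
    intro a _
    simp only [hα, hβ, hβ₀]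
    split_ifs <;> omega
  have hG := garnir_G η S (x₀ + y₀) (∑ a, x₀ a) H (∑ a, α a) (∑ a, β₀ a) α β γ rfl hw hxβ
    (by rw [hαs, hβ₀s]; exact hj)
  have hmem : β₀ ∈ (Finset.Iic β).filter (fun β' => ∑ a, β' a = ∑ a, β₀ a) := by
    rw [Finset.mem_filter, Finset.mem_Iic]
    refine ⟨fun a => ?_, rfl⟩
    simp only [hβ₀, hβ]
    omega
  unfold garnirG at hG
  rw [← Finset.add_sum_erase _ _ hmem] at hG
  have hcoef : (∏ a, (α a + (β a - β₀ a)).choose (α a) * (γ a + β₀ a).choose (β₀ a)) = 1 := by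
    apply Finset.prod_eq_one
    intro a _
    simp only [hα, hβ, hβ₀, hγ]
    by_cases h1 : a < j
    · have h2 : a ≤ j := h1.le
      simp [h1, h2]
    · by_cases h2 : a ≤ j
      · simp [h1, h2]
      · simp [h1, h2]
  have hx0 : α + (β - β₀) = x₀ := by
    funext a
    simp only [hα, hβ, hβ₀, Pi.add_apply, Pi.sub_apply]
    split_ifs <;> omega
  have hy0 : γ + β₀ = y₀ := by
    funext a
    simp only [hγ, hβ₀, Pi.add_apply]
    split_ifs <;> omega
  rw [hcoef, one_smul, hx0, hy0] at hG
  have hrest : ∑ β' ∈ ((Finset.Iic β).filter (fun β' => ∑ a, β' a = ∑ a, β₀ a)).erase β₀,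
      (∏ a, (α a + (β a - β' a)).choose (α a) * (γ a + β' a).choose (β' a)) •
        η (α + (β - β')) (γ + β') ∈ AddSubgroup.closure {z | ∃ x' y' : ι → ℕ, x' + y' = x₀ + y₀ ∧
      ∑ a, x' a = ∑ a, x₀ a ∧ x' ≠ x₀ ∧
      (∀ j, ∑ a ∈ univ.filter (fun a => a ≤ j), x₀ a ≤ ∑ a ∈ univ.filter (fun a => a ≤ j), x' a) ∧
      z = η x' y'} := by
    apply AddSubgroup.sum_mem
    intro β' hβ'
    apply AddSubgroup.nsmul_mem
    apply AddSubgroup.subset_closure
    rw [Finset.mem_erase, Finset.mem_filter, Finset.mem_Iic] at hβ'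
    obtain ⟨hne, hle, hsum⟩ := hβ'
    have hxy : α + (β - β') + (γ + β') = x₀ + y₀ := by
      rw [← hw]
      funext a
      have h9 : β' a ≤ β a := hle a
      simp only [Pi.add_apply, Pi.sub_apply]
      omega
    have hys : ∑ a, (γ + β') a = ∑ a, y₀ a := by
      rw [← hy0]
      simp only [Pi.add_apply, Finset.sum_add_distrib, hsum]
    have hxs : ∑ a, (α + (β - β')) a = ∑ a, x₀ a := by
      have h1 : ∑ a, (α + (β - β')) a + ∑ a, (γ + β') a = ∑ a, x₀ a + ∑ a, y₀ a := by
        rw [← Finset.sum_add_distrib, ← Finset.sum_add_distrib]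
        apply Finset.sum_congr rfl
        intro a _
        exact congrFun hxy a
      omega
    refine ⟨α + (β - β'), γ + β', hxy, hxs, ?_, ?_, rfl⟩
    · intro h
      apply hne
      have h2 : γ + β' = γ + β₀ := by
        rw [hy0]
        rw [h] at hxy
        exact add_left_cancel hxy
      exact add_left_cancel h2
    · intro l
      by_cases hl : l < j
      · apply Finset.sum_le_sum
        intro a ha
        rw [Finset.mem_filter] at ha
        have haj : a < j := lt_of_le_of_lt ha.2 hl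
        simp only [Pi.add_apply, hα, haj, if_true]
        omega
      · have h1 : ∑ a ∈ univ.filter (fun a => ¬ a ≤ l), (α + (β - β')) a ≤
            ∑ a ∈ univ.filter (fun a => ¬ a ≤ l), x₀ a := by
          apply Finset.sum_le_sum
          intro a ha
          rw [Finset.mem_filter] at ha
          have haj : ¬ a ≤ j := fun h => ha.2 (h.trans (not_lt.1 hl))
          have haj' : ¬ a < j := fun h => haj h.le
          simp only [Pi.add_apply, Pi.sub_apply, hα, hβ, haj, haj', if_false]
          omega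
        have h2 := Finset.sum_filter_add_sum_filter_not univ (fun a => a ≤ l)
          (fun a => (α + (β - β')) a)
        have h3 := Finset.sum_filter_add_sum_filter_not univ (fun a => a ≤ l) x₀
        omega
  have hfin := AddSubgroup.sub_mem _ (AddSubgroup.mem_sup_left hG)
    (AddSubgroup.mem_sup_right (S := S) hrest)
  rw [add_sub_cancel_right] at hfin
  exact hfin

end TF
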