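import Pool.Agent.H66.TF.Dec

/-!
# TF-GOODPERM: the kernel of `ℤ[S_D]` on `(ℤ^m)^{⊗ D}` is generated by antisymmetrisers

Hypothesis on `χ`: for every set `J` of `m + 1` letters and every `σ`,
`∑_{τ fixing the complement of J} sgn(τ) χ(τ σ) = 0`. Hypothesis on `α`: `α` acts as zero on
`(ℤ^m)^{⊗ D}`: `∑_{σ : p ∘ σ = q} α(σ) = 0` for all `p, q : Fin D → Fin m`. Claim: `∑ α(σ) χ(σ) = 0`.

Proof. Call `σ` good if it has no decreasing subsequence of length `m + 1` (`HasDec`).
(1) If `σ` is bad, with positions `i_0 < ⋯ < i_m` and decreasing values, let `J` be the set of these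
values; the other `τ σ`, `τ` fixing the complement of `J`, `τ ≠ 1`, are lexicographically smaller than
`σ`. (2) Both hypotheses are linear and `e_{J,σ} = ∑ sgn(τ) [τ σ]` satisfies the hypothesis on `α`: since
`p` takes only `m` values there are two elements `j ≠ j'` of `J` with `p j = p j'` and `τ ↦ (j j') τ` is a
sign reversing involution of the sum. (3) So by induction on the lexicographic order (well-founded:
finite) we may subtract multiples of `e_{J,σ}` until `α` is supported on good permutations (keeping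
`∑ α χ` unchanged). E.g. strong induction on the lexicographically largest bad `σ` in the support.
(4) If `α ≠ 0` is supported on good permutations, let `σ` be the lexicographically largest element of
the support, `col` its colouring (`dec_color`), `q = col`, `p = col ∘ σ⁻¹`. The `σ'` with `p ∘ σ' = q`
satisfy the hypothesis `h'` of `lex_min`, so all of them except `σ` are lexicographically larger and
`α σ' = 0`; hence `α σ = 0`, a contradiction.
-/

open Finset Equiv

namespace TF

/-- `σ` is lexicographically smaller than `σ'`. -/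
def LexLt {D : ℕ} (σ σ' : Perm (Fin D)) : Prop :=
  ∃ i, σ i < σ' i ∧ ∀ j < i, σ j = σ' j

theorem LexLt.trans {D : ℕ} {σ τ ρ : Perm (Fin D)} (h₁ : LexLt σ τ) (h₂ : LexLt τ ρ) :
    LexLt σ ρ := by
  obtain ⟨i, hi, hi'⟩ := h₁
  obtain ⟨j, hj, hj'⟩ := h₂
  rcases lt_trichotomy i j with h | h | h
  · exact ⟨i, by rw [← hj' i h]; exact hi, fun k hk => (hi' k hk).trans (hj' k (hk.trans h))⟩
  · subst h
    exact ⟨i, hi.trans hj, fun k hk => (hi' k hk).trans (hj' k hk)⟩
  · exact ⟨j, by rw [hi' j h]; exact hj, fun k hk => (hi' k (hk.trans h)).trans (hj' k hk)⟩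

theorem LexLt.irrefl {D : ℕ} (σ : Perm (Fin D)) : ¬ LexLt σ σ := by
  rintro ⟨i, hi, _⟩
  exact lt_irrefl _ hi

open Classical in
/-- The number of lexicographically smaller permutations. -/
noncomputable def lexRank {D : ℕ} (σ : Perm (Fin D)) : ℕ :=
  (univ.filter (fun σ' : Perm (Fin D) => LexLt σ' σ)).card

theorem lexRank_lt {D : ℕ} {σ τ : Perm (Fin D)} (h : LexLt σ τ) : lexRank σ < lexRank τ := by
  classical
  unfold lexRank
  apply Finset.card_lt_card
  rw [Finset.ssubset_iff_of_subset]
  · refine ⟨σ, ?_, ?_⟩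
    · rw [Finset.mem_filter]; exact ⟨mem_univ _, h⟩
    · rw [Finset.mem_filter]; exact fun h' => LexLt.irrefl σ h'.2
  · intro ρ hρ
    rw [Finset.mem_filter] at hρ ⊢
    exact ⟨mem_univ _, hρ.2.trans h⟩

theorem lexLt_total {D : ℕ} {σ τ : Perm (Fin D)} (h : σ ≠ τ) : LexLt σ τ ∨ LexLt τ σ := by
  have hex : ∃ i, σ i ≠ τ i := by
    by_contra hc
    push Not at hc
    exact h (Equiv.ext hc)
  obtain ⟨i, hi, hmin⟩ := WellFounded.has_min (wellFounded_lt (α := Fin D)) {i | σ i ≠ τ i} hex
  have hmin' : ∀ j < i, σ j = τ j := fun j hj => by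
    by_contra hc
    exact hmin j hc hj
  rcases lt_or_gt_of_ne hi with h1 | h1
  · exact Or.inl ⟨i, h1, hmin'⟩
  · exact Or.inr ⟨i, h1, fun j hj => (hmin' j hj).symm⟩

theorem lexRank_injective {D : ℕ} : Function.Injective (lexRank (D := D)) := by
  intro σ τ h
  by_contra hne
  rcases lexLt_total hne with h1 | h1
  · exact absurd (lexRank_lt h1) (by omega)
  · exact absurd (lexRank_lt h1) (by omega)

/-- (1): all other terms of the antisymmetriser are smaller. -/
theorem lexLt_of_fix {D m : ℕ} (σ : Perm (Fin D)) (f : Fin (m + 1) → Fin D) (hf : StrictMono f)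
    (hf' : StrictAnti (fun i => σ (f i))) (τ : Perm (Fin D))
    (hτ : ∀ x, x ∉ univ.image (fun i => σ (f i)) → τ x = x) (h1 : τ ≠ 1) :
    LexLt (τ * σ) σ := by
  classical
  have hne : τ * σ ≠ σ := fun h => h1 (mul_eq_right.1 h)
  have hex : ∃ i, τ (σ i) ≠ σ i := by
    by_contra hc
    push Not at hc
    exact hne (Equiv.ext hc)
  obtain ⟨i, hi, hmin⟩ :=
    WellFounded.has_min (wellFounded_lt (α := Fin D)) {i | τ (σ i) ≠ σ i} hex
  have hmin' : ∀ j < i, τ (σ j) = σ j := fun j hj => by
    by_contra hc
    exact hmin j hc hj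
  refine ⟨i, ?_, fun j hj => hmin' j hj⟩
  show τ (σ i) < σ i
  have hJ : σ i ∈ univ.image (fun i => σ (f i)) := by
    by_contra hc
    exact hi (hτ _ hc)
  obtain ⟨k, -, hk⟩ := Finset.mem_image.1 hJ
  have hfk : f k = i := σ.injective hk
  have hτJ : τ (σ i) ∈ univ.image (fun i => σ (f i)) := by
    by_contra hc
    have h2 := hτ _ hc
    exact hi (τ.injective h2)
  obtain ⟨l, -, hl⟩ := Finset.mem_image.1 hτJ
  rw [← hl, ← hk]
  apply hf'
  rcases lt_trichotomy l k with h2 | h2 | h2
  · exfalso
    have h3 : f l < i := by rw [← hfk]; exact hf h2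
    have h4 := hmin' _ h3
    rw [hl] at h4
    have h5 := τ.injective h4
    rw [h5] at hl
    have h6 := σ.injective (hl : σ (f l) = σ i)
    exact absurd h6 h3.ne
  · exfalso
    subst h2
    apply hi
    rw [← hl]
    exact hk
  · exact h2

/-- The sum of the coefficients of the antisymmetriser against any function. -/
theorem sum_antisym {D : ℕ} {B : Type*} [AddCommGroup B] (T : Finset (Perm (Fin D)))
    (σ₀ : Perm (Fin D)) (g : Perm (Fin D) → B) :
    ∑ σ, (∑ τ ∈ T, if τ * σ₀ = σ then ((Perm.sign τ : ℤˣ) : ℤ) else 0) • g σ =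
      ∑ τ ∈ T, ((Perm.sign τ : ℤˣ) : ℤ) • g (τ * σ₀) := by
  classical
  simp only [Finset.sum_smul]
  rw [Finset.sum_comm]
  refine Finset.sum_congr rfl fun τ _ => ?_
  rw [Finset.sum_eq_single (τ * σ₀)]
  · rw [if_pos rfl]
  · intro σ _ hne
    rw [if_neg (fun h => hne h.symm), zero_smul]
  · intro h
    exact absurd (mem_univ _) h

theorem goodperm_kill {D m : ℕ} {A : Type*} [AddCommGroup A] (χ : Perm (Fin D) → A)
    (hχ : ∀ J : Finset (Fin D), J.card = m + 1 → ∀ σ : Perm (Fin D),
      ∑ τ ∈ univ.filter (fun τ : Perm (Fin D) => ∀ x, x ∉ J → τ x = x),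
        ((Perm.sign τ : ℤˣ) : ℤ) • χ (τ * σ) = 0)
    (α : Perm (Fin D) → ℤ)
    (hα : ∀ p q : Fin D → Fin m,
      ∑ σ ∈ univ.filter (fun σ : Perm (Fin D) => ∀ i, p (σ i) = q i), α σ = 0) :
    ∑ σ, α σ • χ σ = 0 := by
  classical
  -- induction on the rank of the largest bad permutation in the support
  suffices H : ∀ n : ℕ, ∀ α : Perm (Fin D) → ℤ,
      (∀ p q : Fin D → Fin m,
        ∑ σ ∈ univ.filter (fun σ : Perm (Fin D) => ∀ i, p (σ i) = q i), α σ = 0) →
      (∀ σ, HasDec σ (m + 1) → α σ ≠ 0 → lexRank σ < n) → ∑ σ, α σ • χ σ = 0 by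
    refine H ((univ.sup (lexRank (D := D))) + 1) α hα fun σ _ _ => ?_
    exact Nat.lt_succ_of_le (Finset.le_sup (f := lexRank (D := D)) (mem_univ σ))
  intro n
  induction n with
  | zero =>
    intro α hα hb
    have hb' : ∀ σ, HasDec σ (m + 1) → α σ = 0 := fun σ hσ => by
      by_contra hc
      exact absurd (hb σ hσ hc) (by omega)
    have h0 : ∀ σ, α σ = 0 := by
      by_contra hc
      push Not at hc
      obtain ⟨σ₀, hσ₀⟩ := hc
      obtain ⟨σ, hσ, hmax⟩ := Finset.exists_max_image
        (univ.filter (fun σ : Perm (Fin D) => α σ ≠ 0)) lexRank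
        ⟨σ₀, by rw [Finset.mem_filter]; exact ⟨mem_univ _, hσ₀⟩⟩
      rw [Finset.mem_filter] at hσ
      have hgood : ¬ HasDec σ (m + 1) := fun h => hσ.2 (hb' σ h)
      obtain ⟨col, hcol⟩ := dec_color σ hgood
      have h1 := hα (fun x => col (σ.symm x)) col
      rw [Finset.sum_eq_single σ] at h1
      · exact hσ.2 h1
      · intro σ' hσ' hne
        rw [Finset.mem_filter] at hσ'
        have h2 : LexLt σ σ' := lex_min col σ σ' hcol hσ'.2 hne
        by_contra hc
        have h3 := hmax σ' (by rw [Finset.mem_filter]; exact ⟨mem_univ _, hc⟩)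
        exact absurd (lexRank_lt h2) (by omega)
      · intro h2
        exfalso
        apply h2
        rw [Finset.mem_filter]
        refine ⟨mem_univ _, fun i => ?_⟩
        rw [Equiv.symm_apply_apply]
    exact Finset.sum_eq_zero fun σ _ => by rw [h0, zero_smul]
  | succ n ih =>
    intro α hα hb
    by_cases hex : ∃ σ, HasDec σ (m + 1) ∧ α σ ≠ 0 ∧ lexRank σ = n
    · obtain ⟨σ₀, ⟨f, hf, hf'⟩, hσ₀, hr⟩ := hex
      set J : Finset (Fin D) := univ.image (fun i => σ₀ (f i)) with hJ
      have hJc : J.card = m + 1 := by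
        rw [hJ, Finset.card_image_of_injective _ hf'.injective, Finset.card_univ, Fintype.card_fin]
      set T : Finset (Perm (Fin D)) :=
        univ.filter (fun τ : Perm (Fin D) => ∀ x, x ∉ J → τ x = x) with hT
      set e : Perm (Fin D) → ℤ := fun σ =>
        ∑ τ ∈ T, if τ * σ₀ = σ then ((Perm.sign τ : ℤˣ) : ℤ) else 0 with he
      have heχ : ∑ σ, e σ • χ σ = 0 := by
        rw [he, sum_antisym]
        exact hχ J hJc σ₀
      have heα : ∀ p q : Fin D → Fin m,
          ∑ σ ∈ univ.filter (fun σ : Perm (Fin D) => ∀ i, p (σ i) = q i), e σ = 0 := by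
        intro p q
        have h1 : ∑ σ ∈ univ.filter (fun σ : Perm (Fin D) => ∀ i, p (σ i) = q i), e σ =
            ∑ σ, e σ • (if ∀ i, p (σ i) = q i then (1 : ℤ) else 0) := by
          rw [Finset.sum_filter]
          refine Finset.sum_congr rfl fun σ _ => ?_
          split_ifs <;> simp
        rw [h1, he, sum_antisym]
        -- pigeonhole
        have hpig : ∃ j ∈ J, ∃ j' ∈ J, j ≠ j' ∧ p j = p j' := by
          apply Finset.exists_ne_map_eq_of_card_lt_of_maps_to (t := (univ : Finset (Fin m)))
          · rw [hJc, Finset.card_univ, Fintype.card_fin]; exact Nat.lt_succ_self m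
          · intro x _
            exact Finset.mem_coe.2 (mem_univ _)
        obtain ⟨j, hj, j', hj', hjj, hpj⟩ := hpig
        have hps : ∀ x, p (Equiv.swap j j' x) = p x := by
          intro x
          rcases eq_or_ne x j with rfl | h
          · rw [Equiv.swap_apply_left, hpj]
          · rcases eq_or_ne x j' with rfl | h'
            · rw [Equiv.swap_apply_right, hpj]
            · rw [Equiv.swap_apply_of_ne_of_ne h h']
        apply Finset.sum_involution (fun τ _ => Equiv.swap j j' * τ)
        · intro τ _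
          have h2 : (∀ i, p ((Equiv.swap j j' * τ * σ₀) i) = q i) ↔
              (∀ i, p ((τ * σ₀) i) = q i) := by
            refine forall_congr' fun i => ?_
            rw [Equiv.Perm.mul_apply, Equiv.Perm.mul_apply, hps, Equiv.Perm.mul_apply]
          rw [Equiv.Perm.sign_mul, Equiv.Perm.sign_swap hjj]
          by_cases h3 : ∀ i, p ((τ * σ₀) i) = q i
          · rw [if_pos h3, if_pos (h2.2 h3)]
            simp
          · rw [if_neg h3, if_neg (fun h => h3 (h2.1 h))]
            simp
        · intro τ _ _ h3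
          have h4 : Equiv.swap j j' = 1 := mul_eq_right.1 h3
          exact hjj (Equiv.swap_eq_one_iff.1 h4)
        · intro τ hτ
          rw [hT, Finset.mem_filter] at hτ ⊢
          refine ⟨mem_univ _, fun x hx => ?_⟩
          rw [Equiv.Perm.mul_apply, hτ.2 x hx]
          exact Equiv.swap_apply_of_ne_of_ne (fun h => hx (h ▸ hj)) (fun h => hx (h ▸ hj'))
        · intro τ _
          rw [← mul_assoc, Equiv.swap_mul_self, one_mul]
      -- values of `e`
      have heval : ∀ σ, e σ ≠ 0 → σ = σ₀ ∨ LexLt σ σ₀ := by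
        intro σ hσ
        obtain ⟨τ, hτ, hne⟩ := Finset.exists_ne_zero_of_sum_ne_zero hσ
        have hτσ : τ * σ₀ = σ := by
          by_contra hc
          exact hne (if_neg hc)
        rw [hT, Finset.mem_filter] at hτ
        by_cases h1 : τ = 1
        · left
          rw [← hτσ, h1, one_mul]
        · right
          rw [← hτσ]
          exact lexLt_of_fix σ₀ f hf hf' τ hτ.2 h1
      have he₀ : e σ₀ = 1 := by
        simp only [he]
        rw [Finset.sum_eq_single 1]
        · simp
        · intro τ _ hne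
          rw [if_neg]
          intro h
          exact hne (mul_eq_right.1 h)
        · intro h
          exfalso
          apply h
          rw [hT, Finset.mem_filter]
          exact ⟨mem_univ _, fun x _ => rfl⟩
      -- the new coefficients
      have hmain := ih (fun σ => α σ - α σ₀ * e σ) ?_ ?_
      · have h1 : ∑ σ, (α σ - α σ₀ * e σ) • χ σ = ∑ σ, α σ • χ σ - α σ₀ • ∑ σ, e σ • χ σ := by
          rw [Finset.smul_sum, ← Finset.sum_sub_distrib]
          refine Finset.sum_congr rfl fun σ _ => ?_
          rw [sub_smul, mul_smul]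
        rw [h1, heχ, smul_zero, sub_zero] at hmain
        exact hmain
      · intro p q
        rw [Finset.sum_sub_distrib, ← Finset.mul_sum, hα, heα, mul_zero, sub_zero]
      · intro σ hσ hne
        have hσσ₀ : σ ≠ σ₀ := by
          rintro rfl
          apply hne
          rw [he₀, mul_one, sub_self]
        by_cases h1 : α σ = 0
        · have h2 : e σ ≠ 0 := by
            intro h2
            apply hne
            rw [h1, h2, mul_zero, sub_zero]
          rcases heval σ h2 with h3 | h3
          · exact absurd h3 hσσ₀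
          · rw [← hr]
            exact lexRank_lt h3
        · have h2 := hb σ hσ h1
          have h3 : lexRank σ ≠ n := fun h => hσσ₀ (lexRank_injective (h.trans hr.symm))
          omega
    · push Not at hex
      apply ih α hα
      intro σ hσ hne
      have h1 := hb σ hσ hne
      have h2 := hex σ hσ hne
      omega

end TF
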