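import Pool.Agent.H66.TF.Merge
import Pool.Agent.H66.TF.GoodPerm

/-!
# TF-IDENT: multilinear consequences of an identity of `M_m(ℤ)`

`G : (Fin n → Fin k) → ℤ` is (the coefficient function of) a polynomial identity of `M_m(ℤ)`,
homogeneous of total degree `n` (not necessarily multihomogeneous).

* `polarise`: for every `ℓ : Fin n → Fin k` and matrices `x : Fin n → M_m(ℤ)`,
  `∑_ρ G(ℓ ∘ ρ) x_{ρ 0} ⋯ x_{ρ (n-1)} = 0`: this is
  `∑_{S ⊆ Fin n} (-1)^{n - |S|} G(X_i = ∑_{j ∈ S, ℓ j = i} x_j)`: expanding, the coefficient of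
  `x_{f 0} ⋯ x_{f (n-1)}`, `f : Fin n → Fin n`, is `G(ℓ ∘ f) ∑_{S ⊇ im f} (-1)^{n-|S|}`, which is `0`
  unless `f` is surjective.
* `cycP ρ`: the cycle `ρ 0 → ρ 1 → ⋯ → ρ (n-1) → n → ρ 0` of `Fin (n+1)`;
  `cycP ρ = ρ̂ * finRotate * ρ̂⁻¹`, `ρ̂` = extension of `ρ` fixing `n`.
* `cycP_kill`: `∑_{ρ : p ∘ cycP ρ = q} G(ℓ ∘ ρ) = 0` for all `p q : Fin (n+1) → Fin m`: take
  `x_j = E_{p_j, q_j}` in `polarise`, multiply by `y = E_{p_n, q_n}` and take the trace:
  `tr(E_{p_{ρ0} q_{ρ0}} E_{p_{ρ1} q_{ρ1}} ⋯ E_{p_n q_n}) = 1` if `q_j = p_{cycP ρ (j)}` for all `j`, else `0`.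
  (`n = 0`: both sides are about `E_{p_n q_n}` alone: `cycP = 1`, `G` of the empty word is `0` since it
  is an identity and `m ≥ 1`; for `m = 0` there is no `p`.)
* `cyc_torsion`: for `θ` with `ConjRel`, `Bal` and `θ c = 0` when `outd c 0 > m`:
  let `ℓ' : Fin (n+1) → Fin (k+1)` extend `ℓ` by the last letter, `ϑ = mult θ ℓ'`,
  `χ σ = sgn(σ) ϑ(id, σ)`, `α = ∑_ρ G(ℓ∘ρ) δ_{cycP ρ}`. `mult_merge` gives the hypothesis on `χ` of
  `goodperm_kill` (`sgn(τ) sgn(τσ) = sgn σ`), `cycP_kill` the one on `α`. So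
  `∑_ρ G(ℓ∘ρ) sgn(cycP ρ) ϑ(id, cycP ρ) = 0`; the sign is `(-1)^n`, constant; and
  `ϑ(id, cycP ρ) = ϑ(ρ̂⁻¹, finRotate ρ̂⁻¹)` (`mult_relabel`) `= mult θ (ℓ' ∘ ρ̂) id finRotate`
  (`mult_reindex`) `= θ (arr (ℓ' ∘ ρ̂) id finRotate) = θ (cyc (ℓ ∘ ρ))` (`mult_inj`). Finally sum over all
  `ℓ`: each `ρ` contributes `∑_v G v • θ (cyc v)`.
-/

open Finset Equiv

namespace TF

/-- `G` is the coefficient function of an identity of `M_m(ℤ)`, homogeneous of degree `n`. -/
def IsIdent {n k : ℕ} (m : ℕ) (G : (Fin n → Fin k) → ℤ) : Prop :=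
  ∀ X : Fin k → Matrix (Fin m) (Fin m) ℤ,
    ∑ v : Fin n → Fin k, G v • (List.ofFn fun j => X (v j)).prod = 0

/-- the sum over the functions with values in `S` -/
theorem pol_aux {n k m : ℕ} (G : (Fin n → Fin k) → ℤ) (hG : IsIdent m G) (ℓ : Fin n → Fin k)
    (x : Fin n → Matrix (Fin m) (Fin m) ℤ) (S : Finset (Fin n)) :
    ∑ f : Fin n → Fin n, ((∏ j, if f j ∈ S then (1 : ℤ) else 0) * G (ℓ ∘ f)) •
      (List.ofFn fun j => x (f j)).prod = 0 := by
  classical
  have h := hG (fun i => ∑ e : Fin n,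
    ((if e ∈ S then (1 : ℤ) else 0) * (if ℓ e = i then 1 else 0)) • x e)
  have hexp : ∀ v : Fin n → Fin k,
      (List.ofFn fun j => ∑ e : Fin n,
        ((if e ∈ S then (1 : ℤ) else 0) * (if ℓ e = v j then 1 else 0)) • x e).prod =
      ∑ f : Fin n → Fin n, (∏ j, ((if f j ∈ S then (1 : ℤ) else 0) *
        (if ℓ (f j) = v j then 1 else 0))) • (List.ofFn fun j => x (f j)).prod := by
    intro v
    have h1 := MultilinearMap.map_sum
      (MultilinearMap.mkPiAlgebraFin ℤ n (Matrix (Fin m) (Fin m) ℤ))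
      (fun (j : Fin n) (e : Fin n) =>
        ((if e ∈ S then (1 : ℤ) else 0) * (if ℓ e = v j then 1 else 0)) • x e)
    rw [MultilinearMap.mkPiAlgebraFin_apply] at h1
    rw [h1]
    refine Finset.sum_congr rfl fun f _ => ?_
    rw [MultilinearMap.map_smul_univ, MultilinearMap.mkPiAlgebraFin_apply]
  have h2 : ∀ f : Fin n → Fin n, ∀ v : Fin n → Fin k,
      (∏ j, ((if f j ∈ S then (1 : ℤ) else 0) * (if ℓ (f j) = v j then 1 else 0))) =
        (∏ j, if f j ∈ S then (1 : ℤ) else 0) * (if v = ℓ ∘ f then 1 else 0) := by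
    intro f v
    rw [Finset.prod_mul_distrib]
    congr 1
    by_cases hv : v = ℓ ∘ f
    · rw [if_pos hv]
      subst hv
      simp
    · rw [if_neg hv]
      have : ∃ j, v j ≠ (ℓ ∘ f) j := by
        by_contra hc
        push Not at hc
        exact hv (funext hc)
      obtain ⟨j, hj⟩ := this
      exact Finset.prod_eq_zero (Finset.mem_univ j) (if_neg fun h => hj h.symm)
  simp only [hexp, h2] at h
  refine Eq.trans ?_ h
  simp only [Finset.smul_sum]
  rw [Finset.sum_comm]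
  refine Finset.sum_congr rfl fun f _ => ?_
  rw [Finset.sum_eq_single (ℓ ∘ f)]
  · rw [if_pos rfl, mul_one, smul_smul, mul_comm]
  · intro v _ hv
    rw [if_neg hv, mul_zero, zero_smul, smul_zero]
  · intro h
    exact absurd (Finset.mem_univ _) h

theorem incl_excl {n : ℕ} (f : Fin n → Fin n) :
    ∑ S ∈ (univ : Finset (Fin n)).powerset, (-1 : ℤ) ^ S.card *
      (∏ j, if f j ∈ S then (1 : ℤ) else 0) = if Function.Bijective f then (-1) ^ n else 0 := by
  classical
  have key : ∀ S ∈ (univ : Finset (Fin n)).powerset,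
      (-1 : ℤ) ^ S.card * (∏ j, if f j ∈ S then (1 : ℤ) else 0) =
      (∏ _i ∈ S, (-1 : ℤ)) * ∏ i ∈ univ \ S, (if i ∈ Set.range f then (0 : ℤ) else 1) := by
    intro S _
    rw [Finset.prod_const]
    congr 1
    by_cases h : ∀ j, f j ∈ S
    · rw [Finset.prod_congr rfl (fun j _ => if_pos (h j)), Finset.prod_const_one]
      symm
      apply Finset.prod_eq_one
      intro i hi
      rw [if_neg]
      rintro ⟨j, rfl⟩
      exact (Finset.mem_sdiff.1 hi).2 (h j)
    · push Not at h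
      obtain ⟨j, hj⟩ := h
      rw [Finset.prod_eq_zero (Finset.mem_univ j) (if_neg hj)]
      symm
      exact Finset.prod_eq_zero (i := f j) (Finset.mem_sdiff.2 ⟨Finset.mem_univ _, hj⟩)
        (if_pos ⟨j, rfl⟩)
  rw [Finset.sum_congr rfl key, ← Finset.prod_add]
  by_cases hf : Function.Bijective f
  · rw [if_pos hf]
    have : ∀ i ∈ (univ : Finset (Fin n)),
        ((-1 : ℤ) + if i ∈ Set.range f then (0 : ℤ) else 1) = -1 := by
      intro i _
      have hi : i ∈ Set.range f := hf.surjective i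
      rw [if_pos hi, add_zero]
    rw [Finset.prod_congr rfl this, Finset.prod_const, Finset.card_univ, Fintype.card_fin]
  · rw [if_neg hf]
    have : ∃ i, i ∉ Set.range f := by
      by_contra hc
      push Not at hc
      exact hf (Finite.injective_iff_bijective.1 (Finite.injective_iff_surjective.2 hc))
    obtain ⟨i, hi⟩ := this
    refine Finset.prod_eq_zero (Finset.mem_univ i) ?_
    rw [if_neg hi]
    norm_num

theorem sum_bijective_eq {n : ℕ} {A : Type*} [AddCommMonoid A] (F : (Fin n → Fin n) → A) :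
    ∑ f ∈ univ.filter (fun f : Fin n → Fin n => Function.Bijective f), F f =
      ∑ ρ : Perm (Fin n), F ρ := by
  classical
  symm
  refine Finset.sum_bij (fun (ρ : Perm (Fin n)) _ => (ρ : Fin n → Fin n)) ?_ ?_ ?_ ?_
  · intro ρ _
    exact Finset.mem_filter.2 ⟨Finset.mem_univ _, ρ.bijective⟩
  · intro a _ b _ hab
    exact Equiv.coe_fn_injective hab
  · intro f hf
    exact ⟨Equiv.ofBijective f (Finset.mem_filter.1 hf).2, Finset.mem_univ _, rfl⟩
  · intro ρ _
    rfl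

theorem polarise {n k m : ℕ} (G : (Fin n → Fin k) → ℤ) (hG : IsIdent m G) (ℓ : Fin n → Fin k)
    (x : Fin n → Matrix (Fin m) (Fin m) ℤ) :
    ∑ ρ : Perm (Fin n), G (ℓ ∘ ρ) • (List.ofFn fun j => x (ρ j)).prod = 0 := by
  classical
  have h0 : ∑ S ∈ (univ : Finset (Fin n)).powerset, (-1 : ℤ) ^ S.card •
      ∑ f : Fin n → Fin n, ((∏ j, if f j ∈ S then (1 : ℤ) else 0) * G (ℓ ∘ f)) •
        (List.ofFn fun j => x (f j)).prod = 0 := by
    refine Finset.sum_eq_zero fun S _ => ?_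
    rw [pol_aux G hG ℓ x S, smul_zero]
  have h1 : ∑ f : Fin n → Fin n, (if Function.Bijective f then (-1 : ℤ) ^ n else 0) •
      (G (ℓ ∘ f) • (List.ofFn fun j => x (f j)).prod) = 0 := by
    refine Eq.trans ?_ h0
    simp only [Finset.smul_sum]
    rw [Finset.sum_comm]
    refine Finset.sum_congr rfl fun f _ => ?_
    rw [← incl_excl f, Finset.sum_smul]
    refine Finset.sum_congr rfl fun S _ => ?_
    rw [smul_smul, smul_smul, mul_assoc]
  have h2 : (-1 : ℤ) ^ n • ∑ ρ : Perm (Fin n),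
      G (ℓ ∘ ρ) • (List.ofFn fun j => x (ρ j)).prod = 0 := by
    rw [← sum_bijective_eq (fun f : Fin n → Fin n =>
      G (ℓ ∘ f) • (List.ofFn fun j => x (f j)).prod), Finset.smul_sum]
    refine Eq.trans ?_ h1
    rw [Finset.sum_filter]
    refine Finset.sum_congr rfl fun f _ => ?_
    by_cases hf : Function.Bijective f
    · rw [if_pos hf, if_pos hf]
    · rw [if_neg hf, if_neg hf, zero_smul]
  rcases neg_one_pow_eq_or ℤ n with h | h
  · rwa [h, one_smul] at h2
  · rwa [h, neg_smul, one_smul, neg_eq_zero] at h2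

/-- extension of a permutation of `Fin n` to `Fin (n+1)` fixing the last element -/
def extP {n : ℕ} (ρ : Perm (Fin n)) : Perm (Fin (n + 1)) :=
  (finSuccEquivLast.symm.permCongr ρ.optionCongr)

theorem extP_castSucc {n : ℕ} (ρ : Perm (Fin n)) (j : Fin n) :
    extP ρ j.castSucc = (ρ j).castSucc := by
  simp [extP, Equiv.permCongr_apply]

theorem extP_last {n : ℕ} (ρ : Perm (Fin n)) : extP ρ (Fin.last n) = Fin.last n := by
  simp [extP, Equiv.permCongr_apply]

/-- the cycle `ρ 0 → ρ 1 → ⋯ → ρ (n-1) → n → ρ 0` -/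
def cycP {n : ℕ} (ρ : Perm (Fin n)) : Perm (Fin (n + 1)) := extP ρ * finRotate (n + 1) * (extP ρ)⁻¹

theorem prod_single {m : ℕ} : ∀ (n : ℕ) (a b : Fin (n + 1) → Fin m),
    (List.ofFn fun i => Matrix.single (a i) (b i) (1 : ℤ)).prod =
      (∏ i : Fin n, if b i.castSucc = a i.succ then (1 : ℤ) else 0) •
        Matrix.single (a 0) (b (Fin.last n)) (1 : ℤ) := by
  intro n
  induction n with
  | zero =>
    intro a b
    simp [List.ofFn_succ]
  | succ n ih =>
    intro a b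
    rw [List.ofFn_succ, List.prod_cons, ih (fun i => a i.succ) (fun i => b i.succ),
      mul_smul_comm, Fin.prod_univ_succ]
    by_cases h : b 0 = a 1
    · have h' : b (Fin.castSucc (0 : Fin (n + 1))) = a (Fin.succ (0 : Fin (n + 1))) := by
        simpa using h
      rw [if_pos h', one_mul]
      have h'' : a (Fin.succ (0 : Fin (n + 1))) = b 0 := h'.symm
      rw [h'', Matrix.single_mul_single_same, mul_one]
      simp only [Fin.succ_castSucc, Fin.succ_last]
    · have h' : ¬ b (Fin.castSucc (0 : Fin (n + 1))) = a (Fin.succ (0 : Fin (n + 1))) := by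
        simpa using h
      rw [if_neg h', zero_mul, zero_smul]
      have h'' : b 0 ≠ a (Fin.succ (0 : Fin (n + 1))) := h'
      rw [Matrix.single_mul_single_of_ne _ _ _ _ h'', smul_zero]

theorem finRotate_castSucc' {n : ℕ} (i : Fin n) : finRotate (n + 1) i.castSucc = i.succ := by
  rw [finRotate_succ_apply, Fin.coeSucc_eq_succ]

/-- trace of a product of matrix units -/
theorem trace_prod_single {m : ℕ} (n : ℕ) (a b : Fin (n + 1) → Fin m) :
    Matrix.trace (List.ofFn fun i => Matrix.single (a i) (b i) (1 : ℤ)).prod =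
      if ∀ i, a (finRotate (n + 1) i) = b i then 1 else 0 := by
  rw [prod_single, Matrix.trace_smul]
  by_cases h : ∀ i, a (finRotate (n + 1) i) = b i
  · rw [if_pos h]
    have h1 : ∀ i : Fin n, b i.castSucc = a i.succ := by
      intro i
      rw [← h, finRotate_castSucc']
    have h2 : b (Fin.last n) = a 0 := by
      rw [← h, finRotate_last]
    rw [Finset.prod_congr rfl (fun i _ => if_pos (h1 i)), Finset.prod_const_one, h2]
    simp
  · rw [if_neg h]
    push Not at h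
    obtain ⟨i, hi⟩ := h
    induction i using Fin.lastCases with
    | last =>
      rw [finRotate_last] at hi
      rw [Matrix.trace_single_eq_of_ne _ _ _ hi, smul_zero]
    | cast i =>
      rw [finRotate_castSucc'] at hi
      rw [Finset.prod_eq_zero (Finset.mem_univ i) (if_neg (Ne.symm hi)), zero_smul]

theorem cycP_kill {n k m : ℕ} (G : (Fin n → Fin k) → ℤ) (hG : IsIdent m G) (ℓ : Fin n → Fin k)
    (p q : Fin (n + 1) → Fin m) :
    ∑ ρ ∈ univ.filter (fun ρ : Perm (Fin n) => ∀ i, p (cycP ρ i) = q i), G (ℓ ∘ ρ) = 0 := by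
  classical
  have h := polarise G hG ℓ (fun j => Matrix.single (p j.castSucc) (q j.castSucc) (1 : ℤ))
  have h1 := congrArg (fun M => Matrix.trace
    (M * Matrix.single (p (Fin.last n)) (q (Fin.last n)) (1 : ℤ))) h
  simp only [Finset.sum_mul, Matrix.trace_sum, zero_mul, Matrix.trace_zero, smul_mul_assoc,
    Matrix.trace_smul] at h1
  rw [Finset.sum_filter]
  refine Eq.trans ?_ h1
  refine Finset.sum_congr rfl fun ρ _ => ?_
  have h2 : (List.ofFn fun j => Matrix.single (p (ρ j).castSucc) (q (ρ j).castSucc) (1 : ℤ)).prod *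
      Matrix.single (p (Fin.last n)) (q (Fin.last n)) (1 : ℤ) =
      (List.ofFn fun i : Fin (n + 1) =>
        Matrix.single (p (extP ρ i)) (q (extP ρ i)) (1 : ℤ)).prod := by
    rw [List.ofFn_succ']
    simp only [List.concat_eq_append, List.prod_append, List.prod_singleton, extP_castSucc,
      extP_last]
  rw [h2, trace_prod_single n (fun i => p (extP ρ i)) (fun i => q (extP ρ i))]
  have h3 : (∀ i, p (cycP ρ i) = q i) ↔
      ∀ i, p (extP ρ (finRotate (n + 1) i)) = q (extP ρ i) := by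
    constructor
    · intro h i
      have := h (extP ρ i)
      simpa [cycP, Perm.mul_apply] using this
    · intro h i
      have := h ((extP ρ)⁻¹ i)
      simpa [cycP] using this
  by_cases h4 : ∀ i, p (cycP ρ i) = q i
  · rw [if_pos h4, if_pos (h3.1 h4)]
    simp
  · rw [if_neg h4, if_neg (fun h => h4 (h3.2 h))]
    simp

/-- labels of the edges: the letters of the word, and the last letter -/
def labL {n k : ℕ} (ℓ : Fin n → Fin k) : Fin (n + 1) → Fin (k + 1) :=
  Fin.snoc (α := fun _ => Fin (k + 1)) (fun j => (ℓ j).castSucc) (Fin.last k)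

theorem arr_eq_cyc {n k : ℕ} (ℓ : Fin n → Fin k) (ρ : Perm (Fin n)) :
    arr (labL ℓ ∘ extP ρ) (id : Fin (n + 1) → Fin (n + 1)) (finRotate (n + 1)) =
      cyc (ℓ ∘ ρ) := by
  funext q
  obtain ⟨q1, q2, q3⟩ := q
  simp only [arr, cyc, Fin.sum_univ_castSucc, Function.comp_apply, extP_castSucc, extP_last,
    finRotate_castSucc', finRotate_last, labL, Fin.snoc_castSucc, Fin.snoc_last, id_eq,
    Prod.mk.injEq]

theorem sign_cycP {n : ℕ} (ρ : Perm (Fin n)) :
    Perm.sign (cycP ρ) = Perm.sign (finRotate (n + 1)) := by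
  rw [cycP, Perm.sign_mul, Perm.sign_mul, Perm.sign_inv, mul_comm, ← mul_assoc,
    Int.units_mul_self, one_mul]

theorem mult_cycP {n k : ℕ} {A : Type*} [AddCommGroup A]
    (θ : Arr (k + 1) (n + 1) → A) (h1 : ConjRel θ) (h2 : Bal θ) (ℓ : Fin n → Fin k)
    (ρ : Perm (Fin n)) :
    mult θ (labL ℓ) (1 : Perm (Fin (n + 1))) (cycP ρ) = θ (cyc (ℓ ∘ ρ)) := by
  have e1 := mult_relabel (mult θ (labL ℓ)) (mult_rel θ h1 _) (mult_bal θ h2 _) 1 (cycP ρ)
    (extP ρ)⁻¹
  have e2 := mult_reindex θ (labL ℓ) ((extP ρ)⁻¹ : Perm (Fin (n + 1)))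
    (finRotate (n + 1) * (extP ρ)⁻¹ : Perm (Fin (n + 1))) (extP ρ)
  have e3 : ((extP ρ)⁻¹ * 1 : Perm (Fin (n + 1))) = (extP ρ)⁻¹ := mul_one _
  have e4 : ((extP ρ)⁻¹ * cycP ρ : Perm (Fin (n + 1))) = finRotate (n + 1) * (extP ρ)⁻¹ := by
    rw [cycP, mul_assoc, inv_mul_cancel_left]
  rw [e3, e4] at e1
  have e5 : (((extP ρ)⁻¹ : Perm (Fin (n + 1))) : Fin (n + 1) → Fin (n + 1)) ∘ (extP ρ) = id := by
    funext x
    simp
  have e6 : ((finRotate (n + 1) * (extP ρ)⁻¹ : Perm (Fin (n + 1))) :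
      Fin (n + 1) → Fin (n + 1)) ∘ (extP ρ) = finRotate (n + 1) := by
    funext x
    simp [Perm.mul_apply]
  rw [e5, e6] at e2
  rw [← e1, ← e2, mult_inj θ _ _ _ Function.injective_id, arr_eq_cyc]

theorem cyc_torsion {n k m : ℕ} {A : Type*} [AddCommGroup A]
    (θ : Arr (k + 1) (n + 1) → A) (h1 : ConjRel θ) (h2 : Bal θ) (h3 : ∀ c, m < outd c 0 → θ c = 0)
    (G : (Fin n → Fin k) → ℤ) (hG : IsIdent m G) :
    n.factorial • ∑ v, G v • θ (cyc v) = 0 := by
  classical
  -- for each `ℓ`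
  have key : ∀ ℓ : Fin n → Fin k, ∑ ρ : Perm (Fin n), G (ℓ ∘ ρ) • θ (cyc (ℓ ∘ ρ)) = 0 := by
    intro ℓ
    have hr := mult_rel θ h1 (labL ℓ)
    have hb := mult_bal θ h2 (labL ℓ)
    have hz : ∀ s t : Fin (n + 1) → Fin (n + 1),
        m < (univ.filter (fun e => s e = (0 : Fin (n + 1)))).card → mult θ (labL ℓ) s t = 0 := by
      intro s t hst
      rw [mult, h3 _ (by rwa [outd_arr]), smul_zero]
    have hχ : ∀ J : Finset (Fin (n + 1)), J.card = m + 1 → ∀ σ : Perm (Fin (n + 1)),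
        ∑ τ ∈ univ.filter (fun τ : Perm (Fin (n + 1)) => ∀ x, x ∉ J → τ x = x),
          ((Perm.sign τ : ℤˣ) : ℤ) • (fun σ : Perm (Fin (n + 1)) =>
            ((Perm.sign σ : ℤˣ) : ℤ) • mult θ (labL ℓ) (1 : Perm (Fin (n + 1))) σ) (τ * σ) = 0 := by
      intro J hJ σ
      have hm := mult_merge (mult θ (labL ℓ)) hr hb hz J hJ 1 σ
      have : ∀ τ ∈ univ.filter (fun τ : Perm (Fin (n + 1)) => ∀ x, x ∉ J → τ x = x),
          ((Perm.sign τ : ℤˣ) : ℤ) • (fun σ : Perm (Fin (n + 1)) =>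
            ((Perm.sign σ : ℤˣ) : ℤ) • mult θ (labL ℓ) (1 : Perm (Fin (n + 1))) σ) (τ * σ) =
          ((Perm.sign σ : ℤˣ) : ℤ) • mult θ (labL ℓ) (1 : Perm (Fin (n + 1)))
            (τ * σ : Perm (Fin (n + 1))) := by
        intro τ _
        simp only []
        rw [smul_smul]
        congr 1
        rw [Perm.sign_mul, Units.val_mul, ← mul_assoc, ← Units.val_mul, Int.units_mul_self,
          Units.val_one, one_mul]
      rw [Finset.sum_congr rfl this, ← Finset.smul_sum, hm, smul_zero]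
    have hα : ∀ p q : Fin (n + 1) → Fin m,
        ∑ σ ∈ univ.filter (fun σ : Perm (Fin (n + 1)) => ∀ i, p (σ i) = q i),
          (fun σ : Perm (Fin (n + 1)) =>
            ∑ ρ : Perm (Fin n), if cycP ρ = σ then G (ℓ ∘ ρ) else 0) σ = 0 := by
      intro p q
      rw [Finset.sum_comm]
      refine Eq.trans ?_ (cycP_kill G hG ℓ p q)
      rw [Finset.sum_filter]
      refine Finset.sum_congr rfl fun ρ _ => ?_
      rw [Finset.sum_ite_eq]
      by_cases h : ∀ i, p (cycP ρ i) = q i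
      · rw [if_pos h, if_pos (Finset.mem_filter.2 ⟨Finset.mem_univ _, h⟩)]
      · rw [if_neg h, if_neg (fun hh => h (Finset.mem_filter.1 hh).2)]
    have hk := goodperm_kill (fun σ : Perm (Fin (n + 1)) =>
      ((Perm.sign σ : ℤˣ) : ℤ) • mult θ (labL ℓ) (1 : Perm (Fin (n + 1))) σ) hχ
      (fun σ : Perm (Fin (n + 1)) =>
        ∑ ρ : Perm (Fin n), if cycP ρ = σ then G (ℓ ∘ ρ) else 0) hα
    have hk2 : ∑ ρ : Perm (Fin n), G (ℓ ∘ ρ) •
        (((Perm.sign (finRotate (n + 1)) : ℤˣ) : ℤ) • θ (cyc (ℓ ∘ ρ))) = 0 := by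
      refine Eq.trans ?_ hk
      simp only [Finset.sum_smul]
      rw [Finset.sum_comm]
      refine Finset.sum_congr rfl fun ρ _ => ?_
      rw [Finset.sum_eq_single (cycP ρ)]
      · rw [if_pos rfl, sign_cycP, mult_cycP θ h1 h2]
      · intro σ _ hσ
        rw [if_neg (Ne.symm hσ), zero_smul]
      · intro h
        exact absurd (Finset.mem_univ _) h
    have hk3 : ((Perm.sign (finRotate (n + 1)) : ℤˣ) : ℤ) •
        ∑ ρ : Perm (Fin n), G (ℓ ∘ ρ) • θ (cyc (ℓ ∘ ρ)) = 0 := by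
      refine Eq.trans ?_ hk2
      rw [Finset.smul_sum]
      exact Finset.sum_congr rfl fun ρ _ => smul_comm _ _ _
    rcases Int.units_eq_one_or (Perm.sign (finRotate (n + 1))) with h | h
    · rwa [h, Units.val_one, one_smul] at hk3
    · rwa [h, Units.val_neg, Units.val_one, neg_smul, one_smul, neg_eq_zero] at hk3
  -- sum over `ℓ`
  have hsum : ∑ ℓ : Fin n → Fin k, ∑ ρ : Perm (Fin n), G (ℓ ∘ ρ) • θ (cyc (ℓ ∘ ρ)) = 0 :=
    Finset.sum_eq_zero fun ℓ _ => key ℓ
  rw [Finset.sum_comm] at hsum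
  have hρ : ∀ ρ : Perm (Fin n), ∑ ℓ : Fin n → Fin k, G (ℓ ∘ ρ) • θ (cyc (ℓ ∘ ρ)) =
      ∑ v, G v • θ (cyc v) := by
    intro ρ
    exact Fintype.sum_equiv (Equiv.arrowCongr ρ.symm (Equiv.refl (Fin k))) _ _ (by
      intro ℓ
      rfl)
  rw [Finset.sum_congr rfl fun ρ _ => hρ ρ, Finset.sum_const, Finset.card_univ,
    Fintype.card_perm, Fintype.card_fin] at hsum
  exact hsum

end TF
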