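import Pool.Agent.H66.TF.Defs
import Pool.Agent.H66.TF.Identity

/-!
# TF-HOMOG: homogeneous components of an identity of `M_m(ℤ)`

Let `g ∈ TZ m`. Only finitely many letters (`< k`) and degrees (`< B`) occur. For each `n` let
`G n v` be the coefficient of `g` at the word `v 0 ⋯ v (n-1)`. `ev a g = ∑_n ∑_v G n v • ∏ a (v j)` in every
ring. For `X : Fin k → M_m(ℤ)` and an integer `t` evaluate `g` at `t X` (letters `≥ k` at `0`):
`∑_n t^n (∑_v G n v ∏ X (v j)) = 0` for all `t ∈ ℤ`, so every component vanishes (polynomial in `t` with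
coefficients in `ℤ`, entrywise).
-/

open Finset Equiv

namespace TF

/-- the word with letters `v` -/
def wordOf {n k : ℕ} (v : Fin n → Fin k) : FreeMonoid ℕ :=
  FreeMonoid.ofList (List.ofFn fun j => ((v j : Fin k) : ℕ))

theorem lift_wordOf {R : Type} [Ring R] (a : ℕ → R) {n k : ℕ} (v : Fin n → Fin k) :
    FreeMonoid.lift a (wordOf v) = (List.ofFn fun j => a (v j)).prod := by
  unfold wordOf
  rw [FreeMonoid.lift_apply, FreeMonoid.toList_ofList, List.map_ofFn]
  rfl

theorem ev_eq_sum {R : Type} [Ring R] (a : ℕ → R) (g : FA) :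
    ev a g = ∑ w ∈ g.coeff.support, g.coeff w • FreeMonoid.lift a w := by
  unfold ev
  change (MonoidAlgebra.lift ℤ R (FreeMonoid ℕ) (FreeMonoid.lift a)) g = _
  rw [MonoidAlgebra.lift_apply]
  rfl

theorem wordOf_inj {k : ℕ} : Function.Injective
    (fun p : (Σ n : ℕ, (Fin n → Fin k)) => wordOf p.2) := by
  rintro ⟨n, v⟩ ⟨n', v'⟩ h
  have h1 : (List.ofFn fun j => ((v j : Fin k) : ℕ)) = List.ofFn fun j => ((v' j : Fin k) : ℕ) := h
  have h2 : n = n' := by
    have := congrArg List.length h1
    simpa using this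
  subst h2
  have h3 := List.ofFn_injective h1
  have h4 : v = v' := by
    funext j
    exact Fin.ext (congrFun h3 j)
  rw [h4]

theorem exists_bounds (g : FA) : ∃ k B : ℕ, ∀ w ∈ g.coeff.support,
    (FreeMonoid.toList w).length < B ∧ ∀ i ∈ FreeMonoid.toList w, i < k := by
  classical
  refine ⟨(g.coeff.support.sup fun w => (FreeMonoid.toList w).foldr max 0) + 1,
    (g.coeff.support.sup fun w => (FreeMonoid.toList w).length) + 1, ?_⟩
  intro w hw
  refine ⟨Nat.lt_succ_of_le (Finset.le_sup (f := fun w => (FreeMonoid.toList w).length) hw), ?_⟩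
  intro i hi
  refine Nat.lt_succ_of_le (le_trans ?_
    (Finset.le_sup (f := fun w => (FreeMonoid.toList w).foldr max 0) hw))
  generalize FreeMonoid.toList w = l at hi
  induction l with
  | nil => simp at hi
  | cons x l ih =>
    rw [List.foldr_cons]
    rcases List.mem_cons.mp hi with h | h
    · exact h ▸ le_max_left _ _
    · exact (ih h).trans (le_max_right _ _)

theorem exists_wordOf {k : ℕ} (w : FreeMonoid ℕ) (h : ∀ i ∈ FreeMonoid.toList w, i < k) :
    ∃ v : Fin (FreeMonoid.toList w).length → Fin k, wordOf v = w := by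
  refine ⟨fun j => ⟨(FreeMonoid.toList w).get j, h _ (List.get_mem _ _)⟩, ?_⟩
  unfold wordOf
  simp only
  have : (List.ofFn fun j => (FreeMonoid.toList w).get j) = FreeMonoid.toList w := List.ofFn_get _
  rw [this]
  rfl

theorem ev_eq_sum' (g : FA) (k B : ℕ) (hb : ∀ w ∈ g.coeff.support,
    (FreeMonoid.toList w).length < B ∧ ∀ i ∈ FreeMonoid.toList w, i < k)
    {R : Type} [Ring R] (a : ℕ → R) :
    ev a g = ∑ n ∈ range B, ∑ v : Fin n → Fin k,
      g.coeff (wordOf v) • (List.ofFn fun j => a (v j)).prod := by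
  classical
  rw [ev_eq_sum, Finset.sum_sigma']
  have h1 : ∑ x ∈ (range B).sigma (fun n => (univ : Finset (Fin n → Fin k))),
      g.coeff (wordOf x.2) • (List.ofFn fun j => a (x.2 j)).prod =
      ∑ w ∈ ((range B).sigma (fun n => (univ : Finset (Fin n → Fin k)))).image
        (fun p => wordOf p.2), g.coeff w • FreeMonoid.lift a w := by
    rw [Finset.sum_image (wordOf_inj.injOn)]
    refine Finset.sum_congr rfl fun x _ => ?_
    rw [lift_wordOf]
  rw [h1]
  apply Finset.sum_subset
  · intro w hw
    obtain ⟨h2, h3⟩ := hb w hw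
    obtain ⟨v, hv⟩ := exists_wordOf w h3
    rw [Finset.mem_image]
    exact ⟨⟨_, v⟩, Finset.mem_sigma.mpr ⟨Finset.mem_range.mpr h2, Finset.mem_univ _⟩, hv⟩
  · intro w _ hw
    rw [Finsupp.notMem_support_iff.mp hw, zero_smul]

theorem poly_zero (B : ℕ) (c : ℕ → ℤ) (h : ∀ t : ℤ, ∑ n ∈ range B, t ^ n * c n = 0) :
    ∀ n ∈ range B, c n = 0 := by
  intro n hn
  have h1 : (∑ n ∈ range B, Polynomial.C (c n) * Polynomial.X ^ n : Polynomial ℤ) = 0 := by
    apply Polynomial.funext
    intro t
    rw [Polynomial.eval_finsetSum, Polynomial.eval_zero, ← h t]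
    refine Finset.sum_congr rfl fun i _ => ?_
    simp [mul_comm]
  have h2 := congrArg (fun p => Polynomial.coeff p n) h1
  simp only [Polynomial.finsetSum_coeff, Polynomial.coeff_C_mul_X_pow, Polynomial.coeff_zero] at h2
  rw [Finset.sum_ite_eq] at h2
  rwa [if_pos hn] at h2

theorem homog {m : ℕ} (g : FA) (hg : g ∈ TZ m) :
    ∃ (k B : ℕ) (G : ∀ n, (Fin n → Fin k) → ℤ), (∀ n, IsIdent m (G n)) ∧
      ∀ {R : Type} [Ring R] (a : ℕ → R), ev a g =
        ∑ n ∈ range B, ∑ v : Fin n → Fin k, G n v • (List.ofFn fun j => a (v j)).prod := by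
  classical
  obtain ⟨k, B, hb⟩ := exists_bounds g
  refine ⟨k, B, fun n v => g.coeff (wordOf v), ?_, fun a => ev_eq_sum' g k B hb a⟩
  intro n X
  rcases lt_or_ge n B with hn | hn
  · -- evaluation at t X
    have key : ∀ t : ℤ, ∑ n ∈ range B, t ^ n • ∑ v : Fin n → Fin k,
        g.coeff (wordOf v) • (List.ofFn fun j => X (v j)).prod = 0 := by
      intro t
      have h1 : ev (fun i => if h : i < k then t • X ⟨i, h⟩ else 0) g = 0 := hg _
      rw [ev_eq_sum' g k B hb] at h1
      rw [← h1]
      refine Finset.sum_congr rfl fun n _ => ?_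
      rw [Finset.smul_sum]
      refine Finset.sum_congr rfl fun v _ => ?_
      have h2 : (List.ofFn fun j => (if h : ((v j : Fin k) : ℕ) < k then
          t • X ⟨((v j : Fin k) : ℕ), h⟩ else (0 : Matrix (Fin m) (Fin m) ℤ))).prod =
          t ^ n • (List.ofFn fun j => X (v j)).prod := by
        have h3 := MultilinearMap.map_smul_univ
          (MultilinearMap.mkPiAlgebraFin ℤ n (Matrix (Fin m) (Fin m) ℤ))
          (fun _ => t) (fun j => X (v j))
        rw [MultilinearMap.mkPiAlgebraFin_apply, MultilinearMap.mkPiAlgebraFin_apply] at h3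
        rw [Finset.prod_const, Finset.card_univ, Fintype.card_fin] at h3
        rw [← h3]
        congr 2
        funext j
        rw [dif_pos (v j).2]
      rw [h2, smul_comm]
    ext i j
    have h2 := poly_zero B (fun n => (∑ v : Fin n → Fin k,
        g.coeff (wordOf v) • (List.ofFn fun j => X (v j)).prod) i j) (by
      intro t
      have h3 := congrFun (congrFun (key t) i) j
      rw [Matrix.sum_apply] at h3
      simpa using h3) n (Finset.mem_range.mpr hn)
    exact h2
  · apply Finset.sum_eq_zero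
    intro v _
    have : g.coeff (wordOf v) = 0 := by
      by_contra h
      have h1 := (hb _ (Finsupp.mem_support_iff.mpr h)).1
      have h2 : (FreeMonoid.toList (wordOf v)).length = n := by
        unfold wordOf
        rw [FreeMonoid.toList_ofList, List.length_ofFn]
      omega
    change g.coeff (wordOf v) • _ = _
    rw [this, zero_smul]

end TF
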