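import Pool.Agent.H66.TF.Chain
import Pool.Agent.H66.TF.CapInT

/-!
# The internal theorem
-/

namespace TF

theorem internal (T : Submodule ℤ FA) (hT : IsTI T) (p : ℕ) (hp : p.Prime)
    (hpT : ∀ f, ct f = 0 → (p : ℤ) • f ∈ T) (f : FA) (hf : f ∈ T)
    (hf' : ∃ w, ¬ (p : ℤ) ∣ f.coeff w) :
    ∃ Q : Submodule ℤ FA, IsTI Q ∧ IsPure Q ∧ HasUnit Q ∧ Q ≤ T := by
  obtain ⟨M, hM⟩ := cap_in_T T hT p hp hpT f hf hf'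
  obtain ⟨Q, h1, h2, h3, h4⟩ := chain M
  exact ⟨Q, h1, h2, h3, h4.trans hM⟩

end TF
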