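import Pool.Agent.H66.TF.Garnir

/-!
# TF-STRAIGHT: simultaneous straightening of pairs of matrices

Let `ξ` be a function of pairs with `RowRel`, `ColRel`, `Match`. Every value `ξ t t'` is a
ℤ-combination of values at pairs `(b, b')` of LR matrices with the same row sums and the same column
sums, the same total as `t`, and first column sum at least that of `t`.

Measure of a pair `(t, t')` with equal row and column sums: lexicographically a weighted sum `Ψ` of
the row and column sums and then `Φ`, the sum of all north-west sums.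
-/

set_option linter.unusedSectionVars false

open Finset

namespace TF

namespace Straight

section Lines

variable {σ : Type*} [Fintype σ] [DecidableEq σ] {ι : Type*} [Fintype ι] [LinearOrder ι]

/-- `w` arises from `t` by redistributing the units within the pairs of cells `u j`, `d j` -/
def Redis (u d : ι → σ) (t w : σ → ℕ) : Prop :=
  (∀ v, (∀ j, u j ≠ v) → (∀ j, d j ≠ v) → w v = t v) ∧ ∀ j, w (u j) + w (d j) = t (u j) + t (d j)

/-- replace the values of `t` on the two lines -/
noncomputable def repl (u d : ι → σ) (t : σ → ℕ) (x y : ι → ℕ) (v : σ) : ℕ := by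
  classical
  exact if h : ∃ j, u j = v then x h.choose else if h : ∃ j, d j = v then y h.choose else t v

theorem repl_u {u d : ι → σ} (hu : Function.Injective u) (t : σ → ℕ) (x y : ι → ℕ) (j : ι) :
    repl u d t x y (u j) = x j := by
  unfold repl
  have h : ∃ j', u j' = u j := ⟨j, rfl⟩
  rw [dif_pos h, hu h.choose_spec]

theorem repl_d {u d : ι → σ} (hd : Function.Injective d) (hud : ∀ i j, u i ≠ d j)
    (t : σ → ℕ) (x y : ι → ℕ) (j : ι) : repl u d t x y (d j) = y j := by
  unfold repl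
  have h : ¬ ∃ j', u j' = d j := fun ⟨j', h⟩ => hud _ _ h
  have h' : ∃ j', d j' = d j := ⟨j, rfl⟩
  rw [dif_neg h, dif_pos h', hd h'.choose_spec]

theorem repl_off {u d : ι → σ} (t : σ → ℕ) (x y : ι → ℕ) {v : σ} (h : ∀ j, u j ≠ v)
    (h' : ∀ j, d j ≠ v) : repl u d t x y v = t v := by
  unfold repl
  rw [dif_neg (fun ⟨j, e⟩ => h j e), dif_neg (fun ⟨j, e⟩ => h' j e)]

theorem repl_self {u d : ι → σ} (hu : Function.Injective u) (hd : Function.Injective d)
    (hud : ∀ i j, u i ≠ d j) (t : σ → ℕ) :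
    repl u d t (fun j => t (u j)) (fun j => t (d j)) = t := by
  funext v
  by_cases h : ∃ j, u j = v
  · obtain ⟨j, rfl⟩ := h
    exact repl_u hu _ _ _ _
  by_cases h' : ∃ j, d j = v
  · obtain ⟨j, rfl⟩ := h'
    exact repl_d hd hud _ _ _ _
  · exact repl_off _ _ _ (fun j e => h ⟨j, e⟩) (fun j e => h' ⟨j, e⟩)

theorem sum_filter_inj {u : ι → σ} (hu : Function.Injective u) (κ : ι → ℕ) (j : ι) :
    ∑ j' ∈ univ.filter (fun j' => u j' = u j), κ j' = κ j := by
  classical
  have : univ.filter (fun j' => u j' = u j) = {j} := by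
    ext j'
    simp only [mem_filter, mem_univ, true_and, mem_singleton]
    exact ⟨fun h => hu h, fun h => by rw [h]⟩
  rw [this, sum_singleton]

theorem sum_filter_off {u : ι → σ} (κ : ι → ℕ) {v : σ} (h : ∀ j, u j ≠ v) :
    ∑ j' ∈ univ.filter (fun j' => u j' = v), κ j' = 0 := by
  apply sum_eq_zero
  intro j hj
  exact absurd (mem_filter.1 hj).2 (h j)

theorem mv_repl {u d : ι → σ} (hu : Function.Injective u) (hd : Function.Injective d)
    (hud : ∀ i j, u i ≠ d j) (t : σ → ℕ) (x y κ : ι → ℕ) :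
    mv d u κ (repl u d t x y) = repl u d t (x - κ) (y + κ) := by
  funext v
  unfold mv
  by_cases h : ∃ j, u j = v
  · obtain ⟨j, rfl⟩ := h
    rw [sum_filter_inj hu, sum_filter_off κ (fun i e => hud _ _ e.symm), repl_u hu, repl_u hu]
    simp
  by_cases h' : ∃ j, d j = v
  · obtain ⟨j, rfl⟩ := h'
    rw [sum_filter_inj hd, sum_filter_off κ (fun i e => hud _ _ e), repl_d hd hud, repl_d hd hud]
    simp
  · rw [sum_filter_off κ (fun j e => h ⟨j, e⟩), sum_filter_off κ (fun j e => h' ⟨j, e⟩),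
      repl_off _ _ _ (fun j e => h ⟨j, e⟩) (fun j e => h' ⟨j, e⟩),
      repl_off _ _ _ (fun j e => h ⟨j, e⟩) (fun j e => h' ⟨j, e⟩)]
    simp

theorem redis_repl {u d : ι → σ} (hu : Function.Injective u) (hd : Function.Injective d)
    (hud : ∀ i j, u i ≠ d j) (t : σ → ℕ) (x y : ι → ℕ)
    (h : ∀ j, x j + y j = t (u j) + t (d j)) : Redis u d t (repl u d t x y) := by
  refine ⟨fun v h1 h2 => repl_off _ _ _ h1 h2, fun j => ?_⟩
  rw [repl_u hu, repl_d hd hud, h j]

theorem redis_mv {u d : ι → σ} (hu : Function.Injective u) (hd : Function.Injective d)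
    (hud : ∀ i j, u i ≠ d j) (t : σ → ℕ) (κ : ι → ℕ) (hκ : ∀ j, κ j ≤ t (d j)) :
    Redis u d t (mv u d κ t) := by
  refine ⟨fun v h1 h2 => ?_, fun j => ?_⟩
  · unfold mv
    rw [sum_filter_off κ h1, sum_filter_off κ h2]
    simp
  · unfold mv
    rw [sum_filter_inj hu, sum_filter_inj hd, sum_filter_off κ (fun i e => hud _ _ e),
      sum_filter_off κ (fun i e => hud _ _ e.symm)]
    have := hκ j
    omega

/-- the key identity for weighted sums of a redistribution -/
theorem wsum_redis {u d : ι → σ} (hu : Function.Injective u) (hd : Function.Injective d)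
    (hud : ∀ i j, u i ≠ d j) {t w : σ → ℕ} (h : Redis u d t w) (f : σ → ℕ) (δ : ι → ℕ)
    (hf : ∀ j, f (u j) = f (d j) + δ j) :
    ∑ v, f v * w v + ∑ j, δ j * t (u j) = ∑ v, f v * t v + ∑ j, δ j * w (u j) := by
  classical
  have split : ∀ g : σ → ℕ, ∑ v, g v = ∑ v ∈ univ.filter (fun v => (∀ j, u j ≠ v) ∧ ∀ j, d j ≠ v), g v
      + (∑ j, g (u j) + ∑ j, g (d j)) := by
    intro g
    have h1 : ∑ j, g (u j) = ∑ v ∈ univ.image u, g v := by
      rw [sum_image (fun a _ b _ e => hu e)]
    have h2 : ∑ j, g (d j) = ∑ v ∈ univ.image d, g v := by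
      rw [sum_image (fun a _ b _ e => hd e)]
    have hdis : Disjoint (univ.image u) (univ.image d) := by
      rw [Finset.disjoint_left]
      intro v hv hv'
      obtain ⟨i, _, rfl⟩ := mem_image.1 hv
      obtain ⟨j, _, e⟩ := mem_image.1 hv'
      exact hud i j e.symm
    rw [h1, h2, ← sum_union hdis, ← sum_filter_add_sum_filter_not univ
      (fun v => (∀ j, u j ≠ v) ∧ ∀ j, d j ≠ v) g]
    congr 1
    apply sum_congr _ fun _ _ => rfl
    ext v
    simp only [mem_filter, mem_univ, true_and, mem_union, mem_image, not_and_or, not_forall,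
      not_not]
  rw [split (fun v => f v * w v), split (fun v => f v * t v)]
  have e1 : ∑ v ∈ univ.filter (fun v => (∀ j, u j ≠ v) ∧ ∀ j, d j ≠ v), f v * w v =
      ∑ v ∈ univ.filter (fun v => (∀ j, u j ≠ v) ∧ ∀ j, d j ≠ v), f v * t v := by
    apply sum_congr rfl
    intro v hv
    obtain ⟨_, h1, h2⟩ := mem_filter.1 hv
    rw [h.1 v h1 h2]
  have e2 : ∑ j, f (u j) * w (u j) + ∑ j, f (d j) * w (d j) + ∑ j, δ j * t (u j) =
      ∑ j, f (u j) * t (u j) + ∑ j, f (d j) * t (d j) + ∑ j, δ j * w (u j) := by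
    rw [← sum_add_distrib, ← sum_add_distrib, ← sum_add_distrib, ← sum_add_distrib]
    apply sum_congr rfl
    intro j _
    rw [hf j]
    have h1 := h.2 j
    have h2 : f (d j) * (w (u j) + w (d j)) = f (d j) * (t (u j) + t (d j)) := by rw [h1]
    linarith
  rw [e1]
  omega

/-- one step of the straightening -/
theorem step {A : Type*} [AddCommGroup A] {u d : ι → σ} (hu : Function.Injective u)
    (hd : Function.Injective d) (hud : ∀ i j, u i ≠ d j) (ξ : (σ → ℕ) → (σ → ℕ) → A)
    (rel : ∀ t t', Move d u (fun w => ξ w t') t = Move u d (fun w => ξ t w) t')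
    (hm : ∀ t t', ∑ j, t (u j) ≠ ∑ j, t' (u j) → ξ t t' = 0) (S : AddSubgroup A) (t t' : σ → ℕ)
    (hs : ∑ j, t (u j) = ∑ j, t' (u j))
    (h1 : ∀ w w', Redis u d t w → Redis u d t' w' → ∑ j, t (u j) < ∑ j, w (u j) → ξ w w' ∈ S)
    (h2 : ∀ w, Redis u d t w → ∑ j, w (u j) = ∑ j, t (u j) →
      (∃ j, w (u j) ≠ t (u j)) → (∀ j, ∑ a ∈ univ.filter (fun a => a ≤ j), t (u a) ≤
        ∑ a ∈ univ.filter (fun a => a ≤ j), w (u a)) → ξ w t' ∈ S)
    (hbad : ¬ Good (fun j => t (u j)) (fun j => t (d j))) : ξ t t' ∈ S := by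
  classical
  have key := garnir (fun x y => ξ (repl u d t x y) t') S (fun j => t (u j)) (fun j => t (d j))
    ?_ hbad
  · rw [repl_self hu hd hud] at key
    have hle : AddSubgroup.closure {z | ∃ x' y' : ι → ℕ,
        x' + y' = (fun j => t (u j)) + (fun j => t (d j)) ∧
        ∑ a, x' a = ∑ a, t (u a) ∧ x' ≠ (fun j => t (u j)) ∧
        (∀ j, ∑ a ∈ univ.filter (fun a => a ≤ j), t (u a) ≤
          ∑ a ∈ univ.filter (fun a => a ≤ j), x' a) ∧
        z = ξ (repl u d t x' y') t'} ≤ S := by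
      rw [AddSubgroup.closure_le]
      rintro z ⟨x', y', e1, e2, e3, e4, rfl⟩
      refine h2 _ (redis_repl hu hd hud t x' y' fun j => congrFun e1 j) ?_ ?_ ?_
      · rw [← e2]
        exact sum_congr rfl fun j _ => repl_u hu _ _ _ _
      · obtain ⟨j, hj⟩ := Function.ne_iff.1 e3
        exact ⟨j, by rw [repl_u hu]; exact hj⟩
      · intro j
        refine (e4 j).trans (le_of_eq ?_)
        exact sum_congr rfl fun a _ => (repl_u hu _ _ _ _).symm
    exact (sup_le le_rfl hle) key
  · intro x y hxy hlt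
    have hR := rel (repl u d t x y) t'
    have hL : Move d u (fun w => ξ w t') (repl u d t x y) =
        ∑ κ ∈ (Finset.Iic x).filter (fun κ => ∑ a, κ a = ∑ a, x a - ∑ a, t (u a)),
        (∏ a, (y a + κ a).choose (κ a)) • ξ (repl u d t (x - κ) (y + κ)) t' := by
      unfold Move
      have e : (fun j => repl u d t x y (u j)) = x := funext fun j => repl_u hu _ _ _ _
      rw [e]
      have e' : ∀ κ : ι → ℕ, (∏ j, (repl u d t x y (d j) + κ j).choose (κ j)) •
          ξ (mv d u κ (repl u d t x y)) t' =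
          (∏ a, (y a + κ a).choose (κ a)) • ξ (repl u d t (x - κ) (y + κ)) t' := by
        intro κ
        rw [mv_repl hu hd hud]
        congr 1
        exact prod_congr rfl fun j _ => by rw [repl_d hd hud]
      rw [sum_congr rfl fun κ _ => e' κ]
      symm
      apply sum_filter_of_ne
      intro κ hκ hne
      by_contra hc
      apply hne
      rw [hm, smul_zero]
      have hκ' : ∀ j, κ j ≤ x j := fun j => (Finset.mem_Iic.1 hκ) j
      have e5 : ∑ j, repl u d t (x - κ) (y + κ) (u j) = ∑ j, (x - κ) j :=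
        sum_congr rfl fun j _ => repl_u hu _ _ _ _
      have e3 : ∑ j, (x - κ) j + ∑ j, κ j = ∑ j, x j := by
        rw [← sum_add_distrib]
        exact sum_congr rfl fun j _ => by
          have := hκ' j
          simp only [Pi.sub_apply]
          omega
      intro e4
      apply hc
      have e6 : ∑ j, (x - κ) j = ∑ j, t (u j) := by rw [← e5, e4, hs]
      rw [e6] at e3
      omega
    rw [← hL, hR]
    unfold Move
    apply AddSubgroup.sum_mem
    intro κ hκ
    apply AddSubgroup.nsmul_mem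
    apply h1
    · exact redis_repl hu hd hud t x y fun j => congrFun hxy j
    · exact redis_mv hu hd hud t' κ fun j => (Finset.mem_Iic.1 hκ) j
    · rw [sum_congr rfl fun j _ => repl_u hu t x y j]
      exact hlt

/-- exchange of the order of summation -/
theorem sum_card_ge (z : ι → ℕ) :
    ∑ j, (univ.filter (fun q => j ≤ q)).card * z j =
      ∑ q, ∑ j ∈ univ.filter (fun j => j ≤ q), z j := by
  have h1 : ∀ j, (univ.filter (fun q => j ≤ q)).card * z j =
      ∑ q, if j ≤ q then z j else 0 := by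
    intro j
    rw [← sum_filter, sum_const, smul_eq_mul]
  rw [sum_congr rfl fun j _ => h1 j, sum_comm]
  exact sum_congr rfl fun q _ => by rw [sum_filter]

theorem sum_card_lt {z z' : ι → ℕ} (hne : ∃ j, z' j ≠ z j)
    (h : ∀ j, ∑ a ∈ univ.filter (fun a => a ≤ j), z a ≤
      ∑ a ∈ univ.filter (fun a => a ≤ j), z' a) :
    ∑ j, (univ.filter (fun q => j ≤ q)).card * z j <
      ∑ j, (univ.filter (fun q => j ≤ q)).card * z' j := by
  classical
  rw [sum_card_ge, sum_card_ge]
  apply sum_lt_sum (fun q _ => h q)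
  by_contra hc
  push Not at hc
  have heq : ∀ q, ∑ a ∈ univ.filter (fun a => a ≤ q), z a =
      ∑ a ∈ univ.filter (fun a => a ≤ q), z' a := fun q =>
    le_antisymm (h q) (hc q (mem_univ q))
  have hall : ∀ q, z' q = z q := by
    intro q
    induction q using WellFoundedLT.induction with
    | ind q ih =>
      have e : univ.filter (fun a => a ≤ q) = insert q (univ.filter (fun a => a < q)) := by
        ext a
        simp only [mem_filter, mem_univ, true_and, mem_insert]
        exact le_iff_eq_or_lt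
      have h1 := heq q
      rw [e, sum_insert (by simp), sum_insert (by simp)] at h1
      have h2 : ∑ a ∈ univ.filter (fun a => a < q), z a =
          ∑ a ∈ univ.filter (fun a => a < q), z' a :=
        sum_congr rfl fun a ha => (ih a (mem_filter.1 ha).2).symm
      omega
  obtain ⟨j, hj⟩ := hne
  exact hj (hall j)

end Lines

theorem Move_equiv {σ ι ι' A : Type*} [DecidableEq σ] [Fintype ι] [DecidableEq ι] [Fintype ι']
    [DecidableEq ι'] [AddCommGroup A] (e : ι' ≃ ι) (s t : ι → σ) (θ : (σ → ℕ) → A) (c : σ → ℕ) :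
    Move (fun j => s (e j)) (fun j => t (e j)) θ c = Move s t θ c := by
  unfold Move
  refine Finset.sum_equiv (Equiv.arrowCongr e (Equiv.refl ℕ)) ?_ ?_
  · intro κ
    rw [Finset.mem_Iic, Finset.mem_Iic]
    constructor
    · intro h j
      have := h (e.symm j)
      simpa using this
    · intro h j
      have := h (e j)
      simpa using this
  · intro κ _
    have h1 : ∀ κ' : ι → ℕ, ∀ j', (fun j => κ' j) j' = κ' j' := fun _ _ => rfl
    have h2 : ∀ r : ι → σ, ∀ v, ∑ j ∈ univ.filter (fun j => r (e j) = v), κ j =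
        ∑ j ∈ univ.filter (fun j => r j = v), (Equiv.arrowCongr e (Equiv.refl ℕ)) κ j := by
      intro r v
      refine Finset.sum_equiv e ?_ ?_
      · intro j
        simp
      · intro j _
        simp
    congr 1
    · refine Fintype.prod_equiv e _ _ fun j => ?_
      simp
    · congr 1
      funext v
      unfold mv
      rw [h2 s v, h2 t v]

section Main

variable {K N : ℕ}

/-- number of vertices `≥ a` -/
def cC (a : Fin N) : ℕ := (univ.filter (fun q : Fin N => a ≤ q)).card

/-- number of rows `≥ p` -/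
def cR (p : Fin K ×ₗ Fin N) : ℕ := (univ.filter (fun q : Fin K ×ₗ Fin N => p ≤ q)).card

theorem cC_succ {a a' : Fin N} (h : (a' : ℕ) = a + 1) : cC a = cC a' + 1 := by
  unfold cC
  have e : univ.filter (fun q : Fin N => a ≤ q) =
      insert a (univ.filter (fun q : Fin N => a' ≤ q)) := by
    ext q
    simp only [mem_filter, mem_univ, true_and, mem_insert, Fin.le_def, Fin.ext_iff]
    omega
  rw [e, card_insert_of_notMem]
  simp only [mem_filter, mem_univ, true_and, Fin.le_def]
  omega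

theorem cR_succ (i : Fin K) {ρ ρ' : Fin N} (h : (ρ' : ℕ) = ρ + 1) :
    cR (toLex (i, ρ)) = cR (toLex (i, ρ')) + 1 := by
  unfold cR
  have e : univ.filter (fun q : Fin K ×ₗ Fin N => toLex (i, ρ) ≤ q) =
      insert (toLex (i, ρ)) (univ.filter (fun q : Fin K ×ₗ Fin N => toLex (i, ρ') ≤ q)) := by
    ext q
    obtain ⟨⟨j, τ⟩, rfl⟩ := toLex.surjective q
    simp only [mem_filter, mem_univ, true_and, mem_insert, Prod.Lex.toLex_le_toLex,
      EmbeddingLike.apply_eq_iff_eq, Prod.mk.injEq, Fin.le_def, Fin.lt_def, Fin.ext_iff]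
    omega
  rw [e, card_insert_of_notMem]
  simp only [mem_filter, mem_univ, true_and, Prod.Lex.toLex_le_toLex, Fin.le_def, Fin.lt_def]
  omega

/-- weight of the row and column sums -/
def fPsi (v : Idx K N) : ℕ := cC v.2.1 + cC v.2.2

/-- weight of the north-west sums -/
def fPhi (v : Idx K N) : ℕ := cR (toLex (v.1, v.2.1)) * cC v.2.2

/-- weighted sum -/
def wsum (f : Idx K N → ℕ) (t : Arr K N) : ℕ := ∑ v, f v * t v

theorem wsum_le (f : Idx K N → ℕ) (t : Arr K N) : wsum f t ≤ (∑ v, f v) * tot t := by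
  unfold wsum tot
  rw [mul_sum]
  exact sum_le_sum fun v _ => Nat.mul_le_mul_right _
    (single_le_sum (f := f) (fun _ _ => Nat.zero_le _) (mem_univ v))

/-- the row sums and the column sums agree -/
def Mt (t t' : Arr K N) : Prop := (∀ i ρ, rsum t i ρ = rsum t' i ρ) ∧ ∀ a, ind t a = ind t' a

theorem tot_eq_rsum (t : Arr K N) : tot t = ∑ i, ∑ ρ, rsum t i ρ := by
  unfold tot rsum rowc
  rw [Fintype.sum_prod_type]
  exact sum_congr rfl fun i _ => by rw [Fintype.sum_prod_type]

theorem wsum_fPsi (t : Arr K N) :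
    wsum fPsi t = ∑ i, ∑ ρ, cC ρ * rsum t i ρ + ∑ a, cC a * ind t a := by
  unfold wsum fPsi
  rw [sum_congr rfl fun v _ => add_mul (cC v.2.1) (cC v.2.2) (t v), sum_add_distrib]
  congr 1
  · rw [Fintype.sum_prod_type]
    refine sum_congr rfl fun i _ => ?_
    rw [Fintype.sum_prod_type]
    refine sum_congr rfl fun ρ _ => ?_
    unfold rsum rowc
    rw [mul_sum]
  · rw [← Fintype.sum_equiv (Equiv.prodAssoc (Fin K) (Fin N) (Fin N))
      (fun q => cC q.2 * t (q.1.1, q.1.2, q.2)) (fun v => cC v.2.2 * t v) (fun q => rfl),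
      Fintype.sum_prod_type_right]
    refine sum_congr rfl fun a _ => ?_
    unfold ind rgt
    rw [mul_sum]

theorem Mt.tot_eq {t t' : Arr K N} (h : Mt t t') : tot t = tot t' := by
  rw [tot_eq_rsum, tot_eq_rsum]
  exact sum_congr rfl fun i _ => sum_congr rfl fun ρ _ => h.1 i ρ

theorem Mt.psi_eq {t t' : Arr K N} (h : Mt t t') : wsum fPsi t = wsum fPsi t' := by
  rw [wsum_fPsi, wsum_fPsi]
  congr 1
  · exact sum_congr rfl fun i _ => sum_congr rfl fun ρ _ => by rw [h.1 i ρ]
  · exact sum_congr rfl fun a _ => by rw [h.2 a]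

theorem Mt.symm {t t' : Arr K N} (h : Mt t t') : Mt t' t :=
  ⟨fun i ρ => (h.1 i ρ).symm, fun a => (h.2 a).symm⟩

theorem ind_eq_wsum (t : Arr K N) (a : Fin N) :
    ind t a = wsum (fun v => if v.2.2 = a then 1 else 0) t := by
  have h := Fintype.sum_equiv (Equiv.prodAssoc (Fin K) (Fin N) (Fin N))
      (fun q => (if q.2 = a then 1 else 0) * t (q.1.1, q.1.2, q.2))
      (fun v => (if v.2.2 = a then 1 else 0) * t v) (fun q => rfl)
  have h2 : ∑ q : (Fin K × Fin N) × Fin N, (if q.2 = a then 1 else 0) * t (q.1.1, q.1.2, q.2) =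
      ∑ p : Fin K × Fin N, t (p.1, p.2, a) := by
    rw [Fintype.sum_prod_type_right]
    refine (sum_eq_single a ?_ ?_).trans ?_
    · intro b _ hb
      refine sum_eq_zero fun p _ => ?_
      simp [hb]
    · intro h
      exact absurd (mem_univ a) h
    · refine sum_congr rfl fun p _ => ?_
      simp
  unfold ind rgt wsum
  rw [← h, h2]

theorem tot_eq_wsum (t : Arr K N) : tot t = wsum (fun _ => 1) t := by
  unfold tot wsum
  exact sum_congr rfl fun v _ => (one_mul _).symm

/-- the measure -/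
def Ms (D : ℕ) (t t' : Arr K N) : ℕ :=
  (2 * ((∑ v : Idx K N, fPhi v) * D) + 1) * (wsum fPsi t + wsum fPsi t') +
    (wsum fPhi t + wsum fPhi t')

theorem Ms_comm (D : ℕ) (t t' : Arr K N) : Ms D t t' = Ms D t' t := by
  unfold Ms
  rw [add_comm (wsum fPsi t), add_comm (wsum fPhi t)]

/-- the properties of two adjacent lines -/
structure Line {n : ℕ} {ι : Type*} [Fintype ι] [LinearOrder ι] (u d : ι → Idx K (n + 1)) :
    Prop where
  hu : Function.Injective u
  hd : Function.Injective d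
  hud : ∀ i j, u i ≠ d j
  h0 : ∃ δ : ℕ, ∀ j, (if (u j).2.2 = 0 then 1 else 0) = (if (d j).2.2 = 0 then 1 else 0) + δ
  hPsi : ∀ j, fPsi (u j) = fPsi (d j) + 1
  hPhi : ∀ j, fPhi (u j) = fPhi (d j) + (univ.filter (fun q => j ≤ q)).card

theorem line_row {n : ℕ} (i : Fin K) {ρ ρ' : Fin (n + 1)} (h : (ρ' : ℕ) = ρ + 1) :
    Line (rowc i ρ) (rowc i ρ') where
  hu a b e := by
    simp only [rowc, Prod.mk.injEq, true_and] at e
    exact e
  hd a b e := by
    simp only [rowc, Prod.mk.injEq, true_and] at e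
    exact e
  hud a b e := by
    simp only [rowc, Prod.mk.injEq, true_and] at e
    have := congrArg Fin.val e.1
    omega
  h0 := ⟨0, fun j => rfl⟩
  hPsi a := by
    show cC ρ + cC a = cC ρ' + cC a + 1
    rw [cC_succ h]
    ring
  hPhi a := by
    show cR (toLex (i, ρ)) * cC a = cR (toLex (i, ρ')) * cC a + cC a
    rw [cR_succ i h]
    ring

theorem line_col {n : ℕ} {a a' : Fin (n + 1)} (h : (a' : ℕ) = a + 1) :
    Line (fun p : Fin K ×ₗ Fin (n + 1) => rgt a (ofLex p)) (fun p => rgt a' (ofLex p)) where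
  hu p q e := by
    simp only [rgt, Prod.mk.injEq, and_true] at e
    exact ofLex.injective (Prod.ext e.1 e.2)
  hd p q e := by
    simp only [rgt, Prod.mk.injEq, and_true] at e
    exact ofLex.injective (Prod.ext e.1 e.2)
  hud p q e := by
    simp only [rgt, Prod.mk.injEq] at e
    have := congrArg Fin.val e.2.2
    omega
  h0 := by
    have h1 : a' ≠ 0 := by
      intro e
      rw [e] at h
      simp at h
    refine ⟨if a = 0 then 1 else 0, fun j => ?_⟩
    show (if a = 0 then 1 else 0) = (if a' = 0 then 1 else 0) + _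
    rw [if_neg h1, zero_add]
  hPsi p := by
    show cC (ofLex p).2 + cC a = cC (ofLex p).2 + cC a' + 1
    rw [cC_succ h]
    ring
  hPhi p := by
    show cR (toLex ((ofLex p).1, (ofLex p).2)) * cC a =
      cR (toLex ((ofLex p).1, (ofLex p).2)) * cC a' + cR p
    rw [cC_succ h]
    show cR p * (cC a' + 1) = cR p * cC a' + cR p
    ring

theorem main_step {n : ℕ} {ι : Type*} [Fintype ι] [LinearOrder ι] {u d : ι → Idx K (n + 1)}
    (L : Line u d) {A : Type*} [AddCommGroup A] (ξ : Arr K (n + 1) → Arr K (n + 1) → A)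
    (rel : ∀ t t', Move d u (fun w => ξ w t') t = Move u d (fun w => ξ t w) t')
    (hml : ∀ t t', ∑ j, t (u j) ≠ ∑ j, t' (u j) → ¬ Mt t t')
    (hm : ∀ t t', ¬ Mt t t' → ξ t t' = 0) (S : AddSubgroup A) {D c0 : ℕ}
    {t t' : Arr K (n + 1)} (hmt : Mt t t') (hD : tot t = D) (hc : c0 ≤ ind t 0)
    (IH : ∀ w w', Mt w w' → tot w = D → c0 ≤ ind w 0 → Ms D t t' < Ms D w w' → ξ w w' ∈ S)
    (hbad : ¬ Good (fun j => t (u j)) (fun j => t (d j))) : ξ t t' ∈ S := by
  classical
  have htot : ∀ w, Redis u d t w → tot w = D := by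
    intro w hw
    have := wsum_redis L.hu L.hd L.hud hw (fun _ => 1) (fun _ => 0) (fun _ => rfl)
    simp only [one_mul, zero_mul, sum_const_zero, add_zero] at this
    rw [← hD]
    exact this
  have hind : ∀ w, Redis u d t w → ∑ j, t (u j) ≤ ∑ j, w (u j) → c0 ≤ ind w 0 := by
    intro w hw hle
    obtain ⟨δ, hδ⟩ := L.h0
    have := wsum_redis L.hu L.hd L.hud hw (fun v => if v.2.2 = 0 then 1 else 0) (fun _ => δ) hδ
    rw [← mul_sum, ← mul_sum] at this
    have e1 := ind_eq_wsum w 0
    have e2 := ind_eq_wsum t 0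
    unfold wsum at e1 e2
    rw [← e1, ← e2] at this
    have h3 := Nat.mul_le_mul_left δ hle
    omega
  have hpsi : ∀ w, Redis u d t w → wsum fPsi w + ∑ j, t (u j) = wsum fPsi t + ∑ j, w (u j) := by
    intro w hw
    have := wsum_redis L.hu L.hd L.hud hw fPsi (fun _ => 1) L.hPsi
    simp only [one_mul] at this
    exact this
  have hphi : ∀ w, Redis u d t w → (∃ j, w (u j) ≠ t (u j)) →
      (∀ j, ∑ a ∈ univ.filter (fun a => a ≤ j), t (u a) ≤
        ∑ a ∈ univ.filter (fun a => a ≤ j), w (u a)) → wsum fPhi t < wsum fPhi w := by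
    intro w hw hne hle
    have h1 := wsum_redis L.hu L.hd L.hud hw fPhi _ L.hPhi
    have h2 := sum_card_lt (z := fun j => t (u j)) (z' := fun j => w (u j)) hne hle
    unfold wsum
    omega
  refine step L.hu L.hd L.hud ξ rel (fun t t' h => hm _ _ (hml t t' h)) S t t' ?_ ?_ ?_ hbad
  · by_contra hne
    exact hml t t' hne hmt
  · intro w w' hw hw' hlt
    by_cases hmw : Mt w w'
    · apply IH w w' hmw (htot w hw) (hind w hw hlt.le)
      have h1 := hpsi w hw
      have h2 := hmw.psi_eq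
      have h3 := hmt.psi_eq
      have h4 : wsum fPhi t ≤ (∑ v : Idx K (n + 1), fPhi v) * D := by
        rw [← hD]; exact wsum_le _ _
      have h5 : wsum fPhi t' ≤ (∑ v : Idx K (n + 1), fPhi v) * D := by
        rw [← hD, hmt.tot_eq]; exact wsum_le _ _
      unfold Ms
      set W := 2 * ((∑ v : Idx K (n + 1), fPhi v) * D) + 1
      have h6 : wsum fPsi t + wsum fPsi t' + 1 ≤ wsum fPsi w + wsum fPsi w' := by omega
      have h7 := Nat.mul_le_mul_left W h6
      rw [mul_add W (wsum fPsi t + wsum fPsi t') 1, mul_one] at h7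
      omega
    · rw [hm w w' hmw]
      exact S.zero_mem
  · intro w hw heq hne hle
    by_cases hmw : Mt w t'
    · apply IH w t' hmw (htot w hw) (hind w hw heq.ge)
      have h1 := hpsi w hw
      have h2 := hphi w hw hne hle
      have h3 : wsum fPsi w = wsum fPsi t := by omega
      unfold Ms
      rw [h3]
      omega
    · rw [hm w t' hmw]
      exact S.zero_mem

theorem colRel_lex {n : ℕ} {A : Type*} [AddCommGroup A] {ξ : Arr K (n + 1) → Arr K (n + 1) → A}
    (hc : ColRel ξ) {a a' : Fin (n + 1)} (h : (a' : ℕ) = a + 1) (t t' : Arr K (n + 1)) :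
    Move (fun p : Fin K ×ₗ Fin (n + 1) => rgt a' (ofLex p))
      (fun p : Fin K ×ₗ Fin (n + 1) => rgt a (ofLex p)) (fun w => ξ w t') t =
    Move (fun p : Fin K ×ₗ Fin (n + 1) => rgt a (ofLex p))
      (fun p : Fin K ×ₗ Fin (n + 1) => rgt a' (ofLex p)) (fun w => ξ t w) t' := by
  have e1 := Move_equiv (ofLex : Fin K ×ₗ Fin (n + 1) ≃ Fin K × Fin (n + 1)) (rgt a') (rgt a)
    (fun w => ξ w t') t
  have e2 := Move_equiv (ofLex : Fin K ×ₗ Fin (n + 1) ≃ Fin K × Fin (n + 1)) (rgt a) (rgt a')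
    (fun w => ξ t w) t'
  have e3 := hc a a' h t t'
  rw [← e1, ← e2] at e3
  exact e3

theorem not_Mt_row {n : ℕ} {i : Fin K} {ρ : Fin (n + 1)} {t t' : Arr K (n + 1)}
    (h : ∑ j, t (rowc i ρ j) ≠ ∑ j, t' (rowc i ρ j)) : ¬ Mt t t' :=
  fun hm => h (hm.1 i ρ)

theorem sum_lex {n : ℕ} (t : Arr K (n + 1)) (a : Fin (n + 1)) :
    ∑ p : Fin K ×ₗ Fin (n + 1), t (rgt a (ofLex p)) = ind t a :=
  Equiv.sum_comp (ofLex : Fin K ×ₗ Fin (n + 1) ≃ Fin K × Fin (n + 1)) (fun p => t (rgt a p))

theorem not_Mt_col {n : ℕ} {a : Fin (n + 1)} {t t' : Arr K (n + 1)}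
    (h : ∑ p : Fin K ×ₗ Fin (n + 1), t (rgt a (ofLex p)) ≠
      ∑ p : Fin K ×ₗ Fin (n + 1), t' (rgt a (ofLex p))) : ¬ Mt t t' := by
  rw [sum_lex, sum_lex] at h
  exact fun hm => h (hm.2 a)

/-- one step in the first matrix -/
theorem step_first {n : ℕ} {A : Type*} [AddCommGroup A]
    (ξ : Arr K (n + 1) → Arr K (n + 1) → A) (hr : RowRel ξ) (hc : ColRel ξ)
    (hm : ∀ t t', ¬ Mt t t' → ξ t t' = 0) (S : AddSubgroup A) {D c0 : ℕ}
    {t t' : Arr K (n + 1)} (hmt : Mt t t') (hD : tot t = D) (hc0 : c0 ≤ ind t 0)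
    (IH : ∀ w w', Mt w w' → tot w = D → c0 ≤ ind w 0 → Ms D t t' < Ms D w w' → ξ w w' ∈ S)
    (hbad : ¬ LR t) : ξ t t' ∈ S := by
  unfold LR at hbad
  rw [not_and_or] at hbad
  rcases hbad with hbad | hbad
  · unfold GoodRows at hbad
    push Not at hbad
    obtain ⟨i, ρ, ρ', h, hb⟩ := hbad
    exact main_step (line_row i h) ξ (hr i ρ ρ' h) (fun _ _ h => not_Mt_row h) hm S hmt hD hc0 IH hb
  · unfold GoodCols at hbad
    push Not at hbad
    obtain ⟨a, a', h, hb⟩ := hbad
    exact main_step (line_col h) ξ (colRel_lex hc h) (fun _ _ h => not_Mt_col h) hm S hmt hD hc0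
      IH hb

end Main

end Straight

open Straight in
theorem straighten {K n : ℕ} {A : Type*} [AddCommGroup A]
    (ξ : Arr K (n + 1) → Arr K (n + 1) → A) (hr : RowRel ξ) (hc : ColRel ξ) (hr' : RowRel' ξ)
    (hc' : ColRel' ξ) (hm : Match ξ) (t t' : Arr K (n + 1)) :
    ξ t t' ∈ AddSubgroup.closure {z | ∃ b b' : Arr K (n + 1), LR b ∧ LR b' ∧
      (∀ i ρ, rsum b i ρ = rsum b' i ρ) ∧ (∀ a, ind b a = ind b' a) ∧ tot b = tot t ∧
      ind t 0 ≤ ind b 0 ∧ z = ξ b b'} := by
  classical
  have hm2 : ∀ t t', ¬ Mt t t' → ξ t t' = 0 := by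
    intro t t' h
    apply hm t t'
    unfold Mt at h
    rw [not_and_or] at h
    push Not at h
    exact h
  by_cases hmt : Mt t t'
  swap
  · rw [hm2 t t' hmt]
    exact AddSubgroup.zero_mem _
  set S := AddSubgroup.closure {z | ∃ b b' : Arr K (n + 1), LR b ∧ LR b' ∧
      (∀ i ρ, rsum b i ρ = rsum b' i ρ) ∧ (∀ a, ind b a = ind b' a) ∧ tot b = tot t ∧
      ind t 0 ≤ ind b 0 ∧ z = ξ b b'} with hS
  set D := tot t with hD
  set c0 := ind t 0 with hc0
  set B := (2 * ((∑ v : Idx K (n + 1), fPhi v) * D) + 1) *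
    (2 * ((∑ v : Idx K (n + 1), fPsi v) * D)) + 2 * ((∑ v : Idx K (n + 1), fPhi v) * D) with hB
  have hMB : ∀ w w' : Arr K (n + 1), Mt w w' → tot w = D → Ms D w w' ≤ B := by
    intro w w' h1 h2
    have h3 : wsum fPsi w ≤ (∑ v : Idx K (n + 1), fPsi v) * D := by
      rw [← h2]; exact wsum_le _ _
    have h4 : wsum fPsi w' ≤ (∑ v : Idx K (n + 1), fPsi v) * D := by
      rw [← h2, h1.tot_eq]; exact wsum_le _ _
    have h5 : wsum fPhi w ≤ (∑ v : Idx K (n + 1), fPhi v) * D := by
      rw [← h2]; exact wsum_le _ _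
    have h6 : wsum fPhi w' ≤ (∑ v : Idx K (n + 1), fPhi v) * D := by
      rw [← h2, h1.tot_eq]; exact wsum_le _ _
    unfold Ms
    rw [hB]
    refine Nat.add_le_add (Nat.mul_le_mul_left _ ?_) ?_ <;> omega
  have main : ∀ m, ∀ w w' : Arr K (n + 1), Mt w w' → tot w = D → c0 ≤ ind w 0 →
      B - Ms D w w' = m → ξ w w' ∈ S := by
    intro m
    induction m using Nat.strong_induction_on with
    | _ m ih =>
      intro w w' h1 h2 h3 h4
      have IH : ∀ z z', Mt z z' → tot z = D → c0 ≤ ind z 0 → Ms D w w' < Ms D z z' →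
          ξ z z' ∈ S := by
        intro z z' g1 g2 g3 g4
        refine ih (B - Ms D z z') ?_ z z' g1 g2 g3 rfl
        have := hMB z z' g1 g2
        omega
      by_cases hL : LR w
      · by_cases hL' : LR w'
        · apply AddSubgroup.subset_closure
          exact ⟨w, w', hL, hL', h1.1, h1.2, h2, h3, rfl⟩
        · refine step_first (D := D) (c0 := c0) (fun t t' => ξ t' t) hr' hc'
            (fun t t' h => hm2 t' t fun h' => h h'.symm) S h1.symm
            (by rw [← h1.tot_eq]; exact h2) (by rw [← h1.2 0]; exact h3) ?_ hL'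
          intro z z' g1 g2 g3 g4
          refine IH z' z g1.symm (by rw [← g1.tot_eq]; exact g2) (by rw [← g1.2 0]; exact g3) ?_
          rw [Ms_comm D w w', Ms_comm D z' z]
          exact g4
      · exact step_first ξ hr hc hm2 S h1 h2 h3 IH hL
  exact main _ t t' hmt rfl le_rfl rfl

end TF
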