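import Pool.Agent.H66.TF.SubCoeff

/-!
# TF-XI: from functions of arrays to functions of pairs of matrices

`xi θ t t'` is the coefficient of `U^t V^{t'}` in `Θ(Uᵀ V)`, `Θ(T) = ∑_c θ(c) T^c`, i.e.
`T^i_{ab} = ∑_ρ U^i_{ρ a} V^i_{ρ b}` (`pairPoly`).

* `xi_rowRel` (no hypothesis on `θ`): the substitutions `U_{ρ'} ↦ U_{ρ'} + U_ρ` and
  `V_ρ ↦ V_ρ + V_{ρ'}` (all columns, rows `ρ ≠ ρ'` of the letter `i`) have the same effect on every
  `pairPoly v` (`U_{ρ'}V_{ρ'} + U_ρ V_ρ` becomes `U_{ρ'}V_{ρ'} + U_ρ V_{ρ'} + U_ρ V_ρ` in both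
  cases). Extract the coefficient of `U^t V^{t'}` with `move_eq` (applied to the type
  `Idx ⊕ Idx` and the maps `Sum.inl ∘ rowc i ρ'`, `Sum.inl ∘ rowc i ρ`, resp. `Sum.inr ∘ …`; a `Move`
  on the left factor is a `Move` on `Idx ⊕ Idx` with `Sum.elim`). All sums are finite; the total
  degree in `U` is preserved. It is enough to prove the identity for each `c` separately, i.e. for the
  integer valued function `Mco c`.
* `xi_colRel`: `U_{·,a'} ↦ U_{·,a'} + U_{·,a}` (all rows) sends `pairPoly (i,a',y)` to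
  `pairPoly (i,a',y) + pairPoly (i,a,y)` and fixes the other ones, i.e. it is `pairPoly` composed
  with the substitution `subP (lft a') (lft a)`; `V_{·,a} ↦ V_{·,a} + V_{·,a'}` is the substitution
  `subP (rgt a) (rgt a')`. So `Move (rgt a') (rgt a) (xi θ · t') t = ∑_d Mco d t t' • Move (lft a')
  (lft a) θ d` and `Move (rgt a) (rgt a') (xi θ t ·) t' = ∑_d Mco d t t' • Move (rgt a) (rgt a') θ d`,
  and the two are equal by `ConjRel θ` for the pair `(a', a)`.
* `xi_rowRel'`, `xi_colRel'`: the same with `U` and `V` exchanged (units move down in `t'` and up in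
  `t`; substitutions `V_{ρ'} ↦ V_{ρ'} + V_ρ` and `U_ρ ↦ U_ρ + U_{ρ'}`, resp. `V_{·,a'} ↦ V_{·,a'} +
  V_{·,a}` = `subP (rgt a') (rgt a)` and `U_{·,a} ↦ U_{·,a} + U_{·,a'}` = `subP (lft a) (lft a')`;
  uses `ConjRel θ` for the pair `(a, a')`).
* `xi_match`: a monomial of `∏ pairPoly v ^ c v` has the same degree in `U^i_ρ` and in `V^i_ρ`, its
  degree in `U_{·,a}` is the out-degree of `a` in `c` and its degree in `V_{·,a}` is the in-degree.
* `xi_rdiag`: to get only variables `U_{a,a}` from `pairPoly (i,a,b)` one has to choose `ρ = a` in each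
  factor, which gives `U_{a,a} V_{a,b}`. So only the array `c` itself contributes, with coefficient 1.
-/

open Finset

namespace TF

variable {K N : ℕ} {A : Type*} [AddCommGroup A]

/-! ### Generalities on coefficients -/

lemma toF_apply' {σ : Type*} [Finite σ] (c : σ → ℕ) (v : σ) : toF c v = c v := rfl

lemma toF_coe {σ : Type*} [Finite σ] (d : σ →₀ ℕ) : toF (d : σ → ℕ) = d := by
  ext v; rfl

/-- evaluation of a polynomial as a sum over a finite set of functions containing the exponents -/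
lemma aeval_eq_sum_of {σ τ : Type*} [Fintype σ] [DecidableEq σ]
    (g : σ → MvPolynomial τ ℤ) (P : MvPolynomial σ ℤ) (D : Finset (σ → ℕ))
    (hD : ∀ d : σ → ℕ, MvPolynomial.coeff (toF d) P ≠ 0 → d ∈ D) :
    MvPolynomial.aeval g P = ∑ d ∈ D, MvPolynomial.coeff (toF d) P • ∏ v, g v ^ d v := by
  classical
  rw [MvPolynomial.aeval_def, MvPolynomial.eval₂_eq']
  have h1 : ∑ d ∈ D, MvPolynomial.coeff (toF d) P • ∏ v, g v ^ d v =
      ∑ d ∈ D.filter (fun d => MvPolynomial.coeff (toF d) P ≠ 0),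
        MvPolynomial.coeff (toF d) P • ∏ v, g v ^ d v := by
    symm
    apply Finset.sum_subset (Finset.filter_subset _ _)
    intro d hd hd'
    have : MvPolynomial.coeff (toF d) P = 0 := by
      by_contra hne
      exact hd' (Finset.mem_filter.mpr ⟨hd, hne⟩)
    rw [this, zero_smul]
  rw [h1]
  refine Finset.sum_nbij' (fun d : σ →₀ ℕ => (d : σ → ℕ)) (fun d => toF d) ?_ ?_ ?_ ?_ ?_
  · intro d hd
    rw [Finset.mem_filter]
    have hne : MvPolynomial.coeff (toF (d : σ → ℕ)) P ≠ 0 := by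
      rw [toF_coe]; exact MvPolynomial.mem_support_iff.mp hd
    exact ⟨hD _ hne, hne⟩
  · intro d hd
    exact MvPolynomial.mem_support_iff.mpr (Finset.mem_filter.mp hd).2
  · intro d _
    exact toF_coe d
  · intro d _
    rfl
  · intro d _
    rw [toF_coe, MvPolynomial.smul_eq_C_mul, MvPolynomial.algebraMap_eq]

lemma tot_of_coeff_subP {σ ι : Type*} [Fintype σ] [DecidableEq σ] [Fintype ι] [DecidableEq ι]
    (s t : ι → σ) (d c : σ → ℕ)
    (h : MvPolynomial.coeff (toF c) (∏ v, subP s t v ^ d v) ≠ 0) : ∑ v, d v = ∑ v, c v := by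
  by_contra hne
  exact h (coeff_subP_eq_zero s t d c hne)

/-- `Move` of a coefficient function is the coefficient of the substituted polynomial -/
lemma move_coeff {σ ι : Type*} [Fintype σ] [DecidableEq σ] [Fintype ι] [DecidableEq ι]
    (s t : ι → σ) (hs : Function.Injective s)
    (ht : Function.Injective t) (hst : ∀ i j, s i ≠ t j) (F : MvPolynomial σ ℤ) (c : σ → ℕ) :
    Move s t (fun d => MvPolynomial.coeff (toF d) F) c =
      MvPolynomial.coeff (toF c) (MvPolynomial.aeval (subP s t) F) := by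
  classical
  rw [move_eq s t hs ht hst]
  set D : Finset (σ → ℕ) := piAntidiag univ (∑ v, c v) ∪
    F.support.image (fun d : σ →₀ ℕ => (d : σ → ℕ)) with hD
  rw [aeval_eq_sum_of (subP s t) F D (by
    intro d hd
    rw [hD, Finset.mem_union]
    right
    rw [Finset.mem_image]
    exact ⟨toF d, MvPolynomial.mem_support_iff.mpr hd, rfl⟩)]
  rw [MvPolynomial.coeff_sum]
  rw [← Finset.sum_subset (Finset.subset_union_left : piAntidiag univ (∑ v, c v) ⊆ D)]
  · apply Finset.sum_congr rfl
    intro d _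
    rw [MvPolynomial.coeff_smul, smul_eq_mul, smul_eq_mul, mul_comm]
  · intro d _ hd
    rw [MvPolynomial.coeff_smul]
    have : MvPolynomial.coeff (toF c) (∏ v, subP s t v ^ d v) = 0 := by
      apply coeff_subP_eq_zero
      intro h
      apply hd
      rw [Finset.mem_piAntidiag]
      exact ⟨h, fun _ _ => Finset.mem_univ _⟩
    rw [this, smul_zero]

/-! ### `Move` on one of the two factors -/

lemma mv_inl {σ τ ι : Type*} [Fintype ι] [DecidableEq σ] [DecidableEq τ] (s t : ι → σ)
    (κ : ι → ℕ) (x : σ → ℕ) (y : τ → ℕ) :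
    mv (fun j => (Sum.inl (s j) : σ ⊕ τ)) (fun j => Sum.inl (t j)) κ (Sum.elim x y) =
      Sum.elim (mv s t κ x) y := by
  funext v
  rcases v with v | v
  · simp [mv]
  · simp [mv]

lemma mv_inr {σ τ ι : Type*} [Fintype ι] [DecidableEq σ] [DecidableEq τ] (s t : ι → τ)
    (κ : ι → ℕ) (x : σ → ℕ) (y : τ → ℕ) :
    mv (fun j => (Sum.inr (s j) : σ ⊕ τ)) (fun j => Sum.inr (t j)) κ (Sum.elim x y) =
      Sum.elim x (mv s t κ y) := by
  funext v
  rcases v with v | v
  · simp [mv]
  · simp [mv]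

lemma move_inl {σ τ ι : Type*} [Fintype ι] [DecidableEq ι] [DecidableEq σ] [DecidableEq τ]
    (s t : ι → σ) (G : (σ ⊕ τ → ℕ) → A) (x : σ → ℕ) (y : τ → ℕ) :
    Move (fun j => (Sum.inl (s j) : σ ⊕ τ)) (fun j => Sum.inl (t j)) G (Sum.elim x y) =
      Move s t (fun u => G (Sum.elim u y)) x := by
  simp only [Move, mv_inl, Sum.elim_inl]

lemma move_inr {σ τ ι : Type*} [Fintype ι] [DecidableEq ι] [DecidableEq σ] [DecidableEq τ]
    (s t : ι → τ) (G : (σ ⊕ τ → ℕ) → A) (x : σ → ℕ) (y : τ → ℕ) :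
    Move (fun j => (Sum.inr (s j) : σ ⊕ τ)) (fun j => Sum.inr (t j)) G (Sum.elim x y) =
      Move s t (fun u => G (Sum.elim x u)) y := by
  simp only [Move, mv_inr, Sum.elim_inr]

/-- the generating polynomial -/
noncomputable def FF {K N : ℕ} (c : Arr K N) : MvPolynomial (Idx K N ⊕ Idx K N) ℤ :=
  ∏ v, pairPoly v ^ c v

lemma Mco_eq (c t t' : Arr K N) :
    Mco c t t' = MvPolynomial.coeff (toF (Sum.elim t t')) (FF c) := rfl

lemma move_Mco_inl {ι : Type*} [Fintype ι] [DecidableEq ι] (s t : ι → Idx K N)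
    (hs : Function.Injective s) (ht : Function.Injective t) (hst : ∀ i j, s i ≠ t j)
    (c x y : Arr K N) :
    Move s t (fun u => Mco c u y) x = MvPolynomial.coeff (toF (Sum.elim x y))
      (MvPolynomial.aeval (subP (fun j => (Sum.inl (s j) : Idx K N ⊕ Idx K N))
        (fun j => Sum.inl (t j))) (FF c)) := by
  rw [← move_coeff _ _ (fun a b h => hs (Sum.inl_injective h))
    (fun a b h => ht (Sum.inl_injective h)) (fun i j h => hst i j (Sum.inl_injective h)), move_inl]
  rfl

lemma move_Mco_inr {ι : Type*} [Fintype ι] [DecidableEq ι] (s t : ι → Idx K N)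
    (hs : Function.Injective s) (ht : Function.Injective t) (hst : ∀ i j, s i ≠ t j)
    (c x y : Arr K N) :
    Move s t (fun u => Mco c x u) y = MvPolynomial.coeff (toF (Sum.elim x y))
      (MvPolynomial.aeval (subP (fun j => (Sum.inr (s j) : Idx K N ⊕ Idx K N))
        (fun j => Sum.inr (t j))) (FF c)) := by
  rw [← move_coeff _ _ (fun a b h => hs (Sum.inr_injective h))
    (fun a b h => ht (Sum.inr_injective h)) (fun i j h => hst i j (Sum.inr_injective h)), move_inr]
  rfl

lemma xi_sum_mv {σ ι : Type*} [Fintype σ] [DecidableEq σ] [Fintype ι] [DecidableEq ι]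
    (s t : ι → σ) (ht : Function.Injective t) (κ : ι → ℕ) (c : σ → ℕ)
    (hκ : ∀ j, κ j ≤ c (t j)) : ∑ v, mv s t κ c v = ∑ v, c v := by
  classical
  have hle : ∀ v ∈ (univ : Finset σ), ∑ j ∈ univ.filter (fun j => t j = v), κ j ≤
      c v + ∑ j ∈ univ.filter (fun j => s j = v), κ j := by
    intro v _
    by_cases hv : ∃ j, t j = v
    · obtain ⟨j, rfl⟩ := hv
      have : univ.filter (fun i => t i = t j) = {j} := by
        ext i; simp [ht.eq_iff]
      rw [this, Finset.sum_singleton]
      exact le_trans (hκ j) (Nat.le_add_right _ _)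
    · have : univ.filter (fun i => t i = v) = ∅ := by
        ext i
        simp only [Finset.mem_filter, Finset.mem_univ, true_and, Finset.notMem_empty, iff_false]
        exact fun h => hv ⟨i, h⟩
      rw [this, Finset.sum_empty]
      exact Nat.zero_le _
  unfold mv
  rw [Finset.sum_tsub_distrib _ hle, Finset.sum_add_distrib]
  have e1 : ∑ v : σ, ∑ j ∈ univ.filter (fun j => s j = v), κ j = ∑ j, κ j :=
    Finset.sum_fiberwise _ _ _
  have e2 : ∑ v : σ, ∑ j ∈ univ.filter (fun j => t j = v), κ j = ∑ j, κ j :=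
    Finset.sum_fiberwise _ _ _
  rw [e1, e2, Nat.add_sub_cancel]

lemma move_xi_inl {ι : Type*} [Fintype ι] [DecidableEq ι] (s t : ι → Idx K N)
    (ht : Function.Injective t) (θ : Arr K N → A) (x y : Arr K N) :
    Move s t (fun u => xi θ u y) x =
      ∑ c ∈ piAntidiag univ (tot x), Move s t (fun u => Mco c u y) x • θ c := by
  unfold Move
  have : ∀ κ ∈ Finset.Iic (fun j => x (t j)),
      (∏ j, (x (s j) + κ j).choose (κ j)) • xi θ (mv s t κ x) y =
      ∑ c ∈ piAntidiag univ (tot x),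
        ((∏ j, (x (s j) + κ j).choose (κ j)) • Mco c (mv s t κ x) y) • θ c := by
    intro κ hκ
    have h1 : tot (mv s t κ x) = tot x :=
      xi_sum_mv s t ht κ x (fun j => (Finset.mem_Iic.mp hκ) j)
    unfold xi
    rw [h1, Finset.smul_sum]
    apply Finset.sum_congr rfl
    intro c _
    rw [smul_assoc]
  rw [Finset.sum_congr rfl this, Finset.sum_comm]
  apply Finset.sum_congr rfl
  intro c _
  rw [Finset.sum_smul]

lemma move_xi_inr {ι : Type*} [Fintype ι] [DecidableEq ι] (s t : ι → Idx K N)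
    (θ : Arr K N → A) (x y : Arr K N) :
    Move s t (fun u => xi θ x u) y =
      ∑ c ∈ piAntidiag univ (tot x), Move s t (fun u => Mco c x u) y • θ c := by
  unfold Move
  have : ∀ κ ∈ Finset.Iic (fun j => y (t j)),
      (∏ j, (y (s j) + κ j).choose (κ j)) • xi θ x (mv s t κ y) =
      ∑ c ∈ piAntidiag univ (tot x),
        ((∏ j, (y (s j) + κ j).choose (κ j)) • Mco c x (mv s t κ y)) • θ c := by
    intro κ _
    unfold xi
    rw [Finset.smul_sum]
    apply Finset.sum_congr rfl
    intro c _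
    rw [smul_assoc]
  rw [Finset.sum_congr rfl this, Finset.sum_comm]
  apply Finset.sum_congr rfl
  intro c _
  rw [Finset.sum_smul]

/-! ### Row relations -/

lemma rowc_inj (i : Fin K) (ρ : Fin N) : Function.Injective (rowc i ρ) := by
  intro a b h
  simpa [rowc] using h

lemma rgt_inj (a : Fin N) : Function.Injective (rgt a : Fin K × Fin N → Idx K N) := by
  rintro ⟨i, b⟩ ⟨j, c⟩ h
  simpa [rgt] using h

lemma lft_inj (a : Fin N) : Function.Injective (lft a : Fin K × Fin N → Idx K N) := by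
  rintro ⟨i, b⟩ ⟨j, c⟩ h
  simpa [lft] using h

lemma rowc_ne (i : Fin K) {ρ ρ' : Fin N} (h : ρ ≠ ρ') (a b : Fin N) :
    rowc i ρ a ≠ rowc i ρ' b := by
  intro e
  simp only [rowc, Prod.mk.injEq, true_and] at e
  exact h e.1

lemma rgt_ne {a b : Fin N} (h : a ≠ b) (p q : Fin K × Fin N) : rgt a p ≠ rgt b q := by
  intro e
  simp only [rgt, Prod.mk.injEq] at e
  exact h e.2.2

lemma lft_ne {a b : Fin N} (h : a ≠ b) (p q : Fin K × Fin N) : lft a p ≠ lft b q := by
  intro e
  simp only [lft, Prod.mk.injEq] at e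
  exact h e.2.1

lemma subP_other {σ τ ι : Type*} [Fintype ι] [DecidableEq σ] [DecidableEq τ] (s t : ι → σ)
    (v : τ) : subP (fun j => (Sum.inl (s j) : σ ⊕ τ)) (fun j => Sum.inl (t j)) (Sum.inr v) =
      MvPolynomial.X (Sum.inr v) := by
  simp [subP]

lemma subP_other' {σ τ ι : Type*} [Fintype ι] [DecidableEq σ] [DecidableEq τ] (s t : ι → τ)
    (v : σ) : subP (fun j => (Sum.inr (s j) : σ ⊕ τ)) (fun j => Sum.inr (t j)) (Sum.inl v) =
      MvPolynomial.X (Sum.inl v) := by
  simp [subP]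

lemma filter_rowc (i j : Fin K) (ρ r a : Fin N) :
    univ.filter (fun b => rowc i ρ b = (j, r, a)) = if i = j ∧ ρ = r then {a} else ∅ := by
  ext b
  by_cases h : i = j ∧ ρ = r
  · rw [if_pos h]
    simp [rowc, h.1, h.2]
  · rw [if_neg h]
    simp only [rowc, Prod.mk.injEq, Finset.mem_filter, Finset.mem_univ, true_and,
      Finset.notMem_empty, iff_false]
    exact fun e => h ⟨e.1, e.2.1⟩

lemma filter_rgt (a : Fin N) (j : Fin K) (r b : Fin N) :
    univ.filter (fun p : Fin K × Fin N => rgt a p = (j, r, b)) =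
      if a = b then {(j, r)} else ∅ := by
  ext p
  by_cases h : a = b
  · rw [if_pos h]
    simp [rgt, h, Prod.ext_iff]
  · rw [if_neg h]
    simp only [rgt, Prod.mk.injEq, Finset.mem_filter, Finset.mem_univ, true_and,
      Finset.notMem_empty, iff_false]
    exact fun e => h e.2.2

lemma filter_lft (a : Fin N) (j : Fin K) (r b : Fin N) :
    univ.filter (fun p : Fin K × Fin N => lft a p = (j, r, b)) =
      if a = r then {(j, b)} else ∅ := by
  ext p
  by_cases h : a = r
  · rw [if_pos h]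
    simp [lft, h, Prod.ext_iff]
  · rw [if_neg h]
    simp only [lft, Prod.mk.injEq, Finset.mem_filter, Finset.mem_univ, true_and,
      Finset.notMem_empty, iff_false]
    exact fun e => h e.2.1

lemma subP_inl_rowc (i j : Fin K) (ρ ρ' r a : Fin N) :
    subP (fun b => (Sum.inl (rowc i ρ' b) : Idx K N ⊕ Idx K N)) (fun b => Sum.inl (rowc i ρ b))
      (Sum.inl (j, r, a)) = MvPolynomial.X (Sum.inl (j, r, a)) +
        if i = j ∧ ρ' = r then MvPolynomial.X (Sum.inl (i, ρ, a)) else 0 := by
  unfold subP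
  congr 1
  have : univ.filter (fun b => (Sum.inl (rowc i ρ' b) : Idx K N ⊕ Idx K N) = Sum.inl (j, r, a)) =
      if i = j ∧ ρ' = r then {a} else ∅ := by
    rw [← filter_rowc]
    apply Finset.filter_congr
    intro b _
    exact Sum.inl_injective.eq_iff
  rw [this]
  by_cases h : i = j ∧ ρ' = r
  · rw [if_pos h, if_pos h, Finset.sum_singleton]
    rfl
  · rw [if_neg h, if_neg h, Finset.sum_empty]

lemma subP_inr_rowc (i j : Fin K) (ρ ρ' r a : Fin N) :
    subP (fun b => (Sum.inr (rowc i ρ' b) : Idx K N ⊕ Idx K N)) (fun b => Sum.inr (rowc i ρ b))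
      (Sum.inr (j, r, a)) = MvPolynomial.X (Sum.inr (j, r, a)) +
        if i = j ∧ ρ' = r then MvPolynomial.X (Sum.inr (i, ρ, a)) else 0 := by
  unfold subP
  congr 1
  have : univ.filter (fun b => (Sum.inr (rowc i ρ' b) : Idx K N ⊕ Idx K N) = Sum.inr (j, r, a)) =
      if i = j ∧ ρ' = r then {a} else ∅ := by
    rw [← filter_rowc]
    apply Finset.filter_congr
    intro b _
    exact Sum.inr_injective.eq_iff
  rw [this]
  by_cases h : i = j ∧ ρ' = r
  · rw [if_pos h, if_pos h, Finset.sum_singleton]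
    rfl
  · rw [if_neg h, if_neg h, Finset.sum_empty]

lemma row_pairPoly_inl (i : Fin K) (ρ ρ' : Fin N) (v : Idx K N) :
    MvPolynomial.aeval (subP (fun b => (Sum.inl (rowc i ρ' b) : Idx K N ⊕ Idx K N))
      (fun b => Sum.inl (rowc i ρ b))) (pairPoly v) =
      pairPoly v + if i = v.1 then MvPolynomial.X (Sum.inl (i, ρ, v.2.1)) *
        MvPolynomial.X (Sum.inr (i, ρ', v.2.2)) else 0 := by
  obtain ⟨j, a, b⟩ := v
  unfold pairPoly
  rw [map_sum]
  simp only [map_mul, MvPolynomial.aeval_X]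
  have : ∀ r : Fin N, subP (fun b => (Sum.inl (rowc i ρ' b) : Idx K N ⊕ Idx K N))
      (fun b => Sum.inl (rowc i ρ b)) (Sum.inl (j, r, a)) *
      subP (fun b => (Sum.inl (rowc i ρ' b) : Idx K N ⊕ Idx K N))
      (fun b => Sum.inl (rowc i ρ b)) (Sum.inr (j, r, b)) =
      MvPolynomial.X (Sum.inl (j, r, a)) * MvPolynomial.X (Sum.inr (j, r, b)) +
      if ρ' = r then (if i = j then MvPolynomial.X (Sum.inl (i, ρ, a)) *
        MvPolynomial.X (Sum.inr (i, ρ', b)) else 0) else 0 := by
    intro r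
    rw [subP_inl_rowc, subP_other, add_mul]
    congr 1
    by_cases h1 : ρ' = r
    · by_cases h2 : i = j
      · subst h1; subst h2; simp
      · simp [h1, h2]
    · simp [h1]
  rw [Finset.sum_congr rfl (fun r _ => this r), Finset.sum_add_distrib, Finset.sum_ite_eq]
  simp

lemma row_pairPoly_inr (i : Fin K) (ρ ρ' : Fin N) (v : Idx K N) :
    MvPolynomial.aeval (subP (fun b => (Sum.inr (rowc i ρ b) : Idx K N ⊕ Idx K N))
      (fun b => Sum.inr (rowc i ρ' b))) (pairPoly v) =
      pairPoly v + if i = v.1 then MvPolynomial.X (Sum.inl (i, ρ, v.2.1)) *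
        MvPolynomial.X (Sum.inr (i, ρ', v.2.2)) else 0 := by
  obtain ⟨j, a, b⟩ := v
  unfold pairPoly
  rw [map_sum]
  simp only [map_mul, MvPolynomial.aeval_X]
  have : ∀ r : Fin N, subP (fun b => (Sum.inr (rowc i ρ b) : Idx K N ⊕ Idx K N))
      (fun b => Sum.inr (rowc i ρ' b)) (Sum.inl (j, r, a)) *
      subP (fun b => (Sum.inr (rowc i ρ b) : Idx K N ⊕ Idx K N))
      (fun b => Sum.inr (rowc i ρ' b)) (Sum.inr (j, r, b)) =
      MvPolynomial.X (Sum.inl (j, r, a)) * MvPolynomial.X (Sum.inr (j, r, b)) +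
      if ρ = r then (if i = j then MvPolynomial.X (Sum.inl (i, ρ, a)) *
        MvPolynomial.X (Sum.inr (i, ρ', b)) else 0) else 0 := by
    intro r
    rw [subP_inr_rowc, subP_other', mul_add]
    congr 1
    by_cases h1 : ρ = r
    · by_cases h2 : i = j
      · subst h1; subst h2; simp
      · simp [h1, h2]
    · simp [h1]
  rw [Finset.sum_congr rfl (fun r _ => this r), Finset.sum_add_distrib, Finset.sum_ite_eq]
  simp

lemma row_FF (i : Fin K) (ρ ρ' : Fin N) (c : Arr K N) :
    MvPolynomial.aeval (subP (fun b => (Sum.inl (rowc i ρ' b) : Idx K N ⊕ Idx K N))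
      (fun b => Sum.inl (rowc i ρ b))) (FF c) =
    MvPolynomial.aeval (subP (fun b => (Sum.inr (rowc i ρ b) : Idx K N ⊕ Idx K N))
      (fun b => Sum.inr (rowc i ρ' b))) (FF c) := by
  unfold FF
  rw [map_prod, map_prod]
  apply Finset.prod_congr rfl
  intro v _
  rw [map_pow, map_pow, row_pairPoly_inl, row_pairPoly_inr]

lemma xi_row_gen (θ : Arr K N → A) (i : Fin K) (ρ ρ' : Fin N) (h : ρ ≠ ρ') (x y : Arr K N) :
    Move (rowc i ρ') (rowc i ρ) (fun u => xi θ u y) x =
      Move (rowc i ρ) (rowc i ρ') (fun u => xi θ x u) y := by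
  rw [move_xi_inl _ _ (rowc_inj i ρ), move_xi_inr]
  apply Finset.sum_congr rfl
  intro c _
  rw [move_Mco_inl _ _ (rowc_inj i ρ') (rowc_inj i ρ) (rowc_ne i h.symm),
    move_Mco_inr _ _ (rowc_inj i ρ) (rowc_inj i ρ') (rowc_ne i h), row_FF]

theorem xi_rowRel (θ : Arr K N → A) : RowRel (xi θ) := by
  intro i ρ ρ' h t t'
  apply xi_row_gen
  intro e
  rw [e] at h
  omega

/-! ### Column relations -/

lemma subP_inl_rgt (a a' : Fin N) (j : Fin K) (r x : Fin N) :
    subP (fun p => (Sum.inl (rgt a' p) : Idx K N ⊕ Idx K N)) (fun p => Sum.inl (rgt a p))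
      (Sum.inl (j, r, x)) = MvPolynomial.X (Sum.inl (j, r, x)) +
        if a' = x then MvPolynomial.X (Sum.inl (j, r, a)) else 0 := by
  unfold subP
  congr 1
  have : univ.filter (fun p => (Sum.inl (rgt a' p) : Idx K N ⊕ Idx K N) = Sum.inl (j, r, x)) =
      if a' = x then {(j, r)} else ∅ := by
    rw [← filter_rgt]
    apply Finset.filter_congr
    intro b _
    exact Sum.inl_injective.eq_iff
  rw [this]
  by_cases h : a' = x
  · rw [if_pos h, if_pos h, Finset.sum_singleton]
    rfl
  · rw [if_neg h, if_neg h, Finset.sum_empty]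

lemma subP_inr_rgt (a a' : Fin N) (j : Fin K) (r x : Fin N) :
    subP (fun p => (Sum.inr (rgt a' p) : Idx K N ⊕ Idx K N)) (fun p => Sum.inr (rgt a p))
      (Sum.inr (j, r, x)) = MvPolynomial.X (Sum.inr (j, r, x)) +
        if a' = x then MvPolynomial.X (Sum.inr (j, r, a)) else 0 := by
  unfold subP
  congr 1
  have : univ.filter (fun p => (Sum.inr (rgt a' p) : Idx K N ⊕ Idx K N) = Sum.inr (j, r, x)) =
      if a' = x then {(j, r)} else ∅ := by
    rw [← filter_rgt]
    apply Finset.filter_congr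
    intro b _
    exact Sum.inr_injective.eq_iff
  rw [this]
  by_cases h : a' = x
  · rw [if_pos h, if_pos h, Finset.sum_singleton]
    rfl
  · rw [if_neg h, if_neg h, Finset.sum_empty]

lemma aeval_subP_lft (a a' : Fin N) (v : Idx K N) :
    MvPolynomial.aeval pairPoly (subP (lft a') (lft a) v) =
      pairPoly v + if a' = v.2.1 then pairPoly (v.1, a, v.2.2) else 0 := by
  obtain ⟨j, x, y⟩ := v
  unfold subP
  rw [filter_lft, map_add, MvPolynomial.aeval_X]
  congr 1
  by_cases h : a' = x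
  · rw [if_pos h, if_pos h, Finset.sum_singleton, MvPolynomial.aeval_X]
    rfl
  · rw [if_neg h, if_neg h, Finset.sum_empty, map_zero]

lemma aeval_subP_rgt (a a' : Fin N) (v : Idx K N) :
    MvPolynomial.aeval pairPoly (subP (rgt a) (rgt a') v) =
      pairPoly v + if a = v.2.2 then pairPoly (v.1, v.2.1, a') else 0 := by
  obtain ⟨j, x, y⟩ := v
  unfold subP
  rw [filter_rgt, map_add, MvPolynomial.aeval_X]
  congr 1
  by_cases h : a = y
  · rw [if_pos h, if_pos h, Finset.sum_singleton, MvPolynomial.aeval_X]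
    rfl
  · rw [if_neg h, if_neg h, Finset.sum_empty, map_zero]

lemma col_pairPoly_inl (a a' : Fin N) (v : Idx K N) :
    MvPolynomial.aeval (subP (fun p => (Sum.inl (rgt a' p) : Idx K N ⊕ Idx K N))
      (fun p => Sum.inl (rgt a p))) (pairPoly v) =
      MvPolynomial.aeval pairPoly (subP (lft a') (lft a) v) := by
  rw [aeval_subP_lft]
  obtain ⟨j, x, y⟩ := v
  unfold pairPoly
  rw [map_sum]
  simp only [map_mul, MvPolynomial.aeval_X]
  have : ∀ r : Fin N, subP (fun p => (Sum.inl (rgt a' p) : Idx K N ⊕ Idx K N))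
      (fun p => Sum.inl (rgt a p)) (Sum.inl (j, r, x)) *
      subP (fun p => (Sum.inl (rgt a' p) : Idx K N ⊕ Idx K N))
      (fun p => Sum.inl (rgt a p)) (Sum.inr (j, r, y)) =
      MvPolynomial.X (Sum.inl (j, r, x)) * MvPolynomial.X (Sum.inr (j, r, y)) +
      if a' = x then MvPolynomial.X (Sum.inl (j, r, a)) *
        MvPolynomial.X (Sum.inr (j, r, y)) else 0 := by
    intro r
    rw [subP_inl_rgt, subP_other, add_mul]
    congr 1
    by_cases h1 : a' = x
    · rw [if_pos h1, if_pos h1]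
    · rw [if_neg h1, if_neg h1, zero_mul]
  rw [Finset.sum_congr rfl (fun r _ => this r), Finset.sum_add_distrib]
  congr 1
  by_cases h1 : a' = x
  · simp only [if_pos h1]
  · simp only [if_neg h1, Finset.sum_const_zero]

lemma col_pairPoly_inr (a a' : Fin N) (v : Idx K N) :
    MvPolynomial.aeval (subP (fun p => (Sum.inr (rgt a p) : Idx K N ⊕ Idx K N))
      (fun p => Sum.inr (rgt a' p))) (pairPoly v) =
      MvPolynomial.aeval pairPoly (subP (rgt a) (rgt a') v) := by
  rw [aeval_subP_rgt]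
  obtain ⟨j, x, y⟩ := v
  unfold pairPoly
  rw [map_sum]
  simp only [map_mul, MvPolynomial.aeval_X]
  have : ∀ r : Fin N, subP (fun p => (Sum.inr (rgt a p) : Idx K N ⊕ Idx K N))
      (fun p => Sum.inr (rgt a' p)) (Sum.inl (j, r, x)) *
      subP (fun p => (Sum.inr (rgt a p) : Idx K N ⊕ Idx K N))
      (fun p => Sum.inr (rgt a' p)) (Sum.inr (j, r, y)) =
      MvPolynomial.X (Sum.inl (j, r, x)) * MvPolynomial.X (Sum.inr (j, r, y)) +
      if a = y then MvPolynomial.X (Sum.inl (j, r, x)) *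
        MvPolynomial.X (Sum.inr (j, r, a')) else 0 := by
    intro r
    rw [subP_inr_rgt, subP_other', mul_add]
    congr 1
    by_cases h1 : a = y
    · rw [if_pos h1, if_pos h1]
    · rw [if_neg h1, if_neg h1, mul_zero]
  rw [Finset.sum_congr rfl (fun r _ => this r), Finset.sum_add_distrib]
  congr 1
  by_cases h1 : a = y
  · simp only [if_pos h1]
  · simp only [if_neg h1, Finset.sum_const_zero]

lemma col_FF {ι ι' : Type*} [Fintype ι] [DecidableEq ι] [Fintype ι'] [DecidableEq ι']
    (S T : ι → Idx K N ⊕ Idx K N) (s t : ι' → Idx K N)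
    (h : ∀ v, MvPolynomial.aeval (subP S T) (pairPoly v) =
      MvPolynomial.aeval pairPoly (subP s t v)) (c : Arr K N) (x y : Arr K N) :
    MvPolynomial.coeff (toF (Sum.elim x y)) (MvPolynomial.aeval (subP S T) (FF c)) =
      ∑ d ∈ piAntidiag univ (tot c),
        MvPolynomial.coeff (toF d) (∏ v, subP s t v ^ c v) * Mco d x y := by
  have h1 : MvPolynomial.aeval (subP S T) (FF c) =
      MvPolynomial.aeval pairPoly (∏ v, subP s t v ^ c v) := by
    unfold FF
    rw [map_prod, map_prod]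
    apply Finset.prod_congr rfl
    intro v _
    rw [map_pow, map_pow, h]
  rw [h1, aeval_eq_sum_of pairPoly _ (piAntidiag univ (tot c)) (by
    intro d hd
    rw [Finset.mem_piAntidiag]
    exact ⟨(tot_of_coeff_subP s t c d hd).symm, fun _ _ => Finset.mem_univ _⟩),
    MvPolynomial.coeff_sum]
  apply Finset.sum_congr rfl
  intro d _
  rw [MvPolynomial.coeff_smul, smul_eq_mul]
  rfl

lemma col_swap {ι' : Type*} [Fintype ι'] [DecidableEq ι'] (s t : ι' → Idx K N)
    (hs : Function.Injective s) (ht : Function.Injective t) (hst : ∀ i j, s i ≠ t j)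
    (θ : Arr K N → A) (n : ℕ) (m : Arr K N → ℤ) :
    ∑ c ∈ piAntidiag univ n, (∑ d ∈ piAntidiag univ (tot c),
        MvPolynomial.coeff (toF d) (∏ v, subP s t v ^ c v) * m d) • θ c =
      ∑ d ∈ piAntidiag univ n, m d • Move s t θ d := by
  have h1 : ∀ c ∈ (piAntidiag univ n : Finset (Arr K N)), (∑ d ∈ piAntidiag univ (tot c),
        MvPolynomial.coeff (toF d) (∏ v, subP s t v ^ c v) * m d) • θ c =
      ∑ d ∈ piAntidiag univ n, m d • MvPolynomial.coeff (toF d) (∏ v, subP s t v ^ c v) • θ c := by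
    intro c hc
    have : tot c = n := (Finset.mem_piAntidiag.mp hc).1
    rw [this, Finset.sum_smul]
    apply Finset.sum_congr rfl
    intro d _
    rw [mul_comm, mul_smul]
  rw [Finset.sum_congr rfl h1, Finset.sum_comm]
  apply Finset.sum_congr rfl
  intro d hd
  have : ∑ v, d v = n := (Finset.mem_piAntidiag.mp hd).1
  rw [move_eq s t hs ht hst, this, Finset.smul_sum]

lemma xi_col_gen (θ : Arr K N → A) (hθ : ConjRel θ) (a a' : Fin N) (h : a' ≠ a) (x y : Arr K N) :
    Move (rgt a') (rgt a) (fun u => xi θ u y) x =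
      Move (rgt a) (rgt a') (fun u => xi θ x u) y := by
  rw [move_xi_inl _ _ (rgt_inj a), move_xi_inr]
  have e1 : ∀ c ∈ (piAntidiag univ (tot x) : Finset (Arr K N)),
      Move (rgt a') (rgt a) (fun u => Mco c u y) x • θ c =
      (∑ d ∈ piAntidiag univ (tot c),
        MvPolynomial.coeff (toF d) (∏ v, subP (lft a') (lft a) v ^ c v) * Mco d x y) • θ c := by
    intro c _
    rw [move_Mco_inl _ _ (rgt_inj a') (rgt_inj a) (rgt_ne h),
      col_FF _ _ (lft a') (lft a) (col_pairPoly_inl a a')]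
  have e2 : ∀ c ∈ (piAntidiag univ (tot x) : Finset (Arr K N)),
      Move (rgt a) (rgt a') (fun u => Mco c x u) y • θ c =
      (∑ d ∈ piAntidiag univ (tot c),
        MvPolynomial.coeff (toF d) (∏ v, subP (rgt a) (rgt a') v ^ c v) * Mco d x y) • θ c := by
    intro c _
    rw [move_Mco_inr _ _ (rgt_inj a) (rgt_inj a') (rgt_ne h.symm),
      col_FF _ _ (rgt a) (rgt a') (col_pairPoly_inr a a')]
  rw [Finset.sum_congr rfl e1, Finset.sum_congr rfl e2,
    col_swap _ _ (lft_inj a') (lft_inj a) (lft_ne h) θ (tot x) (fun d => Mco d x y),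
    col_swap _ _ (rgt_inj a) (rgt_inj a') (rgt_ne h.symm) θ (tot x) (fun d => Mco d x y)]
  apply Finset.sum_congr rfl
  intro d _
  rw [hθ a' a h d]

theorem xi_colRel (θ : Arr K N → A) (h : ConjRel θ) : ColRel (xi θ) := by
  intro a a' ha t t'
  apply xi_col_gen θ h
  intro e
  rw [e] at ha
  omega

theorem xi_rowRel' (θ : Arr K N → A) : RowRel' (xi θ) := by
  intro i ρ ρ' h t t'
  symm
  apply xi_row_gen
  intro e
  rw [e] at h
  omega

theorem xi_colRel' (θ : Arr K N → A) (h : ConjRel θ) : ColRel' (xi θ) := by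
  intro a a' ha t t'
  symm
  apply xi_col_gen θ h
  intro e
  rw [e] at ha
  omega

/-! ### Weights -/

lemma FF_weight (w : Idx K N ⊕ Idx K N → ℤ) (g : Idx K N → ℤ)
    (hw : ∀ (j : Fin K) (r a b : Fin N), w (Sum.inl (j, r, a)) + w (Sum.inr (j, r, b)) =
      g (j, a, b)) (c : Arr K N) :
    MvPolynomial.IsWeightedHomogeneous w (FF c) (∑ v, (c v : ℤ) * g v) := by
  unfold FF
  have : ∀ v : Idx K N, MvPolynomial.IsWeightedHomogeneous w (pairPoly v ^ c v)
      ((c v : ℤ) * g v) := by
    intro v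
    have h1 : MvPolynomial.IsWeightedHomogeneous w (pairPoly v) (g v) := by
      obtain ⟨j, a, b⟩ := v
      unfold pairPoly
      apply MvPolynomial.IsWeightedHomogeneous.sum
      intro r _
      rw [← hw j r a b]
      exact (MvPolynomial.isWeightedHomogeneous_X ℤ w _).mul
        (MvPolynomial.isWeightedHomogeneous_X ℤ w _)
    have h2 := h1.pow (c v)
    rwa [nsmul_eq_mul] at h2
  exact MvPolynomial.IsWeightedHomogeneous.prod _ _ _ (fun v _ => this v)

lemma weight_toF {σ : Type*} [Fintype σ] (w : σ → ℤ) (d : σ → ℕ) :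
    Finsupp.weight w (toF d) = ∑ v, (d v : ℤ) * w v := by
  rw [Finsupp.weight_apply, Finsupp.sum_fintype _ _ (fun i => by simp)]
  apply Finset.sum_congr rfl
  intro v _
  rw [toF_apply', nsmul_eq_mul]

lemma Mco_weight (w : Idx K N ⊕ Idx K N → ℤ) (g : Idx K N → ℤ)
    (hw : ∀ (j : Fin K) (r a b : Fin N), w (Sum.inl (j, r, a)) + w (Sum.inr (j, r, b)) =
      g (j, a, b)) (c t t' : Arr K N) (h : Mco c t t' ≠ 0) :
    ∑ v, (t v : ℤ) * w (Sum.inl v) + ∑ v, (t' v : ℤ) * w (Sum.inr v) = ∑ v, (c v : ℤ) * g v := by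
  have h1 := FF_weight w g hw c h
  rw [weight_toF, Fintype.sum_sum_type] at h1
  exact h1

lemma sum_row_eq (t : Arr K N) (i : Fin K) (ρ : Fin N) :
    ∑ v : Idx K N, (t v : ℤ) * (if v.1 = i ∧ v.2.1 = ρ then 1 else 0) = (rsum t i ρ : ℤ) := by
  unfold rsum rowc
  rw [Fintype.sum_prod_type]
  rw [Finset.sum_eq_single i]
  · rw [Fintype.sum_prod_type]
    rw [Finset.sum_eq_single ρ]
    · simp
    · intro r _ hr
      simp [hr]
    · intro h; exact absurd (Finset.mem_univ _) h
  · intro j _ hj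
    simp [hj]
  · intro h; exact absurd (Finset.mem_univ _) h

lemma sum_col_eq (t : Arr K N) (a : Fin N) :
    ∑ v : Idx K N, (t v : ℤ) * (if v.2.2 = a then 1 else 0) = (ind t a : ℤ) := by
  unfold ind rgt
  rw [Fintype.sum_prod_type, Fintype.sum_prod_type]
  push_cast
  apply Finset.sum_congr rfl
  intro i _
  rw [Fintype.sum_prod_type]
  apply Finset.sum_congr rfl
  intro r _
  simp

lemma sum_out_eq (t : Arr K N) (a : Fin N) :
    ∑ v : Idx K N, (t v : ℤ) * (if v.2.1 = a then 1 else 0) = (outd t a : ℤ) := by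
  unfold outd lft
  rw [Fintype.sum_prod_type, Fintype.sum_prod_type]
  push_cast
  apply Finset.sum_congr rfl
  intro i _
  rw [Fintype.sum_prod_type]
  rw [Finset.sum_eq_single a]
  · simp
  · intro r _ hr
    simp [hr]
  · intro h; exact absurd (Finset.mem_univ _) h

lemma Mco_row (c t t' : Arr K N) (h : Mco c t t' ≠ 0) (i : Fin K) (ρ : Fin N) :
    rsum t i ρ = rsum t' i ρ := by
  have h1 := Mco_weight (Sum.elim (fun v => if v.1 = i ∧ v.2.1 = ρ then 1 else 0)
    (fun v => if v.1 = i ∧ v.2.1 = ρ then -1 else 0)) (fun _ => 0) (by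
      intro j r a b
      by_cases hh : j = i ∧ r = ρ
      · simp [hh]
      · simp only [Sum.elim_inl, Sum.elim_inr, if_neg hh, add_zero]) c t t' h
  simp only [Sum.elim_inl, Sum.elim_inr, mul_zero, Finset.sum_const_zero] at h1
  rw [sum_row_eq] at h1
  have h2 : ∑ v : Idx K N, (t' v : ℤ) * (if v.1 = i ∧ v.2.1 = ρ then -1 else 0) =
      - (rsum t' i ρ : ℤ) := by
    rw [← sum_row_eq, ← Finset.sum_neg_distrib]
    apply Finset.sum_congr rfl
    intro v _
    by_cases hh : v.1 = i ∧ v.2.1 = ρ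
    · simp [hh]
    · simp only [if_neg hh, mul_zero, neg_zero]
  rw [h2] at h1
  omega

lemma Mco_out (c t t' : Arr K N) (h : Mco c t t' ≠ 0) (a : Fin N) :
    ind t a = outd c a := by
  have h1 := Mco_weight (Sum.elim (fun v => if v.2.2 = a then 1 else 0)
    (fun _ => 0)) (fun v => if v.2.1 = a then 1 else 0) (by
      intro j r x y
      simp) c t t' h
  simp only [Sum.elim_inl, Sum.elim_inr, mul_zero, Finset.sum_const_zero, add_zero] at h1
  rw [sum_col_eq, sum_out_eq] at h1
  exact_mod_cast h1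

lemma Mco_in (c t t' : Arr K N) (h : Mco c t t' ≠ 0) (a : Fin N) :
    ind t' a = ind c a := by
  have h1 := Mco_weight (Sum.elim (fun _ => 0) (fun v => if v.2.2 = a then 1 else 0))
    (fun v => if v.2.2 = a then 1 else 0) (by
      intro j r x y
      simp) c t t' h
  simp only [Sum.elim_inl, Sum.elim_inr, mul_zero, Finset.sum_const_zero, zero_add] at h1
  rw [sum_col_eq, sum_col_eq] at h1
  exact_mod_cast h1

theorem xi_match (θ : Arr K N → A) (h : Bal θ) : Match (xi θ) := by
  intro t t' ht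
  unfold xi
  apply Finset.sum_eq_zero
  intro c _
  by_cases hM : Mco c t t' = 0
  · rw [hM, zero_smul]
  · rcases ht with ⟨i, ρ, hne⟩ | ⟨a, hne⟩
    · exact absurd (Mco_row c t t' hM i ρ) hne
    · rw [h c ⟨a, ?_⟩, smul_zero]
      intro e
      apply hne
      rw [Mco_out c t t' hM a, Mco_in c t t' hM a, e]

/-- the out-degrees of the arrays occurring in `xi θ t t'` are the column sums of `t` -/
theorem xi_outd (θ : Arr K N → A) (t t' : Arr K N) (a : Fin N)
    (h : ∀ c, outd c a = ind t a → θ c = 0) : xi θ t t' = 0 := by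
  unfold xi
  apply Finset.sum_eq_zero
  intro c _
  by_cases hM : Mco c t t' = 0
  · rw [hM, zero_smul]
  · rw [h c (Mco_out c t t' hM a).symm, smul_zero]

/-! ### The diagonal -/

/-- kill the off-diagonal variables `U_{r,x}`, `r ≠ x` -/
noncomputable def kill {K N : ℕ} (v : Idx K N ⊕ Idx K N) : MvPolynomial (Idx K N ⊕ Idx K N) ℤ :=
  Sum.elim (fun q : Idx K N => if q.2.1 = q.2.2 then MvPolynomial.X (Sum.inl q) else 0)
    (fun q => MvPolynomial.X (Sum.inr q)) v

lemma coeff_kill (m : Idx K N ⊕ Idx K N →₀ ℕ)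
    (hm : ∀ q : Idx K N, q.2.1 ≠ q.2.2 → m (Sum.inl q) = 0)
    (F : MvPolynomial (Idx K N ⊕ Idx K N) ℤ) :
    MvPolynomial.coeff m (MvPolynomial.aeval kill F) = MvPolynomial.coeff m F := by
  classical
  induction F using MvPolynomial.induction_on' with
  | monomial d r =>
    rw [MvPolynomial.aeval_monomial]
    by_cases hd : ∀ q : Idx K N, q.2.1 ≠ q.2.2 → d (Sum.inl q) = 0
    · have : (d.prod fun i k => (kill i : MvPolynomial (Idx K N ⊕ Idx K N) ℤ) ^ k) =
          MvPolynomial.monomial d 1 := by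
        rw [MvPolynomial.monomial_eq, map_one, one_mul]
        apply Finsupp.prod_congr
        intro v hv
        rcases v with q | q
        · have hq : q.2.1 = q.2.2 := by
            by_contra hne
            exact (Finsupp.mem_support_iff.mp hv) (hd q hne)
          simp [kill, hq]
        · simp [kill]
      rw [this, MvPolynomial.algebraMap_eq, MvPolynomial.C_mul_monomial, mul_one]
    · push Not at hd
      obtain ⟨q, hq, hdq⟩ := hd
      have h0 : (d.prod fun i k => (kill i : MvPolynomial (Idx K N ⊕ Idx K N) ℤ) ^ k) = 0 := by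
        unfold Finsupp.prod
        apply Finset.prod_eq_zero (Finsupp.mem_support_iff.mpr hdq)
        have : (kill (Sum.inl q) : MvPolynomial (Idx K N ⊕ Idx K N) ℤ) = 0 := by
          simp [kill, hq]
        show kill (Sum.inl q) ^ d (Sum.inl q) = 0
        rw [this, zero_pow hdq]
      rw [h0, mul_zero, MvPolynomial.coeff_zero, MvPolynomial.coeff_monomial, if_neg]
      intro e
      rw [e] at hdq
      exact hdq (hm q hq)
  | add p q hp hq =>
    rw [map_add, MvPolynomial.coeff_add, MvPolynomial.coeff_add, hp, hq]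

lemma kill_pairPoly (v : Idx K N) :
    MvPolynomial.aeval kill (pairPoly v) =
      MvPolynomial.X (Sum.inl (v.1, v.2.1, v.2.1)) * MvPolynomial.X (Sum.inr v) := by
  obtain ⟨i, a, b⟩ := v
  unfold pairPoly
  rw [map_sum, Finset.sum_eq_single a]
  · simp [kill]
  · intro r _ hr
    simp [kill, hr]
  · intro h; exact absurd (Finset.mem_univ _) h

lemma kill_FF (c : Arr K N) :
    MvPolynomial.aeval kill (FF c) = MvPolynomial.monomial (toF (Sum.elim (rdiag c) c)) 1 := by
  classical
  unfold FF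
  rw [map_prod]
  simp only [map_pow, kill_pairPoly, mul_pow]
  rw [Finset.prod_mul_distrib, MvPolynomial.monomial_eq, map_one, one_mul,
    Finsupp.prod_fintype _ _ (fun i => pow_zero _), Fintype.prod_sum_type]
  congr 1
  rw [Fintype.prod_prod_type, Fintype.prod_prod_type]
  apply Finset.prod_congr rfl
  intro i _
  rw [Fintype.prod_prod_type, Fintype.prod_prod_type]
  apply Finset.prod_congr rfl
  intro a _
  have hR : ∏ b : Fin N, (MvPolynomial.X (Sum.inl (i, a, b)) :
      MvPolynomial (Idx K N ⊕ Idx K N) ℤ) ^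
        (toF (Sum.elim (rdiag c) c)) (Sum.inl (i, a, b)) =
      MvPolynomial.X (Sum.inl (i, a, a)) ^ rsum c i a := by
    rw [Finset.prod_eq_single a]
    · rw [toF_apply']
      simp [rdiag]
    · intro b _ hb
      rw [toF_apply']
      simp [rdiag, hb.symm]
    · intro h; exact absurd (Finset.mem_univ _) h
  rw [hR]
  exact Finset.prod_pow_eq_pow_sum univ (fun b => c (i, a, b))
    (MvPolynomial.X (Sum.inl (i, a, a)) : MvPolynomial (Idx K N ⊕ Idx K N) ℤ)

lemma Mco_rdiag (c c' : Arr K N) : Mco c' (rdiag c) c = if c' = c then 1 else 0 := by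
  classical
  rw [Mco_eq, ← coeff_kill, kill_FF, MvPolynomial.coeff_monomial]
  · by_cases h : c' = c
    · subst h
      simp
    · rw [if_neg h, if_neg]
      intro e
      apply h
      funext v
      have := congrArg (fun f => f (Sum.inr v)) e
      simpa [toF_apply'] using this
  · intro q hq
    rw [toF_apply']
    simp [rdiag, hq]

lemma tot_rdiag (c : Arr K N) : tot (rdiag c) = tot c := by
  unfold tot
  rw [Fintype.sum_prod_type, Fintype.sum_prod_type]
  apply Finset.sum_congr rfl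
  intro i _
  rw [Fintype.sum_prod_type, Fintype.sum_prod_type]
  apply Finset.sum_congr rfl
  intro a _
  rw [Finset.sum_eq_single a]
  · simp [rdiag, rsum, rowc]
  · intro b _ hb
    simp [rdiag, hb.symm]
  · intro h; exact absurd (Finset.mem_univ _) h

theorem xi_rdiag (θ : Arr K N → A) (c : Arr K N) : xi θ (rdiag c) c = θ c := by
  classical
  unfold xi
  rw [Finset.sum_eq_single c]
  · rw [Mco_rdiag, if_pos rfl, one_smul]
  · intro d _ hd
    rw [Mco_rdiag, if_neg hd, zero_smul]
  · intro h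
    exfalso
    apply h
    rw [Finset.mem_piAntidiag]
    exact ⟨(tot_rdiag c).symm, fun _ _ => Finset.mem_univ _⟩

end TF
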