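import Pool.Agent.H66.TF.LRDefs
import Pool.Agent.H66.TF.Xi
import Pool.Agent.H66.TF.Straighten
import Pool.Agent.H66.TF.Identity
import Pool.Agent.H66.TF.Count

/-!
# TF-PARTIV: assembly of Part IV (integral form of Zubkov's theorem)

Let `D = n + 1`, `K = k + 1`, `𝓑 = LRPair K D D` (finite: `Count.lean`).

(1) Universal expansion: there are integers `M c b` (`c` an array of total `D`, `b ∈ 𝓑`) with `M c b = 0`
unless `outd c 0 ≤ ind b.1 0`, such that for EVERY abelian group `A` and `θ : Arr K D → A` with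
`ConjRel`, `Bal`: `θ c = ∑_b M c b • xi θ b.1 b.2`. Proof: let `𝓕 = Arr K D →₀ ℤ` and `R` the subgroup
generated by the elements `Move (lft a) (lft b) δ c - Move (rgt b) (rgt a) δ c` (`δ c = single c 1`,
`a ≠ b`) and the unbalanced `δ c`; `X = 𝓕 ⧸ R`, `θᵤ c = [δ c]`. Then `ConjRel θᵤ`, `Bal θᵤ`, so
`straighten` applies to `ξ = xi θᵤ` (with `xi_rowRel`, …) at `(rdiag c, c)`: `θᵤ c = xi θᵤ (rdiag c) c`
(`xi_rdiag`) is a ℤ-combination of the `xi θᵤ b b'` with `(b, b') ∈ 𝓑` and
`ind (rdiag c) 0 = outd c 0 ≤ ind b 0` (`tot (rdiag c) = tot c = D`). For general `θ` the homomorphism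
`𝓕 → A` extending `θ` kills `R`; it maps `xi θᵤ b b'` to `xi θ b b'`. (For `c` of total `≠ D` nothing is
claimed.)

(2) Let `V` be the space of the `θ : Arr K D → ℚ` with `ConjRel`, `Bal` and `θ c = 0` for `tot c ≠ D`. By
(1) the linear map `V → (𝓑 → ℚ)`, `θ ↦ (xi θ b.1 b.2)_b`, is injective; by `functionals` and `count_le`
`dim V ≥ #Orb ≥ #𝓑`. Hence it is bijective.

(3) So for every `b₀ ∈ 𝓑` there is `θ₀ ∈ V` with `xi θ₀ b = δ_{b b₀}`; by (1) `θ₀ c = M c b₀` (for total
`D`), so if `ind b₀.1 0 ≤ m` then `θ₀ c = 0` when `outd c 0 > m`. By `cyc_torsion` for `A = ℚ`: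
`∑_v G v θ₀(cyc v) = 0`, i.e. `∑_v G v M (cyc v) b₀ = 0` (`tot (cyc v) = n + 1`).

(4) For the given `θ`: `∑_v G v • θ (cyc v) = ∑_b (∑_v G v M (cyc v) b) • xi θ b`; if
`ind b.1 0 ≤ m` the coefficient is `0` by (3), if `ind b.1 0 > m` then `xi θ b = 0` by `xi_outd` and
the hypothesis `h3`.
-/

open Finset Equiv

namespace TF

namespace PartIV

/-! ### naturality of `Move` and `xi` -/

theorem move_map {σ ι : Type*} [Fintype ι] [DecidableEq ι] [DecidableEq σ] {A B : Type*}
    [AddCommGroup A] [AddCommGroup B] (φ : A →+ B) (s t : ι → σ) (θ : (σ → ℕ) → A) (c : σ → ℕ) :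
    Move s t (fun c => φ (θ c)) c = φ (Move s t θ c) := by
  unfold Move
  rw [map_sum]
  refine Finset.sum_congr rfl fun κ _ => ?_
  rw [map_nsmul]

theorem xi_map {K N : ℕ} {A B : Type*} [AddCommGroup A] [AddCommGroup B] (φ : A →+ B)
    (θ : Arr K N → A) (t t' : Arr K N) : xi (fun c => φ (θ c)) t t' = φ (xi θ t t') := by
  unfold xi
  rw [map_sum]
  refine Finset.sum_congr rfl fun c _ => ?_
  rw [map_zsmul]

theorem move_add {σ ι : Type*} [Fintype ι] [DecidableEq ι] [DecidableEq σ] {A : Type*}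
    [AddCommGroup A] (s t : ι → σ) (θ θ' : (σ → ℕ) → A) (c : σ → ℕ) :
    Move s t (θ + θ') c = Move s t θ c + Move s t θ' c := by
  unfold Move
  rw [← Finset.sum_add_distrib]
  refine Finset.sum_congr rfl fun κ _ => ?_
  rw [Pi.add_apply, nsmul_add]

theorem move_smul {σ ι : Type*} [Fintype ι] [DecidableEq ι] [DecidableEq σ]
    (r : ℚ) (s t : ι → σ) (θ : (σ → ℕ) → ℚ) (c : σ → ℕ) :
    Move s t (r • θ) c = r • Move s t θ c := by
  unfold Move
  rw [Finset.smul_sum]
  refine Finset.sum_congr rfl fun κ _ => ?_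
  rw [Pi.smul_apply, smul_comm]

theorem xi_add {K N : ℕ} {A : Type*} [AddCommGroup A] (θ θ' : Arr K N → A) (t t' : Arr K N) :
    xi (θ + θ') t t' = xi θ t t' + xi θ' t t' := by
  unfold xi
  rw [← Finset.sum_add_distrib]
  refine Finset.sum_congr rfl fun κ _ => ?_
  rw [Pi.add_apply, zsmul_add]

theorem xi_smul {K N : ℕ} (r : ℚ) (θ : Arr K N → ℚ) (t t' : Arr K N) :
    xi (r • θ) t t' = r • xi θ t t' := by
  unfold xi
  rw [Finset.smul_sum]
  refine Finset.sum_congr rfl fun κ _ => ?_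
  rw [Pi.smul_apply, smul_comm]

/-! ### sums of `rdiag` and `cyc` -/

theorem ind_rdiag {K N : ℕ} (c : Arr K N) (a : Fin N) : ind (rdiag c) a = outd c a := by
  unfold ind outd rdiag rgt lft
  rw [Fintype.sum_prod_type, Fintype.sum_prod_type]
  refine Finset.sum_congr rfl fun i _ => ?_
  simp only
  rw [Finset.sum_eq_single a]
  · simp [rsum, rowc]
  · intro b _ hb
    simp [hb]
  · simp

theorem tot_eq_sum_ind {K N : ℕ} (c : Arr K N) : tot c = ∑ a, ind c a := by
  unfold tot ind rgt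
  rw [Finset.sum_comm, Fintype.sum_prod_type, Fintype.sum_prod_type]
  refine Finset.sum_congr rfl fun i _ => ?_
  rw [Fintype.sum_prod_type]

theorem tot_eq_sum_outd {K N : ℕ} (c : Arr K N) : tot c = ∑ a, outd c a := by
  unfold tot outd lft
  rw [Finset.sum_comm, Fintype.sum_prod_type, Fintype.sum_prod_type]
  refine Finset.sum_congr rfl fun i _ => ?_
  rw [Fintype.sum_prod_type, Finset.sum_comm]

theorem tot_rdiag {K N : ℕ} (c : Arr K N) : tot (rdiag c) = tot c := by
  rw [tot_eq_sum_ind, tot_eq_sum_outd]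
  exact Finset.sum_congr rfl fun a _ => ind_rdiag c a

theorem tot_cyc {k n : ℕ} (v : Fin n → Fin k) : tot (cyc v) = n + 1 := by
  unfold tot cyc
  rw [Finset.sum_add_distrib, Finset.sum_comm]
  congr 1
  · have : ∀ j : Fin n, (∑ q : Idx (k + 1) (n + 1),
        if (v j).castSucc = q.1 ∧ j.castSucc = q.2.1 ∧ j.succ = q.2.2 then 1 else 0) = 1 := by
      intro j
      rw [Finset.sum_eq_single ((v j).castSucc, j.castSucc, j.succ)]
      · simp
      · rintro ⟨x, y, z⟩ _ hb
        rw [if_neg]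
        rintro ⟨h1, h2, h3⟩
        apply hb
        simp only at h1 h2 h3
        rw [h1, h2, h3]
      · simp
    rw [Finset.sum_congr rfl fun j _ => this j]
    simp
  · rw [Finset.sum_eq_single (Fin.last k, Fin.last n, (0 : Fin (n + 1)))]
    · simp
    · rintro ⟨x, y, z⟩ _ hb
      rw [if_neg]
      rintro ⟨h1, h2, h3⟩
      apply hb
      simp only at h1 h2 h3
      rw [h1, h2, h3]
    · simp

/-! ### the universal expansion -/

section Univ

variable {K N : ℕ}

/-- basis vectors -/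
noncomputable def del (c : Arr K N) : Arr K N →₀ ℤ := Finsupp.single c 1

/-- the relations -/
noncomputable def relsub (K N : ℕ) : AddSubgroup (Arr K N →₀ ℤ) :=
  AddSubgroup.closure
    ({z | ∃ (a b : Fin N) (c : Arr K N), a ≠ b ∧
        z = Move (lft a) (lft b) del c - Move (rgt b) (rgt a) del c} ∪
      {z | ∃ c : Arr K N, (∃ a, outd c a ≠ ind c a) ∧ z = del c})

/-- the universal function -/
noncomputable def thu (K N : ℕ) (c : Arr K N) : (Arr K N →₀ ℤ) ⧸ relsub K N :=
  QuotientAddGroup.mk' (relsub K N) (del c)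

theorem thu_conj : ConjRel (thu K N) := by
  intro a b hab c
  have h1 : ∀ s t : Fin K × Fin N → Idx K N, Move s t (thu K N) c =
      QuotientAddGroup.mk' (relsub K N) (Move s t del c) := fun s t =>
    move_map (QuotientAddGroup.mk' (relsub K N)) s t del c
  rw [h1, h1, ← sub_eq_zero, ← map_sub]
  exact (QuotientAddGroup.eq_zero_iff _).2
    (AddSubgroup.subset_closure (Or.inl ⟨a, b, c, hab, rfl⟩))

theorem thu_bal : Bal (thu K N) := by
  intro c hc
  exact (QuotientAddGroup.eq_zero_iff _).2 (AddSubgroup.subset_closure (Or.inr ⟨c, hc, rfl⟩))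

/-- the homomorphism induced by a function on arrays -/
noncomputable def lif {A : Type*} [AddCommGroup A] (θ : Arr K N → A) : (Arr K N →₀ ℤ) →+ A :=
  Finsupp.liftAddHom (fun c => zmultiplesHom A (θ c))

theorem lif_del {A : Type*} [AddCommGroup A] (θ : Arr K N → A) (c : Arr K N) :
    lif θ (del c) = θ c := by
  unfold lif del
  simp

theorem exists_lift {A : Type*} [AddCommGroup A] (θ : Arr K N → A) (h1 : ConjRel θ) (h2 : Bal θ) :
    ∃ φ : (Arr K N →₀ ℤ) ⧸ relsub K N →+ A, ∀ c, φ (thu K N c) = θ c := by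
  have hk : relsub K N ≤ (lif θ).ker := by
    unfold relsub
    rw [AddSubgroup.closure_le]
    rintro z (⟨a, b, c, hab, rfl⟩ | ⟨c, hc, rfl⟩)
    · have h3 : ∀ s t : Fin K × Fin N → Idx K N, lif θ (Move s t del c) = Move s t θ c := by
        intro s t
        rw [← move_map]
        congr 1
        funext c'
        exact lif_del θ c'
      rw [SetLike.mem_coe, AddMonoidHom.mem_ker, map_sub, h3, h3, h1 a b hab c, sub_self]
    · rw [SetLike.mem_coe, AddMonoidHom.mem_ker, lif_del]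
      exact h2 c hc
  refine ⟨QuotientAddGroup.lift (relsub K N) (lif θ) hk, fun c => ?_⟩
  have : QuotientAddGroup.lift (relsub K N) (lif θ) hk (thu K N c) = lif θ (del c) :=
    QuotientAddGroup.lift_mk' (relsub K N) hk (del c)
  rw [this, lif_del]

end Univ

/-- (1): the universal expansion -/
theorem expansion (K n : ℕ) [Fintype (LRPair K (n + 1) (n + 1))] :
    ∃ M : Arr K (n + 1) → LRPair K (n + 1) (n + 1) → ℤ,
      (∀ c b, ¬ (outd c 0 ≤ ind b.1.1 0) → M c b = 0) ∧
      ∀ c, tot c = n + 1 →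
        thu K (n + 1) c = ∑ b, M c b • xi (thu K (n + 1)) b.1.1 b.1.2 := by
  classical
  have key : ∀ c : Arr K (n + 1), ∃ M : LRPair K (n + 1) (n + 1) → ℤ,
      (∀ b, ¬ (outd c 0 ≤ ind b.1.1 0) → M b = 0) ∧ (tot c = n + 1 →
        thu K (n + 1) c = ∑ b, M b • xi (thu K (n + 1)) b.1.1 b.1.2) := by
    intro c
    by_cases hc : tot c = n + 1
    swap
    · exact ⟨fun _ => 0, fun _ _ => rfl, fun h => absurd h hc⟩
    have h1 := straighten (xi (thu K (n + 1))) (xi_rowRel _) (xi_colRel _ thu_conj) (xi_rowRel' _)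
      (xi_colRel' _ thu_conj) (xi_match _ thu_bal) (rdiag c) c
    rw [xi_rdiag] at h1
    generalize thu K (n + 1) c = y at h1
    have h2 : ∃ M : LRPair K (n + 1) (n + 1) → ℤ,
        (∀ b, ¬ (outd c 0 ≤ ind b.1.1 0) → M b = 0) ∧
          y = ∑ b, M b • xi (thu K (n + 1)) b.1.1 b.1.2 := by
      induction h1 using AddSubgroup.closure_induction with
      | mem z hz =>
        obtain ⟨b, b', hb, hb', hr, hcs, htot, hind, rfl⟩ := hz
        rw [tot_rdiag, hc] at htot
        rw [ind_rdiag] at hind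
        let q : LRPair K (n + 1) (n + 1) := ⟨(b, b'), hb, hb', hr, hcs, htot⟩
        refine ⟨fun x => if x = q then 1 else 0, ?_, ?_⟩
        · intro x hx
          have hxq : x ≠ q := by
            rintro rfl
            exact hx hind
          simp [hxq]
        · rw [Finset.sum_eq_single q]
          · simp [q]
          · intro x _ hx
            simp [hx]
          · simp
      | zero => exact ⟨fun _ => 0, fun _ _ => rfl, by simp⟩
      | add x y _ _ hx hy =>
        obtain ⟨M, hM, hx⟩ := hx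
        obtain ⟨M', hM', hy⟩ := hy
        refine ⟨fun b => M b + M' b, fun b hb => ?_, ?_⟩
        · change M b + M' b = 0
          rw [hM b hb, hM' b hb, add_zero]
        · rw [hx, hy, ← Finset.sum_add_distrib]
          exact Finset.sum_congr rfl fun b _ => by rw [add_zsmul]
      | neg x _ hx =>
        obtain ⟨M, hM, hx⟩ := hx
        refine ⟨fun b => - M b, fun b hb => ?_, ?_⟩
        · change - M b = 0
          rw [hM b hb, neg_zero]
        · rw [hx, ← Finset.sum_neg_distrib]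
          exact Finset.sum_congr rfl fun b _ => by rw [neg_zsmul]
    obtain ⟨M, hM, hx⟩ := h2
    exact ⟨M, hM, fun _ => hx⟩
  choose M hM hMs using key
  exact ⟨M, hM, hMs⟩

theorem expand {K n : ℕ} [Fintype (LRPair K (n + 1) (n + 1))]
    {M : Arr K (n + 1) → LRPair K (n + 1) (n + 1) → ℤ}
    (hMs : ∀ c, tot c = n + 1 →
      thu K (n + 1) c = ∑ b, M c b • xi (thu K (n + 1)) b.1.1 b.1.2)
    {c : Arr K (n + 1)} (hc : tot c = n + 1) {A : Type*} [AddCommGroup A]
    (θ : Arr K (n + 1) → A) (h1 : ConjRel θ) (h2 : Bal θ) :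
    θ c = ∑ b : LRPair K (n + 1) (n + 1), M c b • xi θ b.1.1 b.1.2 := by
  obtain ⟨φ, hφ⟩ := exists_lift θ h1 h2
  have h3 : (fun c => φ (thu K (n + 1) c)) = θ := funext hφ
  have h4 := congrArg φ (hMs c hc)
  rw [hφ, map_sum] at h4
  rw [h4]
  refine Finset.sum_congr rfl fun b _ => ?_
  rw [map_zsmul, ← xi_map, h3]

/-- (2): the space `V` -/
def spaceV (K D : ℕ) : Submodule ℚ (Arr K D → ℚ) where
  carrier := {θ | ConjRel θ ∧ Bal θ ∧ ∀ c, tot c ≠ D → θ c = 0}
  add_mem' := by
    rintro θ θ' ⟨h1, h2, h3⟩ ⟨h1', h2', h3'⟩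
    refine ⟨fun a b hab c => ?_, fun c hc => ?_, fun c hc => ?_⟩
    · rw [move_add, move_add, h1 a b hab c, h1' a b hab c]
    · rw [Pi.add_apply, h2 c hc, h2' c hc, add_zero]
    · rw [Pi.add_apply, h3 c hc, h3' c hc, add_zero]
  zero_mem' := by
    refine ⟨fun a b _ c => ?_, fun c _ => rfl, fun c _ => rfl⟩
    unfold Move
    simp
  smul_mem' := by
    rintro r θ ⟨h1, h2, h3⟩
    refine ⟨fun a b hab c => ?_, fun c hc => ?_, fun c hc => ?_⟩
    · rw [move_smul, move_smul, h1 a b hab c]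
    · rw [Pi.smul_apply, h2 c hc, smul_zero]
    · rw [Pi.smul_apply, h3 c hc, smul_zero]

/-- (2): the evaluation map -/
noncomputable def evV (K D : ℕ) : spaceV K D →ₗ[ℚ] (LRPair K D D → ℚ) where
  toFun θ := fun b => xi θ.1 b.1.1 b.1.2
  map_add' θ θ' := by
    funext b
    exact xi_add θ.1 θ'.1 b.1.1 b.1.2
  map_smul' r θ := by
    funext b
    exact xi_smul r θ.1 b.1.1 b.1.2

/-- (2): the dual basis -/
theorem exists_dual (K n : ℕ) [Fintype (LRPair K (n + 1) (n + 1))]
    (b₀ : LRPair K (n + 1) (n + 1)) [DecidableEq (LRPair K (n + 1) (n + 1))] :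
    ∃ θ : Arr K (n + 1) → ℚ, ConjRel θ ∧ Bal θ ∧ (∀ c, tot c ≠ n + 1 → θ c = 0) ∧
      ∀ b : LRPair K (n + 1) (n + 1), xi θ b.1.1 b.1.2 = if b = b₀ then 1 else 0 := by
  classical
  obtain ⟨M, -, hM⟩ := expansion K n
  have hinj : Function.Injective (evV K (n + 1)) := by
    rw [injective_iff_map_eq_zero]
    rintro ⟨θ, h1, h2, h3⟩ h
    apply Subtype.ext
    funext c
    change θ c = 0
    by_cases hc : tot c = n + 1
    · rw [expand hM hc θ h1 h2]
      refine Finset.sum_eq_zero fun b _ => ?_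
      have : xi θ b.1.1 b.1.2 = 0 := congrFun h b
      rw [this, smul_zero]
    · exact h3 c hc
  have : Module.Finite ℚ (spaceV K (n + 1)) := Module.Finite.of_injective _ hinj
  have : Fintype (Orb K (n + 1)) := Fintype.ofFinite _
  obtain ⟨Θ, t1, t2, t3, t4⟩ := functionals K (n + 1)
  let Θ' : Orb K (n + 1) → spaceV K (n + 1) := fun o => ⟨Θ o, t1 o, t2 o, t3 o⟩
  have hli : LinearIndependent ℚ Θ' := by
    have : Θ = (spaceV K (n + 1)).subtype ∘ Θ' := rfl
    rw [this] at t4
    exact LinearIndependent.of_comp _ t4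
  have hle : Fintype.card (Orb K (n + 1)) ≤ Module.finrank ℚ (spaceV K (n + 1)) :=
    hli.fintype_card_le_finrank
  have hcard := card_LRPair K (n + 1)
  rw [Nat.card_eq_fintype_card, Nat.card_eq_fintype_card] at hcard
  have hle2 : Module.finrank ℚ (spaceV K (n + 1)) ≤
      Module.finrank ℚ (LRPair K (n + 1) (n + 1) → ℚ) :=
    LinearMap.finrank_le_finrank_of_injective hinj
  have hpi : Module.finrank ℚ (LRPair K (n + 1) (n + 1) → ℚ) =
      Fintype.card (LRPair K (n + 1) (n + 1)) := Module.finrank_fintype_fun_eq_card ℚ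
  have heq : Module.finrank ℚ (spaceV K (n + 1)) =
      Module.finrank ℚ (LRPair K (n + 1) (n + 1) → ℚ) := by omega
  have hsurj : Function.Surjective (evV K (n + 1)) :=
    (LinearMap.injective_iff_surjective_of_finrank_eq_finrank heq).1 hinj
  obtain ⟨⟨θ, h1, h2, h3⟩, hθ⟩ := hsurj (fun b => if b = b₀ then 1 else 0)
  exact ⟨θ, h1, h2, h3, fun b => congrFun hθ b⟩

end PartIV

open PartIV in
theorem partIV {n k m : ℕ} {A : Type*} [AddCommGroup A]
    (θ : Arr (k + 1) (n + 1) → A) (h1 : ConjRel θ) (h2 : Bal θ) (h3 : ∀ c, m < outd c 0 → θ c = 0)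
    (G : (Fin n → Fin k) → ℤ) (hG : IsIdent m G) :
    ∑ v, G v • θ (cyc v) = 0 := by
  classical
  have : Fintype (LRPair (k + 1) (n + 1) (n + 1)) := Fintype.ofFinite _
  obtain ⟨M, hM0, hM⟩ := expansion (k + 1) n
  -- (3)
  have h3' : ∀ b₀ : LRPair (k + 1) (n + 1) (n + 1), ind b₀.1.1 0 ≤ m →
      ∑ v, G v * M (cyc v) b₀ = 0 := by
    intro b₀ hb₀
    obtain ⟨θ₀, c1, c2, c3, c4⟩ := exists_dual (k + 1) n b₀
    have c5 : ∀ c, tot c = n + 1 → θ₀ c = M c b₀ := by
      intro c hc
      rw [expand hM hc θ₀ c1 c2, Finset.sum_eq_single b₀]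
      · rw [c4, if_pos rfl]
        simp
      · intro b _ hb
        rw [c4, if_neg hb, smul_zero]
      · simp
    have c6 : ∀ c, m < outd c 0 → θ₀ c = 0 := by
      intro c hc
      by_cases ht : tot c = n + 1
      · rw [c5 c ht, hM0 c b₀ (by omega)]
        simp
      · exact c3 c ht
    have c7 := cyc_torsion θ₀ c1 c2 c6 G hG
    rw [nsmul_eq_mul] at c7
    have c8 := (mul_eq_zero.1 c7).resolve_left (by exact_mod_cast n.factorial_ne_zero)
    have c9 : ((∑ v, G v * M (cyc v) b₀ : ℤ) : ℚ) = 0 := by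
      rw [← c8]
      push_cast
      refine Finset.sum_congr rfl fun v _ => ?_
      rw [c5 _ (tot_cyc v), zsmul_eq_mul]
    exact_mod_cast c9
  -- (4)
  have h4 : ∑ v, G v • θ (cyc v) =
      ∑ b : LRPair (k + 1) (n + 1) (n + 1), (∑ v, G v * M (cyc v) b) • xi θ b.1.1 b.1.2 := by
    have : ∀ v, G v • θ (cyc v) = ∑ b : LRPair (k + 1) (n + 1) (n + 1),
        (G v * M (cyc v) b) • xi θ b.1.1 b.1.2 := by
      intro v
      rw [expand hM (tot_cyc v) θ h1 h2, Finset.smul_sum]
      exact Finset.sum_congr rfl fun b _ => by rw [mul_zsmul]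
    rw [Finset.sum_congr rfl fun v _ => this v, Finset.sum_comm]
    exact Finset.sum_congr rfl fun b _ => Finset.sum_smul.symm
  rw [h4]
  refine Finset.sum_eq_zero fun b _ => ?_
  by_cases hb : ind b.1.1 0 ≤ m
  · rw [h3' b hb, zero_zsmul]
  · rw [xi_outd θ b.1.1 b.1.2 0 (fun c hc => h3 c (by omega)), smul_zero]

end TF
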