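import Pool.Agent.H66.TF.ThNat

/-!
# TF-THBAL: `Bal (thC …)`

Fix a vertex `a`. Let `C' = C[λ, λ⁻¹]` (`LaurentPolynomial C`), `f : C → C'` the ring homomorphism
`X_{(i,x,y)} ↦ λ^{[x=a] - [y=a]} X_{(i,x,y)}` (it exists: the homomorphism `ℤ[X] → C'` sends a monomial
`X^c` to `λ^{outd c a - ind c a} X^c`, so it kills `trI`) and `ι : C → C'` the inclusion. By `TH_map` and
`theta_diag` (`d = diag(1, …, λ, …, 1)`, `λ` a central unit of `R ⊗ C'`), `mapR f TH = mapR ι TH`. The
coefficient of `λ^0 X^c` of the left side is `tcR c TH` if `outd c a = ind c a` and `0` otherwise (check on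
pure tensors `r ⊗ X^d`); on the right side it is `tcR c TH`.

Alternative without Laurent polynomials: `TH` lies in the weight-`0` part of the grading of
`S = R ⊗ C` (`X_{(i,x,y)}` of weight `[x=a] - [y=a] ∈ ℤ`): additive subgroups `G w ⊆ S`,
`G w * G w' ⊆ G (w + w')`; `(1 + T)_{xy}`, and hence `((1+T)⁻¹)_{xy} = ∑ (-T)^j`, have weight
`[x=a]-[y=a]`, the pivots and their inverses weight `0`, `Y_{yx}` weight `[y=a]-[x=a]`.
No Capelli identity is needed.
-/

open Finset Equiv TensorProduct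

namespace TF

section Weight

variable {τ : Type} [Fintype τ] {D : ℕ}

/-- the homomorphism `X_v ↦ λ^{wt v} X_v` on polynomials -/
noncomputable def wtHom₀ (D : ℕ) (wt : τ → ℤ) :
    MvPolynomial τ ℤ →+* LaurentPolynomial (TP τ D) :=
  MvPolynomial.eval₂Hom (Int.castRingHom _)
    (fun v => LaurentPolynomial.T (wt v) * LaurentPolynomial.C (tX v))

lemma wtHom₀_monomial (wt : τ → ℤ) (d : τ →₀ ℕ) (r : ℤ) :
    wtHom₀ D wt (MvPolynomial.monomial d r) = LaurentPolynomial.T (∑ v, (d v : ℤ) * wt v) *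
      LaurentPolynomial.C (Ideal.Quotient.mk (trI τ D) (MvPolynomial.monomial d r)) := by
  classical
  have hT : ∀ s : Finset τ, (LaurentPolynomial.T (∑ v ∈ s, (d v : ℤ) * wt v) :
      LaurentPolynomial (TP τ D)) = ∏ v ∈ s, LaurentPolynomial.T ((d v : ℤ) * wt v) := by
    intro s
    induction s using Finset.induction_on with
    | empty => simp
    | insert b s hb ih => rw [Finset.sum_insert hb, Finset.prod_insert hb, LaurentPolynomial.T_add, ih]
  rw [wtHom₀, MvPolynomial.coe_eval₂Hom, MvPolynomial.eval₂_monomial,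
    Finsupp.prod_fintype _ _ (fun _ => pow_zero _), hT, MvPolynomial.monomial_eq,
    Finsupp.prod_fintype _ _ (fun _ => pow_zero _), map_mul, map_mul, map_prod, map_prod]
  have e1 : LaurentPolynomial.C (Ideal.Quotient.mk (trI τ D) (MvPolynomial.C r)) =
      (Int.castRingHom (LaurentPolynomial (TP τ D))) r := by
    have : (MvPolynomial.C r : MvPolynomial τ ℤ) = Int.castRingHom _ r := by simp
    rw [this]
    simp
  rw [e1]
  have e2 : ∀ v, (LaurentPolynomial.T (wt v) * LaurentPolynomial.C (tX v)) ^ d v =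
      LaurentPolynomial.T ((d v : ℤ) * wt v) *
      (LaurentPolynomial.C (Ideal.Quotient.mk (trI τ D) (MvPolynomial.X v ^ d v)) :
        LaurentPolynomial (TP τ D)) := by
    intro v
    rw [(LaurentPolynomial.commute_T _ _).mul_pow, LaurentPolynomial.T_pow, map_pow, map_pow]
    rfl
  rw [Finset.prod_congr rfl (fun v _ => e2 v), Finset.prod_mul_distrib]
  ring

/-- the homomorphism `X_v ↦ λ^{wt v} X_v` -/
noncomputable def wtHom (wt : τ → ℤ) : TP τ D →+* LaurentPolynomial (TP τ D) :=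
  Ideal.Quotient.lift (trI τ D) (wtHom₀ D wt) (by
    intro g hg
    rw [← MvPolynomial.support_sum_monomial_coeff g, map_sum]
    apply Finset.sum_eq_zero
    intro d hd
    rw [wtHom₀_monomial]
    have h1 : MvPolynomial.monomial d (MvPolynomial.coeff d g) ∈ trI τ D := by
      intro c hc
      classical
      rw [MvPolynomial.coeff_monomial]
      split_ifs with h
      · subst h
        exact hg d hc
      · rfl
    rw [Ideal.Quotient.eq_zero_iff_mem.2 h1, map_zero, mul_zero])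

lemma wtHom_monomial (wt : τ → ℤ) (d : τ →₀ ℕ) (r : ℤ) :
    wtHom wt (Ideal.Quotient.mk (trI τ D) (MvPolynomial.monomial d r)) =
      LaurentPolynomial.T (∑ v, (d v : ℤ) * wt v) *
      LaurentPolynomial.C (Ideal.Quotient.mk (trI τ D) (MvPolynomial.monomial d r)) :=
  wtHom₀_monomial wt d r

lemma wtHom_tX (wt : τ → ℤ) (v : τ) :
    wtHom wt (tX v : TP τ D) = LaurentPolynomial.T (wt v) * LaurentPolynomial.C (tX v) := by
  show wtHom₀ D wt (MvPolynomial.X v) = _
  rw [wtHom₀, MvPolynomial.coe_eval₂Hom, MvPolynomial.eval₂_X]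

/-- the coefficient of `λ^0` -/
noncomputable def lam0 (A : Type*) [CommRing A] : LaurentPolynomial A →ₗ[ℤ] A :=
  (AddMonoidHom.mk' (fun h : LaurentPolynomial A => h.coeff 0) (fun g h => by
    rw [AddMonoidAlgebra.coeff_add, Finsupp.add_apply])).toIntLinearMap

lemma lam0_C {A : Type*} [CommRing A] (x : A) : lam0 A (LaurentPolynomial.C x) = x := by
  show (LaurentPolynomial.C x).coeff 0 = x
  rw [LaurentPolynomial.C_apply, if_pos rfl]

lemma lam0_T_mul_C {A : Type*} [CommRing A] (n : ℤ) (x : A) :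
    lam0 A (LaurentPolynomial.T n * LaurentPolynomial.C x) = if n = 0 then x else 0 := by
  show (LaurentPolynomial.T n * LaurentPolynomial.C x).coeff 0 = _
  rw [mul_comm, ← LaurentPolynomial.single_eq_C_mul_T, AddMonoidAlgebra.coeff_single,
    Finsupp.single_apply]

lemma tcoeff_wt (wt : τ → ℤ) (c : τ → ℕ) (h : TP τ D) :
    tcoeff c (lam0 _ (wtHom wt h)) = if ∑ v, (c v : ℤ) * wt v = 0 then tcoeff c h else 0 := by
  classical
  by_cases hc : ∑ v, c v ≤ D
  · obtain ⟨g, rfl⟩ := Ideal.Quotient.mk_surjective h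
    induction g using MvPolynomial.induction_on' with
    | monomial d r =>
      rw [wtHom_monomial, lam0_T_mul_C]
      by_cases hd : d = toF c
      · subst hd
        have e : ∑ v, ((toF c v : ℕ) : ℤ) * wt v = ∑ v, (c v : ℤ) * wt v := rfl
        rw [e]
        split_ifs with h0
        · rfl
        · rw [map_zero]
      · have h1 : tcoeff c (Ideal.Quotient.mk (trI τ D) (MvPolynomial.monomial d r)) = 0 := by
          rw [tcoeff_mk c hc, MvPolynomial.coeff_monomial, if_neg hd]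
        split_ifs
        · rfl
        · rw [h1]
        · rw [h1, map_zero]
        · rw [map_zero]
    | add p q hp hq =>
      rw [map_add, map_add, map_add, map_add, map_add, hp, hq]
      split_ifs
      · rfl
      · rw [add_zero]
  · have h0 : (tcoeff c : TP τ D →+ ℤ) = 0 := by
      rw [tcoeff, dif_neg hc]
    rw [h0]
    simp

lemma mapR_tmul (R : Type*) [Ring R] {C C' : Type*} [CommRing C] [CommRing C'] (f : C →+* C')
    (r : R) (h : C) : mapR R f (r ⊗ₜ[ℤ] h) = r ⊗ₜ[ℤ] (f h) := by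
  show (Algebra.TensorProduct.map (AlgHom.id ℤ R) (f.toIntAlgHom)) (r ⊗ₜ[ℤ] h) = _
  rw [Algebra.TensorProduct.map_tmul]
  rfl

lemma tcR_wt {R : Type*} [Ring R] (wt : τ → ℤ) (c : τ → ℕ) (z : R ⊗[ℤ] TP τ D) :
    tcR c (TensorProduct.map (LinearMap.id : R →ₗ[ℤ] R) (lam0 _) (mapR R (wtHom wt) z)) =
      if ∑ v, (c v : ℤ) * wt v = 0 then tcR c z else 0 := by
  induction z using TensorProduct.induction_on with
  | zero => simp
  | tmul r h =>
    rw [mapR_tmul, TensorProduct.map_tmul, tcR_tmul, tcR_tmul, tcoeff_wt, LinearMap.id_apply]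
    split_ifs
    · rfl
    · rw [zero_smul]
  | add x y hx hy =>
    rw [map_add, map_add, map_add, map_add, hx, hy]
    split_ifs
    · rfl
    · rw [add_zero]

lemma tcR_C {R : Type*} [Ring R] (c : τ → ℕ) (z : R ⊗[ℤ] TP τ D) :
    tcR c (TensorProduct.map (LinearMap.id : R →ₗ[ℤ] R) (lam0 _)
      (mapR R (LaurentPolynomial.C : TP τ D →+* LaurentPolynomial (TP τ D)) z)) = tcR c z := by
  induction z using TensorProduct.induction_on with
  | zero => simp
  | tmul r h =>
    rw [mapR_tmul, TensorProduct.map_tmul, lam0_C, LinearMap.id_apply]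
  | add x y hx hy =>
    rw [map_add, map_add, map_add, map_add, hx, hy]

end Weight

/-- the weights attached to the vertex `b` -/
def vwt {K N : ℕ} (b : Fin N) (v : Idx K N) : ℤ :=
  (if v.2.1 = b then 1 else 0) + -(if v.2.2 = b then 1 else 0)

lemma sum_vwt {K N : ℕ} (b : Fin N) (c : Arr K N) :
    ∑ v, (c v : ℤ) * vwt b v = (outd c b : ℤ) - ind c b := by
  have e1 : ∑ v : Idx K N, (c v : ℤ) * (if v.2.1 = b then 1 else 0) = (outd c b : ℤ) := by
    rw [outd, Nat.cast_sum, Fintype.sum_prod_type, Fintype.sum_prod_type]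
    refine Finset.sum_congr rfl fun i _ => ?_
    rw [Fintype.sum_prod_type]
    simp only [mul_ite, mul_one, mul_zero]
    rw [Finset.sum_comm]
    refine Finset.sum_congr rfl fun y _ => ?_
    rw [Finset.sum_ite_eq' Finset.univ b, if_pos (Finset.mem_univ b)]
    rfl
  have e2 : ∑ v : Idx K N, (c v : ℤ) * (if v.2.2 = b then 1 else 0) = (ind c b : ℤ) := by
    rw [ind, Nat.cast_sum, Fintype.sum_prod_type, Fintype.sum_prod_type]
    refine Finset.sum_congr rfl fun i _ => ?_
    rw [Fintype.sum_prod_type]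
    simp only [mul_ite, mul_one, mul_zero]
    refine Finset.sum_congr rfl fun y _ => ?_
    rw [Finset.sum_ite_eq' Finset.univ b, if_pos (Finset.mem_univ b)]
    rfl
  rw [← e1, ← e2, ← Finset.sum_sub_distrib]
  refine Finset.sum_congr rfl fun v _ => ?_
  rw [vwt]
  ring

lemma TH_wt {R : Type*} [Ring R] {m n k : ℕ} (a : Fin k → R) (w : R)
    (L : List (R ⊕ (Fin m ⊕ Fin m))) (x z : Fin m → R) (b : Fin (n + 1)) :
    mapR R (wtHom (vwt b)) (TH n a L x z w) = mapR R LaurentPolynomial.C (TH n a L x z w) := by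
  rw [TH_map, TH_map]
  let δ : Fin (n + 1) → ℤ := fun p => if p = b then 1 else 0
  have hu : ∀ p q : ℤ, (1 : R) ⊗ₜ[ℤ] (LaurentPolynomial.T p : LaurentPolynomial
      (TP (Idx (k + 1) (n + 1)) (n + 1))) * (1 : R) ⊗ₜ[ℤ] LaurentPolynomial.T q =
      (1 : R) ⊗ₜ[ℤ] LaurentPolynomial.T (p + q) := by
    intro p q
    rw [Algebra.TensorProduct.tmul_mul_tmul, mul_one, LaurentPolynomial.T_add]
  let d : Fin (n + 1) → (R ⊗[ℤ] LaurentPolynomial (TP (Idx (k + 1) (n + 1)) (n + 1)))ˣ := fun p =>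
    ⟨(1 : R) ⊗ₜ[ℤ] LaurentPolynomial.T (δ p), (1 : R) ⊗ₜ[ℤ] LaurentPolynomial.T (-δ p), by
      rw [hu, add_neg_cancel, LaurentPolynomial.T_zero]; rfl, by
      rw [hu, neg_add_cancel, LaurentPolynomial.T_zero]; rfl⟩
  have hcen : ∀ (c : LaurentPolynomial (TP (Idx (k + 1) (n + 1)) (n + 1))) r,
      (1 : R) ⊗ₜ[ℤ] c * r = r * (1 : R) ⊗ₜ[ℤ] c := by
    intro c r
    induction r using TensorProduct.induction_on with
    | zero => simp
    | tmul r h =>
      rw [Algebra.TensorProduct.tmul_mul_tmul, Algebra.TensorProduct.tmul_mul_tmul, one_mul,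
        mul_one, mul_comm c h]
    | add x y hx hy => rw [mul_add, add_mul, hx, hy]
  have hd : ∀ i r, (d i : R ⊗[ℤ] LaurentPolynomial (TP (Idx (k + 1) (n + 1)) (n + 1))) * r =
      r * d i := fun i r => hcen _ r
  have key : ∀ (i : Fin (k + 1)) (r : R) (p q : Fin (n + 1)),
      (d p : R ⊗[ℤ] LaurentPolynomial (TP (Idx (k + 1) (n + 1)) (n + 1))) *
        (r ⊗ₜ[ℤ] LaurentPolynomial.C (tX (i, p, q))) *
        (((d q)⁻¹ : (R ⊗[ℤ] LaurentPolynomial (TP (Idx (k + 1) (n + 1)) (n + 1)))ˣ) :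
          R ⊗[ℤ] LaurentPolynomial (TP (Idx (k + 1) (n + 1)) (n + 1))) =
      r ⊗ₜ[ℤ] (wtHom (vwt b) (tX (i, p, q))) := by
    intro i r p q
    have e1 : (d p : R ⊗[ℤ] LaurentPolynomial (TP (Idx (k + 1) (n + 1)) (n + 1))) =
      (1 : R) ⊗ₜ[ℤ] LaurentPolynomial.T (δ p) := rfl
    have e2 : (((d q)⁻¹ : (R ⊗[ℤ] LaurentPolynomial (TP (Idx (k + 1) (n + 1)) (n + 1)))ˣ) : R ⊗[ℤ] LaurentPolynomial (TP (Idx (k + 1) (n + 1)) (n + 1))) =
      (1 : R) ⊗ₜ[ℤ] LaurentPolynomial.T (-δ q) := rfl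
    rw [e1, e2, Algebra.TensorProduct.tmul_mul_tmul, Algebra.TensorProduct.tmul_mul_tmul, one_mul,
      mul_one, wtHom_tX]
    have e3 : vwt b ((i, p, q) : Idx (k + 1) (n + 1)) = δ p + -δ q := rfl
    rw [e3, LaurentPolynomial.T_add]
    congr 1
    ring
  rw [← theta_diag (Lext _ L) (fun i => x i ⊗ₜ[ℤ] 1) (fun i => z i ⊗ₜ[ℤ] 1) (w ⊗ₜ[ℤ] 1)
    (1 + Matrix.of fun p q : Fin (n + 1) => ∑ i : Fin k, a i ⊗ₜ[ℤ]
      (LaurentPolynomial.C (tX (i.castSucc, p, q)) :
        LaurentPolynomial (TP (Idx (k + 1) (n + 1)) (n + 1))))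
    (Matrix.of fun p q : Fin (n + 1) => (1 : R) ⊗ₜ[ℤ]
      (LaurentPolynomial.C (tX (Fin.last k, p, q)) :
        LaurentPolynomial (TP (Idx (k + 1) (n + 1)) (n + 1)))) d hd]
  congr 1
  · ext p q
    rw [Matrix.of_apply, Matrix.add_apply, Matrix.add_apply, Matrix.of_apply, Matrix.of_apply,
      mul_add, add_mul, Finset.mul_sum, Finset.sum_mul]
    congr 1
    · by_cases hpq : p = q
      · subst hpq
        rw [Matrix.one_apply_eq, mul_one, Units.mul_inv]
      · rw [Matrix.one_apply_ne hpq, mul_zero, zero_mul]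
    · exact Finset.sum_congr rfl fun i _ => (key _ _ _ _).symm
  · ext p q
    rw [Matrix.of_apply, Matrix.of_apply, Matrix.of_apply]
    exact (key _ _ _ _).symm

theorem thC_bal {R : Type*} [Ring R] {m n k : ℕ} (a : Fin k → R) (w : R)
    (L : List (R ⊕ (Fin m ⊕ Fin m))) (x z : Fin m → R) : Bal (thC n a L x z w) := by
  rintro c ⟨b, hb⟩
  rw [thC]
  split_ifs with ht
  · rw [← tcR_C c (TH n a L x z w), ← TH_wt a w L x z b, tcR_wt, sum_vwt, if_neg]
    intro h
    exact hb (by exact_mod_cast sub_eq_zero.1 h)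
  · rfl

end TF
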