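import Pool.Agent.H66.TF.ThNat

/-!
# TF-THPATH: the value of `thC` at the array of a cyclic word

Let `g = tsub φ`, `φ v = X v` for the cells `(v j, j, j+1)` (`j < n`) and `(k, n, 0)`, `φ v = 0` for the other
cells (homogeneous of degree 1, also `0`). By `tcR_tsub`, `tcR (cyc v) (mapR g TH) = tcR (cyc v) TH`:
`∏ (φ v)^{d v}` is `X^d` or `0`, and its coefficient at `cyc v` is `1` for `d = cyc v`, else `0`.
`mapR g TH` is given by `TH_map` and `theta_path` with `τ_j = a_{v j} ⊗ X_{(v j, j, j+1)}`,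
`η = 1 ⊗ X_{(k, n, 0)}`: it is `(-1)^n (a_{v 0} ⋯ a_{v (n-1)} w FL L x z) ⊗ (X_{(k,n,0)} ∏ X_{(v j,j,j+1)})`
(`FL (L ⊗ 1) (x ⊗ 1) (z ⊗ 1) = (FL L x z) ⊗ 1`), and the coefficient of `X^{cyc v}` of the monomial is `1`.
`tot (cyc v) = n + 1`.
-/

open Finset Equiv TensorProduct

namespace TF

/-- the cells of the cyclic word -/
def cell {k n : ℕ} (v : Fin n → Fin k) (j : Fin n) : Idx (k + 1) (n + 1) :=
  ((v j).castSucc, j.castSucc, j.succ)

/-- the last cell -/
def lcell (k n : ℕ) : Idx (k + 1) (n + 1) := (Fin.last k, Fin.last n, (0 : Fin (n + 1)))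

theorem cyc_eq {k n : ℕ} (v : Fin n → Fin k) (q : Idx (k + 1) (n + 1)) :
    cyc v q = (∑ j : Fin n, if cell v j = q then 1 else 0) + if lcell k n = q then 1 else 0 := by
  unfold cyc cell lcell
  congr 1
  · refine Finset.sum_congr rfl fun j _ => ?_
    simp only [Prod.ext_iff]
  · simp only [Prod.ext_iff]

theorem tot_cyc {k n : ℕ} (v : Fin n → Fin k) : tot (cyc v) = n + 1 := by
  unfold tot
  simp only [cyc_eq]
  rw [Finset.sum_add_distrib, Finset.sum_comm]
  simp

theorem cyc_mono {k n : ℕ} (v : Fin n → Fin k) :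
    (MvPolynomial.X (lcell k n) * ∏ j, MvPolynomial.X (cell v j) :
      MvPolynomial (Idx (k + 1) (n + 1)) ℤ) = MvPolynomial.monomial (toF (cyc v)) 1 := by
  have h : toF (cyc v) = Finsupp.single (lcell k n) 1 + ∑ j, Finsupp.single (cell v j) 1 := by
    ext q
    change cyc v q = _
    rw [cyc_eq]
    simp only [Finsupp.add_apply, Finsupp.finsetSum_apply, Finsupp.single_apply]
    rw [add_comm]
  rw [h, show (1 : ℤ) = 1 * 1 by rfl, ← MvPolynomial.monomial_mul, MvPolynomial.monomial_sum_one]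
  rfl

/-- the substitution -/
noncomputable def phi {k n : ℕ} (v : Fin n → Fin k) (q : Idx (k + 1) (n + 1)) :
    MvPolynomial (Idx (k + 1) (n + 1)) ℤ :=
  if cyc v q = 0 then 0 else MvPolynomial.X q

theorem phi_hom {k n : ℕ} (v : Fin n → Fin k) (q : Idx (k + 1) (n + 1)) :
    (phi v q).IsHomogeneous 1 := by
  unfold phi
  split_ifs
  · exact MvPolynomial.isHomogeneous_zero _ _ _
  · exact MvPolynomial.isHomogeneous_X _ _

theorem coeff_phi {k n : ℕ} (v : Fin n → Fin k) (d : Arr (k + 1) (n + 1)) :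
    MvPolynomial.coeff (toF (cyc v)) (∏ q, phi v q ^ d q) = if d = cyc v then 1 else 0 := by
  by_cases h : ∃ q, cyc v q = 0 ∧ d q ≠ 0
  · obtain ⟨q, h1, h2⟩ := h
    have h3 : ∏ q, phi v q ^ d q = 0 := by
      apply Finset.prod_eq_zero (mem_univ q)
      unfold phi
      rw [if_pos h1, zero_pow h2]
    rw [h3, MvPolynomial.coeff_zero, if_neg]
    rintro rfl
    exact h2 h1
  · push Not at h
    have h3 : ∏ q, phi v q ^ d q = MvPolynomial.monomial (toF d) 1 := by
      have : toF d = ∑ q, Finsupp.single q (d q) := by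
        ext q
        change d q = _
        simp [Finsupp.finsetSum_apply, Finsupp.single_apply]
      rw [this, MvPolynomial.monomial_sum_one]
      refine Finset.prod_congr rfl fun q _ => ?_
      rw [← MvPolynomial.X_pow_eq_monomial]
      unfold phi
      split_ifs with h0
      · rw [h q h0, pow_zero, pow_zero]
      · rfl
    rw [h3, MvPolynomial.coeff_monomial]
    by_cases he : d = cyc v
    · rw [if_pos he, if_pos (by rw [he])]
    · rw [if_neg he, if_neg]
      intro h'
      apply he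
      exact Finsupp.equivFunOnFinite.symm.injective h'

theorem tcR_phi {R : Type*} [Ring R] {k n : ℕ} (v : Fin n → Fin k)
    (z : R ⊗[ℤ] TP (Idx (k + 1) (n + 1)) (n + 1)) :
    tcR (cyc v) (mapR R (tsub (phi v) (phi_hom v)) z) = tcR (cyc v) z := by
  classical
  have ht := tot_cyc v
  unfold tot at ht
  rw [tcR_tsub _ _ _ ht.le]
  simp only [coeff_phi]
  rw [Finset.sum_eq_single (cyc v)]
  · rw [if_pos rfl, one_smul]
  · intro d _ hd
    rw [if_neg hd, zero_smul]
  · intro h
    exfalso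
    apply h
    rw [Finset.mem_piAntidiag]
    exact ⟨rfl, fun _ _ => mem_univ _⟩

theorem tsub_phi {k n : ℕ} (v : Fin n → Fin k) (q : Idx (k + 1) (n + 1)) :
    tsub (D := n + 1) (phi v) (phi_hom v) (tX q) = if cyc v q = 0 then 0 else tX q := by
  rw [tsub_tX]
  unfold phi
  split_ifs
  · rw [map_zero]
  · rfl

theorem gev_Lext {R : Type*} [Ring R] {m : ℕ} (C : Type*) [CommRing C]
    (L : List (R ⊕ (Fin m ⊕ Fin m))) (y : Fin m ⊕ Fin m → R) :
    gev (fun i => y i ⊗ₜ[ℤ] (1 : C)) (Lext C L) = (gev y L) ⊗ₜ[ℤ] (1 : C) := by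
  unfold gev Lext
  induction L with
  | nil => simp [Algebra.TensorProduct.one_def]
  | cons b L ih =>
    rw [List.map_cons, List.map_cons, List.prod_cons, ih, List.map_cons, List.prod_cons]
    have : ∀ p q : R, (p * q) ⊗ₜ[ℤ] (1 : C) = p ⊗ₜ[ℤ] (1 : C) * q ⊗ₜ[ℤ] (1 : C) := by
      intro p q
      rw [Algebra.TensorProduct.tmul_mul_tmul, one_mul]
    rw [this]
    cases b <;> rfl

theorem FL_Lext {R : Type*} [Ring R] {m : ℕ} (C : Type*) [CommRing C]
    (L : List (R ⊕ (Fin m ⊕ Fin m))) (x z : Fin m → R) :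
    FL (Lext C L) (fun i => x i ⊗ₜ[ℤ] (1 : C)) (fun i => z i ⊗ₜ[ℤ] (1 : C)) =
      (FL L x z) ⊗ₜ[ℤ] (1 : C) := by
  unfold FL
  rw [TensorProduct.sum_tmul]
  refine Finset.sum_congr rfl fun σ _ => ?_
  rw [TensorProduct.sum_tmul]
  refine Finset.sum_congr rfl fun τ _ => ?_
  rw [← TensorProduct.smul_tmul', ← gev_Lext]
  congr 2
  funext i
  cases i <;> rfl

theorem prod_tmul {R C : Type*} [Ring R] [CommRing C] {n : ℕ} (a : Fin n → R) (c : Fin n → C) :
    (List.ofFn fun j => a j ⊗ₜ[ℤ] c j).prod = (List.ofFn a).prod ⊗ₜ[ℤ] (∏ j, c j) := by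
  induction n with
  | zero => simp [Algebra.TensorProduct.one_def]
  | succ n ih =>
    rw [List.ofFn_succ, List.prod_cons, ih, Algebra.TensorProduct.tmul_mul_tmul, List.ofFn_succ,
      List.prod_cons, Fin.prod_univ_succ]

theorem thC_cyc {R : Type*} [Ring R] {m n k : ℕ} (a : Fin k → R) (w : R)
    (L : List (R ⊕ (Fin m ⊕ Fin m))) (x z : Fin m → R) (v : Fin n → Fin k) :
    thC n a L x z w (cyc v) =
      ((-1 : ℤ) ^ n) • ((List.ofFn fun j => a (v j)).prod * (w * FL L x z)) := by
  classical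
  unfold thC
  rw [if_pos (tot_cyc v), ← tcR_phi v, TH_map]
  have h1 : (Matrix.of fun p q : Fin (n + 1) => ∑ i : Fin k, a i ⊗ₜ[ℤ]
      (tsub (D := n + 1) (phi v) (phi_hom v)) (tX (i.castSucc, p, q))) =
      Matrix.of fun p q : Fin (n + 1) =>
        ∑ j : Fin n, if j.castSucc = p ∧ j.succ = q then
          a (v j) ⊗ₜ[ℤ] (tX (cell v j) : TP (Idx (k + 1) (n + 1)) (n + 1)) else 0 := by
    ext p q
    simp only [Matrix.of_apply, tsub_phi]
    have h2 : ∀ i : Fin k, ∀ j : Fin n, (cell v j = ((i.castSucc, p, q) : Idx (k + 1) (n + 1))) ↔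
        (v j = i ∧ j.castSucc = p ∧ j.succ = q) := by
      intro i j
      unfold cell
      simp only [Prod.ext_iff, Fin.castSucc_inj]
    have h3 : ∀ i : Fin k, cyc v (i.castSucc, p, q) =
        ∑ j : Fin n, if (v j = i ∧ j.castSucc = p ∧ j.succ = q) then 1 else 0 := by
      intro i
      rw [cyc_eq]
      simp only [h2]
      rw [if_neg, add_zero]
      unfold lcell
      intro h
      have := congrArg Prod.fst h
      exact (Fin.castSucc_lt_last i).ne' this
    by_cases hpq : ∃ j : Fin n, j.castSucc = p ∧ j.succ = q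
    · obtain ⟨j, hj1, hj2⟩ := hpq
      have huniq : ∀ j' : Fin n, (j'.castSucc = p ∧ j'.succ = q) ↔ j' = j := by
        intro j'
        constructor
        · rintro ⟨h, _⟩
          rw [← hj1] at h
          exact Fin.castSucc_injective _ h
        · rintro rfl
          exact ⟨hj1, hj2⟩
      simp only [h3, huniq]
      rw [Finset.sum_eq_single (v j)]
      · rw [Finset.sum_ite_eq' (univ : Finset (Fin n)) j, if_pos (mem_univ _), if_neg]
        · congr 2
          unfold cell
          rw [hj1, hj2]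
        · rw [Finset.sum_eq_single j]
          · simp
          · intro j' _ hj'
            simp [hj']
          · simp
      · intro i _ hi
        rw [if_pos, TensorProduct.tmul_zero]
        apply Finset.sum_eq_zero
        intro j' _
        rw [if_neg]
        rintro ⟨h, rfl⟩
        exact hi h.symm
      · simp
    · have hno : ∀ j : Fin n, ¬ (j.castSucc = p ∧ j.succ = q) := fun j hj => hpq ⟨j, hj⟩
      simp only [h3, hno, and_false, if_false, Finset.sum_const_zero, if_true,
        TensorProduct.tmul_zero]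
  have h2 : (Matrix.of fun p q : Fin (n + 1) => (1 : R) ⊗ₜ[ℤ]
      (tsub (D := n + 1) (phi v) (phi_hom v)) (tX (Fin.last k, p, q))) =
      Matrix.single (Fin.last n) (0 : Fin (n + 1))
        ((1 : R) ⊗ₜ[ℤ] (tX (lcell k n) : TP (Idx (k + 1) (n + 1)) (n + 1))) := by
    ext p q
    simp only [Matrix.of_apply, tsub_phi]
    have h3 : cyc v (Fin.last k, p, q) = if Fin.last n = p ∧ (0 : Fin (n + 1)) = q then 1 else 0 := by
      rw [cyc_eq, Finset.sum_eq_zero, zero_add]
      · unfold lcell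
        simp only [Prod.ext_iff, true_and]
      · intro j _
        rw [if_neg]
        intro h
        have := congrArg Prod.fst h
        exact (Fin.castSucc_lt_last (v j)).ne this
    rw [h3, Matrix.single_apply]
    by_cases hpq : Fin.last n = p ∧ (0 : Fin (n + 1)) = q
    · rw [if_pos hpq, if_pos hpq, if_neg one_ne_zero]
      obtain ⟨rfl, rfl⟩ := hpq
      rfl
    · rw [if_neg hpq, if_neg hpq, if_pos rfl, TensorProduct.tmul_zero]
  rw [h1, h2, theta_path, FL_Lext, prod_tmul, Algebra.TensorProduct.tmul_mul_tmul,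
    Algebra.TensorProduct.tmul_mul_tmul, mul_one, mul_one, mul_smul_comm,
    Algebra.TensorProduct.tmul_mul_tmul, one_mul, map_zsmul, tcR_tmul]
  have h4 : (tX (lcell k n) * ∏ j, tX (cell v j) : TP (Idx (k + 1) (n + 1)) (n + 1)) =
      Ideal.Quotient.mk _ (MvPolynomial.monomial (toF (cyc v)) 1) := by
    rw [← cyc_mono, map_mul, map_prod]
    rfl
  have ht := tot_cyc v
  unfold tot at ht
  rw [h4, tcoeff_mk _ ht.le, MvPolynomial.coeff_monomial, if_pos rfl, one_smul]

end TF
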