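import Pool.Agent.H66.TF.ThNat

/-!
# TF-THROW: row degree of `thC`

`theta_rowdeg` for the ring `R ⊗ C`, `PT P C`, `J = nilI`, `Fl = Fil R D wt`, `wt (i,x,y) = [x = 0]`, gives
`TH ∈ Fil R D wt m`, and `tcR_Fil` (`∑ wt v * c v = outd c 0`).
-/

open Finset Equiv TensorProduct

namespace TF

/-- the weight: arrows starting at `0` -/
def thWt {K n : ℕ} (v : Idx K (n + 1)) : ℕ := if v.2.1 = 0 then 1 else 0

theorem sum_thWt {K n : ℕ} (c : Arr K (n + 1)) : ∑ v, thWt v * c v = outd c 0 := by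
  unfold outd
  rw [Fintype.sum_prod_type, Fintype.sum_prod_type]
  refine Finset.sum_congr rfl fun i _ => ?_
  rw [Fintype.sum_prod_type, Finset.sum_eq_single (0 : Fin (n + 1))]
  · refine Finset.sum_congr rfl fun b _ => ?_
    simp [thWt, lft]
  · intro a _ ha
    refine Finset.sum_eq_zero fun b _ => ?_
    simp [thWt, ha]
  · simp

theorem tmul_one_mem_Fil {R : Type*} [Ring R] {τ : Type} [Fintype τ] (D : ℕ) (wt : τ → ℕ)
    (r : R) : r ⊗ₜ[ℤ] (1 : TP τ D) ∈ Fil R D wt 0 := by
  apply AddSubgroup.subset_closure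
  refine ⟨r, fun _ => 0, ?_, ?_⟩
  · simp
  · simp

theorem tmul_tX_mem_Fil {R : Type*} [Ring R] {τ : Type} [Fintype τ] [DecidableEq τ] (D : ℕ)
    (wt : τ → ℕ) (r : R) (v : τ) (j : ℕ) (h : wt v ≤ j) :
    r ⊗ₜ[ℤ] (tX v : TP τ D) ∈ Fil R D wt j := by
  apply AddSubgroup.subset_closure
  refine ⟨r, Pi.single v 1, ?_, ?_⟩
  · rw [Finset.sum_eq_single v]
    · simpa using h
    · intro b _ hb
      simp [Pi.single_eq_of_ne hb]
    · simp
  · congr 1
    rw [Finset.prod_eq_single v]
    · simp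
    · intro b _ hb
      simp [Pi.single_eq_of_ne hb]
    · simp

theorem thC_row {R : Type*} [Ring R] {P : AddSubgroup R} {m : ℕ} (hm : 1 ≤ m)
    (hP : TwoSided P) (hcap : CapR P (m + 1)) {n k : ℕ} (a : Fin k → R) (w : R) (hw : w ∈ P)
    (L : List (R ⊕ (Fin m ⊕ Fin m))) (hL : Once L) (x z : Fin m → R) (hx : ∀ i, x i ∈ P)
    (hz : ∀ i, z i ∈ P) (c : Arr (k + 1) (n + 1)) (hc : m < outd c 0) :
    thC n a L x z w c = 0 := by
  unfold thC
  split_ifs with htot
  · apply tcR_Fil R (n + 1) thWt m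
    · unfold TH
      refine theta_rowdeg hm (twoSided_tensor P _ hP) (capR_tensor P _ (m + 1) hcap)
        (nilI R (Idx (k + 1) (n + 1)) (n + 1)) (nilI_nilpotent R _ _) (Fil R (n + 1) thWt)
        (tmul_one_mem_Fil _ _ (1 : R)) (fun i j h => Fil_mono R _ _ h)
        (fun i j x y hx hy => Fil_mul R _ _ x y hx hy) _ (once_Lext _ L hL) ?_ _ _ ?_ ?_ ?_ ?_ _
        ?_ (tmul_one_mem_Fil _ _ w) (Tm n a) (Ym R k n) (Tm_mem a) ?_ ?_ (fun i j r => Ym_comm i j r)
        ?_ ?_
      · intro r hr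
        unfold Lext at hr
        rw [List.mem_map] at hr
        obtain ⟨s, _, hs⟩ := hr
        rcases s with s | s
        · simp only [Sum.map_inl, Sum.inl.injEq] at hs
          rw [← hs]
          exact tmul_one_mem_Fil _ _ s
        · simp at hs
      · intro i
        exact AddSubgroup.subset_closure ⟨x i, hx i, 1, rfl⟩
      · intro i
        exact AddSubgroup.subset_closure ⟨z i, hz i, 1, rfl⟩
      · intro i
        exact tmul_one_mem_Fil _ _ (x i)
      · intro i
        exact tmul_one_mem_Fil _ _ (z i)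
      · exact AddSubgroup.subset_closure ⟨w, hw, 1, rfl⟩
      · intro j
        simp only [Tm, Matrix.of_apply]
        exact AddSubgroup.sum_mem _ fun i _ => tmul_tX_mem_Fil _ _ _ _ _ (by simp [thWt])
      · intro i j hi
        simp only [Tm, Matrix.of_apply]
        exact AddSubgroup.sum_mem _ fun i _ => tmul_tX_mem_Fil _ _ _ _ _ (by simp [thWt, hi])
      · intro j
        simp only [Ym, Matrix.of_apply]
        exact tmul_tX_mem_Fil _ _ _ _ _ (by simp [thWt])
      · intro i j hi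
        simp only [Ym, Matrix.of_apply]
        exact tmul_tX_mem_Fil _ _ _ _ _ (by simp [thWt, hi])
    · rw [sum_thWt]
      exact hc
  · rfl

end TF
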