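import Pool.Agent.H66.TF.ThConj
import Pool.Agent.H66.TF.ThBal
import Pool.Agent.H66.TF.ThRow
import Pool.Agent.H66.TF.ThPath
import Pool.Agent.H66.TF.PartIV

/-!
# Key theorem for homogeneous identities: `g(a) w FL L x z = 0`
-/

open Finset Equiv

namespace TF

theorem key_hom {R : Type*} [Ring R] {P : AddSubgroup R} {m : ℕ} (hm : 1 ≤ m)
    (hP : TwoSided P) (hcap : CapR P (m + 1)) {n k : ℕ} (G : (Fin n → Fin k) → ℤ)
    (hG : IsIdent m G) (a : Fin k → R) (w : R) (hw : w ∈ P)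
    (L : List (R ⊕ (Fin m ⊕ Fin m))) (hL : Once L) (x z : Fin m → R) (hx : ∀ i, x i ∈ P)
    (hz : ∀ i, z i ∈ P) :
    ∑ v, G v • ((List.ofFn fun j => a (v j)).prod * (w * FL L x z)) = 0 := by
  have h := partIV (m := m) (thC n a L x z w) (thC_conj hP hcap a w L hL x z hx hz)
    (thC_bal a w L x z) (fun c hc => thC_row hm hP hcap a w hw L hL x z hx hz c hc) G hG
  have h2 : ((-1 : ℤ) ^ n) • ∑ v, G v • ((List.ofFn fun j => a (v j)).prod * (w * FL L x z)) = 0 := by
    rw [← h, Finset.smul_sum]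
    refine Finset.sum_congr rfl fun v _ => ?_
    rw [thC_cyc, smul_comm]
  have h3 := congrArg (fun y => ((-1 : ℤ) ^ n) • y) h2
  simp only [smul_smul, smul_zero] at h3
  rwa [← mul_pow, neg_one_mul, neg_neg, one_pow, one_smul] at h3

end TF
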