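import Pool.Agent.H66.TF.Defs

/-!
# TF-TIDEALS: basic properties of T-ideals, `TZ m`, `Fplus`, `IM m`

* `ct_ev`: substitution of polynomials without constant term preserves the constant term
  (`ct ∘ ev u = ct`, both are ring homomorphisms `FA → ℤ` sending all letters to `0`).
* products of T-ideals are T-ideals (`ev u` is multiplicative).
* `hasUnit_mul`: if `f ∈ I` has coefficient `±1` at the word `u`, `g ∈ J` coefficient `±1` at `v`, rename the
  letters of `f` by `i ↦ 2 i` and those of `g` by `i ↦ 2 i + 1`: the coefficient of the product at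
  `u' v'` is the product of the coefficients (the factorisation of `u' v'` into a word in even letters
  and a word in odd letters is unique).
* `Fplus`: `xx 0` has coefficient `1`; pure; T-ideal.
* `TZ m`, `m ≥ 1`: closed under left/right multiplication and all substitutions
  (`ev a ∘ ev u = ev (fun i => ev a (u i))`); constant term zero: evaluate at the zero matrices
  (`ev 0 f = ct f • 1`, `m ≥ 1`). Pure: matrices over `ℤ` are torsion-free. Coefficient `±1`: with
  `M = m² + 1` the Capelli polynomial `cap M w x` with letters `w_0 = w_M`.. e.g. all `w_j`, `x_i` different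
  letters (`w_j = xx j`, `x_i = xx (M + 1 + i)`), is in `TZ m`: it is alternating multilinear in `M > m²`
  elements of a free module of rank `m²` (`AlternatingMap` vanishes: `AlternatingMap.map_linearDependent`
  over `ℚ`, or expand in matrix units: two of the `M` basis elements coincide), and its coefficient at
  `w_0 x_0 w_1 ⋯` is `1`.
* `IM m`: generated (as an additive group) by the `cap m w x`, closed under multiplications and
  substitutions; `ct (cap m w x) = 0` for `m ≥ 1`. `IM (m+1) ≤ IM m`: expand the alternating sum over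
  `m + 1` letters according to the last letter `x_{σ(m)}` (or the position `m`), the rest is `±` a Capelli
  sum in the other `m` letters with last filler `w_m x_j w_{m+1}`. `Fplus ≤ IM 1`: `cap 1 w x = w_0 x_0 w_1`.
-/

open Finset Equiv

namespace TF

/-! ### auxiliary lemmas -/

private theorem tid_ext {S : Type*} [Ring S] {f g : FA →+* S} (h : ∀ i, f (xx i) = g (xx i)) :
    f = g := by
  apply MonoidAlgebra.ringHom_ext'
  · exact Subsingleton.elim _ _
  · apply FreeMonoid.hom_eq
    intro i
    exact h i

private theorem tid_ev_single {R : Type*} [Ring R] (a : ℕ → R) (w : FreeMonoid ℕ) (r : ℤ) :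
    ev a (MonoidAlgebra.single w r) = r • FreeMonoid.lift a w :=
  MonoidAlgebra.lift_single _ _ _

private theorem tid_ev_xx {R : Type*} [Ring R] (a : ℕ → R) (i : ℕ) : ev a (xx i) = a i := by
  rw [xx, tid_ev_single, FreeMonoid.lift_eval_of, one_smul]

private theorem tid_comp {R S : Type*} [Ring R] [Ring S] (φ : R →+* S) (a : ℕ → R) (f : FA) :
    φ (ev a f) = ev (fun i => φ (a i)) f := by
  have h : φ.comp (ev a) = ev (fun i => φ (a i)) := by
    apply tid_ext
    intro i
    rw [RingHom.comp_apply, tid_ev_xx, tid_ev_xx]
  exact DFunLike.congr_fun h f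

private theorem tid_ct (f : FA) : ct f = ev (fun _ => (0 : ℤ)) f := by
  induction f using MonoidAlgebra.induction_linear with
  | zero => rw [map_zero]; rfl
  | add f g hf hg =>
    rw [map_add, ← hf, ← hg]
    rfl
  | single w r =>
    rw [tid_ev_single]
    show (MonoidAlgebra.single w r).coeff 1 = _
    classical
    rw [MonoidAlgebra.coeff_single_apply]
    by_cases h : w = 1
    · rw [if_pos h, h, map_one, smul_eq_mul, mul_one]
    · rw [if_neg h]
      have h0 : FreeMonoid.lift (fun _ : ℕ => (0 : ℤ)) w = 0 := by
        induction w using FreeMonoid.casesOn with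
        | one => exact absurd rfl h
        | of_mul x xs => rw [map_mul, FreeMonoid.lift_eval_of, zero_mul]
      rw [h0, smul_zero]

private theorem tid_ct_mul (f g : FA) : ct (f * g) = ct f * ct g := by
  rw [tid_ct, tid_ct, tid_ct, map_mul]

private theorem tid_ct_add (f g : FA) : ct (f + g) = ct f + ct g := by
  rw [tid_ct, tid_ct, tid_ct, map_add]

private theorem tid_ct_xx (i : ℕ) : ct (xx i) = 0 := by
  rw [tid_ct, tid_ev_xx]

private theorem tid_ct_zero : ct 0 = 0 := by
  rw [tid_ct, map_zero]

private theorem tid_ct_smul (n : ℤ) (f : FA) : ct (n • f) = n * ct f := by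
  rw [tid_ct, tid_ct, map_zsmul, smul_eq_mul]

theorem ct_ev (u : ℕ → FA) (hu : ∀ i, ct (u i) = 0) (f : FA) : ct (ev u f) = ct f := by
  rw [tid_ct, tid_comp, tid_ct]
  congr 2
  funext i
  rw [← tid_ct, hu]

theorem isTI_mul (I J : Submodule ℤ FA) (hI : IsTI I) (hJ : IsTI J) : IsTI (I * J) where
  aug := by
    intro f hf
    induction hf using Submodule.mul_induction_on' with
    | mem_mul_mem m hm n hn => rw [tid_ct_mul, hI.aug m hm, zero_mul]
    | add x _ y _ hx hy => rw [tid_ct_add, hx, hy, add_zero]
  left := by
    intro g f hf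
    induction hf using Submodule.mul_induction_on' with
    | mem_mul_mem m hm n hn =>
      rw [← mul_assoc]
      exact Submodule.mul_mem_mul (hI.left g m hm) hn
    | add x _ y _ hx hy => rw [mul_add]; exact Submodule.add_mem _ hx hy
  right := by
    intro g f hf
    induction hf using Submodule.mul_induction_on' with
    | mem_mul_mem m hm n hn =>
      rw [mul_assoc]
      exact Submodule.mul_mem_mul hm (hJ.right g n hn)
    | add x _ y _ hx hy => rw [add_mul]; exact Submodule.add_mem _ hx hy
  subst := by
    intro u hu f hf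
    induction hf using Submodule.mul_induction_on' with
    | mem_mul_mem m hm n hn =>
      rw [map_mul]
      exact Submodule.mul_mem_mul (hI.subst u hu m hm) (hJ.subst u hu n hn)
    | add x _ y _ hx hy => rw [map_add]; exact Submodule.add_mem _ hx hy

private theorem tid_list_even (l : List ℕ) :
    (l.map fun i => 2 * i).filter (fun n => n % 2 = 0) = l.map fun i => 2 * i := by
  rw [List.filter_eq_self]
  intro a ha
  rw [List.mem_map] at ha
  obtain ⟨b, _, rfl⟩ := ha
  simp

private theorem tid_list_odd (l : List ℕ) :
    (l.map fun i => 2 * i + 1).filter (fun n => n % 2 = 0) = [] := by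
  rw [List.filter_eq_nil_iff]
  intro a ha
  rw [List.mem_map] at ha
  obtain ⟨b, _, rfl⟩ := ha
  simp

private theorem tid_inj (w w' u v : FreeMonoid ℕ)
    (h : FreeMonoid.map (fun i => 2 * i) w * FreeMonoid.map (fun i => 2 * i + 1) w' =
      FreeMonoid.map (fun i => 2 * i) u * FreeMonoid.map (fun i => 2 * i + 1) v) :
    w = u ∧ w' = v := by
  have h1 : (FreeMonoid.toList w).map (fun i => 2 * i) ++
      (FreeMonoid.toList w').map (fun i => 2 * i + 1) =
      (FreeMonoid.toList u).map (fun i => 2 * i) ++
      (FreeMonoid.toList v).map (fun i => 2 * i + 1) := by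
    have := congrArg FreeMonoid.toList h
    simpa using this
  have h2 := congrArg (List.filter (fun n => decide (n % 2 = 0))) h1
  rw [List.filter_append, List.filter_append, tid_list_even, tid_list_even, tid_list_odd,
    tid_list_odd, List.append_nil, List.append_nil] at h2
  have e1 : FreeMonoid.toList w = FreeMonoid.toList u :=
    List.map_injective_iff.mpr (fun a b hab => by simpa using hab) h2
  rw [h2] at h1
  have h3 := List.append_cancel_left h1
  have e2 : FreeMonoid.toList w' = FreeMonoid.toList v :=
    List.map_injective_iff.mpr (fun a b hab => by simpa using hab) h3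
  exact ⟨FreeMonoid.toList.injective e1, FreeMonoid.toList.injective e2⟩

private theorem tid_ev_map (g : ℕ → ℕ) (w : FreeMonoid ℕ) (r : ℤ) :
    ev (fun i => xx (g i)) (MonoidAlgebra.single w r) =
      MonoidAlgebra.single (FreeMonoid.map g w) r := by
  rw [tid_ev_single]
  have h : FreeMonoid.lift (fun i => xx (g i)) w =
      MonoidAlgebra.single (FreeMonoid.map g w) (1 : ℤ) := by
    induction w using FreeMonoid.inductionOn' with
    | one => rw [map_one, map_one]; rfl
    | of_mul x xs ih =>
      rw [map_mul, map_mul, ih, FreeMonoid.lift_eval_of, FreeMonoid.map_of, xx,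
        MonoidAlgebra.single_mul_single, mul_one]
  rw [h, MonoidAlgebra.smul_single, smul_eq_mul, mul_one]

private theorem tid_coeff (f g : FA) (u v : FreeMonoid ℕ) :
    (ev (fun i => xx (2 * i)) f * ev (fun i => xx (2 * i + 1)) g).coeff
      (FreeMonoid.map (fun i => 2 * i) u * FreeMonoid.map (fun i => 2 * i + 1) v) =
      f.coeff u * g.coeff v := by
  classical
  induction f using MonoidAlgebra.induction_linear with
  | zero => simp
  | add f f' hf hf' =>
    rw [map_add, add_mul, MonoidAlgebra.coeff_add, Finsupp.add_apply, hf, hf',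
      MonoidAlgebra.coeff_add, Finsupp.add_apply, add_mul]
  | single w r =>
    induction g using MonoidAlgebra.induction_linear with
    | zero => simp
    | add g g' hg hg' =>
      rw [map_add, mul_add, MonoidAlgebra.coeff_add, Finsupp.add_apply, hg, hg',
        MonoidAlgebra.coeff_add, Finsupp.add_apply, mul_add]
    | single w' r' =>
      rw [tid_ev_map (fun i => 2 * i), tid_ev_map (fun i => 2 * i + 1),
        MonoidAlgebra.single_mul_single, MonoidAlgebra.coeff_single_apply,
        MonoidAlgebra.coeff_single_apply, MonoidAlgebra.coeff_single_apply]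
      by_cases h : w = u ∧ w' = v
      · rw [if_pos (by rw [h.1, h.2]), if_pos h.1, if_pos h.2]
      · rw [if_neg (fun h' => h (tid_inj _ _ _ _ h'))]
        by_cases h1 : w = u
        · have h2 : w' ≠ v := fun h2 => h ⟨h1, h2⟩
          rw [if_neg h2, mul_zero]
        · rw [if_neg h1, zero_mul]

theorem hasUnit_mul (I J : Submodule ℤ FA) (hI : IsTI I) (hJ : IsTI J) (h : HasUnit I)
    (h' : HasUnit J) : HasUnit (I * J) := by
  obtain ⟨f, hf, u, hu⟩ := h
  obtain ⟨g, hg, v, hv⟩ := h'
  refine ⟨ev (fun i => xx (2 * i)) f * ev (fun i => xx (2 * i + 1)) g,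
    Submodule.mul_mem_mul (hI.subst _ (fun i => tid_ct_xx _) f hf)
      (hJ.subst _ (fun i => tid_ct_xx _) g hg),
    FreeMonoid.map (fun i => 2 * i) u * FreeMonoid.map (fun i => 2 * i + 1) v, ?_⟩
  rw [tid_coeff]
  rcases hu with hu | hu <;> rcases hv with hv | hv <;> rw [hu, hv] <;> norm_num

theorem isTI_Fplus : IsTI Fplus where
  aug := fun f hf => hf
  left := by
    intro g f hf
    have hf' : ct f = 0 := hf
    show ct (g * f) = 0
    rw [tid_ct_mul, hf', mul_zero]
  right := by
    intro g f hf
    have hf' : ct f = 0 := hf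
    show ct (f * g) = 0
    rw [tid_ct_mul, hf', zero_mul]
  subst := by
    intro u hu f hf
    show ct (ev u f) = 0
    rw [ct_ev u hu]
    exact hf

theorem isPure_Fplus : IsPure Fplus := by
  intro n f hn hf
  have hf' : ct (n • f) = 0 := hf
  rw [tid_ct_smul] at hf'
  show ct f = 0
  exact (mul_eq_zero.mp hf').resolve_left hn

theorem hasUnit_Fplus : HasUnit Fplus := by
  classical
  refine ⟨xx 0, tid_ct_xx 0, FreeMonoid.of 0, Or.inl ?_⟩
  rw [xx, MonoidAlgebra.coeff_single_apply, if_pos rfl]

theorem isTI_TZ (m : ℕ) (hm : 1 ≤ m) : IsTI (TZ m) where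
  aug := by
    intro f hf
    have h1 : ev (fun _ => (0 : Matrix (Fin m) (Fin m) ℤ)) f = 0 := hf _
    have h2 := tid_comp (algebraMap ℤ (Matrix (Fin m) (Fin m) ℤ)) (fun _ => (0 : ℤ)) f
    rw [← tid_ct] at h2
    simp only [map_zero] at h2
    rw [h1] at h2
    have h3 := congrFun (congrFun h2 ⟨0, hm⟩) ⟨0, hm⟩
    simpa [Matrix.algebraMap_matrix_apply] using h3
  left := by
    intro g f hf a
    have h1 : ev a f = 0 := hf a
    rw [map_mul, h1, mul_zero]
  right := by
    intro g f hf a
    have h1 : ev a f = 0 := hf a
    rw [map_mul, h1, zero_mul]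
  subst := by
    intro u _ f hf a
    rw [tid_comp]
    exact hf _

theorem isPure_TZ (m : ℕ) : IsPure (TZ m) := by
  intro n f hn hf a
  have h1 : ev a (n • f) = 0 := hf a
  rw [map_zsmul] at h1
  ext i j
  have h2 := congrFun (congrFun h1 i) j
  simp only [Matrix.smul_apply, smul_eq_mul, Matrix.zero_apply, mul_eq_zero] at h2
  rw [Matrix.zero_apply]
  exact h2.resolve_left hn

private noncomputable def tidM {R : Type*} [Ring R] (m : ℕ) (w : Fin (m + 1) → R) :
    MultilinearMap ℤ (fun _ : Fin m => R) R :=
  (LinearMap.mulLeft ℤ (w 0)).compMultilinearMap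
    ((MultilinearMap.mkPiAlgebraFin ℤ m R).compLinearMap
      (fun i => LinearMap.mulRight ℤ (w i.succ)))

private theorem tid_cap_alt {R : Type*} [Ring R] (m : ℕ) (w : Fin (m + 1) → R) (x : Fin m → R) :
    cap m w x = MultilinearMap.alternatization (tidM m w) x := by
  rw [MultilinearMap.alternatization_apply]
  unfold cap
  refine Finset.sum_congr rfl fun σ _ => ?_
  rw [Units.smul_def]
  rfl

private theorem tid_ev_cap {R : Type*} [Ring R] (a : ℕ → R) (m : ℕ) (w : Fin (m + 1) → FA)
    (x : Fin m → FA) : ev a (cap m w x) = cap m (fun i => ev a (w i)) (fun i => ev a (x i)) := by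
  unfold cap
  rw [map_sum]
  refine Finset.sum_congr rfl fun σ _ => ?_
  rw [map_zsmul, map_mul, map_list_prod, List.map_ofFn]
  congr 4
  funext i
  exact map_mul _ _ _

private theorem tid_cap_matrix (m : ℕ) (w : Fin (m * m + 1 + 1) → Matrix (Fin m) (Fin m) ℤ)
    (x : Fin (m * m + 1) → Matrix (Fin m) (Fin m) ℤ) : cap (m * m + 1) w x = 0 := by
  rw [tid_cap_alt]
  apply AlternatingMap.map_linearDependent
  intro h
  have h1 := h.fintype_card_le_finrank
  rw [Module.finrank_matrix] at h1
  simp at h1

theorem hasUnit_TZ (m : ℕ) : HasUnit (TZ m) := by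
  classical
  refine ⟨cap (m * m + 1) (fun _ => 1) (fun i => xx i), ?_,
    FreeMonoid.ofList (List.ofFn fun i : Fin (m * m + 1) => (i : ℕ)), Or.inl ?_⟩
  · intro a
    rw [tid_ev_cap]
    exact tid_cap_matrix m _ _
  · have hprod : ∀ (n : ℕ) (g : Fin n → ℕ), (List.ofFn fun i : Fin n => xx (g i) * 1).prod =
        MonoidAlgebra.single (FreeMonoid.ofList (List.ofFn g)) (1 : ℤ) := by
      intro n
      induction n with
      | zero => intro g; simp; rfl
      | succ n ih =>
        intro g
        rw [List.ofFn_succ, List.prod_cons, ih (fun i => g i.succ), mul_one, xx,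
          MonoidAlgebra.single_mul_single, mul_one, List.ofFn_succ, FreeMonoid.ofList_cons]
    unfold cap
    rw [MonoidAlgebra.coeff_sum, Finsupp.finsetSum_apply, Finset.sum_eq_single 1]
    · rw [MonoidAlgebra.coeff_smul, Finsupp.smul_apply, one_mul]
      have h1 := hprod (m * m + 1) (fun i => ((1 : Perm (Fin (m * m + 1))) i : ℕ))
      rw [h1, MonoidAlgebra.coeff_single_apply, if_pos (by simp)]
      simp
    · intro σ _ hσ
      rw [MonoidAlgebra.coeff_smul, Finsupp.smul_apply, one_mul]
      have h1 := hprod (m * m + 1) (fun i => (σ i : ℕ))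
      rw [h1, MonoidAlgebra.coeff_single_apply, if_neg, smul_zero]
      intro h2
      apply hσ
      have h3 : (List.ofFn fun i => (σ i : ℕ)) = List.ofFn fun i : Fin (m * m + 1) => (i : ℕ) :=
        FreeMonoid.ofList.injective h2
      have h4 := List.ofFn_injective h3
      ext i
      exact congrFun h4 i
    · intro h
      exact absurd (Finset.mem_univ _) h

private theorem tid_IM_gen (m : ℕ) (w : Fin (m + 1) → FA) (x : Fin m → FA)
    (hx : ∀ i, ct (x i) = 0) : cap m w x ∈ IM m :=
  Submodule.subset_span ⟨w, x, hx, rfl⟩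

theorem isTI_IM (m : ℕ) (hm : 1 ≤ m) : IsTI (IM m) where
  aug := by
    intro f hf
    induction hf using Submodule.span_induction with
    | mem f hf =>
      obtain ⟨w, x, hx, rfl⟩ := hf
      rw [tid_ct, tid_ev_cap]
      have h0 : (fun i => ev (fun _ => (0 : ℤ)) (x i)) = fun _ => 0 := by
        funext i
        rw [← tid_ct, hx]
      rw [h0]
      obtain ⟨k, rfl⟩ : ∃ k, m = k + 1 := ⟨m - 1, by omega⟩
      unfold cap
      refine Finset.sum_eq_zero fun σ _ => ?_
      rw [List.ofFn_succ, List.prod_cons]
      simp
    | zero => exact tid_ct_zero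
    | add x y _ _ hx hy => rw [tid_ct_add, hx, hy, add_zero]
    | smul a x _ hx => rw [tid_ct_smul, hx, mul_zero]
  left := by
    intro g f hf
    induction hf using Submodule.span_induction with
    | mem f hf =>
      obtain ⟨w, x, hx, rfl⟩ := hf
      have h1 : g * cap m w x = cap m (Function.update w 0 (g * w 0)) x := by
        unfold cap
        rw [Finset.mul_sum]
        refine Finset.sum_congr rfl fun σ _ => ?_
        rw [mul_smul_comm, Function.update_self, ← mul_assoc]
        congr 4
      rw [h1]
      exact tid_IM_gen m _ x hx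
    | zero => rw [mul_zero]; exact Submodule.zero_mem _
    | add x y _ _ hx hy => rw [mul_add]; exact Submodule.add_mem _ hx hy
    | smul a x _ hx => rw [mul_smul_comm]; exact Submodule.smul_mem _ _ hx
  right := by
    intro g f hf
    induction hf using Submodule.span_induction with
    | mem f hf =>
      obtain ⟨w, x, hx, rfl⟩ := hf
      obtain ⟨k, rfl⟩ : ∃ k, m = k + 1 := ⟨m - 1, by omega⟩
      have h1 : cap (k + 1) w x * g =
          cap (k + 1) (Function.update w (Fin.last (k + 1)) (w (Fin.last (k + 1)) * g)) x := by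
        unfold cap
        rw [Finset.sum_mul]
        refine Finset.sum_congr rfl fun σ _ => ?_
        rw [smul_mul_assoc, mul_assoc]
        have h2 : (0 : Fin (k + 1 + 1)) ≠ Fin.last (k + 1) := (Fin.last_pos).ne
        rw [Function.update_of_ne h2, List.ofFn_succ', List.ofFn_succ', List.concat_eq_append,
          List.concat_eq_append, List.prod_append, List.prod_append, List.prod_singleton,
          List.prod_singleton]
        have h3 : ∀ i : Fin k, Function.update w (Fin.last (k + 1)) (w (Fin.last (k + 1)) * g)
            (Fin.succ (Fin.castSucc i)) = w (Fin.succ (Fin.castSucc i)) := by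
          intro i
          rw [Function.update_of_ne]
          intro h4
          have h5 := congrArg Fin.val h4
          simp at h5
          omega
        simp only [h3, Fin.succ_last, Function.update_self, mul_assoc]
      rw [h1]
      exact tid_IM_gen (k + 1) _ x hx
    | zero => rw [zero_mul]; exact Submodule.zero_mem _
    | add x y _ _ hx hy => rw [add_mul]; exact Submodule.add_mem _ hx hy
    | smul a x _ hx => rw [smul_mul_assoc]; exact Submodule.smul_mem _ _ hx
  subst := by
    intro u hu f hf
    induction hf using Submodule.span_induction with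
    | mem f hf =>
      obtain ⟨w, x, hx, rfl⟩ := hf
      rw [tid_ev_cap]
      exact tid_IM_gen m _ _ fun i => by rw [ct_ev u hu, hx]
    | zero => rw [map_zero]; exact Submodule.zero_mem _
    | add x y _ _ hx hy => rw [map_add]; exact Submodule.add_mem _ hx hy
    | smul a x _ hx => rw [map_zsmul]; exact Submodule.smul_mem _ _ hx

theorem IM_succ_le (m : ℕ) : IM (m + 1) ≤ IM m := by
  refine Submodule.span_le.mpr ?_
  rintro _ ⟨w, x, hx, rfl⟩
  show cap (m + 1) w x ∈ IM m
  unfold cap
  rw [← Equiv.sum_comp Equiv.Perm.decomposeFin.symm, Fintype.sum_prod_type]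
  refine Submodule.sum_mem _ fun p _ => ?_
  have h1 : ∑ e : Perm (Fin m), ((Perm.sign (Equiv.Perm.decomposeFin.symm (p, e)) : ℤˣ) : ℤ) •
      (w 0 * (List.ofFn fun i : Fin (m + 1) =>
        x (Equiv.Perm.decomposeFin.symm (p, e) i) * w i.succ).prod) =
      (((if p = 0 then 1 else -1 : ℤˣ)) : ℤ) • cap m (Fin.cons (w 0 * x p * w 1)
        fun i : Fin m => w i.succ.succ) (fun k => x (swap 0 p k.succ)) := by
    unfold cap
    rw [Finset.smul_sum]
    refine Finset.sum_congr rfl fun e _ => ?_
    rw [Equiv.Perm.decomposeFin.symm_sign, smul_smul, Units.val_mul]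
    congr 1
    rw [List.ofFn_succ, List.prod_cons, Equiv.Perm.decomposeFin_symm_apply_zero, Fin.cons_zero]
    simp only [Equiv.Perm.decomposeFin_symm_apply_succ, Fin.cons_succ, mul_assoc]
    rfl
  rw [h1]
  exact Submodule.smul_mem _ _ (tid_IM_gen m _ _ fun k => hx _)

theorem Fplus_le_IM_one : Fplus ≤ IM 1 := by
  intro f hf
  have hf' : ct f = 0 := hf
  have h1 : f = cap 1 (fun _ => 1) (fun _ => f) := by
    unfold cap
    simp
  rw [h1]
  exact tid_IM_gen 1 _ _ fun _ => hf'

end TF
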