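import Pool.Agent.H66.TF.Key
import Pool.Agent.H66.TF.TIdeals
import Pool.Agent.H66.TF.Homog

/-!
# `TZ m * F₊ * IM m * IM m ≤ IM (m+1)`
-/

open Finset Equiv

namespace TF

/-- a T-ideal as a two-sided ideal of `FA` -/
noncomputable def IsTI.toIdeal {T : Submodule ℤ FA} (h : IsTI T) : Ideal FA where
  carrier := T
  add_mem' := T.add_mem
  zero_mem' := T.zero_mem
  smul_mem' := fun c _ hx => h.left c _ hx

theorem IsTI.mem_toIdeal {T : Submodule ℤ FA} (h : IsTI T) (f : FA) : f ∈ h.toIdeal ↔ f ∈ T :=
  Iff.rfl

instance IsTI.twoSided {T : Submodule ℤ FA} (h : IsTI T) : h.toIdeal.IsTwoSided :=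
  ⟨fun {a} b ha => h.right b a ha⟩

theorem ev_comp {R S : Type*} [Ring R] [Ring S] (a : ℕ → R) (f : R →+* S) (g : FA) :
    f (ev a g) = ev (fun i => f (a i)) g := by
  have h : (f.comp (ev a)) = ev (fun i => f (a i)) := by
    apply MonoidAlgebra.ringHom_ext
    · intro r
      simp [ev]
    · intro w
      simp only [RingHom.coe_comp, Function.comp_apply, ev, AlgHom.toRingHom_eq_coe,
        RingHom.coe_coe, MonoidAlgebra.lift_single, one_smul]
      induction w using FreeMonoid.inductionOn with
      | one => simp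
      | of x => simp
      | mul x y hx hy => simp [hx, hy]
  exact congrArg (fun φ : FA →+* S => φ g) h

theorem ev_xx (g : FA) : ev xx g = g := by
  have h : ev xx = RingHom.id FA := by
    apply MonoidAlgebra.ringHom_ext
    · intro r
      simp only [ev, AlgHom.toRingHom_eq_coe, RingHom.coe_coe, MonoidAlgebra.lift_single, map_one,
        RingHom.id_apply]
      have := (eq_intCast (MonoidAlgebra.singleOneRingHom (R := ℤ) (M := FreeMonoid ℕ)) r)
      rw [zsmul_one]
      exact this.symm
    · intro w
      simp only [ev, AlgHom.toRingHom_eq_coe,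
        RingHom.coe_coe, MonoidAlgebra.lift_single, one_smul, RingHom.id_apply]
      induction w using FreeMonoid.inductionOn with
      | one => simp [MonoidAlgebra.one_def]
      | of x => simp [xx]
      | mul x y hx hy => simp [hx, hy, MonoidAlgebra.single_mul_single]
  rw [h]; rfl

theorem map_cap {R S : Type*} [Ring R] [Ring S] (f : R →+* S) (m : ℕ) (w : Fin (m + 1) → R)
    (x : Fin m → R) : f (cap m w x) = cap m (fun i => f (w i)) (fun i => f (x i)) := by
  simp only [cap, map_sum, map_zsmul, map_mul, map_list_prod, List.map_ofFn]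
  refine Finset.sum_congr rfl fun σ _ => ?_
  congr 3
  congr 1
  funext i
  exact map_mul f _ _

theorem key_IM (m : ℕ) (hm : 1 ≤ m) : TZ m * Fplus * IM m * IM m ≤ IM (m + 1) := by
  have hT : IsTI (IM (m + 1)) := isTI_IM (m + 1) (by omega)
  set I := hT.toIdeal with hI
  have : I.IsTwoSided := hT.twoSided
  let π : FA →+* FA ⧸ I := Ideal.Quotient.mk I
  have hπ : ∀ f, π f = 0 ↔ f ∈ IM (m + 1) := by
    intro f
    exact Ideal.Quotient.eq_zero_iff_mem
  let P : AddSubgroup (FA ⧸ I) := (Fplus.toAddSubgroup).map π.toAddMonoidHom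
  have hsurj : Function.Surjective π := Ideal.Quotient.mk_surjective
  have hP : TwoSided P := by
    constructor
    · rintro r x ⟨f, hf, rfl⟩
      obtain ⟨g, rfl⟩ := hsurj r
      refine ⟨g * f, isTI_Fplus.left g f hf, ?_⟩
      exact map_mul π g f
    · rintro r x ⟨f, hf, rfl⟩
      obtain ⟨g, rfl⟩ := hsurj r
      refine ⟨f * g, isTI_Fplus.right g f hf, ?_⟩
      exact map_mul π f g
  have hcap : CapR P (m + 1) := by
    apply capR_of_cap
    intro w x hx
    choose w' hw' using fun i => hsurj (w i)
    choose x' hx' hx'' using hx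
    have e : cap (m + 1) w x = π (cap (m + 1) w' x') := by
      rw [map_cap]
      congr 1
      · funext i; exact (hw' i).symm
      · funext i; exact (hx'' i).symm
    rw [e, hπ]
    exact Submodule.subset_span ⟨w', x', hx', rfl⟩
  -- it is enough to treat products
  have main : ∀ g ∈ TZ m, ∀ u ∈ Fplus, ∀ f₁ ∈ IM m, ∀ f₂ ∈ IM m,
      g * u * f₁ * f₂ ∈ IM (m + 1) := by
    intro g hg u hu f₁ hf₁ f₂ hf₂
    obtain ⟨k, B, G, hG, hev⟩ := homog g hg
    have step : ∀ (w v : Fin (m + 1) → FA) (x z : Fin m → FA), (∀ i, ct (x i) = 0) →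
        (∀ i, ct (z i) = 0) → g * u * cap m w x * cap m v z ∈ IM (m + 1) := by
      intro w v x z hx hz
      rw [← hπ]
      obtain ⟨L, hL, hLL⟩ := cap_mul_cap (fun i => π (w i)) (fun i => π (v i))
      have e1 : π (g * u * cap m w x * cap m v z)
          = π g * (π u * FL L (fun i => π (x i)) (fun i => π (z i))) := by
        rw [map_mul, map_mul, map_mul, map_cap, map_cap, mul_assoc, mul_assoc, hLL]
      rw [e1]
      have e2 : π g = ev (fun i => π (xx i)) g := by
        rw [← ev_comp, ev_xx]
      rw [e2, hev, Finset.sum_mul]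
      apply Finset.sum_eq_zero
      intro n _
      rw [Finset.sum_mul]
      have := key_hom hm hP hcap (G n) (hG n) (fun i : Fin k => π (xx i)) (π u)
        ⟨u, hu, rfl⟩ L hL (fun i => π (x i)) (fun i => π (z i))
        (fun i => ⟨x i, hx i, rfl⟩) (fun i => ⟨z i, hz i, rfl⟩)
      rw [← this]
      refine Finset.sum_congr rfl fun v _ => ?_
      rw [smul_mul_assoc]
    -- span induction
    have s1 : ∀ f₂ ∈ IM m, ∀ (w : Fin (m + 1) → FA) (x : Fin m → FA), (∀ i, ct (x i) = 0) →
        g * u * cap m w x * f₂ ∈ IM (m + 1) := by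
      intro f₂ hf₂ w x hx
      induction hf₂ using Submodule.span_induction with
      | mem y hy =>
        obtain ⟨v, z, hz, rfl⟩ := hy
        exact step w v x z hx hz
      | zero => rw [mul_zero]; exact Submodule.zero_mem _
      | add y y' _ _ h h' => rw [mul_add]; exact Submodule.add_mem _ h h'
      | smul c y _ h => rw [mul_smul_comm]; exact Submodule.smul_mem _ c h
    induction hf₁ using Submodule.span_induction with
    | mem y hy =>
      obtain ⟨w, x, hx, rfl⟩ := hy
      exact s1 f₂ hf₂ w x hx
    | zero => rw [mul_zero, zero_mul]; exact Submodule.zero_mem _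
    | add y y' _ _ h h' => rw [mul_add, add_mul]; exact Submodule.add_mem _ h h'
    | smul c y _ h => rw [mul_smul_comm, smul_mul_assoc]; exact Submodule.smul_mem _ c h
  rw [Submodule.mul_le]
  intro a ha b hb
  induction ha using Submodule.mul_induction_on' with
  | mem_mul_mem a ha f₁ hf₁ =>
    induction ha using Submodule.mul_induction_on' with
    | mem_mul_mem g hg u hu => exact main g hg u hu f₁ hf₁ b hb
    | add y _ y' _ h h' => rw [add_mul, add_mul]; exact Submodule.add_mem _ h h'
  | add y _ y' _ h h' => rw [add_mul]; exact Submodule.add_mem _ h h'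

end TF
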