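import Pool.Agent.H66.TF.Functionals

/-!
# Definitions for the count of LR pairs
-/

open Finset Equiv

namespace TF

/-- the finite set of arrays with good rows and prescribed row sums -/
noncomputable def GR {K N : ℕ} (lam : Fin K → Fin N → ℕ) : Finset (Arr K N) := by
  classical
  exact (Finset.piAntidiag univ (∑ i, ∑ ρ, lam i ρ)).filter
    (fun t => GoodRows t ∧ ∀ i ρ, rsum t i ρ = lam i ρ)

/-- the finite set of LR matrices with prescribed row sums -/
noncomputable def LRs {K N : ℕ} (lam : Fin K → Fin N → ℕ) : Finset (Arr K N) := by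
  classical
  exact (GR lam).filter (fun t => GoodCols t)

/-- the alternant `∑_w sgn(w) x^{α ∘ w}` -/
noncomputable def alt {N : ℕ} (α : Fin N → ℕ) : MvPolynomial (Fin N) ℤ :=
  ∑ w : Perm (Fin N), ((Perm.sign w : ℤˣ) : ℤ) • MvPolynomial.monomial (toF (α ∘ w)) (1 : ℤ)

/-- `(N-1, N-2, …, 0)` -/
def rho (N : ℕ) : Fin N → ℕ := fun a => N - 1 - a

/-- generating function by column sums of the arrays with good rows and row sums `lam` -/
noncomputable def schurK {K N : ℕ} (lam : Fin K → Fin N → ℕ) : MvPolynomial (Fin N) ℤ :=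
  ∑ t ∈ GR lam, MvPolynomial.monomial (toF (ind t)) (1 : ℤ)

/-- Schur polynomial -/
noncomputable def schur1 {N : ℕ} (lam : Fin N → ℕ) : MvPolynomial (Fin N) ℤ :=
  schurK (K := 1) (fun _ => lam)

/-- coefficientwise scalar product -/
noncomputable def inn {N : ℕ} (f g : MvPolynomial (Fin N) ℤ) : ℤ :=
  ∑ c ∈ f.support, MvPolynomial.coeff c f * MvPolynomial.coeff c g

/-- partitions of `n` (with at most `N` parts) as antitone functions -/
noncomputable def PAR (N n : ℕ) : Finset (Fin N → ℕ) := by
  classical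
  exact (Finset.piAntidiag univ n).filter (fun lam => Antitone lam)

/-- multiplicity vectors `m` (`m r` = number of parts equal to `r + 1`) of weight `n` -/
noncomputable def MV (N n : ℕ) : Finset (Fin N → ℕ) := by
  classical
  exact (Fintype.piFinset fun _ : Fin N => Finset.range (n + 1)).filter
    (fun m => ∑ r : Fin N, ((r : ℕ) + 1) * m r = n)

/-- `K`-tuples of functions of total `D` -/
noncomputable def LAM (K N D : ℕ) : Finset (Fin K → Fin N → ℕ) := by
  classical
  exact (Fintype.piFinset fun _ : Fin K => Fintype.piFinset fun _ : Fin N =>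
    Finset.range (D + 1)).filter (fun lam => ∑ i, ∑ ρ, lam i ρ = D)

/-- product of power sums -/
noncomputable def psm {N : ℕ} (m : Fin N → ℕ) : MvPolynomial (Fin N) ℤ :=
  ∏ r : Fin N, (MvPolynomial.psum (Fin N) ℤ ((r : ℕ) + 1)) ^ m r

/-- `z_μ` -/
def zz {N : ℕ} (m : Fin N → ℕ) : ℕ := ∏ r : Fin N, ((r : ℕ) + 1) ^ m r * (m r).factorial

/-- pairs of LR matrices with equal row sums and equal column sums, of total `D` -/
def LRPair (K N D : ℕ) : Type :=
  {q : Arr K N × Arr K N // LR q.1 ∧ LR q.2 ∧ (∀ i ρ, rsum q.1 i ρ = rsum q.2 i ρ) ∧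
    (∀ a, ind q.1 a = ind q.2 a) ∧ tot q.1 = D}

end TF
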