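import Pool.Agent.H66.TF.Multi

/-!
# TF-MERGE: renaming of vertices and merging

`D` edges and `D` vertices. `ϑ` satisfies `MRel`, `MBal`.

* `mult_relabel`: for bijections `s, t` and a transposition `(a b)`: let `e₁ = s⁻¹ a`, `e₂ = s⁻¹ b`,
  `f₁ = t⁻¹ a`, `f₂ = t⁻¹ b`; write `s' = s` with `e₁, e₂` exchanged, `t'` likewise, `s_b = s` with both
  `e₁, e₂` sent to `b` (and `s_a`), `t_a, t_b` likewise. By `MRel` for `(a, b)` at `(s_b, t)` (only the
  `E` with one element give balanced graphs on the left — out-degree of `b` is 2, of `a` is 0, in-degrees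
  1; on the right `t⁻¹(a) = {f₁}` and `E = {f₁}`): `ϑ s t + ϑ s' t = ϑ s_b t_b`. For `(b, a)` at
  `(s_a, t)`: `ϑ s t + ϑ s' t = ϑ s_a t_a`. For `(a, b)` at `(s, t_a)`: left `E ⊆ s⁻¹(b) = {e₂}`,
  `E = {e₂}`: `ϑ s_a t_a = ϑ s t + ϑ s t'`. The same three relations with `t'` in place of `t`, and `s'`
  for `s`. Hence with `μ = ϑ s_a t_a = ϑ s_b t_b`: `ϑ s' t' = μ - ϑ s t' = μ - (μ - ϑ s t) = ϑ s t`, and
  `s' = (a b) ∘ s`, `t' = (a b) ∘ t`. Then induct over a product of transpositions
  (`Equiv.Perm.swap_induction_on`).
* `mult_merge`: let `J` be a set of `m + 1` vertices, `s, t` bijections, and suppose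
  `ϑ s t = 0` whenever more than `m` edges start at the vertex `0`. By `mult_relabel` (conjugating `J`)
  we may assume `0 ∈ J`. For `J' ⊆ J` with `0 ∈ J'` put `s_{J'}` = `s` with all the edges starting in
  `J'` sent to `0`, `t_{J'}` likewise. Claim: `∑_{τ fixing the complement of J'} ϑ s (τ ∘ t) =
  ϑ s_{J'} t_{J'}` for every bijection `t`. For `J' = {0}` trivial. Step `J'' = J' ∪ {b}`: `MRel` for
  `(0, b)` at `(s_{J'}, t_{J''})`: out-degree of `b` is 1 and in-degree 0, out-degree of `0` is `|J'|`,
  in-degree `|J'| + 1`: the only balanced terms are `E = {s⁻¹ b}` on the left, giving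
  `ϑ s_{J''} t_{J''}`, and `E = {f}`, `f ∈ t⁻¹(J'')`, on the right, giving
  `∑_f ϑ s_{J'} (t_{J''}[f → b])`; for each `f` let `τ₀ = swap (t f) b`; then
  `t_{J''}[f → b] = (τ₀ ∘ t)_{J'}`, by the induction hypothesis the term is
  `∑_{τ fixing compl. of J'} ϑ s (τ ∘ τ₀ ∘ t)`, and the `τ τ₀` run over all the permutations fixing the
  complement of `J''`. For `J' = J` the result has `m + 1` edges starting at `0`.
-/

open Finset Equiv

namespace TF

theorem mrel_powerset {D : ℕ} {A : Type*} [AddCommGroup A] (S : Finset (Fin D))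
    (F : Finset (Fin D) → A) (hF : ∀ E ⊆ S, E.card ≠ 1 → F E = 0) :
    ∑ E ∈ S.powerset, F E = ∑ e ∈ S, F {e} := by
  have h1 : ∑ E ∈ S.powersetCard 1, F E = ∑ E ∈ S.powerset, F E := by
    refine Finset.sum_subset (fun E hE => ?_) (fun E hE hE' => ?_)
    · exact Finset.mem_powerset.2 (Finset.mem_powersetCard.1 hE).1
    · have hs := Finset.mem_powerset.1 hE
      exact hF E hs (fun hc => hE' (Finset.mem_powersetCard.2 ⟨hs, hc⟩))
  rw [← h1, Finset.powersetCard_one, Finset.sum_map]
  rfl

theorem mrel_one {N D : ℕ} {A : Type*} [AddCommGroup A]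
    (ϑ : (Fin D → Fin N) → (Fin D → Fin N) → A) (h1 : MRel ϑ) (h2 : MBal ϑ)
    {a b : Fin N} (hab : a ≠ b) (s t : Fin D → Fin N)
    (hd : (univ.filter (fun e => s e = b)).card = (univ.filter (fun e => t e = b)).card + 1) :
    ∑ e ∈ univ.filter (fun e => s e = b), ϑ (Function.update s e a) t
      = ∑ f ∈ univ.filter (fun e => t e = a), ϑ s (Function.update t f b) := by
  have h := h1 a b hab s t
  rw [mrel_powerset _ _ ?_, mrel_powerset _ _ ?_] at h
  · have e1 : ∀ (u : Fin D → Fin N) (e : Fin D) (c : Fin N),
        (fun x => if x ∈ ({e} : Finset (Fin D)) then c else u x) = Function.update u e c := by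
      intro u e c
      funext x
      simp [Function.update_apply]
    simpa only [e1] using h
  · intro E hE hc
    apply h2
    refine ⟨b, fun hcon => hc ?_⟩
    have h3 : univ.filter (fun e => (if e ∈ E then b else t e) = b)
        = univ.filter (fun e => t e = b) ∪ E := by
      ext e
      simp only [mem_filter, mem_univ, true_and, mem_union]
      by_cases he : e ∈ E <;> simp [he]
    have h4 : Disjoint (univ.filter (fun e => t e = b)) E := by
      rw [Finset.disjoint_left]
      intro e he he'
      have := hE he'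
      simp only [mem_filter, mem_univ, true_and] at he this
      exact hab (this.symm.trans he)
    rw [h3, Finset.card_union_of_disjoint h4] at hcon
    omega
  · intro E hE hc
    apply h2
    refine ⟨b, fun hcon => hc ?_⟩
    have h3 : univ.filter (fun e => (if e ∈ E then a else s e) = b)
        = univ.filter (fun e => s e = b) \ E := by
      ext e
      simp only [mem_filter, mem_univ, true_and, mem_sdiff]
      by_cases he : e ∈ E <;> simp [he, hab]
    have h5 := Finset.card_sdiff_add_card_eq_card hE
    rw [h3] at hcon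
    omega

theorem card_filter_perm_eq {D : ℕ} (s : Perm (Fin D)) (b : Fin D) :
    univ.filter (fun e => s e = b) = {s.symm b} := by
  ext e
  simp only [mem_filter, mem_univ, true_and, mem_singleton]
  exact (Equiv.eq_symm_apply s).symm

theorem mult_stepA {D : ℕ} {A : Type*} [AddCommGroup A]
    (ϑ : (Fin D → Fin D) → (Fin D → Fin D) → A) (h1 : MRel ϑ) (h2 : MBal ϑ)
    (s t : Perm (Fin D)) {a b : Fin D} (hab : a ≠ b) :
    ϑ s t + ϑ (swap a b * s : Perm (Fin D)) t
      = ϑ (Function.update s (s.symm a) b) (Function.update t (t.symm a) b) := by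
  have hne : s.symm a ≠ s.symm b := fun h => hab (s.symm.injective h)
  have hf : univ.filter (fun e => Function.update s (s.symm a) b e = b)
      = {s.symm a, s.symm b} := by
    ext e
    simp only [mem_filter, mem_univ, true_and, mem_insert, mem_singleton, Function.update_apply]
    by_cases he : e = s.symm a
    · simp [he]
    · simp only [he, if_false, false_or]
      exact (Equiv.eq_symm_apply s).symm
  have h := mrel_one ϑ h1 h2 hab (Function.update s (s.symm a) b) t (by
    rw [hf, card_filter_perm_eq, Finset.card_pair hne, Finset.card_singleton])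
  rw [hf, Finset.sum_pair hne, card_filter_perm_eq, Finset.sum_singleton] at h
  rw [← h]
  congr 2
  · funext e
    simp only [Function.update_apply]
    by_cases he : e = s.symm a
    · simp [he]
    · simp [he]
  · funext e
    simp only [Function.update_apply, Perm.coe_mul, Function.comp_apply]
    by_cases he : e = s.symm b
    · simp [he]
    · by_cases he' : e = s.symm a
      · simp [he', hne]
      · simp only [he, he', if_false]
        rw [Equiv.swap_apply_of_ne_of_ne]
        · exact fun h => he' ((Equiv.eq_symm_apply s).2 h)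
        · exact fun h => he ((Equiv.eq_symm_apply s).2 h)

theorem mult_stepB {D : ℕ} {A : Type*} [AddCommGroup A]
    (ϑ : (Fin D → Fin D) → (Fin D → Fin D) → A) (h1 : MRel ϑ) (h2 : MBal ϑ)
    (s t : Perm (Fin D)) {a b : Fin D} (hab : a ≠ b) :
    ϑ (Function.update s (s.symm b) a) (Function.update t (t.symm b) a)
      = ϑ s t + ϑ s (swap a b * t : Perm (Fin D)) := by
  have hne : t.symm b ≠ t.symm a := fun h => hab (t.symm.injective h).symm
  have hf : univ.filter (fun e => Function.update t (t.symm b) a e = a)
      = {t.symm b, t.symm a} := by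
    ext e
    simp only [mem_filter, mem_univ, true_and, mem_insert, mem_singleton, Function.update_apply]
    by_cases he : e = t.symm b
    · simp [he]
    · simp only [he, if_false, false_or]
      exact (Equiv.eq_symm_apply t).symm
  have hf0 : univ.filter (fun e => Function.update t (t.symm b) a e = b) = ∅ := by
    ext e
    simp only [mem_filter, mem_univ, true_and, Function.update_apply, notMem_empty, iff_false]
    by_cases he : e = t.symm b
    · simp [he, hab]
    · simp only [he, if_false]
      exact fun h => he ((Equiv.eq_symm_apply t).2 h)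
  have h := mrel_one ϑ h1 h2 hab s (Function.update t (t.symm b) a) (by
    rw [hf0, card_filter_perm_eq, Finset.card_singleton, Finset.card_empty])
  rw [hf, Finset.sum_pair hne, card_filter_perm_eq, Finset.sum_singleton] at h
  rw [h]
  congr 2
  · funext e
    simp only [Function.update_apply]
    by_cases he : e = t.symm b
    · simp [he]
    · simp [he]
  · funext e
    simp only [Function.update_apply, Perm.coe_mul, Function.comp_apply]
    by_cases he : e = t.symm a
    · simp [he]
    · by_cases he' : e = t.symm b
      · simp [he', hne]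
      · simp only [he, he', if_false]
        rw [Equiv.swap_apply_of_ne_of_ne]
        · exact fun h => he ((Equiv.eq_symm_apply t).2 h)
        · exact fun h => he' ((Equiv.eq_symm_apply t).2 h)

theorem mult_swap {D : ℕ} {A : Type*} [AddCommGroup A]
    (ϑ : (Fin D → Fin D) → (Fin D → Fin D) → A) (h1 : MRel ϑ) (h2 : MBal ϑ)
    (s t : Perm (Fin D)) {a b : Fin D} (hab : a ≠ b) :
    ϑ (swap a b * s : Perm (Fin D)) t = ϑ s (swap a b * t : Perm (Fin D)) := by
  have hA := mult_stepA ϑ h1 h2 s t hab.symm
  rw [mult_stepB ϑ h1 h2 s t hab, swap_comm b a] at hA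
  exact add_left_cancel hA

theorem mult_relabel {D : ℕ} {A : Type*} [AddCommGroup A]
    (ϑ : (Fin D → Fin D) → (Fin D → Fin D) → A) (h1 : MRel ϑ) (h2 : MBal ϑ)
    (s t π : Perm (Fin D)) : ϑ (π * s : Perm (Fin D)) (π * t : Perm (Fin D)) = ϑ s t := by
  induction π using Equiv.Perm.swap_induction_on with
  | one => rw [one_mul, one_mul]
  | swap_mul f x y hxy ih =>
    rw [mul_assoc, mul_assoc, mult_swap ϑ h1 h2 _ _ hxy, ← mul_assoc (swap x y) (swap x y),
      Equiv.swap_mul_self, one_mul]
    exact ih

/-- all edges ending in `J` are sent to `0` -/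
def mrg {n D : ℕ} (J : Finset (Fin (n + 1))) (s : Fin D → Fin (n + 1)) : Fin D → Fin (n + 1) :=
  fun e => if s e ∈ J then 0 else s e

theorem sum_fix_insert {n : ℕ} {A : Type*} [AddCommGroup A] (J : Finset (Fin (n + 1)))
    {b : Fin (n + 1)} (hb : b ∉ J) (g : Perm (Fin (n + 1)) → A) :
    ∑ j ∈ insert b J, ∑ τ ∈ univ.filter (fun τ : Perm (Fin (n + 1)) => ∀ x, x ∉ J → τ x = x),
        g (τ * swap j b)
      = ∑ σ ∈ univ.filter (fun σ : Perm (Fin (n + 1)) => ∀ x, x ∉ insert b J → σ x = x), g σ := by
  rw [Finset.sum_sigma']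
  refine Finset.sum_bij' (fun p _ => p.2 * swap p.1 b)
    (fun σ _ => ⟨σ.symm b, σ * swap (σ.symm b) b⟩) ?_ ?_ ?_ ?_ ?_
  · rintro ⟨j, τ⟩ hp
    simp only [mem_sigma, mem_filter, mem_univ, true_and] at hp ⊢
    intro x hx
    rw [mem_insert, not_or] at hx
    rw [Perm.mul_apply, swap_apply_of_ne_of_ne _ hx.1]
    · exact hp.2 x hx.2
    · rintro rfl
      rcases mem_insert.1 hp.1 with h | h
      · exact hx.1 h
      · exact hx.2 h
  · intro σ hσ
    simp only [mem_sigma, mem_filter, mem_univ, true_and] at hσ ⊢
    have hj : σ.symm b ∈ insert b J := by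
      by_contra hcon
      have h := hσ _ hcon
      rw [Equiv.apply_symm_apply] at h
      rw [← h] at hcon
      exact hcon (mem_insert_self _ _)
    refine ⟨hj, fun x hx => ?_⟩
    rw [Perm.mul_apply]
    by_cases hxb : x = b
    · subst hxb
      rw [swap_apply_right, Equiv.apply_symm_apply]
    · rw [swap_apply_of_ne_of_ne _ hxb]
      · exact hσ x (by rw [mem_insert, not_or]; exact ⟨hxb, hx⟩)
      · rintro rfl
        rcases mem_insert.1 hj with h | h
        · exact hxb h
        · exact hx h
  · rintro ⟨j, τ⟩ hp
    simp only [mem_sigma, mem_filter, mem_univ, true_and] at hp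
    have hτb : τ b = b := hp.2 b hb
    have h1 : (τ * swap j b).symm b = j := by
      rw [Equiv.symm_apply_eq, Perm.mul_apply, swap_apply_left, hτb]
    simp only [h1]
    rw [mul_assoc, swap_mul_self, mul_one]
  · intro σ hσ
    simp only
    rw [mul_assoc, swap_mul_self, mul_one]
  · rintro ⟨j, τ⟩ hp
    rfl

theorem mult_claim {n : ℕ} {A : Type*} [AddCommGroup A]
    (ϑ : (Fin (n + 1) → Fin (n + 1)) → (Fin (n + 1) → Fin (n + 1)) → A) (h1 : MRel ϑ)
    (h2 : MBal ϑ) (J : Finset (Fin (n + 1))) (hJ : (0 : Fin (n + 1)) ∉ J) :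
    ∀ s t : Perm (Fin (n + 1)),
      ∑ τ ∈ univ.filter (fun τ : Perm (Fin (n + 1)) => ∀ x, x ∉ insert 0 J → τ x = x),
        ϑ s (τ * t : Perm (Fin (n + 1))) = ϑ (mrg (insert 0 J) s) (mrg (insert 0 J) t) := by
  induction J using Finset.induction_on with
  | empty =>
    intro s t
    have hf : univ.filter (fun τ : Perm (Fin (n + 1)) =>
        ∀ x, x ∉ insert (0 : Fin (n + 1)) (∅ : Finset (Fin (n + 1))) → τ x = x) = {1} := by
      ext τ
      simp only [mem_filter, mem_univ, true_and, mem_singleton, insert_empty_eq]
      constructor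
      · intro h
        ext x
        by_cases hx : x = 0
        · subst hx
          by_contra hcon
          have hne : τ 0 ≠ 0 := fun h0 => hcon (by rw [h0]; rfl)
          have h3 := h _ hne
          exact hne (τ.injective h3)
        · rw [h x hx]; rfl
      · rintro rfl x _
        rfl
    rw [hf, Finset.sum_singleton, one_mul]
    congr 1
    · funext e
      simp only [mrg, insert_empty_eq, mem_singleton]
      split_ifs with h
      · exact h
      · rfl
    · funext e
      simp only [mrg, insert_empty_eq, mem_singleton]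
      split_ifs with h
      · exact h
      · rfl
  | insert b J hb ih =>
    intro s t
    rw [mem_insert, not_or] at hJ
    have hb0 : b ≠ 0 := fun h => hJ.1 h.symm
    have ih' := ih hJ.2
    have hbJ : b ∉ insert 0 J := by
      rw [mem_insert, not_or]; exact ⟨hb0, hb⟩
    rw [Finset.insert_comm 0 b J]
    rw [← sum_fix_insert (insert 0 J) hbJ (fun σ => ϑ s (σ * t : Perm (Fin (n + 1))))]
    have hfs : univ.filter (fun e => mrg (insert 0 J) s e = b) = {s.symm b} := by
      ext e
      simp only [mem_filter, mem_univ, true_and, mem_singleton, mrg]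
      rw [Equiv.eq_symm_apply s]
      split_ifs with h
      · constructor
        · intro h0; exact absurd h0.symm hb0
        · intro h0; rw [h0] at h; exact absurd h hbJ
      · rfl
    have hft : univ.filter (fun e => mrg (insert b (insert 0 J)) t e = b) = ∅ := by
      ext e
      simp only [mem_filter, mem_univ, true_and, mrg, notMem_empty, iff_false]
      split_ifs with h
      · exact fun h0 => hb0 h0.symm
      · rintro rfl; exact h (mem_insert_self _ _)
    have h := mrel_one ϑ h1 h2 (Ne.symm hb0) (mrg (insert 0 J) s)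
      (mrg (insert b (insert 0 J)) t) (by
        rw [hfs, hft, Finset.card_singleton, Finset.card_empty])
    rw [hfs, Finset.sum_singleton] at h
    have hs : Function.update (mrg (insert 0 J) s) (s.symm b) 0
        = mrg (insert b (insert 0 J)) s := by
      funext e
      simp only [Function.update_apply, mrg]
      by_cases he : e = s.symm b
      · simp [he]
      · have : s e ≠ b := fun h0 => he ((Equiv.eq_symm_apply s).2 h0)
        simp [he, this]
    rw [hs] at h
    rw [h]
    -- right-hand side
    have hft0 : univ.filter (fun e => mrg (insert b (insert 0 J)) t e = 0)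
        = univ.filter (fun e => t e ∈ insert b (insert 0 J)) := by
      ext e
      simp only [mem_filter, mem_univ, true_and, mrg]
      split_ifs with h
      · exact ⟨fun _ => h, fun _ => rfl⟩
      · constructor
        · intro h0
          rw [h0] at h
          exact absurd (mem_insert_of_mem (mem_insert_self _ _)) h
        · intro h0
          exact absurd h0 h
    rw [hft0]
    refine Finset.sum_bij' (fun j _ => t.symm j) (fun f _ => t f) ?_ ?_ ?_ ?_ ?_
    · intro j hj
      simpa using hj
    · intro f hf
      simpa using hf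
    · intro j hj
      simp
    · intro f hf
      simp
    · intro j hj
      have := ih' s (swap j b * t)
      simp only [mul_assoc]
      rw [this]
      congr 1
      funext e
      simp only [mrg, Function.update_apply, Perm.mul_apply]
      by_cases he : e = t.symm j
      · subst he
        rw [Equiv.apply_symm_apply, swap_apply_left, if_pos rfl, if_neg hbJ]
      · rw [if_neg he]
        have hne : t e ≠ j := fun h0 => he ((Equiv.eq_symm_apply t).2 h0)
        by_cases heb : t e = b
        · rw [heb, swap_apply_right]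
          have hjb : j ≠ b := fun h0 => hne (heb.trans h0.symm)
          have hj' : j ∈ insert 0 J := (mem_insert.1 hj).resolve_left hjb
          rw [if_pos hj', if_pos (mem_insert_self _ _)]
        · rw [swap_apply_of_ne_of_ne hne heb]
          by_cases h0 : t e ∈ insert 0 J
          · rw [if_pos h0, if_pos (mem_insert_of_mem h0)]
          · rw [if_neg h0, if_neg]
            rw [mem_insert, not_or]
            exact ⟨heb, h0⟩

theorem mult_merge {n m : ℕ} {A : Type*} [AddCommGroup A]
    (ϑ : (Fin (n + 1) → Fin (n + 1)) → (Fin (n + 1) → Fin (n + 1)) → A) (h1 : MRel ϑ)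
    (h2 : MBal ϑ)
    (h3 : ∀ s t : Fin (n + 1) → Fin (n + 1),
      m < (univ.filter (fun e => s e = (0 : Fin (n + 1)))).card → ϑ s t = 0)
    (J : Finset (Fin (n + 1))) (hJ : J.card = m + 1) (s t : Perm (Fin (n + 1))) :
    ∑ τ ∈ univ.filter (fun τ : Perm (Fin (n + 1)) => ∀ x, x ∉ J → τ x = x),
      ϑ s (τ * t : Perm (Fin (n + 1))) = 0 := by
  classical
  -- the case `0 ∈ J`
  have key : ∀ (J : Finset (Fin (n + 1))) (_ : J.card = m + 1) (_ : (0 : Fin (n + 1)) ∈ J)
      (s t : Perm (Fin (n + 1))),
      ∑ τ ∈ univ.filter (fun τ : Perm (Fin (n + 1)) => ∀ x, x ∉ J → τ x = x),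
        ϑ s (τ * t : Perm (Fin (n + 1))) = 0 := by
    intro J hJ h0 s t
    have h := mult_claim ϑ h1 h2 (J.erase 0) (Finset.notMem_erase 0 J) s t
    rw [Finset.insert_erase h0] at h
    rw [h]
    apply h3
    have hf : univ.filter (fun e => mrg J s e = 0) = J.map s.symm.toEmbedding := by
      ext e
      simp only [mem_filter, mem_univ, true_and, mrg, mem_map, Equiv.coe_toEmbedding]
      split_ifs with h
      · simp only [true_iff]
        exact ⟨s e, h, by simp⟩
      · constructor
        · intro h4; rw [h4] at h; exact absurd h0 h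
        · rintro ⟨x, hx, rfl⟩
          rw [Equiv.apply_symm_apply] at h
          exact absurd hx h
    rw [hf, Finset.card_map, hJ]
    exact Nat.lt_succ_self m
  obtain ⟨j, hj⟩ : J.Nonempty := Finset.card_pos.1 (by omega)
  set π : Perm (Fin (n + 1)) := swap 0 j with hπ
  have hk := key (J.map π.toEmbedding) (by rw [Finset.card_map, hJ])
    (by rw [mem_map]; exact ⟨j, hj, by simp [hπ]⟩) (π * s) (π * t)
  rw [← hk]
  refine Finset.sum_bij' (fun τ _ => π * τ * π⁻¹) (fun τ _ => π⁻¹ * τ * π) ?_ ?_ ?_ ?_ ?_
  · intro τ hτ
    simp only [mem_filter, mem_univ, true_and] at hτ ⊢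
    intro x hx
    have hx' : π⁻¹ x ∉ J := by
      intro h4
      exact hx (by rw [mem_map]; exact ⟨π⁻¹ x, h4, by simp⟩)
    rw [Perm.mul_apply, Perm.mul_apply, hτ _ hx']
    simp
  · intro τ hτ
    simp only [mem_filter, mem_univ, true_and] at hτ ⊢
    intro x hx
    have hx' : π x ∉ J.map π.toEmbedding := by
      intro h4
      rw [mem_map] at h4
      obtain ⟨y, hy, hxy⟩ := h4
      have : y = x := π.injective (by simpa using hxy)
      exact hx (this ▸ hy)
    rw [Perm.mul_apply, Perm.mul_apply, hτ _ hx']
    simp
  · intro τ _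
    group
  · intro τ _
    group
  · intro τ _
    rw [← mult_relabel ϑ h1 h2 s (τ * t) π]
    congr 2
    group

end TF
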