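import Pool.Agent.H66.TF.SubCoeff

/-!
# TF-MULTI: from arrays to graphs with labelled edges (polarisation)

For labels `ℓ` of the `D` edges put `mult θ ℓ s t = (∏_q (arr ℓ s t q)!) • θ (arr ℓ s t)`, a function
of the source and target maps `s, t : Fin D → Fin N`.

`mult_rel`: `ConjRel θ` implies the multilinear relation. Take `c = arr ℓ s t` and multiply the
relation `Move (lft a) (lft b) θ c = Move (rgt b) (rgt a) θ c` by `c! = ∏_q (c q)!`. Left-hand side:
the subsets `E ⊆ s⁻¹(b)` with `κ_{(i,y)}` edges with label `i` and target `y` number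
`∏ C(c(i,b,y), κ(i,y))`, for each of them `arr ℓ (s[E→a]) t = mv (lft a) (lft b) κ c`, and
`(mv …)! · ∏ C(c(i,b,y), κ) = c! ∏ C(c(i,a,y) + κ, κ)` as
`C(u, κ) (u-κ)! (v+κ)! = u! v! C(v+κ, κ)` for `u = c(i,b,y)`, `v = c(i,a,y)`. The same on the right.
-/

open Finset Equiv

namespace TF

/-- polarisation -/
def mult {K N D : ℕ} {A : Type*} [AddCommGroup A] (θ : Arr K N → A) (ℓ : Fin D → Fin K)
    (s t : Fin D → Fin N) : A :=
  (∏ q, (arr ℓ s t q).factorial) • θ (arr ℓ s t)

/-- multilinear conjugation relation for `1 + E_{ab}` -/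
def MRel {N D : ℕ} {A : Type*} [AddCommGroup A] (ϑ : (Fin D → Fin N) → (Fin D → Fin N) → A) :
    Prop :=
  ∀ a b : Fin N, a ≠ b → ∀ s t : Fin D → Fin N,
    ∑ E ∈ (univ.filter (fun e => s e = b)).powerset, ϑ (fun e => if e ∈ E then a else s e) t
      = ∑ E ∈ (univ.filter (fun e => t e = a)).powerset, ϑ s (fun e => if e ∈ E then b else t e)

/-- vanishing on unbalanced graphs -/
def MBal {N D : ℕ} {A : Type*} [AddCommGroup A] (ϑ : (Fin D → Fin N) → (Fin D → Fin N) → A) :
    Prop :=
  ∀ s t : Fin D → Fin N,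
    (∃ a, (univ.filter (fun e => s e = a)).card ≠ (univ.filter (fun e => t e = a)).card) →
    ϑ s t = 0

set_option linter.unusedSectionVars false

section polar

variable {σ ι : Type*} [Fintype σ] [DecidableEq σ] [Fintype ι] [DecidableEq ι] {D : ℕ}

/-- number of the edges in the cell `q` -/
def cnt (p : Fin D → σ) (q : σ) : ℕ := (univ.filter (fun e => p e = q)).card

/-- number of the edges of `E` in the cell `t j` -/
def kap (p : Fin D → σ) (t : ι → σ) (E : Finset (Fin D)) (j : ι) : ℕ :=
  (E.filter (fun e => p e = t j)).card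

theorem kap_le (p : Fin D → σ) (t : ι → σ) (E : Finset (Fin D)) (j : ι) :
    kap p t E j ≤ cnt p (t j) :=
  Finset.card_le_card (fun e he => by
    rw [mem_filter] at he ⊢
    exact ⟨mem_univ _, he.2⟩)

theorem cnt_move (p : Fin D → σ) (s t : ι → σ) (hs : Function.Injective s)
    (ht : Function.Injective t) (hst : ∀ i j, s i ≠ t j) (E : Finset (Fin D))
    (hE : ∀ e ∈ E, ∃ j, p e = t j) (P : Fin D → σ)
    (hP1 : ∀ j, ∀ e ∈ E, p e = t j → P e = s j) (hP2 : ∀ e, e ∉ E → P e = p e) :
    cnt P = mv s t (kap p t E) (cnt p) := by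
  funext v
  by_cases hv : ∃ j, s j = v
  · obtain ⟨j, rfl⟩ := hv
    rw [mv_s s t hs hst]
    unfold cnt kap
    rw [← Finset.card_union_of_disjoint]
    · congr 1
      ext e
      simp only [mem_filter, mem_univ, true_and, mem_union]
      by_cases he : e ∈ E
      · obtain ⟨i, hi⟩ := hE e he
        rw [hP1 i e he hi, hi]
        constructor
        · intro h
          right
          exact ⟨he, by rw [hs h]⟩
        · rintro (h | h)
          · exact absurd h.symm (hst j i)
          · rw [ht h.2]
      · rw [hP2 e he]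
        simp [he]
    · rw [Finset.disjoint_left]
      intro e h1 h2
      rw [mem_filter] at h1 h2
      exact hst j j (h1.2.symm.trans h2.2)
  · push Not at hv
    by_cases hv' : ∃ j, t j = v
    · obtain ⟨j, rfl⟩ := hv'
      rw [mv_t s t ht hst]
      unfold cnt kap
      rw [← Finset.card_sdiff_of_subset]
      · congr 1
        ext e
        simp only [mem_filter, mem_univ, true_and, mem_sdiff]
        by_cases he : e ∈ E
        · obtain ⟨i, hi⟩ := hE e he
          rw [hP1 i e he hi]
          constructor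
          · intro h
            exact absurd h (hst i j)
          · rintro ⟨h1, h2⟩
            exact absurd ⟨he, h1⟩ h2
        · rw [hP2 e he]
          simp [he]
      · intro e he
        rw [mem_filter] at he ⊢
        exact ⟨mem_univ _, he.2⟩
    · push Not at hv'
      rw [mv_o s t _ _ v hv hv']
      unfold cnt
      congr 1
      ext e
      simp only [mem_filter, mem_univ, true_and]
      by_cases he : e ∈ E
      · obtain ⟨i, hi⟩ := hE e he
        rw [hP1 i e he hi, hi]
        exact ⟨fun h => absurd h (hv i), fun h => absurd h (hv' i)⟩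
      · rw [hP2 e he]

theorem card_kap (p : Fin D → σ) (t : ι → σ) (ht : Function.Injective t) (κ : ι → ℕ) :
    ((univ.filter (fun e => ∃ j, p e = t j)).powerset.filter (fun E => kap p t E = κ)).card =
      ∏ j, (cnt p (t j)).choose (κ j) := by
  have h1 : (Fintype.piFinset (fun j => Finset.powersetCard (κ j)
      (univ.filter (fun e => p e = t j)))).card = ∏ j, (cnt p (t j)).choose (κ j) := by
    rw [Fintype.card_piFinset]
    refine Finset.prod_congr rfl fun j _ => ?_
    rw [Finset.card_powersetCard]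
    rfl
  rw [← h1]
  refine Finset.card_nbij' (fun E j => E.filter (fun e => p e = t j))
    (fun F => univ.biUnion F) ?_ ?_ ?_ ?_
  · intro E hE
    simp only [coe_filter, mem_powerset, Set.mem_ofPred_eq] at hE
    simp only [Finset.mem_coe]
    rw [Fintype.mem_piFinset]
    intro j
    rw [Finset.mem_powersetCard]
    refine ⟨fun e he => ?_, ?_⟩
    · rw [mem_filter] at he ⊢
      exact ⟨mem_univ _, he.2⟩
    · rw [← hE.2]
      rfl
  · intro F hF
    simp only [Finset.mem_coe] at hF
    rw [Fintype.mem_piFinset] at hF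
    have hF' : ∀ j, F j ⊆ univ.filter (fun e => p e = t j) ∧ (F j).card = κ j := fun j =>
      Finset.mem_powersetCard.1 (hF j)
    simp only [coe_filter, mem_powerset, Set.mem_ofPred_eq]
    constructor
    · intro e he
      rw [mem_biUnion] at he
      obtain ⟨j, _, hj⟩ := he
      rw [mem_filter]
      exact ⟨mem_univ _, j, (mem_filter.1 ((hF' j).1 hj)).2⟩
    · funext j
      rw [← (hF' j).2]
      unfold kap
      congr 1
      ext e
      rw [mem_filter, mem_biUnion]
      constructor
      · rintro ⟨⟨i, _, hi⟩, h2⟩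
        have := (mem_filter.1 ((hF' i).1 hi)).2
        rw [ht (h2.symm.trans this)]
        exact hi
      · intro h
        exact ⟨⟨j, mem_univ _, h⟩, (mem_filter.1 ((hF' j).1 h)).2⟩
  · intro E hE
    simp only [coe_filter, mem_powerset, Set.mem_ofPred_eq] at hE
    ext e
    simp only [mem_biUnion, mem_univ, true_and, mem_filter]
    constructor
    · rintro ⟨j, h, _⟩
      exact h
    · intro h
      have := hE.1 h
      rw [mem_filter] at this
      obtain ⟨_, j, hj⟩ := this
      exact ⟨j, h, hj⟩
  · intro F hF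
    simp only [Finset.mem_coe] at hF
    rw [Fintype.mem_piFinset] at hF
    have hF' : ∀ j, F j ⊆ univ.filter (fun e => p e = t j) ∧ (F j).card = κ j := fun j =>
      Finset.mem_powersetCard.1 (hF j)
    funext j
    ext e
    simp only [mem_filter, mem_biUnion, mem_univ, true_and]
    constructor
    · rintro ⟨⟨i, hi⟩, h2⟩
      have := (mem_filter.1 ((hF' i).1 hi)).2
      rw [ht (h2.symm.trans this)]
      exact hi
    · intro h
      exact ⟨⟨j, h⟩, (mem_filter.1 ((hF' j).1 h)).2⟩

theorem prod_split (s t : ι → σ) (hs : Function.Injective s)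
    (ht : Function.Injective t) (hst : ∀ i j, s i ≠ t j) (f : σ → ℕ) :
    ∏ q, f q = (∏ j, f (s j) * f (t j)) * ∏ q ∈ (univ.image s ∪ univ.image t)ᶜ, f q := by
  rw [← Finset.prod_mul_prod_compl (univ.image s ∪ univ.image t), Finset.prod_union,
    Finset.prod_image (fun a _ b _ h => hs h), Finset.prod_image (fun a _ b _ h => ht h),
    Finset.prod_mul_distrib]
  rw [Finset.disjoint_left]
  intro q h1 h2
  rw [mem_image] at h1 h2
  obtain ⟨i, _, rfl⟩ := h1
  obtain ⟨j, _, hj⟩ := h2
  exact hst i j hj.symm

theorem fact_id (s t : ι → σ) (hs : Function.Injective s)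
    (ht : Function.Injective t) (hst : ∀ i j, s i ≠ t j) (c : σ → ℕ) (κ : ι → ℕ)
    (hκ : ∀ j, κ j ≤ c (t j)) :
    (∏ j, (c (t j)).choose (κ j)) * ∏ q, (mv s t κ c q).factorial =
      (∏ q, (c q).factorial) * ∏ j, (c (s j) + κ j).choose (κ j) := by
  rw [prod_split s t hs ht hst, prod_split s t hs ht hst (fun q => (c q).factorial)]
  have h1 : ∏ q ∈ (univ.image s ∪ univ.image t)ᶜ, (mv s t κ c q).factorial =
      ∏ q ∈ (univ.image s ∪ univ.image t)ᶜ, (c q).factorial := by
    refine Finset.prod_congr rfl fun q hq => ?_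
    rw [mv_o s t κ c q]
    · intro j hj
      subst hj
      simp at hq
    · intro j hj
      subst hj
      simp at hq
  rw [h1, ← mul_assoc, mul_right_comm (∏ j, (c (s j)).factorial * (c (t j)).factorial),
    ← Finset.prod_mul_distrib, ← Finset.prod_mul_distrib]
  congr 1
  refine Finset.prod_congr rfl fun j _ => ?_
  rw [mv_s s t hs hst, mv_t s t ht hst]
  have e1 := Nat.choose_mul_factorial_mul_factorial (hκ j)
  have e2 := Nat.choose_mul_factorial_mul_factorial (Nat.le_add_left (κ j) (c (s j)))
  rw [Nat.add_sub_cancel] at e2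
  rw [← e2, ← e1]
  ring

theorem polar (p : Fin D → σ) (s t : ι → σ) (hs : Function.Injective s)
    (ht : Function.Injective t) (hst : ∀ i j, s i ≠ t j) (P : Finset (Fin D) → Fin D → σ)
    (hP1 : ∀ (E : Finset (Fin D)) (j : ι), ∀ e ∈ E, p e = t j → P E e = s j)
    (hP2 : ∀ (E : Finset (Fin D)) (e : Fin D), e ∉ E → P E e = p e)
    {A : Type*} [AddCommGroup A] (θ : (σ → ℕ) → A) :
    ∑ E ∈ (univ.filter (fun e => ∃ j, p e = t j)).powerset,
      (∏ q, (cnt (P E) q).factorial) • θ (cnt (P E)) =
      (∏ q, (cnt p q).factorial) • Move s t θ (cnt p) := by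
  have h1 : ∀ E ∈ (univ.filter (fun e => ∃ j, p e = t j)).powerset,
      cnt (P E) = mv s t (kap p t E) (cnt p) := by
    intro E hE
    rw [mem_powerset] at hE
    exact cnt_move p s t hs ht hst E (fun e he => (mem_filter.1 (hE he)).2) (P E)
      (hP1 E) (hP2 E)
  rw [Finset.sum_congr rfl (fun E hE => by rw [h1 E hE])]
  have h2 : ∀ E ∈ (univ.filter (fun e => ∃ j, p e = t j)).powerset,
      kap p t E ∈ Finset.Iic (fun j => cnt p (t j)) := by
    intro E _
    rw [Finset.mem_Iic]
    exact fun j => kap_le p t E j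
  rw [← Finset.sum_fiberwise_of_maps_to h2, Move, Finset.smul_sum]
  refine Finset.sum_congr rfl fun κ hκ => ?_
  rw [Finset.mem_Iic] at hκ
  rw [Finset.sum_congr rfl (g := fun _ => (∏ q, (mv s t κ (cnt p) q).factorial) •
    θ (mv s t κ (cnt p)))]
  · rw [Finset.sum_const, card_kap p t ht, smul_smul, smul_smul,
      fact_id s t hs ht hst (cnt p) κ hκ]
  · intro E hE
    rw [(mem_filter.1 hE).2]

end polar

theorem arr_eq_cnt {K N D : ℕ} (ℓ : Fin D → Fin K) (s t : Fin D → Fin N) :
    arr ℓ s t = cnt (fun e => (ℓ e, s e, t e)) := by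
  funext q
  unfold arr cnt
  rw [Finset.card_filter]

theorem mult_rel {K N D : ℕ} {A : Type*} [AddCommGroup A] (θ : Arr K N → A) (h : ConjRel θ)
    (ℓ : Fin D → Fin K) : MRel (mult θ ℓ) := by
  intro a b hab s t
  have hl : ∀ a : Fin N, Function.Injective (lft (K := K) a) := by
    intro a x y hxy
    unfold lft at hxy
    simp only [Prod.mk.injEq, true_and] at hxy
    exact Prod.ext hxy.1 hxy.2
  have hr : ∀ a : Fin N, Function.Injective (rgt (K := K) a) := by
    intro a x y hxy
    unfold rgt at hxy
    simp only [Prod.mk.injEq, and_true] at hxy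
    exact Prod.ext hxy.1 hxy.2
  have h1 := polar (fun e => (ℓ e, s e, t e)) (lft a) (lft b) (hl a) (hl b)
    (fun i j hij => hab (by
      unfold lft at hij
      simp only [Prod.mk.injEq] at hij
      exact hij.2.1))
    (fun E e => (ℓ e, (if e ∈ E then a else s e), t e))
    (by
      intro E j e he hj
      unfold lft at hj ⊢
      simp only [Prod.mk.injEq] at hj ⊢
      simp [he, hj.1, hj.2.2])
    (by
      intro E e he
      simp [he]) θ
  have h2 := polar (fun e => (ℓ e, s e, t e)) (rgt b) (rgt a) (hr b) (hr a)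
    (fun i j hij => hab (by
      unfold rgt at hij
      simp only [Prod.mk.injEq] at hij
      exact hij.2.2.symm))
    (fun E e => (ℓ e, s e, (if e ∈ E then b else t e)))
    (by
      intro E j e he hj
      unfold rgt at hj ⊢
      simp only [Prod.mk.injEq] at hj ⊢
      simp [he, hj.1, hj.2.1])
    (by
      intro E e he
      simp [he]) θ
  have h3 : univ.filter (fun e => ∃ j, (ℓ e, s e, t e) = lft (K := K) b j) =
      univ.filter (fun e => s e = b) := by
    ext e
    simp only [mem_filter, mem_univ, true_and, lft, Prod.mk.injEq]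
    constructor
    · rintro ⟨j, _, h, _⟩
      exact h
    · intro h
      exact ⟨(ℓ e, t e), rfl, h, rfl⟩
  have h4 : univ.filter (fun e => ∃ j, (ℓ e, s e, t e) = rgt (K := K) a j) =
      univ.filter (fun e => t e = a) := by
    ext e
    simp only [mem_filter, mem_univ, true_and, rgt, Prod.mk.injEq]
    constructor
    · rintro ⟨j, _, _, h⟩
      exact h
    · intro h
      exact ⟨(ℓ e, s e), rfl, rfl, h⟩
  rw [h3] at h1
  rw [h4] at h2
  simp only [mult, arr_eq_cnt]
  rw [h1, h2, h a b hab]

/-- out-degree in terms of the edges -/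
theorem outd_arr {K N D : ℕ} (ℓ : Fin D → Fin K) (s t : Fin D → Fin N) (a : Fin N) :
    outd (arr ℓ s t) a = (univ.filter (fun e => s e = a)).card := by
  unfold outd arr
  rw [Finset.sum_comm, Finset.card_filter]
  refine Finset.sum_congr rfl fun e _ => ?_
  rw [Finset.sum_eq_single (ℓ e, t e)]
  · simp [lft]
  · intro p _ hp
    rw [if_neg]
    unfold lft
    simp only [Prod.mk.injEq]
    rintro ⟨h1, _, h3⟩
    exact hp (Prod.ext h1.symm h3.symm)
  · intro h
    exact absurd (mem_univ _) h

/-- in-degree in terms of the edges -/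
theorem ind_arr {K N D : ℕ} (ℓ : Fin D → Fin K) (s t : Fin D → Fin N) (a : Fin N) :
    ind (arr ℓ s t) a = (univ.filter (fun e => t e = a)).card := by
  unfold ind arr
  rw [Finset.sum_comm, Finset.card_filter]
  refine Finset.sum_congr rfl fun e _ => ?_
  rw [Finset.sum_eq_single (ℓ e, s e)]
  · simp [rgt]
  · intro p _ hp
    rw [if_neg]
    unfold rgt
    simp only [Prod.mk.injEq]
    rintro ⟨h1, h2, _⟩
    exact hp (Prod.ext h1.symm h2.symm)
  · intro h
    exact absurd (mem_univ _) h

theorem mult_bal {K N D : ℕ} {A : Type*} [AddCommGroup A] (θ : Arr K N → A) (h : Bal θ)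
    (ℓ : Fin D → Fin K) : MBal (mult θ ℓ) := by
  rintro s t ⟨a, ha⟩
  unfold mult
  rw [h, smul_zero]
  exact ⟨a, by rwa [outd_arr, ind_arr]⟩

/-- renaming of the edges -/
theorem mult_reindex {K N D : ℕ} {A : Type*} [AddCommGroup A] (θ : Arr K N → A)
    (ℓ : Fin D → Fin K) (s t : Fin D → Fin N) (π : Perm (Fin D)) :
    mult θ (ℓ ∘ π) (s ∘ π) (t ∘ π) = mult θ ℓ s t := by
  have : arr (ℓ ∘ π) (s ∘ π) (t ∘ π) = arr ℓ s t := by
    funext q
    unfold arr
    exact Equiv.sum_comp π (fun e => if (ℓ e, s e, t e) = q then 1 else 0)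
  unfold mult
  rw [this]

/-- different sources: no multiplicities -/
theorem mult_inj {K N D : ℕ} {A : Type*} [AddCommGroup A] (θ : Arr K N → A)
    (ℓ : Fin D → Fin K) (s t : Fin D → Fin N) (hs : Function.Injective s) :
    mult θ ℓ s t = θ (arr ℓ s t) := by
  unfold mult
  rw [Finset.prod_eq_one, one_smul]
  intro q _
  have : arr ℓ s t q ≤ 1 := by
    rw [arr_eq_cnt]
    unfold cnt
    rw [Finset.card_le_one]
    intro e he f hf
    rw [mem_filter] at he hf
    have := he.2.trans hf.2.symm
    simp only [Prod.mk.injEq] at this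
    exact hs this.2.1
  interval_cases (arr ℓ s t q) <;> rfl

end TF
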