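import Pool.Agent.H66.TF.Schur
import Pool.Agent.H66.TF.Stembridge

/-!
# TF-ONEBLOCK: one letter

For `K = 1` an LR matrix is diagonal: `GoodCols` at the row `0` gives `t(0, a+1) = 0`, inductively
(`∑_{r ≤ ρ} t(r, a+1) ≤ ∑_{r < ρ} t(r, a)`) `t(ρ, a) = 0` for `a > ρ`; `GoodRows` gives `t(ρ, a) = 0`
for `a < ρ` (letters `≤ j` in row `ρ+1` at most the letters `< j` in row `ρ`: row `ρ` has only letters
`≥ ρ`). So `LRs (fun _ => lam)` is `{diagonal matrix lam}` if `lam` is antitone and empty otherwise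
(the row sums of an array with good rows decrease), and `ind` of the diagonal matrix is `lam`. With
`alt_mul_schurK` and `stembridge`: `alt ρ * schur1 lam = alt (lam + ρ)`.
-/

open Finset Equiv

namespace TF

theorem ob_antitone {N : ℕ} (f : Fin N → ℕ)
    (h : ∀ ρ ρ' : Fin N, (ρ' : ℕ) = ρ + 1 → f ρ' ≤ f ρ) : Antitone f := by
  cases N with
  | zero => intro a; exact a.elim0
  | succ n =>
    rw [Fin.antitone_iff_succ_le]
    intro i
    exact h _ _ (by simp)

theorem ob_rsum_antitone {K N : ℕ} (t : Arr K N) (h : GoodRows t) (i : Fin K) :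
    Antitone (rsum t i) := by
  apply ob_antitone
  intro ρ ρ' hρ
  cases N with
  | zero => exact ρ.elim0
  | succ n =>
    have h1 := h i ρ ρ' hρ (Fin.last n)
    calc rsum t i ρ' = ∑ a ∈ univ.filter (fun a => a ≤ Fin.last n), t (rowc i ρ' a) := by
          rw [rsum]
          congr 1
          ext a
          simp [Fin.le_last]
      _ ≤ ∑ a ∈ univ.filter (fun a => a < Fin.last n), t (rowc i ρ a) := h1
      _ ≤ rsum t i ρ := Finset.sum_le_sum_of_subset (Finset.filter_subset _ _)

/-- above the diagonal -/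
theorem ob_above {N : ℕ} (t : Arr 1 N) (h : GoodCols t) :
    ∀ n : ℕ, ∀ a ρ : Fin N, (a : ℕ) = n → ρ < a → t (0, ρ, a) = 0 := by
  intro n
  induction n with
  | zero =>
    intro a ρ ha hρ
    have : (ρ : ℕ) < a := hρ
    omega
  | succ n ih =>
    intro a' ρ ha hρ
    have hρ' : (ρ : ℕ) < a' := hρ
    have hn : n < N := by have := a'.2; omega
    have h1 := h ⟨n, hn⟩ a' (by simpa using ha) (toLex (0, ρ))
    have h2 : ∑ r ∈ univ.filter (fun r : Fin 1 ×ₗ Fin N => r < toLex (0, ρ)),
        colv t ⟨n, hn⟩ r = 0 := by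
      apply Finset.sum_eq_zero
      intro r hr
      have hr' := (Finset.mem_filter.1 hr).2
      rw [Prod.Lex.lt_iff] at hr'
      have hr1 : (ofLex r).1 = 0 := Subsingleton.elim _ _
      have hr2 : (ofLex r).2 < ρ := by
        rcases hr' with h3 | h3
        · simp [hr1] at h3
        · exact h3.2
      have hr3 : ((ofLex r).2 : ℕ) < ρ := hr2
      rw [colv, hr1]
      exact ih ⟨n, hn⟩ (ofLex r).2 rfl (by
        show ((ofLex r).2 : ℕ) < n
        omega)
    have h3 : colv t a' (toLex (0, ρ)) ≤ 0 := by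
      refine le_trans ?_ (h1.trans h2.le)
      exact Finset.single_le_sum (f := fun r => colv t a' r) (fun _ _ => Nat.zero_le _)
        (Finset.mem_filter.2 ⟨Finset.mem_univ _, le_refl _⟩)
    exact Nat.le_zero.1 h3

/-- below the diagonal -/
theorem ob_below {N : ℕ} (t : Arr 1 N) (h : GoodRows t) :
    ∀ n : ℕ, ∀ ρ a : Fin N, (ρ : ℕ) = n → a < ρ → t (0, ρ, a) = 0 := by
  intro n
  induction n with
  | zero =>
    intro ρ a hρ ha
    have : (a : ℕ) < ρ := ha
    omega
  | succ n ih =>
    intro ρ' a hρ ha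
    have ha' : (a : ℕ) < ρ' := ha
    have hn : n < N := by have := ρ'.2; omega
    have h1 := h 0 ⟨n, hn⟩ ρ' (by simpa using hρ) a
    have h2 : ∑ b ∈ univ.filter (fun b : Fin N => b < a), t (rowc 0 ⟨n, hn⟩ b) = 0 := by
      apply Finset.sum_eq_zero
      intro b hb
      have hb' : (b : ℕ) < a := (Finset.mem_filter.1 hb).2
      exact ih ⟨n, hn⟩ b rfl (by
        show (b : ℕ) < n
        omega)
    have h3 : t (rowc 0 ρ' a) ≤ 0 := by
      refine le_trans ?_ (h1.trans h2.le)
      exact Finset.single_le_sum (f := fun b => t (rowc 0 ρ' b)) (fun _ _ => Nat.zero_le _)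
        (Finset.mem_filter.2 ⟨Finset.mem_univ _, le_refl _⟩)
    exact Nat.le_zero.1 h3

/-- the diagonal array -/
def obD {N : ℕ} (lam : Fin N → ℕ) : Arr 1 N := fun v => if v.2.1 = v.2.2 then lam v.2.1 else 0

theorem ob_eq_diag {N : ℕ} (t : Arr 1 N) (h : LR t) : t = obD (rsum t 0) := by
  funext v
  obtain ⟨i, ρ, a⟩ := v
  have hi : i = 0 := Subsingleton.elim _ _
  subst hi
  rw [obD]
  simp only []
  rcases lt_trichotomy ρ a with hlt | heq | hgt
  · rw [if_neg (ne_of_lt hlt)]
    exact ob_above t h.2 _ a ρ rfl hlt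
  · subst heq
    rw [if_pos rfl, rsum, Finset.sum_eq_single ρ]
    · rfl
    · intro b _ hb
      rcases lt_or_gt_of_ne hb with h1 | h1
      · exact ob_below t h.1 _ ρ b rfl h1
      · exact ob_above t h.2 _ b ρ rfl h1
    · intro hh
      exact absurd (Finset.mem_univ _) hh
  · rw [if_neg (ne_of_gt hgt)]
    exact ob_below t h.1 _ ρ a rfl hgt

theorem obD_rsum {N : ℕ} (lam : Fin N → ℕ) (i : Fin 1) (ρ : Fin N) :
    rsum (obD lam) i ρ = lam ρ := by
  simp [rsum, obD, rowc]

theorem obD_ind {N : ℕ} (lam : Fin N → ℕ) : ind (obD lam) = lam := by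
  funext a
  simp [ind, obD, rgt, Fintype.sum_prod_type]

theorem obD_goodRows {N : ℕ} (lam : Fin N → ℕ) (h : Antitone lam) : GoodRows (obD lam) := by
  intro i ρ ρ' hρ j
  have hle : ρ ≤ ρ' := by
    show (ρ : ℕ) ≤ ρ'
    omega
  by_cases hj : ρ' ≤ j
  · have hj' : ρ < j := by
      have : (ρ' : ℕ) ≤ j := hj
      show (ρ : ℕ) < j
      omega
    have h1 : ∑ a ∈ univ.filter (fun a => a ≤ j), obD lam (rowc i ρ' a) ≤ lam ρ' := by
      rw [← obD_rsum lam i ρ']
      exact Finset.sum_le_sum_of_subset (Finset.filter_subset _ _)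
    have h2 : lam ρ ≤ ∑ a ∈ univ.filter (fun a => a < j), obD lam (rowc i ρ a) := by
      have h3 := Finset.single_le_sum (f := fun a => obD lam (rowc i ρ a))
        (fun _ _ => Nat.zero_le _)
        (Finset.mem_filter.2 ⟨Finset.mem_univ _, hj'⟩ : ρ ∈ univ.filter (fun a => a < j))
      refine le_trans (le_of_eq ?_) h3
      simp [obD, rowc]
    exact h1.trans ((h hle).trans h2)
  · have h1 : ∑ a ∈ univ.filter (fun a => a ≤ j), obD lam (rowc i ρ' a) = 0 := by
      apply Finset.sum_eq_zero
      intro a ha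
      have ha' := (Finset.mem_filter.1 ha).2
      simp only [obD, rowc]
      rw [if_neg]
      rintro rfl
      exact hj ha'
    rw [h1]
    exact Nat.zero_le _

theorem obD_goodCols {N : ℕ} (lam : Fin N → ℕ) (h : Antitone lam) : GoodCols (obD lam) := by
  intro a a' ha j
  have hle : a ≤ a' := by
    show (a : ℕ) ≤ a'
    omega
  by_cases hj : toLex ((0 : Fin 1), a') ≤ j
  · have hj' : toLex ((0 : Fin 1), a) < j := by
      refine lt_of_lt_of_le ?_ hj
      rw [Prod.Lex.lt_iff]
      refine Or.inr ⟨rfl, ?_⟩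
      show (a : ℕ) < a'
      omega
    have h1 : ∑ r ∈ univ.filter (fun r => r ≤ j), colv (obD lam) a' r ≤ lam a' := by
      refine (Finset.sum_le_sum_of_subset (Finset.filter_subset _ _)).trans ?_
      rw [Finset.sum_eq_single (toLex ((0 : Fin 1), a'))]
      · simp [colv, obD]
      · intro r _ hr
        simp only [colv, obD]
        rw [if_neg]
        intro hh
        apply hr
        have hr1 : (ofLex r).1 = 0 := Subsingleton.elim _ _
        show r = toLex (0, a')
        rw [← hh, ← hr1]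
        rfl
      · intro hh
        exact absurd (Finset.mem_univ _) hh
    have h2 : lam a ≤ ∑ r ∈ univ.filter (fun r => r < j), colv (obD lam) a r := by
      have h3 := Finset.single_le_sum (f := fun r => colv (obD lam) a r)
        (fun _ _ => Nat.zero_le _)
        (Finset.mem_filter.2 ⟨Finset.mem_univ _, hj'⟩ :
          toLex ((0 : Fin 1), a) ∈ univ.filter (fun r => r < j))
      refine le_trans (le_of_eq ?_) h3
      simp [colv, obD]
    exact h1.trans ((h hle).trans h2)
  · have h1 : ∑ r ∈ univ.filter (fun r => r ≤ j), colv (obD lam) a' r = 0 := by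
      apply Finset.sum_eq_zero
      intro r hr
      have hr' := (Finset.mem_filter.1 hr).2
      simp only [colv, obD]
      rw [if_neg]
      intro hh
      apply hj
      have hr1 : (ofLex r).1 = 0 := Subsingleton.elim _ _
      have : r = toLex (0, a') := by
        rw [← hh, ← hr1]
        rfl
      rwa [← this]
    rw [h1]
    exact Nat.zero_le _

theorem ob_LRs {N : ℕ} (lam : Fin N → ℕ) (h : Antitone lam) :
    LRs (K := 1) (fun _ => lam) = {obD lam} := by
  classical
  ext t
  simp only [LRs, GR, Finset.mem_filter, Finset.mem_piAntidiag, Finset.mem_singleton]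
  constructor
  · rintro ⟨⟨_, hr, hs⟩, hc⟩
    have h1 := ob_eq_diag t ⟨hr, hc⟩
    have h2 : rsum t 0 = lam := funext fun ρ => hs 0 ρ
    rw [h2] at h1
    exact h1
  · rintro rfl
    refine ⟨⟨⟨?_, fun _ _ => Finset.mem_univ _⟩, obD_goodRows lam h, fun i ρ => obD_rsum lam i ρ⟩,
      obD_goodCols lam h⟩
    simp [Fintype.sum_prod_type, obD]

theorem schur1_of_antitone {N : ℕ} (lam : Fin N → ℕ) (h : Antitone lam) :
    alt (rho N) * schur1 lam = alt (lam + rho N) := by
  rw [schur1, alt_mul_schurK, stembridge, ob_LRs lam h, Finset.sum_singleton, obD_ind]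

theorem schur1_of_not_antitone {N : ℕ} (lam : Fin N → ℕ) (h : ¬ Antitone lam) :
    schur1 lam = 0 := by
  classical
  rw [schur1, schurK]
  apply Finset.sum_eq_zero
  intro t ht
  exfalso
  apply h
  simp only [GR, Finset.mem_filter] at ht
  have h1 := ob_rsum_antitone t ht.2.1 0
  have h2 : rsum t 0 = lam := funext fun ρ => ht.2.2 0 ρ
  rwa [h2] at h1

end TF
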