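import Pool.Agent.H66.TF.Theta

/-!
# TF-PATH: the value of `Θ` at a path

`T` = superdiagonal matrix with entries `τ_0, …, τ_{n-1}` (`T_{j,j+1} = τ_j`), `Y = η E_{n,0}`. `1 + T` is
unipotent upper triangular: its inverse is `G_{ab} = (-1)^{b-a} τ_a τ_{a+1} ⋯ τ_{b-1}` (`a ≤ b`), and all
the pivots are `1` (the submatrices `M_{≥ j}` are of the same form, the `(0,0)` entry of the inverse is
`1`), so `pivProd = 1`. Hence `Θ = η (-1)^n τ_0 ⋯ τ_{n-1} w FL L x z`.
No nilpotency is needed.
-/

open Finset Equiv

namespace TF

section path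

variable {R : Type*} [Ring R]

/-- the unipotent superdiagonal matrix -/
def pathM {n : ℕ} (τ : Fin n → R) : Matrix (Fin (n + 1)) (Fin (n + 1)) R :=
  1 + Matrix.of fun a b : Fin (n + 1) =>
        ∑ j : Fin n, if j.castSucc = a ∧ j.succ = b then τ j else 0

/-- the product `g a ⋯ g (a+k-1)` with sign -/
def pathP (g : ℕ → R) (a k : ℕ) : R := ((List.range' a k).map fun i => - g i).prod

/-- the inverse of `pathM` -/
def pathG (g : ℕ → R) (n : ℕ) : Matrix (Fin (n + 1)) (Fin (n + 1)) R :=
  Matrix.of fun a b => if a ≤ b then pathP g a (b - a) else 0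

theorem pathP_zero (g : ℕ → R) (a : ℕ) : pathP g a 0 = 1 := by simp [pathP]

theorem pathP_succ (g : ℕ → R) (a k : ℕ) : pathP g a (k + 1) = - g a * pathP g (a + 1) k := by
  simp [pathP, List.range'_succ]

theorem pathP_succ' (g : ℕ → R) (a k : ℕ) : pathP g a (k + 1) = pathP g a k * - g (a + k) := by
  simp [pathP, List.range'_concat]

theorem pathM_apply {n : ℕ} (τ : Fin n → R) (g : ℕ → R) (hg : ∀ j : Fin n, g j = τ j)
    (a b : Fin (n + 1)) :
    pathM τ a b = (if a = b then 1 else 0) + (if (a : ℕ) + 1 = b then g a else 0) := by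
  have h : (∑ j : Fin n, if j.castSucc = a ∧ j.succ = b then τ j else 0)
      = if (a : ℕ) + 1 = b then g a else 0 := by
    split_ifs with h
    · have ha : (a : ℕ) < n := by have := b.2; omega
      rw [Finset.sum_eq_single (⟨a, ha⟩ : Fin n)]
      · rw [if_pos, ← hg]
        constructor
        · ext; simp
        · ext; simp [h]
      · intro j _ hj
        rw [if_neg]
        rintro ⟨h1, h2⟩
        apply hj
        have h3 := congrArg Fin.val h1
        ext
        simpa using h3
      · simp
    · apply Finset.sum_eq_zero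
      intro j _
      rw [if_neg]
      rintro ⟨h1, h2⟩
      apply h
      rw [← h1, ← h2]; simp
  rw [pathM, Matrix.add_apply, Matrix.of_apply, h, Matrix.one_apply]

theorem pathM_mul {n : ℕ} (τ : Fin n → R) (g : ℕ → R) (hg : ∀ j : Fin n, g j = τ j) :
    pathM τ * pathG g n = 1 := by
  ext a b
  rw [Matrix.mul_apply, Matrix.one_apply]
  have h1 : ∀ c, pathM τ a c * pathG g n c b = (if a = c then pathG g n a b else 0)
      + (if (a : ℕ) + 1 = c then g a * pathG g n c b else 0) := by
    intro c
    rw [pathM_apply τ g hg, add_mul]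
    congr 1
    · split_ifs with h
      · rw [h, one_mul]
      · rw [zero_mul]
    · split_ifs with h
      · rfl
      · rw [zero_mul]
  rw [Finset.sum_congr rfl fun c _ => h1 c, Finset.sum_add_distrib, Finset.sum_ite_eq,
    if_pos (Finset.mem_univ _)]
  by_cases ha : (a : ℕ) < n
  · have h2 : (∑ c : Fin (n + 1), if (a : ℕ) + 1 = c then g a * pathG g n c b else 0)
        = g a * pathG g n (⟨a + 1, by omega⟩ : Fin (n + 1)) b := by
      rw [Finset.sum_eq_single (⟨a + 1, by omega⟩ : Fin (n + 1))]
      · rw [if_pos rfl]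
      · intro c _ hc
        rw [if_neg]
        intro h
        apply hc
        ext
        exact h.symm
      · simp
    rw [h2]
    simp only [pathG, Matrix.of_apply]
    by_cases hab : (a : ℕ) < b
    · rw [if_pos (Fin.le_def.2 hab.le), if_pos (Fin.le_def.2 (by simpa using hab)), if_neg
        (fun h => by rw [h] at hab; exact lt_irrefl _ hab)]
      obtain ⟨k, hk⟩ : ∃ k, (b : ℕ) - a = k + 1 := ⟨b - a - 1, by omega⟩
      have hk' : (b : ℕ) - (a + 1) = k := by omega
      simp only [hk, hk', pathP_succ]
      simp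
    · by_cases hab' : a = b
      · subst hab'
        simp [pathP_zero, Fin.le_def]
      · rw [if_neg, if_neg, if_neg hab']
        · simp
        · rw [Fin.le_def]; simp; omega
        · rw [Fin.le_def]
          intro h
          exact hab' (Fin.ext (by omega))
  · have h2 : (∑ c : Fin (n + 1), if (a : ℕ) + 1 = c then g a * pathG g n c b else 0) = 0 := by
      apply Finset.sum_eq_zero
      intro c _
      rw [if_neg]
      have := c.2
      omega
    rw [h2, add_zero]
    simp only [pathG, Matrix.of_apply]
    by_cases hab' : a = b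
    · subst hab'
      simp [pathP_zero]
    · rw [if_neg, if_neg hab']
      rw [Fin.le_def]
      intro h
      apply hab'
      ext
      have := b.2
      omega

theorem pathG_mul {n : ℕ} (τ : Fin n → R) (g : ℕ → R) (hg : ∀ j : Fin n, g j = τ j) :
    pathG g n * pathM τ = 1 := by
  ext a b
  rw [Matrix.mul_apply, Matrix.one_apply]
  have h1 : ∀ c, pathG g n a c * pathM τ c b = (if c = b then pathG g n a b else 0)
      + (if (c : ℕ) + 1 = b then pathG g n a c * g c else 0) := by
    intro c
    rw [pathM_apply τ g hg, mul_add]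
    congr 1
    · split_ifs with h
      · rw [h, mul_one]
      · rw [mul_zero]
    · split_ifs with h
      · rfl
      · rw [mul_zero]
  rw [Finset.sum_congr rfl fun c _ => h1 c, Finset.sum_add_distrib, Finset.sum_ite_eq',
    if_pos (Finset.mem_univ _)]
  by_cases hb : 0 < (b : ℕ)
  · have h2 : (∑ c : Fin (n + 1), if (c : ℕ) + 1 = b then pathG g n a c * g c else 0)
        = pathG g n a (⟨b - 1, by have := b.2; omega⟩ : Fin (n + 1)) * g (b - 1) := by
      rw [Finset.sum_eq_single (⟨b - 1, by have := b.2; omega⟩ : Fin (n + 1))]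
      · rw [if_pos]
        simp only
        omega
      · intro c _ hc
        rw [if_neg]
        intro h
        apply hc
        ext
        simp only
        omega
      · simp
    rw [h2]
    simp only [pathG, Matrix.of_apply]
    by_cases hab : (a : ℕ) < b
    · rw [if_pos (Fin.le_def.2 hab.le), if_pos (Fin.le_def.2 (by simp only; omega)), if_neg
        (fun h => by rw [h] at hab; exact lt_irrefl _ hab)]
      obtain ⟨k, hk⟩ : ∃ k, (b : ℕ) - a = k + 1 := ⟨b - a - 1, by omega⟩
      have hk' : (b : ℕ) - 1 - a = k := by omega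
      have hk'' : (a : ℕ) + k = b - 1 := by omega
      simp only [hk, hk', pathP_succ', hk'']
      simp
    · by_cases hab' : a = b
      · subst hab'
        rw [if_pos le_rfl, if_pos rfl, if_neg]
        · simp [pathP_zero]
        · rw [Fin.le_def]; simp only; omega
      · rw [if_neg, if_neg, if_neg hab']
        · simp
        · rw [Fin.le_def]; simp only; omega
        · rw [Fin.le_def]
          intro h
          exact hab' (Fin.ext (by omega))
  · have h2 : (∑ c : Fin (n + 1), if (c : ℕ) + 1 = b then pathG g n a c * g c else 0) = 0 := by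
      apply Finset.sum_eq_zero
      intro c _
      rw [if_neg]
      omega
    rw [h2, add_zero]
    simp only [pathG, Matrix.of_apply]
    by_cases hab' : a = b
    · subst hab'
      simp [pathP_zero]
    · rw [if_neg, if_neg hab']
      rw [Fin.le_def]
      intro h
      apply hab'
      ext
      omega

theorem inverse_pathM {n : ℕ} (τ : Fin n → R) (g : ℕ → R) (hg : ∀ j : Fin n, g j = τ j) :
    Ring.inverse (pathM τ) = pathG g n := by
  have h := Ring.inverse_unit (⟨pathM τ, pathG g n, pathM_mul τ g hg, pathG_mul τ g hg⟩ :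
    (Matrix (Fin (n + 1)) (Fin (n + 1)) R)ˣ)
  exact h

/-- the extension of `τ` by zero -/
def pathE {n : ℕ} (τ : Fin n → R) (i : ℕ) : R := if h : i < n then τ ⟨i, h⟩ else 0

theorem pathE_coe {n : ℕ} (τ : Fin n → R) (j : Fin n) : pathE τ j = τ j := by
  simp [pathE]

theorem pathM_sub {n : ℕ} (τ : Fin (n + 1) → R) :
    (pathM τ).submatrix Fin.succ Fin.succ = pathM fun j => τ j.succ := by
  ext a b
  rw [Matrix.submatrix_apply, pathM_apply τ (pathE τ) (pathE_coe τ),
    pathM_apply (fun j => τ j.succ) (fun i => pathE τ (i + 1)) (by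
      intro j
      have := pathE_coe τ j.succ
      simpa using this)]
  simp

theorem pivProd_pathM : ∀ {n : ℕ} (τ : Fin n → R), pivProd (n + 1) (pathM τ) = 1
  | 0, τ => by
    rw [pivProd, inverse_pathM τ (pathE τ) (pathE_coe τ), pivProd]
    simp [pathG, pathP_zero]
  | n + 1, τ => by
    rw [pivProd, inverse_pathM τ (pathE τ) (pathE_coe τ), pathM_sub, pivProd_pathM]
    simp [pathG, pathP_zero]

theorem pathP_ofFn {n : ℕ} (g : ℕ → R) : pathP g 0 n
    = (-1 : ℤ) ^ n • (List.ofFn fun i : Fin n => g i).prod := by
  induction n with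
  | zero => simp [pathP_zero]
  | succ n ih =>
    rw [pathP_succ', ih, List.ofFn_succ', List.concat_eq_append, List.prod_append]
    simp [pow_succ, mul_assoc]

end path

theorem theta_path {R : Type*} [Ring R] {m n : ℕ} (L : List (R ⊕ (Fin m ⊕ Fin m)))
    (x z : Fin m → R) (w η : R) (τ : Fin n → R) :
    theta L x z w (1 + Matrix.of fun a b : Fin (n + 1) =>
        ∑ j : Fin n, if j.castSucc = a ∧ j.succ = b then τ j else 0)
      (Matrix.single (Fin.last n) (0 : Fin (n + 1)) η)
      = η * (((-1 : ℤ) ^ n) • ((List.ofFn τ).prod * (w * FL L x z))) := by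
  change theta L x z w (pathM τ) (Matrix.single (Fin.last n) (0 : Fin (n + 1)) η) = _
  rw [theta, pivProd_pathM, inverse_pathM τ (pathE τ) (pathE_coe τ)]
  rw [Finset.sum_eq_single (0 : Fin (n + 1))]
  · rw [Finset.sum_eq_single (Fin.last n)]
    · rw [Matrix.single_apply_same]
      congr 1
      have h : pathG (pathE τ) n 0 (Fin.last n) = (-1 : ℤ) ^ n • (List.ofFn τ).prod := by
        simp only [pathG, Matrix.of_apply]
        rw [if_pos (Fin.zero_le _)]
        have h0 : ((Fin.last n : Fin (n + 1)) : ℕ) - ((0 : Fin (n + 1)) : ℕ) = n := by simp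
        rw [h0]
        have h1 : ((0 : Fin (n + 1)) : ℕ) = 0 := rfl
        rw [h1, pathP_ofFn]
        simp only [pathE_coe]
      rw [h, smul_mul_assoc]
      simp
    · intro b _ hb
      rw [Matrix.single_apply_of_row_ne (Ne.symm hb), zero_mul]
    · simp
  · intro a _ ha
    apply Finset.sum_eq_zero
    intro b _
    rw [Matrix.single_apply_of_col_ne, zero_mul]
    exact Ne.symm ha
  · simp

end TF
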