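import Pool.Agent.H66.TF.AltDefs

/-!
# TF-PIV: the product of pivots modulo commutators is invariant under conjugation

`R` a ring, `J` a nilpotent two-sided ideal, `M` a matrix with `M - 1 ∈ M_N(J)` (so `M` is invertible,
`M⁻¹ - 1 ∈ M_N(J)`, the same for all the submatrices `M_{≥ j}`, and the entries `(M_{≥ j}⁻¹)_{00}` are
units). `D : R →* Γ` a homomorphism to a commutative monoid (multiplicative).

`pivProd N M = ∏_j s_j` with `s_j = ((M_{≥ j})⁻¹)_{00}⁻¹`.

`pivProd_conj`: for `u = 1 + c E_{ab}`, `a ≠ b`, `c` an integer, `D(pivProd (u M u⁻¹)) = D(pivProd M)`.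
First `b = a + 1` or `a = b + 1`, by induction on `N`: if both indices are `≥ 1` then `u` restricts to
indices `≥ 1`, `(u M u⁻¹)_{≥1} = u' M_{≥1} u'⁻¹` and `((uMu⁻¹)⁻¹)_{00} = (u M⁻¹ u⁻¹)_{00} = (M⁻¹)_{00}`.
If the indices are `0, 1`: `M_{≥2}` does not change, so it is enough to consider
`D(s_1) D(s_0)`, i.e. `D(s_1⁻¹) D(s_0⁻¹) = D(s_1⁻¹ s_0⁻¹)`. With `G = M⁻¹`: `s_0⁻¹ = G_{00}` and
`(M_{≥1})⁻¹ = G_{≥1} - G_{≥1,0} G_{00}⁻¹ G_{0,≥1}` (check by multiplication), so
`s_1⁻¹ = G_{11} - G_{10} G_{00}⁻¹ G_{01}`. `G' = u G u⁻¹`. Case `u = 1 + c E_{01}`: `G'_{00} = G_{00} + c G_{10}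
=: q'`, `G'_{10} = G_{10} = r`, `G'_{11} = G_{11} - c r`, `G'_{01} = G_{01} + c G_{11} - c q'`; with
`q = G_{00}`, `s = s_1⁻¹ = G_{11} - r q⁻¹ G_{01}`: `G'_{11} - r q'⁻¹ G'_{01} = (1 - c r q'⁻¹) s = q q'⁻¹ s`
(as `q' - c r = q`). So the product of the `D`-values `D(q') D(q q'⁻¹ s) = D(q) D(s)`. Case
`u = 1 + c E_{10}`: symmetric (`q' = G_{00} - c G_{01}`, and `s_1'⁻¹ = s q'⁻¹ q`).
General `a ≠ b`: the set of invertible integer matrices `u` such that
`D(pivProd (u M u⁻¹)) = D(pivProd M)` for all `M ∈ 1 + M_N(J)` is closed under products and inverses, and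
`1 + c E_{ab} = [1 + c E_{ad}, 1 + E_{db}]` (group commutator) for `d` different from `a, b`; induction on
`|a - b|`.

`pivProd_diag`: for a diagonal matrix of central units, `pivProd (d M d⁻¹) = pivProd M` (the inverse of a
conjugate is the conjugate of the inverse, `Ring.inverse` also for non-units).
-/

open Finset Equiv

namespace TF

section Piv

variable {R : Type*} [Ring R]

/-- all the entries are in `J` -/
private def PIn (J : Ideal R) {n : ℕ} (X : Matrix (Fin n) (Fin n) R) : Prop := ∀ i j, X i j ∈ J

private theorem PIn.mul_left {J : Ideal R} {n : ℕ} {X : Matrix (Fin n) (Fin n) R}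
    (hX : PIn J X) (Y : Matrix (Fin n) (Fin n) R) : PIn J (Y * X) := fun i j => by
  rw [Matrix.mul_apply]
  exact J.sum_mem fun k _ => J.mul_mem_left _ (hX k j)

private theorem PIn.mul_right {J : Ideal R} [J.IsTwoSided] {n : ℕ}
    {X : Matrix (Fin n) (Fin n) R} (hX : PIn J X) (Y : Matrix (Fin n) (Fin n) R) :
    PIn J (X * Y) := fun i j => by
  rw [Matrix.mul_apply]
  exact J.sum_mem fun k _ => J.mul_mem_right _ (hX i k)

private theorem piv_pow {J : Ideal R} {n : ℕ} {X : Matrix (Fin n) (Fin n) R} (hX : PIn J X)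
    (k : ℕ) : ∀ i j, (X ^ k) i j ∈ J ^ k := by
  induction k with
  | zero =>
    intro i j
    rw [Submodule.pow_zero, Ideal.one_eq_top]
    trivial
  | succ k ih =>
    intro i j
    rw [pow_succ, Submodule.pow_succ, Matrix.mul_apply]
    exact sum_mem fun l _ => Ideal.mul_mem_mul (ih i l) (hX l j)

private theorem piv_isUnit {J : Ideal R} (hJ : IsNilpotent J) {n : ℕ}
    {M : Matrix (Fin n) (Fin n) R} (hM : PIn J (M - 1)) : IsUnit M := by
  obtain ⟨k, hk⟩ := hJ
  have h1 : (M - 1) ^ k = 0 := by
    ext i j
    have h := piv_pow hM k i j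
    rw [hk] at h
    exact h
  have h2 : IsUnit (1 + (M - 1)) := IsNilpotent.isUnit_one_add ⟨k, h1⟩
  rwa [add_sub_cancel] at h2

private theorem piv_isUnit_scalar {J : Ideal R} (hJ : IsNilpotent J) {x : R}
    (hx : x - 1 ∈ J) : IsUnit x := by
  obtain ⟨k, hk⟩ := hJ
  have h1 : (x - 1) ^ k = 0 := by
    have h : (x - 1) ^ k ∈ J ^ k := by
      clear hk
      induction k with
      | zero =>
        rw [Submodule.pow_zero, Ideal.one_eq_top]
        trivial
      | succ k ih =>
        rw [pow_succ, Submodule.pow_succ]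
        exact Ideal.mul_mem_mul ih hx
    rw [hk] at h
    exact h
  have h2 : IsUnit (1 + (x - 1)) := IsNilpotent.isUnit_one_add ⟨k, h1⟩
  rwa [add_sub_cancel] at h2

private theorem piv_inverse {J : Ideal R} [J.IsTwoSided] (hJ : IsNilpotent J) {n : ℕ}
    {M : Matrix (Fin n) (Fin n) R} (hM : PIn J (M - 1)) : PIn J (Ring.inverse M - 1) := by
  have h1 := piv_isUnit hJ hM
  have h2 : Ring.inverse M - 1 = -(Ring.inverse M * (M - 1)) := by
    rw [mul_sub, Ring.inverse_mul_cancel _ h1, mul_one]
    abel
  rw [h2]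
  intro i j
  rw [Matrix.neg_apply]
  exact J.neg_mem ((hM.mul_left _) i j)

private theorem piv_sub {J : Ideal R} {n : ℕ} {M : Matrix (Fin (n + 1)) (Fin (n + 1)) R}
    (hM : PIn J (M - 1)) : PIn J (M.submatrix Fin.succ Fin.succ - 1) := by
  intro i j
  have h := hM i.succ j.succ
  rw [Matrix.sub_apply, Matrix.one_apply] at h ⊢
  rw [Matrix.submatrix_apply]
  simpa only [Fin.succ_inj] using h

private theorem piv_unit00 {J : Ideal R} [J.IsTwoSided] (hJ : IsNilpotent J) {n : ℕ}
    {M : Matrix (Fin (n + 1)) (Fin (n + 1)) R} (hM : PIn J (M - 1)) :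
    IsUnit (Ring.inverse M 0 0) := by
  apply piv_isUnit_scalar hJ
  have h := piv_inverse hJ hM 0 0
  rwa [Matrix.sub_apply, Matrix.one_apply_eq] at h

/-- the inverse of the submatrix. -/
private theorem piv_schur {J : Ideal R} [J.IsTwoSided] (hJ : IsNilpotent J) {n : ℕ}
    {M : Matrix (Fin (n + 1)) (Fin (n + 1)) R} (hM : PIn J (M - 1)) (i j : Fin n) :
    Ring.inverse (M.submatrix Fin.succ Fin.succ) i j =
      Ring.inverse M i.succ j.succ - Ring.inverse M i.succ 0 *
        Ring.inverse (Ring.inverse M 0 0) * Ring.inverse M 0 j.succ := by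
  have h1 := piv_isUnit hJ hM
  have h2 := piv_unit00 hJ hM
  have h3 := piv_isUnit hJ (piv_sub hM)
  have hMG : M * Ring.inverse M = 1 := Ring.mul_inverse_cancel _ h1
  set G := Ring.inverse M with hG
  set X : Matrix (Fin n) (Fin n) R := Matrix.of fun i j =>
    G i.succ j.succ - G i.succ 0 * Ring.inverse (G 0 0) * G 0 j.succ with hX
  have h4 : M.submatrix Fin.succ Fin.succ * X = 1 := by
    ext i j
    have e1 : ∀ l : Fin (n + 1), M i.succ 0 * G 0 l + ∑ k : Fin n, M i.succ k.succ * G k.succ l =
        (1 : Matrix (Fin (n + 1)) (Fin (n + 1)) R) i.succ l := by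
      intro l
      rw [← hMG, Matrix.mul_apply, Fin.sum_univ_succ]
    have e2 : ∑ k : Fin n, M i.succ k.succ * G k.succ j.succ =
        (1 : Matrix (Fin n) (Fin n) R) i j - M i.succ 0 * G 0 j.succ := by
      have h := e1 j.succ
      rw [Matrix.one_apply] at h ⊢
      simp only [Fin.succ_inj] at h
      rw [← h]
      abel
    have e3 : ∑ k : Fin n, M i.succ k.succ * G k.succ 0 = - (M i.succ 0 * G 0 0) := by
      have h := e1 0
      rw [Matrix.one_apply_ne (Fin.succ_ne_zero i)] at h
      exact (neg_eq_of_add_eq_zero_right h).symm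
    rw [Matrix.mul_apply]
    have e4 : ∀ k : Fin n, M.submatrix Fin.succ Fin.succ i k * X k j =
        M i.succ k.succ * G k.succ j.succ -
          M i.succ k.succ * G k.succ 0 * (Ring.inverse (G 0 0) * G 0 j.succ) := by
      intro k
      rw [Matrix.submatrix_apply, hX, Matrix.of_apply, mul_sub]
      simp only [mul_assoc]
    rw [Finset.sum_congr rfl fun k _ => e4 k, Finset.sum_sub_distrib, ← Finset.sum_mul, e2, e3,
      neg_mul, mul_assoc, ← mul_assoc (G 0 0), Ring.mul_inverse_cancel _ h2, one_mul]
    abel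
  have h5 : Ring.inverse (M.submatrix Fin.succ Fin.succ) = X := by
    calc Ring.inverse (M.submatrix Fin.succ Fin.succ)
        = Ring.inverse (M.submatrix Fin.succ Fin.succ) *
          (M.submatrix Fin.succ Fin.succ * X) := by rw [h4, mul_one]
      _ = X := by rw [← mul_assoc, Ring.inverse_mul_cancel _ h3, one_mul]
  rw [h5, hX, Matrix.of_apply]

/-- inverse of a conjugate. -/
private theorem piv_inverse_conj {A : Type*} [Ring A] (u : Aˣ) (a : A) :
    Ring.inverse ((u : A) * a * ((u⁻¹ : Aˣ) : A)) = (u : A) * Ring.inverse a * ((u⁻¹ : Aˣ) : A) := by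
  by_cases ha : IsUnit a
  · obtain ⟨w, rfl⟩ := ha
    have h1 : (u : A) * (w : A) * ((u⁻¹ : Aˣ) : A) = ((u * w * u⁻¹ : Aˣ) : A) := by
      simp
    rw [h1, Ring.inverse_unit, Ring.inverse_unit]
    simp [mul_assoc]
  · rw [Ring.inverse_non_unit _ ha, mul_zero, zero_mul, Ring.inverse_non_unit]
    intro h
    apply ha
    have h2 : a = ((u⁻¹ : Aˣ) : A) * ((u : A) * a * ((u⁻¹ : Aˣ) : A)) * (u : A) := by
      simp [mul_assoc]
    rw [h2]
    exact (u⁻¹.isUnit.mul h).mul u.isUnit

/-- the elementary matrices. -/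
private def pivE {n : ℕ} (a b : Fin n) (hab : a ≠ b) (c : R) : (Matrix (Fin n) (Fin n) R)ˣ where
  val := 1 + Matrix.single a b c
  inv := 1 - Matrix.single a b c
  val_inv := by
    have h : Matrix.single a b c * Matrix.single a b c = 0 :=
      Matrix.single_mul_single_of_ne c a b a hab.symm c
    rw [add_mul, mul_sub, mul_sub, h]
    simp
  inv_val := by
    have h : Matrix.single a b c * Matrix.single a b c = 0 :=
      Matrix.single_mul_single_of_ne c a b a hab.symm c
    rw [sub_mul, mul_add, mul_add, h]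
    simp

private theorem piv_conj_apply {n : ℕ} (a b : Fin n) (c : R) (G : Matrix (Fin n) (Fin n) R)
    (i j : Fin n) :
    ((1 + Matrix.single a b c) * G * (1 - Matrix.single a b c)) i j =
      G i j + (if i = a then c * G b j else 0) - (if j = b then G i a * c else 0) -
        (if i = a then (if j = b then c * G b a * c else 0) else 0) := by
  have h1 : (1 + Matrix.single a b c) * G * (1 - Matrix.single a b c) =
      G + Matrix.single a b c * G - G * Matrix.single a b c -
        Matrix.single a b c * G * Matrix.single a b c := by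
    noncomm_ring
  have h2 : ∀ (G : Matrix (Fin n) (Fin n) R) (i j : Fin n), (Matrix.single a b c * G) i j =
      if i = a then c * G b j else 0 := by
    intro G i j
    by_cases hi : i = a
    · subst hi
      rw [if_pos rfl, Matrix.single_mul_apply_same]
    · rw [if_neg hi, Matrix.single_mul_apply_of_ne _ _ _ _ _ hi]
  have h3 : ∀ (G : Matrix (Fin n) (Fin n) R) (i j : Fin n), (G * Matrix.single a b c) i j =
      if j = b then G i a * c else 0 := by
    intro G i j
    by_cases hj : j = b
    · subst hj
      rw [if_pos rfl, Matrix.mul_single_apply_same]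
    · rw [if_neg hj, Matrix.mul_single_apply_of_ne _ _ _ _ _ hj]
  rw [h1, Matrix.sub_apply, Matrix.sub_apply, Matrix.add_apply, h2, h3, h3]
  congr 1
  rw [h2]
  split_ifs <;> simp

private theorem piv_conj_in {J : Ideal R} [J.IsTwoSided] {n : ℕ}
    {M : Matrix (Fin n) (Fin n) R} (hM : PIn J (M - 1)) (u : (Matrix (Fin n) (Fin n) R)ˣ) :
    PIn J ((u : Matrix (Fin n) (Fin n) R) * M *
      ((u⁻¹ : (Matrix (Fin n) (Fin n) R)ˣ) : Matrix (Fin n) (Fin n) R) - 1) := by
  have h : (u : Matrix (Fin n) (Fin n) R) * M *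
      ((u⁻¹ : (Matrix (Fin n) (Fin n) R)ˣ) : Matrix (Fin n) (Fin n) R) - 1 =
      (u : Matrix (Fin n) (Fin n) R) * (M - 1) *
      ((u⁻¹ : (Matrix (Fin n) (Fin n) R)ˣ) : Matrix (Fin n) (Fin n) R) := by
    rw [mul_sub, sub_mul, mul_one, Units.mul_inv]
  rw [h]
  exact (hM.mul_left _).mul_right _

/-- values of units under a homomorphism to a commutative monoid. -/
private theorem piv_D {Γ : Type*} [CommMonoid Γ] (D : R →* Γ) {q s q' s' : R} (hq : IsUnit q)
    (hs : IsUnit s) (hq' : IsUnit q') (hs' : IsUnit s') (h : D q * D s = D q' * D s') :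
    D (Ring.inverse s) * D (Ring.inverse q) = D (Ring.inverse s') * D (Ring.inverse q') := by
  have h1 : ∀ {a : R}, IsUnit a → D (Ring.inverse a) * D a = 1 := by
    intro a ha
    rw [← map_mul, Ring.inverse_mul_cancel _ ha, map_one]
  have hA : (D (Ring.inverse s) * D (Ring.inverse q)) * (D q * D s) = 1 := by
    calc (D (Ring.inverse s) * D (Ring.inverse q)) * (D q * D s)
        = (D (Ring.inverse s) * D s) * (D (Ring.inverse q) * D q) := by
          rw [mul_comm (D q) (D s), mul_mul_mul_comm]
      _ = 1 := by rw [h1 hs, h1 hq, one_mul]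
  have hB : (D (Ring.inverse s') * D (Ring.inverse q')) * (D q' * D s') = 1 := by
    calc (D (Ring.inverse s') * D (Ring.inverse q')) * (D q' * D s')
        = (D (Ring.inverse s') * D s') * (D (Ring.inverse q') * D q') := by
          rw [mul_comm (D q') (D s'), mul_mul_mul_comm]
      _ = 1 := by rw [h1 hs', h1 hq', one_mul]
  rw [← h] at hB
  calc D (Ring.inverse s) * D (Ring.inverse q)
      = (D (Ring.inverse s) * D (Ring.inverse q)) *
        ((D (Ring.inverse s') * D (Ring.inverse q')) * (D q * D s)) := by rw [hB, mul_one]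
    _ = (D (Ring.inverse s') * D (Ring.inverse q')) *
        ((D (Ring.inverse s) * D (Ring.inverse q)) * (D q * D s)) := by
          rw [mul_left_comm]
    _ = D (Ring.inverse s') * D (Ring.inverse q') := by rw [hA, mul_one]

private theorem piv_map3 {Γ : Type*} [CommMonoid Γ] (D : R →* Γ) (x y z : R) :
    D (x * y * z) = D x * (D y * D z) := by
  rw [map_mul, map_mul, mul_assoc]

private theorem piv_cm1 {Γ : Type*} [CommMonoid Γ] {x y z w : Γ} (h : x * y = 1) :
    z * w = x * (z * y * w) := by
  have h1 : x * (z * y * w) = (x * y) * (z * w) := by ac_rfl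
  rw [h1, h, one_mul]

private theorem piv_cm2 {Γ : Type*} [CommMonoid Γ] {x y z w : Γ} (h : x * y = 1) :
    z * w = x * (w * (y * z)) := by
  have h1 : x * (w * (y * z)) = (x * y) * (z * w) := by ac_rfl
  rw [h1, h, one_mul]

/-- the scalar computation, upper case -/
private theorem piv_calc1 {q q' r g t : R} {c : ℤ} (hq : IsUnit q) (hq' : IsUnit q')
    (h : q' = q + (c : R) * r) :
    (g - r * (c : R)) - r * Ring.inverse q' * (t + (c : R) * g - q' * (c : R)) =
      q * Ring.inverse q' * (g - r * Ring.inverse q * t) := by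
  have hc : ∀ x : R, (c : R) * x = x * (c : R) := fun x => (Int.cast_commute c x).eq
  have e1 : q' * Ring.inverse q' = 1 := Ring.mul_inverse_cancel _ hq'
  have e2 : Ring.inverse q' * q' = 1 := Ring.inverse_mul_cancel _ hq'
  have e3 : q * Ring.inverse q = 1 := Ring.mul_inverse_cancel _ hq
  set p := Ring.inverse q' with hp
  -- q p = 1 - c r p
  have e4 : q * p = 1 - (c : R) * r * p := by
    have : q = q' - (c : R) * r := by rw [h]; abel
    rw [this, sub_mul, e1]
  -- p q = 1 - p (c r)
  have e5 : p * q = 1 - p * ((c : R) * r) := by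
    have : q = q' - (c : R) * r := by rw [h]; abel
    rw [this, mul_sub, e2]
  -- q p r = r p q
  have e6 : q * p * r = r * p * q := by
    have e0 : (c : R) * r * p * r = r * (p * ((c : R) * r)) := by
      rw [hc r]
      simp only [mul_assoc]
      rw [hc (p * r), mul_assoc]
    rw [e4, mul_assoc r p q, e5, sub_mul, mul_sub, one_mul, mul_one, e0]
  have e7 : q * p * (r * Ring.inverse q * t) = r * p * t := by
    rw [← mul_assoc, ← mul_assoc, e6, mul_assoc (r * p), e3, mul_one]
  rw [mul_sub (q * p), e7, e4, sub_mul, one_mul]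
  have e8 : r * p * (t + (c : R) * g - q' * (c : R)) =
      r * p * t + (c : R) * r * p * g - r * (c : R) := by
    rw [mul_sub, mul_add]
    congr 1
    · congr 1
      rw [← mul_assoc, ← hc (r * p)]
      simp only [mul_assoc]
    · rw [mul_assoc r p, ← mul_assoc p, e2, one_mul]
  rw [e8]
  abel

/-- the scalar computation, lower case -/
private theorem piv_calc2 {q q' r g t : R} {c : ℤ} (hq : IsUnit q) (hq' : IsUnit q')
    (h : q' = q - t * (c : R)) :
    (g + (c : R) * t) - (r + (c : R) * q - g * (c : R) - (c : R) * t * (c : R)) *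
        Ring.inverse q' * t =
      (g - r * Ring.inverse q * t) * (Ring.inverse q' * q) := by
  have hc : ∀ x : R, (c : R) * x = x * (c : R) := fun x => (Int.cast_commute c x).eq
  have e1 : q' * Ring.inverse q' = 1 := Ring.mul_inverse_cancel _ hq'
  have e2 : Ring.inverse q' * q' = 1 := Ring.inverse_mul_cancel _ hq'
  have e3 : Ring.inverse q * q = 1 := Ring.inverse_mul_cancel _ hq
  set p := Ring.inverse q' with hp
  have hqq : q = q' + t * (c : R) := by rw [h]; abel
  -- p q = 1 + c p t
  have e4 : p * q = 1 + (c : R) * (p * t) := by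
    rw [hqq, mul_add, e2, ← mul_assoc, hc]
  have e5 : q * p = 1 + (c : R) * (t * p) := by
    rw [hqq, add_mul, e1, ← hc t, mul_assoc]
  have e6 : t * (p * q) = q * p * t := by
    rw [e4, e5, mul_add, add_mul, mul_one, one_mul]
    congr 1
    rw [← mul_assoc, ← hc t]
    simp only [mul_assoc]
  have e7 : r * Ring.inverse q * t * (p * q) = r * p * t := by
    rw [mul_assoc _ t, e6]
    rw [mul_assoc q, ← mul_assoc (r * Ring.inverse q), mul_assoc r, e3, mul_one, mul_assoc]
  rw [sub_mul g _ (p * q), e7, e4, mul_add g, mul_one]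
  have e8 : (r + (c : R) * q - g * (c : R) - (c : R) * t * (c : R)) =
      r + (c : R) * q' - (c : R) * g := by
    rw [hqq, mul_add, ← hc g]
    rw [mul_assoc]
    abel
  rw [e8, sub_mul, sub_mul, add_mul, add_mul]
  have e9 : (c : R) * q' * p * t = (c : R) * t := by
    rw [mul_assoc (c : R), e1, mul_one]
  have e10 : g * ((c : R) * (p * t)) = (c : R) * g * p * t := by
    rw [← mul_assoc, ← hc g]
    simp only [mul_assoc]
  rw [e9, e10]
  abel

private theorem piv_two {J : Ideal R} [J.IsTwoSided] (hJ : IsNilpotent J) {n : ℕ}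
    {M : Matrix (Fin (n + 2)) (Fin (n + 2)) R} (hM : PIn J (M - 1)) :
    pivProd (n + 2) M = pivProd n ((M.submatrix Fin.succ Fin.succ).submatrix Fin.succ Fin.succ) *
      Ring.inverse (Ring.inverse M 1 1 - Ring.inverse M 1 0 *
        Ring.inverse (Ring.inverse M 0 0) * Ring.inverse M 0 1) *
      Ring.inverse (Ring.inverse M 0 0) := by
  show pivProd n ((M.submatrix Fin.succ Fin.succ).submatrix Fin.succ Fin.succ) *
    Ring.inverse ((Ring.inverse (M.submatrix Fin.succ Fin.succ)) 0 0) *
    Ring.inverse (Ring.inverse M 0 0) = _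
  rw [piv_schur hJ hM]
  rfl

private theorem piv_s_unit {J : Ideal R} [J.IsTwoSided] (hJ : IsNilpotent J) {n : ℕ}
    {M : Matrix (Fin (n + 2)) (Fin (n + 2)) R} (hM : PIn J (M - 1)) :
    IsUnit (Ring.inverse M 1 1 - Ring.inverse M 1 0 *
        Ring.inverse (Ring.inverse M 0 0) * Ring.inverse M 0 1) := by
  have h := piv_unit00 hJ (piv_sub hM)
  rwa [piv_schur hJ hM] at h

private theorem piv_adj {J : Ideal R} [J.IsTwoSided] (hJ : IsNilpotent J)
    {Γ : Type*} [CommMonoid Γ] (D : R →* Γ) {N : ℕ} :
    ∀ (M : Matrix (Fin N) (Fin N) R) (_ : PIn J (M - 1)) (a b : Fin N) (_ : a ≠ b)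
      (_ : (a : ℕ) + 1 = b ∨ (b : ℕ) + 1 = a) (c : ℤ),
    D (pivProd N ((1 + Matrix.single a b (c : R)) * M * (1 - Matrix.single a b (c : R))))
      = D (pivProd N M) := by
  induction N with
  | zero => intro M _ a; exact a.elim0
  | succ N ih =>
    intro M hM a b hab hadj c
    have hM' := piv_conj_in hM (pivE a b hab (c : R))
    have hinv := piv_inverse_conj (pivE a b hab (c : R)) M
    change PIn J ((1 + Matrix.single a b (c : R)) * M * (1 - Matrix.single a b (c : R)) - 1)
      at hM'
    change Ring.inverse ((1 + Matrix.single a b (c : R)) * M * (1 - Matrix.single a b (c : R))) =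
      (1 + Matrix.single a b (c : R)) * Ring.inverse M * (1 - Matrix.single a b (c : R)) at hinv
    by_cases ha : a = 0
    · subst ha
      obtain ⟨b, rfl⟩ : ∃ b' : Fin N, b = b'.succ := ⟨b.pred hab.symm, by simp⟩
      have hb : (b : ℕ) = 0 := by
        rcases hadj with h | h
        · simpa using h.symm
        · simp at h
      cases N with
      | zero => exact b.elim0
      | succ n =>
        obtain rfl : b = 0 := Fin.ext hb
        change PIn J ((1 + Matrix.single 0 1 (c : R)) * M * (1 - Matrix.single 0 1 (c : R)) - 1)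
          at hM'
        change Ring.inverse ((1 + Matrix.single 0 1 (c : R)) * M *
          (1 - Matrix.single 0 1 (c : R))) = (1 + Matrix.single 0 1 (c : R)) * Ring.inverse M *
          (1 - Matrix.single 0 1 (c : R)) at hinv
        change D (pivProd (n + 2) ((1 + Matrix.single 0 1 (c : R)) * M *
          (1 - Matrix.single 0 1 (c : R)))) = _
        rw [piv_two hJ hM', piv_two hJ hM]
        have hsub : (((1 + Matrix.single 0 1 (c : R)) * M *
            (1 - Matrix.single 0 1 (c : R))).submatrix Fin.succ Fin.succ).submatrix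
              Fin.succ Fin.succ = (M.submatrix Fin.succ Fin.succ).submatrix Fin.succ Fin.succ := by
          ext i j
          rw [Matrix.submatrix_apply, Matrix.submatrix_apply, piv_conj_apply,
            if_neg (Fin.succ_ne_zero _), if_neg (Fin.succ_ne_zero _), if_neg]
          · simp
          · intro h
            have h2 := congrArg Fin.val h
            simp at h2
        rw [hsub, piv_map3, piv_map3]
        congr 1
        have hq := piv_unit00 hJ hM
        have hq' := piv_unit00 hJ hM'
        refine (piv_D D hq (piv_s_unit hJ hM) hq' (piv_s_unit hJ hM') ?_).symm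
        rw [hinv] at hq' ⊢
        have g00 : ((1 + Matrix.single 0 1 (c : R)) * Ring.inverse M *
            (1 - Matrix.single 0 1 (c : R)) : Matrix (Fin (n + 2)) (Fin (n + 2)) R) 0 0 =
            Ring.inverse M 0 0 + (c : R) * Ring.inverse M 1 0 := by
          rw [piv_conj_apply]
          simp
        have g01 : ((1 + Matrix.single 0 1 (c : R)) * Ring.inverse M *
            (1 - Matrix.single 0 1 (c : R)) : Matrix (Fin (n + 2)) (Fin (n + 2)) R) 0 1 =
            Ring.inverse M 0 1 + (c : R) * Ring.inverse M 1 1 -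
              (Ring.inverse M 0 0 + (c : R) * Ring.inverse M 1 0) * (c : R) := by
          rw [piv_conj_apply]
          simp only [if_pos]
          rw [add_mul]
          abel
        have g10 : ((1 + Matrix.single 0 1 (c : R)) * Ring.inverse M *
            (1 - Matrix.single 0 1 (c : R)) : Matrix (Fin (n + 2)) (Fin (n + 2)) R) 1 0 =
            Ring.inverse M 1 0 := by
          rw [piv_conj_apply]
          simp
        have g11 : ((1 + Matrix.single 0 1 (c : R)) * Ring.inverse M *
            (1 - Matrix.single 0 1 (c : R)) : Matrix (Fin (n + 2)) (Fin (n + 2)) R) 1 1 =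
            Ring.inverse M 1 1 - Ring.inverse M 1 0 * (c : R) := by
          rw [piv_conj_apply]
          simp
        rw [g00] at hq'
        rw [g00, g01, g10, g11, piv_calc1 hq hq' rfl, map_mul, map_mul]
        set G := Ring.inverse M
        have hu : D (G 0 0 + (c : R) * G 1 0) * D (Ring.inverse (G 0 0 + (c : R) * G 1 0)) = 1 := by
          rw [← map_mul, Ring.mul_inverse_cancel _ hq', map_one]
        exact piv_cm1 hu
    · by_cases hb : b = 0
      · subst hb
        obtain ⟨a, rfl⟩ : ∃ a' : Fin N, a = a'.succ := ⟨a.pred ha, by simp⟩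
        have ha' : (a : ℕ) = 0 := by
          rcases hadj with h | h
          · simp at h
          · simpa using h.symm
        cases N with
        | zero => exact a.elim0
        | succ n =>
          obtain rfl : a = 0 := Fin.ext ha'
          change PIn J ((1 + Matrix.single 1 0 (c : R)) * M * (1 - Matrix.single 1 0 (c : R)) - 1)
            at hM'
          change Ring.inverse ((1 + Matrix.single 1 0 (c : R)) * M *
            (1 - Matrix.single 1 0 (c : R))) = (1 + Matrix.single 1 0 (c : R)) * Ring.inverse M *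
            (1 - Matrix.single 1 0 (c : R)) at hinv
          change D (pivProd (n + 2) ((1 + Matrix.single 1 0 (c : R)) * M *
            (1 - Matrix.single 1 0 (c : R)))) = _
          rw [piv_two hJ hM', piv_two hJ hM]
          have hsub : (((1 + Matrix.single 1 0 (c : R)) * M *
              (1 - Matrix.single 1 0 (c : R))).submatrix Fin.succ Fin.succ).submatrix
                Fin.succ Fin.succ =
                (M.submatrix Fin.succ Fin.succ).submatrix Fin.succ Fin.succ := by
            ext i j
            have h1 : i.succ.succ ≠ (1 : Fin (n + 2)) := by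
              intro h
              have h2 := congrArg Fin.val h
              simp at h2
            rw [Matrix.submatrix_apply, Matrix.submatrix_apply, piv_conj_apply,
              if_neg h1, if_neg h1, if_neg (Fin.succ_ne_zero _)]
            simp
          rw [hsub, piv_map3, piv_map3]
          congr 1
          have hq := piv_unit00 hJ hM
          have hq' := piv_unit00 hJ hM'
          refine (piv_D D hq (piv_s_unit hJ hM) hq' (piv_s_unit hJ hM') ?_).symm
          rw [hinv] at hq' ⊢
          have g00 : ((1 + Matrix.single 1 0 (c : R)) * Ring.inverse M *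
              (1 - Matrix.single 1 0 (c : R)) : Matrix (Fin (n + 2)) (Fin (n + 2)) R) 0 0 =
              Ring.inverse M 0 0 - Ring.inverse M 0 1 * (c : R) := by
            rw [piv_conj_apply]
            simp
          have g01 : ((1 + Matrix.single 1 0 (c : R)) * Ring.inverse M *
              (1 - Matrix.single 1 0 (c : R)) : Matrix (Fin (n + 2)) (Fin (n + 2)) R) 0 1 =
              Ring.inverse M 0 1 := by
            rw [piv_conj_apply]
            simp
          have g10 : ((1 + Matrix.single 1 0 (c : R)) * Ring.inverse M *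
              (1 - Matrix.single 1 0 (c : R)) : Matrix (Fin (n + 2)) (Fin (n + 2)) R) 1 0 =
              Ring.inverse M 1 0 + (c : R) * Ring.inverse M 0 0 - Ring.inverse M 1 1 * (c : R) -
                (c : R) * Ring.inverse M 0 1 * (c : R) := by
            rw [piv_conj_apply]
            simp
          have g11 : ((1 + Matrix.single 1 0 (c : R)) * Ring.inverse M *
              (1 - Matrix.single 1 0 (c : R)) : Matrix (Fin (n + 2)) (Fin (n + 2)) R) 1 1 =
              Ring.inverse M 1 1 + (c : R) * Ring.inverse M 0 1 := by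
            rw [piv_conj_apply]
            simp
          rw [g00] at hq'
          rw [g00, g01, g10, g11, piv_calc2 hq hq' rfl, map_mul, map_mul D (Ring.inverse _)]
          set G := Ring.inverse M
          have hu : D (G 0 0 - G 0 1 * (c : R)) * D (Ring.inverse (G 0 0 - G 0 1 * (c : R))) = 1 := by
            rw [← map_mul, Ring.mul_inverse_cancel _ hq', map_one]
          exact piv_cm2 hu
      · obtain ⟨a, rfl⟩ : ∃ a' : Fin N, a = a'.succ := ⟨a.pred ha, by simp⟩
        obtain ⟨b, rfl⟩ : ∃ b' : Fin N, b = b'.succ := ⟨b.pred hb, by simp⟩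
        have hab' : a ≠ b := fun h => hab (by rw [h])
        have hadj' : (a : ℕ) + 1 = b ∨ (b : ℕ) + 1 = a := by
          simpa using hadj
        show D (pivProd N (((1 + Matrix.single a.succ b.succ (c : R)) * M *
          (1 - Matrix.single a.succ b.succ (c : R))).submatrix Fin.succ Fin.succ) *
          Ring.inverse ((Ring.inverse ((1 + Matrix.single a.succ b.succ (c : R)) * M *
          (1 - Matrix.single a.succ b.succ (c : R)))) 0 0)) =
          D (pivProd N (M.submatrix Fin.succ Fin.succ) * Ring.inverse ((Ring.inverse M) 0 0))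
        have hsub : ((1 + Matrix.single a.succ b.succ (c : R)) * M *
            (1 - Matrix.single a.succ b.succ (c : R))).submatrix Fin.succ Fin.succ =
            (1 + Matrix.single a b (c : R)) * (M.submatrix Fin.succ Fin.succ) *
              (1 - Matrix.single a b (c : R)) := by
          ext i j
          rw [Matrix.submatrix_apply, piv_conj_apply, piv_conj_apply]
          simp only [Fin.succ_inj, Matrix.submatrix_apply]
        have h00 : ((1 + Matrix.single a.succ b.succ (c : R)) * Ring.inverse M *
            (1 - Matrix.single a.succ b.succ (c : R))) 0 0 = Ring.inverse M 0 0 := by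
          rw [piv_conj_apply, if_neg (Fin.succ_ne_zero _).symm, if_neg (Fin.succ_ne_zero _).symm,
            if_neg (Fin.succ_ne_zero _).symm]
          simp
        rw [hsub, hinv, h00, map_mul, map_mul, ih _ (piv_sub hM) a b hab' hadj' c]

/-- the group of the invertible matrices for which the claim holds. -/
private def pivGrp {J : Ideal R} [J.IsTwoSided] {Γ : Type*} [CommMonoid Γ] (D : R →* Γ) (N : ℕ)
    (_ : IsNilpotent J) : Subgroup (Matrix (Fin N) (Fin N) R)ˣ where
  carrier := {u | ∀ M : Matrix (Fin N) (Fin N) R, PIn J (M - 1) →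
    D (pivProd N ((u : Matrix (Fin N) (Fin N) R) * M *
      ((u⁻¹ : (Matrix (Fin N) (Fin N) R)ˣ) : Matrix (Fin N) (Fin N) R))) = D (pivProd N M)}
  one_mem' := by
    intro M _
    simp
  mul_mem' := by
    intro u v hu hv M hM
    have h1 := hu _ (piv_conj_in hM v)
    rw [hv M hM] at h1
    rw [← h1]
    congr 2
    rw [Units.val_mul, mul_inv_rev, Units.val_mul]
    simp only [mul_assoc]
  inv_mem' := by
    intro u hu M hM
    have h1 := hu _ (piv_conj_in hM u⁻¹)
    rw [← h1]
    congr 2
    simp [mul_assoc]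

private theorem piv_comm {n : ℕ} (a d b : Fin n) (hab : a ≠ b) (had : a ≠ d) (hdb : d ≠ b)
    (c : R) : pivE a b hab c = pivE a d had c * pivE d b hdb 1 * (pivE a d had c)⁻¹ *
      (pivE d b hdb (1 : R))⁻¹ := by
  apply Units.ext
  show 1 + Matrix.single a b c = (1 + Matrix.single a d c) * (1 + Matrix.single d b (1 : R)) *
    (1 - Matrix.single a d c) * (1 - Matrix.single d b (1 : R))
  have hAA : Matrix.single a d c * Matrix.single a d c = 0 :=
    Matrix.single_mul_single_of_ne c a d a had.symm c
  have hBB : Matrix.single d b (1 : R) * Matrix.single d b (1 : R) = 0 :=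
    Matrix.single_mul_single_of_ne 1 d b d hdb.symm 1
  have hBA : Matrix.single d b (1 : R) * Matrix.single a d c = 0 :=
    Matrix.single_mul_single_of_ne 1 d b a hab.symm c
  have hAB : Matrix.single a d c * Matrix.single d b (1 : R) = Matrix.single a b c := by
    rw [Matrix.single_mul_single_same, mul_one]
  set A := Matrix.single a d c
  set B := Matrix.single d b (1 : R)
  rw [← hAB]
  have h1 : (1 + A) * (1 + B) * (1 - A) = 1 + B + A * B := by
    have h : (1 + A) * (1 + B) * (1 - A) =
        1 + B + A * B - A * A - B * A - A * (B * A) := by noncomm_ring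
    rw [h, hAA, hBA]
    simp
  rw [h1]
  have h2 : (1 + B + A * B) * (1 - B) = 1 + A * B - B * B - A * (B * B) := by noncomm_ring
  rw [h2, hBB]
  simp

private theorem piv_mem {J : Ideal R} [J.IsTwoSided] (hJ : IsNilpotent J)
    {Γ : Type*} [CommMonoid Γ] (D : R →* Γ) {N : ℕ} (k : ℕ) :
    ∀ (a b : Fin N) (hab : a ≠ b) (c : ℤ), ((a : ℕ) + k + 1 = b ∨ (b : ℕ) + k + 1 = a) →
      pivE a b hab (c : R) ∈ pivGrp D N hJ := by
  induction k with
  | zero =>
    intro a b hab c h M hM
    exact piv_adj hJ D M hM a b hab (by simpa using h) c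
  | succ k ih =>
    intro a b hab c h
    rcases h with h | h
    · -- a < b
      have hd : (b : ℕ) - 1 < N := by omega
      have had : a ≠ ⟨(b : ℕ) - 1, hd⟩ := by
        intro e
        have := congrArg Fin.val e
        simp only at this
        omega
      have hdb : (⟨(b : ℕ) - 1, hd⟩ : Fin N) ≠ b := by
        intro e
        have := congrArg Fin.val e
        simp only at this
        omega
      rw [piv_comm a ⟨(b : ℕ) - 1, hd⟩ b hab had hdb]
      have m1 := ih a ⟨(b : ℕ) - 1, hd⟩ had c (Or.inl (by simp only; omega))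
      have m2 : pivE (⟨(b : ℕ) - 1, hd⟩ : Fin N) b hdb (1 : R) ∈ pivGrp D N hJ := by
        have h3 : pivE (⟨(b : ℕ) - 1, hd⟩ : Fin N) b hdb ((1 : ℤ) : R) ∈ pivGrp D N hJ :=
          fun M hM => piv_adj hJ D M hM _ _ hdb (Or.inl (by simp only; omega)) 1
        rwa [Int.cast_one] at h3
      exact mul_mem (mul_mem (mul_mem m1 m2) (inv_mem m1)) (inv_mem m2)
    · -- b < a
      have hd : (b : ℕ) + 1 < N := by omega
      have had : a ≠ ⟨(b : ℕ) + 1, hd⟩ := by
        intro e
        have := congrArg Fin.val e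
        simp only at this
        omega
      have hdb : (⟨(b : ℕ) + 1, hd⟩ : Fin N) ≠ b := by
        intro e
        have := congrArg Fin.val e
        simp only at this
        omega
      rw [piv_comm a ⟨(b : ℕ) + 1, hd⟩ b hab had hdb]
      have m1 := ih a ⟨(b : ℕ) + 1, hd⟩ had c (Or.inr (by simp only; omega))
      have m2 : pivE (⟨(b : ℕ) + 1, hd⟩ : Fin N) b hdb (1 : R) ∈ pivGrp D N hJ := by
        have h3 : pivE (⟨(b : ℕ) + 1, hd⟩ : Fin N) b hdb ((1 : ℤ) : R) ∈ pivGrp D N hJ :=
          fun M hM => piv_adj hJ D M hM _ _ hdb (Or.inr (by simp only)) 1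
        rwa [Int.cast_one] at h3
      exact mul_mem (mul_mem (mul_mem m1 m2) (inv_mem m1)) (inv_mem m2)

end Piv

theorem pivProd_conj {R : Type*} [Ring R] (J : Ideal R) [J.IsTwoSided] (hJ : IsNilpotent J)
    {Γ : Type*} [CommMonoid Γ] (D : R →* Γ) {N : ℕ} (M : Matrix (Fin N) (Fin N) R)
    (hM : ∀ i j, (M - 1) i j ∈ J) (a b : Fin N) (hab : a ≠ b) (c : ℤ) :
    D (pivProd N ((1 + Matrix.single a b (c : R)) * M * (1 - Matrix.single a b (c : R))))
      = D (pivProd N M) := by
  have h1 : (a : ℕ) ≠ b := fun h => hab (Fin.ext h)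
  rcases lt_or_gt_of_ne h1 with h | h
  · exact piv_mem hJ D ((b : ℕ) - a - 1) a b hab c (Or.inl (by omega)) M hM
  · exact piv_mem hJ D ((a : ℕ) - b - 1) a b hab c (Or.inr (by omega)) M hM

theorem pivProd_diag {R : Type*} [Ring R] {N : ℕ} (M : Matrix (Fin N) (Fin N) R)
    (d : Fin N → Rˣ) (hd : ∀ i r, (d i : R) * r = r * d i) :
    pivProd N (Matrix.of fun i j => (d i : R) * M i j * ((d j)⁻¹ : Rˣ)) = pivProd N M := by
  induction N with
  | zero => rfl
  | succ N ih =>
    show pivProd N ((Matrix.of fun i j => (d i : R) * M i j * ((d j)⁻¹ : Rˣ)).submatrix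
      Fin.succ Fin.succ) * Ring.inverse ((Ring.inverse
        (Matrix.of fun i j => (d i : R) * M i j * ((d j)⁻¹ : Rˣ))) 0 0) =
      pivProd N (M.submatrix Fin.succ Fin.succ) * Ring.inverse ((Ring.inverse M) 0 0)
    have h1 : (Matrix.of fun i j => (d i : R) * M i j * ((d j)⁻¹ : Rˣ)).submatrix
        Fin.succ Fin.succ = Matrix.of fun i j => (d (Fin.succ i) : R) *
          (M.submatrix Fin.succ Fin.succ) i j * ((d (Fin.succ j))⁻¹ : Rˣ) := rfl
    rw [h1, ih (M.submatrix Fin.succ Fin.succ) (fun i => d i.succ) (fun i => hd i.succ)]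
    congr 2
    let u : (Matrix (Fin (N + 1)) (Fin (N + 1)) R)ˣ :=
      { val := Matrix.diagonal fun i => (d i : R)
        inv := Matrix.diagonal fun i => ((d i)⁻¹ : Rˣ)
        val_inv := by
          rw [Matrix.diagonal_mul_diagonal]
          simp
        inv_val := by
          rw [Matrix.diagonal_mul_diagonal]
          simp }
    have h2 : (Matrix.of fun i j => (d i : R) * M i j * ((d j)⁻¹ : Rˣ)) =
        (u : Matrix (Fin (N + 1)) (Fin (N + 1)) R) * M *
          ((u⁻¹ : (Matrix (Fin (N + 1)) (Fin (N + 1)) R)ˣ) :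
            Matrix (Fin (N + 1)) (Fin (N + 1)) R) := by
      ext i j
      show _ = (Matrix.diagonal (fun i => (d i : R)) * M *
        Matrix.diagonal (fun i => (((d i)⁻¹ : Rˣ) : R))) i j
      rw [Matrix.mul_diagonal, Matrix.diagonal_mul, Matrix.of_apply]
    rw [h2, piv_inverse_conj]
    show (Matrix.diagonal (fun i => (d i : R)) * Ring.inverse M *
        Matrix.diagonal (fun i => (((d i)⁻¹ : Rˣ) : R))) 0 0 = _
    rw [Matrix.mul_diagonal, Matrix.diagonal_mul, hd, mul_assoc, Units.mul_inv, mul_one]

end TF
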