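import Pool.Agent.H66.TF.FinalDefs
import Pool.Agent.H66.TF.Defs
import Pool.Agent.H66.TF.TIdeals

/-!
# TF-RING: from T-ideals of `FA` to free PI rings (the translation)

`hint` is the internal theorem for T-ideals of `FA` (unital free ring on `ℕ`).

(0) Dictionary: for a non-unital ring `R` and `a : ℕ → R`, the homomorphism `FreeRng ℕ → R` sending the
letters to `a` (`MonoidAlgebra.liftMagma`, `FreeSemigroup.lift`) is the restriction of
`ev (fun i => (a i : Unitization ℤ R)) : FA → Unitization ℤ R` along the injective non-unital homomorphism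
`j : FreeRng ℕ → FA` induced by `FreeSemigroup ℕ → FreeMonoid ℕ`, whose range is `Fplus`. Every
non-unital homomorphism `FreeRng X → R` is of the form of letters-to-`a` form (`ℤ`-linear automatically).

(1) Let `A` be a free PI ring, `pA = 0`, with `π : FreeRng X → A` surjective with kernel `TVariety S X`.
Let `T = {f ∈ Fplus | f vanishes under all substitutions of elements of A}` (via `Unitization ℤ A`). It is
a T-ideal, contains `p Fplus` and a polynomial with a coefficient `±1` (`A` is PI), not divisible by `p`.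
`hint` gives `Q ⊆ T`, pure, T-ideal, with a unit coefficient.

(2) `S' = {f : FreeRng ℕ | j f ∈ Q}`. `T_X = {f : FreeRng X | ∀ φ : FreeRng X →ₙ+* FreeRng ℕ, j (φ f) ∈ Q}`.
`B = FreeRng X ⧸ T_X` (e.g. as the range of a homomorphism, or `RingCon` quotient; or define
`B` = the range of the homomorphism `FreeRng X → ∏_φ (FA ⧸ Q)`, a non-unital subring of a product).
  - `T_X = TVariety S' X`: `f ∈ TVariety S' X`: `B` itself is in the variety of `S'` (a homomorphism
    `ψ : FreeRng ℕ → B` lifts to `FreeRng ℕ → FreeRng X`; composing with `φ : FreeRng X → FreeRng ℕ` gives an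
    endomorphism, `Q` is a T-ideal), so `f` is `0` in `B`. Conversely let `f ∈ T_X`, `R` in the variety of
    `S'`, `χ : FreeRng X → R`. `f` involves finitely many letters of `X`; there are `φ : FreeRng X → FreeRng ℕ`
    (injective on these letters, the other letters ↦ 0) and `χ' : FreeRng ℕ → R` with
    `χ' (φ f) = χ f`; `φ f ∈ S'`, so `χ f = 0`.
  - `B` is torsion-free (`Q` pure), PI (`Q` has an element `g` with a coefficient `±1`; `g` is satisfied by
    `B`, as above).
  - `T_X ⊆ ker π`: `f ∈ T_X`; `A` satisfies `Q` (`Q ⊆ T`), i.e. `A` is in the variety of `S'`; so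
    `f ∈ TVariety S' X` is satisfied by `A`, in particular `π f = 0`. Hence the epimorphism `B → A`.
`X` is the same nonempty set. Universe: `A : Type u`, `X : Type u`, everything in `Type u`.
-/

universe u v

namespace TF

namespace RingFormAux

open Unitization

/-- a letter -/
noncomputable def ltr {X : Type u} (x : X) : FreeRng X :=
  MonoidAlgebra.single (FreeSemigroup.of x) 1

theorem hom_ext {X : Type u} {R : Type v} [NonUnitalRing R] {f g : FreeRng X →ₙ+* R}
    (h : ∀ x, f (ltr x) = g (ltr x)) : f = g := by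
  have hw : ∀ w : FreeSemigroup X,
      f (MonoidAlgebra.single w 1) = g (MonoidAlgebra.single w 1) := by
    intro w
    induction w using FreeSemigroup.recOnMul with
    | ih1 x => exact h x
    | ih2 x y hx hy =>
      have e : (MonoidAlgebra.single (FreeSemigroup.of x * y) 1 : FreeRng X) =
          MonoidAlgebra.single (FreeSemigroup.of x) 1 * MonoidAlgebra.single y 1 := by
        rw [MonoidAlgebra.single_mul_single, one_mul]
      rw [e, map_mul, map_mul, hx, hy]
  apply DFunLike.ext
  intro z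
  induction z using MonoidAlgebra.induction_linear with
  | zero => rw [map_zero, map_zero]
  | add a b ha hb => rw [map_add, map_add, ha, hb]
  | single w r =>
    have e : (MonoidAlgebra.single w r : FreeRng X) = r • MonoidAlgebra.single w 1 := by
      rw [MonoidAlgebra.smul_single, smul_eq_mul, mul_one]
    rw [e, map_zsmul, map_zsmul, hw]

/-- the homomorphism with prescribed images of the letters -/
noncomputable def fh {X : Type u} {R : Type v} [NonUnitalRing R] (a : X → R) :
    FreeRng X →ₙ+* R :=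
  ((MonoidAlgebra.liftMagma ℤ (FreeSemigroup.lift a) : FreeRng X →ₙₐ[ℤ] R) : FreeRng X →ₙ+* R)

theorem fh_ltr {X : Type u} {R : Type v} [NonUnitalRing R] (a : X → R) (x : X) :
    fh a (ltr x) = a x := by
  change (MonoidAlgebra.liftMagma ℤ (FreeSemigroup.lift a) : FreeRng X →ₙₐ[ℤ] R)
    (MonoidAlgebra.single (FreeSemigroup.of x) 1) = a x
  simp

theorem eq_fh {X : Type u} {R : Type v} [NonUnitalRing R] (f : FreeRng X →ₙ+* R) :
    f = fh (fun x => f (ltr x)) := by
  apply hom_ext
  intro x
  rw [fh_ltr]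

/-- words to words -/
def io : FreeSemigroup ℕ →ₙ* FreeMonoid ℕ where
  toFun w := FreeMonoid.ofList (w.head :: w.tail)
  map_mul' x y := by
    rw [FreeSemigroup.head_mul, FreeSemigroup.tail_mul]
    rfl

theorem io_injective : Function.Injective io := by
  intro x y h
  have h' : x.head :: x.tail = y.head :: y.tail := h
  rw [List.cons.injEq] at h'
  cases x
  cases y
  simp_all

theorem io_ne_one (w : FreeSemigroup ℕ) : io w ≠ 1 := by
  intro h
  have h' : w.head :: w.tail = [] := h
  exact absurd h' (by simp)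

theorem exists_io (m : FreeMonoid ℕ) (hm : m ≠ 1) : ∃ w, io w = m := by
  have h : m.toList ≠ [] := hm
  obtain ⟨x, l, hl⟩ := List.exists_cons_of_ne_nil h
  exact ⟨⟨x, l⟩, by
    show FreeMonoid.ofList (x :: l) = m
    rw [← hl]
    rfl⟩

/-- the embedding into the unital free ring -/
noncomputable def jj : FreeRng ℕ →ₙ+* FA where
  toFun := MonoidAlgebra.mapDomain io
  map_mul' x y := MonoidAlgebra.mapDomain_mul io x y
  map_zero' := MonoidAlgebra.mapDomain_zero io
  map_add' x y := MonoidAlgebra.mapDomain_add io x y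

theorem jj_apply (f : FreeRng ℕ) : jj f = MonoidAlgebra.mapDomain io f := rfl

theorem jj_ltr (i : ℕ) : jj (ltr i) = xx i := by
  rw [jj_apply, ltr, MonoidAlgebra.mapDomain_single]
  rfl

theorem jj_coeff (f : FreeRng ℕ) (w : FreeSemigroup ℕ) : (jj f).coeff (io w) = f.coeff w :=
  Finsupp.mapDomain_apply io_injective _ _

theorem ct_jj (f : FreeRng ℕ) : ct (jj f) = 0 := by
  apply Finsupp.mapDomain_of_notMem_range
  rintro ⟨w, hw⟩
  exact io_ne_one w hw

theorem exists_jj (g : FA) (hg : ct g = 0) : ∃ f, jj f = g := by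
  refine ⟨MonoidAlgebra.comapDomain io io_injective g, ?_⟩
  apply MonoidAlgebra.mapDomain_comapDomain
  intro m hm
  apply exists_io
  rintro rfl
  exact (Finsupp.mem_support_iff.1 hm) hg

theorem ev_comp' {R S : Type*} [Ring R] [Ring S] (a : ℕ → R) (f : R →+* S) (g : FA) :
    f (ev a g) = ev (fun i => f (a i)) g := by
  have h : (f.comp (ev a)) = ev (fun i => f (a i)) := by
    apply MonoidAlgebra.ringHom_ext
    · intro r
      simp [ev]
    · intro w
      simp only [RingHom.coe_comp, Function.comp_apply, ev, AlgHom.toRingHom_eq_coe,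
        RingHom.coe_coe, MonoidAlgebra.lift_single, one_smul]
      induction w using FreeMonoid.inductionOn with
      | one => simp
      | of x => simp
      | mul x y hx hy => simp [hx, hy]
  exact congrArg (fun φ : FA →+* S => φ g) h

theorem ev_xx' {R : Type*} [Ring R] (a : ℕ → R) (i : ℕ) : ev a (xx i) = a i := by
  simp [ev, xx]

theorem ct_eq (g : FA) : ct g = ev (fun _ => (0 : ℤ)) g := by
  induction g using MonoidAlgebra.induction_linear with
  | zero =>
    rw [map_zero]
    rfl
  | add a b ha hb =>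
    rw [map_add, ← ha, ← hb]
    rfl
  | single w r =>
    rw [ct, MonoidAlgebra.coeff_single]
    simp only [ev, AlgHom.toRingHom_eq_coe, RingHom.coe_coe, MonoidAlgebra.lift_single]
    by_cases hw : w = 1
    · subst hw
      simp
    · obtain ⟨v, rfl⟩ := exists_io w hw
      rw [Finsupp.single_eq_of_ne (io_ne_one v).symm]
      have : io v = FreeMonoid.of v.head * FreeMonoid.ofList v.tail := rfl
      rw [this, map_mul, FreeMonoid.lift_eval_of, zero_mul, smul_zero]

theorem ct_mul (f g : FA) : ct (f * g) = ct f * ct g := by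
  rw [ct_eq, ct_eq, ct_eq, map_mul]

/-- `ev` as a homomorphism of non-unital rings -/
noncomputable def evN {S : Type v} [Ring S] (a : ℕ → S) : FA →ₙ+* S where
  toFun := ev a
  map_mul' x y := map_mul (ev a) x y
  map_zero' := map_zero (ev a)
  map_add' x y := map_add (ev a) x y

theorem ev_jj {R : Type v} [NonUnitalRing R] (a : ℕ → R) (f : FreeRng ℕ) :
    ev (fun i => (inr (a i) : Unitization ℤ R)) (jj f) = inr (fh a f) := by
  have hw : ∀ w : FreeSemigroup ℕ,
      ev (fun i => (inr (a i) : Unitization ℤ R)) (jj (MonoidAlgebra.single w 1)) =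
        inr (fh a (MonoidAlgebra.single w 1)) := by
    intro w
    induction w using FreeSemigroup.recOnMul with
    | ih1 x =>
      have h1 : (MonoidAlgebra.single (FreeSemigroup.of x) 1 : FreeRng ℕ) = ltr x := rfl
      rw [h1, jj_ltr, fh_ltr, ev_xx']
    | ih2 x y hx hy =>
      have e : (MonoidAlgebra.single (FreeSemigroup.of x * y) 1 : FreeRng ℕ) =
          MonoidAlgebra.single (FreeSemigroup.of x) 1 * MonoidAlgebra.single y 1 := by
        rw [MonoidAlgebra.single_mul_single, one_mul]
      rw [e, map_mul, map_mul, map_mul, hx, hy, inr_mul]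
  induction f using MonoidAlgebra.induction_linear with
  | zero => rw [map_zero, map_zero, map_zero, inr_zero]
  | add a b ha hb => rw [map_add, map_add, map_add, ha, hb, inr_add]
  | single w r =>
    have e : (MonoidAlgebra.single w r : FreeRng ℕ) = r • MonoidAlgebra.single w 1 := by
      rw [MonoidAlgebra.smul_single, smul_eq_mul, mul_one]
    rw [e, map_zsmul, map_zsmul, map_zsmul, hw, inr_smul]

theorem ev_eq_inr {R : Type v} [NonUnitalRing R] (a : ℕ → R) (g : FA) (hg : ct g = 0) :
    ∃ r : R, ev (fun i => (inr (a i) : Unitization ℤ R)) g = inr r := by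
  obtain ⟨f, rfl⟩ := exists_jj g hg
  exact ⟨_, ev_jj a f⟩

theorem ev_jj_fh (b : ℕ → FreeRng ℕ) (f : FreeRng ℕ) :
    ev (fun i => jj (b i)) (jj f) = jj (fh b f) := by
  have h : (evN (fun i => jj (b i))).comp jj = jj.comp (fh b) := by
    apply hom_ext
    intro x
    change ev (fun i => jj (b i)) (jj (ltr x)) = jj (fh b (ltr x))
    rw [jj_ltr, fh_ltr, ev_xx']
  exact congrArg (fun φ : FreeRng ℕ →ₙ+* FA => φ f) h

/-! ### The T-ideal of a ring -/

/-- the identities of `A` in `FA` -/
noncomputable def TA (A : Type v) [NonUnitalRing A] : Submodule ℤ FA where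
  carrier := {f | ct f = 0 ∧ ∀ a : ℕ → A, ev (fun i => (inr (a i) : Unitization ℤ A)) f = 0}
  add_mem' := by
    rintro f g ⟨hf, hf'⟩ ⟨hg, hg'⟩
    refine ⟨?_, fun a => ?_⟩
    · rw [ct_eq, map_add, ← ct_eq, ← ct_eq, hf, hg, add_zero]
    · rw [map_add, hf' a, hg' a, add_zero]
  zero_mem' := by
    refine ⟨?_, fun a => ?_⟩
    · rw [ct_eq, map_zero]
    · rw [map_zero]
  smul_mem' := by
    rintro n f ⟨hf, hf'⟩
    refine ⟨?_, fun a => ?_⟩
    · rw [ct_eq, map_zsmul, ← ct_eq, hf, smul_zero]
    · rw [map_zsmul, hf' a, smul_zero]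

theorem isTI_TA (A : Type v) [NonUnitalRing A] : IsTI (TA A) where
  aug f hf := hf.1
  left g f hf := by
    refine ⟨?_, fun a => ?_⟩
    · rw [ct_mul, hf.1, mul_zero]
    · rw [map_mul, hf.2 a, mul_zero]
  right g f hf := by
    refine ⟨?_, fun a => ?_⟩
    · rw [ct_mul, hf.1, zero_mul]
    · rw [map_mul, hf.2 a, zero_mul]
  subst b hb f hf := by
    refine ⟨?_, fun a => ?_⟩
    · rw [ct_ev b hb, hf.1]
    · choose c hc using fun i => ev_eq_inr a (b i) (hb i)
      rw [ev_comp']
      have : (fun i => (ev fun i => (inr (a i) : Unitization ℤ A)) (b i)) =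
          fun i => (inr (c i) : Unitization ℤ A) := funext hc
      rw [this]
      exact hf.2 c

theorem satisfies_of_mem_TA {A : Type v} [NonUnitalRing A] (f : FreeRng ℕ) (hf : jj f ∈ TA A) :
    Satisfies A f := by
  intro φ
  have h := hf.2 (fun x => φ (ltr x))
  rw [ev_jj, ← eq_fh φ] at h
  have h0 : (inr (φ f) : Unitization ℤ A) = inr 0 := by rw [h, inr_zero]
  exact inr_injective h0

/-! ### Finitely many letters -/

open Classical in
/-- retraction onto the subring generated by the letters in `F` -/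
noncomputable def retr {X : Type u} (F : Finset X) : FreeRng X →ₙ+* FreeRng X :=
  fh (fun x => if x ∈ F then ltr x else 0)

theorem retr_retr {X : Type u} {F F' : Finset X} (h : F ⊆ F') (f : FreeRng X) :
    retr F' (retr F f) = retr F f := by
  classical
  have e : (retr F').comp (retr F) = retr F := by
    apply hom_ext
    intro x
    rw [NonUnitalRingHom.comp_apply, retr, retr, fh_ltr]
    by_cases hx : x ∈ F
    · rw [if_pos hx, fh_ltr, if_pos (h hx)]
    · rw [if_neg hx, map_zero]
  exact congrArg (fun φ : FreeRng X →ₙ+* FreeRng X => φ f) e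

theorem retr_mono {X : Type u} {F F' : Finset X} (h : F ⊆ F') (f : FreeRng X)
    (hf : retr F f = f) : retr F' f = f := by
  have := retr_retr h f
  rwa [hf] at this

theorem exists_retr {X : Type u} (f : FreeRng X) : ∃ F : Finset X, retr F f = f := by
  classical
  have hw : ∀ w : FreeSemigroup X, ∃ F : Finset X,
      retr F (MonoidAlgebra.single w 1) = MonoidAlgebra.single w 1 := by
    intro w
    induction w using FreeSemigroup.recOnMul with
    | ih1 x =>
      refine ⟨{x}, ?_⟩
      have : retr {x} (ltr x) = ltr x := by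
        rw [retr, fh_ltr, if_pos (Finset.mem_singleton_self x)]
      exact this
    | ih2 x y hx hy =>
      obtain ⟨F1, h1⟩ := hx
      obtain ⟨F2, h2⟩ := hy
      refine ⟨F1 ∪ F2, ?_⟩
      have e : (MonoidAlgebra.single (FreeSemigroup.of x * y) 1 : FreeRng X) =
          MonoidAlgebra.single (FreeSemigroup.of x) 1 * MonoidAlgebra.single y 1 := by
        rw [MonoidAlgebra.single_mul_single, one_mul]
      rw [e, map_mul, retr_mono Finset.subset_union_left _ h1,
        retr_mono Finset.subset_union_right _ h2]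
  induction f using MonoidAlgebra.induction_linear with
  | zero => exact ⟨∅, map_zero _⟩
  | add a b ha hb =>
    obtain ⟨F1, h1⟩ := ha
    obtain ⟨F2, h2⟩ := hb
    exact ⟨F1 ∪ F2, by rw [map_add, retr_mono Finset.subset_union_left _ h1,
        retr_mono Finset.subset_union_right _ h2]⟩
  | single w r =>
    obtain ⟨F, hF⟩ := hw w
    refine ⟨F, ?_⟩
    have e : (MonoidAlgebra.single w r : FreeRng X) = r • MonoidAlgebra.single w 1 := by
      rw [MonoidAlgebra.smul_single, smul_eq_mul, mul_one]
    rw [e, map_zsmul, hF]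

/-- every homomorphism agrees on `f` with one that factors through `FreeRng ℕ` -/
theorem exists_factor {X : Type u} {R : Type v} [NonUnitalRing R] (χ : FreeRng X →ₙ+* R)
    (f : FreeRng X) : ∃ (φ : FreeRng X →ₙ+* FreeRng ℕ) (χ' : FreeRng ℕ →ₙ+* R),
      χ' (φ f) = χ f := by
  classical
  obtain ⟨F, hF⟩ := exists_retr f
  -- an enumeration of the letters in `F`
  let e : F ≃ Fin F.card := F.equivFin
  let φ : FreeRng X →ₙ+* FreeRng ℕ :=
    fh (fun x => if hx : x ∈ F then ltr ((e ⟨x, hx⟩ : Fin F.card) : ℕ) else 0)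
  let χ' : FreeRng ℕ →ₙ+* R :=
    fh (fun i => if hi : i < F.card then χ (ltr (e.symm ⟨i, hi⟩ : X)) else 0)
  refine ⟨φ, χ', ?_⟩
  have h : χ'.comp φ = χ.comp (retr F) := by
    apply hom_ext
    intro x
    rw [NonUnitalRingHom.comp_apply, NonUnitalRingHom.comp_apply, retr, fh_ltr]
    simp only [χ']
    rw [fh_ltr]
    by_cases hx : x ∈ F
    · rw [dif_pos hx, if_pos hx, fh_ltr, dif_pos (e ⟨x, hx⟩).2]
      simp
    · rw [dif_neg hx, if_neg hx, map_zero, map_zero]
  have h2 : χ' (φ f) = χ (retr F f) :=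
    congrArg (fun ψ : FreeRng X →ₙ+* R => ψ f) h
  rw [h2, hF]

/-! ### The ring `B` -/

/-- a T-ideal as a two-sided ideal of `FA` -/
noncomputable def toId {T : Submodule ℤ FA} (h : IsTI T) : Ideal FA where
  carrier := T
  add_mem' := T.add_mem
  zero_mem' := T.zero_mem
  smul_mem' := fun c _ hx => h.left c _ hx

instance toId_twoSided {T : Submodule ℤ FA} (h : IsTI T) : (toId h).IsTwoSided :=
  ⟨fun {a} b ha => h.right b a ha⟩

theorem mk_eq_zero {T : Submodule ℤ FA} (h : IsTI T) (f : FA) :
    Ideal.Quotient.mk (toId h) f = 0 ↔ f ∈ T := by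
  rw [Ideal.Quotient.eq_zero_iff_mem]
  exact Iff.rfl

/-- the homomorphism into the product -/
noncomputable def PhiX (X : Type u) {Q : Submodule ℤ FA} (hQ : IsTI Q) :
    FreeRng X →ₙ+* ((FreeRng X →ₙ+* FreeRng ℕ) → FA ⧸ toId hQ) where
  toFun f := fun φ => Ideal.Quotient.mk (toId hQ) (jj (φ f))
  map_mul' x y := by
    funext φ
    simp only [map_mul, Pi.mul_apply]
  map_zero' := by
    funext φ
    simp only [map_zero, Pi.zero_apply]
  map_add' x y := by
    funext φ
    simp only [map_add, Pi.add_apply]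

theorem PhiX_eq_zero (X : Type u) {Q : Submodule ℤ FA} (hQ : IsTI Q) (f : FreeRng X) :
    PhiX X hQ f = 0 ↔ ∀ φ : FreeRng X →ₙ+* FreeRng ℕ, jj (φ f) ∈ Q := by
  constructor
  · intro h φ
    rw [← mk_eq_zero hQ]
    exact congrFun h φ
  · intro h
    funext φ
    exact (mk_eq_zero hQ _).2 (h φ)

end RingFormAux

open RingFormAux

theorem ring_form
    (hint : ∀ (T : Submodule ℤ FA), IsTI T → ∀ (p : ℕ), p.Prime →
      (∀ f, ct f = 0 → (p : ℤ) • f ∈ T) → ∀ f ∈ T, (∃ w, ¬ (p : ℤ) ∣ f.coeff w) →
      ∃ Q : Submodule ℤ FA, IsTI Q ∧ IsPure Q ∧ HasUnit Q ∧ Q ≤ T)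
    (p : ℕ) (hp : p.Prime) (A : Type u) [NonUnitalRing A] (hA : IsFreePIRing A)
    (hpA : ∀ a : A, p • a = 0) :
    ∃ (B : Type u) (_ : NonUnitalRing B), IsFreePIRing B ∧
      (∀ (n : ℕ) (b : B), n ≠ 0 → n • b = 0 → b = 0) ∧
      ∃ φ : B →ₙ+* A, Function.Surjective φ := by
  obtain ⟨⟨f0, ⟨w0, hw0⟩, hf0⟩, X, hX, S, π, hπ, hker⟩ := hA
  -- the internal theorem
  have hf0T : jj f0 ∈ TA A := by
    refine ⟨ct_jj f0, fun a => ?_⟩
    rw [ev_jj, hf0 (fh a), Unitization.inr_zero]
  obtain ⟨Q, hQ, hpure, ⟨g, hgQ, w, hw⟩, hQT⟩ := hint (TA A) (isTI_TA A) p hp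
    (by
      intro f hf
      refine ⟨by rw [ct_eq, map_zsmul, ← ct_eq, hf, smul_zero], fun a => ?_⟩
      obtain ⟨r, hr⟩ := ev_eq_inr a f hf
      rw [map_zsmul, hr, ← Unitization.inr_smul, natCast_zsmul, hpA, Unitization.inr_zero])
    (jj f0) hf0T
    (by
      refine ⟨io w0, ?_⟩
      rw [jj_coeff]
      intro hdvd
      have h1 : (p : ℤ) ∣ 1 := by
        rcases hw0 with h | h
        · rwa [h] at hdvd
        · rw [h] at hdvd
          exact (dvd_neg.1 hdvd)
      have h2 := Int.le_of_dvd one_pos h1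
      have h3 := hp.two_le
      omega)
  let S' : Set (FreeRng ℕ) := {f | jj f ∈ Q}
  let B : NonUnitalSubring ((FreeRng X →ₙ+* FreeRng ℕ) → FA ⧸ toId hQ) := (PhiX X hQ).range
  let Φ : FreeRng X →ₙ+* B := (PhiX X hQ).rangeRestrict
  have hΦsurj : Function.Surjective Φ := (PhiX X hQ).rangeRestrict_surjective
  have hΦ0 : ∀ f, Φ f = 0 ↔ ∀ φ : FreeRng X →ₙ+* FreeRng ℕ, jj (φ f) ∈ Q := by
    intro f
    rw [← PhiX_eq_zero X hQ f]
    constructor
    · intro h
      exact congrArg Subtype.val h
    · intro h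
      exact Subtype.ext h
  -- `B` is in the variety
  have hBvar : InVariety S' B := by
    intro f hf ψ
    choose h hh using fun i => hΦsurj (ψ (ltr i))
    have e : ψ = Φ.comp (fh h) := by
      apply hom_ext
      intro i
      rw [NonUnitalRingHom.comp_apply, fh_ltr, hh]
    rw [e, NonUnitalRingHom.comp_apply, hΦ0]
    intro φ
    have e2 : φ (fh h f) = fh (fun i => φ (h i)) f := by
      have e3 : φ.comp (fh h) = fh (fun i => φ (h i)) := by
        apply hom_ext
        intro i
        rw [NonUnitalRingHom.comp_apply, fh_ltr, fh_ltr]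
      exact congrArg (fun ψ : FreeRng ℕ →ₙ+* FreeRng ℕ => ψ f) e3
    rw [e2, ← ev_jj_fh]
    exact hQ.subst _ (fun i => ct_jj _) _ hf
  -- the kernel of `Φ` is the T-ideal of the variety
  have hkerΦ : ∀ f, Φ f = 0 ↔ f ∈ TVariety S' X := by
    intro f
    constructor
    · intro hf R _ hR χ
      obtain ⟨φ, χ', hχ⟩ := exists_factor χ f
      rw [← hχ]
      exact hR (φ f) ((hΦ0 f).1 hf φ) χ'
    · intro hf
      exact hf B hBvar Φ
  -- `A` is in the variety
  have hAvar : InVariety S' A := fun f hf => satisfies_of_mem_TA f (hQT hf)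
  have hle : ∀ f, Φ f = 0 → π f = 0 := fun f hf => (hkerΦ f).1 hf A hAvar π
  have hwd : ∀ f g, Φ f = Φ g → π f = π g := by
    intro f g h
    have h1 : Φ (f - g) = 0 := by rw [map_sub, h, sub_self]
    have h2 := hle _ h1
    rwa [map_sub, sub_eq_zero] at h2
  refine ⟨B, inferInstance, ⟨?_, X, hX, S', Φ, hΦsurj, hkerΦ⟩, ?_, ?_⟩
  · obtain ⟨g', rfl⟩ := exists_jj g (hQ.aug g hgQ)
    have hw1 : w ≠ 1 := by
      rintro rfl
      have h0 : (jj g').coeff 1 = 0 := ct_jj g'
      rw [h0] at hw
      omega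
    obtain ⟨w', rfl⟩ := exists_io w hw1
    rw [jj_coeff] at hw
    exact ⟨g', ⟨w', hw⟩, hBvar g' hgQ⟩
  · intro n b hn hb
    obtain ⟨f, rfl⟩ := hΦsurj b
    rw [← map_nsmul, hΦ0] at hb
    rw [hΦ0]
    intro φ
    have h1 := hb φ
    rw [map_nsmul, map_nsmul] at h1
    apply hpure (n : ℤ) _ (by exact_mod_cast hn)
    rwa [natCast_zsmul]
  · choose s hs using hΦsurj
    refine ⟨{ toFun := fun b => π (s b), map_mul' := ?_, map_zero' := ?_, map_add' := ?_ }, ?_⟩
    · intro a b
      rw [← map_mul]
      apply hwd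
      rw [hs, map_mul, hs, hs]
    · apply hle
      rw [hs]
    · intro a b
      rw [← map_add]
      apply hwd
      rw [hs, map_add, hs, hs]
    · intro a
      obtain ⟨f, rfl⟩ := hπ a
      refine ⟨Φ f, ?_⟩
      exact hwd _ _ (hs _)

end TF
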