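import Pool.Agent.H66.TF.Theta

/-!
# TF-ROWDEG: `Θ` has degree at most `m` in the row `0`

`R` with an increasing multiplicative filtration `Fl : ℕ → AddSubgroup R` (`1 ∈ Fl 0`,
`Fl i * Fl j ⊆ Fl (i+j)`), `J` nilpotent, `T` with entries in `J`, row `0` of `T` in `Fl 1`, the other
rows in `Fl 0`; `Y` central entries, row `0` in `Fl 1`, the others in `Fl 0`; `x, z, w` in `P ∩ Fl 0`, ring
elements of `L` in `Fl 0`. Then `theta L x z w (1 + T) Y ∈ Fl m` (`m ≥ 1`).

Proof. `M = 1 + T = [[1+T₀₀, β], [γ, δ]]`, `δ = M_{≥1}` has an inverse with entries in `Fl 0` (`δ = 1 + T'`,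
`δ⁻¹ = ∑ (-T')^j`), also `pivProd N δ ∈ Fl 0` (all the pivots of `δ` and their inverses are in `Fl 0`: a
unit `1 + j`, `j ∈ J ∩ Fl 0` nilpotent, has inverse `∑ (-j)^i ∈ Fl 0`). `s = 1 + T₀₀ - β δ⁻¹ γ ∈ Fl 1` is
a unit, `(M⁻¹)_{00} = s⁻¹`, `pivProd (N+1) M = pivProd N δ * s`, and
`(M⁻¹)_{ab} = c_a s⁻¹ r_b + [a, b ≥ 1] (δ⁻¹)_{ab}` with `c_0 = 1`, `c_a = -(δ⁻¹γ)_a`, `r_0 = 1`,
`r_b = -(β δ⁻¹)_b` (verify by multiplying). `c_a ∈ Fl 0`, `r_b ∈ Fl 1` for `b ≥ 1`.
By `FL_comm`, `FL L x (pivProd M z) = FL L x (s z')`, `z' = pivProd N δ * z ∈ P ∩ Fl 0`, and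
`= FL L (s x) z'` (`FL_switch`). For `y ∈ P`, `FL_cramer` for `s x` and left multiplication by `s⁻¹`:
`s⁻¹ y FL L (s x) z' = ∑_i x_i FL L (update (s x) i y) z'`, which is in `Fl ((m-1) + e)` if `y ∈ Fl e`
(the value of a generalised monomial in which the slots are filled by elements of `Fl e_v` is in
`Fl (∑ e_v)`). So the contribution of `(a, b)`: `Y_{ba} c_a s⁻¹ (r_b w) FL` is in
`Fl ([b = 0] + (m - 1) + [b ≥ 1]) = Fl m`, and `Y_{ba} (δ⁻¹)_{ab} w FL L (s x) z' ∈ Fl m` for `a, b ≥ 1`.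
-/

open Finset Equiv

namespace TF

namespace RowDegAux

variable {R : Type*} [Ring R]

theorem gev_mem (Fl : ℕ → AddSubgroup R) (hF1 : (1 : R) ∈ Fl 0)
    (hFmul : ∀ i j x y, x ∈ Fl i → y ∈ Fl j → x * y ∈ Fl (i + j)) {ι : Type*}
    (f : ι → R) (e : ι → ℕ) (hf : ∀ v, f v ∈ Fl (e v)) :
    ∀ L : List (R ⊕ ι), (∀ r : R, Sum.inl r ∈ L → r ∈ Fl 0) →
      gev f L ∈ Fl (((L.filterMap Sum.getRight?).map e).sum) := by
  intro L
  induction L with
  | nil => intro _; simpa [gev] using hF1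
  | cons a L ih =>
    intro hL
    have h1 := ih (fun r hr => hL r (List.mem_cons_of_mem _ hr))
    cases a with
    | inl r =>
      have h2 := hFmul 0 _ r _ (hL r (by simp)) h1
      rw [zero_add] at h2
      have h3 : (Sum.inl r :: L : List (R ⊕ ι)).filterMap Sum.getRight? =
          L.filterMap Sum.getRight? := List.filterMap_cons_none (by rfl)
      rw [h3]
      simpa [gev] using h2
    | inr v =>
      have h2 := hFmul _ _ _ _ (hf v) h1
      simpa [gev] using h2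

omit [Ring R] in
theorem once_sum {ι : Type*} [DecidableEq ι] [Fintype ι] (L : List (R ⊕ ι)) (hL : Once L)
    (e : ι → ℕ) : ((L.filterMap Sum.getRight?).map e).sum = ∑ v, e v := by
  have hp : (L.filterMap Sum.getRight?).Perm (Finset.univ : Finset ι).toList := by
    rw [List.perm_iff_count]
    intro i
    rw [hL i, List.count_eq_one_of_mem (Finset.nodup_toList _) (by simp)]
  rw [(hp.map e).sum_eq]
  exact Finset.sum_map_toList _ e

theorem FL_mem (Fl : ℕ → AddSubgroup R) (hF1 : (1 : R) ∈ Fl 0)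
    (hFmul : ∀ i j x y, x ∈ Fl i → y ∈ Fl j → x * y ∈ Fl (i + j)) {m : ℕ}
    (L : List (R ⊕ (Fin m ⊕ Fin m))) (hL : Once L) (hLF : ∀ r : R, Sum.inl r ∈ L → r ∈ Fl 0)
    (x z : Fin m → R) (ex ez : Fin m → ℕ) (hx : ∀ i, x i ∈ Fl (ex i))
    (hz : ∀ i, z i ∈ Fl (ez i)) : FL L x z ∈ Fl (∑ i, ex i + ∑ i, ez i) := by
  refine sum_mem fun σ _ => sum_mem fun τ _ => ?_
  refine AddSubgroup.zsmul_mem _ ?_ _
  have h := gev_mem Fl hF1 hFmul (Sum.elim (x ∘ σ) (z ∘ τ)) (Sum.elim (ex ∘ σ) (ez ∘ τ))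
    (by rintro (v | v); exacts [hx _, hz _]) L hLF
  rw [once_sum L hL, Fintype.sum_sum_type] at h
  simp only [Sum.elim_inl, Sum.elim_inr, Function.comp] at h
  rwa [Equiv.sum_comp σ ex, Equiv.sum_comp τ ez] at h

/-- A matrix with entries in a nilpotent ideal is nilpotent. -/
theorem isNilpotent_matrix (J : Ideal R) [J.IsTwoSided] (hJ : IsNilpotent J) {N : ℕ}
    (T : Matrix (Fin N) (Fin N) R) (hT : ∀ i j, T i j ∈ J) : IsNilpotent T := by
  obtain ⟨k, hk⟩ := hJ
  have key : ∀ k : ℕ, ∀ i j, (T ^ k) i j ∈ J ^ k := by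
    intro k
    induction k with
    | zero =>
      intro i j
      have e1 : J ^ 0 = ⊤ := by rw [Submodule.pow_zero, Ideal.one_eq_top]
      rw [e1]
      trivial
    | succ k ih =>
      intro i j
      have e1 : J ^ (k + 1) = J ^ k * J := Submodule.pow_succ J
      rw [e1, pow_succ, Matrix.mul_apply]
      exact sum_mem fun l _ => Ideal.mul_mem_mul (ih i l) (hT l j)
  refine ⟨k, ?_⟩
  ext i j
  have h := key k i j
  rw [hk] at h
  simpa using h

theorem isUnit_matrix (J : Ideal R) [J.IsTwoSided] (hJ : IsNilpotent J) {N : ℕ}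
    (T : Matrix (Fin N) (Fin N) R) (hT : ∀ i j, T i j ∈ J) : IsUnit (1 + T) :=
  (isNilpotent_matrix J hJ T hT).isUnit_one_add

theorem isNilpotent_elem (J : Ideal R) [J.IsTwoSided] (hJ : IsNilpotent J) {t : R} (ht : t ∈ J) :
    IsNilpotent t := by
  obtain ⟨k, hk⟩ := hJ
  refine ⟨k, ?_⟩
  have h := Ideal.pow_mem_pow ht k
  rw [hk] at h
  simpa using h

/-- The inverse of a matrix `1 + T`, entries of `T` in `J ∩ S`. -/
theorem inverse_mem (S : Subring R) (J : Ideal R) [J.IsTwoSided] (hJ : IsNilpotent J) {N : ℕ}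
    (T : Matrix (Fin N) (Fin N) R) (hT : ∀ i j, T i j ∈ J) (hS : ∀ i j, T i j ∈ S) :
    (∀ i j, Ring.inverse (1 + T) i j ∈ S) ∧ ∀ i j, (Ring.inverse (1 + T) - 1) i j ∈ J := by
  have hu := isUnit_matrix J hJ T hT
  constructor
  · let T0 : Matrix (Fin N) (Fin N) S := fun i j => ⟨T i j, hS i j⟩
    let φ : Matrix (Fin N) (Fin N) S →+* Matrix (Fin N) (Fin N) R := S.subtype.mapMatrix
    have hφ : Function.Injective φ := by
      intro A B h
      ext i j
      exact congrFun (congrFun h i) j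
    have hT0 : φ T0 = T := by
      ext i j
      rfl
    have hn : IsNilpotent T0 := by
      obtain ⟨k, hk⟩ := isNilpotent_matrix J hJ T hT
      refine ⟨k, hφ ?_⟩
      rw [map_pow, hT0, hk, map_zero]
    obtain ⟨u, hu0⟩ := hn.isUnit_one_add
    have h1 : (1 + T) * φ (↑u⁻¹ : Matrix (Fin N) (Fin N) S) = 1 := by
      rw [← hT0, ← map_one φ, ← map_add, ← hu0, ← map_mul, Units.mul_inv]
    have h2 : Ring.inverse (1 + T) = φ (↑u⁻¹ : Matrix (Fin N) (Fin N) S) :=
      (left_inv_eq_right_inv (Ring.inverse_mul_cancel _ hu) h1)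
    intro i j
    rw [h2]
    exact ((↑u⁻¹ : Matrix (Fin N) (Fin N) S) i j).2
  · intro i j
    have h3 : Ring.inverse (1 + T) - 1 = - (Ring.inverse (1 + T) * T) := by
      have h4 := Ring.inverse_mul_cancel _ hu
      rw [mul_add, mul_one] at h4
      exact sub_eq_of_eq_add (by rw [← sub_eq_iff_eq_add'.2 h4.symm]; abel)
    rw [h3, Matrix.neg_apply, Matrix.mul_apply]
    exact neg_mem (sum_mem fun l _ => J.mul_mem_left _ (hT l j))

theorem inverse_elem_mem (S : Subring R) (J : Ideal R) [J.IsTwoSided] (hJ : IsNilpotent J)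
    (t : R) (ht : t ∈ J) (hS : t ∈ S) : Ring.inverse (1 + t) ∈ S := by
  have hu : IsUnit (1 + t) := (isNilpotent_elem J hJ ht).isUnit_one_add
  have hn : IsNilpotent (⟨t, hS⟩ : S) := by
    obtain ⟨k, hk⟩ := isNilpotent_elem J hJ ht
    exact ⟨k, Subtype.ext (by simpa using hk)⟩
  obtain ⟨u, hu0⟩ := hn.isUnit_one_add
  have h1 : (1 + t) * ((↑u⁻¹ : S) : R) = 1 := by
    have h3 : (1 + t) = ((↑u : S) : R) := by rw [hu0]; rfl
    rw [h3, ← Subring.coe_mul, Units.mul_inv, Subring.coe_one]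
  have h2 : Ring.inverse (1 + t) = ((↑u⁻¹ : S) : R) :=
    (left_inv_eq_right_inv (Ring.inverse_mul_cancel _ hu) h1)
  rw [h2]
  exact (↑u⁻¹ : S).2

theorem pivProd_mem (S : Subring R) (J : Ideal R) [J.IsTwoSided] (hJ : IsNilpotent J) :
    ∀ (N : ℕ) (T : Matrix (Fin N) (Fin N) R), (∀ i j, T i j ∈ J) → (∀ i j, T i j ∈ S) →
      pivProd N (1 + T) ∈ S := by
  intro N
  induction N with
  | zero => intro T _ _; exact S.one_mem
  | succ N ih =>
    intro T hT hS
    have h1 : (1 + T).submatrix Fin.succ Fin.succ = 1 + T.submatrix Fin.succ Fin.succ := by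
      ext i j
      simp [Matrix.one_apply]
    rw [pivProd, h1]
    refine S.mul_mem (ih _ (fun i j => hT _ _) (fun i j => hS _ _)) ?_
    obtain ⟨h2, h3⟩ := inverse_mem S J hJ T hT hS
    have h4 : Ring.inverse (1 + T) 0 0 = 1 + (Ring.inverse (1 + T) - 1) 0 0 := by
      rw [Matrix.sub_apply, Matrix.one_apply_eq]
      abel
    rw [h4]
    refine inverse_elem_mem S J hJ _ (h3 0 0) ?_
    rw [Matrix.sub_apply, Matrix.one_apply_eq]
    exact S.sub_mem (h2 0 0) S.one_mem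

/-- Block inversion. -/
theorem block_inverse {N : ℕ} (M : Matrix (Fin (N + 1)) (Fin (N + 1)) R) (hM : IsUnit M)
    (D : Matrix (Fin N) (Fin N) R) (hD : M.submatrix Fin.succ Fin.succ * D = 1)
    (s s' : R) (hs : s = M 0 0 - ∑ k, ∑ l, M 0 (Fin.succ k) * (D k l * M (Fin.succ l) 0))
    (hs' : s * s' = 1) :
    Ring.inverse M = fun a b => (Fin.cases 1 (fun k => - ∑ l, D k l * M (Fin.succ l) 0) a : R) *
      (s' * (Fin.cases 1 (fun k => - ∑ l, M 0 (Fin.succ l) * D l k) b : R)) +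
      (Fin.cases 0 (fun k => Fin.cases 0 (fun l => D k l) b) a : R) := by
  set G : Matrix (Fin (N + 1)) (Fin (N + 1)) R := fun a b =>
    (Fin.cases 1 (fun k => - ∑ l, D k l * M (Fin.succ l) 0) a : R) *
      (s' * (Fin.cases 1 (fun k => - ∑ l, M 0 (Fin.succ l) * D l k) b : R)) +
      (Fin.cases 0 (fun k => Fin.cases 0 (fun l => D k l) b) a : R) with hG
  have hDe : ∀ a b, ∑ k, M (Fin.succ a) (Fin.succ k) * D k b = (1 : Matrix _ _ R) a b := by
    intro a b
    have h := congrFun (congrFun hD a) b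
    rw [Matrix.mul_apply] at h
    exact h
  have hDg : ∀ a, ∑ k, M (Fin.succ a) (Fin.succ k) * (∑ l, D k l * M (Fin.succ l) 0) =
      M (Fin.succ a) 0 := by
    intro a
    simp only [Finset.mul_sum]
    rw [Finset.sum_comm]
    simp only [← mul_assoc, ← Finset.sum_mul]
    simp only [hDe]
    simp [Matrix.one_apply]
  have hs2 : s = M 0 0 - ∑ k, M 0 (Fin.succ k) * (∑ l, D k l * M (Fin.succ l) 0) := by
    rw [hs]
    simp only [Finset.mul_sum]
  have hMG : M * G = 1 := by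
    ext a b
    rw [Matrix.mul_apply, Fin.sum_univ_succ]
    simp only [hG, Fin.cases_zero, Fin.cases_succ, one_mul, add_zero, mul_add, Finset.sum_add_distrib,
      mul_neg, neg_mul, Finset.sum_neg_distrib]
    have e1 : ∀ (r : R) (a : Fin (N + 1)),
        ∑ k : Fin N, M a (Fin.succ k) * ((∑ l, D k l * M (Fin.succ l) 0) * (s' * r)) =
        (∑ k : Fin N, M a (Fin.succ k) * (∑ l, D k l * M (Fin.succ l) 0)) * (s' * r) := by
      intro r a
      rw [Finset.sum_mul]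
      simp only [mul_assoc]
    rw [e1]
    refine Fin.cases ?_ (fun a => ?_) a
    · have e2 : M 0 0 * (s' * (Fin.cases 1 (fun k => - ∑ l, M 0 (Fin.succ l) * D l k) b : R)) -
          (∑ k : Fin N, M 0 (Fin.succ k) * (∑ l, D k l * M (Fin.succ l) 0)) *
          (s' * (Fin.cases 1 (fun k => - ∑ l, M 0 (Fin.succ l) * D l k) b : R)) =
          (Fin.cases 1 (fun k => - ∑ l, M 0 (Fin.succ l) * D l k) b : R) := by
        rw [← sub_mul, ← hs2, ← mul_assoc, hs', one_mul]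
      rw [← add_assoc, ← sub_eq_add_neg, e2]
      refine Fin.cases ?_ (fun b => ?_) b
      · simp
      · have e3 : (1 : Matrix (Fin (N + 1)) (Fin (N + 1)) R) 0 b.succ = 0 :=
          Matrix.one_apply_ne (Fin.succ_ne_zero b).symm
        rw [e3]
        simp
    · rw [hDg a, ← add_assoc, ← sub_eq_add_neg, sub_self, zero_add]
      refine Fin.cases ?_ (fun b => ?_) b
      · simp
      · simp only [Fin.cases_succ]
        rw [hDe a b]
        simp [Matrix.one_apply]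
  rw [← mul_one (Ring.inverse M), ← hMG, ← mul_assoc, Ring.inverse_mul_cancel _ hM, one_mul]

end RowDegAux

open RowDegAux

theorem theta_rowdeg {R : Type*} [Ring R] {P : AddSubgroup R} {m : ℕ} (hm : 1 ≤ m)
    (hP : TwoSided P) (hcap : CapR P (m + 1)) (J : Ideal R) [J.IsTwoSided] (hJ : IsNilpotent J)
    (Fl : ℕ → AddSubgroup R) (hF1 : (1 : R) ∈ Fl 0) (hFm : ∀ i j, i ≤ j → Fl i ≤ Fl j)
    (hFmul : ∀ i j x y, x ∈ Fl i → y ∈ Fl j → x * y ∈ Fl (i + j))
    {N : ℕ} (L : List (R ⊕ (Fin m ⊕ Fin m))) (hL : Once L)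
    (hLF : ∀ r : R, Sum.inl r ∈ L → r ∈ Fl 0)
    (x z : Fin m → R) (hx : ∀ i, x i ∈ P) (hz : ∀ i, z i ∈ P) (hxF : ∀ i, x i ∈ Fl 0)
    (hzF : ∀ i, z i ∈ Fl 0) (w : R) (hw : w ∈ P) (hwF : w ∈ Fl 0)
    (T Y : Matrix (Fin (N + 1)) (Fin (N + 1)) R) (hT : ∀ i j, T i j ∈ J)
    (hT0 : ∀ j, T 0 j ∈ Fl 1) (hT1 : ∀ i j, i ≠ 0 → T i j ∈ Fl 0)
    (hY : ∀ i j r, Y i j * r = r * Y i j)
    (hY0 : ∀ j, Y 0 j ∈ Fl 1) (hY1 : ∀ i j, i ≠ 0 → Y i j ∈ Fl 0) :
    theta L x z w (1 + T) Y ∈ Fl m := by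
  classical
  -- the subring `Fl 0`
  let S : Subring R :=
    { carrier := Fl 0
      mul_mem' := fun {a b} ha hb => hFmul 0 0 a b ha hb
      one_mem' := hF1
      add_mem' := fun {a b} ha hb => (Fl 0).add_mem ha hb
      zero_mem' := (Fl 0).zero_mem
      neg_mem' := fun {a} ha => (Fl 0).neg_mem ha }
  have hSF : ∀ r, r ∈ S ↔ r ∈ Fl 0 := fun r => Iff.rfl
  set M := 1 + T with hMdef
  have hMu : IsUnit M := isUnit_matrix J hJ T hT
  set T' := T.submatrix Fin.succ Fin.succ with hT'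
  have hT'J : ∀ i j, T' i j ∈ J := fun i j => hT _ _
  have hT'S : ∀ i j, T' i j ∈ S := fun i j => hT1 _ _ (Fin.succ_ne_zero i)
  have hsub : M.submatrix Fin.succ Fin.succ = 1 + T' := by
    ext i j
    simp [hMdef, hT', Matrix.one_apply]
  set D := Ring.inverse (1 + T') with hDdef
  obtain ⟨hDS, -⟩ := inverse_mem S J hJ T' hT'J hT'S
  have hD : M.submatrix Fin.succ Fin.succ * D = 1 := by
    rw [hsub]
    exact Ring.mul_inverse_cancel _ (isUnit_matrix J hJ T' hT'J)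
  have hM0s : ∀ k : Fin N, M 0 (Fin.succ k) = T 0 (Fin.succ k) := by
    intro k
    rw [hMdef, Matrix.add_apply, Matrix.one_apply_ne (Fin.succ_ne_zero k).symm, zero_add]
  have hMs0 : ∀ k : Fin N, M (Fin.succ k) 0 = T (Fin.succ k) 0 := by
    intro k
    rw [hMdef, Matrix.add_apply, Matrix.one_apply_ne (Fin.succ_ne_zero k), zero_add]
  have hM00 : M 0 0 = 1 + T 0 0 := by
    rw [hMdef, Matrix.add_apply, Matrix.one_apply_eq]
  -- the Schur complement
  set s := M 0 0 - ∑ k, ∑ l, M 0 (Fin.succ k) * (D k l * M (Fin.succ l) 0) with hsdef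
  have hsF : s ∈ Fl 1 := by
    refine (Fl 1).sub_mem ?_ (sum_mem fun k _ => sum_mem fun l _ => ?_)
    · rw [hM00]
      exact (Fl 1).add_mem (hFm 0 1 (by omega) hF1) (hT0 0)
    · rw [hM0s, hMs0]
      exact hFmul 1 0 _ _ (hT0 _) (hFmul 0 0 _ _ (hDS k l) (hT1 _ _ (Fin.succ_ne_zero l)))
  have hsu : IsUnit s := by
    have h1 : s = 1 + (T 0 0 - ∑ k, ∑ l, M 0 (Fin.succ k) * (D k l * M (Fin.succ l) 0)) := by
      rw [hsdef, hM00]
      abel
    rw [h1]
    refine (isNilpotent_elem J hJ ?_).isUnit_one_add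
    refine J.sub_mem (hT 0 0) (sum_mem fun k _ => sum_mem fun l _ => ?_)
    rw [hM0s, hMs0]
    exact J.mul_mem_left _ (J.mul_mem_left _ (hT _ _))
  obtain ⟨su, hsu⟩ := hsu
  have hss' : s * (↑su⁻¹ : R) = 1 := by rw [← hsu, Units.mul_inv]
  have hs's : (↑su⁻¹ : R) * s = 1 := by rw [← hsu, Units.inv_mul]
  have hinv := block_inverse M hMu D hD s (↑su⁻¹ : R) hsdef hss'
  -- the norm
  have hinv00 : Ring.inverse M 0 0 = (↑su⁻¹ : R) := by
    rw [hinv]
    simp
  have hpiv : pivProd (N + 1) M = pivProd N (1 + T') * s := by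
    rw [pivProd, hinv00, hsub, Ring.inverse_unit, inv_inv, hsu]
  have hq := pivProd_mem S J hJ N T' hT'J hT'S
  set q := pivProd N (1 + T') with hqdef
  set z' : Fin m → R := fun i => q * z i with hz'def
  have hz' : ∀ i, z' i ∈ P := fun i => hP.left _ _ (hz i)
  have hz'F : ∀ i, z' i ∈ Fl 0 := fun i => hFmul 0 0 _ _ hq (hzF i)
  have hsx : ∀ i, s * x i ∈ P := fun i => hP.left _ _ (hx i)
  have hsxF : ∀ i, s * x i ∈ Fl 1 := fun i => hFmul 1 0 _ _ hsF (hxF i)
  have hFL : FL L x (fun i => pivProd (N + 1) M * z i) = FL L (fun i => s * x i) z' := by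
    rw [hpiv, FL_switch hP hcap L hL x z' hx hz' s]
    simp only [mul_assoc]
    exact FL_comm hP hcap L hL x z hx hz q s
  have hFLF : FL L (fun i => s * x i) z' ∈ Fl m := by
    have h := FL_mem Fl hF1 hFmul L hL hLF (fun i => s * x i) z' (fun _ => 1) (fun _ => 0) hsxF hz'F
    simpa using h
  have hcr : ∀ (e : ℕ) (y : R), y ∈ P → y ∈ Fl e →
      (↑su⁻¹ : R) * (y * FL L (fun i => s * x i) z') ∈ Fl (m - 1 + e) := by
    intro e y hy hye
    rw [FL_cramer hcap L hL (fun i => s * x i) z' hsx y hy, Finset.mul_sum]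
    refine sum_mem fun i _ => ?_
    have h1 : (↑su⁻¹ : R) * (s * x i * FL L (Function.update (fun i => s * x i) i y) z') =
        x i * FL L (Function.update (fun i => s * x i) i y) z' := by
      rw [← mul_assoc, ← mul_assoc, hs's, one_mul]
    rw [h1]
    have h2 := FL_mem Fl hF1 hFmul L hL hLF (Function.update (fun i => s * x i) i y) z'
      (Function.update (fun _ => 1) i e) (fun _ => 0) (by
        intro j
        by_cases hj : j = i
        · subst hj
          simpa using hye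
        · simpa [Function.update_of_ne hj] using hsxF j) hz'F
    have h3 : ∑ j, Function.update (fun _ : Fin m => 1) i e j + ∑ _j : Fin m, 0 = m - 1 + e := by
      rw [Finset.sum_update_of_mem (Finset.mem_univ i)]
      simp [Finset.card_sdiff]
      omega
    rw [h3] at h2
    have h4 := hFmul 0 _ _ _ (hxF i) h2
    rwa [zero_add] at h4
  -- the sum
  rw [theta]
  refine sum_mem fun a _ => sum_mem fun b _ => ?_
  rw [hFL, hinv]
  set X := FL L (fun i => s * x i) z' with hX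
  -- the three families of coefficients
  have hc : (Fin.cases 1 (fun k => - ∑ l, D k l * M (Fin.succ l) 0) a : R) ∈ Fl 0 := by
    refine Fin.cases ?_ (fun a => ?_) a
    · exact hF1
    · refine (Fl 0).neg_mem (sum_mem fun l _ => ?_)
      rw [hMs0]
      exact hFmul 0 0 _ _ (hDS _ _) (hT1 _ _ (Fin.succ_ne_zero l))
  have hYb : Y b a ∈ Fl (if b = 0 then 1 else 0) := by
    split_ifs with h
    · rw [h]; exact hY0 a
    · exact hY1 _ _ h
  have hr : (Fin.cases 1 (fun k => - ∑ l, M 0 (Fin.succ l) * D l k) b : R) ∈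
      Fl (if b = 0 then 0 else 1) := by
    refine Fin.cases ?_ (fun b => ?_) b
    · simpa using hF1
    · rw [if_neg (Fin.succ_ne_zero b)]
      refine (Fl 1).neg_mem (sum_mem fun l _ => ?_)
      rw [hM0s]
      exact hFmul 1 0 _ _ (hT0 _) (hDS _ _)
  have hsplit : ∀ c r d : R, Y b a * ((c * ((↑su⁻¹ : R) * r) + d) * (w * X)) =
      Y b a * (c * ((↑su⁻¹ : R) * (r * w * X))) + Y b a * (d * (w * X)) := by
    intro c r d
    simp only [add_mul, mul_add, mul_assoc]
  beta_reduce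
  rw [hsplit]
  refine (Fl m).add_mem ?_ ?_
  · have h1 := hcr _ _ (hP.left (Fin.cases 1 (fun k => - ∑ l, M 0 (Fin.succ l) * D l k) b : R) w hw)
      (hFmul _ 0 _ _ hr hwF)
    have h2 := hFmul _ _ _ _ hYb (hFmul 0 _ _ _ hc h1)
    refine hFm _ _ ?_ h2
    split_ifs <;> omega
  · have hd : (Fin.cases 0 (fun k => Fin.cases 0 (fun l => D k l) b) a : R) = 0 ∨
        (b ≠ 0 ∧ (Fin.cases 0 (fun k => Fin.cases 0 (fun l => D k l) b) a : R) ∈ Fl 0) := by
      refine Fin.cases ?_ (fun a => ?_) a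
      · exact Or.inl rfl
      · refine Fin.cases ?_ (fun b => ?_) b
        · exact Or.inl rfl
        · exact Or.inr ⟨Fin.succ_ne_zero b, hDS a b⟩
    rcases hd with hd | ⟨hb, hd⟩
    · rw [hd, zero_mul, mul_zero]
      exact (Fl m).zero_mem
    · rw [if_neg hb] at hYb
      have h2 := hFmul 0 _ _ _ hYb (hFmul 0 _ _ _ hd (hFmul 0 _ _ _ hwF hFLF))
      simpa using h2

end TF
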