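import Pool.Agent.H66.TF.ArrDefs

/-!
# TF-SUB: the substitution lemma

`Move s t θ c` pairs `θ` with the coefficient of `X^c` in the substitution
`X_{s j} ↦ X_{s j} + X_{t j}` (the other variables are fixed).

Proof: fix `d`. `∏_v (subP s t v)^{d v} = ∏_{v ∉ im s} X_v^{d v} · ∏_j (X_{s j} + X_{t j})^{d (s j)}`,
and `(X_{s j} + X_{t j})^{d (s j)} = ∑_κ C(d (s j), κ) X_{s j}^{d (s j) - κ} X_{t j}^{κ}`. As `s`, `t`
are injective with disjoint ranges, the coefficient of `X^c` is non-zero only if `d = mv s t κ c` for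
a (unique) `κ ≤ c ∘ t` (namely `κ j = c (t j) - d (t j)`), and then it is
`∏_j C(c (s j) + κ j, κ j)`. The map `κ ↦ mv s t κ c` is injective on `κ ≤ c ∘ t` and preserves the
total, so it lands in `piAntidiag univ (∑ v, c v)`.

It may be easiest to compute the coefficient via expansion of
`∏_j (X_{s j} + X_{t j})^{d (s j)}` with `Finset.prod_univ_sum`/`Finset.prod_sum`.
-/

open Finset

namespace TF

/-- substitution `X_{s j} ↦ X_{s j} + X_{t j}`, other variables fixed -/
noncomputable def subP {σ ι : Type*} [Fintype ι] [DecidableEq σ] (s t : ι → σ) (v : σ) :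
    MvPolynomial σ ℤ :=
  MvPolynomial.X v + ∑ j ∈ univ.filter (fun j => s j = v), MvPolynomial.X (t j)

set_option linter.unusedSectionVars false

section mvlemmas

variable {σ ι : Type*} [DecidableEq σ] [Fintype ι] [DecidableEq ι] (s t : ι → σ)

theorem filter_inj (hs : Function.Injective s) (j : ι) :
    univ.filter (fun i => s i = s j) = {j} := by
  ext i
  simp [hs.eq_iff]

theorem filter_ne (hst : ∀ i j, s i ≠ t j) (j : ι) :
    univ.filter (fun i => s i = t j) = ∅ := by
  ext i
  simp [hst]

theorem filter_ne' (hst : ∀ i j, s i ≠ t j) (j : ι) :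
    univ.filter (fun i => t i = s j) = ∅ := by
  ext i
  simp only [mem_filter, mem_univ, true_and, notMem_empty, iff_false]
  exact fun h => hst j i h.symm

theorem mv_s (hs : Function.Injective s) (hst : ∀ i j, s i ≠ t j) (κ : ι → ℕ) (c : σ → ℕ)
    (j : ι) : mv s t κ c (s j) = c (s j) + κ j := by
  unfold mv
  rw [filter_inj s hs, filter_ne' s t hst]
  simp

theorem mv_t (ht : Function.Injective t) (hst : ∀ i j, s i ≠ t j) (κ : ι → ℕ) (c : σ → ℕ)
    (j : ι) : mv s t κ c (t j) = c (t j) - κ j := by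
  unfold mv
  rw [filter_inj t ht, filter_ne s t hst]
  simp

theorem mv_o (κ : ι → ℕ) (c : σ → ℕ) (v : σ) (h1 : ∀ j, s j ≠ v) (h2 : ∀ j, t j ≠ v) :
    mv s t κ c v = c v := by
  unfold mv
  rw [Finset.filter_false_of_mem (fun j _ => h1 j), Finset.filter_false_of_mem (fun j _ => h2 j)]
  simp

theorem sum_mv [Fintype σ] (ht : Function.Injective t) (κ : ι → ℕ) (c : σ → ℕ)
    (hκ : ∀ j, κ j ≤ c (t j)) :
    ∑ v, mv s t κ c v = ∑ v, c v := by
  unfold mv
  rw [Finset.sum_tsub_distrib]
  · rw [Finset.sum_add_distrib, Finset.sum_fiberwise, Finset.sum_fiberwise]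
    omega
  · intro v _
    by_cases hv : ∃ j, t j = v
    · obtain ⟨j, rfl⟩ := hv
      rw [filter_inj t ht]
      simp only [sum_singleton]
      exact le_trans (hκ j) (Nat.le_add_right _ _)
    · push Not at hv
      rw [Finset.filter_false_of_mem (s := univ) (p := fun j => t j = v) (fun j _ => hv j)]
      simp

end mvlemmas

section coef

variable {σ ι : Type*} [Fintype σ] [DecidableEq σ] [Fintype ι] [DecidableEq ι] (s t : ι → σ)

theorem subP_s (hs : Function.Injective s) (j : ι) :
    subP s t (s j) = MvPolynomial.X (s j) + MvPolynomial.X (t j) := by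
  unfold subP
  rw [filter_inj s hs]
  simp

theorem subP_o (v : σ) (h1 : ∀ j, s j ≠ v) : subP s t v = MvPolynomial.X v := by
  unfold subP
  rw [Finset.filter_false_of_mem (fun j _ => h1 j)]
  simp

/-- exponent of the monomial attached to `κ` -/
noncomputable def expo (d : σ → ℕ) (κ : ι → ℕ) : σ →₀ ℕ :=
  ∑ v ∈ (univ.image s)ᶜ, Finsupp.single v (d v) +
    ∑ j, (Finsupp.single (s j) (d (s j) - κ j) + Finsupp.single (t j) (κ j))

theorem expo_s (hs : Function.Injective s) (hst : ∀ i j, s i ≠ t j) (d : σ → ℕ) (κ : ι → ℕ)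
    (j : ι) : expo s t d κ (s j) = d (s j) - κ j := by
  unfold expo
  simp only [Finsupp.add_apply, Finsupp.finsetSum_apply, Finsupp.single_apply]
  rw [Finset.sum_eq_zero, Finset.sum_eq_single j]
  · have h0 : t j ≠ s j := fun h => hst j j h.symm
    simp [h0]
  · intro i _ hi
    have h0 : t i ≠ s j := fun h => hst j i h.symm
    simp [hs.ne hi, h0]
  · simp
  · intro v hv
    have : v ≠ s j := fun h => by
      subst h
      simp at hv
    simp [this]

theorem expo_t (ht : Function.Injective t) (hst : ∀ i j, s i ≠ t j) (d : σ → ℕ) (κ : ι → ℕ)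
    (j : ι) : expo s t d κ (t j) = d (t j) + κ j := by
  unfold expo
  simp only [Finsupp.add_apply, Finsupp.finsetSum_apply, Finsupp.single_apply]
  rw [Finset.sum_eq_single (t j), Finset.sum_eq_single j]
  · simp [hst]
  · intro i _ hi
    simp [ht.ne hi, hst]
  · simp
  · intro v _ hv
    simp [hv]
  · intro h
    exfalso
    apply h
    simp [hst]

theorem expo_o (d : σ → ℕ) (κ : ι → ℕ) (v : σ) (h1 : ∀ j, s j ≠ v) (h2 : ∀ j, t j ≠ v) :
    expo s t d κ v = d v := by
  unfold expo
  simp only [Finsupp.add_apply, Finsupp.finsetSum_apply, Finsupp.single_apply]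
  rw [Finset.sum_eq_single v, Finset.sum_eq_zero]
  · simp
  · intro j _
    simp [h1, h2]
  · intro w _ hw
    simp [hw]
  · intro h
    exfalso
    apply h
    simp [h1]

theorem expo_eq_iff (hs : Function.Injective s) (ht : Function.Injective t)
    (hst : ∀ i j, s i ≠ t j) (d c : σ → ℕ) (κ : ι → ℕ) (hκ : ∀ j, κ j ≤ d (s j)) :
    expo s t d κ = toF c ↔ (∀ j, κ j ≤ c (t j)) ∧ d = mv s t κ c := by
  have hto : ∀ v, toF c v = c v := fun v => rfl
  constructor
  · intro h
    have h' : ∀ v, expo s t d κ v = c v := fun v => by rw [h, hto]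
    have hle : ∀ j, κ j ≤ c (t j) := fun j => by
      have := h' (t j)
      rw [expo_t s t ht hst] at this
      omega
    refine ⟨hle, ?_⟩
    funext v
    by_cases hv : ∃ j, s j = v
    · obtain ⟨j, rfl⟩ := hv
      rw [mv_s s t hs hst]
      have := h' (s j)
      rw [expo_s s t hs hst] at this
      have := hκ j
      omega
    · push Not at hv
      by_cases hv' : ∃ j, t j = v
      · obtain ⟨j, rfl⟩ := hv'
        rw [mv_t s t ht hst]
        have := h' (t j)
        rw [expo_t s t ht hst] at this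
        omega
      · push Not at hv'
        rw [mv_o s t κ c v hv hv', ← h' v, expo_o s t d κ v hv hv']
  · rintro ⟨hle, rfl⟩
    ext v
    rw [hto]
    by_cases hv : ∃ j, s j = v
    · obtain ⟨j, rfl⟩ := hv
      rw [expo_s s t hs hst, mv_s s t hs hst]
      omega
    · push Not at hv
      by_cases hv' : ∃ j, t j = v
      · obtain ⟨j, rfl⟩ := hv'
        rw [expo_t s t ht hst, mv_t s t ht hst]
        have := hle j
        omega
      · push Not at hv'
        rw [expo_o s t _ κ v hv hv', mv_o s t κ c v hv hv']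

theorem prod_subP (hs : Function.Injective s) (d : σ → ℕ) :
    ∏ v, subP s t v ^ d v = ∑ κ ∈ Fintype.piFinset (fun j => range (d (s j) + 1)),
      MvPolynomial.monomial (expo s t d κ) ((∏ j, (d (s j)).choose (κ j) : ℕ) : ℤ) := by
  rw [← Finset.prod_mul_prod_compl (univ.image s), Finset.prod_image (fun a _ b _ h => hs h)]
  have h1 : ∏ j : ι, subP s t (s j) ^ d (s j) =
      ∏ j : ι, ∑ k ∈ range (d (s j) + 1), MvPolynomial.monomial
        (Finsupp.single (s j) (d (s j) - k) + Finsupp.single (t j) k)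
        (((d (s j)).choose k : ℕ) : ℤ) := by
    refine Finset.prod_congr rfl fun j _ => ?_
    rw [subP_s s t hs, add_comm (MvPolynomial.X (s j)), add_pow]
    refine Finset.sum_congr rfl fun k _ => ?_
    rw [MvPolynomial.X_pow_eq_monomial, MvPolynomial.X_pow_eq_monomial,
      MvPolynomial.monomial_mul]
    have : (((d (s j)).choose k : ℕ) : MvPolynomial σ ℤ) =
        MvPolynomial.monomial 0 (((d (s j)).choose k : ℕ) : ℤ) := by
      change _ = MvPolynomial.C _
      simp
    rw [this, MvPolynomial.monomial_mul, add_zero, one_mul, one_mul,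
      add_comm (Finsupp.single (t j) k)]
  have h2 : ∏ v ∈ (univ.image s)ᶜ, subP s t v ^ d v =
      MvPolynomial.monomial (∑ v ∈ (univ.image s)ᶜ, Finsupp.single v (d v)) (1 : ℤ) := by
    rw [MvPolynomial.monomial_sum_one]
    refine Finset.prod_congr rfl fun v hv => ?_
    rw [subP_o s t v, MvPolynomial.X_pow_eq_monomial]
    intro j hj
    subst hj
    simp at hv
  rw [h1, h2, Finset.prod_univ_sum, Finset.sum_mul]
  refine Finset.sum_congr rfl fun κ _ => ?_
  have h3 : ∏ j : ι, MvPolynomial.monomial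
        (Finsupp.single (s j) (d (s j) - κ j) + Finsupp.single (t j) (κ j))
        (((d (s j)).choose (κ j) : ℕ) : ℤ) =
      MvPolynomial.monomial
        (∑ j, (Finsupp.single (s j) (d (s j) - κ j) + Finsupp.single (t j) (κ j)))
        ((∏ j, (d (s j)).choose (κ j) : ℕ) : ℤ) := by
    rw [MvPolynomial.monomial_sum_index, Nat.cast_prod, map_prod, ← Finset.prod_mul_distrib]
    refine Finset.prod_congr rfl fun j _ => ?_
    rw [MvPolynomial.C_mul_monomial, mul_one]
  rw [h3, MvPolynomial.monomial_mul, mul_one, add_comm, expo]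

theorem coeff_formula (hs : Function.Injective s) (ht : Function.Injective t)
    (hst : ∀ i j, s i ≠ t j) (d c : σ → ℕ) :
    MvPolynomial.coeff (toF c) (∏ v, subP s t v ^ d v) =
      ∑ κ ∈ Finset.Iic (fun j => c (t j)),
        if mv s t κ c = d then ((∏ j, (c (s j) + κ j).choose (κ j) : ℕ) : ℤ) else 0 := by
  rw [prod_subP s t hs, MvPolynomial.coeff_sum, ← Finset.sum_filter]
  have h1 : ∀ κ ∈ Fintype.piFinset (fun j => range (d (s j) + 1)),
      MvPolynomial.coeff (toF c) (MvPolynomial.monomial (expo s t d κ)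
        ((∏ j, (d (s j)).choose (κ j) : ℕ) : ℤ)) =
      if (∀ j, κ j ≤ c (t j)) ∧ d = mv s t κ c then
        ((∏ j, (c (s j) + κ j).choose (κ j) : ℕ) : ℤ) else 0 := by
    intro κ hκ
    have hκ' : ∀ j, κ j ≤ d (s j) := fun j => by
      have := (Fintype.mem_piFinset.1 hκ) j
      simp only [mem_range] at this
      omega
    rw [MvPolynomial.coeff_monomial]
    have := expo_eq_iff s t hs ht hst d c κ hκ'
    by_cases he : expo s t d κ = toF c
    · rw [if_pos he, if_pos (this.1 he)]
      have hd := (this.1 he).2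
      rw [hd]
      congr 1
      refine Finset.prod_congr rfl fun j _ => ?_
      rw [mv_s s t hs hst]
    · rw [if_neg he, if_neg (fun h => he (this.2 h))]
  rw [Finset.sum_congr rfl h1, ← Finset.sum_filter]
  refine Finset.sum_congr ?_ fun _ _ => rfl
  ext κ
  simp only [mem_filter, Fintype.mem_piFinset, mem_range, Finset.mem_Iic, Pi.le_def]
  constructor
  · rintro ⟨_, h2, h3⟩
    exact ⟨h2, h3.symm⟩
  · rintro ⟨h2, h3⟩
    refine ⟨fun j => ?_, h2, h3.symm⟩
    rw [← h3, mv_s s t hs hst]
    omega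

end coef

theorem move_eq {σ ι : Type*} [Fintype σ] [DecidableEq σ] [Fintype ι] [DecidableEq ι]
    {A : Type*} [AddCommGroup A] (s t : ι → σ) (hs : Function.Injective s)
    (ht : Function.Injective t) (hst : ∀ i j, s i ≠ t j) (θ : (σ → ℕ) → A) (c : σ → ℕ) :
    Move s t θ c = ∑ d ∈ piAntidiag univ (∑ v, c v),
      MvPolynomial.coeff (toF c) (∏ v, subP s t v ^ d v) • θ d := by
  have h1 : ∀ d ∈ piAntidiag univ (∑ v, c v),
      MvPolynomial.coeff (toF c) (∏ v, subP s t v ^ d v) • θ d =
      ∑ κ ∈ Finset.Iic (fun j => c (t j)), if mv s t κ c = d then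
        (∏ j, (c (s j) + κ j).choose (κ j)) • θ d else 0 := by
    intro d _
    rw [coeff_formula s t hs ht hst, Finset.sum_smul]
    refine Finset.sum_congr rfl fun κ _ => ?_
    split_ifs
    · rw [natCast_zsmul]
    · rw [zero_smul]
  rw [Finset.sum_congr rfl h1, Finset.sum_comm, Move]
  refine Finset.sum_congr rfl fun κ hκ => ?_
  rw [Finset.sum_ite_eq, if_pos]
  rw [Finset.mem_piAntidiag]
  refine ⟨sum_mv s t ht κ c (fun j => ?_), fun _ _ => mem_univ _⟩
  have := Finset.mem_Iic.1 hκ
  exact this j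

/-- The monomials occurring in `∏_v (subP s t v)^{d v}` all have degree `∑ v, d v`. -/
theorem coeff_subP_eq_zero {σ ι : Type*} [Fintype σ] [DecidableEq σ] [Fintype ι] [DecidableEq ι]
    (s t : ι → σ) (d c : σ → ℕ) (h : ∑ v, d v ≠ ∑ v, c v) :
    MvPolynomial.coeff (toF c) (∏ v, subP s t v ^ d v) = 0 := by
  have h1 : ∀ v, (subP s t v).IsHomogeneous 1 := by
    intro v
    unfold subP
    refine (MvPolynomial.isHomogeneous_X _ _).add ?_
    refine MvPolynomial.IsHomogeneous.sum _ _ _ fun j _ => MvPolynomial.isHomogeneous_X _ _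
  have h2 : (∏ v, subP s t v ^ d v).IsHomogeneous (∑ v, d v) := by
    refine MvPolynomial.IsHomogeneous.prod _ _ _ fun v _ => ?_
    simpa using (h1 v).pow (d v)
  refine h2.coeff_eq_zero ?_
  intro he
  apply h
  rw [← he]
  rw [Finsupp.degree_eq_sum]
  rfl

/-- Bridge: if the polynomial `F` is mapped to the same polynomial by the substitutions attached to
`(s, t)` and to `(s', t')`, then its coefficient function satisfies the corresponding `Move`
relation. (From `move_eq`, `F = ∑ coeff d F • X^d`, and homogeneity `coeff_subP_eq_zero`.) -/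
theorem move_eq_coeff {σ ι : Type*} [Fintype σ] [DecidableEq σ] [Fintype ι] [DecidableEq ι]
    (s t : ι → σ) (hs : Function.Injective s) (ht : Function.Injective t)
    (hst : ∀ i j, s i ≠ t j) (F : MvPolynomial σ ℤ) (c : σ → ℕ) :
    Move s t (fun d => MvPolynomial.coeff (toF d) F) c =
      MvPolynomial.coeff (toF c) (MvPolynomial.aeval (subP s t) F) := by
  classical
  rw [move_eq s t hs ht hst, MvPolynomial.aeval_def, MvPolynomial.eval₂_eq',
    MvPolynomial.coeff_sum]
  let g : (σ →₀ ℕ) → ℤ := fun e => MvPolynomial.coeff (toF c) (∏ v, subP s t v ^ e v) *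
    MvPolynomial.coeff e F
  have hinj : Function.Injective (toF : (σ → ℕ) → σ →₀ ℕ) := fun a b h =>
    Finsupp.equivFunOnFinite.symm.injective h
  have hL : ∑ d ∈ piAntidiag univ (∑ v, c v),
      MvPolynomial.coeff (toF c) (∏ v, subP s t v ^ d v) • MvPolynomial.coeff (toF d) F =
      ∑ e ∈ (piAntidiag univ (∑ v, c v)).image toF, g e := by
    rw [Finset.sum_image (fun a _ b _ h => hinj h)]
    rfl
  have hR : ∑ e ∈ F.support, MvPolynomial.coeff (toF c)
      ((algebraMap ℤ (MvPolynomial σ ℤ)) (MvPolynomial.coeff e F) * ∏ v, subP s t v ^ e v) =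
      ∑ e ∈ F.support, g e := by
    refine Finset.sum_congr rfl fun e _ => ?_
    rw [MvPolynomial.algebraMap_eq, MvPolynomial.coeff_C_mul, mul_comm]
  rw [hL, hR]
  trans ∑ e ∈ (piAntidiag univ (∑ v, c v)).image toF ∪ F.support, g e
  · refine Finset.sum_subset Finset.subset_union_left fun e _ he => ?_
    have hne : ∑ v, e v ≠ ∑ v, c v := by
      intro h
      apply he
      rw [Finset.mem_image]
      refine ⟨e, ?_, ?_⟩
      · rw [Finset.mem_piAntidiag]
        exact ⟨h, fun _ _ => mem_univ _⟩
      · ext v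
        rfl
    have := coeff_subP_eq_zero s t e c hne
    change _ * _ = _
    rw [this, zero_mul]
  · symm
    refine Finset.sum_subset Finset.subset_union_right fun e _ he => ?_
    change _ * _ = _
    rw [MvPolynomial.notMem_support_iff.1 he, mul_zero]

theorem move_bridge {σ ι ι' : Type*} [Fintype σ] [DecidableEq σ] [Fintype ι] [DecidableEq ι]
    [Fintype ι'] [DecidableEq ι'] (s t : ι → σ) (s' t' : ι' → σ)
    (hs : Function.Injective s) (ht : Function.Injective t) (hst : ∀ i j, s i ≠ t j)
    (hs' : Function.Injective s') (ht' : Function.Injective t') (hst' : ∀ i j, s' i ≠ t' j)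
    (F : MvPolynomial σ ℤ)
    (hF : MvPolynomial.aeval (subP s t) F = MvPolynomial.aeval (subP s' t') F) (c : σ → ℕ) :
    Move s t (fun d => MvPolynomial.coeff (toF d) F) c
      = Move s' t' (fun d => MvPolynomial.coeff (toF d) F) c := by
  rw [move_eq_coeff s t hs ht hst, move_eq_coeff s' t' hs' ht' hst', hF]

end TF
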