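import Pool.Agent.H66.TF.AltDefs

/-!
# TF-SWAP: the full swap `F(x; z) = F(z; x)` from the Capelli identity of rank `m + 1`

Let `V = Fin m ⊕ Fin m` be the slots (and also the variables `y = Sum.elim x z : V → R`), and for
`π ∈ Perm V` let `Φ(π) = sgn(π) gev (y ∘ π) L` (the slot `v` is filled with the variable `π v`).

(1) `capR_subset`: if `W ⊆ V` has at least `m + 1` elements then for every `π`
`∑_{τ fixing the complement of W} Φ(π τ) = 0`: choose `W₀ ⊆ W` with exactly `m + 1` elements, split the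
group of the `τ` into cosets `τ Perm(W₀)`, and apply `CapR P (m+1)` to the generalised monomial over
`Fin (m+1) ≃ W₀` obtained from `L` by replacing the slots outside of `W₀` by the ring elements which
fill them.

(2) For `C ⊆ V` (variables) with `|C| < m`: `∑_{π : π⁻¹(C) ⊆ Z} Φ(π) = 0`, `Z = range inr`: group the `π`
by the restriction of `π⁻¹` to `C`; for fixed `π⁻¹|_C` the remaining slots `W = V ∖ π⁻¹(C)` are permuted
arbitrarily and `|W| = 2m - |C| ≥ m + 1`.

(3) Let `A = X = range inl` as a set of variables, `|A| = m`. Inclusion–exclusion: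
`∑_{C ⊆ A} (-1)^{|C|} ∑_{π : π⁻¹(C) ⊆ Z} Φ(π) = ∑_π Φ(π) ∑_{C ⊆ A ∩ π(Z)} (-1)^{|C|} = ∑_{π : A ∩ π(Z) = ∅} Φ(π)
= ∑_{π : π(X) = X} Φ(π) = FL L x z`, and by (2) only `C = A` contributes on the left:
`(-1)^m ∑_{π : π(Z) = X} Φ(π) = (-1)^m (-1)^m FL L z x` (`π = swap ∘ h`, `h` preserving `X`, and the sign of
the exchange `inl i ↔ inr i` is `(-1)^m`). Note `π(Z) = X` iff `π(X) = Z`.

The permutations preserving `X` are the `Equiv.Perm.sumCongr σ τ` (`Equiv.Perm.sumCongrHom`,
`Equiv.Perm.mem_sumCongrHom_range_of_perm_mapsTo_inl`).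
-/

open Finset Equiv

namespace TF

/-- the sign of the exchange of the two summands -/
lemma sign_sumComm (m : ℕ) :
    Perm.sign (Equiv.sumComm (Fin m) (Fin m) : Perm (Fin m ⊕ Fin m)) = (-1 : ℤˣ) ^ m := by
  set s : Perm (Fin m ⊕ Fin m) := Equiv.sumComm (Fin m) (Fin m) with hs
  have h2 : s ^ 2 = 1 := by
    ext v
    rcases v with v | v <;> simp [hs, sq]
  have hsupp : s.support = univ := by
    ext v
    rw [Perm.mem_support]
    rcases v with v | v <;> simp [hs]
  have : Fact (Nat.Prime 2) := ⟨Nat.prime_two⟩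
  have hc := Perm.cycleType_of_pow_prime_eq_one h2
  have hsum := Perm.sum_cycleType s
  rw [hsupp, card_univ, Fintype.card_sum, Fintype.card_fin, hc, Multiset.sum_replicate,
    smul_eq_mul] at hsum
  have hcard : Multiset.card s.cycleType = m := by omega
  have hsum2 : s.cycleType.sum = m * 2 := by
    rw [hc, Multiset.sum_replicate, smul_eq_mul, hcard]
  rw [Perm.sign_of_cycleType, hsum2, hcard, pow_add, pow_mul', neg_one_sq, one_pow, one_mul]

/-- sums over a group can be computed coset by coset -/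
lemma sum_eq_zero_of_coset {A B M : Type*} [Group A] [Group B] [Fintype A] [Fintype B]
    [AddCommMonoid M] (ι : B →* A) (hι : Function.Injective ι) (F : A → M)
    (h : ∀ a : A, ∑ b : B, F (ι b * a) = 0) : ∑ a : A, F a = 0 := by
  classical
  have hfib : ∑ a : A, F a = ∑ q : A ⧸ ι.range, ∑ a : A with (QuotientGroup.mk a⁻¹ : A ⧸ ι.range) = q, F a := by
    rw [Finset.sum_fiberwise]
  rw [hfib]
  apply Finset.sum_eq_zero
  intro q _
  set a0 : A := (q.out)⁻¹ with ha0
  have hq : (QuotientGroup.mk a0⁻¹ : A ⧸ ι.range) = q := by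
    rw [ha0, inv_inv]
    exact QuotientGroup.out_eq' q
  rw [← h a0]
  symm
  apply Finset.sum_bij (fun (b : B) _ => ι b * a0)
  · intro b _
    rw [Finset.mem_filter]
    refine ⟨Finset.mem_univ _, ?_⟩
    rw [← hq, QuotientGroup.eq, mul_inv_rev, mul_inv_rev, inv_inv, inv_inv]
    refine ⟨b, ?_⟩
    group
  · intro b _ b' _ hbb
    exact hι (mul_right_cancel hbb)
  · intro a ha
    rw [Finset.mem_filter] at ha
    have h1 := ha.2
    rw [← hq, QuotientGroup.eq, inv_inv] at h1
    obtain ⟨b, hb⟩ := h1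
    refine ⟨b, Finset.mem_univ _, ?_⟩
    rw [hb, inv_mul_cancel_right]
  · intro b _
    rfl

section

variable {R : Type*} [Ring R] {m : ℕ}

/-- the summand attached to a permutation of the slots -/
def PhiS (L : List (R ⊕ (Fin m ⊕ Fin m))) (y : Fin m ⊕ Fin m → R)
    (π : Perm (Fin m ⊕ Fin m)) : R :=
  ((Perm.sign π : ℤˣ) : ℤ) • gev (y ∘ π) L

/-- the embedding of the slots: variables in `W` become slots, the others are filled -/
def slotMap {M : ℕ} (W : Finset (Fin m ⊕ Fin m)) (e : Fin M ≃ {v // v ∈ W})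
    (y : Fin m ⊕ Fin m → R) (π : Perm (Fin m ⊕ Fin m)) (v : Fin m ⊕ Fin m) : R ⊕ Fin M :=
  if h : π v ∈ W then Sum.inr (e.symm ⟨π v, h⟩) else Sum.inl (y (π v))

omit [Ring R] in
lemma slotMap_eq_inr {M : ℕ} (W : Finset (Fin m ⊕ Fin m)) (e : Fin M ≃ {v // v ∈ W})
    (y : Fin m ⊕ Fin m → R) (π : Perm (Fin m ⊕ Fin m)) (v : Fin m ⊕ Fin m) (i : Fin M) :
    slotMap W e y π v = Sum.inr i ↔ v = π⁻¹ (e i : Fin m ⊕ Fin m) := by
  unfold slotMap
  split_ifs with h
  · rw [Sum.inr.injEq, Equiv.symm_apply_eq, Perm.eq_inv_iff_eq]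
    constructor
    · intro h1
      exact congrArg Subtype.val h1
    · intro h1
      exact Subtype.ext h1
  · refine iff_of_false (by simp) ?_
    intro h1
    apply h
    have h2 : π v = (e i : Fin m ⊕ Fin m) := by
      rw [h1, ← Perm.mul_apply, mul_inv_cancel, Perm.one_apply]
    rw [h2]
    exact (e i).2

omit [Ring R] in
lemma count_filterMap_map {V W' : Type*} [DecidableEq V] [DecidableEq W'] (g : V → R ⊕ W')
    (v0 : V) (i : W') (hg : ∀ v, g v = Sum.inr i ↔ v = v0) (L : List (R ⊕ V)) :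
    ((L.map (Sum.elim Sum.inl g)).filterMap Sum.getRight?).count i =
      (L.filterMap Sum.getRight?).count v0 := by
  induction L with
  | nil => simp
  | cons a L ih =>
    rcases a with r | v
    · simpa using ih
    · simp only [List.map_cons, Sum.elim_inr]
      rcases hv : g v with r | j
      · have hne : v ≠ v0 := by
          intro h1
          rw [← hg v, hv] at h1
          exact absurd h1 (by simp)
        rw [List.filterMap_cons_none (by rfl), List.filterMap_cons_some (by rfl),
          List.count_cons_of_ne hne, ih]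
      · rw [List.filterMap_cons_some (by rfl), List.filterMap_cons_some (by rfl),
          List.count_cons, List.count_cons, ih]
        congr 1
        have h1 := hg v
        rw [hv, Sum.inr.injEq] at h1
        by_cases hji : j = i
        · simp [hji, ← h1.1 hji]
        · have hne : v ≠ v0 := fun h2 => hji (h1.2 h2)
          simp [hji, hne]

omit [Ring R] in
lemma once_slotMap {M : ℕ} (W : Finset (Fin m ⊕ Fin m)) (e : Fin M ≃ {v // v ∈ W})
    (y : Fin m ⊕ Fin m → R) (π : Perm (Fin m ⊕ Fin m)) (L : List (R ⊕ (Fin m ⊕ Fin m)))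
    (hL : Once L) : Once (L.map (Sum.elim Sum.inl (slotMap W e y π))) := by
  intro i
  have h := count_filterMap_map (slotMap W e y π) (π⁻¹ (e i : Fin m ⊕ Fin m)) i
    (fun v => slotMap_eq_inr W e y π v i) L
  exact h.trans (hL _)

lemma gev_slotMap {M : ℕ} (W : Finset (Fin m ⊕ Fin m)) (e : Fin M ≃ {v // v ∈ W})
    (y : Fin m ⊕ Fin m → R) (π : Perm (Fin m ⊕ Fin m)) (L : List (R ⊕ (Fin m ⊕ Fin m)))
    (ρ : Perm (Fin M)) :
    gev (y ∘ ((ρ.extendDomain e * π : Perm (Fin m ⊕ Fin m)))) L =
      gev ((fun i => y (e i)) ∘ ρ) (L.map (Sum.elim Sum.inl (slotMap W e y π))) := by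
  unfold gev
  rw [List.map_map]
  congr 1
  apply List.map_congr_left
  intro a _
  rcases a with r | v
  · simp
  · simp only [Sum.elim_inr, Function.comp_apply, Perm.coe_mul]
    unfold slotMap
    split_ifs with h
    · simp only [Sum.elim_inr, Function.comp_apply]
      congr 1
      exact Perm.extendDomain_apply_subtype ρ e h
    · simp only [Sum.elim_inl, id]
      congr 1
      exact Perm.extendDomain_apply_not_subtype ρ e h

lemma sum_PhiS_eq_zero {P : AddSubgroup R} (hcap : CapR P (m + 1))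
    (L : List (R ⊕ (Fin m ⊕ Fin m))) (hL : Once L) (y : Fin m ⊕ Fin m → R)
    (hy : ∀ v, y v ∈ P) (C : Finset (Fin m)) (hC : C.card < m) :
    ∑ π : Perm (Fin m ⊕ Fin m),
      (if ∀ i ∈ C, (π⁻¹ (Sum.inl i)).isRight = true then PhiS L y π else 0) = 0 := by
  classical
  -- the set of free variables
  have hcard : m + 1 ≤ ((C.map Function.Embedding.inl : Finset (Fin m ⊕ Fin m))ᶜ).card := by
    rw [card_compl, card_map, Fintype.card_sum, Fintype.card_fin]
    omega
  obtain ⟨W, hWsub, hWcard⟩ := Finset.exists_subset_card_eq hcard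
  have e : Fin (m + 1) ≃ {v // v ∈ W} := (Fintype.equivFinOfCardEq (by simpa using hWcard)).symm
  have hnot : ∀ i ∈ C, (Sum.inl i : Fin m ⊕ Fin m) ∉ W := by
    intro i hi hW
    have := hWsub hW
    rw [mem_compl] at this
    exact this (mem_map_of_mem _ hi)
  apply sum_eq_zero_of_coset (Perm.extendDomainHom e) (Perm.extendDomainHom_injective e)
  intro π
  have hcond : ∀ ρ : Perm (Fin (m + 1)),
      (∀ i ∈ C, ((Perm.extendDomainHom e ρ * π)⁻¹ (Sum.inl i)).isRight = true) ↔
        ∀ i ∈ C, (π⁻¹ (Sum.inl i)).isRight = true := by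
    intro ρ
    apply forall₂_congr
    intro i hi
    rw [mul_inv_rev, Perm.mul_apply, ← map_inv]
    have : (Perm.extendDomainHom e ρ⁻¹) (Sum.inl i) = Sum.inl i :=
      Perm.extendDomain_apply_not_subtype _ e (hnot i hi)
    rw [this]
  simp only [hcond]
  split_ifs with h
  · have h1 := hcap (L.map (Sum.elim Sum.inl (slotMap W e y π))) (once_slotMap W e y π L hL)
      (fun i => y (e i)) (fun i => hy _)
    have h2 : ∀ ρ : Perm (Fin (m + 1)), PhiS L y (Perm.extendDomainHom e ρ * π) =
        ((Perm.sign π : ℤˣ) : ℤ) • (((Perm.sign ρ : ℤˣ) : ℤ) •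
          gev ((fun i => y (e i)) ∘ ρ) (L.map (Sum.elim Sum.inl (slotMap W e y π)))) := by
      intro ρ
      rw [← gev_slotMap, smul_smul]
      unfold PhiS
      congr 1
      rw [Perm.sign_mul, Perm.extendDomainHom_apply, Perm.sign_extendDomain, mul_comm]
      push_cast
      rfl
    simp only [h2]
    rw [← Finset.smul_sum, h1, smul_zero]
  · simp

/-- sums over the permutations which preserve the summands -/
lemma sum_block {M : Type*} [AddCommMonoid M] (F : Perm (Fin m ⊕ Fin m) → M) :
    ∑ π : Perm (Fin m ⊕ Fin m), (if ∀ i, (π⁻¹ (Sum.inl i)).isLeft = true then F π else 0) =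
      ∑ σ : Perm (Fin m), ∑ τ : Perm (Fin m), F (Perm.sumCongr σ τ) := by
  classical
  rw [← Finset.sum_filter, ← Fintype.sum_prod_type']
  symm
  apply Finset.sum_bij (fun (p : Perm (Fin m) × Perm (Fin m)) _ => Perm.sumCongr p.1 p.2)
  · rintro ⟨σ, τ⟩ _
    rw [mem_filter]
    refine ⟨mem_univ _, fun i => ?_⟩
    rw [Perm.sumCongr_inv]
    simp
  · rintro ⟨σ, τ⟩ _ ⟨σ', τ'⟩ _ h
    have h1 := Perm.sumCongrHom_injective (a₁ := (σ, τ)) (a₂ := (σ', τ')) h
    exact h1
  · intro π hπ
    rw [mem_filter] at hπ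
    have h1 : Set.MapsTo (π⁻¹ : Perm (Fin m ⊕ Fin m)) (Set.range Sum.inl) (Set.range Sum.inl) := by
      rintro _ ⟨i, rfl⟩
      have := hπ.2 i
      rcases hv : π⁻¹ (Sum.inl i) with a | b
      · exact ⟨a, rfl⟩
      · rw [hv] at this
        simp at this
    obtain ⟨⟨σ, τ⟩, h2⟩ := Perm.mem_sumCongrHom_range_of_perm_mapsTo_inl h1
    refine ⟨(σ⁻¹, τ⁻¹), mem_univ _, ?_⟩
    have h3 : Perm.sumCongr σ τ = π⁻¹ := h2
    simp only
    rw [← Perm.sumCongr_inv, h3, inv_inv]
  · intro p _
    rfl

end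

section

variable {R : Type*} [Ring R] {m : ℕ}

/-- the part of the sum which belongs to the block permutations -/
lemma sum_left (L : List (R ⊕ (Fin m ⊕ Fin m))) (x z : Fin m → R) :
    ∑ π : Perm (Fin m ⊕ Fin m), (if ∀ i, (π⁻¹ (Sum.inl i)).isLeft = true then
      PhiS L (Sum.elim x z) π else 0) = FL L x z := by
  rw [sum_block]
  unfold FL
  apply Finset.sum_congr rfl
  intro σ _
  apply Finset.sum_congr rfl
  intro τ _
  unfold PhiS
  rw [Perm.sign_sumCongr]
  congr 2
  funext v
  rcases v with v | v <;> simp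

lemma forall_inl_isLeft_iff (π : Perm (Fin m ⊕ Fin m)) :
    (∀ i, (π (Sum.inl i)).isLeft = true) ↔ ∀ i, (π (Sum.inr i)).isRight = true := by
  have h := Equiv.Perm.perm_mapsTo_inl_iff_mapsTo_inr π
  constructor
  · intro h1 i
    have h2 : Set.MapsTo π (Set.range Sum.inl) (Set.range Sum.inl) := by
      rintro _ ⟨j, rfl⟩
      have := h1 j
      rcases hv : π (Sum.inl j) with a | b
      · exact ⟨a, rfl⟩
      · rw [hv] at this
        simp at this
    obtain ⟨b, hb⟩ := h.1 h2 ⟨i, rfl⟩
    rw [← hb]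
    rfl
  · intro h1 i
    have h2 : Set.MapsTo π (Set.range Sum.inr) (Set.range Sum.inr) := by
      rintro _ ⟨j, rfl⟩
      have := h1 j
      rcases hv : π (Sum.inr j) with a | b
      · rw [hv] at this
        simp at this
      · exact ⟨b, rfl⟩
    obtain ⟨b, hb⟩ := h.2 h2 ⟨i, rfl⟩
    rw [← hb]
    rfl

/-- the part of the sum which belongs to the permutations exchanging the blocks -/
lemma sum_right (L : List (R ⊕ (Fin m ⊕ Fin m))) (x z : Fin m → R) :
    ∑ π : Perm (Fin m ⊕ Fin m), (if ∀ i, (π⁻¹ (Sum.inl i)).isRight = true then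
      PhiS L (Sum.elim x z) π else 0) = (-1 : ℤ) ^ m • FL L z x := by
  rw [← sum_left, Finset.smul_sum]
  set s : Perm (Fin m ⊕ Fin m) := Equiv.sumComm (Fin m) (Fin m) with hs
  rw [← Equiv.sum_comp (Equiv.mulLeft s)]
  apply Finset.sum_congr rfl
  intro π _
  rw [Equiv.coe_mulLeft]
  have hcond : (∀ i, ((s * π)⁻¹ (Sum.inl i)).isRight = true) ↔
      ∀ i, (π⁻¹ (Sum.inl i)).isLeft = true := by
    rw [forall_inl_isLeft_iff]
    apply forall_congr'
    intro i
    rw [mul_inv_rev, Perm.mul_apply]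
    have : s⁻¹ (Sum.inl i) = Sum.inr i := rfl
    rw [this]
  simp only [hcond]
  split_ifs with h
  · unfold PhiS
    rw [Perm.sign_mul, hs, sign_sumComm, smul_smul]
    have h1 : ((Sum.elim x z : Fin m ⊕ Fin m → R) ∘
        ((Equiv.sumComm (Fin m) (Fin m) : Perm (Fin m ⊕ Fin m)) * π : Perm (Fin m ⊕ Fin m))) =
        Sum.elim z x ∘ π := by
      funext v
      simp only [Function.comp_apply, Perm.mul_apply]
      rcases π v with a | b <;> simp
    rw [h1]
    congr 1
  · rw [smul_zero]

end

theorem FL_swap {R : Type*} [Ring R] {P : AddSubgroup R} {m : ℕ} (hcap : CapR P (m + 1))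
    (L : List (R ⊕ (Fin m ⊕ Fin m))) (hL : Once L) (x z : Fin m → R) (hx : ∀ i, x i ∈ P)
    (hz : ∀ i, z i ∈ P) : FL L x z = FL L z x := by
  classical
  have hy : ∀ v, (Sum.elim x z : Fin m ⊕ Fin m → R) v ∈ P := by
    rintro (v | v)
    · exact hx v
    · exact hz v
  -- the alternating sum over all subsets
  have h1 : ∑ C ∈ (univ : Finset (Fin m)).powerset, (-1 : ℤ) ^ C.card •
      ∑ π : Perm (Fin m ⊕ Fin m), (if ∀ i ∈ C, (π⁻¹ (Sum.inl i)).isRight = true then
        PhiS L (Sum.elim x z) π else 0) = FL L x z := by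
    rw [← sum_left]
    simp only [Finset.smul_sum]
    rw [Finset.sum_comm]
    apply Finset.sum_congr rfl
    intro π _
    have h2 : ∀ C ∈ (univ : Finset (Fin m)).powerset, ((-1 : ℤ) ^ C.card •
        (if ∀ i ∈ C, (π⁻¹ (Sum.inl i)).isRight = true then PhiS L (Sum.elim x z) π else 0)) =
        if C ⊆ univ.filter (fun i => (π⁻¹ (Sum.inl i)).isRight = true) then
          (-1 : ℤ) ^ C.card • PhiS L (Sum.elim x z) π else 0 := by
      intro C _
      have h3 : (∀ i ∈ C, (π⁻¹ (Sum.inl i)).isRight = true) ↔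
          C ⊆ univ.filter (fun i => (π⁻¹ (Sum.inl i)).isRight = true) := by
        constructor
        · intro h i hi
          rw [mem_filter]
          exact ⟨mem_univ _, h i hi⟩
        · intro h i hi
          exact (mem_filter.1 (h hi)).2
      by_cases h4 : C ⊆ univ.filter (fun i => (π⁻¹ (Sum.inl i)).isRight = true)
      · rw [if_pos (h3.2 h4), if_pos h4]
      · rw [if_neg (fun h => h4 (h3.1 h)), if_neg h4, smul_zero]
    rw [Finset.sum_congr rfl h2, ← Finset.sum_filter, ← Finset.sum_smul]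
    have h5 : ((univ : Finset (Fin m)).powerset.filter (fun C => C ⊆ univ.filter
        (fun i => (π⁻¹ (Sum.inl i)).isRight = true))) =
        (univ.filter (fun i => (π⁻¹ (Sum.inl i)).isRight = true)).powerset := by
      ext C
      simp only [mem_filter, mem_powerset, subset_univ, true_and]
    rw [h5, Finset.sum_powerset_neg_one_pow_card]
    have h6 : (univ.filter (fun i => (π⁻¹ (Sum.inl i)).isRight = true) = (∅ : Finset (Fin m))) ↔
        ∀ i, (π⁻¹ (Sum.inl i)).isLeft = true := by
      rw [Finset.filter_eq_empty_iff]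
      constructor
      · intro h i
        have := h (mem_univ i)
        rcases hv : π⁻¹ (Sum.inl i) with a | b
        · rfl
        · rw [hv] at this
          simp at this
      · intro h i _
        have := h i
        rcases hv : π⁻¹ (Sum.inl i) with a | b
        · simp
        · rw [hv] at this
          simp at this
    by_cases h7 : ∀ i, (π⁻¹ (Sum.inl i)).isLeft = true
    · rw [if_pos h7, if_pos (h6.2 h7), one_smul]
    · rw [if_neg h7, if_neg (fun h => h7 (h6.1 h)), zero_smul]
  -- only the full subset contributes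
  rw [Finset.sum_eq_single (univ : Finset (Fin m))] at h1
  · rw [← h1, card_univ, Fintype.card_fin]
    have h2 := sum_right L x z
    have h3 : ∑ π : Perm (Fin m ⊕ Fin m), (if ∀ i ∈ (univ : Finset (Fin m)),
        (π⁻¹ (Sum.inl i)).isRight = true then PhiS L (Sum.elim x z) π else 0) =
        (-1 : ℤ) ^ m • FL L z x := by
      rw [← h2]
      apply Finset.sum_congr rfl
      intro π _
      simp only [mem_univ, forall_const]
    rw [h3, smul_smul, ← mul_pow]
    simp
  · intro C _ hC
    rw [sum_PhiS_eq_zero hcap L hL _ hy C, smul_zero]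
    have h2 := Finset.card_lt_card (Finset.ssubset_univ_iff.2 hC)
    rwa [card_univ, Fintype.card_fin] at h2
  · intro h
    exact absurd (mem_powerset.2 (subset_univ _)) h

end TF
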