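import Pool.Agent.H66.TF.Swap

/-!
# TF-SWITCH: consequences of the full swap

* `FL_switch`: `FL L (h x) z = FL L x (h z)` (`h x` means `i ↦ h * x i`). By `FL_swap`
  `FL L (h x) z = FL L z (h x) = FL L' x z` where `L'` is `L` with every slot `inl i` replaced by the
  slot `inr i` and every slot `inr i` replaced by the two items `h`, slot `inl i`; again by `FL_swap`
  `FL L' x z = FL L' z x = FL L x (h z)`. (`P` is two-sided, so `h * x i ∈ P`.)
* `FL_comm`: `FL L x (h h' z) = FL L (h x) (h' z) = FL L (h' h x) z`… precisely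
  `FL L x (h (h' z)) = FL L (h x) (h' z) = FL L (h' (h x)) z = FL L x (h' (h z))` by three uses of
  `FL_switch` (the last with `h' * h`).
* `FL_cramer`: for `y ∈ P`: `y * FL L x z = ∑_i x i * FL L (update x i y) z`. Apply `CapR P (m+1)` for
  fixed `z, τ` to the generalised monomial (slots `Fin (m+1)`) `slot 0 :: L` with `inl i ↦ slot i.succ`,
  `inr j ↦ z (τ j)`, and the variables `Fin.cons y x`; decompose the permutations of `Fin (m+1)` by the
  variable in slot 0 (`Equiv.Perm.decomposeFin` or similar: `σ 0 = 0` gives `y * FL L x z`, `σ 0 = i.succ`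
  gives `- x i * FL L (update x i y) z`).
* `cap_mul_cap`: the product of two Capelli sums is an `FL`.
* `capR_of_cap`: `CapR` from the Capelli sums: a generalised monomial in which every slot occurs once is
  `w_0 y_{π 0} w_1 y_{π 1} ⋯ w_m` for a permutation `π` and products `w_j` of ring elements.
-/

open Finset Equiv

namespace TF

variable {R : Type*} [Ring R] {P : AddSubgroup R} {m : ℕ}

set_option linter.unusedSectionVars false

section Aux

variable {ι κ : Type*}

private theorem sw_gev_nil (x : ι → R) : gev x ([] : List (R ⊕ ι)) = 1 := rfl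

private theorem sw_gev_inl (x : ι → R) (r : R) (L : List (R ⊕ ι)) :
    gev x (Sum.inl r :: L) = r * gev x L := rfl

private theorem sw_gev_inr (x : ι → R) (i : ι) (L : List (R ⊕ ι)) :
    gev x (Sum.inr i :: L) = x i * gev x L := rfl

private theorem sw_gev_append (x : ι → R) (L L' : List (R ⊕ ι)) :
    gev x (L ++ L') = gev x L * gev x L' := by
  simp [gev]

/-- substitution of generalised monomials for the slots. -/
private def swSub (f : ι → List (R ⊕ κ)) (L : List (R ⊕ ι)) : List (R ⊕ κ) :=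
  L.flatMap (Sum.elim (fun r => [Sum.inl r]) f)

private theorem sw_gev_sub (y : κ → R) (f : ι → List (R ⊕ κ)) (L : List (R ⊕ ι)) :
    gev y (swSub f L) = gev (fun i => gev y (f i)) L := by
  induction L with
  | nil => rfl
  | cons a L ih =>
    have h : swSub f (a :: L) = Sum.elim (fun r => [Sum.inl r]) f a ++ swSub f L := rfl
    rw [h, sw_gev_append, ih]
    cases a with
    | inl r =>
      rw [sw_gev_inl]
      show gev y [Sum.inl r] * _ = _
      rw [sw_gev_inl, sw_gev_nil, mul_one]
    | inr i => rfl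

private theorem sw_slots_sub (f : ι → List (R ⊕ κ)) (L : List (R ⊕ ι)) :
    (swSub f L).filterMap Sum.getRight? =
      (L.filterMap Sum.getRight?).flatMap fun i => (f i).filterMap Sum.getRight? := by
  induction L with
  | nil => rfl
  | cons a L ih =>
    have h : swSub f (a :: L) = Sum.elim (fun r => [Sum.inl r]) f a ++ swSub f L := rfl
    rw [h, List.filterMap_append, ih]
    cases a with
    | inl r => rfl
    | inr i => rfl

private theorem sw_once_perm [Fintype ι] [DecidableEq ι] {L : List (R ⊕ ι)} (hL : Once L) :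
    (L.filterMap Sum.getRight?).Perm (Finset.univ : Finset ι).toList := by
  rw [List.perm_iff_count]
  intro a
  rw [hL a, List.count_eq_one_of_mem (Finset.nodup_toList _) (by simp)]

private theorem sw_once_sub [Fintype ι] [DecidableEq ι] [DecidableEq κ] {L : List (R ⊕ ι)}
    (hL : Once L) (f : ι → List (R ⊕ κ))
    (hf : ∀ j, ∑ i, ((f i).filterMap Sum.getRight?).count j = 1) : Once (swSub f L) := by
  intro j
  rw [sw_slots_sub, List.count_flatMap, ((sw_once_perm hL).map _).sum_eq, Finset.sum_map_toList]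
  exact hf j

end Aux

private theorem sw_FL_sub (L : List (R ⊕ (Fin m ⊕ Fin m))) (h : R) (x z : Fin m → R) :
    FL (swSub (Sum.elim (fun i => [Sum.inr (Sum.inr i)])
      (fun i => [Sum.inl h, Sum.inr (Sum.inl i)])) L) x z = FL L z (fun i => h * x i) := by
  unfold FL
  rw [Finset.sum_comm]
  refine Finset.sum_congr rfl fun τ _ => Finset.sum_congr rfl fun σ _ => ?_
  rw [sw_gev_sub, mul_comm (Perm.sign σ) (Perm.sign τ)]
  congr 2
  funext s
  cases s with
  | inl i => simp [gev]
  | inr i => simp [gev]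

private theorem sw_once_sw {L : List (R ⊕ (Fin m ⊕ Fin m))} (hL : Once L) (h : R) :
    Once (swSub (Sum.elim (fun i => [Sum.inr (Sum.inr i)])
      (fun i => [Sum.inl h, Sum.inr (Sum.inl i)])) L : List (R ⊕ (Fin m ⊕ Fin m))) := by
  refine sw_once_sub hL _ fun j => ?_
  rw [Fintype.sum_sum_type]
  have e1 : ∀ i : Fin m, List.filterMap Sum.getRight? ((Sum.elim (fun i => [Sum.inr (Sum.inr i)])
      (fun i => [Sum.inl h, Sum.inr (Sum.inl i)]) : Fin m ⊕ Fin m →
        List (R ⊕ (Fin m ⊕ Fin m))) (Sum.inl i)) = [Sum.inr i] := fun _ => rfl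
  have e2 : ∀ i : Fin m, List.filterMap Sum.getRight? ((Sum.elim (fun i => [Sum.inr (Sum.inr i)])
      (fun i => [Sum.inl h, Sum.inr (Sum.inl i)]) : Fin m ⊕ Fin m →
        List (R ⊕ (Fin m ⊕ Fin m))) (Sum.inr i)) = [Sum.inl i] := fun _ => rfl
  simp only [e1, e2]
  cases j with
  | inl j => simp [List.count_cons]
  | inr j => simp [List.count_cons]

theorem FL_switch (hP : TwoSided P) (hcap : CapR P (m + 1))
    (L : List (R ⊕ (Fin m ⊕ Fin m))) (hL : Once L) (x z : Fin m → R) (hx : ∀ i, x i ∈ P)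
    (hz : ∀ i, z i ∈ P) (h : R) :
    FL L (fun i => h * x i) z = FL L x (fun i => h * z i) := by
  rw [FL_swap hcap L hL _ z (fun i => hP.left h _ (hx i)) hz, ← sw_FL_sub, ← sw_FL_sub]
  exact FL_swap hcap _ (sw_once_sw hL h) x z hx hz

theorem FL_comm (hP : TwoSided P) (hcap : CapR P (m + 1))
    (L : List (R ⊕ (Fin m ⊕ Fin m))) (hL : Once L) (x z : Fin m → R) (hx : ∀ i, x i ∈ P)
    (hz : ∀ i, z i ∈ P) (h h' : R) :
    FL L x (fun i => h * (h' * z i)) = FL L x (fun i => h' * (h * z i)) := by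
  have h1 := FL_switch hP hcap L hL x (fun i => h' * z i) hx (fun i => hP.left h' _ (hz i)) h
  have h2 := FL_switch hP hcap L hL (fun i => h * x i) z (fun i => hP.left h _ (hx i)) hz h'
  have h3 := FL_switch hP hcap L hL x z hx hz (h' * h)
  rw [← h1, ← h2]
  simp only [← mul_assoc]
  exact h3

/-- the generalised monomial for the Cramer rule. -/
private def swCr (L : List (R ⊕ (Fin m ⊕ Fin m))) (z : Fin m → R) : List (R ⊕ Fin (m + 1)) :=
  Sum.inr 0 :: swSub (Sum.elim (fun i => [Sum.inr i.succ]) (fun j => [Sum.inl (z j)])) L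

private theorem sw_gev_cr (L : List (R ⊕ (Fin m ⊕ Fin m))) (z : Fin m → R)
    (w : Fin (m + 1) → R) :
    gev w (swCr L z) = w 0 * gev (Sum.elim (fun i => w i.succ) z) L := by
  unfold swCr
  rw [sw_gev_inr, sw_gev_sub]
  congr 2
  funext s
  cases s with
  | inl i => simp [gev]
  | inr i => simp [gev]

private theorem sw_once_cr {L : List (R ⊕ (Fin m ⊕ Fin m))} (hL : Once L) (z : Fin m → R) :
    Once (swCr L z) := by
  intro j
  unfold swCr
  have h : List.filterMap Sum.getRight? (Sum.inr 0 :: swSub (Sum.elim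
      (fun i => [Sum.inr i.succ]) (fun j => [Sum.inl (z j)])) L : List (R ⊕ Fin (m + 1))) =
      0 :: List.filterMap Sum.getRight? (swSub (Sum.elim
      (fun i => [Sum.inr i.succ]) (fun j => [Sum.inl (z j)])) L) := rfl
  rw [h, List.count_cons, sw_slots_sub, List.count_flatMap, ((sw_once_perm hL).map _).sum_eq,
    Finset.sum_map_toList, Fintype.sum_sum_type]
  have e1 : ∀ i : Fin m, List.filterMap Sum.getRight? ((Sum.elim (fun i => [Sum.inr i.succ])
      (fun j => [Sum.inl (z j)]) : Fin m ⊕ Fin m → List (R ⊕ Fin (m + 1))) (Sum.inl i)) =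
      [i.succ] := fun _ => rfl
  have e2 : ∀ i : Fin m, List.filterMap Sum.getRight? ((Sum.elim (fun i => [Sum.inr i.succ])
      (fun j => [Sum.inl (z j)]) : Fin m ⊕ Fin m → List (R ⊕ Fin (m + 1))) (Sum.inr i)) =
      [] := fun _ => rfl
  simp only [Function.comp_apply, e1, e2]
  refine Fin.cases ?_ (fun j => ?_) j
  · simp [Fin.succ_ne_zero]
  · simp [List.count_cons, (Fin.succ_ne_zero _).symm]

theorem FL_cramer (hcap : CapR P (m + 1))
    (L : List (R ⊕ (Fin m ⊕ Fin m))) (hL : Once L) (x z : Fin m → R) (hx : ∀ i, x i ∈ P)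
    (y : R) (hy : y ∈ P) :
    y * FL L x z = ∑ i, x i * FL L (Function.update x i y) z := by
  have key : ∀ τ : Perm (Fin m),
      y * ∑ σ : Perm (Fin m), ((Perm.sign σ : ℤˣ) : ℤ) • gev (Sum.elim (x ∘ σ) (z ∘ τ)) L =
      ∑ i, x i * ∑ σ : Perm (Fin m), ((Perm.sign σ : ℤˣ) : ℤ) •
        gev (Sum.elim (Function.update x i y ∘ σ) (z ∘ τ)) L := by
    intro τ
    have h := hcap (swCr L (z ∘ τ)) (sw_once_cr hL _) (Fin.cons y x)
      (fun i => Fin.cases (by simpa using hy) (fun i => by simpa using hx i) i)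
    rw [← Equiv.sum_comp (Equiv.Perm.decomposeFin.symm), Fintype.sum_prod_type,
      Fin.sum_univ_succ] at h
    have h0 : ∑ σ : Perm (Fin m), ((Perm.sign (Equiv.Perm.decomposeFin.symm
        ((0 : Fin (m + 1)), σ)) : ℤˣ) : ℤ) • gev ((Fin.cons y x : Fin (m + 1) → R) ∘
          (Equiv.Perm.decomposeFin.symm ((0 : Fin (m + 1)), σ))) (swCr L (z ∘ τ)) =
        y * ∑ σ : Perm (Fin m), ((Perm.sign σ : ℤˣ) : ℤ) •
          gev (Sum.elim (x ∘ σ) (z ∘ τ)) L := by
      rw [Finset.mul_sum]
      refine Finset.sum_congr rfl fun σ _ => ?_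
      have e0 : ((Fin.cons y x : Fin (m + 1) → R) ∘
          (Equiv.Perm.decomposeFin.symm ((0 : Fin (m + 1)), σ))) 0 = y := by simp
      have e1 : (fun i : Fin m => ((Fin.cons y x : Fin (m + 1) → R) ∘
          (Equiv.Perm.decomposeFin.symm ((0 : Fin (m + 1)), σ))) i.succ) = x ∘ σ := by
        funext i
        simp
      rw [Equiv.Perm.decomposeFin.symm_sign, if_pos rfl, one_mul, sw_gev_cr, mul_smul_comm, e0,
        e1]
    have h1 : ∀ i : Fin m, ∑ σ : Perm (Fin m), ((Perm.sign (Equiv.Perm.decomposeFin.symm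
        (i.succ, σ)) : ℤˣ) : ℤ) • gev ((Fin.cons y x : Fin (m + 1) → R) ∘
          (Equiv.Perm.decomposeFin.symm (i.succ, σ))) (swCr L (z ∘ τ)) =
        -(x i * ∑ σ : Perm (Fin m), ((Perm.sign σ : ℤˣ) : ℤ) •
          gev (Sum.elim (Function.update x i y ∘ σ) (z ∘ τ)) L) := by
      intro i
      rw [Finset.mul_sum, ← Finset.sum_neg_distrib]
      refine Finset.sum_congr rfl fun σ _ => ?_
      have e0 : ((Fin.cons y x : Fin (m + 1) → R) ∘
          (Equiv.Perm.decomposeFin.symm (i.succ, σ))) 0 = x i := by simp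
      have e1 : (fun j : Fin m => ((Fin.cons y x : Fin (m + 1) → R) ∘
          (Equiv.Perm.decomposeFin.symm (i.succ, σ))) j.succ) = Function.update x i y ∘ σ := by
        funext j
        rw [Function.comp_apply, Function.comp_apply, Equiv.Perm.decomposeFin_symm_apply_succ]
        by_cases hj : σ j = i
        · rw [hj, Equiv.swap_apply_right, Function.update_self, Fin.cons_zero]
        · rw [Function.update_of_ne hj, Equiv.swap_apply_of_ne_of_ne (Fin.succ_ne_zero _)
            (fun e => hj (Fin.succ_injective _ e)), Fin.cons_succ]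
      rw [Equiv.Perm.decomposeFin.symm_sign, if_neg (Fin.succ_ne_zero i), sw_gev_cr,
        mul_smul_comm, Units.val_mul, Units.val_neg, Units.val_one, neg_one_mul, neg_smul, e0, e1]
    rw [h0, Finset.sum_congr rfl (fun i _ => h1 i), Finset.sum_neg_distrib, ← sub_eq_add_neg,
      sub_eq_zero] at h
    exact h
  have hFL : ∀ x' : Fin m → R, FL L x' z = ∑ τ : Perm (Fin m), ((Perm.sign τ : ℤˣ) : ℤ) •
      ∑ σ : Perm (Fin m), ((Perm.sign σ : ℤˣ) : ℤ) • gev (Sum.elim (x' ∘ σ) (z ∘ τ)) L := by
    intro x'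
    unfold FL
    rw [Finset.sum_comm]
    refine Finset.sum_congr rfl fun τ _ => ?_
    rw [Finset.smul_sum]
    refine Finset.sum_congr rfl fun σ _ => ?_
    rw [smul_smul, Units.val_mul, mul_comm]
  rw [hFL, Finset.mul_sum]
  simp only [hFL, Finset.mul_sum]
  rw [Finset.sum_comm]
  refine Finset.sum_congr rfl fun τ _ => ?_
  have h2 := key τ
  rw [mul_smul_comm, h2, Finset.smul_sum]
  refine Finset.sum_congr rfl fun i _ => ?_
  rw [mul_smul_comm]

private theorem sw_gev_ofFn {n : ℕ} {ι : Type*} (y : ι → R) (f : Fin n → ι) (w : Fin n → R) :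
    gev y ((List.ofFn fun i : Fin n => [Sum.inr (f i), Sum.inl (w i)]).flatten :
      List (R ⊕ ι)) = (List.ofFn fun i : Fin n => y (f i) * w i).prod := by
  induction n with
  | zero => rfl
  | succ n ih =>
    rw [List.ofFn_succ, List.ofFn_succ, List.flatten_cons, sw_gev_append, List.prod_cons, ih]
    congr 1
    rw [sw_gev_inr, sw_gev_inl, sw_gev_nil, mul_one]

private theorem sw_slots_ofFn {n : ℕ} {ι : Type*} (f : Fin n → ι) (w : Fin n → R) :
    ((List.ofFn fun i : Fin n => [Sum.inr (f i), Sum.inl (w i)]).flatten :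
      List (R ⊕ ι)).filterMap Sum.getRight? = List.ofFn f := by
  induction n with
  | zero => rfl
  | succ n ih =>
    rw [List.ofFn_succ, List.ofFn_succ, List.flatten_cons, List.filterMap_append, ih]
    rfl

private theorem sw_count_one {κ : Type*} [DecidableEq κ] {l : List κ} (hl : l.Nodup) {a : κ}
    (ha : a ∈ l) : l.count a = 1 := List.count_eq_one_of_mem hl ha

private theorem sw_count_append {κ : Type*} [DecidableEq κ] (l l' : List κ) (a : κ) :
    (l ++ l').count a = l.count a + l'.count a := List.count_append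

private theorem sw_count_zero {κ : Type*} [DecidableEq κ] {l : List κ} {a : κ}
    (ha : a ∉ l) : l.count a = 0 := List.count_eq_zero_of_not_mem ha

theorem cap_mul_cap (u v : Fin (m + 1) → R) :
    ∃ L : List (R ⊕ (Fin m ⊕ Fin m)), Once L ∧
      ∀ x z : Fin m → R, cap m u x * cap m v z = FL L x z := by
  refine ⟨(Sum.inl (u 0) :: (List.ofFn fun i : Fin m =>
    [Sum.inr (Sum.inl i), Sum.inl (u i.succ)]).flatten) ++
    (Sum.inl (v 0) :: (List.ofFn fun i : Fin m =>
    [Sum.inr (Sum.inr i), Sum.inl (v i.succ)]).flatten), ?_, ?_⟩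
  · intro j
    rw [List.filterMap_append]
    have h1 : ∀ (r : R) (l : List (R ⊕ (Fin m ⊕ Fin m))),
        (Sum.inl r :: l).filterMap Sum.getRight? = l.filterMap Sum.getRight? := fun _ _ => rfl
    rw [h1, h1, sw_slots_ofFn (fun i : Fin m => (Sum.inl i : Fin m ⊕ Fin m)),
      sw_slots_ofFn (fun i : Fin m => (Sum.inr i : Fin m ⊕ Fin m)), sw_count_append]
    cases j with
    | inl j =>
      rw [sw_count_one (List.nodup_ofFn.2 Sum.inl_injective) (List.mem_ofFn.2 ⟨j, rfl⟩),
        sw_count_zero]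
      rw [List.mem_ofFn]
      rintro ⟨i, hi⟩
      exact absurd hi (by simp)
    | inr j =>
      rw [sw_count_one (List.nodup_ofFn.2 Sum.inr_injective) (List.mem_ofFn.2 ⟨j, rfl⟩),
        sw_count_zero]
      rw [List.mem_ofFn]
      rintro ⟨i, hi⟩
      exact absurd hi (by simp)
  · intro x z
    unfold cap FL
    rw [Finset.sum_mul]
    refine Finset.sum_congr rfl fun σ _ => ?_
    rw [Finset.mul_sum]
    refine Finset.sum_congr rfl fun τ _ => ?_
    rw [smul_mul_smul_comm, ← Units.val_mul, sw_gev_append, sw_gev_inl, sw_gev_inl,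
      sw_gev_ofFn (Sum.elim (x ∘ σ) (z ∘ τ)) (fun i : Fin m => (Sum.inl i : Fin m ⊕ Fin m)),
      sw_gev_ofFn (Sum.elim (x ∘ σ) (z ∘ τ)) (fun i : Fin m => (Sum.inr i : Fin m ⊕ Fin m))]
    rfl

/-- the decomposition of a generalised monomial at its slots. -/
private def swSplit {ι : Type*} : List (R ⊕ ι) → R × List (ι × R)
  | [] => (1, [])
  | Sum.inl r :: L => (r * (swSplit L).1, (swSplit L).2)
  | Sum.inr i :: L => (1, (i, (swSplit L).1) :: (swSplit L).2)

private theorem sw_gev_split {ι : Type*} (y : ι → R) (L : List (R ⊕ ι)) :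
    gev y L = (swSplit L).1 * ((swSplit L).2.map fun p => y p.1 * p.2).prod := by
  induction L with
  | nil => simp [gev, swSplit]
  | cons a L ih =>
    cases a with
    | inl r => rw [sw_gev_inl, ih, swSplit, mul_assoc]
    | inr i => rw [sw_gev_inr, ih, swSplit, one_mul, List.map_cons, List.prod_cons, mul_assoc]

private theorem sw_slots_split {ι : Type*} (L : List (R ⊕ ι)) :
    L.filterMap Sum.getRight? = (swSplit L).2.map Prod.fst := by
  induction L with
  | nil => rfl
  | cons a L ih =>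
    cases a with
    | inl r =>
      rw [swSplit, ← ih]
      rfl
    | inr i =>
      rw [swSplit, List.map_cons, ← ih]
      rfl

theorem capR_of_cap (P : AddSubgroup R) (M : ℕ)
    (h : ∀ (w : Fin (M + 1) → R) (x : Fin M → R), (∀ i, x i ∈ P) → cap M w x = 0) :
    CapR P M := by
  intro L hL x hx
  have hperm := sw_once_perm hL
  rw [sw_slots_split] at hperm
  have hlen : (swSplit L).2.length = M := by
    have := hperm.length_eq
    simpa using this
  have hnd : ((swSplit L).2.map Prod.fst).Nodup := hperm.nodup_iff.2 (Finset.nodup_toList _)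
  obtain ⟨p, hp⟩ : ∃ p : Fin M → Fin M × R, (swSplit L).2 = List.ofFn p := by
    refine ⟨fun i => (swSplit L).2.get (i.cast hlen.symm), ?_⟩
    apply List.ext_get
    · simp [hlen]
    · intro n h1 h2
      simp
  rw [hp, List.map_ofFn, List.nodup_ofFn] at hnd
  have hbij : Function.Bijective (Prod.fst ∘ p) := Finite.injective_iff_bijective.1 hnd
  let π : Perm (Fin M) := Equiv.ofBijective _ hbij
  have hπ : ∀ i, (p i).1 = π i := fun i => rfl
  let w : Fin (M + 1) → R := Fin.cons (swSplit L).1 fun i => (p i).2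
  have hgev : ∀ y : Fin M → R, gev y L =
      w 0 * (List.ofFn fun i : Fin M => y (π i) * w i.succ).prod := by
    intro y
    rw [sw_gev_split, hp, List.map_ofFn]
    rfl
  have hcap := h w x hx
  unfold cap at hcap
  rw [← Equiv.sum_comp (Equiv.mulRight π)] at hcap
  have h2 : ∑ σ : Perm (Fin M), ((Perm.sign σ : ℤˣ) : ℤ) • gev (x ∘ σ) L =
      ((Perm.sign π : ℤˣ) : ℤ) • ∑ σ : Perm (Fin M),
        ((Perm.sign ((Equiv.mulRight π) σ) : ℤˣ) : ℤ) •
        (w 0 * (List.ofFn fun i : Fin M => x ((Equiv.mulRight π) σ i) * w i.succ).prod) := by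
    rw [Finset.smul_sum]
    refine Finset.sum_congr rfl fun σ _ => ?_
    rw [smul_smul, hgev, Equiv.coe_mulRight, Perm.sign_mul, Units.val_mul]
    have h3 : ((Perm.sign π : ℤˣ) : ℤ) * (((Perm.sign σ : ℤˣ) : ℤ) * ((Perm.sign π : ℤˣ) : ℤ)) =
        ((Perm.sign σ : ℤˣ) : ℤ) := by
      have h4 : ((Perm.sign π : ℤˣ) : ℤ) * ((Perm.sign π : ℤˣ) : ℤ) = 1 := by
        rw [← Units.val_mul, Int.units_mul_self, Units.val_one]
      calc _ = ((Perm.sign σ : ℤˣ) : ℤ) *
            (((Perm.sign π : ℤˣ) : ℤ) * ((Perm.sign π : ℤˣ) : ℤ)) := by ring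
        _ = _ := by rw [h4, mul_one]
    rw [h3]
    rfl
  rw [h2, hcap, smul_zero]

end TF
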