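import Pool.Agent.H66.TF.AltDefs

/-!
# TF-TENSOR: the Capelli identity passes to `R ⊗ C`, `C` a commutative ring

`PT P C` = additive subgroup of `R ⊗[ℤ] C` generated by the `x ⊗ c`, `x ∈ P`.

`capR_tensor`: the alternating sum is additive in every filler (item `inl r` of the list) and in every
variable `x i`; so it is enough to prove that it vanishes when all fillers are pure tensors `r ⊗ c` and
all `x i = y i ⊗ c i` with `y i ∈ P`. Then each summand is `(gev (y ∘ σ) L₀) ⊗ (product of all the c's)`.
(For the reduction: e.g. first prove that for fixed `L` the expression, as a function of one variable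
`x i` (others fixed), is additive (`AddSubgroup.closure_induction` one variable at a time); for the
fillers do an induction over the list, or restrict to the form `w_0 x_{σ 0} w_1 ⋯` first.)
-/

open Finset Equiv TensorProduct

namespace TF

/-- the extension of `P` to `R ⊗ C` -/
def PT {R : Type*} [Ring R] (P : AddSubgroup R) (C : Type*) [CommRing C] :
    AddSubgroup (R ⊗[ℤ] C) :=
  AddSubgroup.closure {z | ∃ x ∈ P, ∃ c : C, z = x ⊗ₜ[ℤ] c}

namespace TC

section gen

variable {A ι : Type*} [Ring A] [DecidableEq ι]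

lemma gev_append {A ι : Type*} [Monoid A] (x : ι → A) (L₁ L₂ : List (A ⊕ ι)) :
    gev x (L₁ ++ L₂) = gev x L₁ * gev x L₂ := by
  simp [gev]

lemma gev_cons {A ι : Type*} [Monoid A] (x : ι → A) (a : A ⊕ ι) (L : List (A ⊕ ι)) :
    gev x (a :: L) = Sum.elim id x a * gev x L := by
  simp [gev]

lemma once_split {L : List (A ⊕ ι)} (h : Once L) (j : ι) :
    ∃ L₁ L₂ : List (A ⊕ ι), L = L₁ ++ Sum.inr j :: L₂ ∧ Sum.inr j ∉ L₁ ∧ Sum.inr j ∉ L₂ := by
  have hmem : ∀ L : List (A ⊕ ι), Sum.inr j ∈ L ↔ 0 < (L.filterMap Sum.getRight?).count j := by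
    intro L
    rw [List.count_pos_iff, List.mem_filterMap]
    constructor
    · intro h
      exact ⟨_, h, rfl⟩
    · rintro ⟨a, ha, haj⟩
      rcases a with a | a
      · simp at haj
      · simp only [Sum.getRight?_inr, Option.some.injEq] at haj
        rwa [haj] at ha
  have h1 : Sum.inr j ∈ L := (hmem L).2 (by rw [h j]; exact Nat.one_pos)
  obtain ⟨L₁, L₂, rfl⟩ := List.append_of_mem h1
  have h2 := h j
  rw [List.filterMap_append, List.filterMap_cons_some (f := Sum.getRight?) (b := j) rfl,
    List.count_append, List.count_cons_self] at h2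
  refine ⟨L₁, L₂, rfl, ?_, ?_⟩
  · rw [hmem]
    omega
  · rw [hmem]
    omega

lemma gev_update_of_notMem (y : ι → A) (j : ι) (a : A) {L : List (A ⊕ ι)} (h : Sum.inr j ∉ L) :
    gev (Function.update y j a) L = gev y L := by
  induction L with
  | nil => rfl
  | cons b L ih =>
    rw [gev_cons, gev_cons, ih fun h' => h (List.mem_cons_of_mem _ h')]
    congr 1
    rcases b with b | b
    · rfl
    · have : b ≠ j := fun h' => h (by rw [h']; exact List.mem_cons_self)
      simp [Function.update_of_ne this]

/-- `gev` is additive in the variable `j` -/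
lemma exists_hom {L : List (A ⊕ ι)} (h : Once L) (y : ι → A) (j : ι) :
    ∃ φ : A →+ A, ∀ a, gev (Function.update y j a) L = φ a := by
  obtain ⟨L₁, L₂, rfl, h1, h2⟩ := once_split h j
  refine ⟨(AddMonoidHom.mulLeft (gev y L₁)).comp (AddMonoidHom.mulRight (gev y L₂)), fun a => ?_⟩
  rw [gev_append, gev_cons, gev_update_of_notMem y j a h1, gev_update_of_notMem y j a h2]
  simp

/-- the alternating sum -/
noncomputable def F {M : ℕ} (L : List (A ⊕ Fin M)) (x : Fin M → A) : A :=
  ∑ σ : Perm (Fin M), ((Perm.sign σ : ℤˣ) : ℤ) • gev (x ∘ σ) L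

lemma exists_homF {M : ℕ} {L : List (A ⊕ Fin M)} (h : Once L) (x : Fin M → A) (i : Fin M) :
    ∃ φ : A →+ A, ∀ a, F L (Function.update x i a) = φ a := by
  choose φ hφ using fun σ : Perm (Fin M) => exists_hom h (x ∘ σ) (σ.symm i)
  refine ⟨∑ σ : Perm (Fin M), ((Perm.sign σ : ℤˣ) : ℤ) • φ σ, fun a => ?_⟩
  unfold F
  rw [AddMonoidHom.finsetSum_apply]
  refine Finset.sum_congr rfl fun σ _ => ?_
  rw [Function.update_comp_equiv, hφ]
  rfl

end gen

section tensor

variable {R : Type*} [Ring R] (P : AddSubgroup R) (C : Type*) [CommRing C] {M : ℕ}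

lemma prod_split {C : Type*} [CommRing C] (L : List ((R × C) ⊕ Fin M)) (d : Fin M → C) :
    (L.map (Sum.elim (fun p => p.2) d)).prod =
      ((L.filterMap Sum.getLeft?).map fun p => p.2).prod *
        ((L.filterMap Sum.getRight?).map d).prod := by
  induction L with
  | nil => simp
  | cons a L ih =>
    rcases a with a | a
    · rw [List.map_cons, List.prod_cons, ih,
        List.filterMap_cons_some (f := Sum.getLeft?) (b := a) rfl,
        List.filterMap_cons_none (f := Sum.getRight?) rfl, List.map_cons, List.prod_cons,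
        Sum.elim_inl, mul_assoc]
    · rw [List.map_cons, List.prod_cons, ih, List.filterMap_cons_none (f := Sum.getLeft?) rfl,
        List.filterMap_cons_some (f := Sum.getRight?) (b := a) rfl, List.map_cons,
        List.prod_cons, Sum.elim_inr]
      ring

lemma prod_once {C : Type*} [CommRing C] {l : List (Fin M)} (h : ∀ i, l.count i = 1)
    (d : Fin M → C) : (l.map d).prod = ∏ i, d i := by
  have h1 : (l : Multiset (Fin M)) = (Finset.univ : Finset (Fin M)).val := by
    ext i
    rw [Multiset.coe_count, h i, Multiset.count_eq_one_of_mem Finset.univ.nodup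
      (Finset.mem_univ i)]
  have h2 : (l.map d).prod = (Multiset.map d (l : Multiset (Fin M))).prod := by simp
  rw [h2, h1]
  rfl

/-- a pure list -/
def toA {C : Type*} [CommRing C] (L : List ((R × C) ⊕ Fin M)) : List ((R ⊗[ℤ] C) ⊕ Fin M) :=
  L.map (Sum.map (fun p => p.1 ⊗ₜ[ℤ] p.2) id)

lemma gev_toA {C : Type*} [CommRing C] (L : List ((R × C) ⊕ Fin M)) (y : Fin M → R)
    (c : Fin M → C) :
    gev (fun i => y i ⊗ₜ[ℤ] c i) (toA L) =
      gev y (L.map (Sum.map (fun p => p.1) id)) ⊗ₜ[ℤ]
        (L.map (Sum.elim (fun p => p.2) c)).prod := by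
  induction L with
  | nil => rfl
  | cons a L ih =>
    have : toA (a :: L) = Sum.map (fun p : R × C => p.1 ⊗ₜ[ℤ] p.2) id a :: toA L := rfl
    rw [this, gev_cons, ih, List.map_cons, List.map_cons, gev_cons, List.prod_cons]
    rcases a with a | a
    · simp
    · simp

lemma once_toA {C : Type*} [CommRing C] {L : List ((R × C) ⊕ Fin M)} (h : Once (toA L)) :
    ∀ i, (L.filterMap Sum.getRight?).count i = 1 := by
  intro i
  rw [← h i]
  congr 1
  unfold toA
  rw [List.filterMap_map]
  congr 1
  funext a
  rcases a with a | a <;> rfl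

lemma once_fst {C : Type*} [CommRing C] {L : List ((R × C) ⊕ Fin M)} (h : Once (toA L)) :
    Once (L.map (Sum.map (fun p => p.1) id)) := by
  intro i
  rw [← once_toA h i, List.filterMap_map]
  congr 1
  congr 1
  funext a
  rcases a with a | a <;> rfl

lemma F_pure {P : AddSubgroup R} {C : Type*} [CommRing C] (h : CapR P M)
    {L : List ((R × C) ⊕ Fin M)} (hL : Once (toA L)) (y : Fin M → R) (hy : ∀ i, y i ∈ P)
    (c : Fin M → C) : F (toA L) (fun i => y i ⊗ₜ[ℤ] c i) = 0 := by
  have h1 := h _ (once_fst hL) y hy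
  unfold F
  have h2 : ∀ σ : Perm (Fin M), gev ((fun i => y i ⊗ₜ[ℤ] c i) ∘ σ) (toA L) =
      gev (y ∘ σ) (L.map (Sum.map (fun p => p.1) id)) ⊗ₜ[ℤ]
        (((L.filterMap Sum.getLeft?).map fun p => p.2).prod * ∏ i, c i) := by
    intro σ
    have := gev_toA L (y ∘ σ) (c ∘ σ)
    have h3 : ∏ i, (c ∘ σ) i = ∏ i, c i := Equiv.prod_comp σ c
    rw [prod_split, prod_once (once_toA hL), h3] at this
    exact this
  simp only [h2, TensorProduct.smul_tmul']
  rw [← TensorProduct.sum_tmul, h1, TensorProduct.zero_tmul]

/-- general fillers, pure variables -/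
lemma F_fillers {P : AddSubgroup R} {C : Type*} [CommRing C] (h : CapR P M)
    (y : Fin M → R) (hy : ∀ i, y i ∈ P) (c : Fin M → C) (L₂ : List ((R ⊗[ℤ] C) ⊕ Fin M)) :
    ∀ L₁ : List ((R × C) ⊕ Fin M), Once (toA L₁ ++ L₂) →
      F (toA L₁ ++ L₂) (fun i => y i ⊗ₜ[ℤ] c i) = 0 := by
  induction L₂ with
  | nil =>
    intro L₁ hL
    rw [List.append_nil] at hL ⊢
    exact F_pure h hL y hy c
  | cons a L₂ ih =>
    intro L₁ hL
    rcases a with w | j
    · have hadd : ∀ w w' : R ⊗[ℤ] C, F (toA L₁ ++ Sum.inl (w + w') :: L₂)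
          (fun i => y i ⊗ₜ[ℤ] c i) = F (toA L₁ ++ Sum.inl w :: L₂) (fun i => y i ⊗ₜ[ℤ] c i) +
          F (toA L₁ ++ Sum.inl w' :: L₂) (fun i => y i ⊗ₜ[ℤ] c i) := by
        intro w w'
        unfold F
        rw [← Finset.sum_add_distrib]
        refine Finset.sum_congr rfl fun σ _ => ?_
        rw [← smul_add]
        congr 1
        simp only [gev_append, gev_cons, Sum.elim_inl, id]
        rw [add_mul, mul_add]
      have honce : ∀ w' : R ⊗[ℤ] C, Once (toA L₁ ++ Sum.inl w' :: L₂) := by
        intro w' i
        rw [← hL i]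
        congr 1
        rw [List.filterMap_append, List.filterMap_append, List.filterMap_cons_none rfl,
          List.filterMap_cons_none rfl]
      clear hL
      induction w using TensorProduct.induction_on with
      | zero =>
        unfold F
        refine Finset.sum_eq_zero fun σ _ => ?_
        simp only [gev_append, gev_cons, Sum.elim_inl, id]
        rw [zero_mul, mul_zero, smul_zero]
      | tmul r d =>
        have h1 : toA L₁ ++ Sum.inl (r ⊗ₜ[ℤ] d) :: L₂ =
            toA (L₁ ++ [Sum.inl (r, d)]) ++ L₂ := by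
          simp [toA]
        rw [h1]
        refine ih _ ?_
        rw [← h1]
        exact honce _
      | add w w' hw hw' =>
        rw [hadd, hw, hw', add_zero]
    · have h1 : toA L₁ ++ Sum.inr j :: L₂ = toA (L₁ ++ [Sum.inr j]) ++ L₂ := by
        simp [toA]
      rw [h1] at hL ⊢
      exact ih _ hL

end tensor

end TC

open TC in
theorem capR_tensor {R : Type*} [Ring R] (P : AddSubgroup R) (C : Type*) [CommRing C] (M : ℕ)
    (h : CapR P M) : CapR (PT P C) M := by
  intro L hL
  have key : ∀ S : Finset (Fin M), ∀ x : Fin M → R ⊗[ℤ] C, (∀ i ∈ S, x i ∈ PT P C) →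
      (∀ i, i ∉ S → ∃ y ∈ P, ∃ c : C, x i = y ⊗ₜ[ℤ] c) → F L x = 0 := by
    intro S
    induction S using Finset.induction_on with
    | empty =>
      intro x _ hx
      choose y hy c hc using fun i => hx i (Finset.notMem_empty i)
      have h1 : x = fun i => y i ⊗ₜ[ℤ] c i := funext hc
      rw [h1]
      exact F_fillers h y hy c L [] hL
    | insert i S hi ih =>
      intro x hx hx'
      obtain ⟨φ, hφ⟩ := exists_homF hL x i
      have h0 : PT P C ≤ φ.ker := by
        unfold PT
        rw [AddSubgroup.closure_le]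
        rintro z ⟨y, hy, c, rfl⟩
        rw [SetLike.mem_coe, AddMonoidHom.mem_ker, ← hφ]
        refine ih _ ?_ ?_
        · intro j hj
          have hji : j ≠ i := fun h' => hi (h' ▸ hj)
          rw [Function.update_of_ne hji]
          exact hx j (Finset.mem_insert_of_mem hj)
        · intro j hj
          by_cases hji : j = i
          · subst hji
            rw [Function.update_self]
            exact ⟨y, hy, c, rfl⟩
          · rw [Function.update_of_ne hji]
            exact hx' j fun h' => by
              rcases Finset.mem_insert.1 h' with h' | h'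
              · exact hji h'
              · exact hj h'
      have h1 := hφ (x i)
      rw [Function.update_eq_self] at h1
      rw [h1]
      exact h0 (hx i (Finset.mem_insert_self i S))
  intro x hx
  exact key Finset.univ x (fun i _ => hx i) fun i hi => absurd (Finset.mem_univ i) hi

theorem twoSided_tensor {R : Type*} [Ring R] (P : AddSubgroup R) (C : Type*) [CommRing C]
    (h : TwoSided P) : TwoSided (PT P C) := by
  constructor
  · intro r x hx
    have h0 : PT P C ≤ (PT P C).comap (AddMonoidHom.mulLeft r) := by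
      conv_lhs => unfold PT
      rw [AddSubgroup.closure_le]
      rintro z ⟨y, hy, c, rfl⟩
      rw [SetLike.mem_coe, AddSubgroup.mem_comap, AddMonoidHom.coe_mulLeft]
      induction r using TensorProduct.induction_on with
      | zero => rw [zero_mul]; exact (PT P C).zero_mem
      | tmul s d =>
        rw [Algebra.TensorProduct.tmul_mul_tmul]
        exact AddSubgroup.subset_closure ⟨_, h.left s y hy, _, rfl⟩
      | add r r' hr hr' => rw [add_mul]; exact (PT P C).add_mem hr hr'
    exact h0 hx
  · intro r x hx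
    have h0 : PT P C ≤ (PT P C).comap (AddMonoidHom.mulRight r) := by
      conv_lhs => unfold PT
      rw [AddSubgroup.closure_le]
      rintro z ⟨y, hy, c, rfl⟩
      rw [SetLike.mem_coe, AddSubgroup.mem_comap, AddMonoidHom.mulRight_apply]
      induction r using TensorProduct.induction_on with
      | zero => rw [mul_zero]; exact (PT P C).zero_mem
      | tmul s d =>
        rw [Algebra.TensorProduct.tmul_mul_tmul]
        exact AddSubgroup.subset_closure ⟨_, h.right s y hy, _, rfl⟩
      | add r r' hr hr' => rw [mul_add]; exact (PT P C).add_mem hr hr'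
    exact h0 hx

end TF
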