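import Pool.Agent.H66.TF.ThNat

/-!
# TF-THCONJ: `ConjRel (thC …)`

For `a ≠ b` let `φ_L = subP (lft a) (lft b)` (`T ↦ u T`, `u = 1 + E_{ab}`: row `a += b`) and
`φ_R = subP (rgt b) (rgt a)` (`T ↦ T u`: column `b += a`), homogeneous of degree 1. By `TH_map`
`mapR (tsub φ_L) TH = theta (1 + uT) (uY)`, `mapR (tsub φ_R) TH = theta (1 + Tu) (Yu)`, and `theta_conj`
for `M = 1 + T u`, `Y u` gives `theta (1 + u T) (u Y) = theta (1 + T u) (Y u)` (`u (1 + T u) u⁻¹ = 1 + u T`,
`u⁻¹ = 1 - E_{ab}`; `P` there is `PT P C`, `capR_tensor`, `twoSided_tensor`). Apply `tcR c` and `tcR_tsub`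
on both sides, then `move_eq` (twice). If `tot c ≠ n + 1` both sides of the relation are `0`, since
`Move` preserves the total.
-/

open Finset Equiv TensorProduct

namespace TF

theorem thconj_lft_injective {K N : ℕ} (a : Fin N) : Function.Injective (lft (K := K) a) := by
  intro p q h
  simp only [lft, Prod.mk.injEq] at h
  exact Prod.ext h.1 h.2.2

theorem thconj_rgt_injective {K N : ℕ} (a : Fin N) : Function.Injective (rgt (K := K) a) := by
  intro p q h
  simp only [rgt, Prod.mk.injEq] at h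
  exact Prod.ext h.1 h.2.1

theorem thconj_lft_ne {K N : ℕ} {a b : Fin N} (hab : a ≠ b) (p q : Fin K × Fin N) :
    lft a p ≠ lft b q := by
  intro h
  simp only [lft, Prod.mk.injEq] at h
  exact hab h.2.1

theorem thconj_rgt_ne {K N : ℕ} {a b : Fin N} (hab : a ≠ b) (p q : Fin K × Fin N) :
    rgt a p ≠ rgt b q := by
  intro h
  simp only [rgt, Prod.mk.injEq] at h
  exact hab h.2.2

theorem subP_homog {σ ι : Type*} [Fintype ι] [DecidableEq σ] (s t : ι → σ) (v : σ) :
    (subP s t v).IsHomogeneous 1 := by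
  unfold subP
  apply MvPolynomial.IsHomogeneous.add
  · exact MvPolynomial.isHomogeneous_X ℤ v
  · apply MvPolynomial.IsHomogeneous.sum
    intro j _
    exact MvPolynomial.isHomogeneous_X ℤ (t j)

theorem thconj_filter_lft {K N : ℕ} (a : Fin N) (i : Fin K) (p q : Fin N) :
    (univ.filter fun j : Fin K × Fin N => lft a j = (i, p, q)) = if p = a then {(i, q)} else ∅ := by
  ext ⟨j1, j2⟩
  by_cases h : p = a
  · subst h
    simp [lft, Prod.ext_iff]
  · simp only [lft, Finset.mem_filter, Finset.mem_univ, true_and, if_neg h, Prod.mk.injEq]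
    constructor
    · intro h'
      exact absurd h'.2.1.symm h
    · intro h'
      exact absurd h' (Finset.notMem_empty _)

theorem thconj_filter_rgt {K N : ℕ} (a : Fin N) (i : Fin K) (p q : Fin N) :
    (univ.filter fun j : Fin K × Fin N => rgt a j = (i, p, q)) = if q = a then {(i, p)} else ∅ := by
  ext ⟨j1, j2⟩
  by_cases h : q = a
  · subst h
    simp [rgt, Prod.ext_iff]
  · simp only [rgt, Finset.mem_filter, Finset.mem_univ, true_and, if_neg h, Prod.mk.injEq]
    constructor
    · intro h'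
      exact absurd h'.2.2.symm h
    · intro h'
      exact absurd h' (Finset.notMem_empty _)

theorem tsub_lft {K N D : ℕ} (a b : Fin N) (i : Fin K) (p q : Fin N) :
    tsub (D := D) (subP (lft (K := K) a) (lft b)) (subP_homog _ _) (tX (i, p, q))
      = tX (i, p, q) + if p = a then tX (i, b, q) else 0 := by
  rw [tsub_tX, subP, thconj_filter_lft]
  by_cases h : p = a
  · rw [if_pos h, if_pos h, Finset.sum_singleton, map_add]
    rfl
  · rw [if_neg h, if_neg h, Finset.sum_empty, map_add, map_zero]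
    rfl

theorem tsub_rgt {K N D : ℕ} (a b : Fin N) (i : Fin K) (p q : Fin N) :
    tsub (D := D) (subP (rgt (K := K) b) (rgt a)) (subP_homog _ _) (tX (i, p, q))
      = tX (i, p, q) + if q = b then tX (i, p, a) else 0 := by
  rw [tsub_tX, subP, thconj_filter_rgt]
  by_cases h : q = b
  · rw [if_pos h, if_pos h, Finset.sum_singleton, map_add]
    rfl
  · rw [if_neg h, if_neg h, Finset.sum_empty, map_add, map_zero]
    rfl

theorem single_mul_apply' {R : Type*} [Ring R] {N : ℕ} (a b : Fin N) (M : Matrix (Fin N) (Fin N) R)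
    (p q : Fin N) :
    ((1 + Matrix.single a b (1 : R)) * M) p q = M p q + if p = a then M b q else 0 := by
  rw [add_mul, one_mul, Matrix.add_apply]
  congr 1
  by_cases h : p = a
  · subst h
    rw [if_pos rfl, Matrix.single_mul_apply_same, one_mul]
  · rw [if_neg h, Matrix.single_mul_apply_of_ne _ _ _ _ _ h]

theorem mul_single_apply' {R : Type*} [Ring R] {N : ℕ} (a b : Fin N) (M : Matrix (Fin N) (Fin N) R)
    (p q : Fin N) :
    (M * (1 + Matrix.single a b (1 : R))) p q = M p q + if q = b then M p a else 0 := by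
  rw [mul_add, mul_one, Matrix.add_apply]
  congr 1
  by_cases h : q = b
  · subst h
    rw [if_pos rfl, Matrix.mul_single_apply_same, mul_one]
  · rw [if_neg h, Matrix.mul_single_apply_of_ne _ _ _ _ _ h]

theorem u_mul_inv {R : Type*} [Ring R] {N : ℕ} (a b : Fin N) (hab : a ≠ b) :
    (1 + Matrix.single a b (1 : R)) * (1 - Matrix.single a b (1 : R)) = 1 := by
  have h : Matrix.single a b (1 : R) * Matrix.single a b (1 : R) = 0 :=
    Matrix.single_mul_single_of_ne (c := (1 : R)) a b a hab.symm (1 : R)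
  rw [mul_sub, mul_one, add_mul, one_mul, h]
  simp

theorem theta_lr {S : Type*} [Ring S] {P : AddSubgroup S} {m : ℕ} (hP : TwoSided P)
    (hcap : CapR P (m + 1)) (J : Ideal S) [J.IsTwoSided] (hJ : IsNilpotent J) {N : ℕ}
    (L : List (S ⊕ (Fin m ⊕ Fin m))) (hL : Once L) (x z : Fin m → S) (hx : ∀ i, x i ∈ P)
    (hz : ∀ i, z i ∈ P) (w : S) (T Y : Matrix (Fin N) (Fin N) S) (hT : ∀ i j, T i j ∈ J)
    (hY : ∀ i j r, Y i j * r = r * Y i j) (a b : Fin N) (hab : a ≠ b) :
    theta L x z w (1 + (1 + Matrix.single a b (1 : S)) * T) ((1 + Matrix.single a b (1 : S)) * Y)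
      = theta L x z w (1 + T * (1 + Matrix.single a b (1 : S)))
          (Y * (1 + Matrix.single a b (1 : S))) := by
  have key := theta_conj hP hcap J hJ L hL x z hx hz w (1 + T * (1 + Matrix.single a b (1 : S)))
    (Y * (1 + Matrix.single a b (1 : S))) (by
      intro p q
      rw [add_sub_cancel_left, mul_single_apply']
      apply Ideal.add_mem _ (hT p q)
      split_ifs
      · exact hT _ _
      · exact Ideal.zero_mem _) (by
      intro p q r
      rw [mul_single_apply', add_mul, mul_add, hY]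
      congr 1
      split_ifs
      · exact hY _ _ _
      · rw [zero_mul, mul_zero]) a b hab
  rw [← key]
  have hu1 : (1 + Matrix.single a b (1 : S)) * (1 - Matrix.single a b 1) = 1 := u_mul_inv a b hab
  have f1 : (1 + Matrix.single a b (1 : S)) * (1 + T * (1 + Matrix.single a b (1 : S)))
      * (1 - Matrix.single a b 1) = 1 + (1 + Matrix.single a b (1 : S)) * T := by
    rw [mul_add, mul_one, add_mul, hu1, mul_assoc, mul_assoc, hu1, mul_one]
  have f2 : (1 + Matrix.single a b (1 : S)) * (Y * (1 + Matrix.single a b (1 : S)))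
      * (1 - Matrix.single a b 1) = (1 + Matrix.single a b (1 : S)) * Y := by
    rw [mul_assoc, mul_assoc, hu1, mul_one]
  rw [f1, f2]

section gen

variable {R C : Type*} [Ring R] [CommRing C] {k N : ℕ}

theorem gen1 (a' : Fin k → R) (g g' : Fin k → Fin N → Fin N → C) (a b : Fin N)
    (hg : ∀ i p q, g' i p q = g i p q + if p = a then g i b q else 0) :
    (Matrix.of fun p q : Fin N => ∑ i : Fin k, a' i ⊗ₜ[ℤ] g' i p q)
      = (1 + Matrix.single a b (1 : R ⊗[ℤ] C)) *
        Matrix.of fun p q : Fin N => ∑ i : Fin k, a' i ⊗ₜ[ℤ] g i p q := by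
  ext p q
  rw [single_mul_apply']
  simp only [Matrix.of_apply, hg]
  by_cases h : p = a
  · simp only [if_pos h, ← Finset.sum_add_distrib, TensorProduct.tmul_add]
  · simp only [if_neg h, add_zero]

theorem gen2 (g g' : Fin N → Fin N → C) (a b : Fin N)
    (hg : ∀ p q, g' p q = g p q + if p = a then g b q else 0) :
    (Matrix.of fun p q : Fin N => (1 : R) ⊗ₜ[ℤ] g' p q)
      = (1 + Matrix.single a b (1 : R ⊗[ℤ] C)) *
        Matrix.of fun p q : Fin N => (1 : R) ⊗ₜ[ℤ] g p q := by
  ext p q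
  rw [single_mul_apply']
  simp only [Matrix.of_apply, hg]
  by_cases h : p = a
  · simp only [if_pos h, TensorProduct.tmul_add]
  · simp only [if_neg h, add_zero]

theorem gen3 (a' : Fin k → R) (g g' : Fin k → Fin N → Fin N → C) (a b : Fin N)
    (hg : ∀ i p q, g' i p q = g i p q + if q = b then g i p a else 0) :
    (Matrix.of fun p q : Fin N => ∑ i : Fin k, a' i ⊗ₜ[ℤ] g' i p q)
      = (Matrix.of fun p q : Fin N => ∑ i : Fin k, a' i ⊗ₜ[ℤ] g i p q) *
        (1 + Matrix.single a b (1 : R ⊗[ℤ] C)) := by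
  ext p q
  rw [mul_single_apply']
  simp only [Matrix.of_apply, hg]
  by_cases h : q = b
  · simp only [if_pos h, ← Finset.sum_add_distrib, TensorProduct.tmul_add]
  · simp only [if_neg h, add_zero]

theorem gen4 (g g' : Fin N → Fin N → C) (a b : Fin N)
    (hg : ∀ p q, g' p q = g p q + if q = b then g p a else 0) :
    (Matrix.of fun p q : Fin N => (1 : R) ⊗ₜ[ℤ] g' p q)
      = (Matrix.of fun p q : Fin N => (1 : R) ⊗ₜ[ℤ] g p q) *
        (1 + Matrix.single a b (1 : R ⊗[ℤ] C)) := by
  ext p q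
  rw [mul_single_apply']
  simp only [Matrix.of_apply, hg]
  by_cases h : q = b
  · simp only [if_pos h, TensorProduct.tmul_add]
  · simp only [if_neg h, add_zero]

end gen

theorem TH_LR {R : Type*} [Ring R] {P : AddSubgroup R} {m : ℕ}
    (hP : TwoSided P) (hcap : CapR P (m + 1)) {n k : ℕ} (a' : Fin k → R) (w : R)
    (L : List (R ⊕ (Fin m ⊕ Fin m))) (hL : Once L) (x z : Fin m → R) (hx : ∀ i, x i ∈ P)
    (hz : ∀ i, z i ∈ P) (a b : Fin (n + 1)) (hab : a ≠ b) :
    mapR R (tsub (D := n + 1) (subP (lft (K := k + 1) a) (lft b)) (subP_homog _ _))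
        (TH n a' L x z w)
      = mapR R (tsub (D := n + 1) (subP (rgt (K := k + 1) b) (rgt a)) (subP_homog _ _))
        (TH n a' L x z w) := by
  rw [TH_map, TH_map]
  rw [gen1 a' (fun i p q => (tX (i.castSucc, p, q) : TP (Idx (k + 1) (n + 1)) (n + 1)))
      (fun i p q => tsub (D := n + 1) (subP (lft (K := k + 1) a) (lft b)) (subP_homog _ _)
        (tX (i.castSucc, p, q))) a b (fun i p q => tsub_lft a b i.castSucc p q),
    gen2 (fun p q => (tX (Fin.last k, p, q) : TP (Idx (k + 1) (n + 1)) (n + 1)))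
      (fun p q => tsub (D := n + 1) (subP (lft (K := k + 1) a) (lft b)) (subP_homog _ _)
        (tX (Fin.last k, p, q))) a b (fun p q => tsub_lft a b (Fin.last k) p q),
    gen3 a' (fun i p q => (tX (i.castSucc, p, q) : TP (Idx (k + 1) (n + 1)) (n + 1)))
      (fun i p q => tsub (D := n + 1) (subP (rgt (K := k + 1) b) (rgt a)) (subP_homog _ _)
        (tX (i.castSucc, p, q))) a b (fun i p q => tsub_rgt a b i.castSucc p q),
    gen4 (fun p q => (tX (Fin.last k, p, q) : TP (Idx (k + 1) (n + 1)) (n + 1)))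
      (fun p q => tsub (D := n + 1) (subP (rgt (K := k + 1) b) (rgt a)) (subP_homog _ _)
        (tX (Fin.last k, p, q))) a b (fun p q => tsub_rgt a b (Fin.last k) p q)]
  exact theta_lr (P := PT P (TP (Idx (k + 1) (n + 1)) (n + 1))) (twoSided_tensor P _ hP)
    (capR_tensor P _ (m + 1) hcap)
    (nilI R (Idx (k + 1) (n + 1)) (n + 1)) (nilI_nilpotent R _ _) (Lext _ L) (once_Lext _ L hL)
    (fun i => x i ⊗ₜ[ℤ] 1) (fun i => z i ⊗ₜ[ℤ] 1)
    (fun i => AddSubgroup.subset_closure ⟨x i, hx i, 1, rfl⟩)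
    (fun i => AddSubgroup.subset_closure ⟨z i, hz i, 1, rfl⟩) (w ⊗ₜ[ℤ] 1)
    (Tm n a') (Ym R k n) (Tm_mem a') Ym_comm a b hab

theorem thC_conj {R : Type*} [Ring R] {P : AddSubgroup R} {m : ℕ}
    (hP : TwoSided P) (hcap : CapR P (m + 1)) {n k : ℕ} (a : Fin k → R) (w : R)
    (L : List (R ⊕ (Fin m ⊕ Fin m))) (hL : Once L) (x z : Fin m → R) (hx : ∀ i, x i ∈ P)
    (hz : ∀ i, z i ∈ P) : ConjRel (thC n a L x z w) := by
  intro p q hpq c
  rw [move_eq _ _ (thconj_lft_injective p) (thconj_lft_injective q) (thconj_lft_ne hpq),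
    move_eq _ _ (thconj_rgt_injective q) (thconj_rgt_injective p) (thconj_rgt_ne hpq.symm)]
  by_cases hc : tot c = n + 1
  · have hc' : ∑ v, c v = n + 1 := hc
    have h := congrArg (tcR c) (TH_LR hP hcap a w L hL x z hx hz p q hpq)
    rw [tcR_tsub _ _ c hc'.le, tcR_tsub _ _ c hc'.le] at h
    have e : ∀ d ∈ Finset.piAntidiag (univ : Finset (Idx (k + 1) (n + 1))) (∑ v, c v),
        thC n a L x z w d = tcR d (TH n a L x z w) := by
      intro d hd
      have hd' : tot d = n + 1 := (Finset.mem_piAntidiag.mp hd).1.trans hc'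
      rw [thC, if_pos hd']
    have e5 : ∀ s t : Fin (k + 1) × Fin (n + 1) → Idx (k + 1) (n + 1),
        ∑ d ∈ Finset.piAntidiag univ (∑ v, c v),
          MvPolynomial.coeff (toF c) (∏ v, subP s t v ^ d v) • thC n a L x z w d
        = ∑ d ∈ Finset.piAntidiag univ (∑ v, c v),
          MvPolynomial.coeff (toF c) (∏ v, subP s t v ^ d v) • tcR d (TH n a L x z w) := by
      intro s t
      apply Finset.sum_congr rfl
      intro d hd
      rw [e d hd]
    rw [e5, e5]
    exact h
  · have e : ∀ d ∈ Finset.piAntidiag (univ : Finset (Idx (k + 1) (n + 1))) (∑ v, c v),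
        thC n a L x z w d = 0 := by
      intro d hd
      have hd' : tot d ≠ n + 1 := fun h => hc ((Finset.mem_piAntidiag.mp hd).1.symm.trans h)
      rw [thC, if_neg hd']
    have e5 : ∀ s t : Fin (k + 1) × Fin (n + 1) → Idx (k + 1) (n + 1),
        ∑ d ∈ Finset.piAntidiag univ (∑ v, c v),
          MvPolynomial.coeff (toF c) (∏ v, subP s t v ^ d v) • thC n a L x z w d = 0 := by
      intro s t
      apply Finset.sum_eq_zero
      intro d hd
      rw [e d hd, smul_zero]
    rw [e5, e5]

end TF
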