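import Pool.Agent.H66.TF.ArrDefs

/-!
# TF-TRUNC: truncated polynomials with noncommutative coefficients

`TP τ D = ℤ[X_v, v ∈ τ] / (polynomials without monomials of degree ≤ D)`, coefficient functionals on
`R ⊗ TP τ D`.

* `trI τ D`: the ideal of the polynomials all of whose monomials have degree `> D`.
* `tcoeff c : TP τ D →+ ℤ` (`c : τ → ℕ`), the coefficient of `X^c` if `∑ c ≤ D`, else `0`.
* `tcR c : R ⊗ TP τ D →+ R`, `r ⊗ f ↦ tcoeff c f • r`.
* `tsub φ : TP τ D →+* TP τ' D`, `X_v ↦ φ v` for `φ v` homogeneous of degree 1.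
* `tcR_tsub`: coefficient extraction after a substitution.
* `nilIdeal`: the two-sided ideal generated by the `1 ⊗ X_v` is nilpotent.
-/

open Finset TensorProduct

namespace TF

/-- polynomials all of whose monomials have degree `> D` -/
noncomputable def trI (τ : Type) [Finite τ] (D : ℕ) : Ideal (MvPolynomial τ ℤ) where
  carrier := {f | ∀ c : τ →₀ ℕ, c.degree ≤ D → MvPolynomial.coeff c f = 0}
  add_mem' := by
    intro f g hf hg c hc
    rw [MvPolynomial.coeff_add, hf c hc, hg c hc, add_zero]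
  zero_mem' := by
    intro c _
    simp
  smul_mem' := by
    intro f g hg c hc
    classical
    rw [smul_eq_mul, MvPolynomial.coeff_mul]
    apply Finset.sum_eq_zero
    intro x hx
    rw [hg x.2, mul_zero]
    have h1 := (Finset.HasAntidiagonal.mem_antidiagonal.mp hx)
    have h2 : x.1.degree + x.2.degree = c.degree := by rw [← map_add, h1]
    omega

/-- truncated polynomial ring -/
abbrev TP (τ : Type) [Finite τ] (D : ℕ) : Type := MvPolynomial τ ℤ ⧸ trI τ D

/-- the class of the variable -/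
noncomputable def tX {τ : Type} [Finite τ] {D : ℕ} (v : τ) : TP τ D :=
  Ideal.Quotient.mk _ (MvPolynomial.X v)

/-- coefficient functional -/
noncomputable def tcoeff {τ : Type} [Fintype τ] {D : ℕ} (c : τ → ℕ) : TP τ D →+ ℤ :=
  if h : ∑ v, c v ≤ D then
    QuotientAddGroup.lift (trI τ D).toAddSubgroup
      (AddMonoidHom.mk' (fun f : MvPolynomial τ ℤ => MvPolynomial.coeff (toF c) f)
        (fun f g => MvPolynomial.coeff_add _ f g))
      (by
        intro f hf
        have hf' : f ∈ trI τ D := hf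
        refine hf' (toF c) ?_
        rw [Finsupp.degree_eq_sum]
        exact h)
  else 0

/-- coefficient of `X^c` on `R ⊗ TP τ D` -/
noncomputable def tcR {R : Type*} [Ring R] {τ : Type} [Fintype τ] {D : ℕ} (c : τ → ℕ) :
    R ⊗[ℤ] TP τ D →+ R :=
  ((TensorProduct.rid ℤ R).toLinearMap ∘ₗ
    (TensorProduct.map LinearMap.id ((tcoeff (τ := τ) (D := D) c).toIntLinearMap))).toAddMonoidHom

theorem tcR_tmul {R : Type*} [Ring R] {τ : Type} [Fintype τ] {D : ℕ} (c : τ → ℕ) (r : R)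
    (f : TP τ D) : tcR c (r ⊗ₜ[ℤ] f) = tcoeff c f • r := by
  show (TensorProduct.rid ℤ R) (TensorProduct.map LinearMap.id
    ((tcoeff (τ := τ) (D := D) c).toIntLinearMap) (r ⊗ₜ[ℤ] f)) = _
  rw [TensorProduct.map_tmul, TensorProduct.rid_tmul]
  rfl

theorem tcoeff_mk {τ : Type} [Fintype τ] {D : ℕ} (c : τ → ℕ) (h : ∑ v, c v ≤ D)
    (f : MvPolynomial τ ℤ) :
    tcoeff c (Ideal.Quotient.mk (trI τ D) f) = MvPolynomial.coeff (toF c) f := by
  unfold tcoeff
  rw [dif_pos h]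
  rfl

theorem trunc_tcoeff_of_lt {τ : Type} [Fintype τ] {D : ℕ} (c : τ → ℕ) (h : ¬ ∑ v, c v ≤ D)
    (f : TP τ D) : tcoeff c f = 0 := by
  unfold tcoeff
  rw [dif_neg h]
  rfl

theorem trunc_toF_degree {τ : Type} [Fintype τ] (c : τ → ℕ) : (toF c).degree = ∑ v, c v := by
  rw [Finsupp.degree_eq_sum]
  rfl

theorem trunc_mem {τ : Type} [Fintype τ] {D : ℕ} (f : MvPolynomial τ ℤ) :
    f ∈ trI τ D ↔ ∀ c : τ →₀ ℕ, c.degree ≤ D → MvPolynomial.coeff c f = 0 := Iff.rfl

theorem trunc_homog {τ τ' : Type} [Fintype τ] (φ : τ → MvPolynomial τ' ℤ)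
    (hφ : ∀ v, (φ v).IsHomogeneous 1) (d : τ → ℕ) :
    (∏ v, φ v ^ d v).IsHomogeneous (∑ v, d v) := by
  apply MvPolynomial.IsHomogeneous.prod
  intro v _
  have h := (hφ v).pow (d v)
  rwa [one_mul] at h

theorem trunc_coeff_aeval {τ τ' : Type} [Fintype τ] (φ : τ → MvPolynomial τ' ℤ)
    (f : MvPolynomial τ ℤ) (c : τ' →₀ ℕ) :
    MvPolynomial.coeff c (MvPolynomial.aeval φ f) =
      ∑ d ∈ f.support, MvPolynomial.coeff d f * MvPolynomial.coeff c (∏ v, φ v ^ d v) := by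
  rw [MvPolynomial.aeval_def, MvPolynomial.eval₂_eq', MvPolynomial.coeff_sum]
  refine Finset.sum_congr rfl fun d _ => ?_
  have h : (algebraMap ℤ (MvPolynomial τ' ℤ)) (MvPolynomial.coeff d f) =
      MvPolynomial.C (MvPolynomial.coeff d f) := rfl
  rw [h, MvPolynomial.coeff_C_mul]

/-- substitution of homogeneous linear polynomials -/
noncomputable def tsub {τ τ' : Type} [Fintype τ] [Fintype τ'] {D : ℕ}
    (φ : τ → MvPolynomial τ' ℤ) (hφ : ∀ v, (φ v).IsHomogeneous 1) : TP τ D →+* TP τ' D :=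
  Ideal.Quotient.lift (trI τ D)
    ((Ideal.Quotient.mk (trI τ' D)).comp (MvPolynomial.aeval φ).toRingHom)
    (by
      intro f hf
      show Ideal.Quotient.mk (trI τ' D) (MvPolynomial.aeval φ f) = 0
      rw [Ideal.Quotient.eq_zero_iff_mem]
      intro c hc
      rw [trunc_coeff_aeval]
      refine Finset.sum_eq_zero fun d _ => ?_
      by_cases hd : d.degree ≤ D
      · rw [hf d hd, zero_mul]
      · have h1 : MvPolynomial.coeff c (∏ v, φ v ^ d v) = 0 := by
          apply (trunc_homog φ hφ (fun v => d v)).coeff_eq_zero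
          rw [Finsupp.degree_eq_sum] at hd
          omega
        rw [h1, mul_zero])

theorem tsub_tX {τ τ' : Type} [Fintype τ] [Fintype τ'] {D : ℕ}
    (φ : τ → MvPolynomial τ' ℤ) (hφ : ∀ v, (φ v).IsHomogeneous 1) (v : τ) :
    tsub (D := D) φ hφ (tX v) = Ideal.Quotient.mk _ (φ v) := by
  show Ideal.Quotient.mk (trI τ' D) (MvPolynomial.aeval φ (MvPolynomial.X v)) = _
  rw [MvPolynomial.aeval_X]

theorem tsub_mk {τ τ' : Type} [Fintype τ] [Fintype τ'] {D : ℕ}
    (φ : τ → MvPolynomial τ' ℤ) (hφ : ∀ v, (φ v).IsHomogeneous 1) (f : MvPolynomial τ ℤ) :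
    tsub (D := D) φ hφ (Ideal.Quotient.mk _ f) =
      Ideal.Quotient.mk _ (MvPolynomial.aeval φ f) := rfl

/-- the map induced on `R ⊗ TP` by a ring homomorphism -/
noncomputable def mapR (R : Type*) [Ring R] {C C' : Type*} [CommRing C] [CommRing C']
    (f : C →+* C') : R ⊗[ℤ] C →+* R ⊗[ℤ] C' :=
  (Algebra.TensorProduct.map (AlgHom.id ℤ R) (f.toIntAlgHom)).toRingHom

theorem tcR_tsub {R : Type*} [Ring R] {τ τ' : Type} [Fintype τ] [DecidableEq τ] [Fintype τ']
    {D : ℕ} (φ : τ → MvPolynomial τ' ℤ) (hφ : ∀ v, (φ v).IsHomogeneous 1) (c : τ' → ℕ)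
    (hc : ∑ v, c v ≤ D) (z : R ⊗[ℤ] TP τ D) :
    tcR c (mapR R (tsub φ hφ) z) = ∑ d ∈ Finset.piAntidiag univ (∑ v, c v),
      MvPolynomial.coeff (toF c) (∏ v, φ v ^ d v) • tcR d z := by
  induction z with
  | zero => simp
  | add x y hx hy =>
    rw [map_add, map_add, hx, hy, ← Finset.sum_add_distrib]
    refine Finset.sum_congr rfl fun d _ => ?_
    rw [map_add, smul_add]
  | tmul r g =>
    obtain ⟨f, rfl⟩ := Ideal.Quotient.mk_surjective g
    have h0 : mapR R (tsub φ hφ) (r ⊗ₜ[ℤ] (Ideal.Quotient.mk (trI τ D) f)) =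
        r ⊗ₜ[ℤ] (Ideal.Quotient.mk (trI τ' D) (MvPolynomial.aeval φ f)) := rfl
    rw [h0, tcR_tmul, tcoeff_mk c hc, trunc_coeff_aeval, Finset.sum_smul]
    have h1 : ∀ d ∈ Finset.piAntidiag univ (∑ v, c v),
        MvPolynomial.coeff (toF c) (∏ v, φ v ^ d v) •
          tcR d (r ⊗ₜ[ℤ] (Ideal.Quotient.mk (trI τ D) f)) =
        (MvPolynomial.coeff (toF d) f * MvPolynomial.coeff (toF c) (∏ v, φ v ^ d v)) • r := by
      intro d hd
      rw [Finset.mem_piAntidiag] at hd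
      rw [tcR_tmul, tcoeff_mk d (by rw [hd.1]; exact hc), smul_smul, mul_comm]
    rw [Finset.sum_congr rfl h1]
    refine Finset.sum_bij_ne_zero (fun d _ _ => fun v => d v) ?_ ?_ ?_ ?_
    · intro d _ hne
      rw [Finset.mem_piAntidiag]
      refine ⟨?_, fun i _ => Finset.mem_univ i⟩
      by_contra hcon
      apply hne
      have h2 : MvPolynomial.coeff (toF c) (∏ v, φ v ^ d v) = 0 := by
        apply (trunc_homog φ hφ (fun v => d v)).coeff_eq_zero
        rw [trunc_toF_degree]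
        exact fun h => hcon h.symm
      rw [h2, mul_zero, zero_smul]
    · intro d _ _ d' _ _ he
      ext v
      exact congrFun he v
    · intro d hd hne
      refine ⟨toF d, ?_, ?_, rfl⟩
      · rw [MvPolynomial.mem_support_iff]
        intro h2
        apply hne
        rw [h2, zero_mul, zero_smul]
      · exact hne
    · intro d _ _
      have h2 : toF (fun v => d v) = d := by
        ext v
        rfl
      rw [h2]

/-- the left ideal of `R ⊗ TP` generated by the variables -/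
noncomputable def nilI (R : Type*) [Ring R] (τ : Type) [Fintype τ] (D : ℕ) :
    Ideal (R ⊗[ℤ] TP τ D) :=
  Ideal.span (Set.range fun v : τ => (1 : R) ⊗ₜ[ℤ] (tX v : TP τ D))

/-- `1 ⊗ f` is central -/
theorem trunc_central (R : Type*) [Ring R] {C : Type*} [CommRing C] (f : C) (z : R ⊗[ℤ] C) :
    ((1 : R) ⊗ₜ[ℤ] f) * z = z * ((1 : R) ⊗ₜ[ℤ] f) := by
  induction z with
  | zero => rw [mul_zero, zero_mul]
  | add x y hx hy => rw [mul_add, add_mul, hx, hy]
  | tmul r g =>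
    rw [Algebra.TensorProduct.tmul_mul_tmul, Algebra.TensorProduct.tmul_mul_tmul, one_mul,
      mul_one, mul_comm]

theorem trunc_twoSided (R : Type*) [Ring R] {C : Type*} [CommRing C] {τ : Type*} (t : τ → C) :
    (Ideal.span (Set.range fun v : τ => (1 : R) ⊗ₜ[ℤ] t v)).IsTwoSided := by
  refine ⟨?_⟩
  intro a b ha
  refine Submodule.span_induction (p := fun a _ => a * b ∈
    Ideal.span (Set.range fun v : τ => (1 : R) ⊗ₜ[ℤ] t v)) ?_ ?_ ?_ ?_ ha
  · rintro _ ⟨v, rfl⟩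
    show ((1 : R) ⊗ₜ[ℤ] t v) * b ∈ _
    rw [trunc_central]
    exact Ideal.mul_mem_left _ _ (Ideal.subset_span ⟨v, rfl⟩)
  · rw [zero_mul]
    exact Submodule.zero_mem _
  · intro x y _ _ hx hy
    rw [add_mul]
    exact Submodule.add_mem _ hx hy
  · intro r x _ hx
    rw [smul_eq_mul, mul_assoc]
    exact Ideal.mul_mem_left _ _ hx

theorem trunc_span_pow (R : Type*) [Ring R] {C : Type*} [CommRing C] {τ : Type*} (t : τ → C)
    (P : ℕ → C → Prop) (h1 : ∀ v, P 1 (t v)) (hm : ∀ n f v, P n f → P (n + 1) (f * t v)) (n : ℕ) :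
    (Ideal.span (Set.range fun v : τ => (1 : R) ⊗ₜ[ℤ] t v)) ^ (n + 1) ≤
      Ideal.span {z | ∃ f : C, P (n + 1) f ∧ z = (1 : R) ⊗ₜ[ℤ] f} := by
  induction n with
  | zero =>
    rw [zero_add, Submodule.pow_one, Ideal.span_le]
    rintro _ ⟨v, rfl⟩
    exact Ideal.subset_span ⟨t v, h1 v, rfl⟩
  | succ n ih =>
    rw [Submodule.pow_succ, Ideal.mul_le]
    intro a ha b hb
    have ha' := ih ha
    refine Submodule.span_induction (p := fun a _ => a * b ∈ Ideal.span
      {z | ∃ f : C, P (n + 1 + 1) f ∧ z = (1 : R) ⊗ₜ[ℤ] f}) ?_ ?_ ?_ ?_ ha'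
    · rintro _ ⟨f, hf, rfl⟩
      refine Submodule.span_induction (p := fun b _ =>
        ((1 : R) ⊗ₜ[ℤ] f) * b ∈ Ideal.span
        {z | ∃ f : C, P (n + 1 + 1) f ∧ z = (1 : R) ⊗ₜ[ℤ] f}) ?_ ?_ ?_ ?_ hb
      · rintro _ ⟨v, rfl⟩
        apply Ideal.subset_span
        refine ⟨f * t v, hm _ _ v hf, ?_⟩
        show ((1 : R) ⊗ₜ[ℤ] f) * ((1 : R) ⊗ₜ[ℤ] t v) = _
        rw [Algebra.TensorProduct.tmul_mul_tmul, one_mul]
      · rw [mul_zero]
        exact Submodule.zero_mem _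
      · intro x y _ _ hx hy
        rw [mul_add]
        exact Submodule.add_mem _ hx hy
      · intro r x _ hx
        rw [smul_eq_mul, ← mul_assoc, trunc_central, mul_assoc]
        exact Ideal.mul_mem_left _ _ hx
    · rw [zero_mul]
      exact Submodule.zero_mem _
    · intro x y _ _ hx hy
      rw [add_mul]
      exact Submodule.add_mem _ hx hy
    · intro r x _ hx
      rw [smul_eq_mul, mul_assoc]
      exact Ideal.mul_mem_left _ _ hx

theorem trunc_closure_mul (R : Type*) [Ring R] {C : Type*} [CommRing C] (S T U : Set C)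
    (h : ∀ s ∈ S, ∀ t ∈ T, s * t ∈ U) (x y : R ⊗[ℤ] C)
    (hx : x ∈ AddSubgroup.closure {z | ∃ (r : R) (c : C), c ∈ S ∧ z = r ⊗ₜ[ℤ] c})
    (hy : y ∈ AddSubgroup.closure {z | ∃ (r : R) (c : C), c ∈ T ∧ z = r ⊗ₜ[ℤ] c}) :
    x * y ∈ AddSubgroup.closure {z | ∃ (r : R) (c : C), c ∈ U ∧ z = r ⊗ₜ[ℤ] c} := by
  refine AddSubgroup.closure_induction (p := fun x _ => x * y ∈
    AddSubgroup.closure {z | ∃ (r : R) (c : C), c ∈ U ∧ z = r ⊗ₜ[ℤ] c}) ?_ ?_ ?_ ?_ hx
  · rintro _ ⟨r, c, hc, rfl⟩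
    refine AddSubgroup.closure_induction (p := fun y _ =>
      (r ⊗ₜ[ℤ] c) * y ∈ AddSubgroup.closure {z | ∃ (r : R) (c : C), c ∈ U ∧ z = r ⊗ₜ[ℤ] c})
      ?_ ?_ ?_ ?_ hy
    · rintro _ ⟨s, d, hd, rfl⟩
      apply AddSubgroup.subset_closure
      exact ⟨r * s, c * d, h c hc d hd, by rw [Algebra.TensorProduct.tmul_mul_tmul]⟩
    · rw [mul_zero]
      exact AddSubgroup.zero_mem _
    · intro a b _ _ ha hb
      rw [mul_add]
      exact AddSubgroup.add_mem _ ha hb
    · intro a _ ha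
      have e : (r ⊗ₜ[ℤ] c) * -a = -((r ⊗ₜ[ℤ] c) * a) := by
        apply eq_neg_of_add_eq_zero_left
        rw [← mul_add, neg_add_cancel, mul_zero]
      rw [e]
      exact AddSubgroup.neg_mem _ ha
  · rw [zero_mul]
    exact AddSubgroup.zero_mem _
  · intro a b _ _ ha hb
    rw [add_mul]
    exact AddSubgroup.add_mem _ ha hb
  · intro a _ ha
    have e : -a * y = -(a * y) := by
      apply eq_neg_of_add_eq_zero_left
      rw [← add_mul, neg_add_cancel, zero_mul]
    rw [e]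
    exact AddSubgroup.neg_mem _ ha

instance (R : Type*) [Ring R] (τ : Type) [Fintype τ] (D : ℕ) : (nilI R τ D).IsTwoSided :=
  trunc_twoSided R (fun v : τ => (tX v : TP τ D))

/-- all monomials have degree at least `n` -/
def TrGe {τ : Type} (n : ℕ) (f : MvPolynomial τ ℤ) : Prop :=
  ∀ c : τ →₀ ℕ, c.degree < n → MvPolynomial.coeff c f = 0

theorem TrGe.mul_X {τ : Type} {n : ℕ} {f : MvPolynomial τ ℤ} (hf : TrGe n f) (v : τ) :
    TrGe (n + 1) (f * MvPolynomial.X v) := by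
  classical
  intro c hc
  rw [MvPolynomial.coeff_mul_X']
  split_ifs with h
  · apply hf
    have h1 : c = (c - Finsupp.single v 1) + Finsupp.single v 1 := by
      rw [tsub_add_cancel_of_le]
      rw [Finsupp.single_le_iff]
      exact Nat.one_le_iff_ne_zero.2 (Finsupp.mem_support_iff.1 h)
    have h2 : c.degree = (c - Finsupp.single v 1).degree + 1 := by
      conv_lhs => rw [h1]
      rw [map_add, Finsupp.degree_single]
    omega
  · rfl

theorem trunc_nilI_pow (R : Type*) [Ring R] (τ : Type) [Fintype τ] (D : ℕ) (n : ℕ) :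
    nilI R τ D ^ (n + 1) ≤ Ideal.span {z | ∃ g : TP τ D, (∃ f : MvPolynomial τ ℤ,
      TrGe (n + 1) f ∧ g = Ideal.Quotient.mk (trI τ D) f) ∧ z = (1 : R) ⊗ₜ[ℤ] g} := by
  have hX : ∀ v : τ, TrGe 1 (MvPolynomial.X v : MvPolynomial τ ℤ) := by
    intro v
    have h0 : TrGe 0 (1 : MvPolynomial τ ℤ) := fun c hc => by omega
    have h1 := h0.mul_X v
    rwa [one_mul] at h1
  refine trunc_span_pow R (fun v : τ => (tX v : TP τ D)) (fun m g => ∃ f : MvPolynomial τ ℤ,
    TrGe m f ∧ g = Ideal.Quotient.mk (trI τ D) f) ?_ ?_ n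
  · intro v
    exact ⟨MvPolynomial.X v, hX v, rfl⟩
  · rintro m _ v ⟨f, hf, rfl⟩
    exact ⟨f * MvPolynomial.X v, hf.mul_X v, by rw [map_mul]; rfl⟩

/-- `(nilI)^(D+1) = 0`: the variables are central and a product of `D + 1` of them vanishes -/
theorem nilI_nilpotent (R : Type*) [Ring R] (τ : Type) [Fintype τ] (D : ℕ) :
    IsNilpotent (nilI R τ D) := by
  refine ⟨D + 1, ?_⟩
  rw [Submodule.zero_eq_bot, eq_bot_iff]
  refine (trunc_nilI_pow R τ D D).trans ?_
  rw [Ideal.span_le]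
  rintro _ ⟨_, ⟨f, hf, rfl⟩, rfl⟩
  have h1 : Ideal.Quotient.mk (trI τ D) f = 0 := by
    rw [Ideal.Quotient.eq_zero_iff_mem]
    intro c hc
    exact hf c (by omega)
  rw [h1, TensorProduct.tmul_zero]
  exact Submodule.zero_mem _

/-- Filtration by a weight `wt : τ → ℕ` of the variables: additive subgroup generated by the
`r ⊗ X^c` with `∑ wt v * c v ≤ j`. -/
noncomputable def Fil (R : Type*) [Ring R] {τ : Type} [Fintype τ] (D : ℕ) (wt : τ → ℕ) (j : ℕ) :
    AddSubgroup (R ⊗[ℤ] TP τ D) :=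
  AddSubgroup.closure {z | ∃ (r : R) (c : τ → ℕ), ∑ v, wt v * c v ≤ j ∧
    z = r ⊗ₜ[ℤ] (∏ v, (tX v : TP τ D) ^ c v)}

theorem Fil_mono (R : Type*) [Ring R] {τ : Type} [Fintype τ] (D : ℕ) (wt : τ → ℕ) {i j : ℕ}
    (h : i ≤ j) : Fil R D wt i ≤ Fil R D wt j := by
  apply AddSubgroup.closure_mono
  rintro z ⟨r, c, hc, rfl⟩
  exact ⟨r, c, hc.trans h, rfl⟩

theorem Fil_mul (R : Type*) [Ring R] {τ : Type} [Fintype τ] (D : ℕ) (wt : τ → ℕ) {i j : ℕ}
    (x y : R ⊗[ℤ] TP τ D) (hx : x ∈ Fil R D wt i) (hy : y ∈ Fil R D wt j) :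
    x * y ∈ Fil R D wt (i + j) := by
  have key : ∀ k : ℕ, Fil R D wt k = AddSubgroup.closure {z | ∃ (r : R) (g : TP τ D),
      g ∈ {g | ∃ c : τ → ℕ, ∑ v, wt v * c v ≤ k ∧ g = ∏ v, (tX v : TP τ D) ^ c v} ∧
      z = r ⊗ₜ[ℤ] g} := by
    intro k
    unfold Fil
    congr 1
    ext z
    constructor
    · rintro ⟨r, c, hc, rfl⟩
      exact ⟨r, _, ⟨c, hc, rfl⟩, rfl⟩
    · rintro ⟨r, _, ⟨c, hc, rfl⟩, rfl⟩
      exact ⟨r, c, hc, rfl⟩
  rw [key] at hx hy ⊢
  refine trunc_closure_mul R _ _ _ ?_ x y hx hy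
  rintro _ ⟨c, hc, rfl⟩ _ ⟨d, hd, rfl⟩
  refine ⟨fun v => c v + d v, ?_, ?_⟩
  · simp only [mul_add, Finset.sum_add_distrib]
    omega
  · rw [← Finset.prod_mul_distrib]
    simp only [pow_add]

theorem tcR_Fil (R : Type*) [Ring R] {τ : Type} [Fintype τ] (D : ℕ) (wt : τ → ℕ) (j : ℕ)
    (z : R ⊗[ℤ] TP τ D) (hz : z ∈ Fil R D wt j) (c : τ → ℕ) (hc : j < ∑ v, wt v * c v) :
    tcR c z = 0 := by
  refine AddSubgroup.closure_induction (p := fun z _ => tcR c z = 0) ?_ ?_ ?_ ?_ hz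
  · rintro _ ⟨r, d, hd, rfl⟩
    rw [tcR_tmul]
    have h1 : tcoeff c (∏ v, (tX v : TP τ D) ^ d v) = 0 := by
      by_cases hcD : ∑ v, c v ≤ D
      · have h2 : (∏ v, (tX v : TP τ D) ^ d v) =
            Ideal.Quotient.mk (trI τ D) (∏ v, MvPolynomial.X v ^ d v) := by
          rw [map_prod]
          simp only [map_pow]
          rfl
        rw [h2, tcoeff_mk c hcD]
        have h3 : (∏ v, (MvPolynomial.X v : MvPolynomial τ ℤ) ^ d v) =
            MvPolynomial.monomial (toF d) 1 := by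
          rw [MvPolynomial.monomial_eq, MvPolynomial.C_1, one_mul,
            Finsupp.prod_fintype _ _ (fun v => pow_zero _)]
          rfl
        classical
        rw [h3, MvPolynomial.coeff_monomial, if_neg]
        intro h4
        have h5 : d = c := by
          funext v
          exact DFunLike.congr_fun h4 v
        rw [h5] at hd
        omega
      · exact trunc_tcoeff_of_lt c hcD _
    rw [h1, zero_smul]
  · exact map_zero _
  · intro x y _ _ hx hy
    rw [map_add, hx, hy, add_zero]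
  · intro x _ hx
    rw [map_neg, hx, neg_zero]

end TF
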