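import Pool.Agent.H66.TF.RowDeg
import Pool.Agent.H66.TF.PathCoef
import Pool.Agent.H66.TF.TensorCap
import Pool.Agent.H66.TF.Trunc
import Pool.Agent.H66.TF.SubCoeff

/-!
# Definitions for the array function attached to a ring with a Capelli identity

`R` a ring, `D = N = n + 1`, `C = TP (Idx (k+1) N) D`, `S = R ⊗ C`. `T_{xy} = ∑_{i < k} a_i ⊗ X_{(i,x,y)}`,
`Y_{xy} = 1 ⊗ X_{(k,x,y)}` (last letter), `TH = theta (L ⊗ 1) (x ⊗ 1) (z ⊗ 1) (w ⊗ 1) (1 + T) Y ∈ S`, and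
`thC c = tcR c TH` if `tot c = n + 1`, `0` otherwise.
-/

open Finset Equiv TensorProduct

namespace TF

/-- the generic matrix of the first `k` letters -/
noncomputable def Tm {R : Type*} [Ring R] {k : ℕ} (n : ℕ) (a : Fin k → R) :
    Matrix (Fin (n + 1)) (Fin (n + 1)) (R ⊗[ℤ] TP (Idx (k + 1) (n + 1)) (n + 1)) :=
  Matrix.of fun x y => ∑ i : Fin k, a i ⊗ₜ[ℤ] tX (i.castSucc, x, y)

/-- the generic matrix of the last letter -/
noncomputable def Ym (R : Type*) [Ring R] (k n : ℕ) :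
    Matrix (Fin (n + 1)) (Fin (n + 1)) (R ⊗[ℤ] TP (Idx (k + 1) (n + 1)) (n + 1)) :=
  Matrix.of fun x y => (1 : R) ⊗ₜ[ℤ] tX (Fin.last k, x, y)

/-- `r ↦ r ⊗ 1` on generalised monomials -/
noncomputable def Lext {R : Type*} [Ring R] {m : ℕ} (C : Type*) [CommRing C]
    (L : List (R ⊕ (Fin m ⊕ Fin m))) : List ((R ⊗[ℤ] C) ⊕ (Fin m ⊕ Fin m)) :=
  L.map (Sum.map (fun r => r ⊗ₜ[ℤ] (1 : C)) id)

/-- the element `Θ` -/
noncomputable def TH {R : Type*} [Ring R] {m k : ℕ} (n : ℕ) (a : Fin k → R)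
    (L : List (R ⊕ (Fin m ⊕ Fin m))) (x z : Fin m → R) (w : R) :
    R ⊗[ℤ] TP (Idx (k + 1) (n + 1)) (n + 1) :=
  theta (Lext _ L) (fun i => x i ⊗ₜ[ℤ] 1) (fun i => z i ⊗ₜ[ℤ] 1) (w ⊗ₜ[ℤ] 1) (1 + Tm n a) (Ym R k n)

/-- the array function -/
noncomputable def thC {R : Type*} [Ring R] {m k : ℕ} (n : ℕ) (a : Fin k → R)
    (L : List (R ⊕ (Fin m ⊕ Fin m))) (x z : Fin m → R) (w : R) (c : Arr (k + 1) (n + 1)) : R :=
  if tot c = n + 1 then tcR c (TH n a L x z w) else 0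

theorem once_Lext {R : Type*} [Ring R] {m : ℕ} (C : Type*) [CommRing C]
    (L : List (R ⊕ (Fin m ⊕ Fin m))) (hL : Once L) : Once (Lext C L) := by
  intro i
  have h := hL i
  have e : (Lext C L).filterMap Sum.getRight? = L.filterMap Sum.getRight? := by
    rw [Lext, List.filterMap_map]
    congr 1
    funext s
    cases s <;> rfl
  rw [e]
  exact h

end TF
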