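import Pool.Agent.H66.TF.ThDefs

/-!
# TF-THNAT: image of `TH` under a map of coefficient rings

* `Tm_mem`: the entries of `Tm` and `Ym` are in the nilpotent ideal `nilI`.
* `TH_map`: for a ring homomorphism `f : TP → C'` (any commutative ring `C'`)
  `mapR R f TH = theta (L ⊗ 1) (x ⊗ 1) (z ⊗ 1) (w ⊗ 1) (1 + (Tm).map) (Ym.map)`, by `theta_map`
  (`M - 1 = Tm` has entries in the nilpotent ideal `nilI`), and `Tm.map`, `Ym.map` have entries
  `∑ a i ⊗ f (tX (i,x,y))`, `1 ⊗ f (tX (k,x,y))`.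
-/

open Finset Equiv TensorProduct

namespace TF

variable {R : Type*} [Ring R] {m k n : ℕ}

private theorem thNat_comm {R C : Type*} [Ring R] [CommRing C] (c : C) (r : R ⊗[ℤ] C) :
    ((1 : R) ⊗ₜ[ℤ] c) * r = r * ((1 : R) ⊗ₜ[ℤ] c) := by
  induction r using TensorProduct.induction_on with
  | zero => exact (mul_zero _).trans (zero_mul _).symm
  | tmul a d =>
    rw [Algebra.TensorProduct.tmul_mul_tmul, Algebra.TensorProduct.tmul_mul_tmul, one_mul,
      mul_one, mul_comm]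
  | add a b ha hb =>
    exact (mul_add _ _ _).trans ((congrArg₂ (· + ·) ha hb).trans (add_mul _ _ _).symm)

theorem Tm_mem (a : Fin k → R) (x y : Fin (n + 1)) :
    Tm n a x y ∈ nilI R (Idx (k + 1) (n + 1)) (n + 1) := by
  rw [Tm, Matrix.of_apply]
  refine Ideal.sum_mem _ fun i _ => ?_
  have h : a i ⊗ₜ[ℤ] (tX (i.castSucc, x, y) : TP (Idx (k + 1) (n + 1)) (n + 1)) =
      (a i ⊗ₜ[ℤ] (1 : TP (Idx (k + 1) (n + 1)) (n + 1))) *
        ((1 : R) ⊗ₜ[ℤ] (tX (i.castSucc, x, y) : TP (Idx (k + 1) (n + 1)) (n + 1))) := by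
    rw [Algebra.TensorProduct.tmul_mul_tmul, mul_one, one_mul]
  rw [h]
  exact Ideal.mul_mem_left _ _ (Ideal.subset_span ⟨_, rfl⟩)

theorem Ym_mem (x y : Fin (n + 1)) :
    Ym R k n x y ∈ nilI R (Idx (k + 1) (n + 1)) (n + 1) := by
  rw [Ym, Matrix.of_apply]
  exact Ideal.subset_span ⟨_, rfl⟩

theorem Ym_comm (x y : Fin (n + 1)) (r : R ⊗[ℤ] TP (Idx (k + 1) (n + 1)) (n + 1)) :
    Ym R k n x y * r = r * Ym R k n x y := by
  rw [Ym, Matrix.of_apply]
  exact thNat_comm _ r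

theorem TH_map {C' : Type*} [CommRing C'] (f : TP (Idx (k + 1) (n + 1)) (n + 1) →+* C')
    (a : Fin k → R) (L : List (R ⊕ (Fin m ⊕ Fin m))) (x z : Fin m → R) (w : R) :
    mapR R f (TH n a L x z w) = theta (Lext C' L) (fun i => x i ⊗ₜ[ℤ] 1) (fun i => z i ⊗ₜ[ℤ] 1)
      (w ⊗ₜ[ℤ] 1)
      (1 + Matrix.of fun p q : Fin (n + 1) => ∑ i : Fin k, a i ⊗ₜ[ℤ] f (tX (i.castSucc, p, q)))
      (Matrix.of fun p q : Fin (n + 1) => (1 : R) ⊗ₜ[ℤ] f (tX (Fin.last k, p, q))) := by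
  have hmap : ∀ (r : R) (c : TP (Idx (k + 1) (n + 1)) (n + 1)),
      mapR R f (r ⊗ₜ[ℤ] c) = r ⊗ₜ[ℤ] f c := by
    intro r c
    rfl
  have hmap1 : ∀ r : R, mapR R f (r ⊗ₜ[ℤ] (1 : TP (Idx (k + 1) (n + 1)) (n + 1))) =
      r ⊗ₜ[ℤ] (1 : C') := by
    intro r
    rw [hmap, map_one]
  rw [TH, theta_map (mapR R f) (nilI R (Idx (k + 1) (n + 1)) (n + 1)) (nilI_nilpotent R _ _)
    _ _ _ _ _ _ (by
      intro i j
      rw [add_sub_cancel_left]
      exact Tm_mem a i j)]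
  have e1 : (Lext (TP (Idx (k + 1) (n + 1)) (n + 1)) L).map (Sum.map (mapR R f) id) =
      Lext C' L := by
    rw [Lext, Lext, List.map_map]
    refine List.map_congr_left fun s _ => ?_
    cases s with
    | inl r => exact congrArg Sum.inl (hmap1 r)
    | inr r => rfl
  have e2 : (1 + Tm n a).map (mapR R f) =
      1 + Matrix.of fun p q : Fin (n + 1) => ∑ i : Fin k, a i ⊗ₜ[ℤ] f (tX (i.castSucc, p, q)) := by
    ext p q
    rw [Matrix.map_apply, Matrix.add_apply, Matrix.add_apply, map_add, Tm, Matrix.of_apply,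
      Matrix.of_apply, map_sum]
    congr 1
    rw [Matrix.one_apply, Matrix.one_apply]
    split_ifs
    · exact map_one _
    · exact map_zero _
  have e3 : (Ym R k n).map (mapR R f) =
      Matrix.of fun p q : Fin (n + 1) => (1 : R) ⊗ₜ[ℤ] f (tX (Fin.last k, p, q)) := by
    ext p q
    rfl
  rw [e1, e2, e3, hmap1]
  simp only [hmap1]

end TF
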