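import Pool.Agent.H66.TF.Switch
import Pool.Agent.H66.TF.PivConj

/-!
# TF-THETA: the element `Θ(M, Y)`

`theta L x z w M Y = ∑_{a,b} Y_{ba} (M⁻¹)_{ab} w FL L x (Π z)`, `Π = pivProd N M`.

* `theta_map`: naturality under ring homomorphisms `f` (for `M ∈ 1 + M_N(J)`, `J` nilpotent, where all
  the inverses which occur are inverses of units; `f (Ring.inverse u) = Ring.inverse (f u)` for units).
* `theta_conj`: invariance under conjugation of `(M, Y)` by `u = 1 + E_{ab}`, `a ≠ b`. The relation
  `h ∼ h' :⟺ ∀ L x z, FL L x (h z) = FL L x (h' z)` (all `L` with `Once L`, `x, z ∈ P`) is a congruence of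
  the multiplicative monoid `R` (`z ∈ P ⟹ g z ∈ P`; `h ∼ h' ⟹ h g ∼ h' g`; `g h ∼ h g ∼ h' g ∼ g h'`) with
  commutative quotient (`FL_comm`); use `Con R`, `Con.Quotient` and `pivProd_conj` for the quotient map.
  The trace part: `Y`, `u` have central entries, so
  `∑ (uYu⁻¹)_{ba} (u M⁻¹ u⁻¹)_{ab} = tr(u Y M⁻¹ u⁻¹) = tr(Y M⁻¹)`.
* `theta_diag`: the same for diagonal matrices of central units (`pivProd_diag`).
-/

open Finset Equiv

namespace TF

/-- `Θ(M, Y)` -/
noncomputable def theta {R : Type*} [Ring R] {m N : ℕ} (L : List (R ⊕ (Fin m ⊕ Fin m)))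
    (x z : Fin m → R) (w : R) (M Y : Matrix (Fin N) (Fin N) R) : R :=
  ∑ a, ∑ b, Y b a * ((Ring.inverse M) a b * (w * FL L x (fun i => pivProd N M * z i)))

/-! ### Naturality -/

private lemma th_pow_mem {R : Type*} [Ring R] (J : Ideal R) {N : ℕ}
    (X : Matrix (Fin N) (Fin N) R) (hX : ∀ i j, X i j ∈ J) (k : ℕ) :
    ∀ i j, (X ^ (k + 1)) i j ∈ J ^ (k + 1) := by
  induction k with
  | zero =>
    intro i j
    have : J ^ (0 + 1) = J := by
      rw [zero_add]; exact Submodule.pow_one J
    rw [this, zero_add, pow_one]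
    exact hX i j
  | succ k ih =>
    intro i j
    rw [pow_succ, Matrix.mul_apply, Submodule.pow_succ]
    exact Ideal.sum_mem _ fun l _ => Ideal.mul_mem_mul (ih i l) (hX l j)

private lemma th_nil {R : Type*} [Ring R] (J : Ideal R) [J.IsTwoSided] (hJ : IsNilpotent J)
    {N : ℕ} (X : Matrix (Fin N) (Fin N) R) (hX : ∀ i j, X i j ∈ J) : IsNilpotent X := by
  obtain ⟨n, hn⟩ := hJ
  refine ⟨n + 1, ?_⟩
  ext i j
  have h := th_pow_mem J X hX n i j
  rw [Submodule.pow_succ, hn] at h
  rw [Matrix.zero_apply]
  have h0 : ((0 : Ideal R) * J : Ideal R) = ⊥ := by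
    rw [Submodule.zero_eq_bot]
    exact Submodule.bot_mul J
  rw [h0] at h
  exact (Submodule.mem_bot R).mp h

private lemma th_unit {R : Type*} [Ring R] (J : Ideal R) [J.IsTwoSided] (hJ : IsNilpotent J)
    {N : ℕ} (M : Matrix (Fin N) (Fin N) R) (hM : ∀ i j, (M - 1) i j ∈ J) : IsUnit M := by
  have h := (th_nil J hJ (M - 1) hM).isUnit_add_one
  rwa [sub_add_cancel] at h

private lemma th_inv_mem {R : Type*} [Ring R] (J : Ideal R) [J.IsTwoSided] (hJ : IsNilpotent J)
    {N : ℕ} (M : Matrix (Fin N) (Fin N) R) (hM : ∀ i j, (M - 1) i j ∈ J) :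
    ∀ i j, (Ring.inverse M - 1) i j ∈ J := by
  intro i j
  have hu := th_unit J hJ M hM
  have h1 : Ring.inverse M - 1 = -((M - 1) * Ring.inverse M) := by
    rw [sub_mul, Ring.mul_inverse_cancel M hu, one_mul]
    abel
  rw [h1, Matrix.neg_apply, Matrix.mul_apply]
  apply neg_mem
  exact Ideal.sum_mem _ fun l _ => Ideal.mul_mem_right _ J (hM i l)

private lemma th_scalar_unit {R : Type*} [Ring R] (J : Ideal R) [J.IsTwoSided]
    (hJ : IsNilpotent J) (g : R) (hg : g - 1 ∈ J) : IsUnit g := by
  obtain ⟨n, hn⟩ := hJ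
  have h1 : IsNilpotent (g - 1) := by
    refine ⟨n, ?_⟩
    have := Ideal.pow_mem_pow hg n
    rw [hn] at this
    exact (Submodule.mem_bot R).mp this
  have h := h1.isUnit_add_one
  rwa [sub_add_cancel] at h

private lemma th_map_inverse {A B : Type*} [Ring A] [Ring B] (f : A →+* B) (u : A)
    (hu : IsUnit u) : f (Ring.inverse u) = Ring.inverse (f u) := by
  obtain ⟨v, rfl⟩ := hu
  rw [Ring.inverse_unit]
  have : f (v : A) = ((Units.map (f : A →* B) v : Bˣ) : B) := rfl
  rw [this, Ring.inverse_unit]
  rfl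

private lemma th_map_matrix_inverse {R R' : Type*} [Ring R] [Ring R'] (f : R →+* R') {N : ℕ}
    (M : Matrix (Fin N) (Fin N) R) (hu : IsUnit M) (i j : Fin N) :
    f ((Ring.inverse M) i j) = (Ring.inverse (M.map f)) i j := by
  have h := th_map_inverse (f.mapMatrix (m := Fin N)) M hu
  have h2 := congrFun (congrFun h i) j
  exact h2

private lemma th_map_piv {R R' : Type*} [Ring R] [Ring R'] (f : R →+* R') (J : Ideal R)
    [J.IsTwoSided] (hJ : IsNilpotent J) : ∀ (N : ℕ) (M : Matrix (Fin N) (Fin N) R)
    (_ : ∀ i j, (M - 1) i j ∈ J), f (pivProd N M) = pivProd N (M.map f)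
  | 0, _, _ => by
    unfold pivProd
    exact map_one f
  | N + 1, M, hM => by
    unfold pivProd
    have hu := th_unit J hJ M hM
    have hmem := th_inv_mem J hJ M hM 0 0
    rw [Matrix.sub_apply, Matrix.one_apply_eq] at hmem
    have hu0 := th_scalar_unit J hJ _ hmem
    rw [map_mul, th_map_inverse f _ hu0, th_map_matrix_inverse f M hu]
    have hsub : ∀ i j, (M.submatrix Fin.succ Fin.succ - 1) i j ∈ J := by
      intro i j
      have := hM i.succ j.succ
      rw [Matrix.sub_apply, Matrix.one_apply] at this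
      rw [Matrix.sub_apply, Matrix.one_apply, Matrix.submatrix_apply]
      simpa only [Fin.succ_inj] using this
    rw [th_map_piv f J hJ N _ hsub]
    rfl

private lemma th_map_gev {R R' : Type*} [Ring R] [Ring R'] (f : R →+* R') {ι : Type*}
    (x : ι → R) (L : List (R ⊕ ι)) :
    f (gev x L) = gev (fun i => f (x i)) (L.map (Sum.map f id)) := by
  unfold gev
  rw [map_list_prod, List.map_map, List.map_map]
  congr 1
  apply List.map_congr_left
  intro a _
  rcases a with a | a <;> rfl

private lemma th_map_FL {R R' : Type*} [Ring R] [Ring R'] (f : R →+* R') {m : ℕ}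
    (L : List (R ⊕ (Fin m ⊕ Fin m))) (x z : Fin m → R) :
    f (FL L x z) = FL (L.map (Sum.map f id)) (fun i => f (x i)) (fun i => f (z i)) := by
  unfold FL
  rw [map_sum]
  refine Finset.sum_congr rfl fun σ _ => ?_
  rw [map_sum]
  refine Finset.sum_congr rfl fun τ _ => ?_
  rw [map_zsmul, th_map_gev]
  congr 2
  funext i
  rcases i with i | i <;> rfl

theorem theta_map {R R' : Type*} [Ring R] [Ring R'] (f : R →+* R') (J : Ideal R) [J.IsTwoSided]
    (hJ : IsNilpotent J) {m N : ℕ} (L : List (R ⊕ (Fin m ⊕ Fin m))) (x z : Fin m → R) (w : R)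
    (M Y : Matrix (Fin N) (Fin N) R) (hM : ∀ i j, (M - 1) i j ∈ J) :
    f (theta L x z w M Y) = theta (L.map (Sum.map f id)) (fun i => f (x i)) (fun i => f (z i)) (f w)
      (M.map f) (Y.map f) := by
  unfold theta
  rw [map_sum]
  refine Finset.sum_congr rfl fun a _ => ?_
  rw [map_sum]
  refine Finset.sum_congr rfl fun b _ => ?_
  rw [map_mul, map_mul, map_mul, th_map_FL, th_map_matrix_inverse f M (th_unit J hJ M hM)]
  simp only [map_mul, th_map_piv f J hJ N M hM]
  rfl

/-! ### Conjugation -/

private lemma th_inverse_conj {A : Type*} [Ring A] (u v M : A) (huv : u * v = 1) (hvu : v * u = 1) :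
    Ring.inverse (u * M * v) = u * Ring.inverse M * v := by
  by_cases hM : IsUnit M
  · have h : IsUnit (u * M * v) := by
      have hu : IsUnit u := ⟨⟨u, v, huv, hvu⟩, rfl⟩
      have hv : IsUnit v := ⟨⟨v, u, hvu, huv⟩, rfl⟩
      exact (hu.mul hM).mul hv
    have h1 : (u * M * v) * (u * Ring.inverse M * v) = 1 := by
      have : (u * M * v) * (u * Ring.inverse M * v)
          = u * (M * (v * u) * Ring.inverse M) * v := by
        simp only [mul_assoc]
      rw [this, hvu, mul_one, Ring.mul_inverse_cancel M hM, mul_one, huv]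
    calc Ring.inverse (u * M * v)
        = Ring.inverse (u * M * v) * ((u * M * v) * (u * Ring.inverse M * v)) := by
          rw [h1, mul_one]
      _ = _ := by rw [← mul_assoc, Ring.inverse_mul_cancel _ h, one_mul]
  · have h : ¬ IsUnit (u * M * v) := by
      intro h
      apply hM
      have hu : IsUnit u := ⟨⟨u, v, huv, hvu⟩, rfl⟩
      have hv : IsUnit v := ⟨⟨v, u, hvu, huv⟩, rfl⟩
      have h2 : M = v * (u * M * v) * u := by
        have : v * (u * M * v) * u = (v * u) * M * (v * u) := by simp only [mul_assoc]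
        rw [this, hvu, one_mul, mul_one]
      rw [h2]
      exact (hv.mul h).mul hu
    rw [Ring.inverse_non_unit _ h, Ring.inverse_non_unit _ hM, mul_zero, zero_mul]

private lemma theta_eq_trace {R : Type*} [Ring R] {m N : ℕ} (L : List (R ⊕ (Fin m ⊕ Fin m)))
    (x z : Fin m → R) (w : R) (M Y : Matrix (Fin N) (Fin N) R) :
    theta L x z w M Y = (Y * Ring.inverse M).trace *
      (w * FL L x (fun i => pivProd N M * z i)) := by
  unfold theta Matrix.trace
  rw [Finset.sum_mul, Finset.sum_comm]
  refine Finset.sum_congr rfl fun b _ => ?_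
  rw [Matrix.diag_apply, Matrix.mul_apply, Finset.sum_mul]
  refine Finset.sum_congr rfl fun a _ => ?_
  rw [mul_assoc]

private lemma th_trace_conj {R : Type*} [Ring R] {N : ℕ} (X : Matrix (Fin N) (Fin N) R)
    (a b : Fin N) (hab : a ≠ b) :
    ((1 + Matrix.single a b (1 : R)) * X * (1 - Matrix.single a b (1 : R))).trace = X.trace := by
  have h1 : (1 + Matrix.single a b (1 : R)) * X * (1 - Matrix.single a b (1 : R)) =
      X + Matrix.single a b (1 : R) * X - X * Matrix.single a b (1 : R)
        - Matrix.single a b (1 : R) * X * Matrix.single a b (1 : R) := by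
    rw [add_mul, one_mul, mul_sub, mul_one, add_mul]
    abel
  have h2 : (Matrix.single a b (1 : R) * X).trace = X b a := by
    unfold Matrix.trace
    rw [Finset.sum_eq_single a]
    · rw [Matrix.diag_apply, Matrix.mul_apply, Finset.sum_eq_single b]
      · rw [Matrix.single_apply_same, one_mul]
      · intro c _ hc
        rw [Matrix.single_apply_of_col_ne _ _ (Ne.symm hc), zero_mul]
      · intro h; exact absurd (Finset.mem_univ _) h
    · intro c _ hc
      rw [Matrix.diag_apply, Matrix.mul_apply]
      apply Finset.sum_eq_zero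
      intro d _
      rw [Matrix.single_apply_of_row_ne (Ne.symm hc), zero_mul]
    · intro h; exact absurd (Finset.mem_univ _) h
  have h3 : (X * Matrix.single a b (1 : R)).trace = X b a := by
    unfold Matrix.trace
    rw [Finset.sum_eq_single b]
    · rw [Matrix.diag_apply, Matrix.mul_apply, Finset.sum_eq_single a]
      · rw [Matrix.single_apply_same, mul_one]
      · intro c _ hc
        rw [Matrix.single_apply_of_row_ne (Ne.symm hc), mul_zero]
      · intro h; exact absurd (Finset.mem_univ _) h
    · intro c _ hc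
      rw [Matrix.diag_apply, Matrix.mul_apply]
      apply Finset.sum_eq_zero
      intro d _
      rw [Matrix.single_apply_of_col_ne _ _ (Ne.symm hc), mul_zero]
    · intro h; exact absurd (Finset.mem_univ _) h
  have h4 : (Matrix.single a b (1 : R) * X * Matrix.single a b (1 : R)).trace = 0 := by
    unfold Matrix.trace
    apply Finset.sum_eq_zero
    intro c _
    rw [Matrix.diag_apply, Matrix.mul_apply]
    apply Finset.sum_eq_zero
    intro d _
    by_cases hc : a = c
    · rw [Matrix.single_apply_of_col_ne _ _ (by rw [← hc]; exact Ne.symm hab), mul_zero]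
    · rw [Matrix.mul_apply]
      have : ∑ j, Matrix.single a b (1 : R) c j * X j d = 0 := by
        apply Finset.sum_eq_zero
        intro e _
        rw [Matrix.single_apply_of_row_ne hc, zero_mul]
      rw [this, zero_mul]
  rw [h1, Matrix.trace_sub, Matrix.trace_sub, Matrix.trace_add, h2, h3, h4]
  abel

theorem theta_conj {R : Type*} [Ring R] {P : AddSubgroup R} {m : ℕ} (hP : TwoSided P)
    (hcap : CapR P (m + 1)) (J : Ideal R) [J.IsTwoSided] (hJ : IsNilpotent J) {N : ℕ}
    (L : List (R ⊕ (Fin m ⊕ Fin m))) (hL : Once L) (x z : Fin m → R) (hx : ∀ i, x i ∈ P)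
    (hz : ∀ i, z i ∈ P) (w : R)
    (M Y : Matrix (Fin N) (Fin N) R) (hM : ∀ i j, (M - 1) i j ∈ J)
    (hY : ∀ i j r, Y i j * r = r * Y i j) (a b : Fin N) (hab : a ≠ b) :
    theta L x z w ((1 + Matrix.single a b (1 : R)) * M * (1 - Matrix.single a b (1 : R)))
        ((1 + Matrix.single a b (1 : R)) * Y * (1 - Matrix.single a b (1 : R)))
      = theta L x z w M Y := by
  have hEE : Matrix.single a b (1 : R) * Matrix.single a b (1 : R) = 0 :=
    Matrix.single_mul_single_of_ne _ _ _ _ (Ne.symm hab) _
  have huv : (1 + Matrix.single a b (1 : R)) * (1 - Matrix.single a b (1 : R)) = 1 := by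
    rw [add_mul, one_mul, mul_sub, mul_one, hEE]
    abel
  have hvu : (1 - Matrix.single a b (1 : R)) * (1 + Matrix.single a b (1 : R)) = 1 := by
    rw [sub_mul, one_mul, mul_add, mul_one, hEE]
    abel
  rw [theta_eq_trace, theta_eq_trace, th_inverse_conj _ _ M huv hvu]
  have htr : (((1 + Matrix.single a b (1 : R)) * Y * (1 - Matrix.single a b (1 : R))) *
      ((1 + Matrix.single a b (1 : R)) * Ring.inverse M * (1 - Matrix.single a b (1 : R)))).trace
      = (Y * Ring.inverse M).trace := by
    have h1 : ((1 + Matrix.single a b (1 : R)) * Y * (1 - Matrix.single a b (1 : R))) *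
      ((1 + Matrix.single a b (1 : R)) * Ring.inverse M * (1 - Matrix.single a b (1 : R)))
      = (1 + Matrix.single a b (1 : R)) * (Y * ((1 - Matrix.single a b (1 : R)) *
        (1 + Matrix.single a b (1 : R))) * Ring.inverse M) * (1 - Matrix.single a b (1 : R)) := by
      simp only [mul_assoc]
    rw [h1, hvu, mul_one]
    exact th_trace_conj _ a b hab
  rw [htr]
  congr 2
  -- the congruence
  let c : Con R :=
    { r := fun h h' => ∀ z : Fin m → R, (∀ i, z i ∈ P) →
        FL L x (fun i => h * z i) = FL L x (fun i => h' * z i)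
      iseqv :=
        { refl := fun _ _ _ => rfl
          symm := fun h z hz => (h z hz).symm
          trans := fun h h' z hz => (h z hz).trans (h' z hz) }
      mul' := by
        intro h h' g g' hh hg z hz
        have e1 : FL L x (fun i => h * g * z i) = FL L x (fun i => h' * g * z i) := by
          have := hh (fun i => g * z i) (fun i => hP.left g _ (hz i))
          simpa only [mul_assoc] using this
        have e2 : FL L x (fun i => h' * g * z i) = FL L x (fun i => g * (h' * z i)) := by
          have := FL_comm hP hcap L hL x z hx hz h' g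
          simpa only [mul_assoc] using this
        have e3 : FL L x (fun i => g * (h' * z i)) = FL L x (fun i => g' * (h' * z i)) :=
          hg (fun i => h' * z i) (fun i => hP.left h' _ (hz i))
        have e4 : FL L x (fun i => g' * (h' * z i)) = FL L x (fun i => h' * g' * z i) := by
          have := FL_comm hP hcap L hL x z hx hz g' h'
          simpa only [mul_assoc] using this
        exact e1.trans (e2.trans (e3.trans e4)) }
  let Γ : CommMonoid c.Quotient :=
    { (inferInstance : Monoid c.Quotient) with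
      mul_comm := by
        intro p q
        induction p using Con.induction_on with
        | H p =>
          induction q using Con.induction_on with
          | H q =>
            rw [← Con.coe_mul, ← Con.coe_mul]
            apply (Con.eq c).mpr
            intro z hz
            have := FL_comm hP hcap L hL x z hx hz p q
            simpa only [mul_assoc] using this }
  have hpiv := @pivProd_conj R _ J _ hJ c.Quotient Γ
    (c.mk' : R →* c.Quotient) N M hM a b hab 1
  rw [Int.cast_one] at hpiv
  exact ((Con.eq c).mp hpiv) z hz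

theorem theta_diag {R : Type*} [Ring R] {m N : ℕ}
    (L : List (R ⊕ (Fin m ⊕ Fin m))) (x z : Fin m → R) (w : R)
    (M Y : Matrix (Fin N) (Fin N) R) (d : Fin N → Rˣ) (hd : ∀ i r, (d i : R) * r = r * d i) :
    theta L x z w (Matrix.of fun i j => (d i : R) * M i j * ((d j)⁻¹ : Rˣ))
        (Matrix.of fun i j => (d i : R) * Y i j * ((d j)⁻¹ : Rˣ))
      = theta L x z w M Y := by
  have hconj : ∀ X : Matrix (Fin N) (Fin N) R,
      (Matrix.of fun i j => (d i : R) * X i j * ((d j)⁻¹ : Rˣ)) =
      Matrix.diagonal (fun i => (d i : R)) * X * Matrix.diagonal (fun i => (((d i)⁻¹ : Rˣ) : R)) := by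
    intro X
    ext i j
    rw [Matrix.mul_diagonal, Matrix.diagonal_mul]
    rfl
  have huv : Matrix.diagonal (fun i => (d i : R)) *
      Matrix.diagonal (fun i => (((d i)⁻¹ : Rˣ) : R)) = 1 := by
    rw [Matrix.diagonal_mul_diagonal]
    simp
  have hvu : Matrix.diagonal (fun i => (((d i)⁻¹ : Rˣ) : R)) *
      Matrix.diagonal (fun i => (d i : R)) = 1 := by
    rw [Matrix.diagonal_mul_diagonal]
    simp
  have hinv : Ring.inverse (Matrix.of fun i j => (d i : R) * M i j * ((d j)⁻¹ : Rˣ)) =
      Matrix.of fun i j => (d i : R) * (Ring.inverse M) i j * ((d j)⁻¹ : Rˣ) := by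
    rw [hconj M, th_inverse_conj _ _ M huv hvu, ← hconj]
  unfold theta
  rw [hinv, pivProd_diag M d hd]
  refine Finset.sum_congr rfl fun a _ => Finset.sum_congr rfl fun b _ => ?_
  rw [Matrix.of_apply, Matrix.of_apply, ← mul_assoc, ← mul_assoc (Y b a)]
  congr 1
  have h1 : (d b : R) * Y b a * ((d a)⁻¹ : Rˣ) * ((d a : R) * (Ring.inverse M) a b * ((d b)⁻¹ : Rˣ))
      = (d b : R) * (Y b a * (Ring.inverse M) a b) * ((d b)⁻¹ : Rˣ) := by
    have : (d b : R) * Y b a * ((d a)⁻¹ : Rˣ) *
        ((d a : R) * (Ring.inverse M) a b * ((d b)⁻¹ : Rˣ)) =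
        (d b : R) * (Y b a * ((((d a)⁻¹ : Rˣ) : R) * (d a : R)) * (Ring.inverse M) a b) *
          ((d b)⁻¹ : Rˣ) := by
      simp only [mul_assoc]
    rw [this, Units.inv_mul, mul_one]
  rw [h1, hd b, mul_assoc, Units.mul_inv, mul_one]

end TF
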